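import Pool.Agent.Lib.MP_a2eab4_al.Unip

set_option autoImplicit false

/-! A finite conjugation invariant set of right Engel elements generates a nilpotent group. -/

namespace Pool.Agent.Lib.MP_a2eab4_al

open Subgroup

variable {G : Type*} [Group G]

lemma iter_dl_eq (h a : G) (k : ℕ) : (dl h⁻¹)^[k + 1] a =
    h ^ k * ((fun c => c⁻¹ * h * c)^[k + 1] a * h⁻¹) * (h ^ k)⁻¹ := by
  induction k with
  | zero => simp [dl]
  | succ k ih =>
    rw [Function.iterate_succ_apply', ih,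
      Function.iterate_succ_apply' (fun c => c⁻¹ * h * c) (k + 1)]
    simp only [dl]
    group

lemma iter_dl_add {g a : G} {n : ℕ} (h : (dl g)^[n] a = 1) (m : ℕ) : (dl g)^[m + n] a = 1 := by
  rw [Function.iterate_add_apply, h]
  exact Function.iterate_fixed (by simp [dl]) m

lemma iter_dl_le {g a : G} {n m : ℕ} (h : (dl g)^[n] a = 1) (hm : n ≤ m) : (dl g)^[m] a = 1 := by
  rw [← Nat.sub_add_cancel hm]
  exact iter_dl_add h _

lemma iter_conj_eq {h a : G} {n : ℕ} (hn : (dl h⁻¹)^[n] a = 1) :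
    (fun c => c⁻¹ * h * c)^[n + 1] a = h := by
  have h1 := iter_dl_le hn (Nat.le_succ n)
  rw [iter_dl_eq] at h1
  simpa [mul_inv_eq_one] using h1

lemma exists_last {α : Type*} (τ : α → α) (P H : α → Prop) (hP : ∀ c, P c → P (τ c)) :
    ∀ (n : ℕ) (x : α), P x → ¬ H x → H (τ^[n] x) → ∃ c, P c ∧ ¬ H c ∧ H (τ c) := by
  intro n
  induction n with
  | zero => exact fun x _ h1 h2 => absurd h2 h1
  | succ n ih =>
    intro x hx h1 h2
    by_cases h3 : H (τ x)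
    · exact ⟨x, hx, h1, h3⟩
    · exact ih (τ x) (hP x hx) h3 h2

/-- sets invariant under conjugation by their own elements -/
def Inv (H : Set G) : Prop := H ⊆ normalizer H

lemma Inv.inter {H K : Set G} (h : Inv H) (h' : Inv K) : Inv (H ∩ K) := fun _ hx n =>
  and_congr (h hx.1 n) (h' hx.2 n)

lemma Inv.conj {H : Set G} (h : Inv H) (g : G) : Inv {x | g * x * g⁻¹ ∈ H} := fun x hx n => by
  have e : g * x * g⁻¹ * (g * n * g⁻¹) * (g * x * g⁻¹)⁻¹ = g * (x * n * x⁻¹) * g⁻¹ := by group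
  have := h hx (g * n * g⁻¹)
  rwa [e] at this

lemma ncard_conj (H : Set G) (g : G) : {x | g * x * g⁻¹ ∈ H}.ncard = H.ncard :=
  Set.ncard_preimage_of_injective_subset_range (f := MulAut.conj g) (MulAut.conj g).injective
    fun x _ => (MulAut.conj g).surjective x

theorem exists_normalizing : ∀ (m : ℕ) (Q : Set G), Q.Finite → Q.ncard = m → Inv Q →
    (∀ x ∈ Q, ∀ y ∈ Q, ∃ n, (fun c => c⁻¹ * y * c)^[n] x = y) →
    ∀ H ⊆ Q, Inv H → H ≠ Q → ∃ x ∈ Q, x ∉ H ∧ x ∈ normalizer H := by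
  intro m
  induction m using Nat.strong_induction_on with
  | _ m ih =>
  intro Q hQ hm hI hE H hHQ hH hne
  by_cases hall : ∀ g ∈ Q, g ∈ normalizer H
  · obtain ⟨x, hx, hx'⟩ := Set.exists_of_ssubset (hHQ.ssubset_of_ne hne)
    exact ⟨x, hx, hx', hall x hx⟩
  push Not at hall
  obtain ⟨g, ⟨hgQ, hg⟩, hmax⟩ := Set.exists_max_image {g | g ∈ Q ∧ g ∉ normalizer H}
    (fun g => (H ∩ {x | g * x * g⁻¹ ∈ H}).ncard) (hQ.subset fun _ h => h.1) hall
  have hHf : H.Finite := hQ.subset hHQ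
  have hlt : H.ncard < m := hm ▸ Set.ncard_lt_ncard (hHQ.ssubset_of_ne hne) hQ
  have hK : {x | g * x * g⁻¹ ∈ H} ⊆ Q := fun x hx => (hI hgQ x).mpr (hHQ hx)
  have hKf : {x | g * x * g⁻¹ ∈ H}.Finite := hQ.subset hK
  have hHK : H ≠ {x | g * x * g⁻¹ ∈ H} := fun h => hg fun n => Set.ext_iff.mp h n
  have hI' := hH.inter (hH.conj g)
  obtain ⟨y, hyH, hyI, hyN⟩ := ih _ hlt H hHf rfl hH (fun x hx y hy => hE x (hHQ hx) y (hHQ hy))
    _ Set.inter_subset_left hI' fun h => hHK (Set.eq_of_subset_of_ncard_le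
      (Set.inter_eq_left.mp h) (ncard_conj H g).le hKf)
  obtain ⟨x, hxK, hxI, hxN⟩ := ih _ hlt _ hKf (ncard_conj H g) (hH.conj g)
    (fun x hx y hy => hE x (hK hx) y (hK hy)) _ Set.inter_subset_right hI'
    fun h => hHK (Set.eq_of_subset_of_ncard_le (Set.inter_eq_right.mp h)
      (ncard_conj H g).ge hHf).symm
  obtain ⟨n, hn⟩ := hE x (hK hxK) y (hHQ hyH)
  obtain ⟨c, ⟨hcQ, hcN⟩, hcH, hc⟩ := exists_last (fun c => c⁻¹ * y * c)
    (fun c => c ∈ Q ∧ c ∈ normalizer (H ∩ {x | g * x * g⁻¹ ∈ H})) (· ∈ H)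
    (fun c hc => ⟨(mem_set_normalizer_iff''.mp (hI hc.1) y).mp (hHQ hyH),
      mul_mem (mul_mem (inv_mem hc.2) hyN) hc.2⟩) n x ⟨hK hxK, hxN⟩
    (fun h => hxI ⟨h, hxK⟩) (hn.symm ▸ hyH)
  refine ⟨c, hcQ, hcH, ?_⟩
  by_contra hcon
  refine (hmax c ⟨hcQ, hcon⟩).not_gt (Set.ncard_lt_ncard ⟨fun z hz => ⟨hz.1, ((hcN z).mp hz).1⟩,
    fun h => hyI ((mem_set_normalizer_iff''.mp hcN y).mpr (h ⟨hc, ?_⟩))⟩
    (hHf.subset Set.inter_subset_left))
  simpa [mul_assoc] using hyH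

theorem nilpotent_closure {X : Set G} (hX : X.Finite) (hI : Inv X) {n : ℕ}
    (hE : ∀ x ∈ X, ∀ g, (dl g)^[n] x = 1) : ∃ c, (closure X).lowerCentralSeries c = ⊥ := by
  obtain ⟨H, ⟨hHX, hH, c, hc⟩, hmax⟩ := Set.exists_max_image
    {H | H ⊆ X ∧ Inv H ∧ ∃ c, (closure H).lowerCentralSeries c = ⊥} Set.ncard
    (hX.powerset.subset fun _ h => h.1) ⟨∅, Set.empty_subset _, Set.empty_subset _, 0, by simp⟩
  by_cases hne : H = X
  · exact ⟨c, hne ▸ hc⟩
  obtain ⟨x, hx, hxH, hxN⟩ := exists_normalizing _ X hX rfl hI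
    (fun x hx y _ => ⟨n + 1, iter_conj_eq (hE x hx y⁻¹)⟩) H hHX hH hne
  have h1 := lcs_sup_le (normalizer_le_normalizer_closure H hxN) (fun s hs => hE s (hHX hs) x) c
  rw [hc] at h1
  have h2 : H ⊂ X ∩ (closure H ⊔ zpowers x : Subgroup G) :=
    ⟨fun z hz => ⟨hHX hz, mem_sup_left (subset_closure hz)⟩,
      fun h => hxH (h ⟨hx, mem_sup_right (mem_zpowers x)⟩)⟩
  exact absurd (hmax (X ∩ (closure H ⊔ zpowers x : Subgroup G)) ⟨Set.inter_subset_left,
    hI.inter le_normalizer, bd n c, le_bot_iff.mp ((lowerCentralSeries_mono _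
      ((closure_le _).mpr Set.inter_subset_right)).trans h1)⟩)
    (Set.ncard_lt_ncard h2 (hX.subset Set.inter_subset_left)).not_ge

/-- a finite normal set of right Engel elements generates a subgroup of right Engel elements -/
theorem closure_engel {X : Set G} (hX : X.Finite) (hI : ∀ g, g ∈ normalizer X) {n : ℕ}
    (hE : ∀ x ∈ X, ∀ g, (dl g)^[n] x = 1) : ∃ m, ∀ u ∈ closure X, ∀ g, (dl g)^[m] u = 1 := by
  obtain ⟨c, hc⟩ := nilpotent_closure hX (fun g _ => hI g) hE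
  refine ⟨bd n c, fun u hu g => ?_⟩
  have h1 := lcs_sup_le (normalizer_le_normalizer_closure X (hI g)) (fun s hs => hE s hs g) c
  rw [hc] at h1
  exact h1 (iter_mem_lcs (mem_sup_right (mem_zpowers g)) (mem_sup_left hu) _)

end Pool.Agent.Lib.MP_a2eab4_al
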