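import Pool.Agent.Lib.MP_a2eab4_al.Baer

set_option autoImplicit false

/-! Counting, isolation, and passage to quotients by terms of the upper central series. -/

namespace Pool.Agent.Lib.MP_a2eab4_al

open Subgroup
open scoped commutatorElement

variable {G : Type*} [Group G]

lemma map_iter_dl {Q : Type*} [Group Q] (f : G →* Q) (g a : G) (n : ℕ) :
    f ((dl g)^[n] a) = (dl (f g))^[n] (f a) := by
  induction n with
  | zero => rfl
  | succ n ih =>
    rw [Function.iterate_succ_apply', Function.iterate_succ_apply', ← ih]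
    simp only [dl, map_mul, map_inv]

lemma engel_conj {a : G} {n : ℕ} (h : ∀ g, (dl g)^[n] a = 1) (w g : G) :
    (dl g)^[n] (w * a * w⁻¹) = 1 := by
  have h1 := map_iter_dl (MulAut.conj w).toMonoidHom (w⁻¹ * g * w) a n
  rw [h, map_one] at h1
  simpa [mul_assoc] using h1.symm

lemma mem_of_isolated {H : Subgroup G} {h : G} (hh : h ∈ H) (hi : ∀ x, x⁻¹ * h * x ∈ H → x ∈ H) :
    ∀ (n : ℕ) (a : G), (dl h⁻¹)^[n] a ∈ H → a ∈ H := by
  intro n
  induction n with
  | zero => exact fun _ h => h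
  | succ n ih =>
    intro a ha
    have h1 := mul_mem (ih _ ha) hh
    exact hi a (by simpa [dl, mul_assoc] using h1)

lemma finite_engel {N : Subgroup G} {k : G} (hk : k ∈ normalizer (N : Set G))
    (hf : ((centralizer {k} ⊓ N : Subgroup G) : Set G).Finite) (n : ℕ) :
    {x | x ∈ N ∧ (dl k)^[n] x = 1}.Finite := by
  induction n with
  | zero => exact (Set.finite_singleton 1).subset fun x hx => hx.2
  | succ n ih =>
    have h1 : ∀ t : G, {x | x ∈ N ∧ dl k x = t}.Finite := fun t => by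
      rcases Set.eq_empty_or_nonempty {x | x ∈ N ∧ dl k x = t} with h | ⟨y, hy, hy'⟩
      · rw [h]
        exact Set.finite_empty
      refine (hf.image (· * y)).subset fun x hx => ⟨x * y⁻¹, ⟨?_, N.mul_mem hx.1 (N.inv_mem hy)⟩,
        by simp⟩
      have h2 : dl k x = dl k y := hx.2.trans hy'.symm
      refine mem_centralizer_singleton_iff.mpr ?_
      calc x * y⁻¹ * k = k * x * dl k x * k⁻¹ * y⁻¹ * k := by simp only [dl]; group
        _ = k * (x * y⁻¹) := by rw [h2]; simp only [dl]; group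
    exact (ih.biUnion fun t _ => h1 t).subset fun x hx =>
      Set.mem_biUnion (t := fun t => {x | x ∈ N ∧ dl k x = t}) ⟨dl_mem hk hx.1, hx.2⟩ ⟨hx.1, rfl⟩

theorem exists_subgroup {L : Subgroup G} {k : G} (hL : ∀ a n, (∀ g, (dl g)^[n] a = 1) → a ∈ L)
    (hf : ((centralizer {k} ⊓ L : Subgroup G) : Set G).Finite) :
    ∃ H : Subgroup G, (H : Set G) = {a | ∃ n, ∀ g, (dl g)^[n] a = 1} := by
  have hR : ∀ g : G, g ∈ normalizer {a : G | ∃ n, ∀ g, (dl g)^[n] a = 1} := fun g a =>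
    ⟨fun ⟨n, h⟩ => ⟨n, engel_conj h g⟩, fun ⟨n, h⟩ => ⟨n, by
      simpa [mul_assoc] using engel_conj h g⁻¹⟩⟩
  have key : ∀ n, ∃ m, ∀ u ∈ closure {a : G | ∀ g, (dl g)^[n] a = 1}, ∀ g, (dl g)^[m] u = 1 :=
    fun n => closure_engel ((finite_engel (normalizer_le_normalizer_closure _ (hR k))
      (hf.subset (inf_le_inf_left _ ((closure_le _).mpr fun a ⟨n, h⟩ => hL a n h))) n).subset
        fun a ha => ⟨subset_closure ⟨n, ha⟩, ha k⟩)
      (fun g a => ⟨fun h => engel_conj h g, fun h => by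
        simpa [mul_assoc] using engel_conj h g⁻¹⟩) fun _ h => h
  refine ⟨⟨⟨⟨{a | ∃ n, ∀ g, (dl g)^[n] a = 1}, ?_⟩, 0, fun _ => rfl⟩, ?_⟩, rfl⟩
  · rintro a b ⟨n, ha⟩ ⟨n', hb⟩
    obtain ⟨m, hm⟩ := key (max n n')
    exact ⟨m, hm _ (mul_mem (subset_closure fun g => iter_dl_le (ha g) (le_max_left _ _))
      (subset_closure fun g => iter_dl_le (hb g) (le_max_right _ _)))⟩
  · rintro a ⟨n, ha⟩
    obtain ⟨m, hm⟩ := key n
    exact ⟨m, hm _ (inv_mem (subset_closure ha))⟩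

lemma iter_of_mem_ucs (g : G) :
    ∀ (j : ℕ), ∀ u ∈ Subgroup.upperCentralSeries G j, (dl g)^[j] u = 1 := by
  intro j
  induction j with
  | zero => exact fun u hu => hu
  | succ j ih =>
    refine fun u hu => ih _ ?_
    have : dl g u = ⁅u⁻¹, g⁻¹⁆ := by simp only [dl, commutatorElement_def, inv_inv]
    rw [this]
    exact Subgroup.mem_upperCentralSeries_succ_iff.mp (inv_mem hu) _

theorem exists_subgroup_of_quotient (j : ℕ)
    (h : ∃ H : Subgroup (G ⧸ Subgroup.upperCentralSeries G j),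
    (H : Set (G ⧸ Subgroup.upperCentralSeries G j)) = {a | ∃ n, ∀ g, (dl g)^[n] a = 1}) :
    ∃ H : Subgroup G, (H : Set G) = {a | ∃ n, ∀ g, (dl g)^[n] a = 1} := by
  obtain ⟨H, hH⟩ := h
  refine ⟨H.comap (QuotientGroup.mk' _), Set.ext fun a => ?_⟩
  rw [coe_comap, hH]
  refine ⟨fun ⟨n, h⟩ => ⟨j + n, fun g => ?_⟩, fun ⟨n, h⟩ => ⟨n, fun g => ?_⟩⟩
  · rw [Function.iterate_add_apply]
    refine iter_of_mem_ucs g j _ ((QuotientGroup.eq_one_iff _).mp ?_)
    exact (map_iter_dl (QuotientGroup.mk' _) g a n).trans (h _)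
  · obtain ⟨g, rfl⟩ := QuotientGroup.mk'_surjective _ g
    rw [← map_iter_dl, h, map_one]

end Pool.Agent.Lib.MP_a2eab4_al
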