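import Pool.Agent.Lib.MP_429c3d_al.NgT8

/-! Trees on which commutators that fix an apex are trivial and no element swaps two apices. -/

set_option autoImplicit false

namespace Pool.Agent.Lib.MP_429c3d_al.Ng

open Hyp

section EqK

variable {H Z : Type} [Group H] [MulAction H Z]

/-- No three different points of the orbit have equivalent pairs. -/
def EqK (K : Subgroup H) (h : Z) : Prop :=
  ∀ f ∈ K, ∀ f' ∈ K, f • h ≠ h → f' • h ≠ h → f • h ≠ f' • h →
    PK K h (f • h) h (f' • h) → PK K h (f • h) (f • h) (f' • h) → False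

theorem EqK.map {K : Subgroup H} {H' Z' : Type} [Group H'] [MulAction H' Z'] {h : Z}
    (hT : EqK K h) (φ : H →* H') (ι : Z → Z')
    (hι : ∀ g ∈ K, ∀ g' ∈ K, ι (g • h) = ι (g' • h) → g • h = g' • h)
    (he : ∀ g ∈ K, ∀ g' ∈ K, ι (g • g' • h) = φ g • ι (g' • h)) : EqK (K.map φ) (ι h) := by
  have e1 : ∀ g ∈ K, φ g • ι h = ι (g • h) := fun g hg => by
    simpa using (he g hg 1 (one_mem _)).symm
  have pe : ∀ a ∈ K, ∀ b ∈ K, ∀ c ∈ K, ∀ d ∈ K,
      PK (K.map φ) (ι (a • h)) (ι (b • h)) (ι (c • h)) (ι (d • h)) →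
      PK K (a • h) (b • h) (c • h) (d • h) := by
    rintro a ha b hb c hc d hd ⟨_, ⟨g, hg, rfl⟩, e⟩
    rw [← he g hg a ha, ← he g hg b hb, ← mul_smul, ← mul_smul] at e
    refine ⟨g, hg, ?_⟩
    rw [← mul_smul, ← mul_smul]
    exact e.imp (fun e => ⟨hι _ (mul_mem hg ha) _ hc e.1, hι _ (mul_mem hg hb) _ hd e.2⟩)
      fun e => ⟨hι _ (mul_mem hg ha) _ hd e.1, hι _ (mul_mem hg hb) _ hc e.2⟩
  rintro _ ⟨f, hf, rfl⟩ _ ⟨f', hf', rfl⟩ h1 h2 h3 h4 h5
  rw [e1 f hf, e1 f' hf'] at *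
  refine hT f hf f' hf' (fun e => h1 (by rw [e])) (fun e => h2 (by rw [e]))
    (fun e => h3 (by rw [e])) ?_ ?_
  · simpa using pe 1 (one_mem _) f hf 1 (one_mem _) f' hf' (by simpa using h4)
  · simpa using pe 1 (one_mem _) f hf f hf f' hf' (by simpa using h5)

end EqK

namespace BT

variable {H V : Type} [Group H] [MulAction H V] {T : BT H V} {l l' : ℤ → V} {g g' y c e : H}
  {s s' n : ℤ} {p q : V}

/-- Weak acylindricity hypotheses. -/
structure AW (T : BT H V) : Prop where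
  ne : Nonempty V
  tf : TF H
  com : ∀ (a b : H) (x : V), T.ap x → (a * b) • x = (b * a) • x → a * b = b * a
  rc : ∀ (g : H) (x : V), T.ap x → g • g • x = x → g • x = x

/-- All root pairs have the property `EqK`. -/
def EqH (T : BT H V) : Prop := ∀ C α, T.Root C α → EqK (MulAction.stabilizer H C) α

theorem IsL.exists_ap (h : T.IsL l) (a : ℤ) : ∃ i, a ≤ i ∧ i ≤ a + 1 ∧ T.ap (l i) := by
  by_cases ha : T.ap (l a)
  exacts [⟨a, le_rfl, by omega, ha⟩, ⟨a + 1, by omega, le_rfl, h.ap_succ ha⟩]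

namespace AW

variable (A : T.AW)
include A

theorem ab {a b : H} {x : V} (hx : T.ap x) (ha : a • x = x) (hb : b • x = x) : a * b = b * a :=
  A.com a b x hx (by rw [mul_smul, mul_smul, hb, ha, hb])

theorem flip2 {x y : V} (hx : g • x = y) (hy : g • y = x) (ha : T.ap x) (h : x ≠ y) : False :=
  h ((A.rc g x ha (by rw [hx, hy])).symm.trans hx)

theorem flip3 {x y : V} (hx : g • x = y) (hy : g • y = x) (h : 3 ≤ T.d x y) : False := by
  by_cases ha : T.ap x
  · exact A.flip2 hx hy ha (T.ne_of (by omega))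
  obtain ⟨u, u1, u2⟩ := T.exists_pt x y (k := 1) (by omega)
  have e1 : T.d y (g • u) = 1 := by rw [← hx, T.inv, u1]
  have e2 : T.d (g • u) x = T.d u y := by rw [← hy, T.inv]
  have e3 : g • g • u = u := by
    rw [← mul_smul]
    exact T.fix_of_between (x := x) (y := y) (by rw [mul_smul, hx, hy])
      (by rw [mul_smul, hy, hx]) (by omega)
  refine A.flip2 (g := g) rfl e3 ((T.bip u x (by rw [T.symm, u1])).2 ha) fun e => ?_
  rw [← e, T.symm y u] at e1
  omega

theorem ax_comm (h : T.Ax g l s) (h' : T.Ax g' l s') : g * g' = g' * g := by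
  obtain ⟨i, -, -, hi⟩ := h.1.exists_ap 0
  exact A.com _ _ _ hi (by rw [(h.mul h').2, (h'.mul h).2, add_comm s])

theorem not_rev (hl : T.IsL l) {u : ℤ} (h : ∀ j, g • l j = l (u - j)) : False := by
  have := hl.even (h 0)
  exact A.flip3 (x := l (u / 2 - 2)) (y := l (u / 2 + 2)) (g := g)
    (by rw [h]; congr 1; omega) (by rw [h]; congr 1; omega) (by rw [hl]; omega)

theorem ax_of_mem (hl : T.IsL l) (h : ∀ j, ∃ p, g • l j = l p) : ∃ u, T.Ax g l u := by
  obtain ⟨u, hu | hu⟩ := hl.sub_line (hl.smul g) h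
  · exact ⟨u, hl, fun j => by rw [hu, add_comm]⟩
  · exact (A.not_rev hl hu).elim

/-- An element conjugating one translation of `l` to another one translates `l`. -/
theorem ax_of_conj (h : T.Ax g l s) (hs : s ≠ 0) {a : H} (h' : T.Ax (a * g * a⁻¹) l s') :
    ∃ u, T.Ax a l u := by
  have e := (h.conj a).natAbs_eq h'
  refine A.ax_of_mem h.1 fun j => h'.mem (by omega) ?_
  rw [(h.conj a).d_eq, e]

theorem ax_of_comm (h : T.Ax g l s) (hs : s ≠ 0) {a : H} (e : a * g = g * a) :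
    ∃ u, T.Ax a l u :=
  A.ax_of_conj h hs (s' := s) (by rwa [e, mul_inv_cancel_right])

theorem long_par (hy : T.Ax y l s) (hs : 0 < s) {a b u : ℤ}
    (h : ∀ j, a ≤ j → j ≤ b → g • l j = l (j + u)) (hl : a + s + 3 ≤ b) : g * y = y * g := by
  obtain ⟨i, i1, i2, hi⟩ := hy.1.exists_ap a
  refine A.com _ _ _ hi ?_
  rw [mul_smul, mul_smul, hy.2, h _ (by omega) (by omega), h _ i1 (by omega), hy.2]
  congr 1; ring

end AW

theorem AW.long_rev (A : T.AW) (hy : T.Ax y l (2 * n)) (hn : 0 < n) {a b c : ℤ}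
    (h : ∀ j, a ≤ j → j ≤ b → g • l j = l (c - j)) : b ≤ a + n + 2 := by
  by_contra hb
  have h1 := hy.1.even (h a le_rfl (by omega))
  obtain ⟨m, k, m1, m2, m3⟩ := exists_ctr_int hn (c := c) (by omega) (a + 2)
  have f := hy.flip h k m3
  exact A.flip3 (x := l (m - 2)) (y := l (m + 2)) (g := y ^ k * g)
    (by rw [f _ (by omega) (by omega)]; congr 1; ring)
    (by rw [f _ (by omega) (by omega)]; congr 1; ring) (by rw [hy.1]; omega)

theorem AW.root (A : T.AW) (hl : T.IsL l) {m : ℤ} {r : H} (h0 : r • l m = l m)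
    (h1 : r • l (m - 1) = l (m + 1)) (h2 : r • l (m + 1) = l (m - 1)) :
    T.ap (l m) ∧ T.Root (l (m - 1)) (l m) ∧ T.Root (l (m + 1)) (l m) := by
  have d1 : T.d (l (m - 1)) (l m) = 1 := by rw [hl]; omega
  have ha : T.ap (l m) := by_contra fun ha =>
    A.flip2 h1 h2 ((T.bip _ _ d1).2 ha) (hl.ne (by omega))
  exact ⟨ha, ⟨d1, ha, r, h0, by rw [h1]; exact hl.ne (by omega), by rw [h1, h2]⟩,
    ⟨by rw [hl]; omega, ha, r, h0, by rw [h2]; exact hl.ne (by omega), by rw [h2, h1]⟩⟩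

/-- No tripod at a root with three equivalent turns. -/
theorem EqH.tripod (hT : T.EqH) {C α β γ : V} (h : T.Root C α) (hβ : T.d C β = 1)
    (hγ : T.d C γ = 1) (n1 : β ≠ α) (n2 : γ ≠ α) (n3 : β ≠ γ)
    (p1 : PK (⊤ : Subgroup H) α β α γ) (p2 : PK (⊤ : Subgroup H) α β β γ) : False := by
  have q1 := pe_stab h.1 hβ h.1 hγ n1.symm p1
  have q2 := pe_stab h.1 hβ hβ hγ n1.symm p2
  have key : ∃ f ∈ MulAction.stabilizer H C, ∃ f' ∈ MulAction.stabilizer H C,
      f • α = β ∧ f' • α = γ := by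
    obtain ⟨a, ha, ⟨a1, a2⟩ | ⟨a1, a2⟩⟩ := id q1
    · obtain ⟨b, hb, ⟨b1, -⟩ | ⟨b1, -⟩⟩ := id q2
      · exact ⟨b, hb, a * b, mul_mem ha hb, b1, by rw [mul_smul, b1, a2]⟩
      · exact ⟨a⁻¹ * b, mul_mem (inv_mem ha) hb, b, hb, by rw [mul_smul, b1, ← a2, inv_smul_smul],
          b1⟩
    · exact ⟨a⁻¹, inv_mem ha, a, ha, by rw [← a2, inv_smul_smul], a1⟩
  obtain ⟨f, hf, f', hf', rfl, rfl⟩ := key
  exact hT C α h f hf f' hf' n1 n2 n3 q1 q2

theorem AW.crit (A : T.AW) (hy : T.Ax y l (2 * n)) (hn : 0 < n) {a b c : ℤ}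
    (h : ∀ j, a ≤ j → j ≤ b → g • l j = l (c - j)) (hb : a + 2 * n ≤ b) :
    b = a + 2 * n ∧ n ≤ 2 ∧ ¬ T.ap (l a) ∧ T.Cr l := by
  have h0 := A.long_rev hy hn h
  have h1 := hy.1.even (h a le_rfl (by omega))
  have hl := hy.1
  have rt : ∀ m k, 2 * m = c + k * (2 * n) → a < m → m < b →
      T.ap (l m) ∧ T.Root (l (m - 1)) (l m) ∧ T.Root (l (m + 1)) (l m) := fun m k hm m1 m2 => by
    have f := hy.flip h k hm
    exact A.root hl (r := y ^ k * g) (by rw [f _ (by omega) (by omega)]; congr 1; ring)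
      (by rw [f _ (by omega) (by omega)]; congr 1; ring)
      (by rw [f _ (by omega) (by omega)]; congr 1; ring)
  have tr : ∀ {i j : ℤ} (k : ℤ), T.Root (l i) (l j) →
      T.Root (l (i + k * (2 * n))) (l (j + k * (2 * n))) := fun k hr => by
    simpa only [(hy.zpow k).2] using hr.smul (y ^ k)
  have tp : ∀ (i k : ℤ), PK (⊤ : Subgroup H) (l (i - 1)) (l (i + 1)) (l (i + k * (2 * n) - 1))
      (l (i + k * (2 * n) + 1)) := fun i k =>
    PK.of (y ^ k) (by rw [(hy.zpow k).2]; congr 1; ring) (by rw [(hy.zpow k).2]; congr 1; ring)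
  have np : ∀ i, T.ap (l (a + 1)) → (¬ T.ap (l i) ↔ (i - a) % 2 = 0) := fun i ha => by
    have := hl.par i (a + 1)
    constructor
    · intro hi
      have := mt this.2 fun e => hi (e.2 ha)
      omega
    · intro hi hi'
      have := this.1 ⟨fun _ => ha, fun _ => hi'⟩
      omega
  obtain rfl | rfl : n = 1 ∨ n = 2 := by omega
  · have r1 := rt (a + 1) (a + 1 - c / 2) (by omega) (by omega) (by omega)
    have hb' : b = a + 2 * 1 := by
      by_contra hb'
      have r2 := rt (a + 2) (a + 2 - c / 2) (by omega) (by omega) (by omega)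
      exact (np _ r1.1).2 (by omega) r2.1
    refine ⟨hb', by omega, (np _ r1.1).2 (by omega), hl, fun i hi => ⟨?_, ?_, fun j hj => ?_⟩⟩
    · have := (np _ r1.1).1 hi
      have := tr ((i - a - 2) / 2) r1.2.2
      rwa [show a + 1 + 1 + (i - a - 2) / 2 * (2 * 1) = i by omega,
        show a + 1 + (i - a - 2) / 2 * (2 * 1) = i - 1 by omega] at this
    · have := (np _ r1.1).1 hi
      have := tr ((i - a) / 2) r1.2.1
      rwa [show a + 1 - 1 + (i - a) / 2 * (2 * 1) = i by omega,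
        show a + 1 + (i - a) / 2 * (2 * 1) = i + 1 by omega] at this
    · have := (np _ r1.1).1 hi
      have := (np _ r1.1).1 hj
      have := tp i ((j - i) / 2)
      rwa [show i + (j - i) / 2 * (2 * 1) = j by omega] at this
  · have hc : (c / 2 - a) % 2 = 1 := by
      by_contra hc
      have f := hy.flip h ((a + 2 - c / 2) / 2) (m := a + 2) (by omega)
      exact A.flip3 (x := l a) (y := l (a + 4)) (f _ (by omega) (by omega) |>.trans
        (by congr 1; ring)) (f _ (by omega) (by omega) |>.trans (by congr 1; ring))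
        (by rw [hl]; omega)
    have r1 := rt (a + 1) ((a + 1 - c / 2) / 2) (by omega) (by omega) (by omega)
    have r2 := rt (a + 3) ((a + 3 - c / 2) / 2) (by omega) (by omega) (by omega)
    have p1 : ∀ i, (i - a) % 2 = 0 →
        PK (⊤ : Subgroup H) (l (i - 1)) (l (i + 1)) (l (a + 2 - 1)) (l (a + 2 + 1)) := by
      intro i hi
      by_cases hi' : (i - a) % 4 = 2
      · have := tp i ((a + 2 - i) / 4)
        rwa [show i + (a + 2 - i) / 4 * (2 * 2) = a + 2 by omega] at this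
      · have := tp i ((c - a - 2 - i) / 4)
        rw [show i + (c - a - 2 - i) / 4 * (2 * 2) = c - a - 2 by omega] at this
        refine this.trans (PK.symm (PK.swap (PK.of g ?_ ?_)))
        · rw [h _ (by omega) (by omega)]; congr 1; ring
        · rw [h _ (by omega) (by omega)]; congr 1; ring
    refine ⟨by omega, by omega, (np _ r1.1).2 (by omega), hl, fun i hi => ⟨?_, ?_, fun j hj =>
      (p1 i ((np _ r1.1).1 hi)).trans (p1 j ((np _ r1.1).1 hj)).symm⟩⟩
    · have := (np _ r1.1).1 hi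
      by_cases hi' : (i - a) % 4 = 2
      · have := tr ((i - a - 2) / 4) r1.2.2
        rwa [show a + 1 + 1 + (i - a - 2) / 4 * (2 * 2) = i by omega,
          show a + 1 + (i - a - 2) / 4 * (2 * 2) = i - 1 by omega] at this
      · have := tr ((i - a - 4) / 4) r2.2.2
        rwa [show a + 3 + 1 + (i - a - 4) / 4 * (2 * 2) = i by omega,
          show a + 3 + (i - a - 4) / 4 * (2 * 2) = i - 1 by omega] at this
    · have := (np _ r1.1).1 hi
      by_cases hi' : (i - a) % 4 = 2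
      · have := tr ((i - a - 2) / 4) r2.2.1
        rwa [show a + 3 - 1 + (i - a - 2) / 4 * (2 * 2) = i by omega,
          show a + 3 + (i - a - 2) / 4 * (2 * 2) = i + 1 by omega] at this
      · have := tr ((i - a) / 4) r1.2.1
        rwa [show a + 1 - 1 + (i - a) / 4 * (2 * 2) = i by omega,
          show a + 1 + (i - a) / 4 * (2 * 2) = i + 1 by omega] at this

theorem Cr.tripodW (h : T.Cr l) (hT : T.EqH) {C α β γ : V} (hα : T.d C α = 1) (hβ : T.d C β = 1)
    (hγ : T.d C γ = 1) (n1 : β ≠ α) (n2 : γ ≠ α) (n3 : β ≠ γ) (t1 : T.Tu l α β) (t2 : T.Tu l α γ)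
    (t3 : T.Tu l β γ) : False := by
  obtain ⟨a1, i, p1⟩ := t1
  obtain ⟨-, j, p2⟩ := t2
  obtain ⟨a3, k, p3⟩ := t3
  have hi := Tu.nap h.1 a1 p1
  obtain ⟨r1, r2, pe⟩ := h.2 i hi
  refine hT.tripod (C := C) ?_ hβ hγ n1 n2 n3 (p1.symm.trans ((pe j (Tu.nap h.1 a1 p2)).trans p2))
    (p1.symm.trans ((pe k (Tu.nap h.1 a3 p3)).trans p3))
  have key : ∀ g : H, T.d C (g • l (i - 1)) = 1 → T.d C (g • l (i + 1)) = 1 → C = g • l i :=
    fun g a b => (h.1.smul g).eq_of_between (i := i - 1) (j := i + 1) (by omega) (by omega)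
      (by rw [T.symm]; omega) (by omega)
  obtain ⟨g, -, ⟨rfl, rfl⟩ | ⟨rfl, rfl⟩⟩ := p1
  · rw [key g hα hβ]; exact r1.smul g
  · rw [key g hβ hα]; exact r2.smul g

/-- The overlap of an axis with a translate is bounded. -/
theorem AW.ov_le (A : T.AW) (hy : T.Ax y l (2 * n)) (hn : 0 < n) (hg : g * y ≠ y * g)
    {i i' j j' : ℤ} (e : l i = g • l j) (e' : l i' = g • l j') : i' ≤ i + (2 * n + 2) := by
  by_contra hc
  have hl := hy.1
  have h1 := hl i i'
  rw [e, e', T.inv, hl] at h1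
  rcases le_total j j' with h2 | h2
  · refine hg (A.long_par hy (by omega) (a := j) (b := j') (u := i - j) (fun k k1 k2 => ?_)
      (by omega))
    have := hl.conv (hl.smul g) (n := i' - i) (k := k - j) e
      (by rw [show i + (i' - i) = i' by ring, show j + (i' - i) = j' by omega]; exact e')
      (by omega) (by omega)
    rw [show j + (k - j) = k by ring] at this
    rw [this]; congr 1; ring
  · have := A.long_rev hy hn (g := g) (a := j') (b := j) (c := i + j) fun k k1 k2 => by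
      have := hl.conv' (hl.smul g) (n := i' - i) (k := j - k) e
        (by rw [show i + (i' - i) = i' by ring, show j - (i' - i) = j' by omega]; exact e')
        (by omega) (by omega)
      rw [show j - (j - k) = k by ring] at this
      rw [this]; congr 1; ring
    omega

theorem AW.exists_ov (A : T.AW) (hy : T.Ax y l (2 * n)) (hn : 0 < n) (hg : g * y ≠ y * g) :
    ∃ (u u' δ : ℤ) (D : ℕ), T.Ov (fun j => l (u + j)) (fun j => g • l (u' + j)) δ D ∨
      T.Ov (fun j => l (u + j)) (fun j => g • l (u' - j)) δ D :=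
  BT.exists_ov hy.1 (hy.1.smul g) (N := 2 * n + 2) fun _ _ _ _ e e' => A.ov_le hy hn hg e e'

theorem p1_coreW (A : T.AW) (hT : T.EqH) {δ M : ℤ} {D : ℕ} {a f : H} (h : T.Ov l' l δ D)
    (ha : T.Ax a l M) (hy : T.Ax y l' (2 * n)) (hn : 0 < n) (hM : 2 * n ≤ M)
    (h1 : ∀ j, ∃ i, f • l j = l' i) (h2 : ∀ j, ∃ i, f • l' j = a • l' i) : False := by
  have hl := h.right
  have hl' := h.left
  have h0 := h.nonneg
  obtain ⟨i0, e0⟩ := h1 0
  obtain ⟨j0, f0⟩ := h2 0
  have hD : D = 0 := by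
    have b1 : T.Ft l (a • l' j0) (cl δ j0 + M) (D + (j0 - cl δ j0).natAbs) := fun k => by
      rw [show l k = a • l (k - M) by rw [ha.2, sub_add_cancel], T.inv, h.ft]
      omega
    by_contra hD
    have := h.zero
    have b2 := (h.ft i0).via hl b1 (by unfold cl; omega)
    rw [← e0, ← f0, T.inv, T.symm, h.ft] at b2
    unfold cl at b2
    omega
  subst hD
  obtain ⟨i1, e1⟩ := h1 δ
  obtain ⟨j1, f1⟩ := h2 δ
  rw [h.eq le_rfl h0, e0] at f0
  rw [h.eq h0 le_rfl, e1] at f1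
  have b1 := hl' i0 i1
  rw [← e0, ← e1, T.inv, hl] at b1
  have b2 := (h.common ha (by omega) f0).2
  have b3 := (h.common ha (by omega) f1).2
  obtain ⟨rfl, m, m1, m2⟩ : δ = M ∧ ∃ m, δ + δ ≤ m ∧ l' m = a • l' (δ - m) := by
    refine ⟨by omega, ?_⟩
    rcases le_total i0 i1 with b4 | b4
    · exact ⟨i1, by omega, by rw [f1]; congr 2; omega⟩
    · exact ⟨i0, by omega, by rw [f0]; congr 2; omega⟩
  have b4 : a • l' 0 = l' δ := by rw [h.eq le_rfl h0, ha.2, zero_add, h.eq h0 le_rfl]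
  have rv : ∀ j, δ ≤ j → j ≤ m → a⁻¹ • l' j = l' (δ - j) := fun j j1 j2 => by
    have := hl'.conv' (hl'.smul a) (i := δ) (i' := 0) (n := m - δ) (k := j - δ) b4.symm
      (by rw [show δ + (m - δ) = m by ring, m2]; congr 2; ring) (by omega) (by omega)
    rw [show δ + (j - δ) = j by ring, show 0 - (j - δ) = δ - j by ring] at this
    rw [← this, inv_smul_smul]
  obtain ⟨-, -, c1, c2⟩ := A.crit hy hn rv (by omega)
  have q1 := h.eq (i := δ - 1) (by omega) (by omega)
  have q2 := h.eq h0 le_rfl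
  have a1 := hl'.ap_pred c1
  refine c2.tripodW hT (C := l' δ) (α := l' (δ - 1)) (β := l' (δ + 1)) (γ := l (δ + 1))
    (by rw [hl']; omega) (by rw [hl']; omega) (by rw [q2, hl]; omega) (hl'.ne (by omega))
    (by rw [q1]; exact hl.ne (by omega)) (fun e => by have := h.mem e; omega)
    (Tu.of a1 1 δ (one_smul _ _) (one_smul _ _)) ?_
    (Tu.of (hl'.ap_succ c1) a 0 ?_ ?_)
  · rw [q1]
    exact Tu.of_sim hl' hl f h1 (q1 ▸ a1)
  · rw [← smul_inv_smul a (l' (δ + 1)), rv _ (by omega) (by omega)]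
    congr 2; ring
  · rw [zero_add, h.eq (i := 1) (by omega) (by omega), ha.2, add_comm]

theorem Br.grW (A : T.AW) (he : T.Ax e l (2 * 1)) (h : T.Br y c p q) (h3 : 3 ≤ T.d p q) :
    T.Gr l 2 y (c * y * c⁻¹) := by
  classical
  obtain ⟨a, ha, a1, a2⟩ : ∃ a, T.ap a ∧ T.d p a ≤ 1 ∧ T.d p a + T.d a q = T.d p q := by
    by_cases hp : T.ap p
    · exact ⟨p, hp, by rw [T.self]; omega, by rw [T.self, zero_add]⟩
    · obtain ⟨a, a1, a2⟩ := T.exists_pt p q (k := 1) (by omega)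
      exact ⟨a, (T.bip a p (by rw [T.symm, a1])).2 hp, by omega, by omega⟩
  obtain ⟨b, b1, b2⟩ := T.exists_pt p q (k := T.d p a + 2) (by omega)
  have b3 : T.d p b + T.d b q = T.d p q := by omega
  have e1 := btw_d a2 b3 (by omega)
  have e2 := h.pos a2 a2
  have e3 := (h.pos a2 b3).1
  have e4 := (h.pos b3 a2).1
  have e5 := (h.pos b3 b3).1
  have key : ¬ Ln H l a (c • a) := by
    rintro ⟨γ, i, j, f1, f2⟩
    have hL := he.conj γ
    obtain ⟨k, hk⟩ := hL.1.btw (i := i) (j := j) (x := c • b) (by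
      rw [← f1, ← f2, T.inv, T.symm b a]; omega)
    obtain ⟨m, hm⟩ := hL.1.btw (i := i) (j := j) (x := b) (by rw [← f1, ← f2]; omega)
    have d1 := hL.1 i m
    have d2 := hL.1 m k
    have d3 := hL.1 k j
    have d4 := hL.1 i j
    have d5 := hL.1 i k
    have d6 := hL.1 m j
    have d7 := T.par_smul c a
    simp only [← f1, ← f2, ← hk, ← hm, T.inv] at d1 d2 d3 d4 d5 d6
    rw [T.symm b a] at d3
    refine A.flip2 (g := (γ * e * γ⁻¹) ^ ((m - j) / 2) * c) (x := a) (y := b) ?_ ?_ ha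
      (T.ne_of (by omega))
    · rw [mul_smul, f2, (hL.zpow _).2, hm]; congr 2; omega
    · rw [mul_smul, hk, (hL.zpow _).2, f1]; congr 2; omega
  have hne : a ≠ c • a := T.ne_of (by omega)
  refine ⟨p, c • p, {a, c • a}, h.succ, by rw [Finset.card_pair hne], fun x hx => ?_,
    fun x hx z hz hne => ?_⟩
  · rcases Finset.mem_insert.1 hx with rfl | hx
    · exact ⟨ha, e2.2.1⟩
    · rw [Finset.mem_singleton.1 hx]
      exact ⟨(T.ap_smul _ _).2 ha, e2.2.2⟩
  · simp only [Finset.mem_insert, Finset.mem_singleton] at hx hz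
    rcases hx with hx | hx <;> rcases hz with hz | hz <;> rw [hx, hz] at hne ⊢
    · exact absurd rfl hne
    · exact key
    · exact fun h => key h.symm
    · exact absurd rfl hne

theorem Br.growW (A : T.AW) (he : T.Ax e l (2 * 1)) (h : T.Br y c p q) (r : ℕ) :
    T.Gr l (r + 2) y (Ng.cs y c (r + 3)) := by
  induction r with
  | zero =>
    have h1 := h.btw
    have h2 := h.succ.btw
    have h3 := T.pos h.1
    exact h.succ.succ.grW A he (by omega)
  | succ r ih => exact ih.succ he.1 (by omega)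

theorem ov_coreW (A : T.AW) (hT : T.EqH) {y₀ : H} {n s δ M : ℤ} {D : ℕ} (h : T.Ov l l' δ D)
    (hy : T.Ax y l s) (hs : s ≠ 0) (h0 : T.Ax y₀ l (2 * n)) (hn : 0 < n) (hc : T.Ax c l' M)
    (hM : 2 * n ≤ M) (hg : ∀ j, ∃ i, g • l' j = l i) :
    (∃ p q, T.Br y (c * y * c⁻¹) p q) ∨ (M ≤ δ ∧ D = 0 ∧ T.OL l c (max (δ - M) (M - 1))) := by
  have hl := h.left
  have hl' := h.right
  have := h.nonneg
  have := h.zero
  by_cases hD : D = 0
  swap
  · obtain rfl : δ = 0 := by omega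
    have f1 := h.ft 0
    have f2 := h.symm.ft 0
    rw [show cl 0 0 = 0 from rfl] at f1 f2
    exact Or.inl ⟨_, _, Br.succ (q := l' 0) ⟨T.ne_of (by rw [f1]; omega), hy.tn hs f2,
      hc.tn (by omega) f1⟩⟩
  subst hD
  by_cases hδ : δ < M
  · have f1 := h.symm.ft M
    have f2 := h.symm.ft (δ - M)
    rw [show cl δ M = δ by unfold cl; omega] at f1
    rw [show cl δ (δ - M) = 0 by unfold cl; omega] at f2
    have e1 : c • l 0 = l' M := by rw [h.eq le_rfl h.nonneg, hc.2, zero_add]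
    have e2 : c • l' (δ - M) = l δ := by rw [hc.2, sub_add_cancel, h.eq h.nonneg le_rfl]
    have := (hy.tn hs f2).conj c
    rw [e1, e2] at this
    exact Or.inl ⟨l δ, l' M, T.ne_of (by rw [T.symm, f1]; omega), hy.tn hs f1, this⟩
  refine Or.inr ⟨by omega, rfl, fun i i' j j' e e' => ?_⟩
  have b1 := (h.common hc (by omega) e).2
  have b2 := (h.common hc (by omega) e').2
  rw [hl]
  by_contra hc'
  obtain ⟨rfl, m, m1, m2⟩ : δ = M ∧ ∃ m, δ + δ ≤ m ∧ l m = c • l (δ - m) := by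
    refine ⟨by omega, ?_⟩
    rcases le_total i i' with b4 | b4
    · exact ⟨i', by omega, by rw [e']; congr 2; omega⟩
    · exact ⟨i, by omega, by rw [e]; congr 2; omega⟩
  have b4 : c • l 0 = l δ := by rw [h.eq le_rfl h.nonneg, hc.2, zero_add, h.eq h.nonneg le_rfl]
  have rv : ∀ j, δ ≤ j → j ≤ m → c⁻¹ • l j = l (δ - j) := fun j j1 j2 => by
    have := hl.conv' (hl.smul c) (i := δ) (i' := 0) (n := m - δ) (k := j - δ) b4.symm
      (by rw [show δ + (m - δ) = m by ring, m2]; congr 2; ring) (by omega) (by omega)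
    rw [show δ + (j - δ) = j by ring, show 0 - (j - δ) = δ - j by ring] at this
    rw [← this, inv_smul_smul]
  obtain ⟨-, -, c1, c2⟩ := A.crit h0 hn rv (by omega)
  have q1 := h.eq (i := δ - 1) (by omega) (by omega)
  have q2 := h.eq h.nonneg le_rfl
  have a1 := hl.ap_pred c1
  refine c2.tripodW hT (C := l δ) (α := l (δ - 1)) (β := l (δ + 1)) (γ := l' (δ + 1))
    (by rw [hl]; omega) (by rw [hl]; omega) (by rw [q2, hl']; omega) (hl.ne (by omega))
    (by rw [q1]; exact hl'.ne (by omega)) (fun e => by have := h.mem e; omega)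
    (Tu.of a1 1 δ (one_smul _ _) (one_smul _ _)) ?_
    (Tu.of (hl.ap_succ c1) c 0 ?_ ?_)
  · rw [q1]
    exact Tu.of_sim hl hl' g hg (q1 ▸ a1)
  · rw [← smul_inv_smul c (l (δ + 1)), rv _ (by omega) (by omega)]
    congr 2; ring
  · rw [zero_add, h.eq (i := 1) (by omega) (by omega), hc.2, add_comm]

theorem ov_stepW (A : T.AW) (hT : T.EqH) {y₀ : H} {n M N : ℤ} (hy : T.Ax y l M)
    (h0 : T.Ax y₀ l (2 * n)) (hn : 0 < n) (hM : 2 * n ≤ M) (h : T.OL l g N) :
    (∃ p q, T.Br y (cs y (g * y * g⁻¹) 1) p q) ∨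
      (M ≤ N ∧ T.OL l (g * y * g⁻¹) (max (N - M) (M - 1))) := by
  have mono : ∀ {L : ℤ → V} {δ : ℤ}, δ ≤ N → (∀ i, ∃ j, l i = L j) →
      (M ≤ δ ∧ T.OL L (g * y * g⁻¹) (max (δ - M) (M - 1))) →
      M ≤ N ∧ T.OL l (g * y * g⁻¹) (max (N - M) (M - 1)) := fun h1 h2 h3 =>
    ⟨h3.1.trans h1, fun i i' j j' e e' => by
      have := h3.2.of h2 i i' j j' e e'
      omega⟩
  have hc := hy.conj g
  obtain ⟨u, u', δ, D, o | o⟩ := exists_ov hy.1 (hy.1.smul g) (N := N) fun i i' j j' e e' => by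
    have := h i i' j j' e e'
    rw [hy.1] at this
    omega
  · refine (ov_coreW A hT (g := g⁻¹) o (hy.add u) (by omega) (h0.add u) hn (hc.add u') hM fun j =>
      ⟨u' + j - u, by rw [inv_smul_smul]; congr 1; ring⟩).imp_right fun ⟨a1, a2, a3⟩ =>
        mono ?_ (fun i => ⟨i - u, by congr 1; ring⟩) ⟨a1, a3⟩
    subst a2
    have := h _ _ _ _ (o.eq le_rfl o.nonneg) (o.eq o.nonneg le_rfl)
    rw [hy.1] at this
    omega
  · refine (ov_coreW A hT (g := g⁻¹) o.rev ((hy.add u).sub δ) (by omega) ((h0.add u).rev δ) hn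
      (c := g * y * g⁻¹) (by simpa using (hc.sub u').sub δ) hM fun j =>
      ⟨δ + u - u' + δ - j, by rw [inv_smul_smul]; congr 1; ring⟩).imp_right fun ⟨a1, a2, a3⟩ =>
        mono ?_ (fun i => ⟨δ + u - i, by congr 1; ring⟩) ⟨a1, a3⟩
    subst a2
    have := h _ _ _ _ (o.eq le_rfl o.nonneg) (o.eq o.nonneg le_rfl)
    rw [hy.1] at this
    omega

theorem br_hypW (A : T.AW) (hT : T.EqH) {M : ℤ} (hy : T.Ax y l M) (hM : 0 < M)
    (hg : g * y ≠ y * g) : ∃ p q, T.Br y (cs y (g * y * g⁻¹) 3) p q := by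
  have := hy.even
  obtain ⟨n, rfl⟩ : ∃ n, M = 2 * n := ⟨M / 2, by omega⟩
  have hn : 0 < n := by omega
  have h0 : T.OL l g (2 * n + 2) := fun i i' j j' e e' => by
    have := A.ov_le hy hn hg e e'
    have := A.ov_le hy hn hg e' e
    rw [hy.1]
    omega
  rcases ov_stepW A hT hy hy hn le_rfl h0 with ⟨p, q, h⟩ | ⟨-, h1⟩
  · exact ⟨p, h.cs 2⟩
  rcases ov_stepW A hT hy hy hn le_rfl h1 with ⟨p, q, h⟩ | ⟨h2, h3⟩
  · exact ⟨p, h.cs 1⟩
  rcases ov_stepW A hT hy hy hn le_rfl h3 with h | ⟨h4, -⟩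
  · exact h
  · omega

/-- Conjugate elements without a common fixed point grow. -/
theorem AW.grow (A : T.AW) (hT : T.EqH) (he : T.Ax e l (2 * 1)) (hg : g * y ≠ y * g)
    (hn : ∀ v : V, y • v = v → (g * y * g⁻¹) • v ≠ v) (r : ℕ) :
    T.Gr l (r + 2) y (cs y (g * y * g⁻¹) (r + 6)) := by
  have := A.ne
  obtain ⟨p, q, h⟩ : ∃ p q, T.Br y (cs y (g * y * g⁻¹) 3) p q := by
    rcases T.ell_or_ax y with ⟨x, hx⟩ | ⟨L, M, hM, hy⟩
    · obtain ⟨p, q, h⟩ := br_ell (T := T) (c := g * y * g⁻¹) (x' := g • x) hx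
        (by simp [mul_smul, hx]) hn
      exact ⟨p, h.cs 3⟩
    · exact br_hypW A hT hy hM hg
  have := h.growW A he r
  rwa [cs_add, show 3 + (r + 3) = r + 6 by ring] at this

/-- An element that moves a copy fixed by `y` to a copy fixed by the conjugate. -/
theorem AW.cross (A : T.AW) {C : V} (hC : ¬ T.ap C) (h1 : y • C = C)
    (h2 : (c * y * c⁻¹) • C = C) (h3 : c • C ≠ C)
    (hn : y * (c * y * c⁻¹) ≠ c * y * c⁻¹ * y) :
    ∃ L M, 0 < M ∧ T.Ax c L M ∧ L M = C ∧ ∀ i, 0 ≤ i → i ≤ M → y • L i = L i := by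
  have h2' : y • c⁻¹ • C = c⁻¹ • C := by
    rwa [mul_smul, mul_smul, ← eq_inv_smul_iff] at h2
  have a0 := T.pos (x := c⁻¹ • C) (y := C) fun e => h3 (inv_smul_eq_iff.1 e).symm
  obtain ⟨a, a1, a2⟩ := T.exists_pt (c⁻¹ • C) C (k := 1) (by omega)
  obtain ⟨b, b1, b2⟩ := T.exists_pt (c⁻¹ • C) C (k := T.d (c⁻¹ • C) C - 1) (by omega)
  have a3 := T.fix_of_between (u := a) h2' h1 (by omega)
  have b3 := T.fix_of_between (u := b) h2' h1 (by omega)
  have b4 : T.ap b := (T.bip b C (by omega)).2 hC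
  have a5 := T.nbr_far (x := c⁻¹ • C) (p := C) (u := b) (v := c • a) (by omega) (by omega)
    (by rw [T.inv', a1]) fun e => hn (A.ab b4 b3 (by rw [← e]; simp [mul_smul, a3]))
  obtain ⟨L, hL, L0, L1⟩ := ax_of (T := T) (g := c) a1 (by rw [smul_inv_smul]; omega)
    (by rw [smul_inv_smul]; omega)
  rw [smul_inv_smul] at hL
  have L2 : L (T.d (c⁻¹ • C) C : ℕ) = C := by
    have := hL.2 0
    rwa [L0, smul_inv_smul, zero_add, eq_comm] at this
  refine ⟨L, _, by omega, hL, L2, fun i i1 i2 => ?_⟩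
  refine T.fix_of_between (x := L 0) (y := L (T.d (c⁻¹ • C) C : ℕ)) (by rwa [L0]) (by rwa [L2]) ?_
  rw [hL.1, hL.1, hL.1]
  omega

end BT

end Pool.Agent.Lib.MP_429c3d_al.Ng
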