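import Pool.Agent.Lib.MP_a2eab4_al.RtB
import Pool.Agent.Lib.MP_a2eab4_al.TwT1

set_option autoImplicit false

/-! Amalgams of two groups with their trees; the free product of two infinite cyclic groups. -/

namespace Pool.Agent.Lib.MP_a2eab4_al.Pw

open Pool.Agent.Lib.MP_429c3d_al Hyp Ng Rx Function Monoid

theorem nf_pushout {C : Type} [Group C] {K : Bool → Type} [∀ b, Group (K b)]
    (φ : ∀ b, C →* K b) (hφ : ∀ b, Injective (φ b)) :
    NF fun b => (PushoutI.of (φ := φ) b).range := by
  classical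
  intro n w β h hb
  have h1 : ∀ i : Fin (n + 1), ∃ g : K (β i), PushoutI.of (φ := φ) (β i) g =
      (w i)⁻¹ * w (i + 1) := fun i => (h i i.2).1
  choose g hg using h1
  have nr : ∀ i : Fin (n + 1), g i ∉ (φ (β i)).range := by
    rintro i ⟨c, hc⟩
    refine (h i i.2).2.1 ⟨φ _ c, ?_⟩
    rw [← hg, ← hc, PushoutI.of_apply_eq_base, PushoutI.of_apply_eq_base]
  let W : CoprodI.Word K :=
    { toList := List.ofFn fun i : Fin (n + 1) => ⟨β i, g i⟩
      ne_one := by
        intro l hl e
        obtain ⟨i, rfl⟩ := List.mem_ofFn.1 hl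
        exact nr i ⟨1, by rw [map_one]; exact e.symm⟩
      chain_ne := by
        rw [List.isChain_iff_getElem]
        intro i hi
        simp only [List.getElem_ofFn]
        rw [List.length_ofFn] at hi
        rw [(h i (by omega)).2.2]
        cases β i <;> simp }
  have red : PushoutI.Reduced φ W := by
    intro l hl
    obtain ⟨i, rfl⟩ := List.mem_ofFn.1 hl
    exact nr i
  have tel : ∀ m, (List.ofFn fun i : Fin m => (w i)⁻¹ * w (i + 1)).prod = (w 0)⁻¹ * w m := by
    intro m
    induction m with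
    | zero => simp
    | succ m ih =>
      rw [List.ofFn_succ', List.concat_eq_append, List.prod_append]
      simp only [Fin.val_castSucc, Fin.val_last, List.prod_cons, List.prod_nil]
      rw [ih]
      group
  have pr : PushoutI.ofCoprodI W.prod = (w 0)⁻¹ * w (n + 1) := by
    rw [← tel, CoprodI.Word.prod, map_list_prod, List.map_map]
    simp only [W, List.map_ofFn]
    congr 2
    funext i
    simp [hg]
  have e := red.eq_empty_of_mem_range hφ (by
    rw [pr, ← PushoutI.inf_of_range_eq_base_range hφ (show true ≠ false by simp)]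
    exact ⟨hb true, hb false⟩)
  have := congrArg (fun u => u.toList.length) e
  simp [W, CoprodI.Word.empty] at this

theorem amalgam_fam {C : Type} [Group C] {K : Bool → Type} [∀ b, Group (K b)]
    (φ : ∀ b, C →* K b) (hφ : ∀ b, Injective (φ b)) :
    ∃ (G V : Type) (_ : Group G) (_ : MulAction G V) (i : K true →* G) (j : K false →* G)
      (_ : Tree (fun b => cond b i.range j.range) V), Injective i ∧ Injective j ∧
      (∀ c, i (φ true c) = j (φ false c)) ∧
      (∀ a b, i a = j b → ∃ c, a = φ true c ∧ b = φ false c) ∧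
      ∀ (L : Type) [Group L] (f : ∀ b, K b →* L), (∀ c, f true (φ true c) = f false (φ false c)) →
        ∃ π : G →* L, (∀ a, π (i a) = f true a) ∧ ∀ b, π (j b) = f false b := by
  have hi := PushoutI.of_injective hφ true
  have hj := PushoutI.of_injective hφ false
  have e1 := PushoutI.of_apply_eq_base φ true
  have e2 := PushoutI.of_apply_eq_base φ false
  have eH : (fun b => (PushoutI.of (φ := φ) b).range) = fun b =>
      cond b (PushoutI.of (φ := φ) true).range (PushoutI.of (φ := φ) false).range := by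
    funext b
    cases b <;> rfl
  have gen : (PushoutI.of (φ := φ) false).range ⊔ (PushoutI.of (φ := φ) true).range = ⊤ := by
    rw [eq_top_iff]
    intro x hx
    clear hx
    induction x using PushoutI.induction_on with
    | of b g =>
      cases b
      · exact Subgroup.mem_sup_left ⟨g, rfl⟩
      · exact Subgroup.mem_sup_right ⟨g, rfl⟩
    | base c => exact Subgroup.mem_sup_left ⟨_, e2 c⟩
    | mul x y hx hy => exact mul_mem hx hy
  have nf := nf_pushout φ hφ
  rw [eH] at nf
  obtain ⟨V, _, ⟨T⟩⟩ := NF.tree nf gen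
  refine ⟨PushoutI φ, V, inferInstance, inferInstance, _, _, T, hi, hj,
    fun c => (e1 c).trans (e2 c).symm, fun a b e => ?_, fun L _ f huv => ?_⟩
  · have : PushoutI.of (φ := φ) true a ∈ (PushoutI.base φ).range := by
      rw [← PushoutI.inf_of_range_eq_base_range hφ (show true ≠ false by simp)]
      exact ⟨⟨a, rfl⟩, ⟨b, e.symm⟩⟩
    obtain ⟨c, hc⟩ := this
    exact ⟨c, hi (hc.symm.trans (e1 c).symm), hj (e.symm.trans (hc.symm.trans (e2 c).symm))⟩
  · have hf : ∀ b, (f b).comp (φ b) = (f true).comp (φ true) := fun b => by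
      cases b
      · exact MonoidHom.ext fun c => (huv c).symm
      · rfl
    exact ⟨PushoutI.lift f _ hf, fun a => PushoutI.lift_of f _ hf a,
      fun b => PushoutI.lift_of f _ hf b⟩

/-- A family of two groups. -/
def Two (A B : Type) : Bool → Type
  | true => A
  | false => B

instance (A B : Type) [i : Group A] [j : Group B] : ∀ b, Group (Two A B b)
  | true => i
  | false => j

theorem amalgam {A B C : Type} [Group A] [Group B] [Group C] (α : C →* A) (β : C →* B)
    (hα : Injective α) (hβ : Injective β) :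
    ∃ (G V : Type) (_ : Group G) (_ : MulAction G V) (i : A →* G) (j : B →* G)
      (_ : Tree (fun b => cond b i.range j.range) V), Injective i ∧ Injective j ∧
      (∀ c, i (α c) = j (β c)) ∧ (∀ a b, i a = j b → ∃ c, a = α c ∧ b = β c) ∧
      ∀ (L : Type) [Group L] (u : A →* L) (v : B →* L), (∀ c, u (α c) = v (β c)) →
        ∃ π : G →* L, (∀ a, π (i a) = u a) ∧ ∀ b, π (j b) = v b := by
  obtain ⟨G, V, i1, i2, i, j, T, h1, h2, h3, h4, h5⟩ := amalgam_fam (K := Two A B)
    (fun b => match b with | true => α | false => β)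
    (fun b => match b with | true => hα | false => hβ)
  exact ⟨G, V, i1, i2, i, j, T, h1, h2, h3, h4, fun L _ u v h =>
    h5 L (fun b => match b with | true => u | false => v) h⟩

/-- No three different vertices have equivalent pairs when edge stabilisers are trivial. -/
theorem eqK_free {H V : Type} [Group H] [MulAction H V] (T : BT H V) (tf : TF H)
    (fr : ∀ (g : H) (x y : V), g • x = x → g • y = y → x = y ∨ g = 1) (v : V) :
    EqK (⊤ : Subgroup H) v := by
  rintro f - f' - h1 h2 h3 ⟨s, -, hs⟩ ⟨t, -, ht⟩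
  generalize f • v = x at *
  generalize f' • v = y at *
  obtain ⟨m, m1, m2, m3⟩ := T.median v x y
  have p1 := T.pos h1
  have s1 := T.symm v x
  have s2 := T.symm v y
  have s3 := T.symm x y
  have s4 := T.symm v m
  have s5 := T.symm x m
  have s6 := T.symm y m
  have a1 := T.inv s v x
  have a2 := T.inv s v m
  have a3 := T.inv s m x
  have b1 := T.inv t v x
  have b2 := T.inv t v m
  have b3 := T.inv t m x
  have d1 : T.d v y = T.d v x := by
    rcases hs with ⟨e, e'⟩ | ⟨e, e'⟩ <;> rw [e, e'] at a1 <;> omega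
  have d2 : T.d x y = T.d v x := by
    rcases ht with ⟨e, e'⟩ | ⟨e, e'⟩ <;> rw [e, e'] at b1 <;> omega
  have hv : v ≠ m := T.ne_of (by omega)
  have hx : x ≠ m := T.ne_of (by omega)
  have sm : s • m = m := by
    rcases hs with ⟨e, e'⟩ | ⟨e, e'⟩ <;> rw [e] at a2 <;> rw [e'] at a3
    · exact T.uniq (x := v) (y := y) (by omega) (by omega) (by omega)
    · exact T.uniq (x := y) (y := v) (by omega) (by omega) (by omega)
  have tm : t • m = m := by
    rcases ht with ⟨e, e'⟩ | ⟨e, e'⟩ <;> rw [e] at b2 <;> rw [e'] at b3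
    · exact T.uniq (x := x) (y := y) (by omega) (by omega) (by omega)
    · exact T.uniq (x := y) (y := x) (by omega) (by omega) (by omega)
  rcases hs with ⟨e, e'⟩ | ⟨e, e'⟩
  · rw [(fr s v m e sm).resolve_left hv, one_smul] at e'
    exact h3 e'
  rcases ht with ⟨f1, f2⟩ | ⟨f1, f2⟩
  swap
  · rw [(fr t x m f2 tm).resolve_left hx, one_smul] at f1
    exact h2 f1.symm
  have c1 : s * t = 1 := (fr (s * t) v m (by rw [mul_smul, f1, e'])
    (by rw [mul_smul, tm, sm])).resolve_left hv
  have c2 : s • y = x := by rw [← f2, ← mul_smul, c1, one_smul]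
  have c3 : s ^ 3 = 1 := (fr (s ^ 3) v m
    (by rw [pow_three, mul_smul, mul_smul, e, c2, e'])
    (by rw [pow_three, mul_smul, mul_smul, sm, sm, sm])).resolve_left hv
  rw [tf s 3 (by omega) c3, one_smul] at e
  exact h2 e.symm

theorem tf_int : TF (Multiplicative ℤ) := fun g n hn e => by
  have := congrArg Multiplicative.toAdd e
  rw [toAdd_pow, toAdd_one, nsmul_eq_mul, mul_eq_zero] at this
  exact toAdd_eq_zero.1 (this.resolve_left (by exact_mod_cast hn))

theorem free_exists : ∃ (H W : Type) (_ : Group H) (_ : MulAction H W)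
    (ω : Multiplicative ℤ →* H) (γ : H) (v : W) (χ : H →* Multiplicative ℤ),
    TF H ∧ CT H ∧ CSA H ∧ (∀ c, χ (ω c) = c) ∧ γ • v ≠ v ∧ (∀ η : H, η • v = v ↔ η ∈ ω.range) ∧
    (∀ c, c ≠ 1 → ∀ z : W, ω c • z = z → z = v) ∧ EqK (⊤ : Subgroup H) v := by
  obtain ⟨H, W, _, _, i, j, T, hi, hj, -, h2, h3⟩ := amalgam (1 : PUnit →* Multiplicative ℤ)
    (1 : PUnit →* Multiplicative ℤ) (injective_of_subsingleton _) (injective_of_subsingleton _)
  obtain ⟨χ, hχ, -⟩ := h3 _ (MonoidHom.id _) 1 fun _ => rfl
  have one : ∀ g : H, g ∈ i.range → g ∈ j.range → g = 1 := by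
    rintro _ ⟨a, rfl⟩ ⟨b, e⟩
    obtain ⟨c, e1, -⟩ := h2 a b e.symm
    rw [e1, MonoidHom.one_apply, map_one]
  have fr : ∀ (g : H) (x y : W), g • x = x → g • y = y → x = y ∨ g = 1 := fun g x y hx hy =>
    or_iff_not_imp_left.2 fun hn => by
      obtain ⟨f, hf⟩ := T.two hx hy hn
      have := one _ (hf true) (hf false)
      rwa [mul_assoc, inv_mul_eq_one, eq_comm, mul_eq_right] at this
  have st : ∀ x : W, ∃ ψ : Multiplicative ℤ →* H, Injective ψ ∧ ∀ g : H, g • x = x →
      g ∈ ψ.range := fun x => by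
    obtain ⟨f, b, hf⟩ := T.conj x
    cases b
    · refine ⟨(MulAut.conj f).toMonoidHom.comp j, (MulAut.conj f).injective.comp hj,
        fun g hg => ?_⟩
      obtain ⟨c, hc⟩ := (hf g).1 hg
      exact ⟨c, by simp [hc, mul_assoc]⟩
    · refine ⟨(MulAut.conj f).toMonoidHom.comp i, (MulAut.conj f).injective.comp hi,
        fun g hg => ?_⟩
      obtain ⟨c, hc⟩ := (hf g).1 hg
      exact ⟨c, by simp [hc, mul_assoc]⟩
  have ab : ∀ (a b : H) (x : W), a • x = x → b • x = x → a * b = b * a := fun a b x ha hb => by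
    obtain ⟨ψ, -, h⟩ := st x
    obtain ⟨a, rfl⟩ := h a ha
    obtain ⟨b, rfl⟩ := h b hb
    rw [← map_mul, mul_comm, map_mul]
  have A : T.toBT.AC := ⟨⟨T.vx true⟩, fun g x y _ _ => fr g x y, fun a b x _ => ab a b x,
    fun g x n hx hn e => by
      obtain ⟨ψ, hψ, h⟩ := st x
      obtain ⟨c, rfl⟩ := h g hx
      rw [tf_int c n hn (hψ (by rw [map_pow, e, map_one])), map_one]⟩
  refine ⟨H, W, inferInstance, inferInstance, i, j (.ofAdd 1), T.vx true, χ, A.tF,
    fun a b c hb e e' => A.ct (fun x _ a b c ha _ hc _ _ _ => ab a c x ha hc) hb e.eq e'.symm.eq,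
    fun a g ha e => A.csa (fun x _ a g ha hg _ _ => ab g a x hg ha) ha e.eq, hχ, fun e => ?_,
    T.stab true, fun c hc z hz => ?_, eqK_free T.toBT A.tF fr _⟩
  · have := hj ((one _ ((T.stab true _).1 e) ⟨_, rfl⟩).trans (map_one j).symm)
    exact absurd this (by decide)
  · exact (fr _ _ _ hz ((T.stab true _).2 ⟨c, rfl⟩)).resolve_right fun e =>
      hc (hi (e.trans (map_one i).symm))

end Pool.Agent.Lib.MP_a2eab4_al.Pw
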