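import Pool.Agent.Lib.MP_429c3d_al.NxC
import Pool.Agent.Lib.MP_429c3d_al.NgDet

set_option autoImplicit false

/-! Short words in a tower: geodesics that bound short words only use the top edges. -/

namespace Pool.Agent.Lib.MP_a2eab4_al.Re

open Pool.Agent.Lib.MP_429c3d_al Hyp Ng

section words

variable {J : Type} [Group J] {S : Set J}

/-- Products of at most `n` elements of `S`. -/
def Wd (S : Set J) (n : ℕ) (g : J) : Prop :=
  ∃ l : List J, l.length ≤ n ∧ (∀ a ∈ l, a ∈ S) ∧ l.prod = g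

theorem Wd.one (n : ℕ) : Wd S n 1 := ⟨[], by simp, by simp, rfl⟩

theorem Wd.of {a : J} (h : a ∈ S) : Wd S 1 a := ⟨[a], by simp, by simpa using h, by simp⟩

theorem Wd.mono {n m : ℕ} {g : J} (h : Wd S n g) (e : n ≤ m) : Wd S m g :=
  h.imp fun _ h => ⟨h.1.trans e, h.2⟩

theorem Wd.mul {n m : ℕ} {g h : J} (e : Wd S n g) (e' : Wd S m h) : Wd S (n + m) (g * h) := by
  obtain ⟨l, a1, a2, rfl⟩ := e
  obtain ⟨l', b1, b2, rfl⟩ := e'
  refine ⟨l ++ l', by rw [List.length_append]; omega, fun a ha => ?_, List.prod_append⟩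
  exact (List.mem_append.1 ha).elim (a2 a) (b2 a)

theorem Wd.induct {P : ℕ → J → Prop} (h0 : ∀ n, P n 1)
    (hs : ∀ n a g, a ∈ S → Wd S n g → P n g → P (n + 1) (a * g)) {n : ℕ} {g : J} (h : Wd S n g) :
    P n g := by
  obtain ⟨l, a1, a2, rfl⟩ := h
  induction l generalizing n with
  | nil => exact h0 n
  | cons a l ih =>
    obtain ⟨n, rfl⟩ : ∃ m, n = m + 1 := ⟨n - 1, by simp at a1; omega⟩
    have e : l.length ≤ n := by simpa using a1
    have e2 : ∀ b ∈ l, b ∈ S := fun b hb => a2 b (List.mem_cons_of_mem _ hb)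
    exact hs n a _ (a2 a List.mem_cons_self) ⟨l, e, e2, rfl⟩ (ih e e2)

theorem Wd.inv (hS : ∀ a ∈ S, a⁻¹ ∈ S) {n : ℕ} {g : J} (h : Wd S n g) : Wd S n g⁻¹ := by
  refine h.induct (P := fun n g => Wd S n g⁻¹) (fun n => by simpa using Wd.one n) ?_
  intro n a g ha _ ih
  rw [mul_inv_rev]
  exact ih.mul (Wd.of (hS a ha))

theorem Wd.pow {n : ℕ} {g : J} (h : Wd S n g) (j : ℕ) : Wd S (j * n) (g ^ j) := by
  induction j with
  | zero => simpa using Wd.one _
  | succ j ih =>
    rw [pow_succ, Nat.succ_mul]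
    exact ih.mul h

theorem Wd.map {H : Type} [Group H] (f : J →* H) {S' : Set H} (hS : ∀ a ∈ S, f a ∈ S') {n : ℕ}
    {g : J} (h : Wd S n g) : Wd S' n (f g) := by
  refine h.induct (P := fun n g => Wd S' n (f g)) (fun n => by simpa using Wd.one n) ?_
  intro n a g ha _ ih
  rw [map_mul, add_comm]
  exact (Wd.of (hS a ha)).mul ih

theorem Wd.lift {H : Type} [Group H] (f : H →* J) {S' : Set H} (hS : ∀ a ∈ S, ∃ b ∈ S', f b = a)
    {n : ℕ} {g : J} (h : Wd S n g) : ∃ g', Wd S' n g' ∧ f g' = g := by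
  refine h.induct (P := fun n g => ∃ g', Wd S' n g' ∧ f g' = g)
    (fun n => ⟨1, Wd.one n, map_one f⟩) ?_
  rintro n a g ha _ ⟨g', h1, rfl⟩
  obtain ⟨b, h2, rfl⟩ := hS a ha
  exact ⟨b * g', add_comm 1 n ▸ (Wd.of h2).mul h1, map_mul _ _ _⟩

variable {Z : Type} [MulAction J Z]

/-- Reading a word along a path. -/
theorem word_of_path (hS : ∀ a ∈ S, a⁻¹ ∈ S) {rep : Z → Prop} {C : ℕ}
    (h1 : ∀ r r' (g : J), rep r → rep r' → g • r = r' → Wd S C g) {g : ℕ → Z} (h0 : rep (g 0))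
    {n : ℕ} (h2 : ∀ i, i < n → ∃ (a μ μ' : J) (r r' : Z), rep r ∧ rep r' ∧ Wd S C μ ∧ Wd S C μ' ∧
      g i = (a * μ) • r ∧ g (i + 1) = (a * μ') • r') :
    ∃ (a : J) (r : Z), rep r ∧ Wd S (n * (3 * C)) a ∧ g n = a • r := by
  induction n with
  | zero => exact ⟨1, g 0, h0, Wd.one _, (one_smul _ _).symm⟩
  | succ n ih =>
    obtain ⟨a, r, e1, e2, e3⟩ := ih fun i hi => h2 i (by omega)
    obtain ⟨b, μ, μ', s, s', f1, f2, f3, f4, f5, f6⟩ := h2 n (by omega)
    have e4 := h1 s r (a⁻¹ * (b * μ)) f1 e1 (by rw [mul_smul, ← f5, e3, inv_smul_smul])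
    refine ⟨b * μ', s', f2, ?_, f6⟩
    have := (e2.mul e4).mul ((f3.inv hS).mul f4)
    rw [show a * (a⁻¹ * (b * μ)) * (μ⁻¹ * μ') = b * μ' by group] at this
    exact this.mono (by rw [Nat.succ_mul n]; omega)

end words

variable {J Z : Type} [Group J] [MulAction J Z]

/-- The syllables. -/
def Syl (J : Type) [Group J] [MulAction J Z] (o p : Z) : Set J := {a | a • o = o ∨ a • p = p}

theorem syl_inv (o p : Z) : ∀ a ∈ Syl J o p, a⁻¹ ∈ Syl J o p := fun _ h =>
  h.imp (fun e => inv_smul_eq_iff.2 e.symm) fun e => inv_smul_eq_iff.2 e.symm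

/-- A graph with heights of edges, seen from the top edge `o, p`. -/
structure Low (J : Type) [Group J] [MulAction J Z] (d : Z → Z → ℕ) (ht : Z → Z → ℕ) (o p : Z)
    (M : ℕ) (c : ℕ → ℕ) : Prop where
  gr : IsGr d
  iso : Isom J d
  det : ∀ l, Det d (fun _ => True) ht (fun i j : ℕ => ((i : ℤ) - j).natAbs) l 1
  ht_smul : ∀ (g : J) x y, d x y = 1 → ht (g • x) (g • y) = ht x y
  ht_symm : ∀ x y, d x y = 1 → ht x y = ht y x
  adj : d o p = 1
  top : ht o p = M
  ne : ∀ g : J, g • o ≠ p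
  edge : ∀ h x y, h < M → d x y = 1 → M ≤ ht x y + h → ∃ (a μ μ' : J) (r r' : Z),
    (r = o ∨ r = p) ∧ (r' = o ∨ r' = p) ∧ Wd (Syl J o p) (c h) μ ∧ Wd (Syl J o p) (c h) μ' ∧
      x = (a * μ) • r ∧ y = (a * μ') • r'

/-- There is a path that leaves `α` for the last time along a top edge. -/
def Lv (d : Z → Z → ℕ) (ht : Z → Z → ℕ) (M : ℕ) (α : Z) (m : ℕ) (x y : Z) : Prop :=
  Avoid d α m x y ∨ (∃ z, d α z = 1 ∧ ht α z = M ∧ Avoid d α m z y) ∨ y = α

variable {d ht : Z → Z → ℕ} {o p : Z} {M : ℕ} {c : ℕ → ℕ}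

theorem avoid_ne {α x y : Z} {m : ℕ} (h : Avoid d α m x y) : x ≠ α ∧ y ≠ α := by
  obtain ⟨q, rfl, rfl, h, -⟩ := h
  exact ⟨h 0 (by omega), h m le_rfl⟩

theorem Lv.trans (m0 : IsMet d) {α x y z : Z} {m m' : ℕ} (h : Lv d ht M α m x y)
    (h' : Lv d ht M α m' y z) : Lv d ht M α (m + m') x z := by
  rcases h' with h' | ⟨u, a1, a2, a3⟩ | h'
  · rcases h with h | ⟨u, a1, a2, a3⟩ | h
    · exact Or.inl (h.trans h')
    · exact Or.inr (Or.inl ⟨u, a1, a2, a3.trans h'⟩)
    · exact absurd h (avoid_ne h').1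
  · exact Or.inr (Or.inl ⟨u, a1, a2, a3.mono m0 (by omega)⟩)
  · exact Or.inr (Or.inr h')

theorem avoid_refl {α x : Z} (h : x ≠ α) : Avoid d α 0 x x :=
  ⟨fun _ => x, rfl, rfl, fun _ _ => h, fun _ h => absurd h (by omega)⟩

theorem lv_refl (m0 : IsMet d) (α x : Z) (m : ℕ) : Lv d ht M α m x x := by
  by_cases h : x = α
  · exact Or.inr (Or.inr h)
  · exact Or.inl ((avoid_refl h).mono m0 (by omega))

theorem lv_step (m0 : IsMet d) (α : Z) {x y : Z} (h1 : d x y = 1) (h2 : ht x y = M) :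
    Lv d ht M α 1 x y := by
  by_cases h : y = α
  · exact Or.inr (Or.inr h)
  by_cases h' : x = α
  · subst h'
    exact Or.inr (Or.inl ⟨y, h1, h2, (avoid_refl h).mono m0 (by omega)⟩)
  · refine Or.inl ⟨fun i => if i = 0 then x else y, rfl, rfl, fun i _ => ?_, fun i hi => ?_⟩
    · dsimp only
      split_ifs <;> assumption
    · obtain rfl : i = 0 := by omega
      exact h1.le

namespace Low

variable (L : Low J d ht o p M c)
include L

theorem lv_word {n : ℕ} {w : J} (h : Wd (Syl J o p) n w) (α : Z) :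
    ∀ g : J, Lv d ht M α (2 * n) (g • o) ((g * w) • o) := by
  refine h.induct (P := fun n w => ∀ g : J, Lv d ht M α (2 * n) (g • o) ((g * w) • o))
    (fun n g => by rw [mul_one]; exact lv_refl L.gr.met _ _ _) ?_
  intro n a w ha _ ih g
  have e : Lv d ht M α 2 (g • o) ((g * a) • o) := by
    rcases ha with ha | ha
    · rw [mul_smul, ha]
      exact lv_refl L.gr.met _ _ _
    · have po : d p o = 1 := by rw [L.gr.met.symm, L.adj]
      have e1 := lv_step (ht := ht) L.gr.met α (x := g • o) (y := g • p) (by rw [L.iso, L.adj])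
        (by rw [L.ht_smul _ _ _ L.adj, L.top])
      have e2 := lv_step (ht := ht) L.gr.met α (x := (g * a) • p) (y := (g * a) • o)
        (by rw [L.iso, po]) (by rw [L.ht_smul _ _ _ po, ← L.ht_symm _ _ L.adj, L.top])
      rw [mul_smul g a p, ha] at e2
      exact e1.trans L.gr.met e2
  have := e.trans L.gr.met (ih (g * a))
  rwa [mul_assoc, show 2 + 2 * n = 2 * (n + 1) by ring] at this

theorem dis_word {n : ℕ} {w : J} (h : Wd (Syl J o p) n w) : d o (w • o) ≤ 2 * n := by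
  refine h.induct (P := fun n w => d o (w • o) ≤ 2 * n)
    (fun n => by rw [one_smul, L.gr.met.self]; omega) ?_
  intro n a w ha _ ih
  have e1 := L.gr.met.tri o (a • o) ((a * w) • o)
  rw [mul_smul, L.iso, ← mul_smul] at e1
  rcases ha with ha | ha
  · rw [ha, L.gr.met.self] at e1
    omega
  · have e2 := L.gr.met.tri o p (a • o)
    have e3 := L.iso a p o
    rw [ha, L.gr.met.symm p o, L.adj] at e3
    rw [L.adj] at e2
    omega

theorem ht_geo {g : ℕ → Z} {n m : ℕ} (hg : GeoOn d g 0 n)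
    (h : ∀ i, i < n → Lv d ht M (g i) m (g 0) (g n)) (i : ℕ) (hi : i < n) :
    M ≤ ht (g i) (g (i + 1)) + (i + 1) * (n + m) := by
  have m0 := L.gr.met
  have ne : ∀ i j, i < j → j ≤ n → g i ≠ g j := fun i j h1 h2 e => by
    have := hg i j (by omega) h1.le h2
    rw [e, m0.self] at this
    omega
  have st : ∀ i, i < n → d (g i) (g (i + 1)) = 1 := fun i hi => by
    have := hg i (i + 1) (by omega) (by omega) hi
    omega
  have back : ∀ i, i < n → Avoid d (g i) (n - (i + 1)) (g n) (g (i + 1)) := fun i hi =>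
    Avoid.symm m0 ⟨fun s => g (i + 1 + s), rfl, congrArg g (by omega),
      fun s hs => (ne i _ (by omega) (by omega)).symm, fun s hs => (st _ (by omega)).le⟩
  induction i with
  | zero =>
    rcases h 0 hi with e | ⟨z, a1, a2, a3⟩ | e
    · exact absurd rfl (avoid_ne e).1
    · have := L.det _ _ _ _ _ trivial le_rfl a1.le (st 0 hi).le (a3.trans (back 0 hi))
      dsimp only at this
      omega
    · exact absurd e.symm (ne 0 n hi le_rfl)
  | succ i ih =>
    have ih := ih (by omega)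
    rw [Nat.succ_mul (i + 1)]
    rcases h _ hi with e | ⟨z, a1, a2, a3⟩ | e
    · have e0 : Avoid d (g (i + 1)) i (g i) (g 0) := Avoid.symm m0 ⟨g, rfl, rfl,
        fun s hs => ne s _ (by omega) (by omega), fun s hs => (st _ (by omega)).le⟩
      have := L.det _ _ _ _ _ trivial le_rfl ((m0.symm _ _).trans (st i (by omega))).le
        (st _ hi).le ((e0.trans e).trans (back _ hi))
      rw [L.ht_symm _ _ (st i (by omega))] at ih
      dsimp only at this
      omega
    · have := L.det _ _ _ _ _ trivial le_rfl a1.le (st _ hi).le (a3.trans (back _ hi))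
      dsimp only at this
      omega
    · exact absurd e.symm (ne _ n hi le_rfl)

theorem word_geo {g : ℕ → Z} {n m h : ℕ} (hg : GeoOn d g 0 n) (h0 : g 0 = o)
    (hl : ∀ i, i < n → Lv d ht M (g i) m (g 0) (g n)) (h1 : n * (n + m) ≤ h) (h2 : h < M) :
    ∃ a : J, Wd (Syl J o p) (n * (3 * (c h + 1))) a ∧ (g n = a • o ∨ g n = a • p) := by
  refine (word_of_path (J := J) (syl_inv o p) (rep := fun r => r = o ∨ r = p)
    (C := c h + 1) (g := g) (n := n) ?_ (Or.inl h0) ?_).imp ?_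
  rotate_right
  · rintro a ⟨r, e1, e2, e3⟩
    exact ⟨e2, e1.imp (fun e => by rw [← e]; exact e3) fun e => by rw [← e]; exact e3⟩
  · rintro r r' a (e1 | e1) (e2 | e2) e <;> rw [e1, e2] at e
    · exact (Wd.of (S := Syl J o p) (Or.inl e)).mono (by omega)
    · exact absurd e (L.ne a)
    · exact absurd (inv_smul_eq_iff.2 e.symm) (L.ne a⁻¹)
    · exact (Wd.of (S := Syl J o p) (Or.inr e)).mono (by omega)
  · intro i hi
    have e := L.ht_geo hg hl i hi
    have e' := Nat.mul_le_mul_right (n + m) (show i + 1 ≤ n from hi)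
    have st := hg i (i + 1) (by omega) (by omega) hi
    obtain ⟨a, μ, μ', r, r', f1, f2, f3, f4, f5⟩ :=
      L.edge h (g i) (g (i + 1)) h2 (by omega) (by omega)
    exact ⟨a, μ, μ', r, r', f1, f2, f3.mono (by omega), f4.mono (by omega), f5⟩

/-- Short words with a common fixed point are conjugate into a vertex group by a short word. -/
theorem lc0 {c0 : ℕ} (ta : ∀ (U : Set J) (α : Z), (∀ a ∈ U, a • α = α) → ∀ x,
      (∀ a ∈ U, a • x = x) ∨ ∃ β, (∀ a ∈ U, a • β = β) ∧ ∃ a ∈ U, 2 * d x β ≤ d x (a • x) + c0)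
    {n h : ℕ} (h1 : (n + c0) * (4 * n + 2 * c0) ≤ h) (h2 : h < M) {U : Set J}
    (hU : ∀ a ∈ U, Wd (Syl J o p) n a) {α : Z} (hα : ∀ a ∈ U, a • α = α) :
    ∃ μ : J, Wd (Syl J o p) ((n + c0) * (3 * (c h + 1))) μ ∧
      ((∀ a ∈ U, a • μ • o = μ • o) ∨ ∀ a ∈ U, a • μ • p = μ • p) := by
  classical
  have ex : ∃ m, ∃ β, (∀ a ∈ U, a • β = β) ∧ d o β = m := ⟨_, α, hα, rfl⟩
  obtain ⟨β, b1, b2⟩ := Nat.find_spec ex
  have mn : ∀ β', (∀ a ∈ U, a • β' = β') → d o β ≤ d o β' := fun β' e =>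
    b2 ▸ Nat.find_min' ex ⟨β', e, rfl⟩
  have le : d o β ≤ n + c0 := by
    rcases ta U α hα o with e | ⟨β', e1, a, e2, e3⟩
    · have := mn o e
      rw [L.gr.met.self] at this
      omega
    · have := mn β' e1
      have := L.dis_word (hU a e2)
      omega
  obtain ⟨g, g0, g1, hg⟩ := L.gr.exists_geo o β
  refine (L.word_geo (m := 2 * n + d o β) hg g0 (fun i hi => ?_)
    (le_trans (Nat.mul_le_mul le (by omega)) h1) h2).imp ?_
  rotate_right
  · rintro μ ⟨e1, e2⟩
    rw [g1] at e2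
    exact ⟨e1.mono (Nat.mul_le_mul_right _ le),
      e2.imp (fun e => by rw [← e]; exact b1) fun e => by rw [← e]; exact b1⟩
  · have e0 := hg 0 i le_rfl (by omega) hi.le
    obtain ⟨a, a1, a2⟩ : ∃ a ∈ U, a • g i ≠ g i := by
      by_contra e
      push Not at e
      have := mn _ e
      rw [g0] at e0
      omega
    have e1 := L.lv_word (hU a a1) (g i) 1
    rw [one_smul, one_mul] at e1
    rw [g0, g1]
    refine e1.trans L.gr.met (Or.inl ⟨fun s => a • g s, by dsimp only; rw [g0],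
      by dsimp only; rw [g1, b1 a a1], fun s hs e => a2 ?_, fun s hs => ?_⟩)
    · have f1 := hg s _ (by omega) hs le_rfl
      have f2 := hg i _ (by omega) hi.le le_rfl
      have f3 := L.iso a (g s) β
      dsimp only at e
      rw [e, b1 a a1] at f3
      rw [g1] at f1 f2
      obtain rfl : s = i := by omega
      exact e
    · have := hg s (s + 1) (by omega) (by omega) hs
      dsimp only
      rw [L.iso]
      omega

/-- What commutes with a short word without fixed point and moves `o` a little is short. -/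
theorem cent_short {n B N h : ℕ} (pw : PW J d N (B + 1)) (h1 : B * (2 * B + 4 * (N * n)) ≤ h)
    (h2 : h < M) {w f : J} (hw : Wd (Syl J o p) n w) (nf : ∀ z : Z, w • z ≠ z) (cm : Commute f w)
    (hf : d o (f • o) ≤ B) : Wd (Syl J o p) (B * (3 * (c h + 1)) + 1) f := by
  obtain ⟨g, g0, g1, hg⟩ := L.gr.exists_geo o (f • o)
  refine (L.word_geo (m := 2 * (N * n) + d o (f • o) + 2 * (N * n)) hg g0
    (fun i hi => ?_) (le_trans (Nat.mul_le_mul hf (by omega)) h1) h2).elim ?_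
  rotate_right
  · rintro μ ⟨e1, e2⟩
    rw [g1] at e2
    rcases e2 with e | e
    · have := (e1.mono (Nat.mul_le_mul_right _ hf)).mul (Wd.of (S := Syl J o p) (a := μ⁻¹ * f)
        (Or.inl (by rw [mul_smul, e, inv_smul_smul])))
      rwa [mul_inv_cancel_left] at this
    · exact absurd (by rw [mul_smul, e, inv_smul_smul]) (L.ne (μ⁻¹ * f))
  · have e1 := L.lv_word (hw.pow N) (g i) 1
    have e2 := L.lv_word ((hw.pow N).inv (syl_inv o p)) (g i) (f * w ^ N)
    rw [one_smul, one_mul] at e1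
    rw [mul_inv_cancel_right] at e2
    rw [g0, g1]
    refine (e1.trans L.gr.met (Or.inl ⟨fun s => w ^ N • g s, by dsimp only; rw [g0], ?_,
      fun s hs e => ?_, fun s hs => ?_⟩)).trans L.gr.met e2
    · dsimp only
      rw [g1, ← mul_smul, (cm.pow_right N).eq]
    · have f1 := pw w nf N le_rfl (g s)
      dsimp only at e
      rw [e] at f1
      rcases le_total s i with e' | e'
      · have := hg s i (by omega) e' hi.le
        omega
      · have := hg i s (by omega) e' hs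
        rw [L.gr.met.symm] at this
        omega
    · have := hg s (s + 1) (by omega) (by omega) hs
      dsimp only
      rw [L.iso]
      omega

end Low

/-- Roots of short words are short. -/
theorem rsl (k c0 : ℕ) (Pf : ℕ → ℕ) (n : ℕ) : ∃ h : ℕ, ∀ c : ℕ → ℕ, ∃ C : ℕ,
    ∀ (J Z : Type) [Group J] [MulAction J Z] (d ht : Z → Z → ℕ) (o p : Z) (M : ℕ),
    Low J d ht o p M c → h < M → Hyp4 d k → (∀ L, PW J d (Pf L) L) →
    (∀ (U : Set J) (α : Z), (∀ a ∈ U, a • α = α) → ∀ x, (∀ a ∈ U, a • x = x) ∨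
      ∃ β, (∀ a ∈ U, a • β = β) ∧ ∃ a ∈ U, 2 * d x β ≤ d x (a • x) + c0) →
    (∀ (g : J) (j : ℕ) (x : Z), j ≠ 0 → g ^ j • x = x → g • x = x) →
    ∀ (f : J) (j : ℕ), j ≠ 0 → Wd (Syl J o p) n (f ^ j) → Wd (Syl J o p) C f := by
  obtain ⟨B, hB⟩ : ∃ B, B = 2 * n + 2 * (Pf (20 * (k + 1)) * n) + 15 * (k + 1) := ⟨_, rfl⟩
  obtain ⟨h, hh⟩ : ∃ h, h = (n + c0) * (4 * n + 2 * c0) + B * (2 * B + 4 * (Pf (B + 1) * n)) :=
    ⟨_, rfl⟩
  refine ⟨h, fun c => ⟨2 * ((n + c0) * (3 * (c h + 1))) + B * (3 * (c h + 1)) + 1, ?_⟩⟩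
  intro J Z _ _ d ht o p M L h2 hyp pw ta rc f j hj hw
  by_cases nf : ∀ z : Z, f ^ j • z ≠ z
  · have S := sp_of L.gr hyp L.iso
    obtain ⟨x0, e0⟩ := S.mu_le_of_pow f hj o
    have e1 := S.tube (pw _ _ nf _ le_rfl) le_rfl
      ((Commute.self_pow f j).pow_right (Pf (20 * (k + 1)))) o x0
    have e2 := L.dis_word hw
    have e3 := L.dis_word (hw.pow (Pf (20 * (k + 1))))
    exact (L.cent_short (B := B) (h := h) (pw _) (by omega) h2 hw nf (Commute.self_pow f j)
      (by omega)).mono (by omega)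
  · push Not at nf
    obtain ⟨z, hz⟩ := nf
    obtain ⟨μ, e1, e2⟩ := L.lc0 ta (n := n) (h := h) (by omega) h2 (U := {f ^ j})
      (fun a e => by rw [e]; exact hw) (α := z) fun a e => by rw [e]; exact hz
    have e3 : μ⁻¹ * f * μ ∈ Syl J o p := by
      refine e2.imp (fun e => ?_) fun e => ?_ <;>
        rw [mul_smul, mul_smul, rc f j _ hj (e _ rfl), inv_smul_smul]
    have := (e1.mul (Wd.of e3)).mul (e1.inv (syl_inv o p))
    rw [show μ * (μ⁻¹ * f * μ) * μ⁻¹ = f by group] at this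
    exact this.mono (by omega)

end Pool.Agent.Lib.MP_a2eab4_al.Re
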