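import Pool.Agent.Lib.MP_a2eab4_al.RdI
import Pool.Agent.Lib.MP_a2eab4_al.ReLow
import Pool.Agent.Lib.MP_429c3d_al.NgLF

set_option autoImplicit false

/-! The interfaces between the blocks of one level step. -/

namespace Pool.Agent.Lib.MP_a2eab4_al.Re

open Pool.Agent.Lib.MP_429c3d_al Hyp Ng

/-- The invariants of a group acting on a graph. -/
structure Inv (G : Type) {X : Type} [Group G] [MulAction G X] (d : X → X → ℕ) (k A P : ℕ) :
    Prop where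
  gr : IsGr d
  hyp : Hyp4 d k
  iso : Isom G d
  ne : Nonempty X
  tf : TF G
  n2 : N2 G
  rg : RG G
  pf : PF G
  ai : AI G d (b1 k) A
  pe1 : PE1 G d (b1 k) A
  pe2 : PE2 G d (b1 k) P

/-- A level; `M` is the set of marked elements. -/
structure Lev (G : Type) {X : Type} [Group G] [MulAction G X] (d : X → X → ℕ) (M : Set G)
    (k A P S2 k0 n u : ℕ) : Prop extends Inv G d k A P where
  conj : ∀ g s : G, s ∈ M → g * s * g⁻¹ ∈ M
  mark : ∀ s ∈ M, ∃ x : X, d x (s • x) ≤ u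
  gt : ∀ y s : G, s ∈ M → Done n y (s * y * s⁻¹) ∨ Esc d k0 S2 y (s * y * s⁻¹)

/-- The relation between a level and the next one. -/
structure Nx {G X G' X' : Type} [Group G] [MulAction G X] [Group G'] [MulAction G' X']
    (d : X → X → ℕ) (d' : X' → X' → ℕ) (M : Set G) (θ : G →* G') (Φ : X → X') (S2 n u : ℕ) :
    Prop where
  surj : Function.Surjective θ
  smul : ∀ (g : G) x, Φ (g • x) = θ g • Φ x
  le : ∀ x x', d x x' ≤ u → d' (Φ x) (Φ x') ≤ 1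
  inj : ∀ (g : G) x, d x (g • x) ≤ u → θ g = 1 → g = 1
  tr : ∀ y s : G, s ∈ M → ¬ Big d S2 y (s * y * s⁻¹) → Done n (θ y) (θ (s * y * s⁻¹))

/-- Reduced words in `e` and `E` (modulo `D`) with at most `N` powers of `e` are not in `E`. -/
def LFD {G : Type} [Group G] (E D : Set G) (e : G) (N : ℕ) : Prop :=
  ∀ (l : List (ℤ × G)) (j : ℤ), l.length < N → j ≠ 0 →
    (∀ p ∈ l, p.1 ≠ 0 ∧ p.2 ∈ E ∧ p.2 ∉ D) → wd e l * e ^ j ∉ E

/-- The syllables. -/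
def Sy {G : Type} [Group G] (E : Set G) (e : G) : Set G := {a | a ∈ E ∨ ∃ i : ℤ, a = e ^ i}

/-- The algebra of a top pair `(y, t * y * t⁻¹)`. -/
structure Pr {G : Type} [Group G] (E D : Subgroup G) (y t : G) : Prop where
  ab : ∀ a ∈ E, ∀ b ∈ E, Commute a b
  mem : y ∈ E
  le : D ≤ E
  cen : ∀ δ ∈ D, Commute δ t
  sat : ∀ (g : G) (j : ℤ), j ≠ 0 → g ^ j ∈ E → g ∈ E
  satD : ∀ (g : G) (j : ℕ), j ≠ 0 → g ∈ E → g ^ j ∈ D → g ∈ D
  nm : y ∉ D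
  lf : ∀ N, LFD (E : Set G) D (t * y * t⁻¹) N

/-- The twisted pairs of a top pair. -/
def Twi {G : Type} [Group G] (D : Subgroup G) (y t a c : G) : Prop :=
  ∃ δ ∈ D, a = y * δ ∧ c = t * y * t⁻¹ * δ

/-- The geometry of the coned space: plain points `ι x` and cone vertices `g • v p` with the
neighbours `ι ((g * f) • ξ p)`, where `f` is in the group generated by `S p`. -/
structure Cb (G : Type) {B Y I : Type} [Group G] [MulAction G B] [MulAction G Y] (d : B → B → ℕ)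
    (ι : Y → B) (v : I → B) (ξ : I → Y) (S : I → Set G) (k D : ℕ) : Prop where
  gr : IsGr d
  hyp : Hyp4 d k
  iso : Isom G d
  ne : Nonempty Y
  ι_inj : Function.Injective ι
  ι_smul : ∀ (g : G) x, ι (g • x) = g • ι x
  cover : ∀ z, (∃ x, z = ι x) ∨ ∃ (g : G) (p : I), z = g • v p
  npl : ∀ p x, ι x ≠ v p
  cls : ∀ (g : G) p q, g • v p = v q → p = q
  inv : ∀ p, ∀ a ∈ S p, a⁻¹ ∈ S p
  stab : ∀ (g : G) p, g • v p = v p ↔ g ∈ Subgroup.closure (S p)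
  adj : ∀ p, d (v p) (ι (ξ p)) = 1
  nb : ∀ p z, d (v p) z = 1 → ∃ f ∈ Subgroup.closure (S p), z = ι (f • ξ p)
  det : ∀ p f, f ∈ Subgroup.closure (S p) →
    Avoid d (v p) (20 * k + 20) (ι (ξ p)) (ι (f • ξ p)) → Wd (S p) D f

/-- Some iterate of index at most `N` of the pair is conjugate to a listed pair. -/
def Trt {G I : Type} [Group G] (T : I → G → G → Prop) (N : ℕ) (y c : G) : Prop :=
  ∃ j, j ≤ N ∧ ∃ (h : G) (p : I), T p (h * y * h⁻¹) (h * cs y c j * h⁻¹)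

/-- The invariants of the action on the coned space. -/
structure Ci (G : Type) {B Y I : Type} [Group G] [MulAction G B] (d : B → B → ℕ) (ι : Y → B)
    (S : I → Set G) (T : I → G → G → Prop) (M : Set G) (L f P S' K kk n : ℕ) : Prop where
  tf : TF G
  n2 : N2 G
  rg : RG G
  pf : PF G
  ai : AI G d L f
  pe1 : PE1 G d L f
  pe2 : PE2 G d L P
  conj : ∀ g s : G, s ∈ M → g * s * g⁻¹ ∈ M
  mark : ∀ s ∈ M, ∃ x, d (ι x) (s • ι x) ≤ 1
  gt : ∀ y s : G, s ∈ M → Done n y (s * y * s⁻¹) ∨ Trt T kk y (s * y * s⁻¹) ∨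
    Trt (fun p a c => a ∈ Subgroup.closure (S p) ∧ c ∈ Subgroup.closure (S p)) K y
      (s * y * s⁻¹) ∨ Esc d K S' y (s * y * s⁻¹)

/-- The output of the cone block. -/
structure Cn (G : Type) {X : Type} [Group G] [MulAction G X] (d : X → X → ℕ) (M : Set G)
    (kB D0 L f P S2 S' u K kk n : ℕ) where
  B : Type
  Y : Type
  I : Type
  [act : MulAction G B]
  [aY : MulAction G Y]
  dB : B → B → ℕ
  ι : Y → B
  v : I → B
  ξ : I → Y
  E : I → Subgroup G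
  D : I → Subgroup G
  y : I → G
  t : I → G
  j : X → Y
  cb : Cb G dB ι v ξ (fun p => Sy (E p) (t p * y p * (t p)⁻¹)) kB D0
  ci : Ci G dB ι (fun p => Sy (E p) (t p * y p * (t p)⁻¹)) (fun p => Twi (D p) (y p) (t p)) M
    L f P S' K kk n
  pr : ∀ p, Pr (E p) (D p) (y p) (t p)
  j_smul : ∀ (g : G) x, j (g • x) = g • j x
  j_le : ∀ x x', d x x' ≤ u → dB (ι (j x)) (ι (j x')) ≤ 1
  tr : ∀ a s : G, s ∈ M → ¬ Big d S2 a (s * a * s⁻¹) → Done n a (s * a * s⁻¹) ∨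
    Trt (fun p => Twi (D p) (y p) (t p)) kk a (s * a * s⁻¹)

attribute [instance] Cn.act Cn.aY

/-- The invariants of a fibre with base point `b`; the homomorphism `α` has abelian image. -/
structure Fi (J : Type) {R H : Type} [Group J] [MulAction J R] [Group H] (d : R → R → ℕ) (b : R)
    (α : J →* H) (k L f P S' K N m : ℕ) : Prop where
  gr : IsGr d
  hyp : Hyp4 d k
  iso : Isom J d
  comm : ∀ l l', Commute (α l) (α l')
  tf : TF J
  ur : ∀ (l l' : J) (j : ℕ), j ≠ 0 → Bd d l → l ^ j = l' ^ j → l = l'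
  ai : AI J d L f
  pe1 : PE1 J d L f
  pe2 : PE2 J d L P
  gt : ∀ y c : J, IsConj y c → Done m y c ∨ Esc d K S' y c
  far : ∀ β : J, β ≠ 1 → Bd d β → α β = 1 → ∀ l : J, N < d (l • b) (β • l • b)
  mix : ∀ β j h : J, β ≠ 1 → Bd d β → α β = 1 → Commute (j * β * j⁻¹) β → Commute h β →
    Commute j h

/-- The output of the fibre block. -/
structure Fib (E : Type) [CommGroup E] (D : Subgroup E) (y : E) (k : ℕ) (φ : ℕ → ℕ)
    (L f P S' K N m : ℕ) where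
  J : Type
  R : Type
  [grp : Group J]
  [act : MulAction J R]
  d : R → R → ℕ
  b : R
  σ : E →* J
  e : J
  α : J →* E
  fi : Fi J d b α k L f P S' K N m
  ασ : ∀ a, α (σ a) = a
  αe : α e = y
  cen : ∀ δ ∈ D, ∀ l : J, Commute (σ δ) l
  gen : Subgroup.closure (Sy (Set.range σ) e) = ⊤
  lip : ∀ l ∈ Sy (Set.range σ) e, d b (l • b) ≤ 4
  pr : ∀ (l : J) t, t ≤ N → d b (l • b) ≤ t → Wd (Sy (Set.range σ) e) (φ t) l
  lf : LFD (Set.range σ) (σ '' D) e N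
  law : Commute (σ y) (cs (σ y) e m)
  el : ∀ (U : Set J) t, t ≤ N → U.Finite → (∀ a ∈ U, ∀ a' ∈ U, Commute a a') →
    (∀ a ∈ U, ∀ i : ℤ, d b (a ^ i • b) ≤ t) → ∃ w, Wd (Sy (Set.range σ) e) (φ t) w ∧
      ((∀ a ∈ U, w⁻¹ * a * w ∈ Set.range σ) ∨
        ∀ a ∈ U, ∃ δ ∈ D, ∃ i : ℤ, w⁻¹ * a * w = σ δ * e ^ i)
  bt : ∀ δ ∈ D, ∀ i : ℤ, i ≠ 0 → ∀ w t, d w ((σ δ * e ^ i) • w) ≤ t → d w b ≤ φ t

attribute [instance] Fib.grp Fib.act

/-- A fibre together with the quotient map from the stabiliser of a cone vertex. -/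
structure Pc (G : Type) [Group G] (S : Set G) (T : G → G → Prop) (k : ℕ) (φ : ℕ → ℕ)
    (L f P S' K N m : ℕ) where
  J : Type
  R : Type
  [grp : Group J]
  [act : MulAction J R]
  d : R → R → ℕ
  b : R
  π : Subgroup.closure S →* J
  α : J →* G
  fi : Fi J d b α k L f P S' K N m
  surj : Function.Surjective π
  lip : ∀ a : Subgroup.closure S, (a : G) ∈ S → d b (π a • b) ≤ 4
  pr : ∀ (l : J) t, t ≤ N → d b (l • b) ≤ t → ∃ a, π a = l ∧ Wd S (φ t) (a : G)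
  ker : ∀ a, π a = 1 → Wd S N (a : G) → a = 1
  law : ∀ y c, T y c → ∃ y' c' : Subgroup.closure S, (y' : G) = y ∧ (c' : G) = c ∧
    Commute (π y') (cs (π y') (π c') m)
  ty : ∀ U : Set (Subgroup.closure S), U.Finite → (∀ a ∈ U, ∀ a' ∈ U, Commute a a') →
    (∀ a ∈ U, ∀ i : ℤ, Wd S N ((a : G) ^ i)) → ∃ g : G, ∀ a ∈ U, α (π a) = g⁻¹ * a * g
  rt : ∀ (g : G) (j : ℤ) (a : Subgroup.closure S), j ≠ 0 → g ^ j = a →
    (∀ i : ℤ, Wd S N ((a : G) ^ i)) → g ∈ Subgroup.closure S ∨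
      ∃ l : J, ∀ w t, d w (π a • w) ≤ t → d w (l • b) ≤ φ t

attribute [instance] Pc.grp Pc.act

/-- The filled space `W`, a blow up of `Z`. -/
structure Dev (G : Type) {B Y I : Type} [Group G] [MulAction G Y] (dB : B → B → ℕ) (ι : Y → B)
    (ξ : I → Y) (S : I → Set G) {J R : I → Type} [∀ p, Group (J p)] [∀ p, MulAction (J p) (R p)]
    (dR : ∀ p, R p → R p → ℕ) (b : ∀ p, R p) (π : ∀ p, Subgroup.closure (S p) →* J p)
    (kZ kF D : ℕ) (ψ : ℕ → ℕ) (r : ℕ) where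
  Γ : Type
  W : Type
  Z : Type
  [grp : Group Γ]
  [aW : MulAction Γ W]
  [aZ : MulAction Γ Z]
  dW : W → W → ℕ
  dZ : Z → Z → ℕ
  dF : W → W → ℕ
  bar : W → Z
  θ : G →* Γ
  io : ∀ p, J p →* Γ
  Φ : Y → W
  em : ∀ p, R p → W
  d' : Y → Y → ℕ
  blow : Blow dW dZ dF bar kZ kF D
  bact : BAct Γ dW dZ dF bar
  surj : Function.Surjective θ
  io_π : ∀ p a, io p (π p a) = θ a
  io_inj : ∀ p, Function.Injective (io p)
  Φ_smul : ∀ (g : G) x, Φ (g • x) = θ g • Φ x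
  em_smul : ∀ p (l : J p) ρ, em p (l • ρ) = io p l • em p ρ
  em_bar : ∀ p ρ, bar (em p ρ) = bar (em p (b p))
  em_d : ∀ p ρ ρ', dF (em p ρ) (em p ρ') = dR p ρ ρ'
  fib : ∀ p w, bar w = bar (em p (b p)) → ∃ ρ, w = em p ρ
  stab : ∀ p (γ : Γ), γ • bar (em p (b p)) = bar (em p (b p)) → ∃ l, γ = io p l
  cover : ∀ w, (∃ x, w = Φ x) ∨ ∃ (γ : Γ) (p : I) (ρ : R p), w = γ • em p ρ
  sing : ∀ x w, bar w = bar (Φ x) → w = Φ x
  ne : ∀ x p, bar (Φ x) ≠ bar (em p (b p))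
  att : ∀ p, dW (em p (b p)) (Φ (ξ p)) ≤ 1
  exit : ∀ p ρ w, dW (em p ρ) w ≤ 1 → bar w ≠ bar (em p (b p)) →
    ∃ l : J p, ρ = l • b p ∧ w = io p l • Φ (ξ p)
  met : IsMet d'
  inv : Isom G d'
  le : ∀ x x', dB (ι x) (ι x') ≤ d' x x'
  one : ∀ x x', dB (ι x) (ι x') ≤ 1 → d' x x' ≤ 1
  W_le : ∀ x x', dB (ι x) (ι x') ≤ 1 → dW (Φ x) (Φ x') ≤ 1
  Z_le : ∀ x x', dZ (bar (Φ x)) (bar (Φ x')) ≤ dB (ι x) (ι x')
  ff : ∀ x x', Φ x = Φ x' → ∃ g : G, θ g = 1 ∧ x = g • x'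
  lift : ∀ x x' t, t ≤ r → dW (Φ x) (Φ x') ≤ t → ∃ g : G, θ g = 1 ∧ d' x (g • x') ≤ ψ t
  inj : ∀ (g : G) x, θ g = 1 → d' x (g • x) ≤ r → g = 1
  fix : ∀ p (h : G) t, t ≤ r → θ h • bar (em p (b p)) = bar (em p (b p)) →
    d' (ξ p) (h • ξ p) ≤ t → Wd (S p) (ψ t) h

attribute [instance] Dev.grp Dev.aW Dev.aZ

end Pool.Agent.Lib.MP_a2eab4_al.Re
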