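import Pool.Agent.Lib.MP_a2eab4_al.PwA
import Pool.Agent.Lib.MP_a2eab4_al.ReI

set_option autoImplicit false

/-! An acylindrical action on a tree is a level. -/

namespace Pool.Agent.Lib.MP_a2eab4_al.Pw

open Pool.Agent.Lib.MP_429c3d_al Hyp Ng Function

variable {G V : Type} [Group G] [MulAction G V] {T : BT G V}

theorem shift (T : BT G V) {g : G} {x x' u : V} {B : ℕ} (h1 : T.d x (g • x) ≤ B)
    (h2 : T.d x' (g • x') ≤ B) (hu : T.d x u + T.d u x' = T.d x x') (b1 : B ≤ T.d x u)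
    (b2 : B ≤ T.d u x') : T.d x (g • u) + T.d (g • u) x' = T.d x x' ∧
      T.d x (g • u) + T.d x' (g • x) = T.d x x' + T.d x u := by
  have a1 := T.inv g x u
  have a2 := T.inv g u x'
  have a3 := T.inv g x x'
  have a4 := T.tri x (g • x) x'
  have a5 := T.tri (g • x) x x'
  have s1 := T.symm x (g • x)
  have s2 := T.symm x' (g • x)
  have s3 := T.symm x' (g • u)
  have s4 := T.symm x (g • u)
  have s5 := T.symm x x'
  have s6 := T.symm (g • x) (g • u)
  have c1 := T.on_of_branch (x := g • x) (y := x') (z := g • x') (u := g • u) (by omega)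
    (by omega)
  have c2 := T.on_of_branch (x := x') (y := x) (z := g • x) (u := g • u) (by omega) (by omega)
  omega

theorem ai_tree (A : T.AC) (B : ℕ) : AI G T.d B (4 * B + 3) := by
  intro a b x x' h a1 b1 a2 b2
  by_contra hn
  have key : ∀ u, T.d x u + T.d u x' = T.d x x' → 2 * B ≤ T.d x u → 2 * B ≤ T.d u x' →
      (a * b) • u = (b * a) • u := fun u hu c1 c2 => by
    have t1 := T.tri x' x (a • x)
    have t2 := T.tri x' x (b • x)
    have t3 := T.tri x' (a • x) x
    have t4 := T.tri x' (b • x) x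
    have s1 := T.symm x x'
    have s2 := T.symm x (a • x)
    have s3 := T.symm x (b • x)
    have p := shift T a1 a2 hu (by omega) (by omega)
    have q := shift T b1 b2 hu (by omega) (by omega)
    have p' := shift T a1 a2 q.1 (by omega) (by omega)
    have q' := shift T b1 b2 p.1 (by omega) (by omega)
    rw [mul_smul, mul_smul]
    exact T.uniq p'.1 q'.1 (by omega)
  obtain ⟨u, u1, u2⟩ := T.exists_pt x x' (k := 2 * B) (by omega)
  obtain ⟨u', v1, v2⟩ := T.exists_pt x x' (k := 2 * B + 3) (by omega)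
  have e := BT.btw_d (T := T) (p := x) (q := x') (a := u) (b := u') (by omega) (by omega)
    (by omega)
  exact h (A.eq3 (key u (by omega) (by omega) (by omega)) (key u' (by omega) (by omega) (by omega))
    (by omega))

theorem ell_of_bd (A : T.AC) {g : G} (h : Re.Bd T.d g) : ∃ z : V, g • z = z := by
  have := A.ne
  obtain ⟨x, M, h⟩ := h
  refine (T.ell_or_ax g).resolve_right ?_
  rintro ⟨l, s, hs, hl⟩
  have h1 := ((hl.zpow (M + 1)).le_disp x).trans (h _)
  have h2 : (M + 1 : ℤ) ≤ (M + 1) * s := le_mul_of_one_le_right (by omega) hs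
  omega

theorem pe1_tree (A : T.AC) (B : ℕ) : Re.PE1 G T.d B (B + 4) := by
  intro g j x hb hj h i
  obtain ⟨z, hz⟩ := ell_of_bd A hb
  have hz' : ∀ i : ℤ, g ^ i • z = z := fun i =>
    (MulAction.stabilizer G z).zpow_mem (show g ∈ MulAction.stabilizer G z from hz) i
  by_cases h1 : g ^ j = 1
  · rw [A.tfz hj h1, one_zpow, one_smul, T.self]
    omega
  obtain ⟨m, m1, m2, -, m3⟩ := T.exists_mid (hz' j) x
  have h2 : ¬ 3 ≤ T.d m z := fun e => h1 (A.fix3 m1 (hz' j) e)
  obtain ⟨m', -, n2, -, n3⟩ := T.exists_mid (hz' i) x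
  omega

theorem pe2_tree (A : T.AC) {B P : ℕ} (h : B ≤ P) : Re.PE2 G T.d B P := by
  intro g hg x
  have := A.ne
  rcases T.ell_or_ax g with ⟨z, hz⟩ | ⟨l, s, hs, hl⟩
  · refine absurd ⟨z, 0, fun i => ?_⟩ hg
    rw [show g ^ i • z = z from
      (MulAction.stabilizer G z).zpow_mem (show g ∈ MulAction.stabilizer G z from hz) i, T.self]
  · have h1 := (hl.zpow P).le_disp x
    have h2 : (P : ℤ) ≤ P * s := le_mul_of_one_le_right (by omega) hs
    rw [zpow_natCast] at h1
    omega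

theorem big_of_br {y c : G} {p q : V} (h : T.Br y c p q) : Big T.d (T.d p q) y c := by
  intro v
  obtain ⟨m, m1, m2, m3⟩ := T.median p q v
  have s1 := T.symm p q
  have s2 := T.symm m q
  have s3 := T.symm m p
  have p1 := T.pos h.1
  rcases le_total (T.d p m) (T.d m q) with e | e
  · have h1 : _ = _ := h.2.2.beyond (u := m) (x := v) (T.ne_of (by omega)) (by omega) m3
    exact Or.inr (by omega)
  · have h1 : _ = _ := h.2.1.beyond (u := m) (x := v) (T.ne_of (by omega)) m1 m2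
    exact Or.inl (by omega)

theorem br_grow {y c : G} {p q : V} (h : T.Br y c p q) (r : ℕ) :
    ∃ q, T.Br y (cs y c r) p q ∧ r + 1 ≤ T.d p q := by
  induction r with
  | zero => exact ⟨q, h, T.pos h.1⟩
  | succ r ih =>
    obtain ⟨q, h1, h2⟩ := ih
    have := h1.btw.1
    exact ⟨_, h1.succ, by omega⟩

theorem esc_tree (A : T.AW) (hT : T.EqH) {s y : G} (hg : s * y ≠ y * s)
    (hn : ∀ v : V, y • v = v → (s * y * s⁻¹) • v ≠ v) (S : ℕ) :
    Esc T.d (S + 3) S y (s * y * s⁻¹) := by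
  have := A.ne
  obtain ⟨p, q, h⟩ : ∃ p q, T.Br y (cs y (s * y * s⁻¹) 3) p q := by
    rcases T.ell_or_ax y with ⟨x, hx⟩ | ⟨L, M, hM, hy⟩
    · obtain ⟨p, q, h⟩ := BT.br_ell (T := T) (c := s * y * s⁻¹) (x' := s • x) hx
        (by simp [mul_smul, hx]) hn
      exact ⟨p, h.cs 3⟩
    · exact BT.br_hypW A hT hy hM hg
  obtain ⟨q, h1, h2⟩ := br_grow h S
  rw [cs_add] at h1
  exact ⟨3 + S, by omega, fun v => (big_of_br h1 v).imp (by omega) (by omega)⟩

/-- Marked elements fix exactly one vertex, an apex. -/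
theorem lev_tree (A : T.AC) (W : T.AW) (hT : T.EqH) (ct : CT G) (csa : CSA G) {M : Set G}
    (hc : ∀ g s : G, s ∈ M → g * s * g⁻¹ ∈ M)
    (hM : ∀ s ∈ M, ∃ z : V, T.ap z ∧ s • z = z ∧ ∀ x : V, s • x = x → x = z)
    {k A' P S2 k0 n u : ℕ} (h1 : 4 * b1 k + 4 ≤ A') (h2 : b1 k ≤ P) (h3 : S2 + 3 ≤ k0) :
    Re.Lev G T.d M k A' P S2 k0 n u := by
  have tf := A.tF
  have eq : ∀ y p q : G, Commute p q → y * p * y⁻¹ = q → p = q := fun y p q h e => by
    by_cases hp : p = 1
    · rw [← e, hp, mul_one, mul_inv_cancel]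
    · rw [← e, (csa p y hp (e ▸ h.symm)).eq, mul_inv_cancel_right]
  refine ⟨⟨T.gr, T.hyp.mono (Nat.zero_le _), T.inv, A.ne, tf, fun p h e _ => ?_,
    fun p h j hj e => ?_,
    fun y c v hv e1 _ _ e4 _ => ⟨eq y _ _ (hv _ _) e1, eq y _ _ (hv _ _) e4⟩,
    fun p q x x' e e1 e2 e3 e4 => (ai_tree A _ p q x x' e e1 e2 e3 e4).trans (by omega),
    fun y j x hb hj e i => (pe1_tree A _ y j x hb hj e i).trans (by omega), pe2_tree A h2⟩,
    hc, fun s hs => ?_, fun y s hs => ?_⟩
  · by_cases hp : p = 1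
    · rw [hp]
      exact Commute.one_right h
    · exact csa p h hp e.symm
  · by_cases hp : p = 1
    · rw [hp]
      exact Commute.one_right h
    · exact ct h (p ^ j) p (fun e1 => hp (tf p j hj e1)) e (Commute.self_pow p j).symm
  · obtain ⟨z, -, hz, -⟩ := hM s hs
    exact ⟨z, by rw [hz, T.self]; exact Nat.zero_le _⟩
  · by_cases hy : s * y = y * s
    · exact Or.inl ⟨0, Nat.zero_le _, by
        rw [hy, mul_inv_cancel_right]
        exact Commute.refl y⟩
    obtain ⟨z, z1, z2, z3⟩ := hM s hs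
    obtain ⟨j, hj, h⟩ := esc_tree W hT hy (fun v hv hv' => by
      rw [mul_smul, mul_smul, ← eq_inv_smul_iff] at hv'
      obtain ⟨m, m1, m2, m3, -⟩ := T.exists_mid (g := s⁻¹) (inv_smul_eq_iff.2 z2.symm) v
      obtain rfl := z3 m (inv_smul_eq_iff.1 m1).symm
      exact hy (A.ab s y m z1 z2 (T.fix_of_between hv hv' (by omega)))) S2
    exact Or.inr ⟨j, by omega, h⟩

end Pool.Agent.Lib.MP_a2eab4_al.Pw
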