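import Pool.Agent.Lib.MP_a2eab4_al.PwB

set_option autoImplicit false

/-! The tree of the amalgam in which `a ^ q` is a free generator of a vertex group. -/

namespace Pool.Agent.Lib.MP_a2eab4_al.Pw

open Pool.Agent.Lib.MP_429c3d_al Hyp Ng Rx Function

theorem base_exists (q : ℕ) (hq : q ≠ 0) : ∃ (G V : Type) (_ : Group G) (_ : MulAction G V)
    (T : BT G V) (a g : G) (z x₀ : V), T.AC ∧ T.AW ∧ T.EqH ∧ CT G ∧ CSA G ∧ T.ap z ∧
    (∀ t : ℤ, a ^ t • z = z) ∧ (∀ t : ℤ, ¬ (q : ℤ) ∣ t → ∀ x : V, a ^ t • x = x → x = z) ∧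
    g • x₀ = x₀ ∧ ∀ t : ℤ, t ≠ 0 → (q : ℤ) ∣ t → a ^ t • x₀ = x₀ ∧ ¬ Commute g (a ^ t) := by
  obtain ⟨H, W, _, _, ω, γ, v, χ, tf, ct, csa, hχ, hγ, st, one, eqk⟩ := free_exists
  have hp : Injective (powMonoidHom q : Multiplicative ℤ →* Multiplicative ℤ) :=
    (injective_iff_map_eq_one _).2 fun c e => tf_int c q hq e
  have hω : Injective ω := fun c c' e => by rw [← hχ c, e, hχ]
  obtain ⟨G, V, _, _, i, j, S, hi, hj, h1, h2, h3⟩ := amalgam (powMonoidHom q) ω hp hω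
  obtain ⟨π, hπ, -⟩ := h3 _ (MonoidHom.id _) ((powMonoidHom q).comp χ) fun c => by simp [hχ]
  let T : BT G V :=
    { S.toBT with
      ap := fun u => ∃ f : G, u = f • S.vx true
      bip := fun x y h => by
        obtain ⟨f, b, rfl, rfl⟩ := (S.edge _ _).1 h
        cases b
        · exact ⟨fun ⟨_, e⟩ => absurd (S.ty e) (by simp), fun e => absurd ⟨f, rfl⟩ e⟩
        · exact ⟨fun _ ⟨_, e⟩ => absurd (S.ty e) (by simp), fun _ => ⟨f, rfl⟩⟩
      ap_smul := fun g x => ⟨fun ⟨f, e⟩ => ⟨g⁻¹ * f, by rw [mul_smul, ← e, inv_smul_smul]⟩,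
        fun ⟨f, e⟩ => ⟨g * f, by rw [mul_smul, e]⟩⟩ }
  have fx : ∀ (t f : G) b, t • f • S.vx b = f • S.vx b ↔
      f⁻¹ * t * f ∈ cond b i.range j.range := fun t f b => by
    rw [smul_smul, eq_comm, S.eq_iff, mul_assoc]
  have edge : ∀ x u, T.ap x → T.d x u = 1 → ∃ f : G, x = f • S.vx true ∧ u = f • S.vx false := by
    rintro x u ⟨f, hf⟩ h
    obtain ⟨f', b, e, e'⟩ := (S.edge _ _).1 h
    obtain rfl : b = true := S.ty (e.symm.trans hf)
    exact ⟨f', e, e'⟩
  have jv : ∀ η : H, j η • S.vx true = S.vx true ↔ η • v = v := fun η => by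
    rw [S.stab, st]
    constructor
    · rintro ⟨c, e⟩
      obtain ⟨c', -, e'⟩ := h2 c η e
      exact ⟨c', e'.symm⟩
    · rintro ⟨c, rfl⟩
      exact ⟨_, h1 c⟩
  have jv2 : ∀ η η' : H, j η • S.vx true = j η' • S.vx true ↔ η • v = η' • v := fun η η' => by
    rw [← inv_smul_eq_iff, smul_smul, ← map_inv, ← map_mul, jv, mul_smul, inv_smul_eq_iff]
  have hD : T.Des H := fun x hx => by
    obtain ⟨f, b, rfl⟩ := S.cover x
    cases b
    swap
    · exact absurd ⟨f, rfl⟩ hx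
    refine ⟨(MonoidHom.ofInjective hj).symm.toMonoidHom.comp
      (((MulAut.conj f⁻¹).toMonoidHom.comp (Subgroup.subtype _)).codRestrict j.range
        fun t => by simpa using (fx t f false).1 t.2), ?_⟩
    refine (MonoidHom.ofInjective hj).symm.injective.comp fun t t' e => ?_
    exact Subtype.ext ((MulAut.conj f⁻¹).injective (congrArg Subtype.val e))
  have apx : ∀ (t f : G), t • f • S.vx true = f • S.vx true → ∃ c, t = f * i c * f⁻¹ :=
    fun t f h => by
      obtain ⟨c, hc⟩ := (fx t f true).1 h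
      exact ⟨c, by rw [hc]; group⟩
  have A : T.AC := by
    refine BT.ac_of hD tf ⟨S.vx true⟩ (fun t x y hx hy e e' => or_iff_not_imp_left.2 fun hn => ?_)
      ?_ ?_
    · have p1 := T.pos hn
      have p2 := (T.par x y).1 (iff_of_true hx hy)
      obtain ⟨x', a1, a2⟩ := T.exists_pt x y (k := 2) (by omega)
      obtain ⟨u, b1, b2⟩ := T.exists_pt x x' (k := 1) (by omega)
      have f1 := T.fix_of_between e e' (u := x') (by omega)
      have f2 := T.fix_of_between e f1 (u := u) (by omega)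
      obtain ⟨f', rfl, e1⟩ := edge x' u (((T.par x x').2 (by omega)).1 hx)
        (by rw [T.symm]; omega)
      obtain ⟨f, rfl, rfl⟩ := edge x u hx b1
      obtain ⟨η, hη⟩ := (S.eq_iff false f f').1 e1
      obtain ⟨c, hc⟩ := (fx t f true).1 e
      obtain ⟨b, hb⟩ := (fx t f false).1 f2
      obtain ⟨c', -, rfl⟩ := h2 c b (hc.trans hb.symm)
      by_cases h0 : c' = 1
      · rw [h0, map_one, map_one, eq_comm, mul_assoc, inv_mul_eq_one, eq_comm, mul_eq_right] at hb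
        exact hb
      have e2 : f' = f * j η := by rw [hη]; group
      have e3 : t = f * j (ω c') * f⁻¹ := by rw [hb]; group
      rw [e2, e3, mul_smul, mul_smul, mul_smul, inv_smul_smul, smul_left_cancel_iff, smul_smul,
        ← map_mul, jv2, mul_smul] at f1
      rw [e2, mul_smul, (jv η).2 (one c' h0 _ f1), T.self] at a1
      omega
    · rintro a b _ ⟨f, rfl⟩ ha hb
      obtain ⟨c, rfl⟩ := apx a f ha
      obtain ⟨c', rfl⟩ := apx b f hb
      rw [conj_mul, conj_mul, ← map_mul, mul_comm c, map_mul]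
    · rintro t _ n ⟨f, rfl⟩ ht hn e
      obtain ⟨c, rfl⟩ := apx t f ht
      rw [conj_pow, ← map_pow, mul_inv_eq_one, mul_eq_left, map_eq_one_iff _ hi] at e
      rw [tf_int c n hn e, map_one, mul_one, mul_inv_cancel]
  have pw : ∀ t : ℤ, i (.ofAdd 1) ^ t = i (.ofAdd t) := fun t => by
    rw [← map_zpow, ← ofAdd_zsmul, smul_eq_mul, mul_one]
  refine ⟨G, V, inferInstance, inferInstance, T, i (.ofAdd 1), j γ, S.vx true, S.vx false, A,
    ⟨A.ne, A.tF, ?_, fun t x hx h => ?_⟩, ?_, A.cT hD ct, A.cSA hD csa, ⟨1, (one_smul _ _).symm⟩,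
    fun t => (S.stab true _).2 ⟨_, (pw t).symm⟩, fun t ht x hx => by_contra fun hn => ht ?_,
    (S.stab false _).2 ⟨γ, rfl⟩, ?_⟩
  · rintro a b _ ⟨f, rfl⟩ h
    rw [← inv_smul_eq_iff, smul_smul] at h
    obtain ⟨c, hc⟩ := apx _ f h
    have e := congrArg π hc
    simp only [map_mul, map_inv, hπ, MonoidHom.id_apply, mul_comm (π a), inv_mul_cancel,
      mul_inv_cancel_comm] at e
    rw [← e, map_one, mul_one, mul_inv_cancel, inv_mul_eq_one] at hc
    exact hc.symm
  · refine (A.acyl (t * t) (t • x) x ((T.ap_smul t x).2 hx) hx ?_ (by rw [mul_smul, h])).elim id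
      fun e => by rw [A.sq e, one_smul]
    rw [mul_smul, h]
  · rintro C α ⟨d1, d2, -⟩
    obtain ⟨f, rfl, rfl⟩ := edge α C d2 (by rw [T.symm, d1])
    have mem : ∀ t ∈ MulAction.stabilizer G (f • S.vx false), ∃ η, t = f * j η * f⁻¹ :=
      fun t h => by
        obtain ⟨c, hc⟩ := (fx t f false).1 h
        exact ⟨c, by rw [hc]; group⟩
    have pk : ∀ a b c d : H, PK (MulAction.stabilizer G (f • S.vx false))
        (f • j a • S.vx true) (f • j b • S.vx true) (f • j c • S.vx true) (f • j d • S.vx true) →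
        PK (⊤ : Subgroup H) (a • v) (b • v) (c • v) (d • v) := by
      rintro a b c d ⟨t, ht, e⟩
      obtain ⟨η, rfl⟩ := mem t ht
      simp only [mul_smul, inv_smul_smul, smul_left_cancel_iff] at e
      simp only [smul_smul, ← map_mul, jv2] at e
      exact ⟨η, trivial, by simpa only [smul_smul] using e⟩
    intro s hs s' hs' c1 c2 c3 c4 c5
    obtain ⟨η, rfl⟩ := mem s hs
    obtain ⟨η', rfl⟩ := mem s' hs'
    simp only [mul_smul, inv_smul_smul, ne_eq, smul_left_cancel_iff] at c1 c2 c3 c4 c5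
    refine eqk η trivial η' trivial (fun e => c1 ((jv η).2 e)) (fun e => c2 ((jv η').2 e))
      (fun e => c3 ((jv2 η η').2 e)) ?_ ?_
    · simpa using pk 1 η 1 η' (by simpa using c4)
    · simpa using pk 1 η η η' (by simpa using c5)
  · have z1 : i (.ofAdd 1) ^ t • S.vx true = S.vx true := (S.stab true _).2 ⟨_, (pw t).symm⟩
    obtain ⟨u, b1, b2⟩ := T.exists_pt (S.vx true) x (k := 1) (T.pos (Ne.symm hn))
    have f2 := T.fix_of_between z1 hx (u := u) (by omega)
    obtain ⟨f, e1, rfl⟩ := edge _ u ⟨1, (one_smul _ _).symm⟩ b1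
    obtain ⟨c, rfl⟩ := (S.stab true f).1 e1.symm
    obtain ⟨b, hb⟩ := (fx _ _ false).1 f2
    rw [pw, ← map_inv, ← map_mul, ← map_mul, inv_mul_cancel_comm] at hb
    obtain ⟨c', e, -⟩ := h2 _ b hb.symm
    exact ⟨c'.toAdd, by simpa using congrArg Multiplicative.toAdd e⟩
  · rintro _ h0 ⟨t, rfl⟩
    have e : i (.ofAdd 1) ^ ((q : ℤ) * t) = j (ω (.ofAdd t)) := by
      rw [pw, ← h1, powMonoidHom_apply, ← ofAdd_nsmul, nsmul_eq_mul]
    rw [e]
    refine ⟨(S.stab false _).2 ⟨_, rfl⟩, fun h => hγ (one (.ofAdd t) (fun e0 => h0 ?_) _ ?_)⟩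
    · rw [ofAdd_eq_one.1 e0, mul_zero]
    · rw [smul_smul, ← (comm_of_inj hj h).eq, mul_smul, (st _).2 ⟨_, rfl⟩]

end Pool.Agent.Lib.MP_a2eab4_al.Pw
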