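import Pool.Agent.Lib.MP_a2eab4_al.ReLim
import Pool.Agent.Lib.MP_a2eab4_al.PwC

set_option autoImplicit false

/-! The level step with large constants; powers of a bounded right Engel element. -/

namespace Pool.Agent.Lib.MP_a2eab4_al.Re

open Pool.Agent.Lib.MP_429c3d_al Hyp Ng

theorem level_step_big : ∃ k : ℕ, ∀ A0 : ℕ, ∃ A P S2 : ℕ, A0 ≤ A ∧ A0 ≤ P ∧ 2 ≤ S2 ∧
    ∀ u0 : ℕ, ∃ u k0 n : ℕ, u0 ≤ u ∧ u0 ≤ k0 ∧ ∀ (G X : Type) [Group G] [MulAction G X]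
    (d : X → X → ℕ) (M : Set G), Lev G d M k A P S2 k0 n u →
      ∃ (G' X' : Type) (_ : Group G') (_ : MulAction G' X') (d' : X' → X' → ℕ) (θ : G →* G')
        (Φ : X → X'), Lev G' d' (θ '' M) k A P S2 k0 n u ∧ Nx d d' M θ Φ S2 n u := by
  obtain ⟨kB, D0, h1⟩ := Rx.cone_exists
  obtain ⟨kT, kC, DT, c, φ, hc, hφ, h2⟩ := pg_exists
  obtain ⟨kZ, D, ψ, hψ, h3⟩ := nw_exists kB D0 kT kC DT c c hφ hc
  generalize blowK kT kC DT = kF at h3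
  refine ⟨max 746 (blowK kZ kF D), fun A0 => ?_⟩
  replace h3 := h3 _ (le_max_right 746 _)
  generalize max 746 (blowK kZ kF D) = k at h3 ⊢
  obtain ⟨L, h4⟩ := deck_of deckMain kZ kF D k kT kC DT c ψ hψ
  obtain ⟨f, P, hP, h1⟩ := h1 L
  obtain ⟨f', P', h2⟩ := h2 L
  have hQ : P * (P' + A0 + 1) ≠ 0 := Nat.mul_ne_zero hP (by omega)
  have hQ' : P' + A0 + 1 ≤ P * (P' + A0 + 1) := Nat.le_mul_of_pos_left _ (by omega)
  obtain ⟨A, h4⟩ := h4 (f + f') (P * (P' + A0 + 1)) hQ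
  obtain ⟨S2, hS, h1⟩ := h1 k (max A A0) (P * (P' + A0 + 1))
  refine ⟨max A A0, _, S2, le_max_right _ _,
    (show A0 ≤ P * (P' + A0 + 1) by omega), hS, fun u0 => ?_⟩
  obtain ⟨S', h4⟩ := h4 S2
  obtain ⟨U, h1⟩ := h1 S'
  obtain ⟨K, h1⟩ := h1 (U + u0 + 1) (by omega)
  obtain ⟨K', h2⟩ := h2 (f + f') (P * (P' + A0 + 1)) (by omega) (by omega) S'
  replace h2 := fun K'' (h : K' + u0 ≤ K'') => h2 K'' (le_trans (by omega) h)
  obtain ⟨K', hK', hu0⟩ : ∃ K'', K' + u0 = K'' ∧ u0 ≤ K'' := ⟨_, rfl, by omega⟩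
  rw [hK'] at h2
  obtain ⟨kk, h1⟩ := h1 (2 * (K + K') + 1)
  obtain ⟨R, h4⟩ := h4 (K + K') 1
  obtain ⟨N, h3⟩ := h3 (R + 1)
  obtain ⟨m, h2⟩ := h2 (K + K') (by omega) (R + 1) N
  refine ⟨U + u0 + 1, 2 * (K + K') + 1, kk + K + K' + m + 1, by omega, by omega, ?_⟩
  intro G X _ _ d M H
  obtain ⟨C⟩ := h1 (kk + K + K' + m + 1) (by omega) (by omega) G X d M H
  have g := fun p => (h2 G _ _ _ _ (C.pr p) H.tf).some
  obtain ⟨V, T, j, a1, a2, a3, a4, a6⟩ := h3 G _ _ _ C.dB C.ι C.v C.ξ _ L _ _ m _ S'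
    (fun p => (g p).F) (fun p => (g p).gl (C.pr p)) C.cb H.tf H.rg H.n2 H.pf
    (fun a b x x' h0 h1 h2 h3 h4 => (C.ci.ai a b x x' h0 h1 h2 h3 h4).trans (by omega))
    (fun a i x h0 h1 h2 i' => (C.ci.pe1 a i x h0 h1 h2 i').trans (by omega))
    (fun a h x => by
      rw [pow_mul']
      exact C.ci.pe2 _ (fun e => h (e.of_pow C.cb.gr.met C.cb.iso (by omega))) x)
  replace a4 : ∀ p a, (T p).io ((g p).π a) = V.θ a := a4
  obtain ⟨e1, e2⟩ := h4 G m (R + 1) _ V _ T (by omega) a1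
  have law : ∀ y e, Trt (fun p => Twi (C.D p) (C.y p) (C.t p)) kk y e →
      Done (kk + K + K' + m + 1) (V.θ y) (V.θ e) := by
    rintro y e ⟨i, hi, h, p, e3⟩
    obtain ⟨y', e', b1, b2, b3⟩ := (g p).law _ _ e3
    have b4 := b3.map (T p).io
    rw [map_cs, a4, a4, b1, b2] at b4
    simp only [map_mul, map_inv, map_cs] at b4
    exact done_mono (done_of_conj ⟨m, le_rfl, b4⟩) (by omega)
  have mk : ∀ s ∈ M, V.Sh 1 s := fun s hs => by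
    obtain ⟨x, hx⟩ := C.ci.mark s hs
    rw [← C.cb.ι_smul] at hx
    have := a3 _ _ hx
    rw [a2, V.Φ_smul] at this
    exact ⟨j x, this⟩
  refine ⟨V.Γ, V.W, V.grp, V.aW, V.dW, V.θ, fun x => V.Φ (j (C.j x)),
    ⟨Inv.mono ⟨V.blow.grW, V.hyp, V.bact.iW, V.ne, e1.tf, e1.n2, e1.rg, e1.pf, e1.ai, e1.pe1,
      e1.pe2⟩ (le_max_left _ _), ?_, ?_, ?_⟩, V.surj, fun g x => ?_, fun x x' h => ?_,
    fun g x h e => ?_, fun y s hs h => ?_⟩
  · rintro g _ ⟨s, hs, rfl⟩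
    obtain ⟨g, rfl⟩ := V.surj g
    exact ⟨_, H.conj g s hs, by simp⟩
  · rintro _ ⟨s, hs, rfl⟩
    obtain ⟨x, -, hx⟩ := mk s hs
    exact ⟨V.Φ x, hx.trans (by omega)⟩
  · rintro y _ ⟨s, hs, rfl⟩
    by_cases hy : Commute y (V.θ s * y * (V.θ s)⁻¹)
    · exact Or.inl ⟨0, Nat.zero_le _, hy⟩
    refine (e1.gt M (fun y e => Done (kk + K + K' + m + 1) y e ∨
      Esc V.dW (2 * (K + K') + 1) S2 y e) mk (fun s hs g => H.conj g s hs) ?_ y s hs hy).elim id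
        (Or.imp_left fun h => done_mono h (by omega))
    intro y s hs _
    rcases C.ci.gt y s hs with h | h | ⟨i, hi, h, p, b1, b2⟩ | h
    · exact Or.inl (Or.inl (done_map h _))
    · exact Or.inl (Or.inl (law _ _ h))
    · have b3 := (T p).smul_v ((g p).π ⟨_, b1⟩)
      have b4 := (T p).smul_v ((g p).π ⟨_, b2⟩)
      rw [a4] at b3 b4
      have b5 := e2 p 1 _ _ ((one_smul V.Γ (T p).v).symm ▸ b3) ((one_smul V.Γ (T p).v).symm ▸ b4)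
      simp only [map_mul V.θ _ h⁻¹, map_mul V.θ h, map_inv, map_cs] at b5
      exact Or.inl (b5.imp (fun h => done_mono (done_of_conj h) (by omega))
        fun h => esc_mono (esc_of_conj V.bact.iW h) (by omega))
    · exact Or.inr (esc_mono (a6 _ _ _ _ h) (by omega))
  · rw [C.j_smul, a2, V.Φ_smul]
  · exact (a3 _ _ (C.j_le _ _ h)).2
  · refine a1.inj g (j (C.j x)) e ?_
    rw [← a2, ← C.j_smul]
    exact (a3 _ _ (C.j_le _ _ h)).1.trans (by omega)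
  · exact (C.tr y s hs h).elim (fun h => done_map h _) (law _ _)

theorem powers : ∃ n : ℕ, ∀ q : ℕ, q ≠ 0 → ∃ (G : Type) (_ : Group G) (a g : G),
    (∀ i : ℤ, ¬ (q : ℤ) ∣ i → ∀ y, eng n (a ^ i) y = 1) ∧
      ∀ i : ℤ, i ≠ 0 → (q : ℤ) ∣ i → ∀ m, eng m (a ^ i) g ≠ 1 := by
  obtain ⟨k, h⟩ := level_step_big
  obtain ⟨A, P, S2, hA, hP, hS, h⟩ := h (4 * b1 k + 4)
  obtain ⟨u, k0, n, hu, hk0, step⟩ := h (S2 + 3)
  refine ⟨n + 2, fun q hq => ?_⟩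
  obtain ⟨G, X, _, _, T, a, g, z, x0, b1, b2, b3, ct, csa, b4, b5, b6, b7, b8⟩ :=
    Pw.base_exists q hq
  have step' : ∀ L : LvD k A P S2 k0 n u, ∃ (L' : LvD k A P S2 k0 n u) (θ : L.G →* L'.G)
      (Φ : L.X → L'.X), (∀ s ∈ L.M, θ s ∈ L'.M) ∧ Nx L.d L'.d L.M θ Φ S2 n u := by
    intro L
    obtain ⟨G', X', i1, i2, d', θ, Φ, h1, h2⟩ := step L.G L.X L.d L.M L.lev
    exact ⟨@LvD.mk k A P S2 k0 n u G' X' i1 i2 d' _ h1, θ, Φ, fun s hs => ⟨s, hs, rfl⟩, h2⟩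
  choose nxt θ Φ h1 h2 using step'
  let M : Set G := {s | ∃ (i : ℤ) (f : G), ¬ (q : ℤ) ∣ i ∧ s = f * a ^ i * f⁻¹}
  have lev : Lev G T.d M k A P S2 k0 n u := by
    refine Pw.lev_tree b1 b2 b3 ct csa ?_ ?_ hA (by omega) hk0
    · rintro t _ ⟨i, f, hi, rfl⟩
      exact ⟨i, t * f, hi, by group⟩
    · rintro _ ⟨i, f, hi, rfl⟩
      refine ⟨f • z, (T.ap_smul f z).2 b4, by rw [mul_smul, inv_smul_smul, mul_smul, b5],
        fun x hx => ?_⟩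
      rw [mul_smul, mul_smul, ← eq_inv_smul_iff] at hx
      rw [← b6 i hi _ hx, smul_inv_smul]
  let L : ℕ → LvD k A P S2 k0 n u := fun i => Nat.rec (LvD.mk G X T.d M lev) (fun _ L => nxt L) i
  obtain ⟨Γ, _, π, hπ, h3, h4⟩ := @lim_seq S2 n u (by omega) hS (fun i => (L i).G)
    (fun i => (L i).X) (fun i => (L i).grp) (fun i => (L i).act) (fun i => (L i).d)
    (fun i => (L i).M) (fun i => θ (L i)) (fun i => Φ (L i)) (fun i => (L i).gr)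
    (fun i => h1 (L i)) (fun i => h2 (L i)) x0
  change G →* Γ at π
  have key : ∀ s : G, s⁻¹ ∈ M → ∀ y, eng (n + 2) (π s) y = 1 := fun s hs y => by
    obtain ⟨y, rfl⟩ := hπ y
    have h5 := h4 y s⁻¹ hs
    rw [map_mul, map_mul, inv_inv, map_inv] at h5
    exact eng_done h5
  refine ⟨Γ, inferInstance, π a, π g, fun i hi y => ?_, fun i h0 hi m e => ?_⟩
  · rw [← map_zpow]
    exact key _ ⟨-i, 1, by rwa [dvd_neg], by group⟩ y
  · rw [← map_zpow, ← eng_map] at e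
    have h5 : eng m (a ^ i) g • x0 = x0 :=
      eng_mem (H := MulAction.stabilizer G x0) (b8 i h0 hi).1 b7 m
    have h6 : eng m (a ^ i) g = 1 := h3 _ (by
      change T.d x0 (eng m (a ^ i) g • x0) ≤ 1
      rw [h5, T.self]
      omega) e
    exact eng_nc csa (b8 i h0 hi).2 m (h6 ▸ Commute.one_right g)

end Pool.Agent.Lib.MP_a2eab4_al.Re
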