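import Pool.Agent.Lib.MP_a2eab4_al.RcY
import Pool.Agent.Lib.MP_429c3d_al.NgM

set_option autoImplicit false
set_option linter.unusedSectionVars false

/-! The second cone-off: a cone point over every tree. -/

namespace Pool.Agent.Lib.MP_a2eab4_al.Rc

open Pool.Agent.Lib.MP_429c3d_al Hyp Ng Rx Sum
open Re (Bd PE1 PE2)

/-- The shadows in the second cone-off. -/
def ShB (G : Type) {X Ω J : Type} [Group G] [MulAction G X] [MulAction G Ω] (d : X → X → ℕ) (u : ℕ)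
    (Z : J → X ⊕ Ω → Prop) : (X ⊕ Ω) ⊕ J → X → Prop
  | inl v, p => ShY G d u v p
  | inr i, p => Hull d (fun x => ∃ γ, Z i γ ∧ ShY G d u γ x) p

/-- The cone constant. -/
def cB (α : ℕ) : ℕ := coneN 2 + α + 3

/-- The separation constant. -/
def LY (α D : ℕ) : ℕ := D + 6 * cB α + 600

/-- The number of levels that are used in `BH.gt`. -/
def lvB (α D n : ℕ) : ℕ := (3 * (LY α D + 1) + 2) * (2 * (2 * n + 2 * coneN (cB α) + 5) + 1)

/-- The assumptions on the trees. -/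
structure BH (G : Type) {X Ω J : Type} [Group G] [MulAction G X] [MulAction G Ω] [MulAction G J]
    (d : X → X → ℕ) (Z : J → X ⊕ Ω → Prop) (k A P u α D : ℕ) : Prop where
  H : YH G Ω d k A P u
  q : QFam (dYY G d u) Z kY α D
  smul : ∀ (g : G) i a, Z i a → Z (g • i) (g • a)

namespace BH

variable {G X Ω J : Type} [Group G] [MulAction G X] [MulAction G Ω] [MulAction G J]
  {d : X → X → ℕ} {Z : J → X ⊕ Ω → Prop} {k A P u α D : ℕ} (B : BH G d Z k A P u α D)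
include B

/-- `IsGr.lip` and `grB_of`. -/
theorem le_Y (v w : X ⊕ Ω) : gd (adjB (dYY G d u) Z) (inl v) (inl w) ≤ dYY G d u v w := by
  have Γ := grB_of B.q.gr B.q.ne
  simpa using B.q.gr.lip Γ.1.met inl (c := 1) (fun x y h => (Γ.2.1 x y).2 h) v w

/-- `hull_nb`, `QC.near'` in the first cone-off, `q.qc`. -/
theorem nb_Z {i : J} {p p' q : X} (h1 : ShB G d u Z (inr i) p) (h2 : ShB G d u Z (inr i) p')
    (hq : Btw d p q p') : ∃ γ, Z i γ ∧ dYY G d u (inl q) γ ≤ coneN 2 + α + 1 := by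
  have m := B.H.xs.gr.met
  have hk := B.H.hk
  obtain ⟨r, r', ⟨γ, z1, s1⟩, ⟨γ', z2, s2⟩, h3⟩ := hull_nb m B.H.xs.hyp h1 h2 (hq.nb m)
  obtain ⟨w, w1, w2⟩ := B.H.qc.1.near' s1 s2 h3 (by omega)
  obtain ⟨γ'', z3, h4⟩ := B.q.qc i γ γ' w z1 z2 w1
  have := B.q.gr.met.tri (inl q) w γ''
  exact ⟨γ'', z3, by omega⟩

theorem qc : QC d (gd (adjB (dYY G d u) Z)) (fun x => inl (inl x)) (ShB G d u Z) k u (cB α) := by
  have Γ := grB_of B.q.gr B.q.ne
  have Q := B.H.qc.1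
  have m := B.H.xs.gr.met
  have up : ∀ {i : J} {v : X ⊕ Ω} {p : X}, Z i v → ShY G d u v p → ShB G d u Z (inr i) p :=
    fun h h' => hull_self m ⟨_, h, h'⟩
  have ne : ∀ b, ∃ x, ShB G d u Z b x := by
    rintro (v | i)
    · exact Q.ne v
    · obtain ⟨a, ha⟩ := B.q.ne i
      obtain ⟨x, hx⟩ := Q.ne a
      exact ⟨x, up ha hx⟩
  have key : ∀ {i : J} {p p' q : X}, ShB G d u Z (inr i) p → ShB G d u Z (inr i) p' →
      Btw d p q p' → gd (adjB (dYY G d u) Z) (inl (inl q)) (inr i) ≤ coneN 2 + α + 2 := by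
    intro i p p' q h1 h2 h3
    obtain ⟨γ, z, h4⟩ := B.nb_Z h1 h2 h3
    have := B.le_Y (inl q) γ
    have := (Γ.2.2.1 γ i).2 z
    have := Γ.1.met.tri (inl (inl q)) (inl γ) (inr i)
    omega
  refine
    { gr := B.H.xs.gr, hyp := B.H.xs.hyp, grB := Γ.1, sh_ι := fun x => rfl, ne := ne
      lip := fun x y h => (Γ.2.1 _ _).2 (Q.lip x y h), big := Q.big, small := ?_, link := ?_
      qc := ?_, huge := B.H.hk }
  · unfold cB
    rintro (v | i) (w | j) p p' q h h1 h2 h3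
    · have := Q.small v w p p' q ((Γ.2.1 _ _).1 h) h1 h2 h3
      have := B.le_Y (inl q) v
      omega
    · have := key (up ((Γ.2.2.1 _ _).1 h) h1) h2 h3
      have := Γ.1.met.tri (inl (inl q)) (inr j) (inl v)
      have := Γ.1.met.symm (inr j) (inl v)
      omega
    · rw [Γ.1.met.symm] at h
      have := key h1 (up ((Γ.2.2.1 _ _).1 h) h2) h3
      omega
    · obtain rfl := Γ.2.2.2 _ _ h
      have := key h1 h2 h3
      omega
  · rintro (v | i) (w | j) h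
    · exact Q.link v w ((Γ.2.1 _ _).1 h)
    · obtain ⟨x, hx⟩ := Q.ne v
      exact ⟨x, x, hx, up ((Γ.2.2.1 _ _).1 h) hx, by rw [m.self]; omega⟩
    · rw [Γ.1.met.symm] at h
      obtain ⟨x, hx⟩ := Q.ne w
      exact ⟨x, x, up ((Γ.2.2.1 _ _).1 h) hx, hx, by rw [m.self]; omega⟩
    · obtain rfl := Γ.2.2.2 _ _ h
      obtain ⟨x, hx⟩ := ne (inr i)
      exact ⟨x, x, hx, hx, by rw [m.self]; omega⟩
  · rintro (v | i) r r' s h1 h2 h3
    · exact Q.qc v r r' s h1 h2 h3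
    · exact hull_qc B.H.xs.gr B.H.xs.hyp h1 h2 h3

theorem act : CAct G d (gd (adjB (dYY G d u) Z)) (fun x => inl (inl x)) (ShB G d u Z) := by
  have Γ := grB_of B.q.gr B.q.ne
  have A := B.H.act
  refine ⟨B.H.xs.inv, Γ.1.iso ?_, fun g x => rfl, ?_⟩
  · rintro g (v | i) (w | j) h
    · refine (Γ.2.1 (g • v) (g • w)).2 ?_
      rw [A.invB]
      exact (Γ.2.1 _ _).1 h
    · exact (Γ.2.2.1 (g • v) (g • j)).2 (B.smul g _ _ ((Γ.2.2.1 _ _).1 h))
    · rw [Γ.1.met.symm] at h ⊢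
      exact (Γ.2.2.1 (g • w) (g • i)).2 (B.smul g _ _ ((Γ.2.2.1 _ _).1 h))
    · obtain rfl := Γ.2.2.2 _ _ h
      rw [Γ.1.met.self]
      omega
  · rintro g (v | i) x h
    · exact A.sh_smul g v x h
    · obtain ⟨r, r', ⟨γ, z1, s1⟩, ⟨γ', z2, s2⟩, h3⟩ := h
      exact ⟨g • r, g • r', ⟨g • γ, B.smul g _ _ z1, A.sh_smul g _ _ s1⟩,
        ⟨g • γ', B.smul g _ _ z2, A.sh_smul g _ _ s2⟩, h3.smul B.H.xs.inv g⟩

theorem near_Z {i : J} {x : X} (h : Near d (ShB G d u Z) (2 * u) (inr i) x) :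
    ∃ γ, Z i γ ∧ dYY G d u (inl x) γ ≤ cB α := by
  obtain ⟨s, h1, h2⟩ := h
  obtain ⟨γ, z, h3⟩ := B.nb_Z h1 h1 (q := s) (by rw [Ng.Btw, B.H.xs.gr.met.self])
  have := B.H.qc.1.ι_le_mul 2 x s h2
  have := B.q.gr.met.tri (inl x) (inl s) γ
  exact ⟨γ, z, by unfold cB; omega⟩

/-- `YH.sep` with `ι_le_mul`; `near_Z` and `q.ov`. -/
theorem sep {e : (X ⊕ Ω) ⊕ J} {f : G} {x x' : X} (h1 : Near d (ShB G d u Z) (2 * u) e x)
    (h2 : Near d (ShB G d u Z) (2 * u) e x') (h3 : Near d (ShB G d u Z) (2 * u) (f • e) x)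
    (h4 : Near d (ShB G d u Z) (2 * u) (f • e) x')
    (h : LY α D < dYY G (Ω := Ω) d u (inl x) (inl x')) :
    (∃ β, e = inl (inr β) ∧ f • β = β) ∨ ∃ i, e = inr i ∧ f • i = i := by
  unfold LY at h
  rcases e with v | i
  · obtain ⟨β, rfl, hβ⟩ := B.H.sep (e := v) (f := f) h1 h2 h3 h4 (by
      by_contra hc
      have := B.H.qc.1.ι_le_mul 600 x x' (by omega)
      omega)
    exact Or.inl ⟨β, rfl, hβ⟩
  · refine Or.inr ⟨i, rfl, ?_⟩
    by_contra hc
    obtain ⟨γ1, z1, e1⟩ := B.near_Z h1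
    obtain ⟨γ2, z2, e2⟩ := B.near_Z h2
    obtain ⟨γ3, z3, e3⟩ := B.near_Z (i := f • i) h3
    obtain ⟨γ4, z4, e4⟩ := B.near_Z (i := f • i) h4
    have m := B.q.gr.met
    have := m.tri γ1 (inl x) γ3
    have := m.symm γ1 (inl x)
    have := m.tri γ2 (inl x') γ4
    have := m.symm γ2 (inl x')
    have := B.q.ov i (f • i) γ1 γ2 γ3 γ4 (2 * cB α) (Ne.symm hc) z1 z2 z3 z4 (by omega) (by omega)
    have := m.tri (inl x) γ1 (inl x')
    have := m.tri γ1 γ2 (inl x')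
    omega

theorem ta {a : G} (ha : ¬ Bd d a) {β : Ω} (hv : a • β = β) {x : (X ⊕ Ω) ⊕ J} {L : ℕ}
    (hx : gd (adjB (dYY G d u) Z) x (a • x) ≤ L) :
    gd (adjB (dYY G d u) Z) x (inl (inr β)) ≤ L + 2 * coneN (cB α) + 3 := by
  have hk := B.H.hk
  exact B.qc.ta B.act (α := inl (inr β)) (congrArg (fun β => inl (inr β)) hv)
    (fun q hq => (B.le_Y _ _).trans (B.H.adj_of (B.H.sh_of ha hv (by omega)))) hx

theorem taJ {a : G} (ha : ¬ Bd (dYY G (Ω := Ω) d u) a) {i : J} (hv : a • i = i) {x : (X ⊕ Ω) ⊕ J}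
    {L : ℕ} (hx : gd (adjB (dYY G d u) Z) x (a • x) ≤ L) :
    gd (adjB (dYY G d u) Z) x (inr i) ≤ L + 2 * coneN (cB α) + 3 := by
  have hk := B.H.hk
  exact B.qc.ta B.act (α := inr i) (congrArg inr hv)
    (fun q hq => absurd (B.H.bd_of_short (x := q) (by omega)) ha) hx

theorem ai (L : ℕ) : AI G (gd (adjB (dYY G d u) Z)) L (20 * L + 2 * coneN (cB α) + 5) :=
  qc_ai B.qc B.act B.H.xs.ai B.H.hA B.H.xs.n2 L

/-- `QC.pw` with `M = 1202 * (LY α D + 1) + 2`, `sep`, `YH.pw`. -/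
theorem pw {a : G} (ha : ¬ Bd (dYY G (Ω := Ω) d u) a) (h : ∀ i : J, a • i ≠ i) {n : ℕ}
    (hn : (2 * n + 10) * k + 1 ≤ u) (hL : (2 * LY α D + 10) * k + 1 ≤ u) {j : ℕ}
    (hj : (1202 * (LY α D + 1) + 3) * (n + 1) + 2 ≤ j) (x : (X ⊕ Ω) ⊕ J) :
    n < gd (adjB (dYY G d u) Z) x (a ^ j • x) := by
  have h1 : ¬ Bd d a := fun e => ha (B.H.bd_of_bd e)
  have h' : ∀ β : Ω, a • β ≠ β := fun β e => ha (B.H.bd_of_fix e)
  refine B.qc.pw B.act (B.H.long h1 h') (M := 1202 * (LY α D + 1) + 2) hn ?_ hj x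
  intro e y _ a1 a2 a3 a4
  rcases B.sep a1 a2 a3 a4 (B.H.pw h1 h' hL le_rfl (inl y)) with ⟨β, -, hβ⟩ | ⟨i, -, hi⟩
  · exact h' β hβ
  · exact h i hi

theorem bd_of_bd {a : G} (ha : Bd (dYY G (Ω := Ω) d u) a) : Bd (gd (adjB (dYY G d u) Z)) a :=
  bd_map inl (fun _ _ => rfl) B.le_Y ha

theorem bd_of_fix {a : G} {i : J} (ha : a • i = i) : Bd (gd (adjB (dYY G d u) Z)) a :=
  Re.Bd.of_fix (x := inr i) B.qc.grB.met (congrArg inr ha)

theorem pe2 {n : ℕ} (hn : (2 * n + 10) * k + 1 ≤ u) (hL : (2 * LY α D + 10) * k + 1 ≤ u) :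
    PE2 G (gd (adjB (dYY G d u) Z)) n ((1202 * (LY α D + 1) + 3) * (n + 1) + 2) := fun _ hg x =>
  (B.pw (fun h => hg (B.bd_of_bd h)) (fun _ h => hg (B.bd_of_fix h)) hn hL le_rfl x).le

/-- The bounded elements of the cone-off. -/
theorem fix_of_bd (hu : (8 * coneK (cB α) + 14) * k + 1 ≤ u) (hL : (2 * LY α D + 10) * k + 1 ≤ u)
    {a : G} (h : Bd (gd (adjB (dYY G d u) Z)) a) (ha : ¬ Bd (dYY G (Ω := Ω) d u) a) :
    ∃ i : J, a • i = i := by
  by_contra hn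
  refine not_bd B.qc.grB B.qc.hypB B.act.invB
    (g := a ^ ((1202 * (LY α D + 1) + 3) * (4 * coneK (cB α) + 2 + 1) + 2))
    (fun x => (B.pw ha (not_exists.1 hn) (n := 4 * coneK (cB α) + 2) (by
      rwa [show 2 * (4 * coneK (cB α) + 2) + 10 = 8 * coneK (cB α) + 14 by omega]) hL le_rfl x).le) ?_
  rw [← zpow_natCast]
  exact h.zpow _

/-- An element that is bounded in the first cone-off is short only near a point that all its
powers almost fix in the first cone-off. -/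
theorem ell (hu : (8 * kY + 14) * k + 1 ≤ u) {g : G} (hg : Bd (dYY G (Ω := Ω) d u) g) {j : ℤ}
    (hj : j ≠ 0) {x : (X ⊕ Ω) ⊕ J} {L : ℕ} (hx : gd (adjB (dYY G d u) Z) x (g ^ j • x) ≤ L) :
    ∃ y : X, (∀ i : ℤ, dYY G (Ω := Ω) d u (inl y) (g ^ i • inl y) ≤ 2) ∧
      gd (adjB (dYY G d u) Z) x (inl (inl y)) ≤ L + 2 * coneN (cB α) + 4 := by
  by_cases ha : Bd d g
  · obtain ⟨y, y1, y2⟩ := qc_ell B.qc B.act B.H.pe1 B.H.xs.pos B.H.hA ha hj hx
    exact ⟨y, fun i => (B.H.qc.1.lip _ _ ((y1 i).trans B.H.hA)).trans (by omega), y2⟩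
  · obtain ⟨β, hβ⟩ := B.H.fix_of_bd hu hg ha
    have fx : ∀ i : ℤ, g ^ i • β = β := fun i => (MulAction.stabilizer G β).zpow_mem (x := g) hβ i
    have e1 := B.ta (fun h => ha (h.of_zpow B.H.xs.gr.met B.H.xs.inv hj)) (fx j) hx
    obtain ⟨y, hy⟩ := B.H.qc.1.ne (inr β)
    have e2 := B.H.adj_of hy
    have e3 := B.le_Y (inl y) (inr β)
    have m := B.qc.grB.met
    have := m.tri x (inl (inr β)) (inl (inl y))
    have := m.symm (inl (inr β)) (inl (inl y))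
    refine ⟨y, fun i => ?_, by omega⟩
    have e4 := dis_move B.q.gr.met B.H.act.invB (g ^ i) (inr β) (inl y)
    rw [show g ^ i • (inr β : X ⊕ Ω) = inr β from congrArg inr (fx i), B.q.gr.met.self,
      B.q.gr.met.symm (inr β)] at e4
    omega

theorem pe1 (hY : (8 * kY + 14) * k + 1 ≤ u) (hu : (8 * coneK (cB α) + 14) * k + 1 ≤ u)
    (hL : (2 * LY α D + 10) * k + 1 ≤ u) (L : ℕ) :
    PE1 G (gd (adjB (dYY G d u) Z)) L (2 * L + 4 * coneN (cB α) + 10) := by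
  intro g j x hg hj hx i
  have m := B.qc.grB.met
  by_cases ha : Bd (dYY G (Ω := Ω) d u) g
  · obtain ⟨y, y1, y2⟩ := B.ell hY ha hj hx
    have e1 : gd (adjB (dYY G d u) Z) (inl (inl y)) (g ^ i • inl (inl y)) ≤ 2 :=
      (B.le_Y _ _).trans (y1 i)
    have e2 := dis_move m B.act.invB (g ^ i) (inl (inl y)) x
    have := m.symm x (inl (inl y))
    omega
  · obtain ⟨v, hv⟩ := B.fix_of_bd hu hL hg ha
    have fx : ∀ i : ℤ, g ^ i • v = v := fun i => (MulAction.stabilizer G v).zpow_mem (x := g) hv i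
    have e1 := B.taJ (fun h => ha (h.of_zpow B.q.gr.met B.H.act.invB hj)) (fx j) hx
    have e2 := dis_move m B.act.invB (g ^ i) (inr v) x
    rw [show g ^ i • (inr v : (X ⊕ Ω) ⊕ J) = inr v from congrArg inr (fx i), m.self] at e2
    have := m.symm x (inr v)
    omega

/-- Elements are short only near points of almost minimal displacement. -/
theorem mov (a : G) {v : (X ⊕ Ω) ⊕ J} {n : ℕ} (hv : gd (adjB (dYY G d u) Z) v (a • v) ≤ n) :
    ∃ w, (∀ x, d w (a • w) ≤ d x (a • x) + 5 * k) ∧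
      gd (adjB (dYY G d u) Z) (inl (inl w)) v ≤ 2 * n + 2 * coneN (cB α) + 5 := by
  have m := B.qc.grB.met
  have hk := B.H.hk
  have hA := B.H.hA
  have kp := B.H.xs.pos
  by_cases hμ : ∀ x : X, u < d x (a • x)
  · obtain ⟨w, w1, w2⟩ := B.qc.mov B.act hμ hv
    exact ⟨w, fun x => (w1 x).trans (by omega), by omega⟩
  obtain ⟨x, hx⟩ := not_forall.1 hμ
  obtain ⟨w, w1⟩ := exists_min d a x
  by_cases ha : Bd d a
  · obtain ⟨y, y1, y2⟩ := qc_ell B.qc B.act B.H.pe1 kp hA ha (j := 1) (x := v) (L := n) (by omega)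
      (by rwa [zpow_one])
    obtain ⟨p, p1, p2⟩ := B.H.xs.near_short a y w le_rfl
    have y3 := y1 1
    rw [zpow_one] at y3
    have e1 := B.qc.lip y p (by
      rcases p2 with rfl | p2
      · rw [B.H.xs.self]
        omega
      · omega)
    have := m.tri v (inl (inl y)) (inl (inl p))
    have := m.symm v (inl (inl p))
    exact ⟨p, fun x => by have := w1 x; omega, by omega⟩
  · obtain ⟨ω, hω⟩ := B.H.aps.ex a ha ⟨x, by omega⟩
    have w2 := w1 x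
    have h1 := (B.le_Y _ _).trans (B.H.adj_of (B.H.sh_of ha hω (x := w) (by omega)))
    have h2 := B.ta ha hω hv
    have := m.tri (inl (inl w)) (inl (inr ω)) v
    have := m.symm (inl (inr ω)) v
    exact ⟨w, fun x => (w1 x).trans (by omega), by omega⟩

/-- `mov` for `y` and for the iterate, `Flip.gate_nb`, `QC.flip` with `M = 3 * (LY α D + 1)`,
`YH.flip` with `n = LY α D`, `sep`; the apex case contradicts `hc`. -/
theorem gt {y c : G} {ξ : X} {l N J0 n : ℕ} {k0 : ℕ} (F : Flip d y c ξ l N J0)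
    (ga : Gate d k0 y c ξ l J0) (hk : k ≤ k0 + 1)
    (nc : ∀ j, j ≤ l + lvB α D n → ¬ Commute y (cs y c j)) (hN : 602 * u ≤ N)
    (hu : 10 * lvB α D n * (J0 + k + 1) ≤ u)
    {v : (X ⊕ Ω) ⊕ J} (hy : gd (adjB (dYY G d u) Z) v (y • v) ≤ n)
    (hv : gd (adjB (dYY G d u) Z) v (cs y c (l + lvB α D n) • v) ≤ n) :
    ∃ (i : J) (j : ℕ), j ≤ l + lvB α D n ∧ y • i = i ∧ cs y c j • i = i := by
  have m := B.qc.grB.met
  obtain ⟨w, w1, w2⟩ := B.mov y hy
  obtain ⟨w', w3, w4⟩ := B.mov _ hv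
  have hw : gd (adjB (dYY G d u) Z) (inl (inl w)) (inl (inl w')) ≤
      2 * (2 * n + 2 * coneN (cB α) + 5) := by
    have := m.tri (inl (inl w)) v (inl (inl w'))
    have := m.symm v (inl (inl w'))
    omega
  have e0 : lvB α D n = (3 * (LY α D + 1) + 2) * (2 * (2 * n + 2 * coneN (cB α) + 5) + 1) := rfl
  have b1 : 3 * (LY α D + 1) + 2 ≤ lvB α D n :=
    (Nat.le_mul_of_pos_right _ (by omega)).trans e0.ge
  have b2 : 2 * (2 * n + 2 * coneN (cB α) + 5) + 1 ≤ lvB α D n :=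
    (Nat.le_mul_of_pos_left _ (by omega)).trans e0.ge
  have num : ∀ s t : ℕ, s ≤ 10 * lvB α D n → t ≤ 10 * lvB α D n → s * J0 + t * k + 1 ≤ u := by
    intro s t hs ht
    have := Nat.mul_le_mul_right J0 hs
    have := Nat.mul_le_mul_right k ht
    rw [Nat.mul_add, Nat.mul_add] at hu
    omega
  obtain ⟨e, a, a1, a2, a3⟩ := B.qc.flip B.act F (B.qc.sh_ι w) (B.qc.sh_ι w')
    (M := 3 * (LY α D + 1)) (t := (lvB α D n + 1) * J0) hw le_rfl (fun j j1 j2 => by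
      rw [← e0] at j2
      have m := B.H.xs.gr.met
      have e1 := F.tele m B.H.xs.inv j1 j2
      have e2 := ga _ w w' (j1.trans j2) (fun x => (w1 x).trans (by omega))
        fun x => (w3 x).trans (by omega)
      have e3 : (l + lvB α D n - j) * J0 ≤ lvB α D n * J0 := Nat.mul_le_mul_right _ (by omega)
      have := m.tri (eta y c ξ j) ξ w
      have := m.tri (eta y c ξ j) (eta y c ξ (l + lvB α D n)) w'
      have := m.symm (eta y c ξ j) ξ
      have := m.symm ξ w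
      unfold NB
      rw [Nat.add_mul]
      omega) (by
      rw [← e0, ← Nat.add_mul]
      exact num _ _ (by omega) (by omega))
  rw [← e0] at a2
  have key : ∀ j, j = a + 3 * (LY α D + 1) ∨ j = a + 3 * (LY α D + 1) + 1 →
      (∃ β, e = inl (inr β) ∧ cs y c j • β = β) ∨ ∃ i, e = inr i ∧ cs y c j • i = i := by
    intro j hj
    obtain ⟨n1, n2, n3, n4⟩ := a3 j hj
    rcases B.sep n1 n2 n3 n4 (B.H.flip F hN (fun i hi => nc i (by omega)) a1 (by omega) (by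
      rw [← Nat.add_mul]
      exact num _ _ (by omega) (by omega))) with ⟨β, e1, e2⟩ | ⟨i, e1, e2⟩
    · exact Or.inl ⟨β, e1, (inv_smul_eq_iff.1 e2).symm⟩
    · exact Or.inr ⟨i, e1, (inv_smul_eq_iff.1 e2).symm⟩
  rcases key _ (Or.inl rfl) with ⟨β, rfl, e1⟩ | ⟨i, rfl, e1⟩ <;>
    rcases key _ (Or.inr rfl) with ⟨β', e2, e3⟩ | ⟨i', e2, e3⟩
  · obtain rfl : β = β' := inr_injective (inl_injective e2)
    refine (nc (a + 3 * (LY α D + 1)) (by omega) (B.H.aps.comm _ _ β ?_ e1)).elim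
    rwa [cs, mul_smul, mul_smul, inv_smul_eq_iff.2 e1.symm, ← eq_inv_smul_iff,
      inv_smul_eq_iff.2 e1.symm] at e3
  · exact absurd e2 inl_ne_inr
  · exact absurd e2 inr_ne_inl
  · obtain rfl : i = i' := inr_injective e2
    refine ⟨i, _, by omega, ?_, e1⟩
    rwa [cs, mul_smul, mul_smul, inv_smul_eq_iff.2 e1.symm, ← eq_inv_smul_iff,
      inv_smul_eq_iff.2 e1.symm] at e3

end BH

end Pool.Agent.Lib.MP_a2eab4_al.Rc
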