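import Pool.Agent.Lib.MP_a2eab4_al.RcB

set_option autoImplicit false
set_option linter.unusedSectionVars false

/-! The cone-offs without the apices. -/

namespace Pool.Agent.Lib.MP_a2eab4_al.Rc

open Pool.Agent.Lib.MP_429c3d_al Hyp Ng Rx Sum
open Re (Bd PE1 PE2 Done)

/-- Detours in a cone-off are bounded by projections. -/
theorem avoid_le {V I W : Type} {dY : V → V → ℕ} {Z : I → V → Prop} {k α D : ℕ}
    (q : QFam dY Z k α D) (f : W → V) {dB : W ⊕ I → W ⊕ I → ℕ} (m : IsMet dB)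
    (ll : ∀ x y, dB (inl x) (inl y) ≤ 1 → dY (f x) (f y) ≤ 3)
    (lr : ∀ x i, dB (inl x) (inr i) ≤ 1 → Z i (f x)) (rr : ∀ i j, dB (inr i) (inr j) ≤ 1 → i = j)
    {i : I} {a b : W} {n : ℕ} (ha : Z i (f a)) (hb : Z i (f b))
    (h : Avoid dB (inr i) n (inl a) (inl b)) : dY (f a) (f b) ≤ n * prjC k α D := by
  obtain ⟨c, c0, c1, ca, cs⟩ := h
  choose s hs using q.ne
  have ed : ∀ {x y e e'}, Nr dY Z i x e → Nr dY Z i y e' → dY x y ≤ 3 → dY e e' ≤ prjC k α D :=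
    fun h1 h2 h3 => by
      have := q.nr_two h1 h2
      unfold prjC
      omega
  have key : ∀ t, t ≤ n → ∀ e, Nr dY Z i (Sum.elim f s (c t)) e → dY (f a) e ≤ t * prjC k α D := by
    intro t
    induction t with
    | zero =>
      intro _ e he
      have := he.2 _ ha
      rw [c0, Sum.elim_inl, q.gr.met.self] at this
      omega
    | succ t ih =>
      intro ht e he
      obtain ⟨e', he'⟩ := q.exists_nr i (Sum.elim f s (c t))
      have h1 := ih (by omega) e' he'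
      have h2 : dY e' e ≤ prjC k α D := by
        have a1 := ca t (by omega)
        have a2 := ca (t + 1) ht
        have a3 := cs t ht
        rcases h3 : c t with x | j <;> rcases h4 : c (t + 1) with y | j' <;>
          rw [h3] at he' a1 a3 <;> rw [h4] at he a2 a3
        · exact ed he' he (ll x y a3)
        · exact q.nr_other (by simpa using a2) (lr x j' a3) (hs j') he' he
        · exact q.nr_other (by simpa using a1) (hs j) (lr y j (m.symm _ _ ▸ a3)) he' he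
        · obtain rfl := rr j j' a3
          exact ed he' he (by rw [q.gr.met.self]; omega)
      have := q.gr.met.tri (f a) e' e
      rw [Nat.add_mul]
      omega
  exact key n le_rfl _ (c1 ▸ q.nr_self hb)

section defs

variable (G Ω : Type) {X J : Type} [Group G] [MulAction G X] [MulAction G Ω] (d : X → X → ℕ) (u : ℕ)

/-- The rescaled space with electrified tubes. -/
noncomputable def d0 : X → X → ℕ := gd fun x y => dYY G (Ω := Ω) d u (inl x) (inl y) ≤ 3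

variable {Ω}

/-- Its cone-off. -/
noncomputable def dC (Z : J → X ⊕ Ω → Prop) : X ⊕ J → X ⊕ J → ℕ :=
  gd (adjB (d0 G Ω d u) fun i x => Z i (inl x))

end defs

/-- The cone constant. -/
def cC (α : ℕ) : ℕ := coneN (cB α) + 3

variable {G X Ω J : Type} [Group G] [MulAction G X] [MulAction G Ω] [MulAction G J]
  {d : X → X → ℕ} {Z : J → X ⊕ Ω → Prop} {k A P u α D : ℕ}

namespace YH

variable (H : YH G Ω d k A P u)
include H

theorem gr0 : IsGr (d0 G Ω d u) ∧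
    ∀ x y, d0 G Ω d u x y ≤ 1 ↔ dYY G (Ω := Ω) d u (inl x) (inl y) ≤ 3 := by
  have m := H.qc.1.grB.met
  obtain ⟨Γ, E⟩ := gd_isGr (adj := fun x y => dYY G (Ω := Ω) d u (inl x) (inl y) ≤ 3)
    (fun x y h => by rwa [m.symm]) fun x y => H.xs.gr.induct x
      (P := fun _ y => Relation.ReflTransGen _ x y) .refl
      (fun _ v w _ _ h ih => ih.tail ((H.qc.1.ι_le v w).trans (by omega))) y
  exact ⟨Γ, fun x y => (E x y).trans ⟨fun h => h.elim (fun e => by rw [e, m.self]; omega) id,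
    Or.inr⟩⟩

theorem Y_le (x y : X) : dYY G (Ω := Ω) d u (inl x) (inl y) ≤ 3 * d0 G Ω d u x y :=
  H.gr0.1.lip H.qc.1.grB.met inl (fun x y h => (H.gr0.2 x y).1 h) x y

theorem exists_ret : ∃ r : X ⊕ Ω → X, (∀ x, r (inl x) = x) ∧
    ∀ v w, d0 G Ω d u (r v) (r w) ≤ dYY G d u v w := by
  choose s hs using fun β : Ω => H.qc.1.ne (inr β)
  have m := H.qc.1.grB.met
  have e : ∀ v, dYY G d u (inl (Sum.elim id s v)) v ≤ 1 := by
    rintro (x | β)
    · exact (m.self _).le.trans (by omega)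
    · exact H.adj_of (hs β)
  refine ⟨Sum.elim id s, fun _ => rfl, fun v w => ?_⟩
  simpa using H.qc.1.grB.lip H.gr0.1.met (Sum.elim id s) (c := 1) (fun v w h => (H.gr0.2 _ _).2 (by
    have := e v
    have := e w
    have := m.tri (inl (Sum.elim id s v)) v (inl (Sum.elim id s w))
    have := m.tri v w (inl (Sum.elim id s w))
    have := m.symm w (inl (Sum.elim id s w))
    omega)) v w

theorem le_Y (x y : X) : d0 G Ω d u x y ≤ dYY G (Ω := Ω) d u (inl x) (inl y) := by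
  obtain ⟨r, r1, r2⟩ := H.exists_ret
  simpa only [r1] using r2 (inl x) (inl y)

theorem iso0 : Isom G (d0 G Ω d u) := H.gr0.1.iso fun g x y h =>
  (H.gr0.2 _ _).2 ((H.act.invB g (inl x) (inl y)).trans_le ((H.gr0.2 _ _).1 h))

theorem lip0 {x y : X} (h : d x y ≤ u) : d0 G Ω d u x y ≤ 1 :=
  (H.le_Y x y).trans (H.qc.1.lip x y h)

theorem bd0 {a : G} : Bd (d0 G Ω d u) a ↔ Bd (dYY G (Ω := Ω) d u) a := by
  obtain ⟨x⟩ := H.xs.ne
  refine ⟨fun ⟨y, M, h⟩ => ⟨inl y, 3 * M, fun i => (H.Y_le _ _).trans (Nat.mul_le_mul_left 3 (h i))⟩,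
    fun h => ?_⟩
  obtain ⟨M, h⟩ := h.any H.qc.1.grB.met H.act.invB (inl x)
  exact ⟨x, M, fun i => (H.le_Y _ _).trans (h i)⟩

end YH

/-- The trees consist of points of the space. -/
structure CH (G : Type) {X Ω J : Type} [Group G] [MulAction G X] [MulAction G Ω] [MulAction G J]
    (d : X → X → ℕ) (Z : J → X ⊕ Ω → Prop) (k A P u α D : ℕ) : Prop
    extends BH G d Z k A P u α D where
  pt : ∀ i v, Z i v → ∃ x, v = inl x
  hY : (8 * kY + 14) * k + 1 ≤ u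
  hB : (8 * coneK (cB α) + 14) * k + 1 ≤ u
  hL : (2 * LY α D + 10) * k + 1 ≤ u

namespace CH

variable (B : CH G d Z k A P u α D)
include B

theorem gr : IsGr (dC G d u Z) ∧ (∀ x y, dC G d u Z (inl x) (inl y) ≤ 1 ↔ d0 G Ω d u x y ≤ 1) ∧
    (∀ x i, dC G d u Z (inl x) (inr i) ≤ 1 ↔ Z i (inl x)) ∧
    ∀ i j, dC G d u Z (inr i) (inr j) ≤ 1 → i = j :=
  grB_of B.H.gr0.1 fun i => by
    obtain ⟨v, hv⟩ := B.q.ne i
    obtain ⟨x, rfl⟩ := B.pt i v hv
    exact ⟨x, hv⟩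

theorem B_le (e e' : X ⊕ J) :
    gd (adjB (dYY G d u) Z) (e.map inl id) (e'.map inl id) ≤ 3 * dC G d u Z e e' := by
  have Γ := grB_of B.q.gr B.q.ne
  refine B.gr.1.lip Γ.1.met (Sum.map inl id) ?_ e e'
  rintro (x | i) (y | j) h
  · exact (B.le_Y _ _).trans ((B.H.gr0.2 _ _).1 ((B.gr.2.1 _ _).1 h))
  · exact ((Γ.2.2.1 _ _).2 ((B.gr.2.2.1 _ _).1 h)).trans (by omega)
  · rw [B.gr.1.met.symm] at h
    rw [Γ.1.met.symm]
    exact ((Γ.2.2.1 _ _).2 ((B.gr.2.2.1 _ _).1 h)).trans (by omega)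
  · rw [B.gr.2.2.2 _ _ h, Γ.1.met.self]
    omega

theorem le_0 (x y : X) : dC G d u Z (inl x) (inl y) ≤ d0 G Ω d u x y := by
  simpa using B.H.gr0.1.lip B.gr.1.met inl (c := 1) (fun x y h => (B.gr.2.1 x y).2 h) x y

theorem le_B (e e' : X ⊕ J) :
    dC G d u Z e e' ≤ gd (adjB (dYY G d u) Z) (e.map inl id) (e'.map inl id) := by
  have Γ := grB_of B.q.gr B.q.ne
  obtain ⟨r, r1, r2⟩ := B.H.exists_ret
  have lr : ∀ v i, gd (adjB (dYY G d u) Z) (inl v) (inr i) ≤ 1 →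
      dC G d u Z (inl (r v)) (inr i) ≤ 1 := fun v i h => by
    obtain ⟨x, rfl⟩ := B.pt i v ((Γ.2.2.1 _ _).1 h)
    rw [r1]
    exact (B.gr.2.2.1 _ _).2 ((Γ.2.2.1 _ _).1 h)
  have := Γ.1.lip B.gr.1.met (Sum.map r id) (c := 1) (by
    rintro (x | i) (y | j) h
    · exact (B.le_0 _ _).trans ((r2 x y).trans ((Γ.2.1 _ _).1 h))
    · exact lr x j h
    · rw [Γ.1.met.symm] at h
      rw [B.gr.1.met.symm]
      exact lr y i h
    · rw [Γ.2.2.2 _ _ h, B.gr.1.met.self]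
      omega) (e.map inl id) (e'.map inl id)
  have e1 : ∀ e : X ⊕ J, Sum.map r id (e.map inl id) = e := by
    rintro (x | i)
    · exact congrArg inl (r1 x)
    · rfl
  rwa [e1, e1, Nat.one_mul] at this

omit B in
theorem map_smul (g : G) (e : X ⊕ J) :
    ((g • e).map inl id : (X ⊕ Ω) ⊕ J) = g • e.map inl id := by cases e <;> rfl

theorem dis_le (g : G) {e : X ⊕ J} {L : ℕ} (h : dC G d u Z e (g • e) ≤ L) :
    gd (adjB (dYY G d u) Z) (e.map inl id) (g • e.map inl id) ≤ 3 * L := by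
  rw [← map_smul]
  exact (B.B_le _ _).trans (by omega)

theorem cone : Cone d (dC G d u Z) inl (fun e => ShB G d u Z (e.map inl id)) k u (cC α) := by
  have Q := B.qc
  refine ⟨Q.gr, Q.hyp, B.gr.1, fun x => rfl, fun e => Q.ne _,
    fun x y h => (B.le_0 _ _).trans (B.H.lip0 h), Q.big, fun b b' p p' q h h1 h2 h3 => ?_⟩
  obtain ⟨w, w1, w2⟩ := Q.near h1 h2 h3
  have e1 := B.B_le b b'
  have e2 : _ ≤ gd (adjB (dYY G d u) Z) (inl (inl q)) _ := B.le_B (inl q) b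
  have := Q.grB.met.tri (inl (inl q)) w (b.map inl id)
  have := Q.grB.met.symm w (b.map inl id)
  unfold cC
  omega

theorem hyp : Hyp4 (dC G d u Z) (coneK (cC α)) := B.cone.hypB

theorem iso : Isom G (dC G d u Z) := B.gr.1.iso (by
  rintro g (x | i) (y | j) h
  · exact (B.gr.2.1 (g • x) (g • y)).2 ((B.H.iso0 g x y).trans_le ((B.gr.2.1 _ _).1 h))
  · exact (B.gr.2.2.1 (g • x) (g • j)).2 (B.smul g _ _ ((B.gr.2.2.1 _ _).1 h))
  · rw [B.gr.1.met.symm] at h ⊢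
    exact (B.gr.2.2.1 (g • y) (g • i)).2 (B.smul g _ _ ((B.gr.2.2.1 _ _).1 h))
  · rw [B.gr.2.2.2 _ _ h, B.gr.1.met.self]
    omega)

/-- The detour property. -/
theorem det {i : J} {a b : X} {n : ℕ} (ha : Z i (inl a)) (hb : Z i (inl b))
    (h : Avoid (dC G d u Z) (inr i) n (inl a) (inl b)) :
    dYY G (Ω := Ω) d u (inl a) (inl b) ≤ n * prjC kY α D :=
  avoid_le B.q inl B.gr.1.met (fun x y h => (B.H.gr0.2 x y).1 ((B.gr.2.1 x y).1 h))
    (fun x i h => (B.gr.2.2.1 x i).1 h) B.gr.2.2.2 ha hb h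

theorem aiC (L : ℕ) : AI G (dC G d u Z) L (60 * L + 2 * cC α) := fun a b x x' h h1 h2 h3 h4 => by
  have := B.ai (3 * L) a b _ _ h (B.dis_le a h1) (B.dis_le b h2) (B.dis_le a h3) (B.dis_le b h4)
  have := B.le_B x x'
  unfold cC
  omega

theorem bdC {a : G} : Bd (dC G d u Z) a ↔ Bd (gd (adjB (dYY G d u) Z)) a := by
  obtain ⟨x⟩ := B.H.xs.ne
  refine ⟨fun ⟨y, M, h⟩ => ⟨_, 3 * M, fun i => B.dis_le _ (h i)⟩, fun h => ?_⟩
  obtain ⟨M, h⟩ := h.any B.qc.grB.met B.act.invB (inl (inl x))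
  exact ⟨inl x, M, fun i => (B.le_B _ _).trans (h i)⟩

/-- The bounded elements of the cone-off. -/
theorem bd_iff {a : G} : Bd (dC G d u Z) a ↔ Bd (d0 G Ω d u) a ∨ ∃ i : J, a • i = i := by
  rw [B.bdC, B.H.bd0]
  exact ⟨fun h => or_iff_not_imp_left.2 (B.fix_of_bd B.hB B.hL h),
    fun h => h.elim B.bd_of_bd fun ⟨_, h⟩ => B.bd_of_fix h⟩

theorem pe2C {n : ℕ} (hn : (6 * n + 10) * k + 1 ≤ u) :
    PE2 G (dC G d u Z) n ((1202 * (LY α D + 1) + 3) * (3 * n + 1) + 2) := fun g hg x => by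
  have e1 := B.pe2 (n := 3 * n) (by rwa [← Nat.mul_assoc]) B.hL g (fun h => hg (B.bdC.2 h))
    (x.map inl id)
  have := B.dis_le _ (le_refl (dC G d u Z x (g ^ ((1202 * (LY α D + 1) + 3) * (3 * n + 1) + 2) • x)))
  omega

theorem ellC {g : G} (hg : Bd (d0 G Ω d u) g) {j : ℤ} (hj : j ≠ 0) {x : X ⊕ J} {L : ℕ}
    (hx : dC G d u Z x (g ^ j • x) ≤ L) : ∃ y : X, (∀ i : ℤ, d0 G Ω d u y (g ^ i • y) ≤ 1) ∧
      dC G d u Z x (inl y) ≤ 3 * L + 2 * cC α := by
  obtain ⟨y, y1, y2⟩ := B.ell B.hY (B.H.bd0.1 hg) hj (B.dis_le _ hx)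
  refine ⟨y, fun i => (B.H.gr0.2 _ _).2 ((y1 i).trans (by omega)), (B.le_B _ _).trans ?_⟩
  unfold cC
  exact y2.trans (by omega)

theorem taC {a : G} (ha : ¬ Bd (d0 G Ω d u) a) {i : J} (hv : a • i = i) {x : X ⊕ J} {L : ℕ}
    (hx : dC G d u Z x (a • x) ≤ L) : dC G d u Z x (inr i) ≤ 3 * L + 2 * cC α := by
  refine (B.le_B _ _).trans ((B.taJ (fun h => ha (B.H.bd0.2 h)) hv (B.dis_le _ hx)).trans ?_)
  unfold cC
  omega

theorem pe1C (L : ℕ) : PE1 G (dC G d u Z) L (6 * L + 4 * cC α) := fun g j x hg hj hx i => by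
  have e := B.pe1 B.hY B.hB B.hL (3 * L) g j _ (B.bdC.1 hg) hj (B.dis_le _ hx) i
  rw [← map_smul] at e
  have := B.le_B x (g ^ i • x)
  unfold cC
  omega

/-- Large pairs terminate, escape or fix a cone point. -/
theorem gtC {y c : G} {ξ : X} {l N J0 n k0 K : ℕ} (F : Flip d y c ξ l N J0)
    (ga : Gate d k0 y c ξ l J0) (hk : k ≤ k0 + 1) (hN : 602 * u ≤ N)
    (hu : 10 * lvB α D (3 * n) * (J0 + k + 1) ≤ u) (hK : l + lvB α D (3 * n) ≤ K) :
    Done K y c ∨ Esc (dC G d u Z) K n y c ∨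
      ∃ (i : J) (j : ℕ), j ≤ K ∧ y • i = i ∧ cs y c j • i = i := by
  by_cases h1 : Done K y c
  · exact Or.inl h1
  by_cases h2 : Big (dC G d u Z) n y (cs y c (l + lvB α D (3 * n)))
  · exact Or.inr (Or.inl ⟨_, hK, h2⟩)
  obtain ⟨v, hv⟩ := not_forall.1 h2
  obtain ⟨i, j, e1, e2⟩ := B.gt F ga hk (fun j hj e => h1 ⟨j, by omega, e⟩) hN hu
    (B.dis_le y (e := v) (by omega)) (B.dis_le _ (by omega))
  exact Or.inr (Or.inr ⟨i, j, by omega, e2⟩)

end CH

end Pool.Agent.Lib.MP_a2eab4_al.Rc
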