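import Pool.Agent.Lib.MP_429c3d_al.NxRig

set_option autoImplicit false
set_option linter.unusedSectionVars false

/-! The algebraic invariants, acylindricity at all scales, reversals. -/

namespace Pool.Agent.Lib.MP_a2eab4_al.Rx

open Pool.Agent.Lib.MP_429c3d_al Hyp Ng

section groups

variable (G : Type) [Group G]

/-- Three consecutive commuting conjugates are equal. -/
def N2 : Prop :=
  ∀ g h : G, Commute g (h * g * h⁻¹) → Commute g (h * (h * g * h⁻¹) * h⁻¹) → Commute g h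

/-- Powers have the same centraliser. -/
def RG : Prop := ∀ (g h : G) (n : ℕ), n ≠ 0 → Commute (g ^ n) h → Commute g h

/-- The folding configuration. -/
def PF : Prop :=
  ∀ η y c : G, (∀ a ∈ [1, y, c * y, c, y⁻¹ * c, c⁻¹ * y⁻¹ * c],
    ∀ b ∈ [1, y, c * y, c, y⁻¹ * c, c⁻¹ * y⁻¹ * c], Commute (a * η * a⁻¹) (b * η * b⁻¹)) →
    Commute y η ∧ Commute y (c * η * c⁻¹)

/-- Where the square is short, the displacement is almost minimal. -/
def RS2 {V : Type} [MulAction G V] (d : V → V → ℕ) (B A : ℕ) : Prop :=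
  ∀ (f : G) (x x' : V), d x ((f * f) • x) ≤ B → d x (f • x) ≤ d x' (f • x') + A

variable {G}

theorem RG.zpow (rg : RG G) {g h : G} {i : ℤ} (hi : i ≠ 0) (c : Commute (g ^ i) h) :
    Commute g h := by
  refine rg g h i.natAbs (by omega) ?_
  rcases Int.natAbs_eq i with e | e
  · rwa [← zpow_natCast, ← e]
  · rw [e, zpow_neg, zpow_natCast] at c
    exact Commute.inv_left_iff.1 c

/-- A commutator that is central is trivial. -/
theorem N2.of_central (n2 : N2 G) {a b : G} (ha : Commute a (a * b * a⁻¹ * b⁻¹))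
    (hb : Commute b (a * b * a⁻¹ * b⁻¹)) : Commute a b := by
  have e : a * b * a⁻¹ = a * b * a⁻¹ * b⁻¹ * b := by group
  refine (n2 b a ?_ ?_).symm
  · rw [e]
    exact hb.mul_right (Commute.refl b)
  · have e2 : a * (a * b * a⁻¹) * a⁻¹ = a * (a * b * a⁻¹ * b⁻¹) * a⁻¹ * (a * b * a⁻¹) := by group
    rw [e2, ha.eq, mul_inv_cancel_right]
    exact hb.mul_right (e ▸ hb.mul_right (Commute.refl b))

/-- An element that normalises an abelian family centralises it. -/
theorem N2.of_norm (n2 : N2 G) {Z : G → Prop} (hZ : ∀ a b, Z a → Z b → Commute a b) {f : G}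
    (hf : ∀ a, Z a → Z (f * a * f⁻¹)) {a : G} (ha : Z a) : Commute a f :=
  n2 a f (hZ _ _ ha (hf a ha)) (hZ _ _ ha (hf _ (hf a ha)))

/-- A twist by a central element is trivial. -/
theorem N2.twist (n2 : N2 G) {g y δ : G} (h1 : Commute δ y) (h2 : Commute δ g)
    (h : g * y * g⁻¹ = y * δ) : δ = 1 := by
  have c : Commute y g := by
    refine n2 y g (h ▸ (Commute.refl y).mul_right h1.symm) ?_
    have : g * (g * y * g⁻¹) * g⁻¹ = y * δ * δ := by
      rw [h, ← h, h, show g * (y * δ) * g⁻¹ = g * y * g⁻¹ * (g * δ * g⁻¹) by group, h,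
        h2.symm.eq, mul_inv_cancel_right]
    rw [this]
    exact ((Commute.refl y).mul_right h1.symm).mul_right h1.symm
  rw [c.symm.eq, mul_inv_cancel_right] at h
  exact left_eq_mul.1 h

/-- The quotient of a centraliser by an isolated central subgroup. -/
theorem exists_red (n2 : N2 G) (rg : RG G) (y c : G) :
    ∃ (C : Subgroup G) (H : Type) (_ : Group H) (π : C →* H),
      (∀ g, g ∈ C ↔ ∀ a, Commute a y → Commute a c → Commute a g) ∧
      (∀ η : C, π η = 1 ↔ Commute (η : G) y ∧ Commute (η : G) c) ∧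
      (∀ u : C, π u ≠ 1 → ∀ (g : H) (a b : ℤ), g * π u ^ a * g⁻¹ = π u ^ b → a = b) ∧
      ∀ u v : H, u ^ 2 = v ^ 2 → u = v := by
  let Z : Subgroup G := Subgroup.centralizer {y, c}
  have mZ : ∀ a, a ∈ Z ↔ Commute a y ∧ Commute a c := fun a => by
    simp only [Z, Subgroup.mem_centralizer_iff, Set.mem_insert_iff, Set.mem_singleton_iff,
      forall_eq_or_imp, forall_eq]
    exact ⟨fun h => ⟨h.1.symm, h.2.symm⟩, fun h => ⟨h.1.symm, h.2.symm⟩⟩
  let C : Subgroup G := Subgroup.centralizer Z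
  have mC : ∀ g, g ∈ C ↔ ∀ a, Commute a y → Commute a c → Commute a g := fun g => by
    simp only [C, Subgroup.mem_centralizer_iff, SetLike.mem_coe, mZ]
    exact ⟨fun h a h1 h2 => h a ⟨h1, h2⟩, fun h a h1 => h a h1.1 h1.2⟩
  have cen : ∀ (a : G) (g : C), a ∈ Z → Commute a g := fun a g ha =>
    (mC g).1 g.2 a ((mZ a).1 ha).1 ((mZ a).1 ha).2
  have : (Z.subgroupOf C).Normal := ⟨fun a ha g => by
    rw [Subgroup.mem_subgroupOf] at ha ⊢
    rw [Subgroup.coe_mul, Subgroup.coe_mul, Subgroup.coe_inv, ← (cen _ g ha).eq,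
      mul_inv_cancel_right]
    exact ha⟩
  have ker : ∀ η : C, QuotientGroup.mk' (Z.subgroupOf C) η = 1 ↔ (η : G) ∈ Z := fun η => by
    rw [← MonoidHom.mem_ker, QuotientGroup.ker_mk', Subgroup.mem_subgroupOf]
  have iso : ∀ (g : G) (i : ℤ), i ≠ 0 → g ^ i ∈ Z → g ∈ Z := fun g i hi h =>
    (mZ g).2 ⟨rg.zpow hi ((mZ _).1 h).1, rg.zpow hi ((mZ _).1 h).2⟩
  refine ⟨C, C ⧸ Z.subgroupOf C, inferInstance, QuotientGroup.mk' _, mC,
    fun η => (ker η).trans (mZ η), fun u hu g a b h => ?_, fun u v h => ?_⟩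
  · obtain ⟨g, rfl⟩ := QuotientGroup.mk'_surjective _ g
    rw [Ne, ker] at hu
    have e : ((u ^ b)⁻¹ * (g * u ^ a * g⁻¹) : C).1 ∈ Z := by
      rw [← ker, map_mul, map_mul, map_mul, map_inv, map_inv, map_zpow, map_zpow, h,
        inv_mul_cancel]
    obtain ⟨δ, hδ, e1⟩ : ∃ δ, δ ∈ Z ∧ (g : G) * (u : G) ^ a * (g : G)⁻¹ = (u : G) ^ b * δ :=
      ⟨_, e, by simp⟩
    have cu := cen δ u hδ
    have cg := cen δ g hδ
    by_contra hab
    by_cases ha : a = 0
    · rw [ha, zpow_zero, mul_one, mul_inv_cancel, eq_comm, mul_eq_one_iff_eq_inv] at e1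
      exact hu (iso u b (by omega) (e1 ▸ Z.inv_mem hδ))
    have c1 : Commute (u : G) (g * u * (g : G)⁻¹) := by
      refine (rg.zpow ha ?_).symm
      rw [conj_zpow, e1]
      exact (Commute.zpow_self _ _).mul_left cu
    have c2 : Commute (u : G) (g * (g * u * (g : G)⁻¹) * (g : G)⁻¹) := by
      refine (rg.zpow ha (rg.zpow ha ?_)).symm
      have e2 : (g : G) * δ * (g : G)⁻¹ = δ := by rw [← cg.eq, mul_inv_cancel_right]
      have e3 : (((g : G) * (g * u * (g : G)⁻¹) * (g : G)⁻¹) ^ a) =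
          (g * u * (g : G)⁻¹) ^ b * δ := by
        rw [conj_zpow, conj_zpow, e1, conj_zpow]
        conv_rhs => rw [← e2]
        group
      have c3 : Commute ((g * u * (g : G)⁻¹) ^ b) δ := by
        rw [← e2]
        exact (commute_conj cu.symm g).zpow_left b
      rw [e3, c3.mul_zpow]
      exact ((c1.symm.zpow_left b).zpow_left a).mul_left (cu.zpow_left a)
    have c4 := n2 _ _ c1 c2
    rw [← (c4.zpow_left a).eq, mul_inv_cancel_right] at e1
    refine hu (iso u (a - b) (by omega) ?_)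
    rw [sub_eq_neg_add, zpow_add, e1, zpow_neg, inv_mul_cancel_left]
    exact hδ
  · obtain ⟨u, rfl⟩ := QuotientGroup.mk'_surjective _ u
    obtain ⟨v, rfl⟩ := QuotientGroup.mk'_surjective _ v
    have e : ((v ^ 2)⁻¹ * u ^ 2 : C).1 ∈ Z := by
      rw [← ker, map_mul, map_inv, map_pow, map_pow, h, inv_mul_cancel]
    obtain ⟨δ, hδ, e1⟩ : ∃ δ, δ ∈ Z ∧ (u : G) ^ 2 = (v : G) ^ 2 * δ := ⟨_, e, by simp⟩
    have c : Commute (u : G) v := rg _ _ 2 (by omega)
      (e1 ▸ (Commute.pow_self _ 2).mul_left (cen δ v hδ))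
    rw [← inv_mul_eq_one, ← map_inv, ← map_mul, ker]
    refine iso _ 2 (by omega) ?_
    rw [Subgroup.coe_mul, Subgroup.coe_inv, c.inv_left.mul_zpow, inv_zpow, zpow_ofNat, zpow_ofNat,
      e1, mul_inv_rev, inv_mul_cancel_right]
    exact Z.inv_mem hδ

end groups

variable {G X : Type} [Group G] [MulAction G X] {d : X → X → ℕ} {k A : ℕ}

/-- An isometric action on a hyperbolic graph, again. -/
structure Sq (G : Type) {X : Type} [Group G] [MulAction G X] (d : X → X → ℕ) (k : ℕ) : Prop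
    extends Sp G d k

/-- The standing assumptions with a positive hyperbolicity constant. -/
structure XS (G : Type) {X : Type} [Group G] [MulAction G X] (d : X → X → ℕ) (k A : ℕ) : Prop
    extends Sq G d k where
  ne : Nonempty X
  n2 : N2 G
  rg : RG G
  pf : PF G
  ai : AI G d (100 * k) A
  rs : RS2 G d (100 * k) A

theorem Sq.ai_scale (S : Sq G d k) (ai : AI G d (100 * k) A) (n2 : N2 G) {a b : G} {x x' : X}
    {B : ℕ} (hab : ¬ Commute a b) (h1 : d x (a • x) ≤ B) (h2 : d x (b • x) ≤ B)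
    (h3 : d x' (a • x') ≤ B) (h4 : d x' (b • x') ≤ B) : d x x' ≤ A + 10 * B := by
  by_contra hc
  obtain ⟨γ, hγ, g0, g1⟩ := exists_gz S.gr x x'
  obtain ⟨t, -, t1, t2, ht⟩ := S.trans_geo hγ a (s := B) (by rwa [g0]) (by rwa [g1]) (by omega)
  obtain ⟨t', -, t3, t4, ht'⟩ := S.trans_geo hγ b (s := B) (by rwa [g0]) (by rwa [g1]) (by omega)
  have Ta : Tl d γ (3 * k) a t B (d x x' - B) := fun i _ _ => ht i (by omega) (by omega)
  have Tb : Tl d γ (3 * k) b t' B (d x x' - B) := fun i _ _ => ht' i (by omega) (by omega)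
  have sh : ∀ i : ℤ, 3 * B ≤ i → i + 3 * B ≤ d x x' →
      d (γ i) ((a * b * a⁻¹ * b⁻¹) • γ i) ≤ 4 * (3 * k) := fun i _ _ =>
    S.comm_short Ta Tb t1 t2 t3 t4 (by omega) (by omega)
  have key : ∀ (g : G) (s : ℤ), -(B : ℤ) ≤ s → s ≤ B → Tl d γ (3 * k) g s B (d x x' - B) →
      Commute g (a * b * a⁻¹ * b⁻¹) := by
    intro g s s1 s2 hg
    generalize a * b * a⁻¹ * b⁻¹ = η at sh
    have st : ∀ (ζ : G) (r e : ℕ), 2 * B ≤ r →
        (∀ i : ℤ, r ≤ i → i + r ≤ d x x' → d (γ i) (ζ • γ i) ≤ e) →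
        ∀ i : ℤ, r + B ≤ i → i + (r + B) ≤ d x x' →
          d (γ i) ((g * ζ * g⁻¹) • γ i) ≤ e + 6 * k := by
      intro ζ r e hr h i _ _
      have e1 := S.conj_short (a := g) (η := ζ) (x := γ (i - s)) (y := γ i)
      have e2 := h (i - s) (by omega) (by omega)
      have e3 := hg (i - s) (by omega) (by omega)
      rw [sub_add_cancel] at e3
      omega
    have s1 := st η (3 * B) _ (by omega) (fun i _ _ => sh i (by omega) (by omega))
    have s2 := st _ (4 * B) _ (by omega) (fun i _ _ => s1 i (by omega) (by omega))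
    have e0 := hγ.le (i := 5 * B) (j := d x x' - 5 * B) (by omega) (by omega) (by omega)
    have a1 := sh (5 * B) (by omega) (by omega)
    have a2 := sh (d x x' - 5 * B) (by omega) (by omega)
    have a3 := s1 (5 * B) (by omega) (by omega)
    have a4 := s1 (d x x' - 5 * B) (by omega) (by omega)
    have a5 := s2 (5 * B) (by omega) (by omega)
    have a6 := s2 (d x x' - 5 * B) (by omega) (by omega)
    refine (n2 η g (not_not.1 fun hn => ?_) (not_not.1 fun hn => ?_)).symm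
    · have := ai _ _ (γ (5 * B)) (γ (d x x' - 5 * B)) hn (by omega) (by omega) (by omega) (by omega)
      omega
    · have := ai _ _ (γ (5 * B)) (γ (d x x' - 5 * B)) hn (by omega) (by omega) (by omega) (by omega)
      omega
  exact hab (n2.of_central (key a t t1 t2 Ta) (key b t' t3 t4 Tb))

namespace XS

variable (S : XS G d k A)
include S

theorem ai_sc {a b : G} {x x' : X} {B : ℕ} (hab : ¬ Commute a b) (h1 : d x (a • x) ≤ B)
    (h2 : d x (b • x) ≤ B) (h3 : d x' (a • x') ≤ B) (h4 : d x' (b • x') ≤ B) :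
    d x x' ≤ A + 10 * B := S.toSq.ai_scale S.ai S.n2 hab h1 h2 h3 h4

/-- The centraliser of an element with large displacement is abelian. -/
theorem comm_of_big {y a b : G} (hy : ∀ x, 20 * k ≤ d x (y • x)) (ha : Commute a y)
    (hb : Commute b y) : Commute a b := by
  by_contra hn
  obtain ⟨x⟩ := S.ne
  obtain ⟨x0, h0⟩ := exists_min d y x
  obtain ⟨B, hB⟩ : ∃ B, B = d x0 (y • x0) + d x0 (a • x0) + d x0 (b • x0) + 3 * k := ⟨_, rfl⟩
  obtain ⟨γ, ty, H⟩ := S.exists_ax h0 (hy x0) (R := A + 10 * B + 1) (by omega)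
  have sh : ∀ z : G, Commute z y → d x0 (z • x0) + 3 * k ≤ B → ∀ i : ℤ, 0 ≤ i →
      i ≤ (A + 10 * (B + 40 * k) + 1 : ℕ) → d (γ i) (z • γ i) ≤ B + 40 * k := by
    intro z cz hz i i1 i2
    have e1 := S.tube h0 (hy x0) cz (γ i) x0
    have e2 := S.ax_dis H (i := i) (by omega) (by have := H.big; omega)
    omega
  have := S.ai_sc hn (sh a ha (by omega) 0 le_rfl (by omega)) (sh b hb (by omega) 0 le_rfl (by omega))
    (sh a ha (by omega) _ (by omega) le_rfl) (sh b hb (by omega) _ (by omega) le_rfl)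
  have e := H.gz.le (i := 0) (j := (A + 10 * (B + 40 * k) + 1 : ℕ)) (by omega) (by omega)
    (by have := H.big; omega)
  omega

/-- Conjugacy separation for elements with large displacement. -/
theorem csa_big {y g : G} (hy : ∀ x, 20 * k ≤ d x (y • x)) (c : Commute y (g * y * g⁻¹)) :
    Commute y g := by
  refine S.n2 y g c (S.comm_of_big (y := g * y * g⁻¹) (fun x => ?_) c (commute_conj c g).symm)
  rw [S.dis_conj']
  exact hy _

theorem not_comm_cs {y c : G} (hy : ∀ x, 20 * k ≤ d x (y • x)) (h : ¬ Commute y c) (j : ℕ) :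
    ¬ Commute y (cs y c j) := by
  induction j with
  | zero => exact h
  | succ j ih => exact fun hc => ih (S.csa_big hy hc)

theorem rev0 {γ : ℤ → X} {a b lo hi σ : ℤ} (hγ : GZ d γ a b) {f : G} {e : ℕ} (he : e ≤ 40 * k)
    (h1 : a ≤ lo) (h2 : hi ≤ b) (h : Rv d γ e f σ lo hi) :
    σ ≤ 2 * lo + A + 2 * e + 3 ∨ 2 * hi ≤ σ + A + 2 * e + 3 := by
  by_contra hc
  obtain ⟨ρ, hρ⟩ : ∃ ρ : ℤ, ρ = (A + 2 * e + 3) / 2 := ⟨_, rfl⟩
  obtain ⟨c, hc'⟩ : ∃ c : ℤ, c = σ / 2 := ⟨_, rfl⟩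
  have e1 := h (c - ρ) (by omega) (by omega)
  have e2 := h (σ - (c - ρ)) (by omega) (by omega)
  have e3 := h c (by omega) (by omega)
  rw [sub_sub_cancel] at e2
  have e4 := S.mul_le f f (γ (c - ρ)) (γ (σ - (c - ρ))) (γ (c - ρ))
  have e5 := hγ.le (i := c - ρ) (j := σ - (c - ρ)) (by omega) (by omega) (by omega)
  have e6 := hγ.lip' c (σ - c) 1 (by omega) (by omega)
  have t1 := S.tri (γ (c - ρ)) (f • γ (c - ρ)) (γ (σ - (c - ρ)))
  have t2 := S.tri (γ c) (γ (σ - c)) (f • γ c)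
  have s1 := S.symm (γ (σ - c)) (f • γ c)
  have := S.rs f (γ (c - ρ)) (γ c) (by rw [S.symm]; omega)
  omega

/-- The centre of a reversal is not inside its range. -/
theorem cent {γ : ℤ → X} {a b lo hi α β : ℤ} (hγ : GZ d γ a b) {f : G} {s : ℕ} (h1 : a ≤ lo)
    (h2 : lo ≤ hi) (h3 : hi ≤ b) (h4 : a ≤ β) (h5 : β ≤ α) (h6 : α ≤ b)
    (e1 : d (f • γ lo) (γ α) ≤ s) (e2 : d (f • γ hi) (γ β) ≤ s) :
    α ≤ lo + A + 3 * s + 10 * k ∨ 2 * hi ≤ lo + α + A + 3 * s + 10 * k := by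
  obtain ⟨σ, s1, s2, h⟩ := S.reset_rv hγ h1 h2 h3 h4 h5 h6 e1 e2
  have := S.rev0 hγ (by omega) (by omega) (by omega) h
  have := S.pos
  omega

/-- The range of a reversal is at most half a period. -/
theorem rev_le {y : G} {x0 : X} {R : ℕ} {γ : ℤ → X} {ty : ℤ} (H : Ax d k y x0 R γ ty) {z : G}
    {t : ℤ} (c : Commute z y) {r : ℕ} (hr : 20 * r ≤ R) (hk : 20 * k ≤ r) (h1 : -(r : ℤ) ≤ t)
    (h2 : t ≤ r) (h : Tl d γ (3 * k) z t (-(10 * R)) (10 * R)) {T : ℕ} (hT : (T : ℤ) = |t|)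
    (h7 : 7 * k ≤ T) {lo hi α β : ℤ} (a1 : -(r : ℤ) ≤ lo) (a2 : lo ≤ hi) (a3 : hi ≤ r)
    (a4 : -(r : ℤ) ≤ β) (a5 : β ≤ α) (a6 : α ≤ r) {f : G} {s : ℕ} (e1 : d (f • γ lo) (γ α) ≤ s)
    (e2 : d (f • γ hi) (γ β) ≤ s) : 2 * (hi - lo) ≤ T + 2 * A + 6 * s + 80 * k := by
  by_contra hc
  have b3 : |t| ≤ r := abs_le.2 ⟨h1, h2⟩
  obtain ⟨a, τ, ca, ht, t1, t2⟩ := S.ax_norm' H c hr hk h1 h2 h hT h7 (α := α) (l := hi)
    (by omega) a6 (by omega) a3
  have m1 := S.mul_le a f (γ lo) (γ α) (γ (α + τ))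
  have m2 := S.mul_le a f (γ hi) (γ β) (γ (β + τ))
  have m3 := ht α (by omega) (by omega)
  have m4 := ht β (by omega) (by omega)
  have := S.cent H.gz (f := a * f) (s := s + 3 * k) (lo := lo) (hi := hi) (α := α + τ)
    (β := β + τ) (by omega) a2 (by omega) (by omega) (by omega) (by omega) (by omega) (by omega)
  omega

end XS

end Pool.Agent.Lib.MP_a2eab4_al.Rx
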