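import Pool.Agent.Lib.MP_a2eab4_al.RdI
import Pool.Agent.Lib.MP_a2eab4_al.RxA

set_option autoImplicit false

/-! The two forms of the algebraic laws agree. -/

namespace Pool.Agent.Lib.MP_a2eab4_al.Re

variable {G : Type} [Group G]

theorem n2_iff : N2 G ↔ Rx.N2 G :=
  ⟨fun h g a c1 c2 => (h g a c1 c2).symm, fun h g a c1 c2 => (h g a c1 c2).symm⟩

theorem rg_iff : RG G ↔ Rx.RG G :=
  ⟨fun h g a n hn c => (h g a n hn c.symm).symm, fun h g a n hn c => (h g a n hn c.symm).symm⟩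

theorem pf_iff : PF G ↔ Rx.PF G := by
  constructor
  · intro h η y c cm
    have m : ∀ i : Fin 6, (![1, y, c * y, c, y⁻¹ * c, c⁻¹ * y⁻¹ * c] : Fin 6 → G) i ∈
        [1, y, c * y, c, y⁻¹ * c, c⁻¹ * y⁻¹ * c] := by
      intro i
      fin_cases i <;> simp
    obtain ⟨e1, e2⟩ := h y c (fun i => ![1, y, c * y, c, y⁻¹ * c, c⁻¹ * y⁻¹ * c] i * η *
      (![1, y, c * y, c, y⁻¹ * c, c⁻¹ * y⁻¹ * c] i)⁻¹) (fun i j => cm _ (m i) _ (m j))
      (by simp) (by simp [mul_assoc]) (by simp) (by simp [mul_assoc]) (by simp [mul_assoc])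
    simp only [Matrix.cons_val_zero, Matrix.cons_val_one, one_mul, inv_one, mul_one,
      Matrix.cons_val] at e1 e2
    refine ⟨?_, ?_⟩
    · rw [eq_mul_inv_iff_mul_eq] at e1
      exact e1.symm
    · show y * (c * η * c⁻¹) = c * η * c⁻¹ * y
      calc y * (c * η * c⁻¹) = y * (y⁻¹ * c * η * (y⁻¹ * c)⁻¹) := by rw [e2]
        _ = _ := by group
  · intro h y c u cm e1 e2 e3 e4 e5
    have f4 : u 4 = y⁻¹ * c * u 0 * (y⁻¹ * c)⁻¹ := by
      calc u 4 = y⁻¹ * (y * u 4 * y⁻¹) * y := by group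
        _ = _ := by rw [e4, ← e3]; group
    have f5 : u 5 = c⁻¹ * y⁻¹ * c * u 0 * (c⁻¹ * y⁻¹ * c)⁻¹ := by
      calc u 5 = c⁻¹ * (c * u 5 * c⁻¹) * c := by group
        _ = _ := by rw [e5, f4]; group
    have f2 : u 2 = c * y * u 0 * (c * y)⁻¹ := by rw [← e2, ← e1]; group
    have key : ∀ a ∈ [1, y, c * y, c, y⁻¹ * c, c⁻¹ * y⁻¹ * c], ∃ i, a * u 0 * a⁻¹ = u i := by
      intro a ha
      simp only [List.mem_cons, List.not_mem_nil, or_false] at ha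
      rcases ha with rfl | rfl | rfl | rfl | rfl | rfl
      exacts [⟨0, by simp⟩, ⟨1, e1⟩, ⟨2, f2.symm⟩, ⟨3, e3⟩, ⟨4, f4.symm⟩, ⟨5, f5.symm⟩]
    obtain ⟨c1, c2⟩ := h (u 0) y c fun a ha b hb => by
      obtain ⟨i, hi⟩ := key a ha
      obtain ⟨j, hj⟩ := key b hb
      rw [hi, hj]
      exact cm i j
    refine ⟨by rw [← e1, c1.mul_inv_cancel], ?_⟩
    rw [e3] at c2
    calc u 4 = y⁻¹ * (y * u 4 * y⁻¹) * y := by group
      _ = y⁻¹ * (u 3 * y) := by rw [e4]; group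
      _ = u 3 := by rw [← c2.eq]; group

end Pool.Agent.Lib.MP_a2eab4_al.Re
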