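import Pool.Agent.Lib.MP_a2eab4_al.RxXJ

set_option autoImplicit false

/-! The standing assumptions follow from the invariants about powers. -/

namespace Pool.Agent.Lib.MP_a2eab4_al.Rx

open Pool.Agent.Lib.MP_429c3d_al Hyp Ng

variable {G X : Type} [Group G] [MulAction G X] {d : X → X → ℕ} {k A P : ℕ}

theorem xs_of_pe (gr : IsGr d) (hyp : Hyp4 d k) (iso : Isom G d) (ne : Nonempty X) (n2 : N2 G)
    (rg : RG G) (pf : PF G) (ai : AI G d (b1 k) A)
    (pe1 : ∀ (g : G) (j : ℤ) (x : X), (∃ (x : X) (M : ℕ), ∀ i : ℤ, d x (g ^ i • x) ≤ M) → j ≠ 0 →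
      d x (g ^ j • x) ≤ b1 k → ∀ i : ℤ, d x (g ^ i • x) ≤ A)
    (pe2 : ∀ g : G, (¬ ∃ (x : X) (M : ℕ), ∀ i : ℤ, d x (g ^ i • x) ≤ M) →
      ∀ x : X, b1 k ≤ d x (g ^ P • x)) : XS G d (k + 1) (A + (100 * P + 30) * (k + 1)) := by
  have S := sp_of gr hyp iso
  refine ⟨⟨S⟩, ne, n2, rg, pf, ai.mono (by unfold b1; omega) (by omega), fun f x x' h => ?_⟩
  by_cases hb : ∃ (x : X) (M : ℕ), ∀ i : ℤ, d x (f ^ i • x) ≤ M
  · have := pe1 f 2 x hb (by omega) (by rw [zpow_two]; unfold b1; omega) 1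
    rw [zpow_one] at this
    omega
  · have h1 := pe2 (f * f) (fun ⟨z, M, hz⟩ => hb ⟨z, M + d z (f • z), fun i => by
      have e : f ^ i = (f * f) ^ (i / 2) * f ^ (i % 2) := by
        rw [← zpow_two, ← zpow_mul, ← zpow_add, Int.mul_ediv_add_emod]
      have e1 := S.dis_mul ((f * f) ^ (i / 2)) (f ^ (i % 2)) z
      have e2 := hz (i / 2)
      rw [e]
      rcases Int.emod_two_eq_zero_or_one i with r | r <;> rw [r] at e1 ⊢
      · rw [zpow_zero, one_smul, S.self] at e1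
        rw [zpow_zero]
        omega
      · rw [zpow_one] at e1 ⊢
        omega⟩)
    have h2 := S.tube (y := (f * f) ^ P) (z := f) (m := b1 k) h1 (by unfold b1; omega)
      (((Commute.refl f).mul_right (Commute.refl f)).pow_right P) x x'
    have h3 := S.dis_pow (f * f) x P
    have h4 : P * d x ((f * f) • x) ≤ P * (100 * (k + 1)) := Nat.mul_le_mul_left _ h
    have h5 : (100 * P + 30) * (k + 1) = P * (100 * (k + 1)) + 30 * (k + 1) := by ring
    omega

end Pool.Agent.Lib.MP_a2eab4_al.Rx
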