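import Pool.Agent.Lib.MP_a2eab4_al.RcF
import Pool.Agent.Lib.MP_a2eab4_al.ReI
import Pool.Agent.Lib.MP_a2eab4_al.RdBr
import Pool.Agent.Lib.MP_a2eab4_al.RxPE

set_option autoImplicit false
set_option linter.unusedSectionVars false

/-! The cone block from a family of trees. -/

namespace Pool.Agent.Lib.MP_a2eab4_al.Rc

open Pool.Agent.Lib.MP_429c3d_al Hyp Ng Sum
open Re

theorem xi_exists : ∃ CN : ℕ, ∀ C1 : ℕ, ∃ C3 : ℕ, ∀ N0 : ℕ, ∃ N1 : ℕ, ∀ k A : ℕ,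
    ∃ S1 S2 J U : ℕ, 2 ≤ S2 ∧ ∀ u, U ≤ u → ∃ K0 : ℕ, ∀ k0 : ℕ, ∃ kk : ℕ,
    ∀ (G X : Type) [Group G] [MulAction G X] (d : X → X → ℕ), Rx.XS G d (k + 1) A →
      ∃ Top, Rx.XI G d Top CN C1 C3 N0 N1 k S1 S2 J u K0 k0 kk :=
  ⟨_, fun _ => ⟨_, fun _ => ⟨_, fun _ _ => ⟨_, _, _, _, by omega, fun _ hu =>
    ⟨_, fun _ => ⟨_, fun _ _ _ _ _ S => ⟨_, S.xi rfl rfl hu⟩⟩⟩⟩⟩⟩⟩

/-- A family of trees that represents all top pairs. -/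
structure Fm (G : Type) {X I J : Type} (Ω : Type) [Group G] [MulAction G X] [MulAction G Ω]
    [MulAction G J] (d : X → X → ℕ) (Top : G → G → X → Prop) (E D : I → Subgroup G) (y t : I → G)
    (ξ : I → X) (om : I → J) (Z : J → X ⊕ Ω → Prop) (k A P u α Δ : ℕ) (φ : ℕ → ℕ) : Prop where
  bh : BH G d Z k A P u α Δ
  pr : ∀ p, Pr (E p) (D p) (y p) (t p)
  rep : ∀ a s x, Top a s x → ∃ (h : G) (p : I), ∃ δ ∈ D p, ∃ δ' ∈ D p,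
    h * a * h⁻¹ = y p * δ ∧ h * s * h⁻¹ = t p * δ'
  cover : ∀ j, ∃ (g : G) (p : I), j = g • om p
  ty : ∀ (g : G) p q, g • om p = om q → p = q
  stab : ∀ (g : G) p, g • om p = om p ↔ g ∈ Subgroup.closure (Sy (E p) (t p * y p * (t p)⁻¹))
  mem : ∀ (g : G) p v, Z (g • om p) v ↔
    ∃ f ∈ Subgroup.closure (Sy (E p) (t p * y p * (t p)⁻¹)), v = inl ((g * f) • ξ p)
  wd : ∀ p n, ∀ f ∈ Subgroup.closure (Sy (E p) (t p * y p * (t p)⁻¹)),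
    dYY G (Ω := Ω) d u (inl (ξ p)) (inl (f • ξ p)) ≤ n → Wd (Sy (E p) (t p * y p * (t p)⁻¹)) (φ n) f

variable {G X I J Ω : Type} [Group G] [MulAction G X] [MulAction G Ω] [MulAction G J]
  {d : X → X → ℕ} {Top : G → G → X → Prop} {E D : I → Subgroup G} {y t : I → G} {ξ : I → X}
  {om : I → J} {Z : J → X ⊕ Ω → Prop} {k A P u α Δ : ℕ} {φ : ℕ → ℕ}

theorem Fm.cb (F : Fm G Ω d Top E D y t ξ om Z k A P u α Δ φ) (B : CH G d Z k A P u α Δ) :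
    Cb G (dC G d u Z) inl (fun p => inr (om p)) ξ (fun p => Sy (E p) (t p * y p * (t p)⁻¹))
      (coneK (cC α)) (φ ((20 * coneK (cC α) + 20) * prjC kY α Δ)) := by
  have m := B.gr.1.met
  have z : ∀ p f, f ∈ Subgroup.closure (Sy (E p) (t p * y p * (t p)⁻¹)) →
      Z (om p) (inl (f • ξ p)) := fun p f hf => by
    simpa using (F.mem 1 p _).2 ⟨f, hf, rfl⟩
  have z1 : ∀ p, Z (om p) (inl (ξ p)) := fun p => by simpa using z p 1 (Subgroup.one_mem _)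
  refine ⟨B.gr.1, B.hyp, B.iso, B.H.xs.ne, inl_injective, fun _ _ => rfl, ?_,
    fun _ _ => inl_ne_inr, fun g p q h => F.ty g p q (inr_injective h), ?_,
    fun g p => inr_injective.eq_iff.trans (F.stab g p), fun p => ?_, ?_,
    fun p f hf h => F.wd p _ f hf (B.det (z1 p) (z p f hf) h)⟩
  · rintro (x | j)
    · exact Or.inl ⟨x, rfl⟩
    · obtain ⟨g, p, rfl⟩ := F.cover j
      exact Or.inr ⟨g, p, rfl⟩
  · rintro p a (h | ⟨i, rfl⟩)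
    · exact Or.inl ((E p).inv_mem h)
    · exact Or.inr ⟨-i, (zpow_neg _ _).symm⟩
  · have := (B.gr.2.2.1 _ _).2 (z1 p)
    rw [m.symm] at this
    exact le_antisymm this (Nat.pos_of_ne_zero fun e => inr_ne_inl (B.gr.1.sep _ _ e))
  · rintro p (x | j) h
    · rw [m.symm] at h
      have e := (B.gr.2.2.1 _ _).1 h.le
      rw [← one_smul G (om p), F.mem] at e
      simpa using e
    · rw [B.gr.2.2.2 _ _ h.le, m.self] at h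
      omega

theorem Fm.tr (F : Fm G Ω d Top E D y t ξ om Z k A P u α Δ φ) {CN C1 C3 N0 N1 k' S1 S2 J0 K0 k0 kk n : ℕ}
    (H : Rx.XI G d Top CN C1 C3 N0 N1 k' S1 S2 J0 u K0 k0 kk) {a c : G} (hc : IsConj a c)
    (h1 : ¬ Big d S2 a c) (h2 : Done n a c ∨ Esc d k0 S2 a c) :
    Done n a c ∨ Trt (fun p => Twi (D p) (y p) (t p)) (kk + 1) a c := by
  refine or_iff_not_imp_left.2 fun h3 => ?_
  obtain ⟨j, x, e1, e2⟩ := H.top a c hc (fun e => h3 ⟨0, Nat.zero_le _, e⟩) h1 (h2.resolve_left h3)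
  obtain ⟨h, p, δ, a1, δ', a2, a3, a4⟩ := F.rep _ _ _ e2
  have R := F.pr p
  refine ⟨j + 1, by omega, h, p, δ, a1, a3, ?_⟩
  have c1 : Commute δ' (y p * δ) := R.ab _ (R.le a2) _ ((E p).mul_mem R.mem (R.le a1))
  calc h * cs a c (j + 1) * h⁻¹ = h * cs a c j * h⁻¹ * (h * a * h⁻¹) * (h * cs a c j * h⁻¹)⁻¹ := by
        rw [cs]; group
    _ = t p * (δ' * (y p * δ) * δ'⁻¹) * (t p)⁻¹ := by rw [a3, a4]; group
    _ = t p * y p * (δ * (t p)⁻¹) := by rw [c1.eq]; group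
    _ = _ := by rw [(R.cen δ a1).inv_right.eq]; group

/-- The statement about families of trees. -/
def FamS : Prop := ∀ CN : ℕ, ∃ C1 : ℕ, ∀ C3 : ℕ, ∃ N0 : ℕ, 602 ≤ N0 ∧ ∀ N1 : ℕ,
  ∃ (α Δ : ℕ) (φ : ℕ → ℕ), ∀ k : ℕ, ∃ U : ℕ, ∀ u, U ≤ u → ∀ (A P S1 S2 J0 K0 k0 kk : ℕ)
    (G X Ω : Type) [Group G] [MulAction G X] [MulAction G Ω] (d : X → X → ℕ)
    (Top : G → G → X → Prop), TF G → YH G Ω d (k + 1) A P u →
    Rx.XI G d Top CN C1 C3 N0 N1 k S1 S2 J0 u K0 k0 kk →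
    ∃ (I J : Type) (_ : MulAction G J) (E D : I → Subgroup G) (y t : I → G) (ξ : I → X)
      (om : I → J) (Z : J → X ⊕ Ω → Prop), Fm G Ω d Top E D y t ξ om Z (k + 1) A P u α Δ φ

theorem cone_of (fam : FamS) : ∃ kB D0 : ℕ, ∀ L : ℕ, ∃ f P : ℕ, P ≠ 0 ∧ ∀ k A P' : ℕ,
    ∃ S2 : ℕ, 2 ≤ S2 ∧ ∀ S' : ℕ, ∃ U : ℕ, ∀ u, U ≤ u → ∃ K : ℕ, ∀ k0 : ℕ, ∃ kk : ℕ, ∀ n : ℕ,
    K ≤ n → kk ≤ n → ∀ (G X : Type) [Group G] [MulAction G X] (d : X → X → ℕ) (M : Set G),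
    Lev G d M k A P' S2 k0 n u → Nonempty (Cn G d M kB D0 L f P S2 S' u K kk n) := by
  obtain ⟨CN, h1⟩ := xi_exists
  obtain ⟨C1, h2⟩ := fam CN
  obtain ⟨C3, h1⟩ := h1 C1
  obtain ⟨N0, hN, h2⟩ := h2 C3
  obtain ⟨N1, h1⟩ := h1 N0
  obtain ⟨α, Δ, φ, h2⟩ := h2 N1
  refine ⟨coneK (cC α), φ ((20 * coneK (cC α) + 20) * prjC kY α Δ), fun L =>
    ⟨60 * L + 4 * cC α, (1202 * (LY α Δ + 1) + 3) * (3 * L + 1) + 2, by omega, fun k A P' => ?_⟩⟩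
  obtain ⟨S1, S2, J0, U1, hS, h1⟩ := h1 k (A + (100 * P' + 30) * (k + 1))
  obtain ⟨U2, h2⟩ := h2 k
  refine ⟨S2, hS, fun S' => ⟨U1 + U2 + (A + (100 * P' + 30) * (k + 1)) + 200 * (k + 1 + 1) +
    (8 * kY + 14) * (k + 1) + (8 * coneK (cB α) + 14) * (k + 1) + (2 * LY α Δ + 10) * (k + 1) +
    (6 * L + 10) * (k + 1) + 10 * lvB α Δ (3 * S') * (J0 + (k + 1) + 1) + 1, fun u hu => ?_⟩⟩
  obtain ⟨K0, h1⟩ := h1 u (by omega)
  refine ⟨K0 + lvB α Δ (3 * S'), fun k0 => ?_⟩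
  obtain ⟨kk, h1⟩ := h1 k0
  refine ⟨kk + 1, fun n hK _ G X _ _ d M H => ?_⟩
  have S := Rx.xs_of_pe H.gr H.hyp H.iso H.ne (n2_iff.1 H.n2) (rg_iff.1 H.rg) (pf_iff.1 H.pf) H.ai
    H.pe1 H.pe2
  obtain ⟨Top, T⟩ := h1 G X d S
  obtain ⟨Ω, _, Y⟩ := exists_YH (u := u) (P := P') S
    (fun g j x a1 a2 a3 i => (H.pe1 g j x a1 a2 (by unfold b1; omega) i).trans (by omega))
    (fun g a1 x => le_trans (by unfold b1; omega) (H.pe2 g a1 x)) (by omega) (by omega)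
  obtain ⟨I, J, _, E, D, y, t, ξ, om, Z, F⟩ := h2 u (by omega) _ _ _ _ _ _ _ _ G X Ω d Top H.tf Y T
  have B : CH G d Z (k + 1) _ P' u α Δ := ⟨F.bh, fun i v h => by
    obtain ⟨g, p, rfl⟩ := F.cover i
    obtain ⟨f, -, e⟩ := (F.mem g p v).1 h
    exact ⟨_, e⟩, by omega, by omega, by omega⟩
  have cj : ∀ a s : G, IsConj a (s * a * s⁻¹) := fun a s => isConj_iff.2 ⟨s, rfl⟩
  have tr := fun a s hs h => F.tr T (cj a s) h (H.gt a s hs)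
  refine ⟨⟨X ⊕ J, X, I, dC G d u Z, inl, fun p => inr (om p), ξ, E, D, y, t, id, F.cb B,
    ⟨H.tf, H.n2, H.rg, H.pf,
      fun a b x x' h0 e1 e2 e3 e4 => (B.aiC L a b x x' h0 e1 e2 e3 e4).trans (by omega),
      fun g j x h0 e1 e2 i => (B.pe1C L g j x h0 e1 e2 i).trans (by omega), B.pe2C (by omega),
      H.conj, fun s hs => (H.mark s hs).imp fun x => B.cone.lip _ _, fun a s hs => ?_⟩,
    F.pr, fun _ _ => rfl, B.cone.lip, tr⟩⟩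
  by_cases hb : Big d S2 a (s * a * s⁻¹)
  · by_cases hc : Commute a (s * a * s⁻¹)
    · exact Or.inl ⟨0, Nat.zero_le _, hc⟩
    obtain ⟨l, x, e1, e2, e3⟩ := T.flip _ _ (cj a s) hc (T.mono _ _ 0 (cj a s) hb)
    rcases B.gtC (n := S') (K := K0 + lvB α Δ (3 * S')) e2 e3 le_rfl
      (Nat.mul_le_mul_right u hN) (by omega) (by omega) with ⟨j, e4, e5⟩ | e4 | ⟨i, j, e4, e5, e6⟩
    · exact Or.inl ⟨j, by omega, e5⟩
    · exact Or.inr (Or.inr (Or.inr e4))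
    · obtain ⟨g, p, rfl⟩ := F.cover i
      have key : ∀ b : G, b • g • om p = g • om p → g⁻¹ * b * g⁻¹⁻¹ ∈
          Subgroup.closure (Sy (E p) (t p * y p * (t p)⁻¹)) := fun b hb => by
        rw [← F.stab, inv_inv, mul_smul, mul_smul, hb, inv_smul_smul]
      exact Or.inr (Or.inr (Or.inl ⟨j, e4, g⁻¹, p, key _ e5, key _ e6⟩))
  · exact (tr a s hs hb).imp_right Or.inl

end Pool.Agent.Lib.MP_a2eab4_al.Rc
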