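import Pool.Agent.Lib.MP_429c3d_al.NgXI

set_option autoImplicit false

/-! The facts about one level that are used for the base stage. -/

namespace Pool.Agent.Lib.MP_a2eab4_al.Rx

open Pool.Agent.Lib.MP_429c3d_al Hyp Ng

/-- The common centraliser of a pair. -/
def Cen {G : Type} [Group G] (y t δ : G) : Prop := Commute δ y ∧ Commute δ t

/-- The gate property for almost minimal points. -/
def Gate {G X : Type} [Group G] [MulAction G X] (d : X → X → ℕ) (k : ℕ) (y c : G) (ξ : X)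
    (l J : ℕ) : Prop :=
  ∀ j w w', l ≤ j → (∀ x, d w (y • w) ≤ d x (y • x) + 100 * (k + 1)) →
    (∀ x, d w' (cs y c j • w') ≤ d x (cs y c j • x) + 100 * (k + 1)) →
    d w ξ + d ξ (eta y c ξ j) + d (eta y c ξ j) w' ≤ d w w' + J

/-- `Top y t ξ`: the segment from `ξ` to `t • ξ` is the top edge of the pair `(y, t * y * t⁻¹)`. -/
structure XI (G : Type) {X : Type} [Group G] [MulAction G X] (d : X → X → ℕ)
    (Top : G → G → X → Prop) (CN C1 C3 N0 N1 k S1 S2 J u K0 k0 kk : ℕ) : Prop where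
  mono : ∀ (y c : G) j, IsConj y c → Big d S2 y c → Big d S1 y (cs y c j)
  flip : ∀ y c : G, IsConj y c → ¬ Commute y c → Big d S1 y c →
    ∃ l ξ, l ≤ K0 ∧ Flip d y c ξ l (N0 * u) J ∧ Gate d k y c ξ l J
  top : ∀ y c : G, IsConj y c → ¬ Commute y c → ¬ Big d S2 y c → Esc d k0 S2 y c →
    ∃ j ξ, j ≤ kk ∧ Top y (cs y c j) ξ
  conj : ∀ y t ξ, Top y t ξ → IsConj y t
  nc : ∀ y t ξ, Top y t ξ → ∀ j, ¬ Commute y (cs y t j)
  stab : ∀ y t ξ, Top y t ξ → ∀ j δ, Cen y (cs y t j) δ → Cen y t δ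
  ab : ∀ y t ξ, Top y t ξ → ∀ a b, Cen y t a → Cen y t b → Commute a b
  short : ∀ y t ξ, Top y t ξ → d ξ (y • ξ) ≤ u
  cen : ∀ y t ξ, Top y t ξ → ∀ δ, Cen y t δ → d ξ (δ • ξ) ≤ u
  lo : ∀ y t ξ, Top y t ξ → N0 * u ≤ d ξ (t • ξ)
  hi : ∀ y t ξ, Top y t ξ → d ξ (t • ξ) ≤ N1 * u
  nt : ∀ y t ξ, Top y t ξ → ∀ (a : G) q q', Btw d ξ q (t • ξ) → Btw d ξ q' (t • ξ) →
    d q (a • q) ≤ 10 * u → d q' (a • q') ≤ 10 * u → CN * u < d q q' → Cen y t a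
  edge : ∀ y t ξ y' t' ξ', Top y t ξ → Top y' t' ξ' → ∀ (g : G) P P' q0 q0',
    (∀ q, Deep d (C1 * u) ξ q (t • ξ) → NB d (100 * (k + 1)) P q P') →
    (∀ q, Deep d (C1 * u) (g • ξ') q (g • t' • ξ') → NB d (100 * (k + 1)) P q P') →
    Deep d (C3 * u) ξ q0 (t • ξ) → Deep d (C3 * u) (g • ξ') q0' (g • t' • ξ') →
    d q0 q0' ≤ 100 * (k + 1) →
    (∃ h : G, Cen y t (y⁻¹ * (h * y' * h⁻¹)) ∧ Cen y t (t⁻¹ * (h * t' * h⁻¹))) ∧
      (y' = y → t' = t → ξ' = ξ → Cen y t g)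

end Pool.Agent.Lib.MP_a2eab4_al.Rx
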