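import Pool.Agent.Lib.MP_a2eab4_al.RdA
import Pool.Agent.Lib.MP_a2eab4_al.RxXI
import Pool.Agent.Lib.MP_a2eab4_al.RxA
import Pool.Agent.Lib.MP_429c3d_al.NgQC2
import Pool.Agent.Lib.MP_429c3d_al.HypPrj

set_option autoImplicit false
set_option linter.unusedSectionVars false

/-! Bounded elements in cone-offs, and apices for the unbounded elements. -/

namespace Pool.Agent.Lib.MP_a2eab4_al.Rc

open Pool.Agent.Lib.MP_429c3d_al Hyp Ng Rx
open Re (Bd PE1 PE2)

section bounded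

variable {G V : Type} [Group G] [MulAction G V] {d : V → V → ℕ} {k : ℕ}

theorem bd_conj (iso : Isom G d) (g f : G) : Bd d (f * g * f⁻¹) ↔ Bd d g :=
  ⟨fun h => h.of_conj iso, fun h => h.conj iso f⟩

theorem bd_map {W : Type} [MulAction G W] {d' : W → W → ℕ} (ι : V → W)
    (hι : ∀ (g : G) x, ι (g • x) = g • ι x) (le : ∀ x y, d' (ι x) (ι y) ≤ d x y) {g : G}
    (h : Bd d g) : Bd d' g := by
  obtain ⟨x, M, h⟩ := h
  exact ⟨ι x, M, fun i => by rw [← hι]; exact (le _ _).trans (h i)⟩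

/-- Elements with large displacement are unbounded. -/
theorem not_bd (Γ : IsGr d) (hyp : Hyp4 d k) (iso : Isom G d) {g : G}
    (h : ∀ x, 4 * k + 2 ≤ d x (g • x)) : ¬ Bd d g := fun hb => by
  obtain ⟨p, hp⟩ := hb.centre Γ hyp iso
  have := hp 1
  have := h p
  rw [zpow_one] at *
  omega

/-- The centraliser of an unbounded element is abelian. -/
theorem lox_comm {A P : ℕ} (S : Rx.XS G d k A) (pe : PE2 G d (100 * k) P) {g a b : G} (hg : ¬ Bd d g)
    (ha : Commute a g) (hb : Commute b g) : Commute a b :=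
  S.comm_of_big (y := g ^ P) (fun x => le_trans (by omega) (pe g hg x)) (ha.pow_right P)
    (hb.pow_right P)

end bounded

section apex

variable {G : Type} [Group G]

/-- One point for the centraliser of every element with the property `P`. -/
structure ApL (G Ω : Type) [Group G] [MulAction G Ω] (Lx P : G → Prop) : Prop where
  comm : ∀ (a b : G) (ω : Ω), a • ω = ω → b • ω = ω → Commute a b
  cent : ∀ (a b : G) (ω : Ω), Lx a → a • ω = ω → Commute a b → b • ω = ω
  two : ∀ (a : G) (ω ω' : Ω), Lx a → a • ω = ω → a • ω' = ω' → ω = ω'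
  ex : ∀ a : G, Lx a → P a → ∃ ω : Ω, a • ω = ω
  sh : ∀ ω : Ω, ∃ a : G, Lx a ∧ P a ∧ a • ω = ω

theorem exists_apL (n2 : N2 G) {Lx P : G → Prop} (hL : ∀ g a, Lx a → Lx (g * a * g⁻¹))
    (hP : ∀ g a, P a → P (g * a * g⁻¹))
    (ct : ∀ g a b, Lx g → Commute a g → Commute b g → Commute a b) :
    ∃ (Ω : Type) (_ : MulAction G Ω), ApL G Ω Lx P := by
  let Ω := {E : Set G // ∃ a, Lx a ∧ P a ∧ E = {b | Commute a b}}
  have cj : ∀ g a b : G, Commute (g * a * g⁻¹) b ↔ Commute a (g⁻¹ * b * g) := fun g a b =>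
    ⟨fun h => by simpa [mul_assoc] using h.conj g⁻¹, fun h => by simpa [mul_assoc] using h.conj g⟩
  let _ : MulAction G Ω :=
    { smul := fun g E => ⟨{b | g⁻¹ * b * g ∈ E.1}, by
        obtain ⟨a, h1, h2, h3⟩ := E.2
        exact ⟨g * a * g⁻¹, hL g a h1, hP g a h2,
          Set.ext fun b => by rw [h3]; exact (cj g a b).symm⟩⟩
      one_smul := fun E => Subtype.ext (Set.ext fun b => by
        change 1⁻¹ * b * 1 ∈ E.1 ↔ _
        simp)
      mul_smul := fun g h E => Subtype.ext (Set.ext fun b => by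
        change (g * h)⁻¹ * b * (g * h) ∈ E.1 ↔ h⁻¹ * (g⁻¹ * b * g) * h ∈ E.1
        rw [show (g * h)⁻¹ * b * (g * h) = h⁻¹ * (g⁻¹ * b * g) * h by group]) }
  have key : ∀ (E : Ω) (a : G), Lx a → E.1 = {b | Commute a b} →
      ∀ g : G, g • E = E ↔ Commute a g := by
    intro E a ha hE g
    have e : (g • E).1 = {b | Commute (g * a * g⁻¹) b} := Set.ext fun b => by
      change g⁻¹ * b * g ∈ E.1 ↔ _
      rw [hE]
      exact (cj g a b).symm
    constructor
    · intro h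
      rw [h, hE] at e
      refine n2.of_norm (Z := fun b => Commute a b) (fun b c h1 h2 => ct a b c ha h1.symm h2.symm)
        (fun b hb => ?_) (Commute.refl a)
      have : g * b * g⁻¹ ∈ {b | Commute (g * a * g⁻¹) b} := commute_conj hb g
      rwa [← e] at this
    · intro h
      refine Subtype.ext ?_
      rw [e, hE, ← h.eq, mul_inv_cancel_right]
  refine ⟨Ω, inferInstance, fun a b ω h1 h2 => ?_, fun a b ω h0 h1 h2 => ?_,
    fun g ω ω' hg h1 h2 => ?_,
    fun a h1 h2 => ⟨⟨_, a, h1, h2, rfl⟩, (key _ a h1 rfl a).2 (Commute.refl a)⟩, fun ω => ?_⟩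
  · obtain ⟨c, c1, -, c3⟩ := ω.2
    exact ct c a b c1 ((key ω c c1 c3 a).1 h1).symm ((key ω c c1 c3 b).1 h2).symm
  · obtain ⟨c, c1, -, c3⟩ := ω.2
    exact (key ω c c1 c3 b).2 (ct a c b h0 ((key ω c c1 c3 a).1 h1) h2.symm)
  · obtain ⟨c, c1, -, c3⟩ := ω.2
    obtain ⟨c', c4, -, c5⟩ := ω'.2
    have e := ct g c c' hg ((key ω c c1 c3 g).1 h1) ((key ω' c' c4 c5 g).1 h2)
    refine Subtype.ext ?_
    rw [c3, c5]
    exact Set.ext fun b => ⟨fun h => ct c c' b c1 e.symm h.symm, fun h => ct c' c b c4 e h.symm⟩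
  · obtain ⟨c, c1, c2, c3⟩ := ω.2
    exact ⟨c, c1, c2, (key ω c c1 c3 c).2 (Commute.refl c)⟩

end apex

variable {X B : Type} {d : X → X → ℕ} {dB : B → B → ℕ} {ι : X → B} {Sh : B → X → Prop}
  {k u c : ℕ} (C : QC d dB ι Sh k u c) {G : Type} [Group G] [MulAction G X] [MulAction G B]
  (A : CAct G d dB ι Sh)
include C A

/-- Acylindricity of a cone-off. -/
theorem qc_ai {A0 : ℕ} (h : AI G d (100 * k) A0) (hA : A0 ≤ u) (n2 : N2 G) (L : ℕ) :
    AI G dB L (20 * L + 2 * coneN c + 5) := by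
  intro a b x x' hab h1 h2 h3 h4
  by_contra hc
  have mB := C.grB.met
  have hN := le_coneN c
  obtain ⟨p, hp⟩ := C.ne x
  obtain ⟨p', hp'⟩ := C.ne x'
  have cj : ∀ (g e : G) (v : B) (n : ℕ), dB v (g • v) ≤ L → dB v (e • v) ≤ n →
      dB v ((g * e * g⁻¹) • v) ≤ n + 2 * L := fun g e v n e1 e2 => by
    have := A.dis_mul mB (g * e) g⁻¹ v
    have := A.dis_mul mB g e v
    have := A.dis_inv mB g v
    omega
  have key : ∀ s, 10 * L + coneN c + 2 ≤ s → s ≤ 10 * L + coneN c + 4 → ∃ q, dB (ι q) x = s ∧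
      ∀ e f : G, dB x (e • x) ≤ 5 * L → dB x (f • x) ≤ 5 * L → dB x' (e • x') ≤ 5 * L →
        dB x' (f • x') ≤ 5 * L → d q ((e⁻¹ * f⁻¹ * e * f) • q) ≤ 100 * k := by
    intro s s1 s2
    obtain ⟨q, q1, q2⟩ := C.toCone.exists_at hp hp' (s := s) (by omega) (by omega)
    have t1 := mB.tri x (ι q) x'
    have t2 := mB.symm x (ι q)
    refine ⟨q, q2, fun e f e1 e2 e3 e4 => ?_⟩
    have := C.toCone.comm_short A hp hp' q1 e1 e3 e2 e4 (by omega) (by omega)
    omega
  obtain ⟨q, q0, q1⟩ := key (10 * L + coneN c + 2) le_rfl (by omega)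
  obtain ⟨q', r0, r1⟩ := key (10 * L + coneN c + 4) (by omega) le_rfl
  have far : ∀ e f : G, d q (e • q) ≤ 100 * k → d q (f • q) ≤ 100 * k → d q' (e • q') ≤ 100 * k →
      d q' (f • q') ≤ 100 * k → Commute e f := fun e f e1 e2 e3 e4 => by
    by_contra hn
    have := C.lip q q' ((h _ _ q q' hn e1 e2 e3 e4).trans hA)
    have := mB.tri (ι q') (ι q) x
    have := mB.symm (ι q') (ι q)
    omega
  have cen : ∀ g : G, dB x (g • x) ≤ L → dB x' (g • x') ≤ L →
      Commute (a⁻¹ * b⁻¹ * a * b) g := by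
    intro g g1 g2
    have e : ∀ g e f : G, g * (e⁻¹ * f⁻¹ * e * f) * g⁻¹ =
        (g * e * g⁻¹)⁻¹ * (g * f * g⁻¹)⁻¹ * (g * e * g⁻¹) * (g * f * g⁻¹) := fun g e f => by group
    have a1 := cj g a x L g1 h1
    have a2 := cj g b x L g1 h2
    have a3 := cj g a x' L g2 h3
    have a4 := cj g b x' L g2 h4
    have b1 := cj g _ x _ g1 a1
    have b2 := cj g _ x _ g1 a2
    have b3 := cj g _ x' _ g2 a3
    have b4 := cj g _ x' _ g2 a4
    have c1 := q1 a b (by omega) (by omega) (by omega) (by omega)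
    have c2 := r1 a b (by omega) (by omega) (by omega) (by omega)
    refine n2 _ g ?_ ?_
    · rw [e]
      exact far _ _ c1 (q1 _ _ (by omega) (by omega) (by omega) (by omega)) c2
        (r1 _ _ (by omega) (by omega) (by omega) (by omega))
    · rw [e, e]
      exact far _ _ c1 (q1 _ _ (by omega) (by omega) (by omega) (by omega)) c2
        (r1 _ _ (by omega) (by omega) (by omega) (by omega))
  have := n2.of_central (a := a⁻¹) (b := b⁻¹) (by simpa using (cen a h1 h3).symm)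
    (by simpa using (cen b h2 h4).symm)
  exact hab (by simpa using this)

/-- A bounded element is short only near the points that all its powers almost fix. -/
theorem qc_ell {A0 : ℕ} (pe : PE1 G d (100 * k) A0) (hk : 1 ≤ k) (hA : A0 ≤ u) {g : G}
    (hg : Bd d g) {j : ℤ} (hj : j ≠ 0) {x : B} {L : ℕ} (hx : dB x (g ^ j • x) ≤ L) :
    ∃ y, (∀ i : ℤ, d y (g ^ i • y) ≤ A0) ∧ dB x (ι y) ≤ L + 2 * coneN c + 4 := by
  classical
  have m := C.gr.met
  have mB := C.grB.met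
  have hN := le_coneN c
  obtain ⟨p, hp⟩ := C.ne x
  obtain ⟨y₀, h₀⟩ := not_forall.1 fun h => not_bd C.gr C.hyp A.inv h hg
  have ex : ∃ n, ∃ y, (∀ i : ℤ, d y (g ^ i • y) ≤ A0) ∧ d p y = n :=
    ⟨_, y₀, pe g 1 y₀ hg (by omega) (by rw [zpow_one]; omega), rfl⟩
  obtain ⟨y, h1, h2⟩ := Nat.find_spec ex
  have mn : ∀ y', (∀ i : ℤ, d y' (g ^ i • y') ≤ A0) → d p y ≤ d p y' := fun y' h' =>
    h2 ▸ Nat.find_min' ex ⟨y', h', rfl⟩
  have mv : ∀ s : ℤ, d p y ≤ d p (g ^ s • y) := fun s => mn _ fun i => by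
    rw [smul_smul, ← zpow_add, add_comm, zpow_add, mul_smul, A.inv]
    exact h1 i
  refine ⟨y, h1, not_lt.1 fun hc => ?_⟩
  obtain ⟨q, q1, q2⟩ := C.toCone.exists_at hp (C.sh_ι y) (s := L + coneN c + 2) (by omega)
    (by omega)
  have t0 := mB.tri x (ι q) (ι y)
  have t0' := mB.symm x (ι q)
  have e1 := mv (-j)
  have e2 := mv j
  have e3 := C.lip _ _ ((h1 (-j)).trans hA)
  rw [zpow_neg] at e1 e3
  generalize hj' : g ^ j = a at *
  have q3 := C.mid hp (C.sh_ι y) (A.sh_smul a⁻¹ _ _ hp) (C.sh_ι (a⁻¹ • y)) (t := 0)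
    (Nat.zero_le _) q1.le (by rw [A.dis_inv mB]; omega) (by omega)
  have t1 := m.tri p q (a⁻¹ • y)
  have t2 := m.tri p (a • q) (a • y)
  have f1 : d (a⁻¹ • p) q = d p (a • q) := by rw [← A.inv a, smul_inv_smul]
  have f2 : d q (a⁻¹ • y) = d (a • q) y := by rw [← A.inv a, smul_inv_smul]
  rw [A.inv] at q3 t2
  have e4 := C.hyp q (a • q) p y
  have := m.symm q p
  have := m.symm (a • q) p
  have e5 := mn q (pe g j q hg hj (by rw [hj']; omega))
  rw [C.gr.sep q y (by omega), mB.self] at t0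
  rw [C.gr.sep q y (by omega), mB.symm] at q2
  omega

/-- A bounded element that is short at two vertices is short in the middle. -/
theorem qc_ell_mid {A0 : ℕ} (pe : PE1 G d (100 * k) A0) (hk : 1 ≤ k) (hA : A0 ≤ u) {g : G}
    (hg : Bd d g) {x x' : B} {L : ℕ} (hx : dB x (g • x) ≤ L) (hx' : dB x' (g • x') ≤ L)
    {p p' q : X} (hp : Sh x p) (hp' : Sh x' p') (hq : Btw d p q p')
    (h1 : L + 3 * coneN c + 5 < dB (ι q) x) (h2 : L + 3 * coneN c + 5 < dB (ι q) x') :
    d q (g • q) ≤ A0 + 7 * k := by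
  obtain ⟨y, y1, y2⟩ := qc_ell C A pe hk hA hg (x := x) (j := 1) (L := L) (by omega) (by rwa [zpow_one])
  obtain ⟨y', y3, y4⟩ := qc_ell C A pe hk hA hg (x := x') (j := 1) (L := L) (by omega)
    (by rwa [zpow_one])
  have m := C.gr.met
  have e := C.mid hp hp' (C.sh_ι y) (C.sh_ι y') (t := 0) (Nat.zero_le _) hq.le (by omega)
    (by omega)
  obtain ⟨w, w1, w2⟩ := NB.near (e := 2 * k) (p := y) (q := q) (p' := y') C.gr C.hyp (by
    unfold NB
    rw [m.symm q y]
    omega)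
  have e1 := dis_conv m C.hyp A.inv g w1 (by simpa using y1 1) (by simpa using y3 1)
  have e2 := dis_move m A.inv g w q
  have := m.symm w q
  omega

end Pool.Agent.Lib.MP_a2eab4_al.Rc
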