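import Pool.Agent.Lib.MP_a2eab4_al.RcQ

set_option autoImplicit false
set_option linter.unusedSectionVars false

/-! The first cone-off: the rescaled space with an apex over every short tube. -/

namespace Pool.Agent.Lib.MP_a2eab4_al.Rc

open Pool.Agent.Lib.MP_429c3d_al Hyp Ng Rx Sum
open Re (Bd PE1 PE2)

/-- The assumptions on the level and the apices. -/
structure YH (G : Type) {X : Type} (Ω : Type) [Group G] [MulAction G X] [MulAction G Ω]
    (d : X → X → ℕ) (k A P u : ℕ) : Prop where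
  xs : Rx.XS G d k A
  pe1 : PE1 G d (100 * k) A
  pe2 : PE2 G d (100 * k) P
  aps : ApL G Ω (fun a => ¬ Bd d a) fun a => ∃ x : X, d x (a • x) ≤ u
  hA : A ≤ u
  hk : 200 * (k + 1) ≤ u

theorem exists_YH {G X : Type} [Group G] [MulAction G X] {d : X → X → ℕ} {k A P u : ℕ}
    (xs : Rx.XS G d k A) (pe1 : PE1 G d (100 * k) A) (pe2 : PE2 G d (100 * k) P) (hA : A ≤ u)
    (hk : 200 * (k + 1) ≤ u) : ∃ (Ω : Type) (_ : MulAction G Ω), YH G Ω d k A P u := by
  obtain ⟨Ω, _, h⟩ := exists_apL xs.n2 (Lx := fun a : G => ¬ Bd d a)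
    (P := fun a => ∃ x : X, d x (a • x) ≤ u) (fun g a h => by rwa [bd_conj xs.inv])
    (fun g a ⟨x, h⟩ => ⟨g • x, by rwa [xs.dis_conj]⟩) fun g a b => lox_comm xs pe2
  exact ⟨Ω, _, xs, pe1, pe2, h, hA, hk⟩

section defs

variable (G : Type) {X Ω : Type} [Group G] [MulAction G X] [MulAction G Ω] (d : X → X → ℕ) (u : ℕ)

/-- An unbounded element that fixes `α` moves `x` by at most `B`. -/
def Sht (B : ℕ) (α : Ω) (x : X) : Prop := ∃ a : G, ¬ Bd d a ∧ a • α = α ∧ d x (a • x) ≤ B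

/-- The shadows. -/
def ShY : X ⊕ Ω → X → Prop
  | inl x, p => p = x
  | inr α, p => Hull d (Sht G d (2 * u) α) p

/-- The metric of the first cone-off. -/
noncomputable def dYY : X ⊕ Ω → X ⊕ Ω → ℕ := gd (adjQ d (ShY G d u) u)

end defs

/-- The hyperbolicity constant. -/
def kY : ℕ := coneK 2

/-- Elements that are short along a long part of the segment from `ξ` to `η` satisfy `Z`. -/
def NT {G X : Type} [Group G] [MulAction G X] (Z : G → Prop) (d : X → X → ℕ) (u CN : ℕ) (ξ η : X) :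
    Prop :=
  ∀ (a : G) q q', Btw d ξ q η → Btw d ξ q' η → d q (a • q) ≤ 10 * u →
    d q' (a • q') ≤ 10 * u → CN * u < d q q' → Z a

/-- The turning constant. -/
def cY (CN L : ℕ) : ℕ := 2 * (4 * L + 2 * CN + 4 * kY + 600)

/-- A large product gives a small displacement. -/
theorem dis_of_prod {G V : Type} [Group G] [MulAction G V] {d : V → V → ℕ} {k t L : ℕ}
    (m : IsMet d) (h : Hyp4 d k) (iso : Isom G d) {e : G} {o w p : V} (hw : NB d t o w p)
    (ho : d o (e • o) ≤ L) (hp : d p (e • p) + 2 * d o w ≤ d o p + d o (e • p)) :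
    d w (e • w) ≤ L + t + 2 * k := by
  unfold NB at hw
  have := h w (e • w) p o
  have := h p (e • w) (e • p) o
  have := iso e w p
  have := iso e o p
  have := iso e o w
  have := m.tri o (e • o) (e • w)
  have := m.tri (e • o) o (e • p)
  have := m.symm o (e • o)
  have := m.symm w o
  have := m.symm p o
  have := m.symm (e • w) o
  have := m.symm (e • p) o
  have := m.symm (e • w) p
  omega

namespace YH

variable {G X Ω : Type} [Group G] [MulAction G X] [MulAction G Ω] {d : X → X → ℕ} {k A P u : ℕ}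
  (H : YH G Ω d k A P u)
include H

/-- `qc_of` with `hull_qc`, `hull_self`, `aps.sh`. -/
theorem qc : QC d (dYY G (Ω := Ω) d u) inl (ShY G d u) k u 2 ∧
    ∀ e e', dYY G (Ω := Ω) d u e e' ≤ 1 ↔ adjQ d (ShY G d u) u e e' := by
  have m := H.xs.gr.met
  refine qc_of H.xs.gr H.xs.hyp H.hk (fun _ => rfl) ?_ ?_
  · rintro (x | α)
    · exact ⟨x, rfl⟩
    · obtain ⟨a, h1, ⟨x, h2⟩, h3⟩ := H.aps.sh α
      exact ⟨x, hull_self m ⟨a, h1, h3, by omega⟩⟩
  · rintro (x | α) r r' s h1 h2 h3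
    · obtain rfl : r = x := h1
      obtain rfl : r' = r := h2
      refine ⟨r', rfl, ?_⟩
      unfold Ng.Btw at h3
      rw [m.self] at h3
      omega
    · exact hull_qc H.xs.gr H.xs.hyp h1 h2 h3

/-- `IsGr.iso`; conjugate the short element. -/
theorem act : CAct G d (dYY G (Ω := Ω) d u) inl (ShY G d u) := by
  have iso := H.xs.inv
  have sht : ∀ (g : G) (α : Ω) (x : X), Sht G d (2 * u) α x → Sht G d (2 * u) (g • α) (g • x) := by
    rintro g α x ⟨a, h1, h2, h3⟩
    refine ⟨g * a * g⁻¹, by rwa [bd_conj iso], ?_, ?_⟩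
    · rw [mul_smul, mul_smul, inv_smul_smul, h2]
    · rwa [mul_smul, mul_smul, inv_smul_smul, iso]
  have sh : ∀ (g : G) (b : X ⊕ Ω) x, ShY G d u b x → ShY G d u (g • b) (g • x) := by
    rintro g (y | α) x h
    · exact congrArg (g • ·) h
    · obtain ⟨r, r', h1, h2, h3⟩ := h
      exact ⟨g • r, g • r', sht g α r h1, sht g α r' h2, h3.smul iso g⟩
  refine ⟨iso, H.qc.1.grB.iso fun g x y h => (H.qc.2 _ _).2 ?_, fun _ _ => rfl, sh⟩
  obtain ⟨s, s', h1, h2, h3⟩ := (H.qc.2 _ _).1 h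
  exact ⟨g • s, g • s', sh g x s h1, sh g y s' h2, by rwa [iso]⟩

theorem sh_of {α : Ω} {x : X} {a : G} (h1 : ¬ Bd d a) (h2 : a • α = α) (h3 : d x (a • x) ≤ 2 * u) :
    ShY G d u (inr α) x := hull_self H.xs.gr.met ⟨a, h1, h2, h3⟩

theorem adj_of {α : Ω} {x : X} (h : ShY G d u (inr α) x) :
    dYY G d u (inl x) (inr α) ≤ 1 :=
  (H.qc.2 _ _).2 ⟨x, x, rfl, h, by rw [H.xs.gr.met.self]; omega⟩

/-- `tube`, `aps.comm`, `dis_move`. -/
theorem near_short {α : Ω} {x : X} (h : Near d (ShY G d u) (2 * u) (inr α) x) :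
    Sht G d (7 * u) α x := by
  obtain ⟨s, ⟨r, r', ⟨a, a1, a2, a3⟩, ⟨b, b1, b2, b3⟩, h3⟩, h4⟩ := h
  have m := H.xs.gr.met
  have hk := H.hk
  have e := m.symm x s
  rcases tube H.xs.gr H.xs.hyp H.xs.inv (H.aps.comm a b α a2 b2) h3 a3 b3 with t | t
  · have := dis_move m H.xs.inv a s x
    exact ⟨a, a1, a2, by omega⟩
  · have := dis_move m H.xs.inv b s x
    exact ⟨b, b1, b2, by omega⟩

theorem ai_u : AI G d (8 * u) (139 * u) := fun _ _ _ _ hc h1 h2 h3 h4 => by
  have := H.xs.ai_sc hc h1 h2 h3 h4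
  have := H.hA
  omega

/-- Five points on a geodesic at distance `140 u`; at each of them one of two fixed elements of the
stabiliser of `α` and one of two fixed elements of the stabiliser of `β` is short (`tube`); two
points have the same pair, which does not commute (`aps.cent`, `aps.two`); `ai_u`. -/
theorem overlap {α β : Ω} (hne : α ≠ β) {x x' : X} (h1 : Sht G d (7 * u) α x)
    (h2 : Sht G d (7 * u) α x') (h3 : Sht G d (7 * u) β x) (h4 : Sht G d (7 * u) β x') :
    d x x' ≤ 600 * u := by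
  by_contra hlt
  obtain ⟨a, a1, a2, a3⟩ := h1
  obtain ⟨a', a4, a5, a6⟩ := h2
  obtain ⟨b, b1, b2, b3⟩ := h3
  obtain ⟨b', b4, b5, b6⟩ := h4
  have hk := H.hk
  obtain ⟨g, g0, g1, g2⟩ := H.xs.gr.exists_geo x x'
  have hle : ∀ i : Fin 5, i.1 * (140 * u) ≤ d x x' := fun i => by
    have := Nat.mul_le_mul_right (140 * u) (show i.1 ≤ 4 by omega)
    omega
  have hb : ∀ i : Fin 5, Btw d x (g (i.1 * (140 * u))) x' := fun i => by
    have e1 := g2 0 _ le_rfl (Nat.zero_le _) (hle i)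
    have e2 := g2 _ _ (Nat.zero_le _) (hle i) le_rfl
    rw [g0] at e1
    rw [g1] at e2
    unfold Ng.Btw
    omega
  have ex : ∀ i : Fin 5, ∃ s : Bool × Bool,
      d (g (i.1 * (140 * u))) ((cond s.1 a a' : G) • g (i.1 * (140 * u))) ≤ 8 * u ∧
      d (g (i.1 * (140 * u))) ((cond s.2 b b' : G) • g (i.1 * (140 * u))) ≤ 8 * u := fun i => by
    rcases tube H.xs.gr H.xs.hyp H.xs.inv (H.aps.comm a a' α a2 a5) (hb i) a3 a6 with t | t <;>
      rcases tube H.xs.gr H.xs.hyp H.xs.inv (H.aps.comm b b' β b2 b5) (hb i) b3 b6 with t' | t'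
    · exact ⟨(true, true), by simp only [cond_true]; omega, by simp only [cond_true]; omega⟩
    · exact ⟨(true, false), by simp only [cond_true]; omega, by simp only [cond_false]; omega⟩
    · exact ⟨(false, true), by simp only [cond_false]; omega, by simp only [cond_true]; omega⟩
    · exact ⟨(false, false), by simp only [cond_false]; omega, by simp only [cond_false]; omega⟩
  choose f hf using ex
  have nc : ∀ s : Bool × Bool, ¬ Commute (cond s.1 a a' : G) (cond s.2 b b') := by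
    have key : ∀ p q : G, ¬ Bd d p → p • α = α → ¬ Bd d q → q • β = β → ¬ Commute p q :=
      fun p q p1 p2 q1 q2 hc => hne (H.aps.two q α β q1 (H.aps.cent p q α p1 p2 hc) q2)
    rintro ⟨_ | _, _ | _⟩
    exacts [key _ _ a4 a5 b4 b5, key _ _ a4 a5 b1 b2, key _ _ a1 a2 b4 b5, key _ _ a1 a2 b1 b2]
  have key : ∀ i j : Fin 5, i < j → f i ≠ f j := fun i j hij e => by
    have e1 := hf j
    rw [← e] at e1
    have e2 := H.ai_u _ _ _ _ (nc (f i)) (hf i).1 (hf i).2 e1.1 e1.2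
    have e3 := Nat.mul_le_mul_right (140 * u) (show i.1 + 1 ≤ j.1 from hij)
    rw [Nat.add_mul] at e3
    have e4 := g2 (i.1 * (140 * u)) (j.1 * (140 * u)) (Nat.zero_le _) (by omega) (hle j)
    omega
  obtain ⟨i, j, hij, e⟩ := Fintype.exists_ne_map_eq_of_card_lt f (by decide)
  rcases lt_or_gt_of_ne hij with h | h
  · exact key i j h e
  · exact key j i h e.symm

theorem sep {e : X ⊕ Ω} {f : G} {x x' : X} (h1 : Near d (ShY G d u) (2 * u) e x)
    (h2 : Near d (ShY G d u) (2 * u) e x') (h3 : Near d (ShY G d u) (2 * u) (f • e) x)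
    (h4 : Near d (ShY G d u) (2 * u) (f • e) x') (h : 600 * u < d x x') :
    ∃ α, e = inr α ∧ f • α = α := by
  rcases e with y | α
  · obtain ⟨s, rfl, e1⟩ := h1
    obtain ⟨s', e2, e3⟩ := h2
    obtain rfl : s' = s := e2
    have := H.xs.gr.met.tri x s' x'
    have := H.xs.gr.met.symm s' x'
    omega
  · refine ⟨α, rfl, by_contra fun hne => ?_⟩
    have := H.overlap (Ne.symm hne) (H.near_short h1) (H.near_short h2) (H.near_short h3)
      (H.near_short h4)
    omega

theorem ta {a : G} (ha : ¬ Bd d a) {α : Ω} (hα : a • α = α) {x : X ⊕ Ω} {L : ℕ}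
    (hx : dYY G d u x (a • x) ≤ L) : dYY G d u x (inr α) ≤ L + 105 := by
  have := H.hk
  exact H.qc.1.ta H.act (α := inr α) (congrArg inr hα)
    (fun q hq => H.adj_of (H.sh_of ha hα (by omega))) hx

theorem long {a : G} (ha : ¬ Bd d a) (h : ∀ α : Ω, a • α ≠ α) (x : X) : u < d x (a • x) := by
  by_contra hn
  obtain ⟨ω, hω⟩ := H.aps.ex a ha ⟨x, by omega⟩
  exact h ω hω

/-- `broken_axis`, `Broken.dist`. -/
theorem pow_long {a : G} (hμ : ∀ x : X, u < d x (a • x)) {y : X} (hy : MinP d a y) (M : ℕ) :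
    M * u ≤ 2 * d y (a ^ M • y) := by
  have hk := H.hk
  have h1 := hμ y
  have e := (broken_axis H.xs.gr H.xs.hyp H.xs.inv hy (by omega) M).dist H.xs.gr.met H.xs.hyp
    (by omega) 0 M (by omega)
  simp only [pow_zero, one_smul, Nat.zero_add] at e
  have e1 := Nat.mul_le_mul_left M h1.le
  have e2 := Nat.mul_le_mul_left M (show 2 * (2 * k + k) ≤ u by omega)
  rw [Nat.mul_left_comm] at e2
  omega

theorem pw {a : G} (ha : ¬ Bd d a) (h : ∀ α : Ω, a • α ≠ α) {n : ℕ}
    (hn : (2 * n + 10) * k + 1 ≤ u) {j : ℕ} (hj : 1202 * (n + 1) + 2 ≤ j) (x : X ⊕ Ω) :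
    n < dYY G d u x (a ^ j • x) := by
  have hk := H.hk
  refine H.qc.1.pw H.act (H.long ha h) (M := 1201) hn (fun e y hy h1 h2 h3 h4 => ?_) hj x
  have := H.pow_long (H.long ha h) hy 1201
  obtain ⟨α, -, e⟩ := H.sep h1 h2 h3 h4 (by omega)
  exact h α e

theorem bd_of_bd {a : G} (ha : Bd d a) : Bd (dYY G (Ω := Ω) d u) a :=
  bd_map inl (fun _ _ => rfl) H.qc.1.ι_le ha

theorem bd_of_fix {a : G} {α : Ω} (ha : a • α = α) : Bd (dYY G (Ω := Ω) d u) a :=
  Re.Bd.of_fix (x := inr α) H.qc.1.grB.met (congrArg inr ha)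

/-- Short elements are bounded in the cone-off. -/
theorem bd_of_short {a : G} {x : X} (h : d x (a • x) ≤ u) : Bd (dYY G (Ω := Ω) d u) a := by
  by_cases ha : Bd d a
  · exact H.bd_of_bd ha
  · obtain ⟨ω, hω⟩ := H.aps.ex a ha ⟨x, h⟩
    exact H.bd_of_fix hω

/-- The bounded elements of the cone-off. -/
theorem fix_of_bd (hu : (8 * kY + 14) * k + 1 ≤ u) {a : G} (h : Bd (dYY G (Ω := Ω) d u) a)
    (ha : ¬ Bd d a) : ∃ α : Ω, a • α = α := by
  by_contra hn
  refine not_bd H.qc.1.grB H.qc.1.hypB H.act.invB (g := a ^ (1202 * (4 * kY + 2 + 1) + 2))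
    (fun x => (H.pw ha (not_exists.1 hn) (n := 4 * kY + 2) (by
      rwa [show 2 * (4 * kY + 2) + 10 = 8 * kY + 14 by omega]) le_rfl x).le) ?_
  rw [← zpow_natCast]
  exact h.zpow _

theorem ai (L : ℕ) : AI G (dYY G (Ω := Ω) d u) L (20 * L + 107) :=
  qc_ai H.qc.1 H.act H.xs.ai H.hA H.xs.n2 L

theorem pe1Y (hu : (8 * kY + 14) * k + 1 ≤ u) (L : ℕ) :
    PE1 G (dYY G (Ω := Ω) d u) L (2 * L + 213) := by
  intro g j x hg hj hx i
  have m := H.qc.1.grB.met
  by_cases ha : Bd d g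
  · obtain ⟨y, y1, y2⟩ := qc_ell H.qc.1 H.act H.pe1 H.xs.pos H.hA ha hj hx
    have e1 : dYY G (Ω := Ω) d u (inl y) (g ^ i • inl y) ≤ 1 := H.qc.1.lip _ _ ((y1 i).trans H.hA)
    have e2 := dis_move m H.act.invB (g ^ i) (inl y) x
    have e3 : coneN 2 = 51 := rfl
    have := m.symm x (inl y)
    omega
  · obtain ⟨α, hα⟩ := H.fix_of_bd hu hg ha
    have fx : ∀ i : ℤ, g ^ i • α = α := fun i => (MulAction.stabilizer G α).zpow_mem (x := g) hα i
    have e1 := H.ta (fun h => ha (h.of_zpow H.xs.gr.met H.xs.inv hj)) (fx j) hx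
    have e2 := dis_move m H.act.invB (g ^ i) (inr α) x
    rw [show g ^ i • (inr α : X ⊕ Ω) = inr α from congrArg inr (fx i), m.self] at e2
    have := m.symm x (inr α)
    omega

theorem pe2Y {n : ℕ} (hn : (2 * n + 10) * k + 1 ≤ u) :
    PE2 G (dYY G (Ω := Ω) d u) n (1202 * (n + 1) + 2) := fun _ hg x =>
  (H.pw (fun h => hg (H.bd_of_bd h)) (fun _ h => hg (H.bd_of_fix h)) hn le_rfl x).le

/-- Points `z i` at distance `i * (2 * (CN + 2) * u)` from `q` on a geodesic from `q` to `q'`;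
`coverV`; for an apex use `near_short`, `tube` for the point at distance `(CN + 2) * u` from `z i`,
move both points to the segment from `ξ` to `η` (`hull_nb`-like, distance at most `2 * k`). -/
theorem len {CN : ℕ} {ξ η q q' : X} (hN : NT (fun a : G => Bd d a) d u CN ξ η)
    (hq : Btw d ξ q η) (hq' : Btw d ξ q' η) {b b' : X ⊕ Ω} (h1 : ShY G d u b q) (h2 : ShY G d u b' q') {n : ℕ}
    (hb : dYY G d u b b' ≤ n) (hn : (2 * n + 10) * k + 1 ≤ u) :
    d q q' ≤ (n + 1) * (2 * (CN + 2) * u) := by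
  by_contra hlt
  have hk := H.hk
  have m := H.xs.gr.met
  obtain ⟨g, g0, g1, g2⟩ := H.xs.gr.exists_geo q q'
  have hb' : ∀ s, s ≤ d q q' → Btw d q (g s) q' := fun s hs => by
    have e1 := g2 0 _ le_rfl (Nat.zero_le _) hs
    have e2 := g2 _ _ (Nat.zero_le _) hs le_rfl
    rw [g0] at e1
    rw [g1] at e2
    unfold Ng.Btw
    omega
  have mv : ∀ s, s ≤ d q q' → ∃ w, Btw d ξ w η ∧ d (g s) w ≤ 2 * k := fun s hs => by
    have e : NB d (0 + k) η (g s) ξ := by
      rcases ((hb' s hs).nb m).split m H.xs.hyp η with e | e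
      · exact (e.symm m).out m (hq.symm m)
      · exact e.out m (hq'.symm m)
    obtain ⟨w, w1, w2⟩ := (e.symm m).near H.xs.gr H.xs.hyp
    exact ⟨w, w1, by omega⟩
  have hs : (CN + 2) * u = CN * u + 2 * u := Nat.add_mul _ _ _
  have key : ∀ (a : G) s s', ¬ Bd d a → s + (CN + 2) * u ≤ s' → s' ≤ d q q' →
      d (g s) (a • g s) ≤ 8 * u → d (g s') (a • g s') ≤ 8 * u → False := by
    intro a s s' a1 a2 a3 a4 a5
    obtain ⟨w, w1, w2⟩ := mv s (by omega)
    obtain ⟨w', w3, w4⟩ := mv s' a3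
    have e1 := dis_move m H.xs.inv a (g s) w
    have e2 := dis_move m H.xs.inv a (g s') w'
    have e3 := not_lt.1 fun h => a1 (hN a w w' w1 w3 (by omega) (by omega) h)
    have e4 := g2 s s' (Nat.zero_le _) (by omega) a3
    have e5 := m.tri (g s) w (g s')
    have e6 := m.tri w w' (g s')
    have e7 := m.symm w' (g s')
    omega
  have hs2 : 2 * (CN + 2) * u = 2 * ((CN + 2) * u) := Nat.mul_assoc _ _ _
  rw [hs2] at hlt
  generalize hT : (CN + 2) * u = T at *
  have hle : ∀ i, i ≤ n + 1 → i * (2 * T) ≤ d q q' := fun i hi => by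
    have := Nat.mul_le_mul_right (2 * T) hi
    omega
  have hn' : 0 + (2 * n + 6) * k + 1 ≤ u := by
    have := Nat.mul_le_mul_right k (show 2 * n + 6 ≤ 2 * n + 10 by omega)
    omega
  obtain ⟨e, i, j, hij, hj, n1, n2⟩ := H.qc.1.coverV h1 h2 hb hn' (fun i => g (i * (2 * T)))
    fun i hi => (hb' _ (hle i hi)).nb m
  have e3 := Nat.mul_le_mul_right (2 * T) (show i + 1 ≤ j from hij)
  rw [Nat.add_mul] at e3
  have e4 := hle j hj
  have e5 := g2 (i * (2 * T)) (j * (2 * T)) (Nat.zero_le _) (by omega) e4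
  rcases e with y | α
  · obtain ⟨s, rfl, e1⟩ := n1
    obtain ⟨s', e2, e6⟩ := n2
    obtain rfl : s' = s := e2
    have := m.tri (g (i * (2 * T))) s' (g (j * (2 * T)))
    have := m.symm s' (g (j * (2 * T)))
    omega
  · obtain ⟨a, a1, a2, a3⟩ := H.near_short (n1.mono (by omega))
    obtain ⟨a', a4, a5, a6⟩ := H.near_short (n2.mono (by omega))
    have e6 := g2 (i * (2 * T)) (i * (2 * T) + T) (Nat.zero_le _) (by omega) (by omega)
    have e7 := g2 (i * (2 * T) + T) (j * (2 * T)) (Nat.zero_le _) (by omega) e4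
    have hw : Btw d (g (i * (2 * T))) (g (i * (2 * T) + T)) (g (j * (2 * T))) := by
      unfold Ng.Btw
      omega
    rcases tube H.xs.gr H.xs.hyp H.xs.inv (H.aps.comm a a' α a2 a5) hw a3 a6 with t | t
    · exact key a (i * (2 * T)) (i * (2 * T) + T) a1 le_rfl (by omega) (by omega) (by omega)
    · exact key a' (i * (2 * T) + T) (j * (2 * T)) a4 (by omega) e4 (by omega) (by omega)

/-- A bounded element that is short at the end of a segment turns the segment. -/
theorem corner (hu : (8 * kY + 14) * k + 1 ≤ u) {CN L : ℕ} {Z : G → Prop} {ξ η : X}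
    (hN : NT Z d u CN ξ η) {e : G} (he : Bd (dYY G (Ω := Ω) d u) e) (hZ : ¬ Z e)
    (hL : dYY G (Ω := Ω) d u (inl ξ) (e • inl ξ) ≤ L) :
    dYY G (Ω := Ω) d u (inl ξ) (inl η) + dYY G (Ω := Ω) d u (inl ξ) (e • inl η) ≤
      dYY G (Ω := Ω) d u (inl η) (e • inl η) + cY CN L := by
  by_contra hc
  unfold cY at hc
  have C := H.qc.1
  have m := C.gr.met
  have mY := C.grB.met
  have hk := H.hk
  have hA := H.hA
  have cN : coneN 2 = 51 := rfl
  have t1 := mY.tri (inl ξ) (e • inl ξ) (e • inl η)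
  have t2 := mY.tri (e • inl ξ) (inl ξ) (inl η)
  have t3 := mY.tri (inl ξ) (inl η) (e • inl η)
  have t4 := H.act.invB e (inl ξ) (inl η)
  obtain ⟨q0, a1, a2⟩ := C.exists_at (b := inl ξ) (b' := inl η) rfl rfl
    (s := 3 * L + CN + 4 * kY + 590) (by omega) (by omega)
  obtain ⟨w, w1, w2⟩ := C.near (b := inl ξ) (b' := inl η) rfl rfl a1
  have s0 := mY.symm (inl q0) (inl ξ)
  have e1 : dYY G (Ω := Ω) d u (inl q0) (e • inl q0) ≤ L + 102 + 2 * kY :=
    dis_of_prod mY C.hypB H.act.invB (o := inl ξ) (p := inl η) (by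
      have := mY.tri (inl q0) w (inl ξ)
      have := mY.tri (inl q0) w (inl η)
      have := mY.symm w (inl ξ)
      unfold NB
      omega) hL (by omega)
  by_cases ha : Bd d e
  · have key : ∀ s, L + 2 * kY + 270 ≤ s → s ≤ L + 2 * kY + CN + 271 → ∃ q, Btw d ξ q η ∧
        dYY G (Ω := Ω) d u (inl q) (inl ξ) = s ∧ d q (e • q) ≤ 10 * u := by
      intro s s1 s2
      obtain ⟨q, b1, b2⟩ := C.exists_at (b := inl ξ) (b' := inl q0) rfl rfl (s := s) (by omega)
        (by omega)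
      have := mY.tri (inl q0) (inl q) (inl ξ)
      have := mY.symm (inl q0) (inl q)
      have := qc_ell_mid C H.act H.pe1 H.xs.pos H.hA ha (x := inl ξ) (x' := inl q0)
        (L := L + 102 + 2 * kY) (by omega) e1 rfl rfl b1 (by omega) (by omega)
      have := m.tri q q0 η
      have := m.tri ξ q η
      exact ⟨q, by unfold Ng.Btw; omega, b2, by omega⟩
    obtain ⟨q, b1, b2, b3⟩ := key _ le_rfl (by omega)
    obtain ⟨q', c1, c2, c3⟩ := key _ (by omega) le_rfl
    refine hZ (hN e q q' b1 c1 b3 c3 (not_le.1 fun h => ?_))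
    have := C.ι_le_mul CN q q' h
    have := mY.tri (inl q') (inl q) (inl ξ)
    have := mY.symm (inl q') (inl q)
    omega
  · obtain ⟨α, hα⟩ := H.fix_of_bd hu he ha
    have := H.ta ha hα hL
    have := H.ta ha hα e1
    have := mY.tri (inl q0) (inr α) (inl ξ)
    have := mY.symm (inr α) (inl ξ)
    omega

/-- `QC.flip` with `M = 1`; both flips fix an apex by `sep` (`Flip.far`), so they commute. -/
theorem flip {y c : G} {ξ : X} {l N J : ℕ} (F : Flip d y c ξ l N J) (hN : 602 * u ≤ N)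
    {a b n : ℕ} (hc : ∀ j, j ≤ b → ¬ Commute y (cs y c j)) (ha : l ≤ a) (hb : a + 3 * (n + 1) ≤ b)
    (hu : (b - a) * J + (6 * (n + 1) + 1) * J + (2 * n + 6) * k + 1 ≤ u) :
    n < dYY G (Ω := Ω) d u (inl (eta y c ξ a)) (inl (eta y c ξ b)) := by
  by_contra hn
  have hk := H.hk
  have m := H.xs.gr.met
  have hJ : J ≤ u := by
    have := Nat.mul_le_mul_right J (show 1 ≤ 6 * (n + 1) + 1 by omega)
    omega
  obtain ⟨e, a', a1, a0, a2⟩ := H.qc.1.flip H.act F (b := inl (eta y c ξ a))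
    (b' := inl (eta y c ξ b)) (p := eta y c ξ a) (p' := eta y c ξ b) rfl rfl (n := n) (M := 1)
    (a0 := a) (t := (b - a) * J) (by omega) ha
    (fun j h1 h2 => F.nb m H.xs.inv ha h1 (by omega))
    (by rw [show 2 * ((1 + 2) * (n + 1)) = 6 * (n + 1) by omega]; exact hu)
  have key : ∀ j, j = a' + 1 ∨ j = a' + 1 + 1 → ∃ α, e = inr α ∧ cs y c j • α = α := fun j hj => by
    obtain ⟨n1, n2, n3, n4⟩ := a2 j hj
    have := F.far m H.xs.inv (by omega) (a := a') (b := j) (by omega) (by omega)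
    obtain ⟨α, e1, e2⟩ := H.sep n1 n2 n3 n4 (by omega)
    exact ⟨α, e1, (inv_smul_eq_iff.1 e2).symm⟩
  obtain ⟨α, e1, e2⟩ := key _ (Or.inl rfl)
  obtain ⟨β, e3, e4⟩ := key _ (Or.inr rfl)
  obtain rfl : α = β := inr_injective (e1.symm.trans e3)
  have e5 : Commute (cs y c (a' + 1)) (cs y c (a' + 1) * y * (cs y c (a' + 1))⁻¹) :=
    H.aps.comm _ _ α e2 e4
  refine hc (a' + 1) (by omega) ?_
  simpa [mul_assoc] using (e5.conj (cs y c (a' + 1))⁻¹).symm

end YH

end Pool.Agent.Lib.MP_a2eab4_al.Rc
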