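import Pool.Agent.Lib.MP_a2eab4_al.RdI

set_option autoImplicit false
set_option linter.unusedSectionVars false

/-! Bounded orbits, centres, acylindricity at all scales. -/

namespace Pool.Agent.Lib.MP_a2eab4_al.Re

open Pool.Agent.Lib.MP_429c3d_al Pool.Agent.Lib.MP_429c3d_al.Hyp Pool.Agent.Lib.MP_429c3d_al.Ng

variable {G X : Type} [Group G] [MulAction G X] {d : X → X → ℕ} {k : ℕ}

theorem dis_mul (m : IsMet d) (iso : Isom G d) (a b : G) (x : X) :
    d x ((a * b) • x) ≤ d x (a • x) + d x (b • x) := by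
  have := m.tri x (a • x) ((a * b) • x)
  rwa [mul_smul, iso, ← mul_smul] at this

theorem dis_inv (m : IsMet d) (iso : Isom G d) (a : G) (x : X) :
    d x (a⁻¹ • x) = d x (a • x) := by
  rw [← iso a, smul_inv_smul, m.symm]

theorem dis_move (m : IsMet d) (iso : Isom G d) (g : G) (x y : X) :
    d x (g • x) ≤ d y (g • y) + 2 * d x y := by
  have e1 := m.tri x y (g • x)
  have e2 := m.tri y (g • y) (g • x)
  have e3 := m.symm y x
  rw [iso] at e2
  omega

theorem dis_conj (iso : Isom G d) (g h : G) (x : X) :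
    d (h • x) ((h * g * h⁻¹) • h • x) = d x (g • x) := by
  rw [smul_smul, inv_mul_cancel_right, mul_smul, iso]

theorem dis_btw (gr : IsGr d) (hyp : Hyp4 d k) (iso : Isom G d) (g : G) {x z x' : X} {B : ℕ}
    (hz : d x z + d z x' = d x x') (h : d x (g • x) ≤ B) (h' : d x' (g • x') ≤ B) :
    d z (g • z) ≤ B + 10 * (k + 1) :=
  ((sp_of gr hyp iso).conv g hz h h').trans (by omega)

theorem root_short (gr : IsGr d) (hyp : Hyp4 d k) (iso : Isom G d) (g : G) (j : ℕ) (hj : j ≠ 0)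
    {x : X} {B : ℕ} (h : d x (g ^ j • x) ≤ B) :
    ∃ x' : X, d x' (g • x') ≤ B + 50 * (k + 1) ∧ d x' (g ^ j • x') ≤ B + 50 * (k + 1) := by
  have S := sp_of gr hyp iso
  obtain ⟨x0, h0⟩ := S.mu_le_of_pow g hj x
  obtain ⟨p, hp, -⟩ := S.exists_gt g (K := B + 8 * (k + 1) + 2) (y := x0) (by omega) x
  have := S.gt_short hp (Commute.self_pow g j).symm
  have := hp.sh
  exact ⟨p, by omega, by omega⟩

theorem lox_near (gr : IsGr d) (hyp : Hyp4 d k) (iso : Isom G d) (g : G) {P B : ℕ}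
    (hP : ∀ x : X, 100 * (k + 1) ≤ d x (g ^ P • x)) {x x' : X} (h : d x (g • x) ≤ B)
    (h' : d x' (g • x') ≤ B) : ∃ i : ℤ, d x (g ^ i • x') ≤ 100 * (P + 1) * (B + k + 1) := by
  have S := sp_of gr hyp iso
  obtain ⟨x0, h0⟩ := exists_min d (g ^ P) x
  have b := hP x0
  obtain ⟨R, hR⟩ : ∃ R, R = d x0 (g ^ P • x0) + d x0 x + d x0 x' := ⟨_, rfl⟩
  obtain ⟨γ, ty, H⟩ := S.exists_ax h0 (by omega) (R := R) (by omega)
  obtain ⟨i, i1, i2, i3, -⟩ := S.ax_near H x (by omega)
  have t1 := H.ty1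
  have t2 := H.ty2
  obtain ⟨T, rfl⟩ : ∃ T : ℕ, ty = T := ⟨ty.toNat, by omega⟩
  obtain ⟨n, j, j1, j2, j3⟩ := S.ax_norm H (Commute.refl _) (by omega) (by omega) H.tly (T := T)
    (abs_of_nonneg (by omega)).symm (by omega) x' (by omega) (l := i) (by omega) (by omega)
  refine ⟨P * n, ?_⟩
  rw [zpow_mul, zpow_natCast]
  have e1 := (S.dis_pow g x P).trans (Nat.mul_le_mul_left P h)
  have e2 := (S.dis_pow g x' P).trans (Nat.mul_le_mul_left P h')
  have e3 := H.gz.lip' i j (T + 3 * (k + 1)) (by omega) (by omega)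
  have e4 := S.tri x (γ i) ((g ^ P) ^ n • x')
  have e5 := S.tri (γ i) (γ j) ((g ^ P) ^ n • x')
  have e6 := S.symm (γ j) ((g ^ P) ^ n • x')
  have e7 := h0 x
  have e8 : 100 * (P + 1) * (B + k + 1) =
      100 * (P * B) + 100 * (P * (k + 1) + B) + 100 * (k + 1) := by ring
  omega

/-- A group with a bounded orbit has an almost fixed point nearby. -/
theorem centre (gr : IsGr d) (hyp : Hyp4 d k) (iso : Isom G d) (K : Subgroup G) {x : X} {M : ℕ}
    (h : ∀ g ∈ K, d x (g • x) ≤ M) : ∃ p, d x p ≤ M ∧ ∀ g ∈ K, d p (g • p) ≤ 2 * k + 1 := by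
  classical
  have m := gr.met
  have ex : ∃ n, ∃ p, ∀ g ∈ K, d p (g • x) ≤ n := ⟨M, x, h⟩
  obtain ⟨p, hp⟩ := Nat.find_spec ex
  have hle : Nat.find ex ≤ M := Nat.find_min' ex ⟨x, h⟩
  have h1 := hp 1 K.one_mem
  rw [one_smul, m.symm] at h1
  refine ⟨p, h1.trans hle, fun a ha => ?_⟩
  by_contra hc
  obtain ⟨u, u1, u2⟩ := gr.geo.mid m p (a • p) (s := d p (a • p) / 2) (by omega)
  have key : ∀ g ∈ K, d u (g • x) + 1 ≤ Nat.find ex := by
    intro g hg
    have e1 := hp g hg
    have e2 := hp (a⁻¹ * g) (K.mul_mem (K.inv_mem ha) hg)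
    rw [mul_smul, ← iso a, smul_inv_smul] at e2
    have e3 := hyp u (g • x) p (a • p)
    have := m.symm u p
    have := m.symm (g • x) p
    have := m.symm (g • x) (a • p)
    omega
  have k1 := key 1 K.one_mem
  have := Nat.find_min' ex (m := Nat.find ex - 1) ⟨u, fun g hg => by have := key g hg; omega⟩
  omega

namespace Bd

theorem any (m : IsMet d) (iso : Isom G d) {g : G} (h : Bd d g) (x : X) :
    ∃ M, ∀ i : ℤ, d x (g ^ i • x) ≤ M := by
  obtain ⟨y, M, h⟩ := h
  exact ⟨M + 2 * d x y, fun i => by have := dis_move m iso (g ^ i) x y; have := h i; omega⟩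

theorem conj (iso : Isom G d) {g : G} (h : Bd d g) (a : G) : Bd d (a * g * a⁻¹) := by
  obtain ⟨y, M, h⟩ := h
  exact ⟨a • y, M, fun i => by rw [conj_zpow, dis_conj iso]; exact h i⟩

theorem of_conj (iso : Isom G d) {g a : G} (h : Bd d (a * g * a⁻¹)) : Bd d g := by
  simpa [mul_assoc] using h.conj iso a⁻¹

theorem zpow {g : G} (h : Bd d g) (j : ℤ) : Bd d (g ^ j) := by
  obtain ⟨y, M, h⟩ := h
  exact ⟨y, M, fun i => by rw [← zpow_mul]; exact h _⟩

theorem inv {g : G} (h : Bd d g) : Bd d g⁻¹ := by simpa using h.zpow (-1)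

theorem mul (m : IsMet d) (iso : Isom G d) {a b : G} (c : Commute a b) (ha : Bd d a)
    (hb : Bd d b) : Bd d (a * b) := by
  obtain ⟨y, M, h⟩ := ha
  obtain ⟨M', h'⟩ := hb.any m iso y
  refine ⟨y, M + M', fun i => ?_⟩
  rw [c.mul_zpow]
  have := dis_mul m iso (a ^ i) (b ^ i) y
  have := h i
  have := h' i
  omega

theorem of_zpow (m : IsMet d) (iso : Isom G d) {g : G} {j : ℤ} (hj : j ≠ 0) (h : Bd d (g ^ j)) :
    Bd d g := by
  obtain ⟨y, M, h⟩ := h
  refine ⟨y, M + ∑ s ∈ Finset.range j.natAbs, d y (g ^ s • y), fun i => ?_⟩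
  have e1 := Int.emod_nonneg i hj
  have e2 := Int.emod_lt_abs i hj
  obtain ⟨s, hs⟩ : ∃ s : ℕ, i % j = s := ⟨(i % j).toNat, by omega⟩
  have e3 : g ^ i = (g ^ j) ^ (i / j) * g ^ s := by
    rw [← zpow_mul, ← zpow_natCast, ← zpow_add, ← hs, Int.mul_ediv_add_emod]
  have e4 := dis_mul m iso ((g ^ j) ^ (i / j)) (g ^ s) y
  have e5 := h (i / j)
  have e6 : d y (g ^ s • y) ≤ ∑ s ∈ Finset.range j.natAbs, d y (g ^ s • y) :=
    Finset.single_le_sum (f := fun s => d y (g ^ s • y)) (fun _ _ => Nat.zero_le _)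
      (Finset.mem_range.2 (by rw [Int.abs_eq_natAbs] at e2; omega))
  rw [e3]
  omega

theorem of_pow (m : IsMet d) (iso : Isom G d) {g : G} {j : ℕ} (hj : j ≠ 0) (h : Bd d (g ^ j)) :
    Bd d g := of_zpow m iso (j := j) (by omega) (by rwa [zpow_natCast])

theorem centre (gr : IsGr d) (hyp : Hyp4 d k) (iso : Isom G d) {g : G} (h : Bd d g) :
    ∃ p, ∀ i : ℤ, d p (g ^ i • p) ≤ 2 * k + 1 := by
  obtain ⟨y, M, h⟩ := h
  obtain ⟨p, -, hp⟩ := Re.centre gr hyp iso (Subgroup.zpowers g) (x := y) (M := M) (by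
    rintro _ ⟨i, rfl⟩
    exact h i)
  exact ⟨p, fun i => hp _ ⟨i, rfl⟩⟩

theorem of_sub {K : Subgroup G} {x : X} {M : ℕ} (h : ∀ g ∈ K, d x (g • x) ≤ M) {g : G}
    (hg : g ∈ K) : Bd d g := ⟨x, M, fun i => h _ (K.zpow_mem hg i)⟩

theorem of_fix (m : IsMet d) {g : G} {x : X} (h : g • x = x) : Bd d g :=
  ⟨x, 0, fun i => by
    rw [show g ^ i • x = x from (MulAction.stabilizer G x).zpow_mem h i, m.self]⟩

end Bd

theorem comm_closure {s : Set G} (h : ∀ a ∈ s, ∀ b ∈ s, Commute a b) :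
    ∀ a ∈ Subgroup.closure s, ∀ b ∈ Subgroup.closure s, Commute a b := by
  have key : ∀ (t : Set G) (b : G), (∀ a ∈ t, Commute a b) → ∀ a ∈ Subgroup.closure t,
      Commute a b := by
    intro t b ht a ha
    induction ha using Subgroup.closure_induction with
    | mem a ha => exact ht a ha
    | one => exact Commute.one_left b
    | mul a a' _ _ h1 h2 => exact h1.mul_left h2
    | inv a _ h1 => exact h1.inv_left
  intro a ha b hb
  exact key s b (fun a' ha' => (key s a' (fun b' hb' => h b' hb' a' ha') b hb).symm) a ha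

/-- Finitely many commuting elliptic elements generate a group with bounded orbits. -/
theorem bd_closure (m : IsMet d) (iso : Isom G d) (x : X) (s : Finset G)
    (hc : ∀ a ∈ s, ∀ b ∈ s, Commute a b) (hb : ∀ a ∈ s, Bd d a) :
    ∃ M, ∀ g ∈ Subgroup.closure (s : Set G), d x (g • x) ≤ M := by
  classical
  induction s using Finset.induction_on with
  | empty => exact ⟨0, fun g hg => by
      rw [Finset.coe_empty, Subgroup.closure_empty, Subgroup.mem_bot] at hg
      rw [hg, one_smul, m.self]⟩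
  | insert a s ha ih =>
    obtain ⟨M, hM⟩ := ih (fun a ha b hb => hc a (by simp [ha]) b (by simp [hb]))
      fun a ha => hb a (by simp [ha])
    obtain ⟨M', hM'⟩ := (hb a (by simp)).any m iso x
    have cc := comm_closure (s := ((insert a s : Finset G) : Set G)) hc
    have sub : Subgroup.closure (s : Set G) ≤
        Subgroup.closure ((insert a s : Finset G) : Set G) :=
      Subgroup.closure_mono (by simp)
    have am : a ∈ Subgroup.closure ((insert a s : Finset G) : Set G) :=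
      Subgroup.subset_closure (by simp)
    have key : ∀ g ∈ Subgroup.closure ((insert a s : Finset G) : Set G),
        ∃ i : ℤ, ∃ h ∈ Subgroup.closure (s : Set G), g = a ^ i * h := by
      intro g hg
      induction hg using Subgroup.closure_induction with
      | mem b hb =>
        rcases Finset.mem_insert.1 (Finset.mem_coe.1 hb) with rfl | hb
        · exact ⟨1, 1, Subgroup.one_mem _, by simp⟩
        · exact ⟨0, b, Subgroup.subset_closure hb, by simp⟩
      | one => exact ⟨0, 1, Subgroup.one_mem _, by simp⟩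
      | mul b b' _ _ h1 h2 =>
        obtain ⟨i, h, hh, rfl⟩ := h1
        obtain ⟨i', h', hh', rfl⟩ := h2
        refine ⟨i + i', h * h', Subgroup.mul_mem _ hh hh', ?_⟩
        have c := ((cc h (sub hh) a am).zpow_right i').eq
        rw [zpow_add, mul_assoc, ← mul_assoc h, c]
        simp only [mul_assoc]
      | inv b _ h1 =>
        obtain ⟨i, h, hh, rfl⟩ := h1
        refine ⟨-i, h⁻¹, Subgroup.inv_mem _ hh, ?_⟩
        have c := ((cc h (sub hh) a am).zpow_right i).inv_inv.eq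
        rw [mul_inv_rev, c, zpow_neg]
    refine ⟨M' + M, fun g hg => ?_⟩
    obtain ⟨i, h, hh, rfl⟩ := key g hg
    have := dis_mul m iso (a ^ i) h x
    have := hM h hh
    have := hM' i
    omega

theorem comm_of_eq_one {a b : G} (h : a * b * a⁻¹ * b⁻¹ = 1) : Commute a b := by
  rw [mul_inv_eq_one, mul_inv_eq_iff_eq_mul] at h
  exact h

/-- Acylindricity at all scales. -/
theorem ai_scale (S : Sp G d k) {A : ℕ} (ai : AI G d (100 * k) A) (n2 : N2 G) {a b : G}
    {x x' : X} {B : ℕ} (hab : ¬ Commute a b) (h1 : d x (a • x) ≤ B) (h2 : d x (b • x) ≤ B)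
    (h3 : d x' (a • x') ≤ B) (h4 : d x' (b • x') ≤ B) : d x x' ≤ A + 10 * B := by
  by_contra hc
  obtain ⟨γ, hγ, g0, g1⟩ := exists_gz S.gr x x'
  obtain ⟨t, -, t1, t2, ht⟩ := S.trans_geo hγ a (s := B) (by rwa [g0]) (by rwa [g1]) (by omega)
  obtain ⟨t', -, t3, t4, ht'⟩ := S.trans_geo hγ b (s := B) (by rwa [g0]) (by rwa [g1]) (by omega)
  have Ta : Tl d γ (3 * k) a t B (d x x' - B) := fun i _ _ => ht i (by omega) (by omega)
  have Tb : Tl d γ (3 * k) b t' B (d x x' - B) := fun i _ _ => ht' i (by omega) (by omega)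
  obtain ⟨η, hη⟩ : ∃ η, η = a * b * a⁻¹ * b⁻¹ := ⟨_, rfl⟩
  have sh : ∀ i : ℤ, 3 * B ≤ i → i + 3 * B ≤ d x x' → d (γ i) (η • γ i) ≤ 4 * (3 * k) :=
    fun i _ _ => hη ▸ S.comm_short Ta Tb t1 t2 t3 t4 (by omega) (by omega)
  have key : ∀ (g : G) (s : ℤ), -(B : ℤ) ≤ s → s ≤ B → Tl d γ (3 * k) g s B (d x x' - B) →
      Commute g η := by
    intro g s s1 s2 hg
    have step : ∀ (μ : G) (n e : ℕ), 1 ≤ n → (∀ i : ℤ, n * B ≤ i → i + n * B ≤ d x x' →
        d (γ i) (μ • γ i) ≤ e) → ∀ i : ℤ, n * B + B ≤ i → i + (n * B + B) ≤ d x x' →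
        d (γ i) ((g * μ * g⁻¹) • γ i) ≤ e + 6 * k := by
      intro μ n e hn hμ i _ _
      have e0 : (B : ℤ) ≤ n * B := le_mul_of_one_le_left (by omega) (by omega)
      have e1 := S.conj_short (a := g) (η := μ) (x := γ (i - s)) (y := γ i)
      have e2 := hμ (i - s) (by omega) (by omega)
      have e3 := hg (i - s) (by omega) (by omega)
      rw [sub_add_cancel] at e3
      omega
    have s3 := step η 3 _ (by omega) sh
    have s4 := step _ 4 _ (by omega) fun i _ _ => s3 i (by omega) (by omega)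
    have fin : ∀ μ : G, (∀ i : ℤ, 5 * B ≤ i → i + 5 * B ≤ d x x' →
        d (γ i) (μ • γ i) ≤ 100 * k) → Commute η μ := by
      intro μ hμ
      by_contra hn
      have e1 := sh (5 * B) (by omega) (by omega)
      have e2 := sh (d x x' - 5 * B) (by omega) (by omega)
      have e3 := ai _ _ (γ (5 * B)) (γ (d x x' - 5 * B)) hn (by omega) (hμ _ le_rfl (by omega))
        (by omega) (hμ _ (by omega) (by omega))
      have := hγ.le (i := 5 * B) (j := d x x' - 5 * B) (by omega) (by omega) (by omega)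
      omega
    exact n2 η g (fin _ fun i _ _ => (s3 i (by omega) (by omega)).trans (by omega))
      (fin _ fun i _ _ => (s4 i (by omega) (by omega)).trans (by omega))
  have ca := key a t t1 t2 Ta
  have cb := key b t' t3 t4 Tb
  have e1 : a * b * a⁻¹ = η * b := by rw [hη]; group
  refine hab (n2 b a (e1 ▸ cb.mul_right (Commute.refl b)) ?_)
  rw [e1, show a * (η * b) * a⁻¹ = a * η * a⁻¹ * (a * b * a⁻¹) by group, ca.mul_inv_cancel, e1]
  exact cb.mul_right (cb.mul_right (Commute.refl b))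

end Pool.Agent.Lib.MP_a2eab4_al.Re
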