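import Pool.Agent.Lib.MP_a2eab4_al.RdA

set_option autoImplicit false
set_option linter.unusedSectionVars false

/-! From elliptic elements to all elements. -/

namespace Pool.Agent.Lib.MP_a2eab4_al.Re

open Pool.Agent.Lib.MP_429c3d_al Pool.Agent.Lib.MP_429c3d_al.Hyp Pool.Agent.Lib.MP_429c3d_al.Ng

variable {G X : Type} [Group G] [MulAction G X] {d : X → X → ℕ} {k A P : ℕ}

theorem conj_zpow_left {a c ν : G} (h : a * c * a⁻¹ = ν * c) (cn : Commute a ν) (i : ℤ) :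
    a ^ i * c * (a ^ i)⁻¹ = ν ^ i * c := by
  induction i using Int.induction_on with
  | zero => simp
  | succ i ih =>
    calc a ^ ((i : ℤ) + 1) * c * (a ^ ((i : ℤ) + 1))⁻¹
        = a * (a ^ (i : ℤ) * c * (a ^ (i : ℤ))⁻¹) * a⁻¹ := by group
      _ = a * ν ^ (i : ℤ) * a⁻¹ * (a * c * a⁻¹) := by rw [ih]; group
      _ = _ := by rw [(cn.zpow_right _).mul_inv_cancel, h]; group
  | pred i ih =>
    have h' : a⁻¹ * c * a = ν⁻¹ * c := by
      have e : c = a⁻¹ * ν * a * (a⁻¹ * c * a) := by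
        calc c = a⁻¹ * (a * c * a⁻¹) * a := by group
          _ = _ := by rw [h]; group
      rw [cn.inv_left.eq, inv_mul_cancel_right] at e
      exact eq_inv_mul_iff_mul_eq.2 e.symm
    calc a ^ (-(i : ℤ) - 1) * c * (a ^ (-(i : ℤ) - 1))⁻¹
        = a⁻¹ * (a ^ (-(i : ℤ)) * c * (a ^ (-(i : ℤ)))⁻¹) * a := by group
      _ = a⁻¹ * ν ^ (-(i : ℤ)) * a * (a⁻¹ * c * a) := by rw [ih]; group
      _ = _ := by rw [(cn.zpow_right _).inv_left.eq, inv_mul_cancel_right, h']; group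

theorem heis_zpow {a b η : G} (h : a * b * a⁻¹ = η * b) (ca : Commute a η) (cb : Commute b η)
    (i j : ℤ) : a ^ i * b ^ j = η ^ (j * i) * b ^ j * a ^ i := by
  have e1 : a * b ^ j * a⁻¹ = η ^ j * b ^ j := by rw [← conj_zpow, h, cb.symm.mul_zpow]
  rw [zpow_mul, ← conj_zpow_left e1 (ca.zpow_right j) i, inv_mul_cancel_right]

theorem heis_pow {a b η : G} (h : a * b * a⁻¹ = η * b) (ca : Commute a η) (cb : Commute b η)
    (r s : ℤ) (n : ℕ) : ∃ m : ℤ, (a ^ r * b ^ s) ^ n = η ^ m * a ^ (r * n) * b ^ (s * n) := by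
  induction n with
  | zero => exact ⟨0, by simp⟩
  | succ n ih =>
    obtain ⟨m, hm⟩ := ih
    have e := heis_zpow h ca cb r (s * n)
    have e' : b ^ (s * n) * a ^ r = (η ^ (s * n * r))⁻¹ * (a ^ r * b ^ (s * n)) := by
      rw [e]; group
    have c := ((ca.zpow_zpow (r * n) (s * n * r)).inv_right).eq
    refine ⟨m - s * n * r, ?_⟩
    calc (a ^ r * b ^ s) ^ (n + 1) = η ^ m * a ^ (r * n) * (b ^ (s * n) * a ^ r) * b ^ s := by
          rw [pow_succ, hm]; group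
      _ = η ^ m * (a ^ (r * n) * (η ^ (s * n * r))⁻¹) * (a ^ r * b ^ (s * n)) * b ^ s := by
          rw [e']; group
      _ = _ := by rw [c]; push_cast; group

/-- The assumptions: the algebraic properties are known for elliptic elements. -/
structure LX (G : Type) {X : Type} [Group G] [MulAction G X] (d : X → X → ℕ) (k A P : ℕ) : Prop
    extends Sp G d k where
  ne : Nonempty X
  tf : TF G
  ai : AI G d (100 * k) A
  di : PE2 G d (100 * k) P
  n2e : ∀ g h : G, Bd d g → Commute g (h * g * h⁻¹) → Commute g (h * (h * g * h⁻¹) * h⁻¹) →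
    Commute h g
  rge : ∀ (g h : G) (j : ℕ), Bd d g → j ≠ 0 → Commute h (g ^ j) → Commute h g

namespace LX

variable (S : LX G d k A P)
include S

theorem bd_of {g : G} {x : X} (h : d x (g ^ P • x) < 100 * k) : Bd d g := by
  by_contra hn
  have := S.di g hn x
  omega

theorem lox {g : G} (h : ¬ Bd d g) (x : X) : 20 * k ≤ d x (g ^ P • x) :=
  le_trans (by omega) (S.di g h x)

/-- The pigeonhole argument along an axis. -/
theorem pigeon {a b η : G} (h : a * b * a⁻¹ = η * b) (ca : Commute a η) (cb : Commute b η)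
    (hη : Bd d η) (hb : ¬ Bd d b) : ∃ r s : ℤ, r ≠ 0 ∧ Bd d (a ^ r * b ^ s) := by
  have Q := S.toSp
  have kp := Q.pos
  obtain ⟨x1, h1⟩ := hη.centre Q.gr Q.hyp Q.inv
  obtain ⟨x0, h0⟩ := exists_min d (b ^ P) x1
  obtain ⟨μ, hμ⟩ : ∃ μ, μ = d x0 (b ^ P • x0) := ⟨_, rfl⟩
  have big := S.di b hb x0
  obtain ⟨p, hp, -⟩ := Q.exists_gt (b ^ P) (K := μ + 3 * k + 2) (y := x0) (by omega) x1
  have sp : ∀ m : ℤ, d p (η ^ m • p) ≤ 23 * k + 1 := fun m => by
    have := Q.gt_short hp ((cb.symm.zpow_left m).pow_right P)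
    have := h1 m
    omega
  obtain ⟨u, hu⟩ : ∃ u : ℕ → X, ∀ i, u i = (a ^ ((P * i : ℕ) : ℤ))⁻¹ • p := ⟨_, fun _ => rfl⟩
  have su : ∀ i, d (u i) (b ^ P • u i) ≤ μ + 26 * k + 3 := fun i => by
    have e := heis_zpow h ca cb ((P * i : ℕ) : ℤ) (P : ℤ)
    rw [hu, ← Q.dis_conj', ← zpow_natCast b P, e, mul_inv_cancel_right]
    have := Q.dis_mul (η ^ ((P : ℤ) * ((P * i : ℕ) : ℤ))) (b ^ (P : ℤ)) p
    have := sp ((P : ℤ) * ((P * i : ℕ) : ℤ))
    have := hp.sh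
    rw [← zpow_natCast b P] at this
    omega
  obtain ⟨M, hM⟩ : ∃ M, M = 2 * (μ + 3 * k) + 2 := ⟨_, rfl⟩
  obtain ⟨R, hR⟩ : ∃ R, R = μ + ∑ i ∈ Finset.range M, d x0 (u i) := ⟨_, rfl⟩
  obtain ⟨γ, ty, H⟩ := Q.exists_ax h0 (by omega) (R := R) (by omega)
  have t1 := H.ty1
  have t2 := H.ty2
  obtain ⟨T, rfl⟩ : ∃ T : ℕ, ty = T := ⟨ty.toNat, by omega⟩
  have nrm : ∀ i, i < M → ∃ n j : ℤ, 2 * d ((b ^ P) ^ n • u i) (γ j) ≤ 45 * k + 3 ∧
      j ∈ Finset.Icc (-(μ + 3 * k : ℤ)) (μ + 3 * k) := by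
    intro i hi
    have e : d x0 (u i) ≤ ∑ i ∈ Finset.range M, d x0 (u i) :=
      Finset.single_le_sum (f := fun i => d x0 (u i)) (fun _ _ => Nat.zero_le _)
        (Finset.mem_range.2 hi)
    obtain ⟨n, j, j1, j2, j3⟩ := Q.ax_norm H (Commute.refl _) (by omega) (by omega) H.tly (T := T)
      (abs_of_nonneg (by omega)).symm (by omega) (u i) (by omega) (l := 0) (by omega) (by omega)
    have := su i
    exact ⟨n, j, by omega, Finset.mem_Icc.2 ⟨by omega, by omega⟩⟩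
  choose! n j hn hj using nrm
  obtain ⟨i, hi, i', hi', hne, e⟩ := Finset.exists_ne_map_eq_of_card_lt_of_maps_to
    (s := Finset.range M) (t := Finset.Icc (-(μ + 3 * k : ℤ)) (μ + 3 * k)) (f := j)
    (by rw [Finset.card_range, Int.card_Icc]; omega) fun i hi => hj i (Finset.mem_range.1 hi)
  have a1 := hn i (Finset.mem_range.1 hi)
  have a2 := hn i' (Finset.mem_range.1 hi')
  rw [← e] at a2
  have a3 := Q.tri ((b ^ P) ^ n i • u i) (γ (j i)) ((b ^ P) ^ n i' • u i')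
  have a4 := Q.symm (γ (j i)) ((b ^ P) ^ n i' • u i')
  have a5 : d ((b ^ P) ^ n i • u i) ((b ^ P) ^ n i' • u i') =
      d p ((a ^ ((P * i : ℕ) : ℤ) * b ^ ((n i' - n i) * P) * (a ^ ((P * i' : ℕ) : ℤ))⁻¹) • p) := by
    rw [hu, hu, ← Q.inv_r, Q.inv_l, smul_smul, smul_smul, smul_smul, ← zpow_natCast b P]
    congr 2
    group
  refine ⟨(i : ℤ) - i', n i' - n i, by omega, S.bd_of (x := p) ?_⟩
  obtain ⟨m, hm⟩ := heis_pow h ca cb ((i : ℤ) - i') (n i' - n i) P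
  have e1 := heis_zpow h ca cb (((i : ℤ) - i') * P) ((n i' - n i) * P)
  have e2 := heis_zpow h ca cb ((P * i : ℕ) : ℤ) ((n i' - n i) * P)
  obtain ⟨m1, hm1⟩ : ∃ m1, m1 = (n i' - n i) * P * (((i : ℤ) - i') * P) := ⟨_, rfl⟩
  obtain ⟨m2, hm2⟩ : ∃ m2, m2 = (n i' - n i) * P * ((P * i : ℕ) : ℤ) := ⟨_, rfl⟩
  rw [← hm1] at e1
  rw [← hm2] at e2
  have e3 : (a ^ ((i : ℤ) - i') * b ^ (n i' - n i)) ^ P = η ^ (m + m1 - m2) *
      (a ^ ((P * i : ℕ) : ℤ) * b ^ ((n i' - n i) * P) * (a ^ ((P * i' : ℕ) : ℤ))⁻¹) := by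
    rw [hm, mul_assoc, e1, e2]
    push_cast
    group
  have := Q.dis_mul (η ^ (m + m1 - m2))
    (a ^ ((P * i : ℕ) : ℤ) * b ^ ((n i' - n i) * P) * (a ^ ((P * i' : ℕ) : ℤ))⁻¹) p
  have := sp (m + m1 - m2)
  rw [e3]
  omega

/-- No Heisenberg group with elliptic centre. -/
theorem heis {a b η : G} (h : a * b * a⁻¹ = η * b) (ca : Commute a η) (cb : Commute b η)
    (hη : Bd d η) : Commute a b := by
  by_cases hb : Bd d b
  · refine S.n2e b a hb (h ▸ cb.mul_right (Commute.refl b)) ?_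
    rw [h, show a * (η * b) * a⁻¹ = a * η * a⁻¹ * (a * b * a⁻¹) by group, ca.mul_inv_cancel, h]
    exact cb.mul_right (cb.mul_right (Commute.refl b))
  obtain ⟨r, s, hr, hw⟩ := S.pigeon h ca cb hη hb
  have e := heis_zpow h ca cb r 1
  rw [zpow_one, one_mul] at e
  have cw : Commute (a ^ r * b ^ s) (η ^ r)⁻¹ :=
    ((ca.zpow_zpow r r).mul_left (cb.zpow_zpow s r)).inv_right
  have e1 : b * (a ^ r * b ^ s) * b⁻¹ = (η ^ r)⁻¹ * (a ^ r * b ^ s) := by
    calc _ = (η ^ r)⁻¹ * (η ^ r * b * a ^ r) * b ^ s * b⁻¹ := by group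
      _ = _ := by rw [← e]; group
  have c := S.n2e (a ^ r * b ^ s) b hw (e1 ▸ cw.mul_right (Commute.refl _)) (by
    rw [e1, show b * ((η ^ r)⁻¹ * (a ^ r * b ^ s)) * b⁻¹ =
      b * (η ^ r)⁻¹ * b⁻¹ * (b * (a ^ r * b ^ s) * b⁻¹) by group,
      (cb.zpow_right r).inv_right.mul_inv_cancel, e1]
    exact cw.mul_right (cw.mul_right (Commute.refl _)))
  rw [c.mul_inv_cancel] at e1
  have e2 : η ^ r = 1 := inv_eq_one.1 (mul_eq_right.1 e1.symm)
  have e3 : η = 1 := by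
    by_contra hn
    exact hr (S.tf.zpow_eq hn e2)
  rw [e3, one_mul, mul_inv_eq_iff_eq_mul] at h
  exact h

/-- The centraliser of a loxodromic element is abelian. -/
theorem cent {y a c : G} (hy : ∀ x, 20 * k ≤ d x (y • x)) (ca : Commute a y) (cc : Commute c y) :
    Commute a c := by
  have Q := S.toSp
  have kp := Q.pos
  obtain ⟨x⟩ := S.ne
  have cm : ∀ {a b : G}, Commute a y → Commute b y → Commute (a * b * a⁻¹ * b⁻¹) y :=
    fun h1 h2 => ((h1.mul_left h2).mul_left h1.inv_left).mul_left h2.inv_left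
  have cj : ∀ {a b : G}, Commute a y → Commute b y → Commute (a * b * a⁻¹) y :=
    fun h1 h2 => (h1.mul_left h2).mul_left h1.inv_left
  have two : ∀ {a b h : G}, Commute a y → Commute b y → Commute h y →
      Commute (a * b * a⁻¹ * b⁻¹) (h * (a * b * a⁻¹ * b⁻¹) * h⁻¹) := by
    intro a b h h1 h2 h3
    have := Q.comm_lox₂ S.ai hy x h1 h2 (cj h3 h1) (cj h3 h2)
    rwa [show h * a * h⁻¹ * (h * b * h⁻¹) * (h * a * h⁻¹)⁻¹ * (h * b * h⁻¹)⁻¹ =
      h * (a * b * a⁻¹ * b⁻¹) * h⁻¹ by group] at this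
  have ctr : ∀ {a b h : G}, Commute a y → Commute b y → Commute h y → Bd d (a * b * a⁻¹ * b⁻¹) →
      Commute h (a * b * a⁻¹ * b⁻¹) := by
    intro a b h h1 h2 h3 hb
    refine S.n2e _ h hb (two h1 h2 h3) ?_
    have := two h1 h2 (h3.mul_left h3)
    rwa [show h * h * (a * b * a⁻¹ * b⁻¹) * (h * h)⁻¹ =
      h * (h * (a * b * a⁻¹ * b⁻¹) * h⁻¹) * h⁻¹ by group] at this
  have cη := cm ca cc
  have key : ∀ h : G, Commute h y → Commute h (a * c * a⁻¹ * c⁻¹) := by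
    intro h ch
    obtain ⟨z, hz⟩ := Q.comm_lox hy x ch (cη.pow_left P)
    have hb : Bd d (h * (a * c * a⁻¹ * c⁻¹) * h⁻¹ * (a * c * a⁻¹ * c⁻¹)⁻¹) := by
      refine S.bd_of (x := z) ?_
      rw [(two ca cc ch).symm.inv_right.mul_pow, conj_pow, inv_pow]
      omega
    exact S.heis (inv_mul_cancel_right _ _).symm (ctr ch cη ch hb) (ctr ch cη cη hb) hb
  obtain ⟨z, hz⟩ := Q.comm_lox hy x (ca.pow_left P) cc
  have e0 : a * c * a⁻¹ = a * c * a⁻¹ * c⁻¹ * c := by group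
  have e1 := conj_zpow_left e0 (key a ca) P
  refine S.heis e0 (key a ca) (key c cc) (S.bd_of (x := z) ?_)
  rw [zpow_natCast, zpow_natCast] at e1
  rw [e1, mul_inv_cancel_right] at hz
  omega

theorem rg : RG G := by
  intro g h j hj c
  by_cases hb : Bd d g
  · exact S.rge g h j hb hj c
  · exact S.cent (S.lox fun e => hb (e.of_pow S.gr.met S.inv hj)) (c.pow_right P)
      ((Commute.self_pow g j).pow_right P)

theorem csa {g h : G} (hb : ¬ Bd d g) (c : Commute (h * g * h⁻¹) g) : Commute h g := by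
  have Q := S.toSp
  have kp := Q.pos
  obtain ⟨x⟩ := S.ne
  have hy := S.lox hb
  have hy' := S.lox fun e : Bd d (h * g * h⁻¹) => hb (e.of_conj S.inv)
  have nrm : ∀ z : G, Commute z (g ^ P) → Commute (h * z * h⁻¹) (g ^ P) := fun z cz =>
    S.cent hy' (by rw [conj_pow]; exact commute_conj cz h) (c.symm.pow_pow P P)
  have key : ∀ μ : G, Commute μ (g ^ P) → Bd d μ → Commute h μ := fun μ cμ hμ =>
    S.n2e μ h hμ (S.cent hy cμ (nrm _ cμ)) (S.cent hy cμ (nrm _ (nrm _ cμ)))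
  have c1 : Commute (h * g ^ P * h⁻¹) (g ^ P) := by rw [← conj_pow]; exact c.pow_pow P P
  rcases Q.conj_lox hy x c1 with ⟨z, hz⟩ | ⟨z, hz⟩
  · have hμ : Bd d (h * g * h⁻¹ * g⁻¹) := by
      refine S.bd_of (x := z) ?_
      rw [c.inv_right.mul_pow, conj_pow, inv_pow]
      omega
    have cg := c.mul_left (Commute.refl g).inv_left
    exact S.heis (inv_mul_cancel_right _ _).symm (key _ (cg.pow_right P) hμ) cg.symm hμ
  · have hμ : Bd d (h * g * h⁻¹ * g) := by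
      refine S.bd_of (x := z) ?_
      rw [c.mul_pow, conj_pow]
      omega
    have e1 := (key _ ((c.mul_left (Commute.refl g)).pow_right P) hμ).mul_inv_cancel
    have e2 : h * (h * g * h⁻¹) * h⁻¹ = g := by
      rw [show h * (h * g * h⁻¹ * g) * h⁻¹ = h * (h * g * h⁻¹) * h⁻¹ * (h * g * h⁻¹) by group,
        c.eq] at e1
      exact mul_right_cancel e1
    refine (S.rg h g 2 (by omega) ?_).symm
    rw [Commute, SemiconjBy]
    calc g * h ^ 2 = h * (h * g * h⁻¹) * h⁻¹ * h ^ 2 := by rw [e2]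
      _ = _ := by simp [pow_two, mul_assoc]

theorem n2 : N2 G := by
  intro g h c1 c2
  by_cases hb : Bd d g
  · exact S.n2e g h hb c1 c2
  · exact S.csa hb c1.symm

theorem pf (h : ∀ (y c : G) (u : Fin 6 → G), (∀ i, Bd d (u i)) → (∀ i j, Commute (u i) (u j)) →
    y * u 0 * y⁻¹ = u 1 → c * u 1 * c⁻¹ = u 2 → c * u 0 * c⁻¹ = u 3 → y * u 4 * y⁻¹ = u 3 →
    c * u 5 * c⁻¹ = u 4 → u 0 = u 1 ∧ u 4 = u 3) : PF G := by
  intro y c u cm e1 e2 e3 e4 e5
  by_cases hb : Bd d (u 0)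
  · have b1 : Bd d (u 1) := e1 ▸ hb.conj S.inv y
    have b3 : Bd d (u 3) := e3 ▸ hb.conj S.inv c
    have b4 : Bd d (u 4) := Bd.of_conj S.inv (e4 ▸ b3)
    refine h y c u (fun i => ?_) cm e1 e2 e3 e4 e5
    fin_cases i
    exacts [hb, b1, e2 ▸ b1.conj S.inv c, b3, b4, Bd.of_conj S.inv (e5 ▸ b4)]
  · have b4 : ¬ Bd d (u 4) := fun e => hb (Bd.of_conj S.inv (e3 ▸ e4 ▸ e.conj S.inv y))
    exact ⟨by rw [← e1, (S.csa hb (e1 ▸ cm 1 0)).mul_inv_cancel],
      by rw [← e4, (S.csa b4 (e4 ▸ cm 3 4)).mul_inv_cancel]⟩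

end LX

end Pool.Agent.Lib.MP_a2eab4_al.Re
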