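import Pool.Agent.Lib.MP_429c3d_al.NxC
import Pool.Agent.Lib.MP_429c3d_al.HypBlowH

set_option autoImplicit false

/-! The invariants of a level. -/

namespace Pool.Agent.Lib.MP_a2eab4_al.Re

open Pool.Agent.Lib.MP_429c3d_al Pool.Agent.Lib.MP_429c3d_al.Hyp Pool.Agent.Lib.MP_429c3d_al.Ng

section groups

variable (G : Type) [Group G]

/-- Three commuting consecutive conjugates are equal. -/
def N2 : Prop :=
  ∀ g h : G, Commute g (h * g * h⁻¹) → Commute g (h * (h * g * h⁻¹) * h⁻¹) → Commute h g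

/-- Roots have the same centraliser. -/
def RG : Prop := ∀ (g h : G) (j : ℕ), j ≠ 0 → Commute h (g ^ j) → Commute h g

/-- The folding configuration `C ← B ← A → D ← E ← F` with letters `c, y, c, y, c`. -/
def PF : Prop :=
  ∀ (y c : G) (u : Fin 6 → G), (∀ i j, Commute (u i) (u j)) → y * u 0 * y⁻¹ = u 1 →
    c * u 1 * c⁻¹ = u 2 → c * u 0 * c⁻¹ = u 3 → y * u 4 * y⁻¹ = u 3 → c * u 5 * c⁻¹ = u 4 →
    u 0 = u 1 ∧ u 4 = u 3

variable {G}

/-- Some iterate of index at most `N` commutes with `y`. -/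
def Done (N : ℕ) (y c : G) : Prop := ∃ j, j ≤ N ∧ Commute y (cs y c j)

variable {V : Type} [MulAction G V]

/-- Bounded orbits. -/
def Bd (d : V → V → ℕ) (g : G) : Prop := ∃ (x : V) (M : ℕ), ∀ i : ℤ, d x (g ^ i • x) ≤ M

variable (G)

/-- Where a power of an elliptic element is short, all powers are short. -/
def PE1 (d : V → V → ℕ) (B A : ℕ) : Prop :=
  ∀ (g : G) (j : ℤ) (x : V), Bd d g → j ≠ 0 → d x (g ^ j • x) ≤ B → ∀ i : ℤ, d x (g ^ i • x) ≤ A

/-- A fixed power of an element with unbounded orbits is long. -/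
def PE2 (d : V → V → ℕ) (B P : ℕ) : Prop :=
  ∀ g : G, ¬ Bd d g → ∀ x : V, B ≤ d x (g ^ P • x)

end groups

end Pool.Agent.Lib.MP_a2eab4_al.Re
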