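import Pool.Agent.Lib.MP_a2eab4_al.ReFree

set_option autoImplicit false

/-! The geometry of level zero. -/

namespace Pool.Agent.Lib.MP_a2eab4_al

open Pool.Agent.Lib.MP_429c3d_al Hyp Ng

section

variable {E : Type} [DecidableEq E] (p : E → Bool)

/-- Adjacency in the tree of cliques. -/
def cqA (x y : FreeGroup E) : Prop := (x⁻¹ * y).norm ≤ 4 ∨ cnt p (x⁻¹ * y) = 0

theorem cq_gr : IsGr (gd (cqA p)) ∧ ∀ x y, gd (cqA p) x y ≤ 1 ↔ x = y ∨ cqA p x y := by
  refine gd_isGr (fun x y h => ?_) fun x y => ?_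
  · unfold cqA at *
    rw [norm_symm, ← cnt_inv, mul_inv_rev, inv_inv]
    exact h
  · refine norm_gr.induct x (P := fun _ y => Relation.ReflTransGen (cqA p) x y)
      Relation.ReflTransGen.refl (fun n u v _ _ h ih => ih.tail (Or.inl ?_)) y
    have : (u⁻¹ * v).norm = 1 := h
    omega

theorem cq_adj {x y : FreeGroup E} (h : cqA p x y) : gd (cqA p) x y ≤ 1 :=
  ((cq_gr p).2 x y).2 (Or.inr h)

theorem cq_cone : Cone (fun x y : FreeGroup E => (x⁻¹ * y).norm) (gd (cqA p)) id Eq 0 4 1 := by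
  refine ⟨norm_gr, norm_hyp4, (cq_gr p).1, fun _ => rfl, fun b => ⟨b, rfl⟩,
    fun x y h => cq_adj p (Or.inl h), le_rfl, ?_⟩
  rintro b b' _ _ q h rfl rfl e
  rw [(cq_gr p).1.met.symm]
  refine cq_adj p ?_
  have e1 : (b⁻¹ * q).norm + (q⁻¹ * b').norm = (b⁻¹ * b').norm := e
  rcases ((cq_gr p).2 b b').1 h with rfl | h | h
  · rw [inv_mul_cancel, FreeGroup.norm_one] at e1
    exact Or.inl (show (b⁻¹ * q).norm ≤ 4 by omega)
  · exact Or.inl (show (b⁻¹ * q).norm ≤ 4 by omega)
  · have e2 : b⁻¹ * q * (q⁻¹ * b') = b⁻¹ * b' := by group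
    have := cnt_add p (g := b⁻¹ * q) (h := q⁻¹ * b') (by rw [e2, e1])
    rw [e2] at this
    exact Or.inr (show cnt p (b⁻¹ * q) = 0 by omega)

theorem cq_inv (g x y : FreeGroup E) : gd (cqA p) (g * x) (g * y) = gd (cqA p) x y := by
  have key : ∀ g x y : FreeGroup E, gd (cqA p) (g * x) (g * y) ≤ gd (cqA p) x y := by
    intro g x y
    refine (cq_gr p).1.induct x (P := fun n y => gd (cqA p) (g * x) (g * y) ≤ n)
      ((cq_gr p).1.met.self _).le (fun n u v _ _ h ih => ?_) y
    have e : gd (cqA p) (g * u) (g * v) ≤ 1 := by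
      rcases ((cq_gr p).2 u v).1 h.le with rfl | h
      · rw [(cq_gr p).1.met.self]
        omega
      · refine cq_adj p ?_
        unfold cqA at *
        rwa [mul_inv_rev, mul_assoc, inv_mul_cancel_left]
    have := (cq_gr p).1.met.tri (g * x) (g * u) (g * v)
    omega
  refine le_antisymm (key g x y) ?_
  have := key g⁻¹ (g * x) (g * y)
  rwa [inv_mul_cancel_left, inv_mul_cancel_left] at this

theorem cq_lo (x y : FreeGroup E) : cnt p (x⁻¹ * y) ≤ 4 * gd (cqA p) x y := by
  refine (cq_gr p).1.induct x (P := fun n y => cnt p (x⁻¹ * y) ≤ 4 * n)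
    (by rw [inv_mul_cancel, cnt_one]) (fun n u v _ _ h ih => ?_) y
  have e1 := cnt_mul p (x⁻¹ * u) (u⁻¹ * v)
  rw [mul_assoc, mul_inv_cancel_left] at e1
  have e2 := cnt_le p (u⁻¹ * v)
  rcases ((cq_gr p).2 u v).1 h.le with rfl | h | h
  · omega
  · omega
  · omega

theorem cq_hi (x : FreeGroup E) : gd (cqA p) 1 x ≤ 2 * cnt p x + 1 := by
  have key : ∀ (L : List (E × Bool)) (h : FreeGroup E), cnt p h = 0 →
      gd (cqA p) 1 (h * FreeGroup.mk L) ≤ 2 * (L.countP fun l => p l.1) + 1 := by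
    intro L
    induction L with
    | nil =>
      intro h e
      refine (cq_adj p (Or.inr ?_)).trans (by omega)
      rwa [inv_one, one_mul, ← FreeGroup.one_eq_mk, mul_one]
    | cons a L ih =>
      intro h e
      rw [← List.singleton_append, ← FreeGroup.mul_mk, ← mul_assoc, List.countP_append]
      by_cases ha : p a.1 = true
      · have e1 := ih 1 rfl
        rw [← cq_inv p (h * FreeGroup.mk [a]), mul_one, one_mul] at e1
        have e2 : gd (cqA p) 1 h ≤ 1 := cq_adj p (Or.inr (by rwa [inv_one, one_mul]))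
        have e3 : gd (cqA p) h (h * FreeGroup.mk [a]) ≤ 1 := cq_adj p (Or.inl (by
          rw [inv_mul_cancel_left]
          exact FreeGroup.norm_mk_le.trans (by simp)))
        have := (cq_gr p).1.met.tri 1 h (h * FreeGroup.mk [a])
        have := (cq_gr p).1.met.tri 1 (h * FreeGroup.mk [a]) (h * FreeGroup.mk [a] * FreeGroup.mk L)
        have : List.countP (fun l => p l.1) [a] = 1 := by simp [ha]
        omega
      · have e1 := cnt_mul p h (FreeGroup.mk [a])
        rw [cnt_red p FreeGroup.IsReduced.singleton] at e1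
        have : List.countP (fun l => p l.1) [a] = 0 := by simp [ha]
        have := ih (h * FreeGroup.mk [a]) (by omega)
        omega
  have := key x.toWord 1 rfl
  rwa [one_mul, FreeGroup.mk_toWord] at this

end

/-- The data of level zero. -/
structure Base0 (G : Type) {X : Type} [Group G] [MulAction G X] (d : X → X → ℕ) (H : Subgroup G)
    (ψ : G →* Multiplicative ℤ) (a w g : G) (x0 : X) (Λ : ℕ) : Prop where
  cnt : Countable G
  gr : IsGr d
  hyp : Hyp4 d 746
  iso : Isom G d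
  free : Free G X
  tf : TF G
  csa : CSA G
  ct : CT G
  w_mem : w ∈ H
  g_mem : g ∈ H
  nc : ¬ Commute g w
  ψ_a : ψ a = Multiplicative.ofAdd 1
  ψ_H : ∀ h ∈ H, ψ h = 1
  a_le : d x0 (a • x0) ≤ 4 * Λ + 1
  H_le : ∀ h ∈ H, d x0 (h • x0) ≤ 1
  mem : ∀ f : G, d x0 (f • x0) ≤ Λ → f ∈ H
  conj : ∀ (y : G) x, d x (y • x) ≤ Λ → ∃ f : G, f⁻¹ * y * f ∈ H
  near : ∀ h ∈ H, h ≠ 1 → ∀ x, d x x0 ≤ 4 * d x (h • x) + 1

/-- The free group as a set with a twisted action. -/
def Tw (_ : ℕ) : Type := FreeGroup (Option Bool)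

/-- The exponents. -/
def rr (n : ℕ) (e : Option Bool) : ℕ := if e.isNone then n else 0

instance (n : ℕ) : MulAction (FreeGroup (Option Bool)) (Tw n) :=
  MulAction.compHom (FreeGroup (Option Bool)) (pw (rr n))

theorem pw_unm (n : ℕ) {h : FreeGroup (Option Bool)} (e : cnt Option.isNone h = 0) :
    pw (rr n) h = h := by
  conv_lhs => rw [← FreeGroup.mk_toWord (x := h), pw_mk]
  conv_rhs => rw [← FreeGroup.mk_toWord (x := h)]
  have e1 := List.countP_eq_zero.1 e
  generalize h.toWord = L at e1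
  congr 1
  induction L with
  | nil => rfl
  | cons a L ih =>
    have e2 : rr n a.1 = 0 := if_neg (e1 a List.mem_cons_self)
    rw [List.flatMap_cons, e2, ih fun b hb => e1 b (List.mem_cons_of_mem _ hb)]
    rfl

theorem base0_exists (Λ : ℕ) : ∃ (G X : Type) (_ : Group G) (_ : MulAction G X) (d : X → X → ℕ)
    (H : Subgroup G) (ψ : G →* Multiplicative ℤ) (a w g : G) (x0 : X),
    Base0 G d H ψ a w g x0 Λ := by
  have hr : ∀ e : Option Bool, e.isNone = true → rr (4 * Λ) e = 4 * Λ := fun e h => if_pos h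
  obtain ⟨tf, csa, ct⟩ := free_alg (E := Option Bool)
  let F := FreeGroup (Option Bool)
  let d : F → F → ℕ := gd (cqA Option.isNone)
  have gr : IsGr d := (cq_gr _).1
  let ψ : F →* Multiplicative ℤ := FreeGroup.lift fun e => if e.isNone then .ofAdd 1 else 1
  have hi : ∀ x : F, d 1 x ≤ 2 * cnt Option.isNone x + 1 := cq_hi _
  have lo : ∀ x y : F, cnt Option.isNone (x⁻¹ * y) ≤ 4 * d x y := cq_lo _
  refine ⟨F, Tw (4 * Λ), inferInstance, inferInstance, d, unm Option.isNone, ψ, .of none,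
    .of (some true), .of (some false), (1 : F), inferInstance, gr, (cq_cone _).hypB,
    fun g x y => cq_inv _ (pw _ g) x y, fun g x h => pw_inj (rr (4 * Λ)) ?_, tf, csa, ct, by rfl, by rfl,
    fun h => ?_, FreeGroup.lift_apply_of, fun h hh => ?_, ?_, fun h hh => ?_, fun f hf => ?_,
    fun y (x : F) h => ?_, fun h hh h1 (x : F) => ?_⟩
  · rw [map_one]
    exact mul_eq_right.1 h
  · exact absurd (congrArg FreeGroup.toWord h) (by decide)
  · have e1 := List.countP_eq_zero.1 hh
    rw [← FreeGroup.mk_toWord (x := h)]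
    generalize h.toWord = L at e1
    induction L with
    | nil => exact map_one _
    | cons a L ih =>
      rw [← List.singleton_append, ← FreeGroup.mul_mk, map_mul,
        ih fun b hb => e1 b (List.mem_cons_of_mem _ hb), mul_one]
      have e2 := e1 a List.mem_cons_self
      obtain ⟨x, b⟩ := a
      have e3 : ψ (.of x) = 1 := FreeGroup.lift_apply_of.trans (if_neg e2)
      cases b
      · exact (map_inv ψ (.of x)).trans (by rw [e3, inv_one])
      · exact e3
  · show d 1 (pw _ (.of none) * 1) ≤ _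
    have e1 := (cq_cone (E := Option Bool) Option.isNone).ι_le 1 (pw (rr (4 * Λ)) (.of none) * 1)
    refine e1.trans ?_
    show (1⁻¹ * (pw (rr (4 * Λ)) (.of none) * 1) : F).norm ≤ _
    rw [inv_one, one_mul, mul_one, pw, FreeGroup.lift_apply_of, FreeGroup.norm_of_pow]
    exact le_rfl
  · refine cq_adj _ (Or.inr ?_)
    show cnt _ (1⁻¹ * (pw _ h * 1) : F) = 0
    rw [inv_one, one_mul, mul_one, pw_unm _ hh]
    exact hh
  · have e1 := lo 1 (pw (rr (4 * Λ)) f * 1)
    have e2 : d 1 (pw (rr (4 * Λ)) f * 1) ≤ Λ := hf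
    rw [inv_one, one_mul, mul_one, cnt_pw hr] at e1
    rw [mul_one] at e2
    by_contra e3
    have := Nat.mul_le_mul_left (4 * Λ + 1) (Nat.one_le_iff_ne_zero.2 e3)
    omega
  · by_contra e
    have e1 := cnt_move hr (w := y) (fun f e1 => e ⟨f, e1⟩) x
    have e2 := lo x (pw (rr (4 * Λ)) y * x)
    have e3 : d x (pw (rr (4 * Λ)) y * x) ≤ Λ := h
    omega
  · show d x 1 ≤ 4 * d x (pw _ h * x) + 1
    have e1 := lo x (h * x)
    have e2 := hi x
    rw [cnt_conj hh h1] at e1
    rw [pw_unm _ hh, gr.met.symm]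
    omega

end Pool.Agent.Lib.MP_a2eab4_al
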