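import Pool.Agent.Lib.MP_a2eab4_al.ReHb

set_option autoImplicit false

/-! The space with collapsed horoballs. -/

namespace Pool.Agent.Lib.MP_a2eab4_al.Re

open Pool.Agent.Lib.MP_429c3d_al Hyp Ng

variable {H Y P : Type} [Group H] [MulAction H Y] {d : Y → Y → ℕ} {hb : H → P → ℕ → Y}
  {S : P → Set H} {κ : ℕ}

/-- The hyperbolicity constant of the collapsed space. -/
def kBh (κ : ℕ) : ℕ := coneK (9 * κ + 8)

/-- The bound for detours. -/
def dBh (κ : ℕ) : ℕ :=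
  4 * (4 * κ + 4) + ((20 * kBh κ + 20) * (4 * κ + 5) + 1) * prjC κ (3 * κ + 2) (16 * κ + 14)

namespace Hb

variable (B : Hb H d hb S)

/-- The collapsed space. -/
def Bh : Type := Quotient B.std

/-- The collapsing map. -/
def ι (w : Y) : B.Bh := Quotient.mk B.std w

theorem ι_eq {w w' : Y} : B.ι w = B.ι w' ↔ Cl hb S w w' := Quotient.eq

theorem ι_surj (b : B.Bh) : ∃ w, B.ι w = b := Quotient.exists_rep b

instance : MulAction H B.Bh where
  smul γ := Quotient.map (γ • ·) fun _ _ h => B.cl_smul γ h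
  one_smul b := Quotient.inductionOn b fun w => congrArg B.ι (one_smul H w)
  mul_smul γ γ' b := Quotient.inductionOn b fun w => congrArg B.ι (mul_smul γ γ' w)

theorem ι_smul (γ : H) (w : Y) : B.ι (γ • w) = γ • B.ι w := rfl

/-- Adjacency of classes. -/
def adj (κ : ℕ) (b b' : B.Bh) : Prop := ∃ w w', d w w' ≤ 4 * κ + 4 ∧ B.ι w = b ∧ B.ι w' = b'

/-- The metric of the collapsed space. -/
noncomputable def dB (κ : ℕ) : B.Bh → B.Bh → ℕ := gd (B.adj κ)

theorem dB_gr (κ : ℕ) : IsGr (B.dB κ) ∧ ∀ b b', B.dB κ b b' ≤ 1 ↔ B.adj κ b b' := by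
  have := gd_isGr (adj := B.adj κ)
    (fun _ _ ⟨w, w', e1, e2, e3⟩ => ⟨w', w, by rw [B.gr.met.symm]; exact e1, e3, e2⟩) ?_
  · refine ⟨this.1, fun b b' => (this.2 b b').trans (or_iff_right_of_imp ?_)⟩
    rintro rfl
    obtain ⟨w, e⟩ := B.ι_surj b
    exact ⟨w, w, by rw [B.gr.met.self]; omega, e, e⟩
  · intro b b'
    obtain ⟨w, rfl⟩ := B.ι_surj b
    obtain ⟨w', rfl⟩ := B.ι_surj b'
    exact B.gr.induct w (P := fun _ y => Relation.ReflTransGen (B.adj κ) (B.ι w) (B.ι y))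
      Relation.ReflTransGen.refl (fun n u v _ _ h ih => ih.tail ⟨u, v, by omega, rfl, rfl⟩) w'

theorem dB_one {w w' : Y} (h : d w w' ≤ 4 * κ + 4) : B.dB κ (B.ι w) (B.ι w') ≤ 1 :=
  ((B.dB_gr κ).2 _ _).2 ⟨w, w', h, rfl, rfl⟩

theorem dB_le (κ : ℕ) (w w' : Y) : B.dB κ (B.ι w) (B.ι w') ≤ d w w' := by
  simpa using B.gr.lip (B.dB_gr κ).1.met B.ι (c := 1) (fun x y h => B.dB_one (by omega)) w w'

theorem dB_smul (κ : ℕ) (γ : H) (b b' : B.Bh) : B.dB κ (γ • b) (γ • b') = B.dB κ b b' := by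
  refine (B.dB_gr κ).1.iso (fun γ b b' h => ?_) γ b b'
  obtain ⟨w, w', e, rfl, rfl⟩ := ((B.dB_gr κ).2 _ _).1 h
  exact B.dB_one (w := γ • w) (w' := γ • w') (by rw [B.iso]; exact e)

theorem cone (hyp : Hyp4 d κ) :
    Cone d (B.dB κ) B.ι (fun b w => B.ι w = b) κ (4 * κ + 4) (9 * κ + 8) := by
  refine ⟨B.gr, hyp, (B.dB_gr κ).1, fun _ => rfl, B.ι_surj, fun _ _ => B.dB_one, le_rfl, ?_⟩
  rintro _ _ p p' q h rfl rfl e
  obtain ⟨w, w', e1, e2, e3⟩ := ((B.dB_gr κ).2 _ _).1 h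
  have m := B.gr.met
  have m' := (B.dB_gr κ).1.met
  have key : ∀ x y, Cl hb S x y → d q x + d q y ≤ d x y + 2 * κ →
      B.dB κ (B.ι q) (B.ι x) ≤ 5 * κ + 3 := by
    intro x y c e
    obtain ⟨u, u1, u2⟩ := near_mid m hyp B.gr.geo x y q e
    obtain ⟨v, v1, v2, -⟩ := B.qc hyp c u1
    have := B.dB_le κ q v
    have := m.tri q u v
    rw [B.ι_eq.2 v1]
    omega
  have s1 := m.symm p q
  have s2 := m.symm w p
  have s3 := m.symm w' w
  rcases hyp q w p p' with c | c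
  · rcases hyp q w' w p' with c' | c'
    · have := key w' p' (B.ι_eq.1 e3) (by omega)
      have := m'.tri (B.ι q) (B.ι p') (B.ι p)
      have := m'.symm (B.ι p') (B.ι p)
      rw [e3] at *
      omega
    · have := B.dB_le κ q w
      rw [e2] at this
      omega
  · have := key p w (B.ι_eq.1 e2.symm) (by omega)
    omega

theorem hypB (hyp : Hyp4 d κ) : Hyp4 (B.dB κ) (kBh κ) := (B.cone hyp).hypB

theorem dep_lt {w w' : Y} {s : ℕ} (h : d w w' ≤ s) (hne : B.ι w ≠ B.ι w') : dep hb w < s := by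
  by_contra e
  exact hne (B.ι_eq.2 (B.cl_of_le (by omega)))

/-- Detours in the collapsed space join close points. -/
theorem detour (hyp : Hyp4 d κ) {w w' z z' : Y} (h : B.ι w = B.ι w') (h1 : d w z ≤ 4 * κ + 4)
    (h2 : d w' z' ≤ 4 * κ + 4)
    (ha : Avoid (B.dB κ) (B.ι w) (20 * kBh κ + 20) (B.ι z) (B.ι z')) : d w w' ≤ dBh κ := by
  have Q := B.qfam hyp
  have m := B.gr.met
  obtain ⟨c, c0, c1, c2, c3⟩ := ha
  obtain ⟨C, hC⟩ : ∃ C, C = prjC κ (3 * κ + 2) (16 * κ + 14) := ⟨_, rfl⟩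
  choose π hπ using Q.exists_nr (B.ι w)
  have lip := B.gr.lip m π (c := C) fun x y e => hC ▸ Q.nr_edge (hπ x) (hπ y) e
  have same : ∀ x y, B.ι x = B.ι y → B.ι x ≠ B.ι w → d (π x) (π y) ≤ C :=
    fun x y e e' => hC ▸ Q.nr_other e' rfl e.symm (hπ x) (hπ y)
  have key : ∀ i, i ≤ 20 * kBh κ + 20 → ∀ y, B.ι y = c i →
      d (π z) (π y) ≤ (i * (4 * κ + 5) + 1) * C := by
    intro i
    induction i with
    | zero => exact fun _ y e => by simpa using same z y (c0.symm.trans e.symm) (c0 ▸ c2 0 (by omega))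
    | succ i ih =>
      intro hi y e
      obtain ⟨x, x', e1, e2, e3⟩ := ((B.dB_gr κ).2 _ _).1 (c3 i hi)
      have f1 := ih (by omega) x e2
      have f2 := (lip x x').trans (Nat.mul_le_mul_left _ e1)
      have f3 := same x' y (e3.trans e.symm) (e3 ▸ c2 _ hi)
      have := m.tri (π z) (π x) (π y)
      have := m.tri (π x) (π x') (π y)
      have : ((i + 1) * (4 * κ + 5) + 1) * C = (i * (4 * κ + 5) + 1) * C + C * (4 * κ + 4) + C := by
        ring
      omega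
  have e1 := key _ le_rfl z' c1.symm
  have e2 := (hπ z).2 w rfl
  have e3 := (hπ z').2 w' h.symm
  have := m.tri w z w'
  have := m.tri z (π z) w'
  have := m.tri (π z) (π z') w'
  have := m.tri (π z') z' w'
  have := m.symm z w
  have := m.symm z' w'
  have := m.symm z' (π z')
  unfold dBh
  rw [← hC]
  omega

end Hb

end Pool.Agent.Lib.MP_a2eab4_al.Re
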