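import Pool.Agent.Lib.MP_a2eab4_al.TwS

/-! The metric invariants of the stages of a tower. -/

set_option autoImplicit false

namespace Pool.Agent.Lib.MP_429c3d_al.Ng

open Hyp

section defs

variable (G : Type) {Z : Type} [Group G] [MulAction G Z]

/-- A set with a common fixed point is short only near a common fixed point. -/
def TAs (d : Z → Z → ℕ) (g : Z → Z → Set Z) (mk : Z → Z → Prop) (c : ℕ) : Prop :=
  ∀ (U : Set G) (α : Z), (∀ a ∈ U, a • α = α) → ∀ x, (∀ a ∈ U, a • x = x) ∨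
    ∃ β, (∀ a ∈ U, a • β = β) ∧ ∃ a ∈ U, a • x ≠ x ∧ ∃ z ∈ g x (a • x),
      d z β ≤ c + pen mk x (a • x)

/-- Non commuting elements are short together only on a bounded set. -/
def UUs (d : Z → Z → ℕ) (g : Z → Z → Set Z) (mk : Z → Z → Prop) (L f : ℕ) : Prop :=
  ∀ (a b : G) (x x' : Z), ¬ Commute a b → d x (a • x) ≤ L → d x (b • x) ≤ L →
    d x' (a • x') ≤ L → d x' (b • x') ≤ L →
    ∃ a₁, (a₁ = a ∨ a₁ = b) ∧ a₁ • x ≠ x ∧ ∃ a₂, (a₂ = a ∨ a₂ = b) ∧ a₂ • x' ≠ x' ∧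
      ∃ z ∈ g x (a₁ • x), ∃ z' ∈ g x' (a₂ • x'),
        d z z' ≤ f + pen mk x (a₁ • x) + pen mk x' (a₂ • x')

/-- The metric form of `TAs`. -/
def TAM (d : Z → Z → ℕ) (c : ℕ) : Prop :=
  ∀ (U : Set G) (α : Z), (∀ a ∈ U, a • α = α) → ∀ x, (∀ a ∈ U, a • x = x) ∨
    ∃ β, (∀ a ∈ U, a • β = β) ∧ ∃ a ∈ U, 2 * d x β ≤ d x (a • x) + c

end defs

section gate

variable {G G' Z Z' : Type} [Group G] [Group G'] [MulAction G Z] [MulAction G' Z']
  {d : Z → Z → ℕ} {d' : Z' → Z' → ℕ} {g : Z → Z → Set Z} {mk : Z → Z → Prop} {q q0 r' h : ℕ}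

namespace Gate

variable (S : Gate G G' d d')

theorem two_gates {x : Z'} (hx : S.rt x ≠ S.rh x) :
    ∃ c : G, x = S.φ c • S.w ∧ S.rt x = c • S.t ∧ S.rh x = c • S.h := by
  obtain ⟨c, rfl, -⟩ := S.rho_two (S.rho_rt x) (S.rho_rh x) hx
  exact ⟨c, rfl, by rw [S.rt_smul, S.rt_w.1], by rw [S.rh_smul, S.rt_w.2]⟩

theorem move_of_gate {a : G} {x : Z'} {u : Z} (hu : u = S.rt x ∨ u = S.rh x) (ha : a • u ≠ u) :
    S.φ a • x ≠ x := fun e => ha (by
  rcases hu with rfl | rfl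
  · rw [← S.rt_smul, e]
  · rw [← S.rh_smul, e])

theorem dis_of_move (ety : ∀ s : G, s • S.t ≠ S.h) {a : G} {x : Z'}
    (h1 : a • S.rt x ≠ S.rt x) (h2 : a • S.rh x ≠ S.rh x) : S.Dis x (S.φ a • x) := by
  intro c c1 c2
  rw [Rho, S.rt_smul, S.rh_smul] at c2
  by_cases hx : S.rt x = S.rh x
  · rw [Rho, ← hx, or_self] at c1
    rw [← hx, or_self] at c2
    exact h1 (c2.symm.trans c1)
  · obtain ⟨s, -, e1, e2⟩ := S.two_gates hx
    rcases c1 with rfl | rfl <;> rcases c2 with c2 | c2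
    · exact h1 c2.symm
    · rw [e1, e2] at c2
      exact ety ((a * s)⁻¹ * s) (by rw [mul_smul, c2, ← mul_smul a, inv_smul_smul])
    · rw [e1, e2] at c2
      exact ety (s⁻¹ * (a * s)) (by rw [mul_smul, mul_smul, ← c2, inv_smul_smul])
    · exact h2 c2.symm

/-- Descent of the pair `x, a x` to any gate, when `a` fixes no gate of `x`. -/
theorem descend1 (B : BS G d g mk q q0 r' h) (ety : ∀ s : G, s • S.t ≠ S.h) {a : G} {x : Z'}
    (h1 : a • S.rt x ≠ S.rt x) (h2 : a • S.rh x ≠ S.rh x) {u : Z} (hu : S.Rho x u) :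
    (∀ z ∈ g u (a • u), S.ι z ∈ S.gg g x (S.φ a • x)) ∧
      pen mk u (a • u) ≤ pen (S.mkk mk) x (S.φ a • x) := by
  have hd := S.dis_of_move ety h1 h2
  refine ⟨fun z hz => S.gg_ι hu ((S.rho_smul a x _).2 hu) hd hz, ?_⟩
  by_cases hk : S.mkk mk x (S.φ a • x)
  · obtain ⟨u', v, e1, rfl, e3⟩ := S.mkk_dis B hk hd
    rw [← S.ι_smul] at e3
    rw [(S.rho_ι _ _).1 hu, S.ι_inj e3, pen_mk e1]
    exact Nat.zero_le _
  · rw [pen_not hk]
    exact pen_le _ _ _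

/-- The second alternative of `TAs`. -/
def TAo (g : Z → Z → Set Z) (mk : Z → Z → Prop) (c : ℕ) (U : Set G') (x : Z') : Prop :=
  ∃ β, (∀ a ∈ U, a • β = β) ∧ ∃ a ∈ U, a • x ≠ x ∧ ∃ z ∈ S.gg g x (a • x),
    d' z β ≤ c + pen (S.mkk mk) x (a • x)

theorem tao_near {c : ℕ} {U : Set G'} {x β : Z'} (hx : ¬ ∀ a ∈ U, a • x = x)
    (hβ : ∀ a ∈ U, a • β = β) (hd : d' x β ≤ c) : S.TAo g mk c U x := by
  push Not at hx
  obtain ⟨a, ha, h1⟩ := hx
  exact ⟨β, hβ, a, ha, h1, x, S.gg_left _ _, by omega⟩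

theorem TAo.conj {S : Gate G G' d d'} {c : ℕ} {U : Set G'} {x : Z'} (σ : G')
    (H : S.TAo g mk c {b | σ * b * σ⁻¹ ∈ U} (σ⁻¹ • x)) : S.TAo g mk c U x := by
  obtain ⟨β, hβ, b, hb, h1, z, z1, z2⟩ := H
  have e : (σ * b * σ⁻¹) • x = σ • b • σ⁻¹ • x := by simp only [mul_smul]
  refine ⟨σ • β, fun a ha => ?_, _, hb, fun hh => h1 ?_, σ • z, ?_, ?_⟩
  · have := hβ (σ⁻¹ * a * σ) (by
      show σ * (σ⁻¹ * a * σ) * σ⁻¹ ∈ U
      rwa [show σ * (σ⁻¹ * a * σ) * σ⁻¹ = a by group])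
    rw [mul_smul, mul_smul, inv_smul_eq_iff] at this
    exact this
  · rw [e] at hh
    exact eq_inv_smul_iff.2 hh
  · rw [e]
    simpa using S.gg_smul σ z1
  · rw [← S.pen_smul σ, smul_inv_smul] at z2
    rwa [S.inv', e]

theorem tas_base {c : ℕ} (B : BS G d g mk q q0 r' h) (ety : ∀ s : G, s • S.t ≠ S.h)
    (hh : H2 G S.h ∨ ∃ τ, (∀ a : G, a • τ = τ) ∧ d S.t τ ≤ 2) (hT : TAs G d g mk c)
    (hc : 3 ≤ c) {U : Set G'} {a₀ : Z} (hU : ∀ a ∈ U, a • S.ι a₀ = S.ι a₀) {x : Z'}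
    (hx : ¬ S.Rho x a₀) (hm : ¬ ∀ a ∈ U, a • x = x) :
    S.TAo g mk c U x ∨ (S.rt x = S.rh x ∧ ∀ a ∈ U, a • S.ι (S.rt x) = S.ι (S.rt x)) := by
  by_cases hr : ∀ a ∈ U, a ∈ S.φ.range
  swap
  · push Not at hr
    obtain ⟨a, ha, hr⟩ := hr
    have e : ∀ b, S.Rho (a • x) b ↔ b = a₀ := fun b => by
      simpa using S.other (σ := a⁻¹) (fun hh => hr (by simpa using inv_mem hh))
        (inv_smul_eq_iff.2 (hU a ha).symm) hx (b := b)
    refine Or.inl ⟨_, hU, a, ha, fun hh => hx (hh ▸ (e _).2 rfl), _, S.gg_ι (S.rho_rt x)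
      ((e _).2 rfl) (fun b h1 h2 => hx ((e b).1 h2 ▸ h1)) (B.right _ _), ?_⟩
    rw [S.met'.self]
    exact Nat.zero_le _
  have up : ∀ u : Z, (∀ b ∈ S.φ ⁻¹' U, b • u = u) → ∀ a ∈ U, a • S.ι u = S.ι u := by
    intro u hu a ha
    obtain ⟨b, rfl⟩ := hr a ha
    rw [← S.ι_smul, hu b ha]
  rcases hT (S.φ ⁻¹' U) a₀ (fun b hb => S.ι_inj (by rw [S.ι_smul, hU _ hb])) (S.rt x) with
    h1 | ⟨β, hβ, a, ha, h1, z, z1, z2⟩
  · by_cases h2 : S.rt x = S.rh x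
    · exact Or.inr ⟨h2, up _ h1⟩
    · exact Or.inl (S.tao_near hm (up _ h1)
        ((S.rho_two_onL (S.rho_rt x) (S.rho_rh x) h2).d_le.trans (by omega)))
  · refine Or.inl ?_
    by_cases h2 : a • S.rh x = S.rh x
    · have h3 : S.rt x ≠ S.rh x := fun e => h1 (by rwa [e])
      obtain ⟨s, -, e1, e2⟩ := S.two_gates h3
      rcases hh with hh | ⟨τ, τ1, τ2⟩
      · have h4 := hh (s⁻¹ * a * s) (s⁻¹ • β) (fun e => h1 (by
          rw [show a = s * (s⁻¹ * a * s) * s⁻¹ by group, e, mul_one, mul_inv_cancel, one_smul]))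
          (by rw [mul_smul, mul_smul, ← e2, h2, e2, inv_smul_smul])
          (by rw [mul_smul, mul_smul, smul_inv_smul, hβ a ha])
        rw [inv_smul_eq_iff, ← e2] at h4
        refine S.tao_near hm (up _ hβ) ?_
        rw [h4]
        exact (S.rho_two_onL (S.rho_rh x) (S.rho_rt x) h3.symm).d_le.trans (by omega)
      · refine S.tao_near hm (up τ fun b _ => τ1 b) ?_
        have t1 := (S.rho_two_onL (S.rho_rt x) (S.rho_rh x) h3).d_le
        have t2 := S.met'.tri x (S.ι (S.rt x)) (S.ι τ)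
        have t3 := S.d_ι (S.rt x) τ
        have t4 := S.inv s S.t τ
        rw [τ1, ← e1] at t4
        omega
    · obtain ⟨e1, e2⟩ := S.descend1 B ety h1 h2 (S.rho_rt x)
      have t3 := S.d_ι z β
      exact ⟨_, up _ hβ, _, ha, S.move_of_gate (Or.inl rfl) h1, _, e1 z z1, by omega⟩

/-- `TAs` passes to the next stage. -/
theorem tas {c : ℕ} (B : BS G d g mk q q0 r' h) (ety : ∀ s : G, s • S.t ≠ S.h)
    (hh : H2 G S.h ∨ ∃ τ, (∀ a : G, a • τ = τ) ∧ d S.t τ ≤ 2) (hT : TAs G d g mk c)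
    (hc : 3 ≤ c) : TAs G' d' (S.gg g) (S.mkk mk) c := by
  intro U α hα x
  refine or_iff_not_imp_left.2 fun hm => ?_
  show S.TAo g mk c U x
  have cj : ∀ (σ : G') (y : Z'), (∀ a ∈ U, a • σ • y = σ • y) ↔
      ∀ b ∈ {b | σ * b * σ⁻¹ ∈ U}, b • y = y := by
    intro σ y
    refine ⟨fun H b hb => ?_, fun H a ha => ?_⟩
    · have := H _ hb
      rwa [mul_smul, mul_smul, inv_smul_smul, smul_left_cancel_iff] at this
    · have := H (σ⁻¹ * a * σ) (by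
        show σ * (σ⁻¹ * a * σ) * σ⁻¹ ∈ U
        rwa [show σ * (σ⁻¹ * a * σ) * σ⁻¹ = a by group])
      rwa [mul_smul, mul_smul, inv_smul_eq_iff] at this
  have hm' : ∀ σ : G', ¬ ∀ b ∈ {b | σ * b * σ⁻¹ ∈ U}, b • σ⁻¹ • x = σ⁻¹ • x := fun σ H =>
    hm (by simpa using (cj σ (σ⁻¹ • x)).2 H)
  rcases S.cover α with ho | ⟨γ, rfl⟩
  · obtain ⟨p, hp, -, h0⟩ := S.exists_old_rho x
    have ho' : S.Old α := ho
    clear ho
    induction hn : cnt S.Bt α p using Nat.strong_induction_on generalizing α with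
    | _ n ih =>
      by_cases h1 : S.OnL x α
      · exact S.tao_near hm hα (h1.d_le.trans (by omega))
      obtain ⟨σ, a₀, rfl, e⟩ := S.first ho' (fun e : x = α => hm (e ▸ hα)) h1
      rcases S.tas_base B ety hh hT hc ((cj σ _).1 hα) e (hm' σ) with h2 | ⟨h2, h3⟩
      · exact h2.conj σ
      · have h4 : S.rt (σ⁻¹ • p) = S.rt (σ⁻¹ • x) := by
          have := h0 σ⁻¹
          rwa [Rho, ← h2, or_self] at this
        have h5 : a₀ ≠ S.rt (σ⁻¹ • x) := fun hh => e (hh ▸ S.rho_rt _)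
        have h6 : S.Bt (σ • S.ι a₀) (σ • S.ι (S.rt (σ⁻¹ • x))) p :=
          (S.bt_copy ho' hp (by rwa [inv_smul_smul, S.rt_ι])).2 h4
        have h7 := S.pre.cnt_add h6
        have h8 := S.pre.two_le_cnt ho' h6.2.1 fun hh => h5 (S.ι_inj (smul_left_cancel σ hh))
        exact ih _ (by omega) _ ((cj σ _).2 h3) h6.2.1 rfl
  · refine TAo.conj γ ?_
    have h1 := hm' γ
    push Not at h1
    obtain ⟨b, hb, h1⟩ := h1
    have h2 := (cj γ _).1 hα
    obtain ⟨z, z1, z2⟩ := S.ta_cone B (fun e => h1 (by rw [e, one_smul])) (h2 b hb) (γ⁻¹ • x)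
    exact ⟨_, h2, b, hb, h1, z, z1, by omega⟩

/-- A point strictly between two old points is a gluing point. -/
theorem Bt.glue {S : Gate G G' d d'} {x u y : Z'} (H : S.Bt x u y) (h1 : x ≠ u) (h2 : y ≠ u) :
    ∃ γ : G', u = γ • S.ι S.t := by
  obtain ⟨σ, a, rfl, e⟩ := S.first_old H.2.1 H.1 h1
  have e1 := (S.bt_copy H.1 H.2.2.1 e).1 H
  obtain ⟨γ, z, hz⟩ := H.2.2.1.smul σ⁻¹
  by_cases hγ : γ ∈ S.φ.range
  · obtain ⟨c, rfl⟩ := hγ
    rw [hz, S.rt_φ_ι] at e1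
    exact absurd (by rw [← e1, S.ι_smul, ← hz, smul_inv_smul]) h2
  · obtain ⟨c, hc | hc⟩ := S.far_ap γ hγ z
    · exact ⟨σ * S.φ c, by rw [← e1, hz, hc, S.ι_smul, mul_smul]⟩
    · exact ⟨σ * S.φ c * S.e, by rw [← e1, hz, hc, S.ι_smul, mul_smul, mul_smul, S.e_t]⟩

/-- Commutators that fix a gluing point are trivial. -/
def Com : Prop :=
  ∀ a b γ : G', a • b • γ • S.ι S.t = b • a • γ • S.ι S.t → Commute a b

theorem Dp.commute1 {S : Gate G G' d d'} (hf : S.Com) {x y u : Z'} {a b : G'} {L : ℕ}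
    (hu : S.Dp x y (2 + L + L) u) (a1 : d' x (a • x) ≤ L) (a2 : d' y (a • y) ≤ L)
    (b1 : d' x (b • x) ≤ L) (b2 : d' y (b • y) ≤ L) : Commute a b := by
  have ne : ∀ p : Z', 2 + L + L ≤ d' p u → p ≠ u := fun p hp e => by
    rw [e, S.met'.self] at hp
    omega
  have e := hu.comm a1 a2 b1 b2
  obtain ⟨γ, rfl⟩ := hu.1.glue (ne _ hu.2.1) (ne _ hu.2.2)
  exact hf a b γ e

theorem gap_commute1 (hf : S.Com) {x y : Z'} (hx : S.Old x) (hy : S.Old y) {a b : G'}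
    (hab : a ∉ S.φ.range ∨ b ∉ S.φ.range) {L : ℕ} (a1 : d' x (a • x) ≤ L)
    (a2 : d' y (a • y) ≤ L) (b1 : d' x (b • x) ≤ L) (b2 : d' y (b • y) ≤ L)
    (hD : 3 * L + 2 ≤ d (S.rt x) (S.rt y)) : Commute a b := by
  have hne : S.rt x ≠ S.rt y := fun hh => by
    rw [hh, S.met.self] at hD
    omega
  obtain ⟨-, e2⟩ := hab.elim (fun ha => S.gap hx hy ha a1 a2 (by omega))
    fun hb => S.gap hx hy hb b1 b2 (by omega)
  have e3 := S.rt_lip x (S.ι (S.rt y))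
  rw [S.rt_ι] at e3
  exact Dp.commute1 hf (u := S.ι (S.rt y)) ⟨(S.bt_base hx hy hne).2 rfl, by omega, by omega⟩
    a1 a2 b1 b2

theorem u_old1 (hf : S.Com) {x y : Z'} (hx : S.Old x) (hy : S.Old y) {a b : G'}
    (hab : ¬ Commute a b) (hc : ∀ σ : G', σ * a * σ⁻¹ ∉ S.φ.range ∨ σ * b * σ⁻¹ ∉ S.φ.range)
    {L : ℕ} (a1 : d' x (a • x) ≤ L) (a2 : d' y (a • y) ≤ L) (b1 : d' x (b • x) ≤ L)
    (b2 : d' y (b • y) ≤ L) : d' x y ≤ 10 * L + 6 := by
  have hg : ∀ σ : G', d (S.rt (σ • x)) (S.rt (σ • y)) ≤ 3 * L + 1 := fun σ => by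
    by_contra hD
    have e : ∀ (c : G') (p : Z'), d' (σ • p) ((σ * c * σ⁻¹) • σ • p) = d' p (c • p) :=
      fun c p => by rw [mul_smul, mul_smul, inv_smul_smul, S.inv']
    have := S.gap_commute1 hf (hx.smul σ) (hy.smul σ) (hc σ) (L := L) (by rwa [e]) (by rwa [e])
      (by rwa [e]) (by rwa [e]) (by omega)
    exact hab (by simpa [mul_assoc] using this.conj σ⁻¹)
  by_contra hD
  have s0 := S.met'.self x
  obtain ⟨u, u1, u2, u3⟩ := S.walk (R := 2 + L + L) hx hy hg x (by omega) (by omega)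
  have t1 := S.met'.tri x u y
  rw [S.met'.symm u] at t1
  exact hab (Dp.commute1 hf ⟨u1, u2, by omega⟩ a1 a2 b1 b2)

/-- One half of the conclusion of `UUs`. -/
def Hf (g : Z → Z → Set Z) (mk : Z → Z → Prop) (a b : G') (x p : Z') (r : ℕ) : Prop :=
  ∃ a₁, (a₁ = a ∨ a₁ = b) ∧ a₁ • x ≠ x ∧ ∃ z ∈ S.gg g x (a₁ • x),
    d' z p ≤ r + pen (S.mkk mk) x (a₁ • x)

theorem Hf.swap {S : Gate G G' d d'} {a b : G'} {x p : Z'} {r : ℕ} (H : S.Hf g mk a b x p r) :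
    S.Hf g mk b a x p r := by
  obtain ⟨a₁, h1, h2⟩ := H
  exact ⟨a₁, h1.symm, h2⟩

/-- The conclusion of `UUs`. -/
def UUo (g : Z → Z → Set Z) (mk : Z → Z → Prop) (a b : G') (x x' : Z') (f : ℕ) : Prop :=
  ∃ a₁, (a₁ = a ∨ a₁ = b) ∧ a₁ • x ≠ x ∧ ∃ a₂, (a₂ = a ∨ a₂ = b) ∧ a₂ • x' ≠ x' ∧
    ∃ z ∈ S.gg g x (a₁ • x), ∃ z' ∈ S.gg g x' (a₂ • x'),
      d' z z' ≤ f + pen (S.mkk mk) x (a₁ • x) + pen (S.mkk mk) x' (a₂ • x')

theorem Hf.uuo {S : Gate G G' d d'} {a b : G'} {x y p : Z'} {r s f : ℕ}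
    (H : S.Hf g mk a b x p r) (H' : S.Hf g mk a b y p s) (hf : r + s ≤ f) :
    S.UUo g mk a b x y f := by
  obtain ⟨a₁, h1, h2, z, z1, z2⟩ := H
  obtain ⟨a₂, h3, h4, z', z3, z4⟩ := H'
  have t1 := S.met'.tri z p z'
  rw [S.met'.symm z'] at z4
  exact ⟨a₁, h1, h2, a₂, h3, h4, z, z1, z', z3, by omega⟩

theorem hf_two {a b : G} {p : Z} (ha : ∀ z, a • z = z → z = p) {y : Z'} (h1 : S.Rho y p)
    (h2 : S.rt y ≠ S.rh y) : S.Hf g mk (S.φ a) (S.φ b) y (S.ι p) 1 := by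
  have key : ∀ u, S.Rho y u → p ≠ u → S.Hf g mk (S.φ a) (S.φ b) y (S.ι p) 1 := fun u hu hne =>
    ⟨_, Or.inl rfl, S.move_of_gate hu fun e => hne (ha u e).symm, y, S.gg_left _ _,
      (S.rho_two_onL h1 hu hne).d_le.trans (by omega)⟩
  rcases id h1 with rfl | rfl
  exacts [key _ (S.rho_rh y) h2, key _ (S.rho_rt y) h2.symm]

theorem hf_all {c : ℕ} (B : BS G d g mk q q0 r' h) (ety : ∀ s : G, s • S.t ≠ S.h)
    (hA : TAs G d g mk c) {a b : G} {p : Z} (hp : a • p = p) (ha : ∀ z, a • z = z → z = p)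
    (hb : b • p ≠ p) (y : Z') : S.Hf g mk (S.φ a) (S.φ b) y (S.ι p) (c + 1) := by
  by_cases h1 : S.Rho y p
  · by_cases h2 : S.rt y = S.rh y
    · have h3 : p = S.rt y := by rwa [Rho, ← h2, or_self] at h1
      obtain ⟨e1, -⟩ := S.descend1 B ety (x := y) (h3 ▸ hb) (h2 ▸ h3 ▸ hb) h1
      refine ⟨_, Or.inr rfl, S.move_of_gate h1 hb, _, e1 p (B.left _ _), ?_⟩
      rw [S.met'.self]
      exact Nat.zero_le _
    · obtain ⟨a₁, e1, e2, z, z1, z2⟩ := S.hf_two (g := g) (mk := mk) (b := b) ha h1 h2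
      exact ⟨a₁, e1, e2, z, z1, by omega⟩
  · have h2 : ∀ u, S.Rho y u → a • u ≠ u := fun u hu e => h1 (ha u e ▸ hu)
    obtain ⟨e1, e2⟩ := S.descend1 B ety (h2 _ (S.rho_rt y)) (h2 _ (S.rho_rh y)) (S.rho_rt y)
    rcases hA {a} p (fun _ e => e ▸ hp) (S.rt y) with h3 | ⟨β, hβ, _, rfl, -, z, z1, z2⟩
    · exact absurd (h3 a rfl) (h2 _ (S.rho_rt y))
    · have t1 := S.d_ι z β
      rw [ha β (hβ _ rfl)] at t1 z2
      exact ⟨_, Or.inl rfl, S.move_of_gate (Or.inl rfl) (h2 _ (S.rho_rt y)), _, e1 z z1, by omega⟩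

theorem uus_base {c L f : ℕ} (B : BS G d g mk q q0 r' h) (ety : ∀ s : G, s • S.t ≠ S.h)
    (hh : H2 G S.h) (hA : TAs G d g mk c) (hU : UUs G d g mk L f) (hL : c + 2 ≤ f) {a b : G}
    (hab : ¬ Commute a b) (hfix : ∀ z : Z, a • z = z → b • z ≠ z) {x y : Z'}
    (a1 : d' x (S.φ a • x) ≤ L) (b1 : d' x (S.φ b • x) ≤ L) (a2 : d' y (S.φ a • y) ≤ L)
    (b2 : d' y (S.φ b • y) ≤ L) : S.UUo g mk (S.φ a) (S.φ b) x y f := by
  have bad : ∀ {a b : G} (x y : Z'), a ≠ 1 → (∀ z : Z, a • z = z → b • z ≠ z) →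
      S.rt x ≠ S.rh x → a • S.rh x = S.rh x → ∃ p, S.Hf g mk (S.φ a) (S.φ b) x p 1 ∧
        S.Hf g mk (S.φ a) (S.φ b) y p (c + 1) := by
    intro a b x y ha hfix h1 h2
    obtain ⟨s, -, -, e2⟩ := S.two_gates h1
    have h3 : ∀ z, a • z = z → z = S.rh x := fun z hz => by
      have h4 := hh (s⁻¹ * a * s) (s⁻¹ • z) (fun e => ha (by
        rw [show a = s * (s⁻¹ * a * s) * s⁻¹ by group, e, mul_one, mul_inv_cancel]))
        (by rw [mul_smul, mul_smul, ← e2, h2, e2, inv_smul_smul])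
        (by rw [mul_smul, mul_smul, smul_inv_smul, hz])
      rwa [inv_smul_eq_iff, ← e2] at h4
    exact ⟨_, S.hf_two h3 (S.rho_rh x) h1, S.hf_all B ety hA h2 h3 (hfix _ h2) y⟩
  have bad' : ∀ x y : Z', (S.rt x ≠ S.rh x ∧ (a • S.rh x = S.rh x ∨ b • S.rh x = S.rh x)) →
      ∃ p, S.Hf g mk (S.φ a) (S.φ b) x p 1 ∧ S.Hf g mk (S.φ a) (S.φ b) y p (c + 1) := by
    rintro x y ⟨h1, h2 | h2⟩
    · exact bad x y (fun e : a = 1 => hab (e ▸ Commute.one_left b)) hfix h1 h2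
    · obtain ⟨p, p1, p2⟩ := bad (b := a) x y (fun e : b = 1 => hab (e ▸ Commute.one_right a))
        (fun z e1 e2 => hfix z e2 e1) h1 h2
      exact ⟨p, p1.swap, p2.swap⟩
  by_cases hx : S.rt x ≠ S.rh x ∧ (a • S.rh x = S.rh x ∨ b • S.rh x = S.rh x)
  · obtain ⟨p, p1, p2⟩ := bad' x y hx
    exact p1.uuo p2 (by omega)
  by_cases hy : S.rt y ≠ S.rh y ∧ (a • S.rh y = S.rh y ∨ b • S.rh y = S.rh y)
  · obtain ⟨p, p1, p2⟩ := bad' y x hy
    exact p2.uuo p1 (by omega)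
  have good : ∀ (x : Z') (a₁ : G) (z : Z),
      ¬ (S.rt x ≠ S.rh x ∧ (a • S.rh x = S.rh x ∨ b • S.rh x = S.rh x)) → (a₁ = a ∨ a₁ = b) →
      a₁ • S.rt x ≠ S.rt x → z ∈ g (S.rt x) (a₁ • S.rt x) →
      S.φ a₁ • x ≠ x ∧ S.ι z ∈ S.gg g x (S.φ a₁ • x) ∧
        pen mk (S.rt x) (a₁ • S.rt x) ≤ pen (S.mkk mk) x (S.φ a₁ • x) := by
    intro x a₁ z hx h1 h2 hz
    obtain ⟨e1, e2⟩ := S.descend1 B ety h2 (fun e => hx ⟨fun e' => h2 (by rwa [e']),
      h1.imp (fun e' : a₁ = a => e' ▸ e) fun e' : a₁ = b => e' ▸ e⟩) (S.rho_rt x)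
    exact ⟨S.move_of_gate (Or.inl rfl) h2, e1 z hz, e2⟩
  obtain ⟨a₁, e1, e2, a₂, e3, e4, z, z1, z', z2, z3⟩ := hU a b (S.rt x) (S.rt y) hab
    ((S.rho_short (S.rho_rt x) a).trans a1) ((S.rho_short (S.rho_rt x) b).trans b1)
    ((S.rho_short (S.rho_rt y) a).trans a2) ((S.rho_short (S.rho_rt y) b).trans b2)
  obtain ⟨p1, p2, p3⟩ := good x a₁ z hx e1 e2 z1
  obtain ⟨p4, p5, p6⟩ := good y a₂ z' hy e3 e4 z2
  have t3 := S.d_ι z z'
  exact ⟨_, e1.imp (congrArg _) (congrArg _), p1, _, e3.imp (congrArg _) (congrArg _), p4,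
    _, p2, _, p5, by omega⟩

/-- `UUs` passes to the next stage. -/
theorem uus {c L f : ℕ} (B : BS G d g mk q q0 r' h) (ety : ∀ s : G, s • S.t ≠ S.h)
    (hh : H2 G S.h ∨ ∃ τ : Z, ∀ a : G, a • τ = τ)
    (ab : ∀ (a b : G) (x : Z), a • x = x → b • x = x → Commute a b)
    (ab' : ∀ (a b : G') (x : Z'), a • x = x → b • x = x → Commute a b) (hf : S.Com)
    (hA : TAs G d g mk c) (hU : UUs G d g mk L f) (hL : 10 * L + 28 + c ≤ f) :
    UUs G' d' (S.gg g) (S.mkk mk) L f := by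
  intro a b x y hab a1 b1 a2 b2
  by_cases hc : ∀ σ : G', σ * a * σ⁻¹ ∉ S.φ.range ∨ σ * b * σ⁻¹ ∉ S.φ.range
  · obtain ⟨p, p1, p2, -⟩ := S.exists_old_rho x
    obtain ⟨p', p3, p4, -⟩ := S.exists_old_rho y
    have e := S.u_old1 hf p1 p3 hab hc (L := L + 2) (by have := S.short_near p2 a; omega)
      (by have := S.short_near p4 a; omega) (by have := S.short_near p2 b; omega)
      (by have := S.short_near p4 b; omega)
    have t1 := S.met'.tri x p y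
    have t2 := S.met'.tri p p' y
    rw [S.met'.symm] at p4
    have mv : ∀ x : Z', ∃ a₁, (a₁ = a ∨ a₁ = b) ∧ a₁ • x ≠ x := fun x => by
      by_cases h1 : a • x = x
      exacts [⟨b, Or.inr rfl, fun h2 => hab (ab' a b x h1 h2)⟩, ⟨a, Or.inl rfl, h1⟩]
    obtain ⟨a₁, e1, e2⟩ := mv x
    obtain ⟨a₂, e3, e4⟩ := mv y
    exact ⟨a₁, e1, e2, a₂, e3, e4, x, S.gg_left _ _, y, S.gg_left _ _, by omega⟩
  · push Not at hc
    obtain ⟨σ, ⟨a₀, e1⟩, ⟨b₀, e2⟩⟩ := hc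
    have f1 : ∀ p : Z', S.φ a₀ • σ • p = σ • a • p := fun p => by simp [e1, mul_smul]
    have f2 : ∀ p : Z', S.φ b₀ • σ • p = σ • b • p := fun p => by simp [e2, mul_smul]
    have hab₀ : ¬ Commute a₀ b₀ := fun hh =>
      hab (by simpa [e1, e2, mul_assoc] using (hh.map S.φ).conj σ⁻¹)
    obtain ⟨a₁, c1, c2, a₂, c3, c4, z, z1, z', z2, z3⟩ := S.uus_base B ety
      (hh.resolve_right fun ⟨τ, hτ⟩ => hab₀ (ab _ _ τ (hτ _) (hτ _))) hA hU (by omega) hab₀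
      (fun z h1 h2 => hab₀ (ab _ _ z h1 h2)) (x := σ • x) (y := σ • y)
      (by rwa [f1, S.inv']) (by rwa [f2, S.inv']) (by rwa [f1, S.inv']) (by rwa [f2, S.inv'])
    have key : ∀ a₁ : G', (a₁ = S.φ a₀ ∨ a₁ = S.φ b₀) → ∃ a' : G', (a' = a ∨ a' = b) ∧
        ∀ p : Z', a₁ • σ • p = σ • a' • p := by
      rintro _ (rfl | rfl)
      exacts [⟨a, Or.inl rfl, f1⟩, ⟨b, Or.inr rfl, f2⟩]
    obtain ⟨a', k1, k2⟩ := key a₁ c1
    obtain ⟨a'', k3, k4⟩ := key a₂ c3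
    rw [k2] at c2 z1 z3
    rw [k4] at c4 z2 z3
    rw [S.pen_smul, S.pen_smul] at z3
    exact ⟨a', k1, fun e => c2 (by rw [e]), a'', k3, fun e => c4 (by rw [e]), σ⁻¹ • z,
      by simpa using S.gg_smul σ⁻¹ z1, σ⁻¹ • z', by simpa using S.gg_smul σ⁻¹ z2,
      by rwa [S.inv']⟩

/-- Two lines with two common points are equal. -/
theorem line_eq1 (hf : ∀ a : G, a • S.t = S.t → a • S.h = S.h → a = 1)
    (ety : ∀ s : G, s • S.t ≠ S.h) {x y p p' : Z'}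
    (x1 : S.OnL x p) (x2 : S.OnL x p') (y1 : S.OnL y p) (y2 : S.OnL y p') (hne : p' ≠ p) :
    x = y := by
  obtain ⟨σ, a, rfl, e⟩ := S.first_old x1.old x2.old hne
  have r1 := (x1.smul σ⁻¹).rho
  have r2 := (y1.smul σ⁻¹).rho
  rw [inv_smul_smul, S.rt_ι] at r1 r2
  obtain ⟨c, c1, c2⟩ := S.rho_two r1 (x2.smul σ⁻¹).rho e.symm
  obtain ⟨c', c3, c4⟩ := S.rho_two r2 (y2.smul σ⁻¹).rho e.symm
  have key : ∀ u v : Z, c • u = c' • v → (c'⁻¹ * c) • u = v := fun u v hh => by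
    rw [mul_smul, hh, inv_smul_smul]
  have : c'⁻¹ * c = 1 := by
    rcases c2 with ⟨a1, a2⟩ | ⟨a1, a2⟩ <;> rcases c4 with ⟨b1, b2⟩ | ⟨b1, b2⟩
    · exact hf _ (key _ _ (a1.symm.trans b1)) (key _ _ (a2.symm.trans b2))
    · exact absurd (key _ _ (a1.symm.trans b1)) (ety _)
    · exact absurd (key _ _ (a2.symm.trans b2)) (ety _)
    · exact hf _ (key _ _ (a2.symm.trans b2)) (key _ _ (a1.symm.trans b1))
  rw [inv_mul_eq_one] at this
  exact smul_left_cancel σ⁻¹ (by rw [c1, c3, this])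

theorem pw_old1 (hf : ∀ a : G, a • S.t = S.t → a • S.h = S.h → a = 1)
    (hs : ∀ s : G, s • S.t ≠ S.h) {a : G'}
    (ha : ∀ σ : G', σ⁻¹ * a * σ ∉ S.φ.range) (hfix : ∀ y : Z', a • y ≠ y) {x : Z'} (hx : S.Old x)
    (j : ℕ) : j ≤ 2 * d' x (a ^ j • x) + 2 := by
  obtain ⟨α, hα⟩ := S.exists_axis ha fun y _ => hfix y
  have e0 : ∀ i : ℤ, a ^ (i + 1) • α = a • a ^ i • α := fun i => by
    rw [add_comm, zpow_one_add, mul_smul]
  have h1 : ∀ i : ℤ, S.Bt (a ^ i • α) (a ^ (i + 1) • α) (a ^ (i + 2) • α) := fun i => by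
    have := hα.smul (a ^ (i + 1))
    rwa [← mul_smul, ← mul_smul _ a, ← zpow_add_one, ← zpow_sub_one, add_sub_cancel_right,
      show i + 1 + 1 = i + 2 by ring] at this
  have h2 : ∀ i : ℤ, a ^ i • α ≠ a ^ (i + 1) • α := fun i hh => hfix _ ((e0 i).symm.trans hh.symm)
  obtain ⟨hinj, m, hm⟩ := S.pre.exists_height (c := fun i => a ^ i • α) h1 h2 hx
  have h3 : ∀ i : ℕ, i < j → S.Bt x (a ^ (m + i) • α) (a ^ j • x) := fun i hi => by
    refine (Bt.split (hx.smul _) ((hm (m + i)).2 (by omega))).resolve_right fun hh => ?_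
    have := hh.smul (a ^ (-(j : ℤ)))
    rw [← zpow_natCast, ← mul_smul, ← mul_smul, ← mul_smul, ← zpow_add, ← zpow_add, ← zpow_add,
      neg_add_cancel, zpow_zero, one_smul, ← add_assoc _ _ (1 : ℤ)] at this
    have := (hm _).1 this
    omega
  obtain ⟨c, c0, c1, -, c2⟩ := S.exists_path x (a ^ j • x)
  have h4 : ∀ i : ℕ, ∃ s, i < j → s ≤ d' x (a ^ j • x) ∧
      (c s = a ^ (m + i) • α ∨ S.OnL (c s) (a ^ (m + i) • α)) := fun i => by
    by_cases hi : i < j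
    · obtain ⟨s, s1, s2⟩ := Bt.path (c := c) (by rw [c0, c1]; exact h3 i hi) c2
      exact ⟨s, fun _ => ⟨s1, s2⟩⟩
    · exact ⟨0, fun hh => absurd hh hi⟩
  choose s hs' using h4
  have h5 : ∀ (y : Z') (i k : ℤ), i + 2 ≤ k → (y = a ^ i • α ∨ S.OnL y (a ^ i • α)) →
      (y = a ^ k • α ∨ S.OnL y (a ^ k • α)) → False := by
    rintro y i k hik (e1 | e1) (e2 | e2)
    · have := hinj (e1.symm.trans e2)
      omega
    · exact e2.not_old (e1 ▸ hα.2.1.smul _)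
    · exact e1.not_old (e2 ▸ hα.2.1.smul _)
    · have al : ∀ l, i ≤ l → l ≤ k → S.OnL y (a ^ l • α) := fun l l1 l2 =>
        Bt.onL (S.pre.align (c := fun i => a ^ i • α) h1 h2 l1 l2) e1 e2
      refine hfix y (S.line_eq1 hf hs (p := a ^ (i + 1) • α) (p' := a ^ (i + 1 + 1) • α) ?_ ?_
        (al _ (by omega) (by omega)) (al _ (by omega) (by omega)) (h2 _).symm)
      · rw [e0]
        exact e1.smul a
      · rw [e0]
        exact (al _ (by omega) (by omega)).smul a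
  have h6 := Finset.card_le_card_of_injOn (s := Finset.range ((j + 1) / 2))
    (t := Finset.range (d' x (a ^ j • x) + 1)) (fun i => s (2 * i))
    (fun i hi => by
      have := (hs' (2 * i) (by simp at hi; omega)).1
      simp only [Finset.coe_range, Set.mem_Iio]
      omega)
    (fun i hi k hk hh => by
      simp only [Finset.coe_range, Set.mem_Iio] at hi hk hh
      have e1 := (hs' (2 * i) (by omega)).2
      have e2 := (hs' (2 * k) (by omega)).2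
      rw [hh] at e1
      rcases lt_trichotomy i k with h7 | h7 | h7
      exacts [(h5 _ _ _ (by omega) e1 e2).elim, h7, (h5 _ _ _ (by omega) e2 e1).elim])
  rw [Finset.card_range, Finset.card_range] at h6
  omega

/-- PW passes to the next stage. -/
theorem pws {P L : ℕ} (hf : ∀ a : G, a • S.t = S.t → a • S.h = S.h → a = 1)
    (hs : ∀ s : G, s • S.t ≠ S.h) (hP : PW G d P L) (hL : 2 * L + 6 ≤ P) : PW G' d' P L := by
  intro a hfix j hj x
  by_cases ha : ∀ σ : G', σ⁻¹ * a * σ ∉ S.φ.range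
  · obtain ⟨p, p1, p2, -⟩ := S.exists_old_rho x
    have e1 := S.pw_old1 hf hs ha hfix p1 j
    have e2 := S.short_near p2 (a ^ j)
    omega
  · push Not at ha
    obtain ⟨σ, a₁, e⟩ := ha
    have e1 : S.φ (a₁ ^ j) • σ⁻¹ • x = σ⁻¹ • a ^ j • x := by
      rw [map_pow, e, show σ⁻¹ * a * σ = σ⁻¹ * a * σ⁻¹⁻¹ by rw [inv_inv], conj_pow]
      simp [mul_smul]
    have e2 := S.rho_short (S.rho_rt (σ⁻¹ • x)) (a₁ ^ j)
    rw [e1, S.inv'] at e2
    refine (hP a₁ (fun z hz => hfix (σ • S.ι z) ?_) j hj _).trans e2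
    have := S.ι_smul a₁ z
    rw [hz, e, mul_smul, mul_smul] at this
    exact (inv_smul_eq_iff.1 this.symm)

end Gate

end gate

variable {E : Type} [CommGroup E]

namespace Tw

/-- The distance of heights. -/
def dh (i j : ℕ) : ℕ := ((i : ℤ) - j).natAbs

theorem dh_met : IsMet dh where
  self := fun a => by simp [dh]
  symm := fun a b => by
    unfold dh
    omega
  tri := fun a b c => by
    unfold dh
    omega

/-- The metric invariants in the form that passes to the next stage. -/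
def Geo (S : Tw E) (q c L f P : ℕ) : Prop :=
  3 ≤ q ∧ 3 ≤ c ∧ 10 * L + 28 + c ≤ f ∧ 2 * L + 6 ≤ P ∧
    ∃ (g : S.Z → S.Z → Set S.Z) (mk : S.Z → S.Z → Prop), BS S.G S.d g mk q 2 2 (2 * q + 1) ∧
      (∀ x y, S.d x y = 1 → mk x y) ∧ TAs S.G S.d g mk c ∧ UUs S.G S.d g mk L f ∧
      PW S.G S.d P L ∧ ∀ l0, Det S.d (fun _ => True) S.ht dh l0 1

/-- The metric invariants. -/
structure MI (S : Tw E) (k c L f P : ℕ) : Prop where
  hyp : Hyp4 S.d k
  det : ∀ l0, Det S.d (fun _ => True) S.ht dh l0 1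
  ta : TAM S.G S.d c
  ai : AI S.G S.d L f
  pw : PW S.G S.d P L

variable {S T : Tw E}

/-- Copy of `Gate.ta`. Fix an old point `p` from `exists_old_rho x` and use strong induction on
`cnt Bt p α` for the common fixed old point `α` (a common fixed cone: `ta_cone`). If `OnL x α`
take `z = x`. Otherwise `first` gives the copy `σ` (conjugate to `σ = 1`), `α = ι a₀`,
`¬ Rho x a₀`. If some `a ∈ U` is not in the range: second branch of `ta_base`. Otherwise let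
`U₁` be the preimage, `u = rt x`, `u' = rh x`. If `U₁` fixes `u`: for `u = u'` the point `ι u`
is closer (`bt_base`, `cnt_add`), for `u ≠ u'` it is on the line of `x`. Otherwise apply `TAs` at
`u`, get `β₁, a₁, z`. If `a₁ u' ≠ u'` then `Dis x (φ a₁ • x)` (by `ety`), first branch of
`descend`. Otherwise `u = g t`, `u' = g h` (`cone'`), `a₁ ≠ 1` fixes `g h`: `H2` gives `β₁ = g h`,
on the line of `x`; in the other case of `HH` take `β = ι τ`, at distance `≤ 3` from `x`. -/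
theorem Stp.tas (X : Stp S T) (hh : S.HH X.t X.h) {g : S.Z → S.Z → Set S.Z}
    {mk : S.Z → S.Z → Prop} {q q0 r' h c : ℕ} (B : BS S.G S.d g mk q q0 r' h)
    (hT : TAs S.G S.d g mk c) (hc : 3 ≤ c) :
    TAs T.G T.d (X.toGate.gg g) (X.toGate.mkk mk) c := by
  exact X.toGate.tas B X.ety (hh.imp_right And.left) hT hc

/-- Copy of `Gate.uu`. In `Dp.commute` one deep point `u` suffices: `Bt x u y` with `u ≠ x, y`
is a translate of `ι t` (otherwise `Sm u x y`), it is in the main class, `hT.eq` applied to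
`a * b`, `b * a`. If `a, b` are in a common copy (conjugate to the base copy): call `x` bad if
`rt x ≠ rh x` and `a` or `b` fixes `rh x = g h`. If neither point is bad use `UUs` at `rt x`,
`rt x'` and the first branch of `descend`. If `x` is bad, say `a` fixes `h' = g h`: the second
case of `HH` is impossible (`ab` at `τ`), so `a` fixes only `h'`; take `z = x` (distance `≤ 1`
from `ι h'`). If `h'` is the only gate of `x'` use `b` (it moves `h'`), `ι h' ∈ gg x' (b x')`; if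
it is one of two gates take `z' = x'`; if it is not a gate, `descend` applies to `a`, and `TAs` for
`U = {a}` gives a point within `c + pen` of `h'`. -/
theorem Stp.uus (X : Stp S T) (hS : S.OK) (hT : T.OK) (hh : S.HH X.t X.h)
    {g : S.Z → S.Z → Set S.Z} {mk : S.Z → S.Z → Prop} {q q0 r' h c L f : ℕ}
    (B : BS S.G S.d g mk q q0 r' h) (hA : TAs S.G S.d g mk c)
    (hU : UUs S.G S.d g mk L f) (hL : 10 * L + 28 + c ≤ f) :
    UUs T.G T.d (X.toGate.gg g) (X.toGate.mkk mk) L f := by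
  refine X.toGate.uus B X.ety (hh.imp_right fun h => h.1.imp fun _ => And.left) hS.ab hT.ab
    (fun a b γ e => ?_) hA hU hL
  exact hT.toOK0.eq ((X.k_ι γ X.t).2 X.kt) (by rw [mul_smul, mul_smul, e])
    (by rw [map_mul, map_mul, mul_comm])

/-- Copy of `Gate.line_eq`, `Gate.pw_old`, `Gate.pw`: only the pair `t, h` needs a trivial common
stabiliser (`hS.two`), and `ety`. -/
theorem Stp.pws (X : Stp S T) (hS : S.OK) {P L : ℕ} (hP : PW S.G S.d P L)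
    (hL : 2 * L + 6 ≤ P) : PW T.G T.d P L := by
  exact X.toGate.pws (fun a => hS.two a _ _ X.kt X.kh X.d1) X.ety hP hL

/-- Copy of `Stp.geo_step` of the old development. -/
theorem Stp.geo_step (X : Stp S T) (hS : S.OK) (hT : T.OK) (hh : S.HH X.t X.h)
    (h1 : dh X.n (S.ht X.t X.h) ≤ 1) (h2 : dh X.n (S.ht X.h X.t) ≤ 1) {q c L f P : ℕ}
    (h : S.Geo q c L f P) : T.Geo q c L f P := by
  obtain ⟨hq, hc, hf, hP, g, mk, B, hmk, h3, h4, h5, h6⟩ := h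
  have hm : mk X.t X.h := hmk _ _ X.d1
  have one : ∀ {U : Tw E}, U.OK → ∀ {x y : U.Z}, y ≠ x → U.d x y ≤ 1 → U.d x y = 1 :=
    fun hU x y e1 e2 => le_antisymm e2 (Nat.pos_of_ne_zero fun e => e1 (hU.gr.sep _ _ e).symm)
  have names : X.toGate.Names (fun _ => True) (fun _ => True) S.ht T.ht dh 1 := by
    refine ⟨dh_met, fun _ _ _ => trivial, fun _ _ => trivial,
      fun γ α n _ e2 e3 => hT.ht_smul γ α n (one hT e2 e3),
      fun a n _ e2 e3 => by simpa using X.ht_ι 1 a n (one hS e2 e3), ?_, ?_⟩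
    · have e1 := X.ht_tw 1
      have e2 := X.ht_ι 1 _ _ X.d1
      simp only [one_smul] at e1 e2
      rwa [e1, e2]
    · have e1 := X.ht_tw X.e
      have e2 := X.ht_ι 1 X.h X.t (by rw [hS.gr.met.symm, X.d1])
      simp only [one_smul] at e2
      rw [X.e_t, X.e_w] at e1
      rwa [e1, e2]
  refine ⟨hq, hc, hf, hP, X.toGate.gg g, X.toGate.mkk mk,
    X.toGate.bsl B hm (by omega) (by omega) le_rfl le_rfl, fun x y e => ?_,
    X.tas hh B h3 hc, X.uus hS hT hh B h3 h4 hf, X.pws hS h5 hP, fun l0 => names.det (h6 l0)⟩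
  rcases X.edge x y e.le with rfl | ⟨γ, z, z', e1, e2, -⟩ | e1 | e1
  · rw [hT.gr.met.self] at e
    omega
  · refine Or.inl ⟨γ, z, z', hmk _ _ ?_, e1, e2⟩
    rwa [e1, e2, X.inv', X.toGate.d_ι_eq] at e
  · exact Or.inr (Or.inl e1)
  · exact Or.inr (Or.inr e1)

/-- Copy of `mi_of_geo`. -/
theorem mi_of_geo (q c : ℕ) : ∃ k' c' F : ℕ, ∀ (E : Type) [CommGroup E] (S : Tw E) (L f P : ℕ),
    S.OK0 → S.Geo q c L f P → S.MI k' c' L (f + 2 * L + F) P := by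
  obtain ⟨p, hp⟩ := exists_exp (2 * q + 1)
  obtain ⟨F, hF⟩ : ∃ F, F = (p + 3) * (2 * q + 1) := ⟨_, rfl⟩
  refine ⟨6 * (4 * ((p + 3) * (2 * q + 1)) + (2 * q + 1) + 2) + 2, 2 * (F + c + 1),
    2 * (F + 1), ?_⟩
  rintro E _ S L f P hS ⟨-, -, -, -, g, mk, B, -, hT, hU, hP, hD⟩
  have m := hS.gr.met
  refine ⟨B.guess.hyp4 m hS.gr.sep hS.gr.geo hp, hD, fun U α hα x => (hT U α hα x).imp_right ?_,
    fun a b x x' hab a1 b1 a2 b2 => ?_, hP⟩
  · rintro ⟨β, hβ, a, ha, -, z, z1, z2⟩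
    obtain ⟨i, -, i2, i3⟩ := guess_btw hS.gr B.guess hp z1
    rw [← hF] at i2 i3
    have e2 := hS.iso a x β
    rw [hβ a ha] at e2
    have t1 := m.tri x z β
    have t2 := m.tri (a • x) z β
    have p1 := pen_le mk x (a • x)
    exact ⟨β, hβ, a, ha, by omega⟩
  · obtain ⟨a₁, e1, -, a₂, e2, -, z, z1, z', z2, z3⟩ := hU a b x x' hab a1 b1 a2 b2
    obtain ⟨i, i1, i2, -⟩ := guess_btw hS.gr B.guess hp z1
    obtain ⟨j, j1, j2, -⟩ := guess_btw hS.gr B.guess hp z2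
    rw [← hF] at i2 j2
    have p1 := pen_le mk x (a₁ • x)
    have p2 := pen_le mk x' (a₂ • x')
    have t1 := m.tri x z x'
    have t2 := m.tri z z' x'
    have s1 := m.symm z' x'
    have l1 : S.d x (a₁ • x) ≤ L := by rcases e1 with rfl | rfl <;> assumption
    have l2 : S.d x' (a₂ • x') ≤ L := by rcases e2 with rfl | rfl <;> assumption
    omega

/-- A stage of diameter at most four with a global fixed point and constant heights
(`bs_btw` with `Hyp4 d 8`). -/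
theorem geo_base (hS : S.OK) (hd : ∀ x y, S.d x y ≤ 4) {τ : S.Z} (hτ : ∀ a : S.G, a • τ = τ)
    (hn : ∀ x y, S.ht x y = 0) (L : ℕ) : S.Geo 11 4 L (10 * L + 32) (2 * L + 6) := by
  have hyp : Hyp4 S.d 8 := fun x y z w => Or.inl (by
    have := hd x y
    have := hd z w
    omega)
  have B := bs_btw hS.gr hS.iso hyp
  refine ⟨by omega, by omega, by omega, le_rfl, _, _, B, fun _ _ e => e, fun U α hα x => ?_,
    fun a b x x' hab => absurd (hS.ab a b τ (hτ a) (hτ b)) hab,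
    fun a ha => absurd (hτ a) (ha τ), fun l0 α n n' l _ _ _ _ _ => ?_⟩
  · refine or_iff_not_imp_left.2 fun hm => ?_
    push Not at hm
    obtain ⟨a, ha, h1⟩ := hm
    have := hd x α
    exact ⟨α, hα, a, ha, h1, x, B.left _ _, by omega⟩
  · rw [hn, hn, dh_met.self]
    exact Nat.zero_le _

end Tw

end Pool.Agent.Lib.MP_429c3d_al.Ng
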