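import Pool.Agent.Lib.MP_a2eab4_al.ReLow
import Pool.Agent.Lib.MP_a2eab4_al.TwG
import Pool.Agent.Lib.MP_429c3d_al.HypBlowH
import Pool.Agent.Lib.MP_429c3d_al.HypFree

set_option autoImplicit false

/-! A graph with heights of edges, blown up along the heights, and inflated to a free action. -/

namespace Pool.Agent.Lib.MP_a2eab4_al.Re

open Pool.Agent.Lib.MP_429c3d_al Hyp Ng

section infl

variable {J V : Type} {d : V → V → ℕ}

open Classical in
/-- Every point is replaced by a clique. -/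
noncomputable def dI (d : V → V → ℕ) (p q : V × J) : ℕ := if p = q then 0 else max (d p.1 q.1) 1

theorem dI_le (p q : V × J) : dI d p q ≤ max (d p.1 q.1) 1 := by
  unfold dI
  split_ifs <;> omega

theorem le_dI (m : IsMet d) (p q : V × J) : d p.1 q.1 ≤ dI d p q := by
  unfold dI
  split_ifs with h
  · rw [h, m.self]
  · omega

theorem dI_ne {p q : V × J} (h : p ≠ q) : dI d p q = max (d p.1 q.1) 1 := if_neg h

theorem dI_self (p : V × J) : dI d p p = 0 := if_pos rfl

theorem dI_gr (gr : IsGr d) : IsGr (dI (J := J) d) := by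
  have m : IsMet (dI (J := J) d) := by
    refine ⟨dI_self, fun p q => ?_, fun p q r => ?_⟩
    · by_cases h : p = q
      · rw [h]
      · rw [dI_ne h, dI_ne (Ne.symm h), gr.met.symm]
    · by_cases h : p = q
      · rw [h]
        omega
      by_cases h' : q = r
      · rw [h']
        omega
      have := dI_le (d := d) p r
      have := gr.met.tri p.1 q.1 r.1
      rw [dI_ne h, dI_ne h']
      omega
  refine ⟨m, fun p q h => ?_, isGeo_of_step m fun p q n h => ?_⟩
  · by_contra e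
    rw [dI_ne e] at h
    omega
  · by_cases h0 : n = 0
    · exact ⟨q, by omega, by rw [m.self]; omega⟩
    have := dI_le (d := d) p q
    have := le_dI gr.met p q
    obtain ⟨w, w1, w2⟩ := gr.geo.mid gr.met p.1 q.1 (s := 1) (by omega)
    have a1 := dI_le (d := d) p (w, p.2)
    have a2 := dI_le (d := d) (w, p.2) q
    exact ⟨(w, p.2), by simp only at a1; omega, by simp only at a2; omega⟩

theorem dI_hyp (m : IsMet d) {k : ℕ} (h : Hyp4 d k) : Hyp4 (dI (J := J) d) (k + 2) := by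
  intro x y z w
  have := h x.1 y.1 z.1 w.1
  have := dI_le (d := d) x y
  have := dI_le (d := d) z w
  have := le_dI m x z
  have := le_dI m y w
  have := le_dI m x w
  have := le_dI m y z
  omega

variable [Group J] [MulAction J V]

theorem dI_iso (h : Isom J d) : Isom J (dI (J := J) d) := by
  intro g p q
  by_cases e : p = q
  · rw [e, dI_self, dI_self]
  · rw [dI_ne e, dI_ne fun e' => e (smul_left_cancel g e')]
    exact congrArg (max · 1) (h g _ _)

theorem dI_free : Free J (V × J) := fun g p h => by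
  simpa using congrArg Prod.snd h

end infl

/-- The heights that occur at a vertex. -/
def Rg {Z : Type} (d ht : Z → Z → ℕ) (a : Z) (i : ℕ) : Prop :=
  ∃ n n', d a n = 1 ∧ d a n' = 1 ∧ ht a n ≤ i ∧ i ≤ ht a n'

/-- A graph with heights of edges. -/
structure HG (J : Type) {Z : Type} [Group J] [MulAction J Z] (d ht : Z → Z → ℕ) : Prop where
  gr : IsGr d
  iso : Isom J d
  ht_smul : ∀ (g : J) x y, d x y = 1 → ht (g • x) (g • y) = ht x y
  ht_symm : ∀ x y, d x y = 1 → ht x y = ht y x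
  nb : ∀ x, ∃ y, d x y = 1
  det : ∀ l, Det d (fun _ => True) ht (fun i j : ℕ => ((i : ℤ) - j).natAbs) l 1

variable {J Z : Type} [Group J] [MulAction J Z] {d ht : Z → Z → ℕ}

theorem rg_edge {u v : Z} (h : d u v = 1) : Rg d ht u (ht u v) := ⟨v, v, h, h, le_rfl, le_rfl⟩

theorem Rg.mid {a : Z} {i j t : ℕ} (h : Rg d ht a i) (h' : Rg d ht a j) (h1 : i ≤ t)
    (h2 : t ≤ j) : Rg d ht a t := by
  obtain ⟨n, -, a1, -, a2, -⟩ := h
  obtain ⟨-, n', -, b1, -, b2⟩ := h'
  exact ⟨n, n', a1, b1, by omega, by omega⟩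

/-- A vertex and a height. -/
@[ext]
structure Cq (H : HG J d ht) where
  a : Z
  i : ℕ
  ok : Rg d ht a i

namespace Cq

variable {H : HG J d ht}

instance : MulAction J (Cq H) where
  smul g p := ⟨g • p.a, p.i, by
    obtain ⟨n, n', a1, a2, a3, a4⟩ := p.ok
    exact ⟨g • n, g • n', (H.iso g _ _).trans a1, (H.iso g _ _).trans a2,
      by rwa [H.ht_smul g _ _ a1], by rwa [H.ht_smul g _ _ a2]⟩⟩
  one_smul p := Cq.ext (one_smul _ p.a) rfl
  mul_smul g g' p := Cq.ext (mul_smul g g' p.a) rfl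

theorem smul_a (g : J) (p : Cq H) : (g • p).a = g • p.a := rfl

theorem smul_i (g : J) (p : Cq H) : (g • p).i = p.i := rfl

theorem fix_iff (g : J) (p : Cq H) : g • p = p ↔ g • p.a = p.a :=
  ⟨congrArg Cq.a, fun h => Cq.ext h rfl⟩

/-- The point of an edge. -/
def fl (H : HG J d ht) {u v : Z} (h : d u v = 1) : Cq H := ⟨u, ht u v, rg_edge h⟩

/-- The edges. -/
def Adj (p q : Cq H) : Prop :=
  (q.a = p.a ∧ (q.i = p.i + 1 ∨ p.i = q.i + 1)) ∨
    (d p.a q.a = 1 ∧ p.i = ht p.a q.a ∧ q.i = ht q.a p.a)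

/-- The metric. -/
noncomputable def dW (H : HG J d ht) : Cq H → Cq H → ℕ := gd Adj

/-- The metric of the fibres. -/
def dF (p q : Cq H) : ℕ := ((p.i : ℤ) - q.i).natAbs

theorem gw_up {p q : Cq H} (h : p.a = q.a) {n : ℕ} (e : q.i = p.i + n) : GW Adj n p q :=
  ⟨fun t => ⟨p.a, p.i + min t n, p.ok.mid (h ▸ q.ok) (by omega) (by omega)⟩,
    Cq.ext rfl (by simp), Cq.ext h (by simp [e]), fun t _ =>
      Or.inr (Or.inl ⟨rfl, Or.inl (by simp only; omega)⟩)⟩

theorem adj_symm (p q : Cq H) (h : Adj p q) : Adj q p :=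
  h.imp (fun h => ⟨h.1.symm, h.2.symm⟩) fun h => ⟨by rw [H.gr.met.symm, h.1], h.2.2, h.2.1⟩

theorem gw_fib {p q : Cq H} (h : p.a = q.a) : GW Adj (dF p q) p q := by
  rcases le_total p.i q.i with e | e
  · exact gw_up h (by simp only [dF]; omega)
  · exact (gw_up h.symm (by simp only [dF]; omega)).symm adj_symm

theorem rtg_of_gw {V : Type} {r : V → V → Prop} {n : ℕ} {x y : V} (h : GW r n x y) :
    Relation.ReflTransGen r x y := by
  obtain ⟨c, rfl, rfl, h⟩ := h
  induction n with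
  | zero => exact .refl
  | succ n ih =>
    have := ih fun i hi => h i (by omega)
    exact (h n (by omega)).elim (fun e => e ▸ this) this.tail

theorem dW_gr : IsGr (dW H) ∧ ∀ p q, dW H p q ≤ 1 ↔ p = q ∨ Adj p q := by
  refine gd_isGr adj_symm fun p q => ?_
  refine H.gr.induct p.a (P := fun _ v => ∀ q : Cq H, q.a = v → Relation.ReflTransGen Adj p q)
    (fun q e => rtg_of_gw (gw_fib e.symm)) ?_ q.a q rfl
  intro n u v _ _ h ih q e
  exact ((ih (fl H h) rfl).tail (c := fl H ((H.gr.met.symm _ _).trans h))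
    (Or.inr ⟨h, rfl, rfl⟩)).trans (rtg_of_gw (gw_fib e.symm))

theorem dW_le {p q : Cq H} (h : p.a = q.a) : dW H p q ≤ dF p q := gd_le (gw_fib h)

theorem dW_crs {p q : Cq H} (h : d p.a q.a = 1) (h1 : p.i = ht p.a q.a) (h2 : q.i = p.i) :
    dW H p q ≤ 1 :=
  (dW_gr.2 _ _).2 (Or.inr (Or.inr ⟨h, h1, by rw [h2, h1, H.ht_symm _ _ h]⟩))

theorem crs_of_ne {p q : Cq H} (h : dW H p q ≤ 1) (hne : q.a ≠ p.a) :
    d p.a q.a = 1 ∧ p.i = ht p.a q.a ∧ q.i = p.i := by
  rcases (dW_gr.2 p q).1 h with e | e | e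
  · exact absurd (by rw [e]) hne
  · exact absurd e.1 hne
  · exact ⟨e.1, e.2.1, by rw [e.2.2, e.2.1, H.ht_symm _ _ e.1]⟩

theorem dF_one {p q : Cq H} (h : dW H p q ≤ 1) : dF p q ≤ 1 := by
  simp only [dF]
  rcases (dW_gr.2 p q).1 h with e | e | e
  · simp [e]
  · have := e.2
    omega
  · have := H.ht_symm _ _ e.1
    have := e.2
    omega

/-- Heights change by at most the distance. -/
theorem dF_le (p q : Cq H) : dF p q ≤ dW H p q := by
  refine dW_gr.1.induct p (P := fun n q => dF p q ≤ n) (by simp [dF]) ?_ q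
  intro n u v _ _ h ih
  have := dF_one h.le
  simp only [dF] at *
  omega

theorem blow (H : HG J d ht) {k : ℕ} (hyp : Hyp4 d k) :
    Blow (dW H) d dF Cq.a k 0 (20 * k + 20) := by
  refine ⟨dW_gr.1, H.gr, hyp, fun v => ⟨⟨fun x => by simp [dF], fun x y => by
    simp only [dF]; omega, fun x y z => by simp only [dF]; omega⟩, fun x y h => ?_,
    fun x y => ?_⟩, fun v x y z w => by simp only [dF]; omega,
    fun v => (H.nb v).elim fun _ h => ⟨fl H h, rfl⟩,
    fun p q h => dW_le h, fun p q _ h' => dF_one h', fun p q h => ?_,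
    fun u v h => ⟨fl H h, fl H ((H.gr.met.symm _ _).trans h), rfl, rfl,
      dW_crs h rfl (H.ht_symm _ _ h).symm⟩, fun p p' q q' h h1 h2 av => ?_⟩
  · exact Subtype.ext (Cq.ext (x.2.trans y.2.symm) (by simp only [dF] at h; omega))
  · have ox : Rg d ht v x.1.i := by simpa only [x.2] using x.1.ok
    have oy : Rg d ht v y.1.i := by simpa only [y.2] using y.1.ok
    by_cases e : x.1.i ≤ y.1.i
    · refine ⟨fun t => ⟨⟨v, min (x.1.i + t) y.1.i, ox.mid oy (by omega) (by omega)⟩, rfl⟩,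
        Subtype.ext (Cq.ext x.2.symm (by simp only; omega)), ?_, fun i j _ _ h => ?_⟩
      · simp only [dF]
        omega
      · simp only [dF] at h ⊢
        omega
    · refine ⟨fun t => ⟨⟨v, max (x.1.i - t) y.1.i, oy.mid ox (by omega) (by omega)⟩, rfl⟩,
        Subtype.ext (Cq.ext x.2.symm (by simp only; omega)), ?_, fun i j _ _ h => ?_⟩
      · simp only [dF]
        omega
      · simp only [dF] at h ⊢
        omega
  · by_cases e : q.a = p.a
    · rw [e, H.gr.met.self]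
      omega
    · exact (crs_of_ne h e).1.le
  · obtain ⟨n1, n2⟩ := avoid_ne av
    obtain ⟨a1, a2, -⟩ := crs_of_ne h1 n1
    obtain ⟨b1, b2, -⟩ := crs_of_ne h2 (h ▸ n2)
    have := H.det _ p.a q.a q'.a _ trivial le_rfl a1.le (h ▸ b1.le) av
    simp only [one_mul] at this
    rwa [dF, a2, b2, ← h]

theorem iso : Isom J (dW H) := by
  have key : ∀ (g : J) n (p q : Cq H), GW Adj n p q → GW Adj n (g • p) (g • q) := by
    rintro g n p q ⟨c, rfl, rfl, h⟩
    refine ⟨fun i => g • c i, rfl, rfl, fun i hi => (h i hi).imp (congrArg (g • ·))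
      (Or.imp (fun e => ⟨congrArg (g • ·) e.1, e.2⟩) fun e => ⟨(H.iso g _ _).trans e.1, ?_, ?_⟩)⟩
    · exact e.2.1.trans (H.ht_smul g _ _ e.1).symm
    · exact e.2.2.trans (H.ht_smul g _ _ ((H.gr.met.symm _ _).trans e.1)).symm
  intro g p q
  unfold dW gd
  congr 1
  ext n
  exact ⟨fun w => by simpa using key g⁻¹ n _ _ w, key g n p q⟩

theorem bact : BAct J (dW H) d dF Cq.a := ⟨iso, H.iso, fun _ _ _ _ => rfl, fun _ _ => rfl⟩

/-- A set with a common fixed point is short only near a common fixed point. -/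
theorem near_fix {k c s : ℕ} (hyp : Hyp4 d k) (ta : TAM J d c) {U : Set J} {α : Z}
    (hα : ∀ a ∈ U, a • α = α) (p : Cq H) (hs : ∀ a ∈ U, dW H p (a • p) ≤ s) :
    ∃ q : Cq H, (∀ a ∈ U, a • q = q) ∧
      dW H p q ≤ (s + c + 1) * ((20 * k + 21) * (s + 2) + 1) := by
  have B := blow H hyp
  rcases ta U α hα p.a with e | ⟨β, e1, a, e2, e3⟩
  · exact ⟨p, fun a ha => (fix_iff a p).2 (e a ha), by rw [B.grW.met.self]; omega⟩
  have e4 := (B.bar_le p (a • p)).trans (hs a e2)
  rw [smul_a] at e4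
  obtain ⟨q, rfl⟩ := B.surj β
  rcases B.first_far ((20 * k + 21) * (s + 2)) p q with e | ⟨v, u, u', f1, f2, f3, f4, f5⟩
  · exact ⟨q, fun a ha => (fix_iff a q).2 (e1 a ha),
      e.trans (Nat.mul_le_mul_right _ (by omega))⟩
  · refine ⟨u, fun a ha => (fix_iff a u).2 ?_, f5.trans (Nat.mul_le_mul_right _ (by omega))⟩
    rw [f1.1]
    exact B.TAP bact (hs a ha) (e1 a ha) ⟨u, u', f1, f2, Nat.le_of_succ_le f3⟩

theorem ai {k L f : ℕ} (hyp : Hyp4 d k) (ab : ∀ (a b : J) (x : Z), a • x = x → b • x = x →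
    Commute a b) (h : AI J d L f) :
    AI J (dW H) L ((f + 1) * ((20 * k + 21) * (7 * L + 12) + 1)) := by
  have B := blow H hyp
  intro a b p q hn a1 b1 a2 b2
  have e := h a b p.a q.a hn ((B.bar_le p (a • p)).trans a1) ((B.bar_le p (b • p)).trans b1)
    ((B.bar_le q (a • q)).trans a2) ((B.bar_le q (b • q)).trans b2)
  refine (B.upper (Θ := (20 * k + 21) * (7 * L + 12)) fun v hv => hn (ab a b v ?_ ?_)).trans
    (Nat.mul_le_mul_right _ (by omega))
  · exact B.TP bact a1 a2 (hv.mono (Nat.le_succ _))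
  · exact B.TP bact b1 b2 (hv.mono (Nat.le_succ _))

end Cq

/-- The free fibre. -/
abbrev Fq (H : HG J d ht) : Type := Cq H × J

/-- The metric of the free fibre. -/
noncomputable def dC (H : HG J d ht) : Fq H → Fq H → ℕ := dI (Cq.dW H)

namespace Fq

variable {H : HG J d ht} {k : ℕ}

/-- The vertex below a point. -/
def bar (p : Fq H) : Z := p.1.a

/-- The height of a point. -/
def hgt (p : Fq H) : ℕ := p.1.i

theorem bar_smul (g : J) (p : Fq H) : bar (g • p) = g • bar p := rfl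

theorem hgt_smul (g : J) (p : Fq H) : hgt (g • p) = hgt p := rfl

theorem gr : IsGr (dC H) := dI_gr Cq.dW_gr.1

theorem iso : Isom J (dC H) := dI_iso Cq.iso

theorem free : Free J (Fq H) := dI_free

theorem hyp (h : Hyp4 d k) : Hyp4 (dC H) (blowK k 0 (20 * k + 20) + 2) :=
  dI_hyp Cq.dW_gr.1.met (Cq.blow H h).hypW

theorem le_dC (p q : Fq H) : Cq.dW H p.1 q.1 ≤ dC H p q := le_dI Cq.dW_gr.1.met p q

theorem dC_le (p q : Fq H) : dC H p q ≤ Cq.dW H p.1 q.1 + 1 := (dI_le p q).trans (by omega)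

theorem bar_le (h : Hyp4 d k) (p q : Fq H) : d (bar p) (bar q) ≤ dC H p q :=
  ((Cq.blow H h).bar_le _ _).trans (le_dC p q)

theorem hgt_le (p q : Fq H) : hgt p ≤ hgt q + dC H p q := by
  have := (Cq.dF_le p.1 q.1).trans (le_dC p q)
  simp only [Cq.dF] at this
  unfold hgt
  omega

theorem fix_short {g : J} {p : Fq H} (h : g • bar p = bar p) : dC H p (g • p) ≤ 1 := by
  have := dI_le (d := Cq.dW H) p (g • p)
  rw [show (g • p).1 = p.1 from (Cq.fix_iff g p.1).2 h, Cq.dW_gr.1.met.self] at this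
  exact this

theorem near_fix {c s : ℕ} (hyp : Hyp4 d k) (ta : TAM J d c) {U : Set J} {α : Z}
    (hα : ∀ a ∈ U, a • α = α) (p : Fq H) (hs : ∀ a ∈ U, dC H p (a • p) ≤ s) :
    ∃ q : Fq H, (∀ a ∈ U, a • bar q = bar q) ∧
      dC H p q ≤ (s + c + 1) * ((20 * k + 21) * (s + 2) + 1) + 1 := by
  obtain ⟨q, h1, h2⟩ := Cq.near_fix hyp ta hα p.1 fun a ha => (le_dC p (a • p)).trans (hs a ha)
  exact ⟨(q, 1), fun a ha => (Cq.fix_iff a q).1 (h1 a ha),
    (dC_le p (q, 1)).trans (Nat.succ_le_succ h2)⟩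

theorem ai {L f : ℕ} (hyp : Hyp4 d k) (ab : ∀ (a b : J) (x : Z), a • x = x → b • x = x →
    Commute a b) (h : AI J d L f) :
    AI J (dC H) L ((f + 1) * ((20 * k + 21) * (7 * L + 12) + 1) + 1) :=
  fun a b p q hn a1 b1 a2 b2 => (dC_le p q).trans (Nat.succ_le_succ (Cq.ai hyp ab h a b p.1 q.1 hn
    ((le_dC p (a • p)).trans a1) ((le_dC p (b • p)).trans b1) ((le_dC q (a • q)).trans a2)
    ((le_dC q (b • q)).trans b2)))

theorem big (hyp : Hyp4 d k) {n : ℕ} {y c : J} (h : Big d n y c) : Big (dC H) n y c := fun p =>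
  (h (bar p)).imp (fun e => e.trans (bar_le hyp p (y • p))) fun e => e.trans (bar_le hyp p (c • p))

theorem esc (hyp : Hyp4 d k) {K n : ℕ} {y c : J} (h : Esc d K n y c) : Esc (dC H) K n y c :=
  h.imp fun _ h => ⟨h.1, big hyp h.2⟩

theorem pw (hyp : Hyp4 d k) {P L : ℕ} (h : PW J d P L) {a : J} (ha : ∀ z : Z, a • z ≠ z) {j : ℕ}
    (hj : P ≤ j) (p : Fq H) : L ≤ dC H p (a ^ j • p) :=
  (h a ha j hj (bar p)).trans (bar_le hyp p (a ^ j • p))

/-- An element with a bounded orbit fixes a vertex. -/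
theorem fix_of_bd (hyp : Hyp4 d k) {P : ℕ → ℕ} (h : ∀ L, PW J d (P L) L) {g : J} {p : Fq H}
    {m : ℕ} (hg : ∀ i : ℤ, dC H p (g ^ i • p) ≤ m) : ∃ z : Z, g • z = z := by
  by_contra e
  have := pw hyp (h (m + 1)) (fun z hz => e ⟨z, hz⟩) le_rfl p
  have := hg (P (m + 1))
  rw [zpow_natCast] at this
  omega

theorem bd_of_fix {g : J} {z : Z} (h : g • z = z) : ∃ p : Fq H, ∀ i : ℤ, dC H p (g ^ i • p) ≤ 1 :=
  (H.nb z).elim fun _ e => ⟨(Cq.fl H e, 1), fun i => fix_short
    (MulAction.mem_stabilizer_iff.1 (zpow_mem (MulAction.mem_stabilizer_iff.2 h) i))⟩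

/-- Where a power of an elliptic element is short, all powers are short. -/
theorem pe1 {c s : ℕ} (hyp : Hyp4 d k) (ta : TAM J d c) (rc : RCl J Z) {g : J} {z : Z}
    (h : g • z = z) {j : ℤ} (hj : j ≠ 0) (p : Fq H) (hs : dC H p (g ^ j • p) ≤ s) (i : ℤ) :
    dC H p (g ^ i • p) ≤ 2 * ((s + c + 1) * ((20 * k + 21) * (s + 2) + 1) + 1) + 1 := by
  have pw : ∀ {x : Z} {a : J}, a • x = x → ∀ i : ℤ, a ^ i • x = x := fun h i =>
    MulAction.mem_stabilizer_iff.1 (zpow_mem (MulAction.mem_stabilizer_iff.2 h) i)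
  obtain ⟨q, h1, h2⟩ := near_fix hyp ta (U := {g ^ j}) (α := z) (fun a ha => ha ▸ pw h j) p
    fun a ha => ha ▸ hs
  have h3 : g • bar q = bar q := by
    refine rc g j.natAbs _ (by omega) ?_
    rcases Int.natAbs_eq j with e | e
    · rw [← zpow_natCast, ← e]
      exact h1 _ rfl
    · have := pw (h1 _ rfl) (-1)
      rwa [← zpow_mul, show j * -1 = (j.natAbs : ℤ) by omega, zpow_natCast] at this
  have a1 := fix_short (pw h3 i)
  have a2 := (gr (H := H)).met.tri p q (g ^ i • p)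
  have a3 := (gr (H := H)).met.tri q (g ^ i • q) (g ^ i • p)
  rw [iso, gr.met.symm q p] at a3
  omega

end Fq

variable {o p : Z} {M : ℕ} {c : ℕ → ℕ}

theorem Low.hg (L : Low J d ht o p M c) (nb : ∀ x, ∃ y, d x y = 1) : HG J d ht :=
  ⟨L.gr, L.iso, L.ht_smul, L.ht_symm, nb, L.det⟩

/-- The base point of the fibre. -/
def Low.base (L : Low J d ht o p M c) (H : HG J d ht) : Fq H := (Cq.fl H L.adj, 1)

namespace Low

variable (L : Low J d ht o p M c) (H : HG J d ht)

theorem bar_base : Fq.bar (L.base H) = o := rfl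

theorem hgt_base : Fq.hgt (L.base H) = M := L.top

theorem base_syl {a : J} (h : a ∈ Syl J o p) : dC H (L.base H) (a • L.base H) ≤ 2 := by
  rcases h with h | h
  · exact (Fq.fix_short h).trans (by omega)
  have e := (L.gr.met.symm _ _).trans L.adj
  have a1 : Cq.dW H (Cq.fl H L.adj) (Cq.fl H e) ≤ 1 := Cq.dW_crs L.adj rfl (L.ht_symm _ _ e)
  have a2 := Cq.iso a (Cq.fl H L.adj) (Cq.fl H e)
  rw [(Cq.fix_iff a (Cq.fl H e)).2 h, Cq.dW_gr.1.met.symm] at a2
  have a3 := Cq.dW_gr.1.met.tri (Cq.fl H L.adj) (Cq.fl H e) (a • Cq.fl H L.adj)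
  exact (dI_le _ _).trans (max_le (a3.trans (by omega)) (by omega))

theorem base_word {n : ℕ} {a : J} (h : Wd (Syl J o p) n a) :
    dC H (L.base H) (a • L.base H) ≤ 2 * n := by
  refine h.induct (P := fun n a => dC H (L.base H) (a • L.base H) ≤ 2 * n)
    (fun n => by rw [one_smul, Fq.gr.met.self]; omega) fun n a g ha _ ih => ?_
  have := L.base_syl H ha
  have := (Fq.gr (H := H)).met.tri (L.base H) (a • L.base H) ((a * g) • L.base H)
  rw [mul_smul, Fq.iso, ← mul_smul] at this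
  omega

include L in
theorem rep_word {r r' : Z} {g : J} (h : r = o ∨ r = p) (h' : r' = o ∨ r' = p) (e : g • r = r') :
    g ∈ Syl J o p := by
  rcases h with rfl | rfl <;> rcases h' with h' | h' <;> rw [h'] at e
  exacts [Or.inl e, absurd e (L.ne g), absurd (inv_smul_eq_iff.2 e.symm) (L.ne g⁻¹), Or.inr e]

/-- Points near the base point lie over short translates of `o` or `p`. -/
theorem word_of_near {s : ℕ} (hs : s < M) {q : Fq H} (h : dC H (L.base H) q ≤ s) :
    ∃ a : J, Wd (Syl J o p) (s * (3 * (c s + 1))) a ∧ (Fq.bar q = a • o ∨ Fq.bar q = a • p) := by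
  obtain ⟨g, g0, g1, hg⟩ := Cq.dW_gr.1.exists_geo (L.base H).1 q.1
  have hn := (Fq.le_dC _ _).trans h
  have hh : ∀ i, i ≤ Cq.dW H (L.base H).1 q.1 → M ≤ (g i).i + s := fun i hi => by
    have e1 := Cq.dF_le (g 0) (g i)
    have e2 := hg 0 i le_rfl (Nat.zero_le _) hi
    have e3 : (g 0).i = M := g0 ▸ L.top
    simp only [Cq.dF] at e1
    omega
  obtain ⟨a, r, h1, h2, h3⟩ := word_of_path (J := J) (syl_inv o p) (rep := fun r => r = o ∨ r = p)
    (C := c s + 1) (fun r r' g h h' e => (Wd.of (L.rep_word h h' e)).mono (by omega))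
    (g := fun i => (g i).a) (Or.inl (congrArg Cq.a g0)) (n := Cq.dW H (L.base H).1 q.1)
    fun i hi => by
      by_cases e : (g (i + 1)).a = (g i).a
      · obtain ⟨-, n, -, a1, -, a2⟩ := (g i).ok
        have := hh i hi.le
        obtain ⟨a, μ, -, r, -, b1, -, b2, -, b3, -⟩ := L.edge s _ _ hs a1 (by omega)
        exact ⟨a, μ, μ, r, r, b1, b1, b2.mono (by omega), b2.mono (by omega), b3, e.trans b3⟩
      · have e2 := hg i (i + 1) (Nat.zero_le _) (by omega) hi
        obtain ⟨a1, a2, -⟩ := Cq.crs_of_ne (p := g i) (by omega) e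
        have := hh i hi.le
        obtain ⟨a, μ, μ', r, r', b1, b2, b3, b4, b5⟩ := L.edge s _ _ hs a1 (by omega)
        exact ⟨a, μ, μ', r, r', b1, b2, b3.mono (by omega), b4.mono (by omega), b5⟩
  simp only [g1] at h3
  exact ⟨a, h2.mono (Nat.mul_le_mul_right _ hn),
    h1.imp (fun e : r = o => e ▸ h3) fun e : r = p => e ▸ h3⟩

/-- Elements that are short at the base point are short words. -/
theorem word_of_short {s : ℕ} (hs : s < M) {g : J} (h : dC H (L.base H) (g • L.base H) ≤ s) :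
    Wd (Syl J o p) (s * (3 * (c s + 1)) + 1) g := by
  obtain ⟨a, h1, h2 | h2⟩ := L.word_of_near H hs h
  · have := h1.mul (Wd.of (a := a⁻¹ * g) (Or.inl (by
      rw [mul_smul, inv_smul_eq_iff]
      exact h2)))
    rwa [mul_inv_cancel_left] at this
  · exact absurd (by rw [mul_smul, inv_smul_eq_iff]; exact h2) (L.ne (a⁻¹ * g))

/-- The fibre over `p` is a clique. -/
theorem hgt_of_p (top : ∀ n, d p n = 1 → ht p n = M) {q : Fq H} {g : J}
    (h : Fq.bar q = g • p) : Fq.hgt q = M := by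
  obtain ⟨n, n', a1, a2, a3, a4⟩ := (g⁻¹ • q.1).ok
  have e : (g⁻¹ • q.1).a = p := inv_smul_eq_iff.2 h
  rw [e] at a1 a2 a3 a4
  rw [top n a1] at a3
  rw [top n' a2] at a4
  exact le_antisymm a4 a3

end Low

end Pool.Agent.Lib.MP_a2eab4_al.Re
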