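import Pool.Agent.Lib.MP_a2eab4_al.ReHb
import Pool.Agent.Lib.MP_429c3d_al.HypCH

set_option autoImplicit false

/-! Dehn filling of spaces with horoballs. -/

namespace Pool.Agent.Lib.MP_a2eab4_al.Re

open Pool.Agent.Lib.MP_429c3d_al Hyp Ng

variable {G Y P : Type} [Group G] [MulAction G Y] {d : Y → Y → ℕ} {hb : G → P → ℕ → Y}
  {S : P → Set G} {k : ℕ}

/-- The quotient by a group that fixes the end of a ray is hyperbolic. -/
theorem qd_hyp (m : IsMet d) (iso : Isom G d) (hyp : Hyp4 d k) (H : Subgroup G) (ray : ℕ → Y)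
    (fix : ∀ h ∈ H, ∃ n0, ∀ n, n0 ≤ n → d (ray n) (h • ray n) ≤ 1) :
    Hyp4 (qd d H) (2 * k + 6) := by
  choose kk h1 h2 using exists_qd d H
  choose nn h3 using fun a b => fix (kk a b) (h1 a b)
  have key : ∀ n a b c, nn a b ≤ n → nn b c ≤ n →
      qd d H a c + d (ray n) b ≤ qd d H a b + d (ray n) c + (k + 3) ∨
        qd d H a c + d (ray n) b ≤ d (ray n) a + qd d H b c + (k + 3) := by
    intro n a b c e1 e2
    have f1 := h3 a b n e1
    have f2 := h3 b c n e2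
    have f3 := qd_le (d := d) (H.mul_mem (h1 a b) (h1 b c)) a c
    have f4 := hyp a ((kk a b * kk b c) • c) (kk a b • b) (ray n)
    have f5 : d ((kk a b * kk b c) • c) (kk a b • b) = qd d H b c := by
      rw [mul_smul, iso, m.symm, h2]
    have f6 := m.tri (kk a b • ray n) (ray n) (kk a b • b)
    have f7 := m.tri (ray n) (kk a b • ray n) ((kk a b * kk b c) • c)
    have f8 := m.tri (ray n) (kk b c • ray n) (kk b c • c)
    rw [iso, m.symm _ (ray n)] at f6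
    rw [mul_smul, iso, ← mul_smul] at f7
    rw [iso] at f8
    rw [h2, f5, m.symm _ (ray n), m.symm _ (ray n), m.symm _ (ray n)] at f4
    omega
  intro x y z w
  have s := (qd_met m iso H).symm
  obtain ⟨n, hn⟩ : ∃ n, n = nn x z + nn z y + nn x w + nn w y + nn z x + nn y w := ⟨_, rfl⟩
  have e1 := key n x z y (by omega) (by omega)
  have e2 := key n x w y (by omega) (by omega)
  have e3 := key n z x w (by omega) (by omega)
  have e4 := key n z y w (by omega) (by omega)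
  rw [s z y] at e1 e4
  rw [s w y] at e2
  rw [s z x] at e3
  omega

/-- The groups of the charts. -/
def chN (K : P → Subgroup G) : Option (G × P) → Subgroup G
  | none => ⊥
  | some a => (K a.2).comap (MulAut.conj a.1⁻¹).toMonoidHom

/-- The good points of the charts. -/
def chG (hb : G → P → ℕ → Y) (S : P → Set G) (R : ℕ) (x : Y) : Option (G × P) → Prop
  | none => dep hb x ≤ R
  | some a => Cl hb S (hb a.1 a.2 0) x

theorem mem_chN {K : P → Subgroup G} {g a : G} {p : P} :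
    a ∈ chN K (some (g, p)) ↔ g⁻¹ * a * g ∈ K p := by
  simp [chN]

theorem Hb.atlas (B : Hb G d hb S) (hyp : Hyp4 d k) {K : P → Subgroup G} {σ : ℕ}
    (le : ∀ p, K p ≤ Subgroup.closure (S p))
    (nrm : ∀ p, ∀ f ∈ Subgroup.closure (S p), ∀ a ∈ K p, f⁻¹ * a * f ∈ K p)
    (gir : ∀ p, ∀ a ∈ K p, Wd (S p) ((2 * k + 1) * 2 ^ (5 * σ + 4 * k + 2)) a → a = 1) :
    Atlas d (chN K) (chG hb S (2 * σ)) (2 * k + 6) σ := by
  have m := B.gr.met
  refine ⟨m, B.gr.sep, B.gr.geo, hyp.mono (by omega), B.iso, ?_, ?_, ?_, ?_⟩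
  · rintro f (_ | ⟨g, p⟩)
    · refine ⟨none, fun x => by simp only [chG, B.dep_smul], fun g => ?_⟩
      simp [chN]
    · refine ⟨some (f⁻¹ * g, p), fun x => ⟨fun h => ?_, fun h => ?_⟩, fun a => ?_⟩
      · have := B.cl_smul f⁻¹ h
        rwa [inv_smul_smul, B.smul] at this
      · have := B.cl_smul f h
        rwa [B.smul, mul_inv_cancel_left] at this
      · rw [mem_chN, mem_chN]
        simp [mul_assoc]
  · rintro (_ | ⟨g, p⟩) x
    · refine qd_hyp m B.iso hyp _ (fun _ => x) (fun h hh => ⟨0, fun _ _ => ?_⟩) x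
      rw [Subgroup.mem_bot.1 hh, one_smul, m.self]
      omega
    · refine qd_hyp m B.iso hyp _ (hb g p) (fun h hh => ?_) x
      obtain ⟨n, hn⟩ := exists_wd (B.inv p) (le p (mem_chN.1 hh))
      refine ⟨n, fun j hj => ?_⟩
      have := B.hor g p j _ (hn.mono ((Nat.lt_two_pow_self (n := n)).le.trans
        (Nat.pow_le_pow_right (by omega) hj)))
      rwa [B.smul, show h * g = g * (g⁻¹ * h * g) by group]
  · intro x
    by_cases h : dep hb x ≤ σ
    · exact ⟨none, fun z hz => (B.dep_le x z).trans (by omega)⟩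
    · rcases out_or hb x with e | ⟨g, p, n, rfl⟩
      · rw [e.dep] at h
        omega
      · exact ⟨some (g, p), fun z hz => B.cl_trans (w' := hb g p n)
          (B.cl_hb.2 ⟨1, n, one_mem _, by rw [mul_one]⟩) (B.cl_of_le (by omega))⟩
  · rintro x (_ | ⟨g, p⟩) b f ha hb' hd hf
    · rw [Subgroup.mem_bot.1 hf]
      exact one_mem _
    obtain ⟨c, n, c1, rfl⟩ := (B.cl_hb (g := g) (p := p)).1 ha
    have e := nrm p c c1 _ (mem_chN.1 hf)
    rcases b with _ | ⟨g', p'⟩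
    · have e1 : n ≤ 2 * σ := by simpa only [chG, B.dep_hb] using hb'
      rw [B.smul, show f * (g * c) = g * c * (c⁻¹ * (g⁻¹ * f * g) * c) by group] at hd
      have e2 := gir p _ e (B.wd_of_le hyp (le p e) (s := 5 * σ) (g := g * c) (a := n) (a' := n)
        (by omega))
      have e3 : f = g * c * (c⁻¹ * (g⁻¹ * f * g) * c) * (g * c)⁻¹ := by group
      rw [e3, e2]
      simp [chN]
    · obtain ⟨c', n', c2, e1⟩ := (B.cl_hb (g := g') (p := p')).1 hb'
      obtain ⟨e2, rfl, -⟩ := B.inj _ _ _ _ _ _ e1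
      have e3 := nrm p _ (inv_mem c2) _ e
      rw [mem_chN, show g' = g * c * c'⁻¹ by rw [e2, mul_inv_cancel_right]]
      convert e3 using 1
      group

/-- The filled space. -/
structure Fill (d : Y → Y → ℕ) (hb : G → P → ℕ → Y) (S : P → Set G) (K : P → Subgroup G)
    (κ r : ℕ) where
  Γ : Type
  V : Type
  [grp : Group Γ]
  [act : MulAction Γ V]
  dV : V → V → ℕ
  hV : Γ → P → ℕ → V
  θ : G →* Γ
  Φ : Y → V
  hbV : Hb Γ dV hV (fun p => θ '' S p)
  hyp : Hyp4 dV κ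
  surj : Function.Surjective θ
  onto : Function.Surjective Φ
  Φ_smul : ∀ (g : G) x, Φ (g • x) = θ g • Φ x
  Φ_hb : ∀ g p n, Φ (hb g p n) = hV (θ g) p n
  Φ_eq : ∀ x y, Φ x = Φ y ↔ ∃ g : G, θ g = 1 ∧ x = g • y
  le : ∀ x y, dV (Φ x) (Φ y) ≤ d x y
  lift : ∀ x y, ∃ g : G, θ g = 1 ∧ d x (g • y) = dV (Φ x) (Φ y)
  ker : ∀ p, ∀ a ∈ Subgroup.closure (S p), θ a = 1 ↔ a ∈ K p
  inj : ∀ (g : G) x, θ g = 1 → dep hb x ≤ r → d x (g • x) ≤ r → g = 1
  out : ∀ x, Out hV (Φ x) ↔ Out hb x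
  dep_eq : ∀ x, dep hV (Φ x) = dep hb x

attribute [instance] Fill.grp Fill.act

/-- The orbit relation. -/
def orb (N : Subgroup G) (Y : Type) [MulAction G Y] : Setoid Y where
  r x y := ∃ g ∈ N, x = g • y
  iseqv := ⟨fun x => ⟨1, one_mem _, (one_smul _ _).symm⟩,
    fun ⟨g, e1, e2⟩ => ⟨g⁻¹, inv_mem e1, by rw [e2, inv_smul_smul]⟩,
    fun ⟨g, e1, e2⟩ ⟨h, e3, e4⟩ => ⟨g * h, mul_mem e1 e3, by rw [e2, e4, mul_smul]⟩⟩

/-- The action of the quotient group on the orbits. -/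
@[reducible] def orbAct (N : Subgroup G) [hN : N.Normal] (Y : Type) [MulAction G Y] :
    MulAction (G ⧸ N) (Quotient (orb N Y)) where
  smul γ v := Quotient.map₂ (sa := QuotientGroup.leftRel N) (sb := orb N Y) (sc := orb N Y)
    (fun g y => g • y) (by
      rintro g g' hg _ y ⟨n, hn, rfl⟩
      have e := QuotientGroup.leftRel_apply.1 hg
      refine ⟨_, hN.conj_mem _ (mul_mem hn (inv_mem e)) g, ?_⟩
      simp only [← mul_smul]
      congr 1
      group) γ v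
  one_smul := by
    rintro ⟨y⟩
    exact congrArg (Quotient.mk _) (one_smul G y)
  mul_smul := by
    rintro ⟨g⟩ ⟨h⟩ ⟨y⟩
    exact congrArg (Quotient.mk _) (mul_smul g h y)

theorem Hb.dehn_of (B : Hb G d hb S) {K : P → Subgroup G} {κ r : ℕ} (N : Subgroup G)
    [hN : N.Normal] (hyp : Hyp4 (qd d N) κ)
    (ker : ∀ p, ∀ a ∈ Subgroup.closure (S p), a ∈ N ↔ a ∈ K p)
    (inj : ∀ g ∈ N, ∀ x, dep hb x ≤ r → d x (g • x) ≤ r → g = 1) :
    Nonempty (Fill d hb S K κ r) := by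
  let _ := orbAct N Y
  have m := B.gr.met
  have mq := qd_met m B.iso N
  let Φ : Y → Quotient (orb N Y) := Quotient.mk _
  let θ := QuotientGroup.mk' N
  let dV : Quotient (orb N Y) → Quotient (orb N Y) → ℕ := Quotient.lift₂ (qd d N) (by
    rintro _ _ x y ⟨g, hg, rfl⟩ ⟨h, hh, rfl⟩
    rw [qd_smul_left m B.iso hg, qd_smul_right hh])
  have e0 : ∀ x y, dV (Φ x) (Φ y) = qd d N x y := fun _ _ => rfl
  have e1 : ∀ g : G, θ g = 1 ↔ g ∈ N := fun g => QuotientGroup.eq_one_iff g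
  have e2 : ∀ (g : G) x, Φ (g • x) = θ g • Φ x := fun _ _ => rfl
  have e3 : ∀ x y, Φ x = Φ y ↔ ∃ g ∈ N, x = g • y := fun x y => Quotient.eq
  have surj : Function.Surjective θ := QuotientGroup.mk'_surjective N
  have onto : Function.Surjective Φ := Quotient.mk_surjective
  let hV : G ⧸ N → P → ℕ → Quotient (orb N Y) := fun γ p n => γ • Φ (hb 1 p n)
  have e4 : ∀ g p n, Φ (hb g p n) = hV (θ g) p n := fun g p n => by
    change _ = θ g • _
    rw [← e2, B.smul, mul_one]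
  have le : ∀ x y, dV (Φ x) (Φ y) ≤ d x y := fun x y => qd_le' N x y
  have e5 : ∀ x γ p n, Φ x = hV γ p n → ∃ g, θ g = γ ∧ x = hb g p n := by
    intro x γ p n h
    obtain ⟨g, rfl⟩ := surj γ
    obtain ⟨a, a1, rfl⟩ := (e3 _ _).1 (h.trans (e4 g p n).symm)
    exact ⟨a * g, by rw [map_mul, (e1 a).2 a1, one_mul], B.smul _ _ _ _⟩
  have out : ∀ x, Out hV (Φ x) ↔ Out hb x := fun x =>
    ⟨fun h g p n e => h (θ g) p n (by rw [e, e4]), fun h γ p n e => by
      obtain ⟨g, -, e'⟩ := e5 x γ p n e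
      exact h g p n e'⟩
  have H : Hb (G ⧸ N) dV hV fun p => θ '' S p := by
    refine ⟨⟨⟨?_, ?_, ?_⟩, ?_, ?_⟩, ?_, ?_, fun _ _ _ _ => (mul_smul _ _ _).symm, ?_, ?_, ?_, ?_⟩
    · rintro ⟨x⟩
      exact mq.self x
    · rintro ⟨x⟩ ⟨y⟩
      exact mq.symm x y
    · rintro ⟨x⟩ ⟨y⟩ ⟨z⟩
      exact mq.tri x y z
    · rintro ⟨x⟩ ⟨y⟩ h
      obtain ⟨g, g1, g2⟩ := exists_qd d N x y
      exact (e3 x y).2 ⟨g, g1, B.gr.sep _ _ (g2.trans h)⟩
    · rintro ⟨x⟩ ⟨y⟩
      obtain ⟨g, g0, g1, g2⟩ := qd_geo m B.iso B.gr.geo N x y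
      exact ⟨fun i => Φ (g i), congrArg Φ g0, g1, g2⟩
    · rintro ⟨g⟩ ⟨x⟩ ⟨y⟩
      exact qd_inv B.iso hN g x y
    · rintro p _ ⟨a, ha, rfl⟩
      exact ⟨a⁻¹, B.inv p a ha, map_inv _ _⟩
    · intro γ p n γ' p' n' h
      obtain ⟨g, rfl⟩ := surj γ
      obtain ⟨g', rfl, e⟩ := e5 _ _ _ _ ((e4 g p n).trans h)
      obtain ⟨rfl, e'⟩ := B.inj _ _ _ _ _ _ e
      exact ⟨rfl, e'⟩
    · intro γ p n
      obtain ⟨g, rfl⟩ := surj γ
      rw [← e4, ← e4]
      exact (le _ _).trans (B.ver g p n)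
    · intro γ p n f hf
      obtain ⟨g, rfl⟩ := surj γ
      obtain ⟨f, f1, rfl⟩ := hf.lift θ (S' := S p) fun _ h => h
      rw [← map_mul, ← e4, ← e4]
      exact (le _ _).trans (B.hor g p n f f1)
    · intro γ p n w h
      obtain ⟨g, rfl⟩ := surj γ
      obtain ⟨w, rfl⟩ := onto w
      obtain ⟨a, a1, a2⟩ := exists_qd d N (hb g p n) w
      have a3 : Φ w = Φ (a • w) := ((e3 _ _).2 ⟨a, a1, rfl⟩).symm
      rw [← e4, e0, ← a2] at h
      rw [a3]
      rcases B.edge g p n _ h with ⟨n', c1, c2⟩ | ⟨f, c1, c2⟩ | ⟨c1, c2⟩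
      · exact Or.inl ⟨n', by rw [c1, e4], c2⟩
      · exact Or.inr (Or.inl ⟨θ f, c1.map θ fun a ha => Set.mem_image_of_mem θ ha, by rw [c2, e4, map_mul]⟩)
      · exact Or.inr (Or.inr ⟨c1, (out _).2 c2⟩)
  refine ⟨⟨G ⧸ N, _, dV, hV, θ, Φ, H, ?_, surj, onto, e2, e4, fun x y => by simp only [e1, e3], le,
    fun x y => by simpa only [e1, e0] using exists_qd d N x y,
    fun p a ha => (e1 a).trans (ker p a ha), fun g x h => inj g ((e1 g).1 h) x, out, fun x => ?_⟩⟩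
  · rintro ⟨x⟩ ⟨y⟩ ⟨z⟩ ⟨w⟩
    exact hyp x y z w
  · rcases out_or hb x with e | ⟨g, p, n, rfl⟩
    · rw [e.dep, ((out x).2 e).dep]
    · rw [e4, H.dep_hb, B.dep_hb]

/-- The girth that is needed for a filling. -/
def fillN (k r : ℕ) : ℕ := (2 * k + 1) * 2 ^ (15000 * (40 * k + 140 + r) + 4 * k + 2)

/-- Dehn filling. -/
theorem Hb.dehn (B : Hb G d hb S) (hyp : Hyp4 d k) {K : P → Subgroup G} (r : ℕ)
    (le : ∀ p, K p ≤ Subgroup.closure (S p))
    (nrm : ∀ p, ∀ f ∈ Subgroup.closure (S p), ∀ a ∈ K p, f⁻¹ * a * f ∈ K p)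
    (gir : ∀ p, ∀ a ∈ K p, Wd (S p) (fillN k r) a → a = 1) :
    Nonempty (Fill d hb S K (144 * k + 436) r) := by
  obtain ⟨U, hU⟩ : ∃ U, U = 40 * k + 140 + r := ⟨_, rfl⟩
  have A := B.atlas hyp (σ := 3000 * U) le nrm (by
    rwa [show 5 * (3000 * U) = 15000 * (40 * k + 140 + r) by omega])
  obtain ⟨h1, -, -, h2, h3, h4⟩ := A.cartan_hadamard (U := U) (ρ := 4 * (2 * k + 6) + 4)
    (by omega) le_rfl le_rfl (by omega)
  refine B.dehn_of _ (hN := h1) (h2.mono (by omega)) (fun p a ha => ?_) fun g hg x e1 e2 =>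
    Subgroup.mem_bot.1 (h3 x g hg (by omega) none (e1.trans (by omega)))
  obtain ⟨n, hn⟩ := exists_wd (B.inv p) ha
  have e1 := B.hor 1 p n a (hn.mono (Nat.lt_two_pow_self (n := n)).le)
  rw [one_mul, ← mul_one a, ← B.smul] at e1
  have e2 : chG hb S (2 * (3000 * U)) (hb 1 p n) (some (1, p)) :=
    B.cl_hb.2 ⟨1, n, one_mem _, by rw [mul_one]⟩
  have e3 : a ∈ chN K (some (1, p)) ↔ a ∈ K p := by rw [mem_chN, inv_one, one_mul, mul_one]
  exact ⟨fun h => e3.1 (h3 _ a h (by omega) _ e2), fun h => h4 _ a _ e2 (e3.2 h) (by omega)⟩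

end Pool.Agent.Lib.MP_a2eab4_al.Re
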