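import Pool.Agent.Lib.MP_429c3d_al.NgX
import Pool.Agent.Lib.MP_429c3d_al.NgLaw
import Pool.Agent.Lib.MP_429c3d_al.HypFree
import Pool.Agent.Lib.MP_429c3d_al.HypCone

set_option autoImplicit false

/-! The free group acting on a tree of cliques. -/

namespace Pool.Agent.Lib.MP_a2eab4_al

open Pool.Agent.Lib.MP_429c3d_al Hyp Ng FreeGroup

section free

variable {E : Type} [DecidableEq E]

/-- The number of marked letters in the reduced word. -/
def cnt (p : E → Bool) (g : FreeGroup E) : ℕ := g.toWord.countP fun l => p l.1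

variable (p : E → Bool)

theorem cnt_red {L : List (E × Bool)} (h : IsReduced L) :
    cnt p (mk L) = L.countP fun l => p l.1 := by
  rw [cnt, toWord_mk, h.reduce_eq]

theorem cnt_mul (g h : FreeGroup E) : cnt p (g * h) ≤ cnt p g + cnt p h := by
  have := (toWord_mul_sublist g h).countP_le (p := fun l => p l.1)
  rwa [List.countP_append] at this

omit [DecidableEq E] in
theorem countP_invRev (L : List (E × Bool)) :
    (invRev L).countP (fun l => p l.1) = L.countP fun l => p l.1 := by
  induction L with
  | nil => rfl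
  | cons a L ih =>
    rw [invRev_cons, List.countP_append, ih, List.countP_cons]
    simp [invRev]

theorem cnt_inv (g : FreeGroup E) : cnt p g⁻¹ = cnt p g := by
  rw [cnt, toWord_inv, countP_invRev, cnt]

theorem cnt_one : cnt p (1 : FreeGroup E) = 0 := rfl

theorem cnt_le (g : FreeGroup E) : cnt p g ≤ g.norm := List.countP_le_length

theorem cnt_true (g : FreeGroup E) : cnt (fun _ => true) g = g.norm := by
  rw [cnt, norm_eq_length]
  simp

theorem cnt_add {g h : FreeGroup E} (e : g.norm + h.norm = (g * h).norm) :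
    cnt p (g * h) = cnt p g + cnt p h := by
  have := (toWord_mul_sublist g h).eq_of_length (by
    rw [List.length_append, ← norm_eq_length, ← norm_eq_length, ← norm_eq_length, e])
  rw [cnt, this, List.countP_append, cnt, cnt]

theorem cnt_pow_le (g : FreeGroup E) (n : ℕ) : cnt p (g ^ n) ≤ n * cnt p g := by
  induction n with
  | zero => simp [cnt_one]
  | succ n ih =>
    have := cnt_mul p (g ^ n) g
    rw [pow_succ, Nat.succ_mul]
    omega

/-- The elements without marked letters. -/
def unm : Subgroup (FreeGroup E) where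
  carrier := {g | cnt p g = 0}
  mul_mem' := fun {g h} e e' => by
    have := cnt_mul p g h
    have e1 : cnt p g = 0 := e
    have e2 : cnt p h = 0 := e'
    show cnt p (g * h) = 0
    omega
  one_mem' := rfl
  inv_mem' := fun {g} e => (cnt_inv p g).trans e

theorem mem_unm {g : FreeGroup E} : g ∈ unm p ↔ cnt p g = 0 := Iff.rfl

/-- The endomorphism that raises the generator `e` to the power `r e + 1`. -/
def pw (r : E → ℕ) : FreeGroup E →* FreeGroup E := FreeGroup.lift fun e => of e ^ (r e + 1)

omit [DecidableEq E] in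
theorem pw_mk (r : E → ℕ) (L : List (E × Bool)) :
    pw r (mk L) = mk (L.flatMap fun l => List.replicate (r l.1 + 1) l) := by
  induction L with
  | nil => exact _root_.map_one _
  | cons a L ih =>
    rw [List.flatMap_cons, ← mul_mk, ← ih, ← List.singleton_append, ← mul_mk,
      _root_.map_mul]
    congr 1
    have e : (mk [a] : FreeGroup E) ^ (r a.1 + 1) = mk (List.replicate (r a.1 + 1) a) := by
      rw [pow_mk, List.flatten_replicate_singleton]
    rw [← e]
    obtain ⟨x, b⟩ := a
    cases b
    · have e1 : (mk [(x, false)] : FreeGroup E) = (of x)⁻¹ := rfl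
      rw [e1, _root_.map_inv, pw, lift_apply_of, inv_pow]
    · have e1 : (mk [(x, true)] : FreeGroup E) = of x := rfl
      rw [e1, pw, lift_apply_of]

omit [DecidableEq E] in
theorem rep_red (n : ℕ) (a : E × Bool) {L : List (E × Bool)} (h : IsReduced (a :: L)) :
    IsReduced (a :: (List.replicate n a ++ L)) := by
  induction n with
  | zero => exact h
  | succ n ih =>
    rw [List.replicate_succ, List.cons_append, isReduced_cons_cons]
    exact ⟨fun _ => rfl, ih⟩

omit [DecidableEq E] in
theorem pw_red (r : E → ℕ) {L : List (E × Bool)} (h : IsReduced L) :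
    IsReduced (L.flatMap fun l => List.replicate (r l.1 + 1) l) := by
  induction L with
  | nil => exact IsReduced.nil
  | cons a L ih =>
    rw [List.flatMap_cons, List.replicate_succ, List.cons_append]
    refine rep_red _ a ?_
    rcases L with _ | ⟨b, L⟩
    · exact IsReduced.singleton
    · rw [isReduced_cons_cons] at h
      have := ih h.2
      rw [List.flatMap_cons, List.replicate_succ, List.cons_append] at this ⊢
      exact isReduced_cons_cons.2 ⟨h.1, this⟩

variable {p}

theorem cnt_pw {r : E → ℕ} {n : ℕ} (hr : ∀ e, p e → r e = n) (w : FreeGroup E) :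
    cnt p (pw r w) = (n + 1) * cnt p w := by
  conv_lhs => rw [← mk_toWord (x := w), pw_mk, cnt_red p (pw_red r isReduced_toWord)]
  rw [cnt]
  generalize w.toWord = L
  induction L with
  | nil => rfl
  | cons a L ih =>
    rw [List.flatMap_cons, List.countP_append, ih, List.countP_replicate, List.countP_cons]
    split_ifs with h
    · rw [hr _ h]
      ring
    · simp

theorem pw_inj (r : E → ℕ) : Function.Injective (pw r) := by
  refine (injective_iff_map_eq_one _).2 fun w h => ?_
  rw [← mk_toWord (x := w), pw_mk] at h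
  have h1 := norm_mk_red (pw_red r (isReduced_toWord (x := w)))
  rw [h, FreeGroup.norm_one] at h1
  rw [← toWord_eq_nil_iff]
  rcases e : w.toWord with _ | ⟨a, L⟩
  · rfl
  · rw [e, List.flatMap_cons, List.length_append, List.length_replicate] at h1
    omega

theorem cnt_pow {w : FreeGroup E} (hw : ∀ f, cnt p (f⁻¹ * w * f) ≠ 0) (n : ℕ) :
    n + 1 ≤ cnt p (w ^ (n + 1)) := by
  have h2 := congrArg mk (reduceCyclically.conj_conjugator_reduceCyclically w.toWord)
  rw [mk_toWord, ← mul_mk, ← mul_mk, ← inv_mk] at h2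
  have h1 := hw (mk (reduceCyclically.conjugator w.toWord))
  have key : ∀ a b : FreeGroup E, a * b * a⁻¹ = w → a⁻¹ * w * a = b := fun a b e => by
    rw [← e]
    group
  rw [key _ _ h2, cnt_red p (reduceCyclically.isCyclicallyReduced isReduced_toWord).isReduced]
    at h1
  rw [cnt, toWord_pow, reduceCyclically.reduce_flatten_replicate_succ isReduced_toWord]
  simp only [List.countP_append, List.countP_flatten, List.map_replicate, List.sum_replicate,
    smul_eq_mul]
  have := Nat.mul_le_mul_left (n + 1) (Nat.one_le_iff_ne_zero.2 h1)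
  omega

theorem cnt_move {r : E → ℕ} {n : ℕ} (hr : ∀ e, p e → r e = n) {w : FreeGroup E}
    (hw : ∀ f, cnt p (f⁻¹ * w * f) ≠ 0) (x : FreeGroup E) :
    n + 1 ≤ cnt p (x⁻¹ * (pw r w * x)) := by
  by_contra h
  have h1 : cnt p (x⁻¹ * (pw r w * x)) ≤ n := by omega
  have h2 := cnt_pow_le p (x⁻¹ * (pw r w * x)) (2 * cnt p x + 1)
  have h3 : pw r (w ^ (2 * cnt p x + 1)) =
      x * (x⁻¹ * (pw r w * x)) ^ (2 * cnt p x + 1) * x⁻¹ := by
    rw [← conj_pow, map_pow]
    congr 1
    group
  have h4 := cnt_pw hr (w ^ (2 * cnt p x + 1))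
  have h5 := Nat.mul_le_mul_left (n + 1) (cnt_pow hw (2 * cnt p x))
  have h6 := cnt_mul p (x * (x⁻¹ * (pw r w * x)) ^ (2 * cnt p x + 1)) x⁻¹
  have h7 := cnt_mul p x ((x⁻¹ * (pw r w * x)) ^ (2 * cnt p x + 1))
  have h8 := Nat.mul_le_mul_left (2 * cnt p x + 1) h1
  rw [← h3, cnt_inv] at h6
  have h9 : (n + 1) * (2 * cnt p x + 1) = (2 * cnt p x + 1) * n + (2 * cnt p x + 1) := by ring
  omega

theorem norm_gr : IsGr fun x y : FreeGroup E => (x⁻¹ * y).norm := by
  have m : IsMet fun x y : FreeGroup E => (x⁻¹ * y).norm :=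
    ⟨fun x => by simp, norm_symm, norm_tri⟩
  refine ⟨m, fun x y h => inv_mul_eq_one.1 (norm_eq_zero.1 h), isGeo_of_step m fun x y n h => ?_⟩
  rw [norm_eq_length] at h
  obtain ⟨a, L, e⟩ := List.exists_cons_of_length_eq_add_one h
  have e1 : x⁻¹ * y = mk [a] * mk L := by rw [mul_mk, List.singleton_append, ← e, mk_toWord]
  refine ⟨x * mk [a], ?_, ?_⟩
  · rw [inv_mul_cancel_left]
    exact norm_mk_le
  · rw [mul_inv_rev, mul_assoc, e1, inv_mul_cancel_left]
    have h1 := norm_mk_le (L₁ := L)
    rw [e, List.length_cons] at h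
    omega

/-- Free groups are torsion free, conjugately separated and commutative transitive. -/
theorem free_alg : TF (FreeGroup E) ∧ CSA (FreeGroup E) ∧ CT (FreeGroup E) := by
  obtain ⟨A', -, hA'⟩ := gen_xl 0 0 1 0
  obtain ⟨n, n1⟩ : ∃ n, 2 * b1 0 ≤ n := ⟨_, le_rfl⟩
  let φ : FreeGroup E →* FreeGroup E := pw fun _ => n
  let d : FreeGroup E → FreeGroup E → ℕ := fun x y => (x⁻¹ * y).norm
  have mv : ∀ g : φ.range, g ≠ 1 → ∀ x, n + 1 ≤ d x (g • x) := by
    rintro ⟨_, w, rfl⟩ hg x
    have := cnt_move (p := fun _ => true) (r := fun _ => n) (fun _ _ => rfl) (w := w)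
      (fun f e => hg (Subtype.ext (by
        rw [cnt_true, FreeGroup.norm_eq_zero, mul_assoc, inv_mul_eq_one, right_eq_mul] at e
        rw [e]
        exact _root_.map_one φ))) x
    rwa [cnt_true] at this
  have iso : Isom φ.range d := fun g x y => by
    show (((g : FreeGroup E) * x)⁻¹ * ((g : FreeGroup E) * y)).norm = (x⁻¹ * y).norm
    rw [mul_inv_rev, mul_assoc, inv_mul_cancel_left]
  let _ : MulAction φ.range Empty :=
    { smul := fun _ ω => ω, one_smul := fun _ => rfl, mul_smul := fun _ _ _ => rfl }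
  have xl : XL φ.range d 0 A' := hA' φ.range (FreeGroup E) Empty d (fun _ _ => False) norm_gr
    norm_hyp4 iso ⟨1⟩
    ⟨fun _ ω => ω.elim, fun ω => ω.elim, fun _ ω => ω.elim, fun _ _ ω => ω.elim,
      fun _ ω => ω.elim, fun _ ω => ω.elim, fun _ ω => ω.elim, fun a _ ha x => by
        have := mv a ha x
        rw [pow_one]
        omega⟩ fun a b x x' h h1 _ _ _ => by
      have := mv a (fun e => h (e ▸ Commute.one_left b)) x
      omega
  have inj : Function.Injective φ.rangeRestrict := fun a b e =>
    pw_inj _ (congrArg Subtype.val e)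
  have cm : ∀ a b, Commute (φ.rangeRestrict a) (φ.rangeRestrict b) → Commute a b :=
    fun a b e => inj (by rw [_root_.map_mul, _root_.map_mul]; exact e)
  have ne : ∀ a, a ≠ 1 → φ.rangeRestrict a ≠ 1 := fun a h e => h (inj (e.trans (_root_.map_one _).symm))
  refine ⟨fun g j hj e => ?_, fun a g ha e => cm _ _ (xl.csa _ _ (ne a ha) ?_),
    fun a b c hb e e' => cm _ _ (xl.ct _ _ _ (ne b hb) (e.map _) (e'.map _))⟩
  · by_contra hg
    exact ne g hg (xl.tf _ j hj (by rw [← map_pow, e, _root_.map_one]))
  · have := e.map φ.rangeRestrict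
    rwa [_root_.map_mul, _root_.map_mul, _root_.map_inv] at this

/-- Conjugating a non trivial unmarked element doubles the count. -/
theorem cnt_conj {h : FreeGroup E} (h0 : cnt p h = 0) (h1 : h ≠ 1) (x : FreeGroup E) :
    cnt p (x⁻¹ * (h * x)) = 2 * cnt p x := by
  obtain ⟨U, V, e, hU, hV⟩ : ∃ U V : List (E × Bool), x.toWord = U ++ V ∧
      (∀ l ∈ U, ¬ p l.1) ∧ ∀ l ∈ V.head?, p l.1 := by
    refine ⟨_, _, (List.takeWhile_append_dropWhile (p := fun l => !p l.1)).symm, fun l hl => ?_,
      fun l hl => ?_⟩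
    · simpa using List.mem_takeWhile_imp hl
    · have := List.head?_dropWhile_not (fun l : E × Bool => !p l.1) x.toWord
      rw [Option.mem_def.1 hl] at this
      simpa using this
  have r : IsReduced (U ++ V) := e ▸ isReduced_toWord
  have rU : IsReduced U := List.IsChain.left_of_append r
  have rV : IsReduced V := red_right r
  have cU : cnt p (mk U) = 0 := by
    rw [cnt_red p rU, List.countP_eq_zero]
    exact hU
  have ex : x = mk U * mk V := by rw [mul_mk, ← e, mk_toWord]
  have cx : cnt p x = V.countP fun l => p l.1 := by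
    rw [cnt, e, List.countP_append, ← cnt_red p rU, cU, zero_add]
  obtain ⟨g, hg⟩ : ∃ g, g = (mk U)⁻¹ * h * mk U := ⟨_, rfl⟩
  have g0 : cnt p g = 0 := hg ▸ (unm p).mul_mem ((unm p).mul_mem ((unm p).inv_mem cU) h0) cU
  have g1 : g.toWord ≠ [] := fun e => h1 (by
    rw [toWord_eq_nil_iff, hg, mul_assoc, inv_mul_eq_one, right_eq_mul] at e
    exact e)
  have g2 : ∀ l ∈ g.toWord, ¬ p l.1 := List.countP_eq_zero.1 g0
  have r2 : IsReduced (g.toWord ++ V) := by
    refine List.IsChain.append isReduced_toWord rV fun a ha b hb e => ?_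
    exact absurd (e ▸ hV b hb) (g2 a (List.mem_of_getLast? ha))
  have r3 : IsReduced (invRev V ++ g.toWord) := by
    refine List.IsChain.append (red_invRev rV) isReduced_toWord fun a ha b hb e' => ?_
    refine absurd ?_ (g2 b (List.mem_of_head? hb))
    rcases V with _ | ⟨v, V⟩
    · simp [invRev] at ha
    · have := hV v rfl
      rw [invRev_cons] at ha
      simp only [invRev, List.map_cons, List.map_nil, List.reverse_cons, List.reverse_nil,
        List.nil_append, List.getLast?_concat, Option.mem_def, Option.some.injEq] at ha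
      rw [← e', ← ha]
      exact this
  have e2 : x⁻¹ * (h * x) = mk (invRev V ++ g.toWord ++ V) := by
    rw [← mul_mk, ← mul_mk, ← inv_mk, mk_toWord, hg, ex]
    group
  rw [e2, cnt_red p (IsReduced.append_overlap r3 r2 g1), List.countP_append, List.countP_append,
    countP_invRev, ← cx, show g.toWord.countP (fun l => p l.1) = 0 from g0]
  omega

end free

end Pool.Agent.Lib.MP_a2eab4_al
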