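import Pool.Agent.Lib.MP_a2eab4_al.ReI

set_option autoImplicit false

/-! The quotient map from the stabiliser of a cone vertex onto the fibre group. -/

namespace Pool.Agent.Lib.MP_a2eab4_al.Re

open Pool.Agent.Lib.MP_429c3d_al Hyp Ng

section words

variable {K H : Type} [Group K] [Group H]

theorem glue_inv (E : Subgroup K) (e : K) : ∀ a ∈ Sy (E : Set K) e, a⁻¹ ∈ Sy (E : Set K) e := by
  rintro a (h | ⟨i, rfl⟩)
  · exact Or.inl (E.inv_mem h)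
  · exact Or.inr ⟨-i, (zpow_neg _ _).symm⟩

theorem glue_mem {S : Set K} {n : ℕ} {g : K} (h : Wd S n g) : g ∈ Subgroup.closure S :=
  h.induct (P := fun _ g => g ∈ Subgroup.closure S) (fun _ => one_mem _)
    fun _ _ _ ha _ ih => mul_mem (Subgroup.subset_closure ha) ih

theorem glue_wd {S : Set K} (hS : ∀ a ∈ S, a⁻¹ ∈ S) {g : K} (h : g ∈ Subgroup.closure S) :
    ∃ n, Wd S n g := by
  induction h using Subgroup.closure_induction with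
  | mem a ha => exact ⟨1, Wd.of ha⟩
  | one => exact ⟨0, Wd.one 0⟩
  | mul a b _ _ ha hb => exact ⟨_, ha.choose_spec.mul hb.choose_spec⟩
  | inv a _ ha => exact ⟨_, ha.choose_spec.inv hS⟩

theorem glue_dist {R : Type} [MulAction K R] {d : R → R → ℕ} (m : IsMet d) (iso : Isom K d)
    {b : R} {S : Set K} (hS : ∀ l ∈ S, d b (l • b) ≤ 4) {n : ℕ} {g : K} (h : Wd S n g) :
    d b (g • b) ≤ 4 * n := by
  refine h.induct (P := fun n g => d b (g • b) ≤ 4 * n)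
    (fun n => by rw [one_smul, m.self]; omega) fun n a g ha _ ih => ?_
  have h1 := m.tri b (a • b) (a • g • b)
  have h2 := hS a ha
  rw [iso] at h1
  rw [mul_smul]
  omega

theorem glue_cs {y c z : K} (hz : ∀ l, Commute z l) (n : ℕ) :
    cs (y * z) (c * z) n = cs y c n * z := by
  induction n with
  | zero => rfl
  | succ n ih =>
    rw [cs, cs, ih, mul_inv_rev, mul_assoc _ z, ← mul_assoc z, (hz y).eq]
    simp only [mul_assoc, mul_inv_cancel_left]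
    rw [(hz _).eq]

/-- The normal form modulo `D`. -/
theorem glue_nf {E D : Subgroup K} {e : K} (hc : ∀ δ ∈ D, Commute δ e) {n : ℕ}
    {g : K} (h : Wd (Sy E e) n g) : ∃ a ∈ E, ∃ (l : List (ℤ × K)) (j : ℤ), l.length ≤ n ∧
      (∀ p ∈ l, p.1 ≠ 0 ∧ p.2 ∈ E ∧ p.2 ∉ D) ∧ g = a * (wd e l * e ^ j) := by
  refine h.induct (P := fun n g => ∃ a ∈ E, ∃ (l : List (ℤ × K)) (j : ℤ), l.length ≤ n ∧
      (∀ p ∈ l, p.1 ≠ 0 ∧ p.2 ∈ E ∧ p.2 ∉ D) ∧ g = a * (wd e l * e ^ j))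
    (fun n => ⟨1, one_mem _, [], 0, by simp, by simp, by simp [wd_nil]⟩) ?_
  rintro n s g (hs | ⟨i, rfl⟩) - ⟨a, ha, l, j, h1, h2, rfl⟩
  · exact ⟨s * a, mul_mem hs ha, l, j, by omega, h2, (mul_assoc _ _ _).symm⟩
  by_cases hi : i = 0
  · exact ⟨a, ha, l, j, by omega, h2, by rw [hi, zpow_zero, one_mul]⟩
  by_cases hd : a ∈ D
  swap
  · refine ⟨1, one_mem _, (i, a) :: l, j, by simpa using h1,
      List.forall_mem_cons.2 ⟨⟨hi, ha, hd⟩, h2⟩, ?_⟩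
    simp only [wd_cons, mul_assoc, one_mul]
  rw [← mul_assoc, ← ((hc a hd).zpow_right i).eq, mul_assoc]
  cases l with
  | nil => exact ⟨a, ha, [], i + j, by simp, h2, by simp [wd_nil, zpow_add]⟩
  | cons p l =>
    obtain ⟨⟨-, p2, p3⟩, h3⟩ := List.forall_mem_cons.1 h2
    rw [List.length_cons] at h1
    by_cases h4 : i + p.1 = 0
    · refine ⟨a * p.2, mul_mem ha p2, l, j, by omega, h3, ?_⟩
      simp only [wd_cons, mul_assoc]
      rw [← mul_assoc (e ^ i), ← zpow_add, h4, zpow_zero, one_mul]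
    · refine ⟨a, ha, (i + p.1, p.2) :: l, j, by rw [List.length_cons]; omega,
        List.forall_mem_cons.2 ⟨⟨h4, p2, p3⟩, h3⟩, ?_⟩
      simp only [wd_cons, mul_assoc, zpow_add]

/-- A short word whose image is in `E'` is in `E`. -/
theorem glue_key {E D : Subgroup K} {e : K} (hc : ∀ δ ∈ D, Commute δ e) (φ : K →* H)
    {E' : Subgroup H} {D' : Set H} {N : ℕ} (h1 : ∀ a ∈ E, φ a ∈ E')
    (h2 : ∀ a ∈ E, φ a ∈ D' → a ∈ D) (hl : LFD (E' : Set H) D' (φ e) N) {n : ℕ} {g : K}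
    (h : Wd (Sy E e) n g) (hn : n < N) (hg : φ g ∈ E') : g ∈ E := by
  have key : ∀ (l : List (ℤ × K)) (j : ℤ), l.length < N → j ≠ 0 →
      (∀ p ∈ l, p.1 ≠ 0 ∧ p.2 ∈ E ∧ p.2 ∉ D) → φ (wd e l * e ^ j) ∉ E' := by
    intro l j k1 k2 k3
    have k4 := hl (l.map fun p => (p.1, φ p.2)) j (by simpa using k1) k2 (by
      intro q hq
      obtain ⟨p, hp, rfl⟩ := List.mem_map.1 hq
      exact ⟨(k3 p hp).1, h1 _ (k3 p hp).2.1, fun k5 => (k3 p hp).2.2 (h2 _ (k3 p hp).2.1 k5)⟩)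
    have k5 : φ (wd e l) = wd (φ e) (l.map fun p => (p.1, φ p.2)) := by
      simp [wd, map_list_prod, Function.comp_def]
    rwa [map_mul, map_zpow, k5]
  obtain ⟨a, ha, l, j, k1, k2, rfl⟩ := glue_nf hc h
  rw [map_mul, mul_mem_cancel_left (h1 a ha)] at hg
  by_cases hj : j = 0
  swap
  · exact absurd hg (key l j (by omega) hj k2)
  rw [hj, zpow_zero, mul_one] at hg ⊢
  rcases List.eq_nil_or_concat' l with rfl | ⟨l, p, rfl⟩
  · rwa [wd_nil, mul_one]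
  · obtain ⟨p1, p2, -⟩ := k2 p (by simp)
    rw [wd_concat, ← mul_assoc, map_mul, mul_mem_cancel_right (h1 _ p2)] at hg
    exact absurd hg (key l p.1 (by simp at k1; omega) p1 fun q hq => k2 q (by simp [hq]))

end words

theorem exists_pi {G J : Type} [Group G] [Group J] (E D : Subgroup G) (y t : G) (h : Pr E D y t)
    (s : E →* J) (e : J) (inj : Function.Injective s)
    (cen : ∀ δ : E, (δ : G) ∈ D → ∀ l, Commute (s δ) l)
    (gen : Subgroup.closure (Sy (Set.range s) e) = ⊤) :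
    ∃ π : Subgroup.closure (Sy (E : Set G) (t * y * t⁻¹)) →* J, Function.Surjective π ∧
      (∀ (a : E) (ha : (a : G) ∈ Subgroup.closure (Sy (E : Set G) (t * y * t⁻¹))),
        π ⟨a, ha⟩ = s a) ∧
      (∀ he : t * y * t⁻¹ ∈ Subgroup.closure (Sy (E : Set G) (t * y * t⁻¹)),
        π ⟨t * y * t⁻¹, he⟩ = e) ∧
      (∀ N, LFD (Set.range s) (s '' {δ | (δ : G) ∈ D}) e (N + 1) →
        ∀ a, π a = 1 → Wd (Sy E (t * y * t⁻¹)) N (a : G) → a = 1) ∧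
      (∀ n l, Wd (Sy (Set.range s) e) n l →
        ∃ a, π a = l ∧ Wd (Sy E (t * y * t⁻¹)) n (a : G)) ∧
      (∀ a : Subgroup.closure (Sy (E : Set G) (t * y * t⁻¹)), (a : G) ∈ Sy E (t * y * t⁻¹) →
        π a ∈ Sy (Set.range s) e) ∧
      ∀ m, Commute (s ⟨y, h.mem⟩) (cs (s ⟨y, h.mem⟩) e m) → ∀ a c, Twi D y t a c →
        ∃ a' c' : Subgroup.closure (Sy (E : Set G) (t * y * t⁻¹)), (a' : G) = a ∧ (c' : G) = c ∧
          Commute (π a') (cs (π a') (π c') m) := by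
  obtain ⟨ε, hε⟩ : ∃ ε, ε = t * y * t⁻¹ := ⟨_, rfl⟩
  have hlf := h.lf
  have hc : ∀ δ ∈ D, Commute δ ε := fun δ hδ => hε ▸
    ((h.cen δ hδ).mul_right (h.ab δ (h.le hδ) y h.mem)).mul_right (h.cen δ hδ).inv_right
  unfold Twi
  rw [← hε] at hlf ⊢
  obtain ⟨S, hS⟩ : ∃ S : Set (G × J), S = Sy (E.subtype.prod s).range (ε, e) := ⟨_, rfl⟩
  have Sinv : ∀ a ∈ S, a⁻¹ ∈ S := hS ▸ glue_inv _ _
  have hc' : ∀ δ ∈ (D.subgroupOf E).map (E.subtype.prod s), Commute δ (ε, e) := by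
    rintro _ ⟨δ, hδ, rfl⟩
    exact Prod.ext (hc _ hδ).eq (cen δ hδ _).eq
  have S0 : ∀ a : E, ((a : G), s a) ∈ S := fun a => hS ▸ Or.inl ⟨a, rfl⟩
  have S1 : ∀ i : ℤ, (ε ^ i, e ^ i) ∈ S := fun i => hS ▸ Or.inr ⟨i, rfl⟩
  have S2 : (ε, e) ∈ S := by simpa using S1 1
  have m1 : ∀ a ∈ S, MonoidHom.fst G J a ∈ Sy E ε := by
    rw [hS]
    rintro _ (⟨a, rfl⟩ | ⟨i, rfl⟩)
    exacts [Or.inl a.2, Or.inr ⟨i, rfl⟩]
  have m2 : ∀ a ∈ S, MonoidHom.snd G J a ∈ Sy (Set.range s) e := by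
    rw [hS]
    rintro _ (⟨a, rfl⟩ | ⟨i, rfl⟩)
    exacts [Or.inl ⟨a, rfl⟩, Or.inr ⟨i, rfl⟩]
  have l1 : ∀ a ∈ Sy E ε, ∃ b ∈ S, MonoidHom.fst G J b = a := by
    rintro a (ha | ⟨i, rfl⟩)
    exacts [⟨_, S0 ⟨a, ha⟩, rfl⟩, ⟨_, S1 i, rfl⟩]
  have l2 : ∀ a ∈ Sy (Set.range s) e, ∃ b ∈ S, MonoidHom.snd G J b = a := by
    rintro _ (⟨a, rfl⟩ | ⟨i, rfl⟩)
    exacts [⟨_, S0 a, rfl⟩, ⟨_, S1 i, rfl⟩]
  have uq : ∀ (a : G) (l l' : J), (a, l) ∈ Subgroup.closure S → (a, l') ∈ Subgroup.closure S →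
      l = l' := by
    intro a l l' h1 h2
    obtain ⟨n, hn⟩ := glue_wd Sinv (mul_mem (inv_mem h1) h2)
    rw [hS] at hn
    obtain ⟨x, h3⟩ := glue_key hc' (MonoidHom.fst G J) (E' := E) (D' := D)
      (by rintro _ ⟨a, rfl⟩; exact a.2) (by rintro _ ⟨a, rfl⟩ ha; exact ⟨a, ha, rfl⟩)
      (hlf (n + 1)) hn (by omega) (by simp)
    have h5 : x = 1 := Subtype.ext (by simpa using congrArg Prod.fst h3)
    rw [h5, map_one] at h3
    exact inv_mul_eq_one.1 (congrArg Prod.snd h3).symm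
  have ex : ∀ a : Subgroup.closure (Sy (E : Set G) ε), ∃ l, ((a : G), l) ∈ Subgroup.closure S := by
    intro a
    obtain ⟨n, hn⟩ := glue_wd (glue_inv E ε) a.2
    obtain ⟨g, h1, h2⟩ := hn.lift _ l1
    exact ⟨g.2, h2 ▸ glue_mem h1⟩
  choose π₀ hπ₀ using ex
  obtain ⟨π, hπ⟩ : ∃ π : Subgroup.closure (Sy (E : Set G) ε) →* J,
      ∀ a : Subgroup.closure (Sy (E : Set G) ε), ((a : G), π a) ∈ Subgroup.closure S :=
    ⟨MonoidHom.mk' π₀ fun a b => uq _ _ _ (hπ₀ (a * b)) (mul_mem (hπ₀ a) (hπ₀ b)), hπ₀⟩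
  have dn : ∀ (n : ℕ) (l : J), Wd (Sy (Set.range s) e) n l →
      ∃ a, π a = l ∧ Wd (Sy E ε) n (a : G) := by
    intro n l hl
    obtain ⟨g, h1, rfl⟩ := hl.lift _ l2
    have h2 := h1.map _ m1
    exact ⟨⟨_, glue_mem h2⟩, uq _ _ _ (hπ _) (glue_mem h1), h2⟩
  refine ⟨π, fun l => ?_, fun a ha => uq _ _ _ (hπ ⟨a, ha⟩) (Subgroup.subset_closure (S0 a)),
    fun he => uq _ _ _ (hπ ⟨ε, he⟩) (Subgroup.subset_closure S2), fun N hl a h1 h2 => ?_, dn,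
    fun a ha => ?_, ?_⟩
  · obtain ⟨n, hn⟩ := glue_wd (S := Sy (Set.range s) e) (glue_inv s.range e)
      (gen ▸ Subgroup.mem_top l)
    exact (dn n l hn).imp fun _ h1 => h1.1
  · obtain ⟨g, h3, h4⟩ := h2.lift _ l1
    have h5 : g.2 = 1 := (uq a _ _ (h4 ▸ glue_mem h3) (hπ a)).trans h1
    rw [hS] at h3
    obtain ⟨x, rfl⟩ := glue_key hc' (MonoidHom.snd G J) (E' := s.range)
      (D' := s '' {δ | (δ : G) ∈ D}) (by rintro _ ⟨a, rfl⟩; exact ⟨a, rfl⟩)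
      (by rintro _ ⟨a, rfl⟩ ⟨δ, hδ, ha⟩; exact ⟨a, inj ha ▸ hδ, rfl⟩) hl h3 (by omega)
      ⟨1, (map_one _).trans h5.symm⟩
    have h6 : x = 1 := inj (h5.trans (map_one _).symm)
    rw [h6, map_one, map_one] at h4
    exact Subtype.ext h4.symm
  · obtain ⟨g, h1, h2⟩ := l1 a ha
    rw [uq a _ g.2 (hπ a) (h2 ▸ Subgroup.subset_closure h1)]
    exact m2 g h1
  · rintro m law _ _ ⟨δ, hδ, rfl, rfl⟩
    have w1 := (Wd.of (S0 ⟨y, h.mem⟩)).mul (Wd.of (S0 ⟨δ, h.le hδ⟩))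
    have w2 := (Wd.of S2).mul (Wd.of (S0 ⟨δ, h.le hδ⟩))
    refine ⟨⟨_, glue_mem (w1.map _ m1)⟩, ⟨_, glue_mem (w2.map _ m1)⟩, rfl, rfl, ?_⟩
    have hz := cen ⟨δ, h.le hδ⟩ hδ
    rw [uq _ _ _ (hπ ⟨_, glue_mem (w1.map _ m1)⟩) (glue_mem w1),
      uq _ _ _ (hπ ⟨_, glue_mem (w2.map _ m1)⟩) (glue_mem w2), glue_cs hz]
    exact (law.mul_right (hz _).symm).mul_left (hz _)

end Pool.Agent.Lib.MP_a2eab4_al.Re
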