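import Pool.Agent.Lib.MP_a2eab4_al.ReLow
import Pool.Agent.Lib.MP_429c3d_al.HypPrj
import Pool.Agent.Lib.MP_429c3d_al.HypCone

set_option autoImplicit false

/-! Spaces with combinatorial horoballs over word metrics. -/

namespace Pool.Agent.Lib.MP_a2eab4_al.Re

open Pool.Agent.Lib.MP_429c3d_al Hyp Ng

/-- A graph with horoballs: `hb g p n` is the point of depth `n` over `g` in a horoball of
type `p`. -/
structure Hb (H : Type) [Group H] {Y P : Type} [MulAction H Y] (d : Y → Y → ℕ)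
    (hb : H → P → ℕ → Y) (S : P → Set H) : Prop where
  gr : IsGr d
  iso : Isom H d
  inv : ∀ p, ∀ a ∈ S p, a⁻¹ ∈ S p
  smul : ∀ (g g' : H) p n, g • hb g' p n = hb (g * g') p n
  inj : ∀ g p n g' p' n', hb g p n = hb g' p' n' → g = g' ∧ p = p' ∧ n = n'
  ver : ∀ g p n, d (hb g p n) (hb g p (n + 1)) ≤ 1
  hor : ∀ g p n f, Wd (S p) (2 ^ n) f → d (hb g p n) (hb (g * f) p n) ≤ 1
  edge : ∀ g p n w, d (hb g p n) w ≤ 1 → (∃ n', w = hb g p n' ∧ n' ≤ n + 1 ∧ n ≤ n' + 1) ∨
    (∃ f, Wd (S p) (2 ^ n) f ∧ w = hb (g * f) p n) ∨ (n = 0 ∧ ∀ g' p' n', w ≠ hb g' p' n')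

variable {H Y P : Type} [Group H] [MulAction H Y] {d : Y → Y → ℕ} {hb : H → P → ℕ → Y}
  {S : P → Set H} {κ : ℕ}

theorem Wd.mem {S : Set H} {n : ℕ} {g : H} (h : Wd S n g) : g ∈ Subgroup.closure S := by
  refine h.induct (P := fun _ g => g ∈ Subgroup.closure S) (fun _ => one_mem _) ?_
  exact fun _ a g ha _ ih => mul_mem (Subgroup.subset_closure ha) ih

theorem exists_wd {S : Set H} (hS : ∀ a ∈ S, a⁻¹ ∈ S) {g : H} (h : g ∈ Subgroup.closure S) :
    ∃ n, Wd S n g := by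
  induction h using Subgroup.closure_induction with
  | mem a ha => exact ⟨1, Wd.of ha⟩
  | one => exact ⟨0, Wd.one 0⟩
  | mul a b _ _ h1 h2 => exact ⟨_, h1.choose_spec.mul h2.choose_spec⟩
  | inv a _ h1 => exact h1.imp fun _ e => e.inv hS

/-- Points outside the horoballs. -/
def Out (hb : H → P → ℕ → Y) (w : Y) : Prop := ∀ g p n, w ≠ hb g p n

/-- The depth. -/
noncomputable def dep (hb : H → P → ℕ → Y) (w : Y) : ℕ := sInf {n | ∃ g p, w = hb g p n}

/-- Equal, or in the same horoball. -/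
def Cl (hb : H → P → ℕ → Y) (S : P → Set H) (w w' : Y) : Prop :=
  w = w' ∨ ∃ g f p n n', f ∈ Subgroup.closure (S p) ∧ w = hb g p n ∧ w' = hb (g * f) p n'

omit [Group H] [MulAction H Y] in
theorem out_or (hb : H → P → ℕ → Y) (w : Y) : Out hb w ∨ ∃ g p n, w = hb g p n := by
  by_cases h : Out hb w
  · exact Or.inl h
  · simp only [Out, not_forall, not_not] at h
    exact Or.inr h

omit [Group H] [MulAction H Y] in
theorem Out.dep {w : Y} (h : Out hb w) : dep hb w = 0 := by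
  rw [Re.dep, Nat.sInf_eq_zero]
  exact Or.inr (Set.eq_empty_of_forall_notMem fun n ⟨g, p, e⟩ => h g p n e)

omit [MulAction H Y] in
theorem Out.cl {w w' : Y} (h : Out hb w) (e : Cl hb S w w') : w = w' :=
  e.resolve_right fun ⟨g, _, p, n, _, _, e, _⟩ => h g p n e

omit [MulAction H Y] in
theorem Cl.symm {w w' : Y} (h : Cl hb S w w') : Cl hb S w' w := by
  rcases h with h | ⟨g, f, p, n, n', e, rfl, rfl⟩
  · exact Or.inl h.symm
  · exact Or.inr ⟨g * f, f⁻¹, p, n', n, inv_mem e, rfl, by rw [mul_inv_cancel_right]⟩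

namespace Hb

variable (B : Hb H d hb S)
include B

theorem dep_hb (g : H) (p : P) (n : ℕ) : dep hb (hb g p n) = n := by
  have : {m | ∃ g' p', hb g p n = hb g' p' m} = {n} := by
    ext m
    exact ⟨fun ⟨_, _, e⟩ => (B.inj _ _ _ _ _ _ e).2.2.symm, fun e => ⟨g, p, by rw [e]⟩⟩
  rw [dep, this, csInf_singleton]

theorem out_smul (γ : H) {w : Y} (h : Out hb w) : Out hb (γ • w) := fun g p n e =>
  h (γ⁻¹ * g) p n (by rw [← B.smul, ← e, inv_smul_smul])

theorem dep_smul (γ : H) (w : Y) : dep hb (γ • w) = dep hb w := by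
  rcases out_or hb w with h | ⟨g, p, n, rfl⟩
  · rw [h.dep, (B.out_smul γ h).dep]
  · rw [B.smul, B.dep_hb, B.dep_hb]

theorem cl_hb {g : H} {p : P} {n : ℕ} {w : Y} :
    Cl hb S (hb g p n) w ↔ ∃ f n', f ∈ Subgroup.closure (S p) ∧ w = hb (g * f) p n' := by
  refine ⟨?_, fun ⟨f, n', e1, e2⟩ => Or.inr ⟨g, f, p, n, n', e1, rfl, e2⟩⟩
  rintro (rfl | ⟨g', f, p', m, n', e1, e2, e3⟩)
  · exact ⟨1, n, one_mem _, by rw [mul_one]⟩
  · obtain ⟨rfl, rfl, rfl⟩ := B.inj _ _ _ _ _ _ e2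
    exact ⟨f, n', e1, e3⟩

theorem cl_trans {w w' w'' : Y} (h : Cl hb S w w') (h' : Cl hb S w' w'') : Cl hb S w w'' := by
  rcases h with rfl | ⟨g, f, p, n, n', e, rfl, rfl⟩
  · exact h'
  · obtain ⟨f', m, e1, rfl⟩ := B.cl_hb.1 h'
    exact B.cl_hb.2 ⟨f * f', m, mul_mem e e1, by rw [mul_assoc]⟩

theorem cl_smul (γ : H) {w w' : Y} (h : Cl hb S w w') : Cl hb S (γ • w) (γ • w') := by
  rcases h with rfl | ⟨g, f, p, n, n', e, rfl, rfl⟩
  · exact Or.inl rfl
  · exact Or.inr ⟨γ * g, f, p, n, n', e, B.smul _ _ _ _, by rw [B.smul, mul_assoc]⟩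

theorem dep_le (w w' : Y) : dep hb w' ≤ dep hb w + d w w' := by
  refine B.gr.induct w (P := fun n y => dep hb y ≤ dep hb w + n) le_rfl ?_ w'
  intro n u v _ _ h ih
  rcases out_or hb v with e | ⟨g, p, m, rfl⟩
  · rw [e.dep]
    omega
  · rw [B.dep_hb]
    rcases B.edge g p m u (by rw [B.gr.met.symm]; exact h.le) with ⟨n', rfl, _, _⟩ |
      ⟨f, -, rfl⟩ | ⟨rfl, -⟩
    · rw [B.dep_hb] at ih
      omega
    · rw [B.dep_hb] at ih
      omega
    · omega

theorem vert (g : H) (p : P) {n m : ℕ} (h : n ≤ m) : d (hb g p n) (hb g p m) + n = m := by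
  have e := B.dep_le (hb g p n) (hb g p m)
  rw [B.dep_hb, B.dep_hb] at e
  have := lip_le B.gr.met (g := hb g p) (a := 0) (b := m) (fun i _ _ => B.ver g p i)
    (Nat.zero_le n) h le_rfl
  omega

/-- Short paths from deep points stay in the horoball. -/
theorem stay {g : H} {p : P} {n s : ℕ} {w : Y} (h : d (hb g p n) w ≤ s) (hs : s ≤ n) :
    ∃ f n', Wd (S p) (s * 2 ^ (n + s)) f ∧ w = hb (g * f) p n' := by
  have key := B.gr.induct (hb g p n) (P := fun i y => i ≤ s → ∃ f n',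
    Wd (S p) (i * 2 ^ (n + s)) f ∧ y = hb (g * f) p n' ∧ n' ≤ n + i ∧ n ≤ n' + i)
    (fun _ => ⟨1, n, Wd.one _, by rw [mul_one], le_rfl, le_rfl⟩) ?_ w h
  · obtain ⟨f, n', e1, e2, -⟩ := key
    exact ⟨f, n', e1.mono (Nat.mul_le_mul_right _ h), e2⟩
  · intro i u v _ _ e ih hi
    obtain ⟨f, m, e1, rfl, e2, e3⟩ := ih (by omega)
    rcases B.edge _ _ _ v e.le with ⟨n', rfl, _, _⟩ | ⟨f', e4, rfl⟩ | ⟨rfl, -⟩
    · exact ⟨f, n', e1.mono (Nat.mul_le_mul_right _ (by omega)), rfl, by omega, by omega⟩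
    · refine ⟨f * f', m, (e1.mul e4).mono ?_, by rw [mul_assoc], by omega, by omega⟩
      have := Nat.pow_le_pow_right (show 0 < 2 by omega) (show m ≤ n + s by omega)
      rw [Nat.succ_mul]
      omega
    · omega

theorem cl_of_le {w w' : Y} (h : d w w' ≤ dep hb w) : Cl hb S w w' := by
  rcases out_or hb w with e | ⟨g, p, n, rfl⟩
  · rw [e.dep] at h
    exact Or.inl (B.gr.sep _ _ (by omega))
  · rw [B.dep_hb] at h
    obtain ⟨f, n', e1, e2⟩ := B.stay h le_rfl
    exact B.cl_hb.2 ⟨f, n', e1.mem, e2⟩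

theorem wd_le {p : P} {n : ℕ} {f : H} (h : Wd (S p) n f) (m : ℕ) :
    ∀ g, d (hb g p m) (hb (g * f) p m) ≤ n := by
  refine h.induct (P := fun n f => ∀ g, d (hb g p m) (hb (g * f) p m) ≤ n)
    (fun n g => by rw [mul_one, B.gr.met.self]; omega) ?_
  intro n a f ha _ ih g
  have e1 := B.hor g p m a ((Wd.of ha).mono Nat.one_le_two_pow)
  have e2 := ih (g * a)
  have e3 := B.gr.met.tri (hb g p m) (hb (g * a) p m) (hb (g * a * f) p m)
  rw [← mul_assoc]
  omega

/-- Vertical rays converge. -/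
theorem conv (hyp : Hyp4 d κ) {g f : H} {p : P} (hf : f ∈ Subgroup.closure (S p)) {a a' n : ℕ}
    (h1 : a ≤ n) (h2 : a' ≤ n) (h : d (hb g p a) (hb (g * f) p a') + a + a' ≤ 2 * n + 1) :
    d (hb g p n) (hb (g * f) p n) ≤ 2 * κ + 1 := by
  obtain ⟨N, hN⟩ := exists_wd (B.inv p) hf
  have m := B.gr.met
  have e0 := B.hor g p (N + n) f (hN.mono ((Nat.lt_two_pow_self (n := N)).le.trans
    (Nat.pow_le_pow_right (by omega) (by omega))))
  have e1 := B.vert g p h1
  have e2 := B.vert g p (show n ≤ N + n by omega)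
  have e3 := B.vert g p (show a ≤ N + n by omega)
  have f1 := B.vert (g * f) p h2
  have f2 := B.vert (g * f) p (show n ≤ N + n by omega)
  have f3 := B.vert (g * f) p (show a' ≤ N + n by omega)
  have t1 := m.tri (hb (g * f) p a') (hb (g * f) p (N + n)) (hb g p (N + n))
  have t2 := m.tri (hb g p a) (hb g p (N + n)) (hb (g * f) p (N + n))
  have s1 := m.symm (hb (g * f) p (N + n)) (hb g p (N + n))
  have := four_le m hyp (p := hb g p a) (q := hb g p (N + n)) (u := hb g p n)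
    (p' := hb (g * f) p a') (q' := hb (g * f) p (N + n)) (u' := hb (g * f) p n) 1 (by omega)
    (by omega) (by omega) (by omega) (by omega) (by omega)
  omega

/-- Close points of a horoball differ by a short word. -/
theorem wd_of_le (hyp : Hyp4 d κ) {g f : H} {p : P} (hf : f ∈ Subgroup.closure (S p))
    {a a' s : ℕ} (h : d (hb g p a) (hb (g * f) p a') + a + a' ≤ s) :
    Wd (S p) ((2 * κ + 1) * 2 ^ (s + 4 * κ + 2)) f := by
  have e := B.conv hyp hf (a := a) (a' := a') (n := s + 2 * κ + 1) (g := g) (by omega) (by omega)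
    (by omega)
  obtain ⟨f', n', e1, e2⟩ := B.stay e (by omega)
  obtain rfl : f = f' := mul_left_cancel (B.inj _ _ _ _ _ _ e2).1
  rwa [show s + 4 * κ + 2 = s + 2 * κ + 1 + (2 * κ + 1) by omega]

/-- Horoballs are quasi convex, and geodesics between their points go deep. -/
theorem qc (hyp : Hyp4 d κ) {x y w : Y} (h : Cl hb S x y) (hw : d x w + d w y = d x y) :
    ∃ v, Cl hb S x v ∧ d w v ≤ 3 * κ + 2 ∧ (d x w ≤ dep hb v ∨ d w y ≤ dep hb v) := by
  have m := B.gr.met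
  rcases h with rfl | ⟨g, f, p, a, a', hf, rfl, rfl⟩
  · rw [m.self] at hw
    exact ⟨x, Or.inl rfl, by omega, by omega⟩
  obtain ⟨n, hn⟩ : ∃ n, n = (d (hb g p a) (hb (g * f) p a') + a + a') / 2 := ⟨_, rfl⟩
  have d1 := B.dep_le (hb g p a) (hb (g * f) p a')
  have d2 := B.dep_le (hb (g * f) p a') (hb g p a)
  rw [B.dep_hb, B.dep_hb] at d1 d2
  rw [m.symm] at d2
  have e0 := B.conv hyp hf (g := g) (a := a) (a' := a') (n := n) (by omega) (by omega) (by omega)
  have e1 := B.vert g p (show a ≤ n by omega)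
  have e2 := B.vert (g * f) p (show a' ≤ n by omega)
  by_cases c : a + d (hb g p a) w ≤ n
  · refine ⟨hb g p (a + d (hb g p a) w), B.cl_hb.2 ⟨1, _, one_mem _, by rw [mul_one]⟩, ?_,
      Or.inl (by rw [B.dep_hb]; omega)⟩
    have e3 := B.vert g p (show a ≤ a + d (hb g p a) w by omega)
    have e4 := B.vert g p c
    generalize hb g p (a + d (hb g p a) w) = v at *
    have := m.tri v (hb g p n) (hb (g * f) p a')
    have := m.tri (hb g p n) (hb (g * f) p n) (hb (g * f) p a')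
    have := m.symm (hb (g * f) p n) (hb (g * f) p a')
    have := hyp w v (hb g p a) (hb (g * f) p a')
    have := m.symm w (hb g p a)
    have := m.symm v (hb g p a)
    omega
  · have c' : a' + d w (hb (g * f) p a') ≤ n := by omega
    refine ⟨hb (g * f) p (a' + d w (hb (g * f) p a')), B.cl_hb.2 ⟨f, _, hf, rfl⟩, ?_,
      Or.inr (by rw [B.dep_hb]; omega)⟩
    have e3 := B.vert (g * f) p (show a' ≤ a' + d w (hb (g * f) p a') by omega)
    have e4 := B.vert (g * f) p c'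
    generalize hb (g * f) p (a' + d w (hb (g * f) p a')) = v at *
    have := m.tri (hb g p a) (hb g p n) v
    have := m.tri (hb g p n) (hb (g * f) p n) v
    have := m.symm (hb (g * f) p n) v
    have := hyp w v (hb g p a) (hb (g * f) p a')
    have := m.symm w (hb g p a)
    have := m.symm v (hb g p a)
    have := m.symm v (hb (g * f) p a')
    omega

/-- Different horoballs have bounded overlap. -/
theorem ov (hyp : Hyp4 d κ) {a b a' b' : Y} {ρ : ℕ} (h : Cl hb S a b) (h' : Cl hb S a' b')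
    (hne : ¬ Cl hb S a a') (h1 : d a a' ≤ ρ) (h2 : d b b' ≤ ρ) : d a b ≤ 16 * κ + 14 + 2 * ρ := by
  by_contra hc
  have m := B.gr.met
  obtain ⟨w, w1, w2⟩ := B.gr.geo.mid m a b (s := d a b / 2) (by omega)
  obtain ⟨v, v1, v2, v3⟩ := B.qc hyp h (w := w) (by omega)
  have e1 : d w a' + d w b ≤ d a' b + κ := by
    have := hyp w a' a b
    have := m.symm w a
    have := m.symm a' a
    omega
  have e2 : d w a' + d w b' ≤ d a' b' + 2 * κ := by
    have := hyp w b' a' b
    have := m.symm b' b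
    have := m.symm b' a'
    omega
  obtain ⟨u, u1, u2⟩ := near_mid m hyp B.gr.geo a' b' w e2
  obtain ⟨v', v4, v5, -⟩ := B.qc hyp h' u1
  refine hne (B.cl_trans (B.cl_trans v1 (B.cl_of_le (w' := v') ?_)) v4.symm)
  have := m.tri v w v'
  have := m.tri w u v'
  have := m.symm v w
  omega

/-- The classes: points outside the horoballs, and horoballs. -/
def std : Setoid Y := ⟨Cl hb S, fun _ => Or.inl rfl, Cl.symm, B.cl_trans⟩

theorem qfam (hyp : Hyp4 d κ) :
    QFam d (fun (b : Quotient B.std) w => Quotient.mk B.std w = b) κ (3 * κ + 2) (16 * κ + 14) := by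
  refine ⟨B.gr, hyp, fun b => Quotient.exists_rep b, ?_, ?_⟩
  · rintro _ a b w rfl e hw
    obtain ⟨v, v1, v2, -⟩ := B.qc hyp (Quotient.exact e.symm) hw
    exact ⟨v, (Quotient.sound v1).symm, v2⟩
  · rintro _ _ a b a' b' ρ hne rfl e rfl e' h1 h2
    exact B.ov hyp (Quotient.exact e.symm) (Quotient.exact e'.symm)
      (fun c => hne (Quotient.sound c)) h1 h2

end Hb

end Pool.Agent.Lib.MP_a2eab4_al.Re
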