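import Pool.Agent.Lib.MP_a2eab4_al.ReHb
import Pool.Agent.Lib.MP_a2eab4_al.ReI

set_option autoImplicit false

/-! Horoballs over groups, and the replacement of cone vertices by horoballs. -/

namespace Pool.Agent.Lib.MP_a2eab4_al.Re

open Pool.Agent.Lib.MP_429c3d_al Hyp Ng Sum

section horo

variable {L : Type} [Group L] {T : Set L}

/-- The word length. -/
noncomputable def wl (T : Set L) (g : L) : ℕ := sInf {m | Wd T m g}

theorem wl_le {m : ℕ} {g : L} (h : Wd T m g) : wl T g ≤ m := Nat.sInf_le h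

theorem wd_wl (h : ∀ g, ∃ m, Wd T m g) (g : L) : Wd T (wl T g) g := Nat.sInf_mem (h g)

/-- Edges of the horoball over a group. -/
def adjH (T : Set L) (x y : L × ℕ) : Prop :=
  (x.1 = y.1 ∧ (y.2 = x.2 + 1 ∨ x.2 = y.2 + 1)) ∨ (x.2 = y.2 ∧ Wd T (2 ^ x.2) (x.1⁻¹ * y.1))

theorem adjH_symm (hT : ∀ a ∈ T, a⁻¹ ∈ T) (x y : L × ℕ) : adjH T x y → adjH T y x := by
  obtain ⟨a, n⟩ := x
  obtain ⟨b, m⟩ := y
  rintro (⟨e1, e2⟩ | ⟨e1, e2⟩)
  · exact Or.inl ⟨e1.symm, e2.symm⟩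
  · obtain rfl : n = m := e1
    exact Or.inr ⟨rfl, by simpa using e2.inv hT⟩

theorem adjH_conn {a b : L} {N : ℕ} (hN : Wd T N (a⁻¹ * b)) (n m : ℕ) :
    Relation.ReflTransGen (adjH T) (a, n) (b, m) := by
  have up : ∀ (a : L) n t, Relation.ReflTransGen (adjH T) (a, n) (a, n + t) ∧
      Relation.ReflTransGen (adjH T) (a, n + t) (a, n) := by
    intro a n t
    induction t with
    | zero => exact ⟨.refl, .refl⟩
    | succ t ih =>
      exact ⟨ih.1.tail (Or.inl ⟨rfl, Or.inl rfl⟩), 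
        .head (b := (a, n + t)) (Or.inl ⟨rfl, Or.inr rfl⟩) ih.2⟩
  refine ((up a n (m + N)).1.tail (c := (b, m + (n + N)))
    (Or.inr ⟨by simp only; omega, ?_⟩)).trans (up b m (n + N)).2
  exact hN.mono ((Nat.lt_two_pow_self (n := N)).le.trans
    (Nat.pow_le_pow_right (by omega) (by simp only; omega)))

theorem horo (hT : ∀ a ∈ T, a⁻¹ ∈ T) (h : ∀ g, ∃ m, Wd T m g) :
    Horo (gd (adjH T)) (fun a b => wl T (a⁻¹ * b)) Prod.fst Prod.snd ∧
      ∀ x y, gd (adjH T) x y ≤ 1 ↔ adjH T x y := by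
  obtain ⟨gr, e⟩ := gd_isGr (adjH_symm hT) fun x y => adjH_conn (h (x.1⁻¹ * y.1)).choose_spec _ _
  have e' : ∀ x y, gd (adjH T) x y ≤ 1 ↔ adjH T x y := fun x y => (e x y).trans
    ⟨fun c => c.elim (fun c => c ▸ Or.inr ⟨rfl, by simpa using Wd.one _⟩) id, Or.inr⟩
  have le : ∀ a b : L, wl T (b⁻¹ * a) ≤ wl T (a⁻¹ * b) := fun a b =>
    wl_le (by simpa using (wd_wl h (a⁻¹ * b)).inv hT)
  refine ⟨⟨gr, ⟨fun a => Nat.le_zero.1 (wl_le (by simpa using Wd.one 0)),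
    fun a b => le_antisymm (le b a) (le a b), fun a b c => wl_le ?_⟩, fun p q => Prod.ext,
    fun p => ⟨(p.1, p.2 + 1), rfl, rfl, (e' _ _).2 (Or.inl ⟨rfl, Or.inl rfl⟩)⟩,
    fun p q e1 _ e2 => (e' _ _).2 (Or.inr ⟨e1, (wd_wl h _).mono e2⟩), fun p q c => ?_⟩, e'⟩
  · simpa [mul_assoc] using (wd_wl h (a⁻¹ * b)).mul (wd_wl h (b⁻¹ * c))
  · exact ((e' _ _).1 c).imp (fun c => ⟨c.1, by omega, by omega⟩) fun c => ⟨c.1, wl_le c.2⟩

end horo

theorem gd_comap {A V : Type} {r : A → A → Prop} {s : V → V → Prop} {f : A → V}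
    (inj : Function.Injective f) (h1 : ∀ a a', r a a' → s (f a) (f a'))
    (h2 : ∀ a y, s (f a) y → ∃ a', y = f a' ∧ r a a') (a a' : A) :
    gd s (f a) (f a') = gd r a a' := by
  have key : ∀ n y, GW s n (f a) y → ∃ a', y = f a' ∧ GW r n a a' := by
    intro n
    induction n with
    | zero =>
      rintro y ⟨c, c0, cn, -⟩
      exact ⟨a, cn.symm.trans c0, GW.refl a⟩
    | succ n ih =>
      rintro _ ⟨c, c0, rfl, cs⟩
      obtain ⟨u, e1, e2⟩ := ih (c n) ⟨c, c0, rfl, fun i hi => cs i (by omega)⟩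
      rcases cs n (by omega) with e | e
      · exact ⟨u, e ▸ e1, e2.trans (GW.step (Or.inl rfl))⟩
      · obtain ⟨u', e3, e4⟩ := h2 u _ (e1 ▸ e)
        exact ⟨u', e3, e2.trans (GW.step (Or.inr e4))⟩
  unfold gd
  congr 1
  ext n
  refine ⟨fun h => ?_, fun ⟨c, c0, cn, cs⟩ => ⟨fun i => f (c i), congrArg f c0, congrArg f cn,
    fun i hi => (cs i hi).imp (congrArg f) (h1 _ _)⟩⟩
  obtain ⟨u, e1, e2⟩ := key n _ h
  exact inj e1 ▸ e2

/-- Points of the horoballs. -/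
@[ext]
structure Hp (G I : Type) where
  g : G
  p : I
  n : ℕ

variable {G B Y I : Type} [Group G] [MulAction G B] [MulAction G Y] {dB : B → B → ℕ} {ι : Y → B}
  {v : I → B} {ξ : I → Y} {S : I → Set G} {k D : ℕ}

instance : MulAction G (Hp G I) where
  smul γ h := ⟨γ * h.g, h.p, h.n⟩
  one_smul h := Hp.ext (one_mul h.g) rfl rfl
  mul_smul γ γ' h := Hp.ext (mul_assoc γ γ' h.g) rfl rfl

/-- Edges of the space with horoballs. -/
def adjP (dB : B → B → ℕ) (ι : Y → B) (ξ : I → Y) (S : I → Set G) :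
    Y ⊕ Hp G I → Y ⊕ Hp G I → Prop
  | inl x, inl x' => dB (ι x) (ι x') ≤ 1
  | inl x, inr h => h.n = 0 ∧ x = h.g • ξ h.p
  | inr h, inl x => h.n = 0 ∧ x = h.g • ξ h.p
  | inr h, inr h' => h.p = h'.p ∧ adjH (S h.p) (h.g, h.n) (h'.g, h'.n)

/-- The projection to the coned space. -/
def barP (ι : Y → B) (v : I → B) : Y ⊕ Hp G I → B
  | inl x => ι x
  | inr h => h.g • v h.p

/-- The metric of the fibres. -/
noncomputable def dFP (S : I → Set G) : Y ⊕ Hp G I → Y ⊕ Hp G I → ℕ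
  | inr h, inr h' => gd (adjH (S h.p)) (h.g, h.n) (h'.g, h'.n)
  | _, _ => 0

/-- The space with horoballs over a coned space. -/
structure Hc (G : Type) {B Y I Z : Type} [Group G] [MulAction G B] [MulAction G Y] [MulAction G Z]
    (dB : B → B → ℕ) (ι : Y → B) (S : I → Set G) (d : Z → Z → ℕ) (hb : G → I → ℕ → Z)
    (j : Y → Z) (bar : Z → B) : Prop where
  j_smul : ∀ (g : G) x, j (g • x) = g • j x
  out : ∀ x, Out hb (j x)
  bar_smul : ∀ (g : G) w, bar (g • w) = g • bar w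
  le : ∀ w w', dB (bar w) (bar w') ≤ d w w'
  one : ∀ x x', dB (ι x) (ι x') ≤ 1 → d (j x) (j x') ≤ 1
  cl : ∀ w w', bar w = bar w' → Cl hb S w w'
  lift : ∀ u u', dB u u' = 1 → ∃ w w', bar w = u ∧ bar w' = u' ∧ d w w' ≤ 1

namespace Cb

variable (C : Cb G dB ι v ξ S k D)
include C

theorem ne_v (x : Y) (g : G) (p : I) : ι x ≠ g • v p := fun e =>
  C.npl p (g⁻¹ • x) (by rw [C.ι_smul, e, inv_smul_smul])

theorem of_v {g g' : G} {p q : I} (h : g' • v q = g • v p) :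
    q = p ∧ g⁻¹ * g' ∈ Subgroup.closure (S p) := by
  have e : (g⁻¹ * g') • v q = v p := by rw [mul_smul, h, inv_smul_smul]
  obtain rfl := C.cls _ _ _ e
  exact ⟨rfl, (C.stab _ _).1 e⟩

theorem of_bar {w w' : Y ⊕ Hp G I} (h : barP ι v w = barP ι v w') : (∃ x, w = inl x ∧ w' = inl x) ∨
    ∃ g p n f n', f ∈ Subgroup.closure (S p) ∧ w = inr ⟨g, p, n⟩ ∧ w' = inr ⟨g * f, p, n'⟩ := by
  rcases w with x | ⟨g, p, n⟩ <;> rcases w' with x' | ⟨g', p', n'⟩
  · exact Or.inl ⟨x, rfl, congrArg inl (C.ι_inj h).symm⟩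
  · exact absurd h (C.ne_v _ _ _)
  · exact absurd h.symm (C.ne_v _ _ _)
  · obtain ⟨rfl, e⟩ := C.of_v h.symm
    exact Or.inr ⟨g, _, n, _, n', e, rfl, by rw [mul_inv_cancel_left]⟩

theorem liftP {u u' : B} (h : dB u u' = 1) :
    ∃ w w', barP (G := G) ι v w = u ∧ barP ι v w' = u' ∧ adjP dB ι ξ S w w' := by
  have key : ∀ (g : G) p z, dB (g • v p) z = 1 → ∃ g' : G, g' • v p = g • v p ∧
      z = ι (g' • ξ p) := fun g p z h => by
    obtain ⟨f, e1, e2⟩ := C.nb p (g⁻¹ • z) (by rw [← C.iso g, smul_inv_smul, h])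
    exact ⟨g * f, by rw [mul_smul, (C.stab _ _).2 e1], by
      rw [mul_smul, C.ι_smul, ← e2, smul_inv_smul]⟩
  rcases C.cover u with ⟨x, rfl⟩ | ⟨g, p, rfl⟩
  · rcases C.cover u' with ⟨x', rfl⟩ | ⟨g, p, rfl⟩
    · exact ⟨inl x, inl x', rfl, rfl, h.le⟩
    · obtain ⟨g', e1, e2⟩ := key g p _ ((C.gr.met.symm _ _).trans h)
      exact ⟨inl x, inr ⟨g', p, 0⟩, rfl, e1, rfl, C.ι_inj e2⟩
  · obtain ⟨g', e1, rfl⟩ := key g p _ h
    exact ⟨inr ⟨g', p, 0⟩, inl _, e1, rfl, rfl, rfl⟩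

theorem grP : IsGr (gd (adjP dB ι ξ S)) ∧
    ∀ w w', gd (adjP dB ι ξ S) w w' ≤ 1 ↔ adjP dB ι ξ S w w' := by
  have fib : ∀ w w', barP ι v w = barP ι v w' → Relation.ReflTransGen (adjP dB ι ξ S) w w' := by
    intro w w' h
    rcases C.of_bar h with ⟨x, rfl, rfl⟩ | ⟨g, p, n, f, n', e, rfl, rfl⟩
    · exact .refl
    · obtain ⟨N, hN⟩ := exists_wd (C.inv p) e
      have key : ∀ y : G × ℕ, Relation.ReflTransGen (adjH (S p)) (g, n) y →
          Relation.ReflTransGen (adjP dB ι ξ S) (inr ⟨g, p, n⟩) (inr ⟨y.1, p, y.2⟩) := by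
        intro y h
        induction h with
        | refl => exact .refl
        | tail _ h ih => exact ih.tail ⟨rfl, h⟩
      exact key _ (adjH_conn (a := g) (b := g * f) (by simpa using hN) n n')
  obtain ⟨gr, e⟩ := gd_isGr (adj := adjP dB ι ξ S) (by
    rintro (x | ⟨g, p, n⟩) (x' | ⟨g', p', n'⟩) h
    · exact (C.gr.met.symm _ _).trans_le h
    · exact h
    · exact h
    · obtain ⟨rfl, h⟩ : p = p' ∧ _ := h
      exact ⟨rfl, adjH_symm (C.inv p) _ _ h⟩) fun w w' => by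
    refine C.gr.induct (barP ι v w) (P := fun _ y => ∀ w', barP ι v w' = y →
      Relation.ReflTransGen (adjP dB ι ξ S) w w') (fun w' h => fib _ _ h.symm) ?_ _ w' rfl
    rintro _ u _ - - h ih w' rfl
    obtain ⟨z, z', e1, e2, e3⟩ := C.liftP h
    exact ((ih z e1).tail e3).trans (fib _ _ e2)
  refine ⟨gr, fun w w' => (e w w').trans ⟨fun h => h.elim ?_ id, Or.inr⟩⟩
  rintro rfl
  rcases w with x | h
  · exact (C.gr.met.self _).le.trans (Nat.zero_le _)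
  · exact ⟨rfl, Or.inr ⟨rfl, by simpa using Wd.one _⟩⟩

theorem hbP : Hb G (gd (adjP dB ι ξ S)) (fun g p n => inr ⟨g, p, n⟩) S := by
  obtain ⟨gr, e⟩ := C.grP
  refine ⟨gr, gr.iso fun γ w w' h => (e _ _).2 ?_, C.inv, fun _ _ _ _ => rfl, fun g p n g' p' n' h => ?_,
    fun g p n => (e _ _).2 ⟨rfl, Or.inl ⟨rfl, Or.inl rfl⟩⟩,
    fun g p n f h => (e _ _).2 ⟨rfl, Or.inr ⟨rfl, by simpa using h⟩⟩, ?_⟩
  · replace h := (e _ _).1 h
    rcases w with x | ⟨g, p, n⟩ <;> rcases w' with x' | ⟨g', p', n'⟩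
    · show dB (ι (γ • x)) (ι (γ • x')) ≤ 1
      rwa [C.ι_smul, C.ι_smul, C.iso]
    · exact ⟨h.1, (congrArg (γ • ·) h.2).trans (mul_smul _ _ _).symm⟩
    · exact ⟨h.1, (congrArg (γ • ·) h.2).trans (mul_smul _ _ _).symm⟩
    · refine ⟨h.1, h.2.imp (fun c => ⟨congrArg (γ * ·) c.1, c.2⟩) fun c => ⟨c.1, ?_⟩⟩
      show Wd (S p) (2 ^ n) ((γ * g)⁻¹ * (γ * g'))
      simpa [mul_assoc] using c.2
  · cases h
    exact ⟨rfl, rfl, rfl⟩
  · rintro g p n (x | ⟨g', p', n'⟩) h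
    · exact Or.inr (Or.inr ⟨((e _ _).1 h).1, fun _ _ _ => inl_ne_inr⟩)
    · obtain ⟨rfl, ⟨rfl, e1⟩ | ⟨rfl, e1⟩⟩ : p = p' ∧ ((g = g' ∧ (n' = n + 1 ∨ n = n' + 1)) ∨
        (n = n' ∧ Wd (S p) (2 ^ n) (g⁻¹ * g'))) := (e _ _).1 h
      · exact Or.inl ⟨n', rfl, by omega, by omega⟩
      · exact Or.inr (Or.inl ⟨_, e1, by rw [mul_inv_cancel_left]⟩)

theorem horoP (p : I) : Horo (gd (adjH {a : Subgroup.closure (S p) | a.1 ∈ S p}))
    (fun a b => wl {a : Subgroup.closure (S p) | a.1 ∈ S p} (a⁻¹ * b)) Prod.fst Prod.snd ∧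
    (∀ x y, gd (adjH {a : Subgroup.closure (S p) | a.1 ∈ S p}) x y ≤ 1 ↔
      adjH (S p) (x.1, x.2) (y.1, y.2)) ∧
    ∀ (g : G) (x y : Subgroup.closure (S p) × ℕ), gd (adjH (S p)) (g * x.1, x.2) (g * y.1, y.2) =
      gd (adjH {a : Subgroup.closure (S p) | a.1 ∈ S p}) x y := by
  have wd : ∀ n (a : Subgroup.closure (S p)),
      Wd {a : Subgroup.closure (S p) | a.1 ∈ S p} n a ↔ Wd (S p) n a.1 := fun n a => by
    refine ⟨fun h => h.map (Subgroup.closure (S p)).subtype fun _ h => h, fun h => ?_⟩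
    obtain ⟨f, e1, e2⟩ := h.lift (Subgroup.closure (S p)).subtype (S' := {f | f.1 ∈ S p})
      fun a h => ⟨⟨a, Subgroup.subset_closure h⟩, h, rfl⟩
    exact (Subtype.ext e2 : f = a) ▸ e1
  have ad : ∀ (g : G) (x y : Subgroup.closure (S p) × ℕ),
      adjH {a : Subgroup.closure (S p) | a.1 ∈ S p} x y ↔
        adjH (S p) (g * x.1, x.2) (g * y.1, y.2) := fun g x y => by
    simp [adjH, wd, mul_assoc]
  obtain ⟨H, e⟩ := horo (T := {a : Subgroup.closure (S p) | a.1 ∈ S p})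
    (fun a h => C.inv p a h) fun a => (exists_wd (C.inv p) a.2).imp fun n h => (wd n a).2 h
  refine ⟨H, fun x y => by simpa using (e x y).trans (ad 1 x y), fun g => gd_comap
    (f := fun x : Subgroup.closure (S p) × ℕ => (g * x.1, x.2)) (fun x y h => ?_)
    (fun x y => (ad g x y).1) fun x y h => ?_⟩
  · exact Prod.ext (Subtype.ext (mul_left_cancel (Prod.ext_iff.1 h).1)) (Prod.ext_iff.1 h).2
  · have m : g⁻¹ * y.1 ∈ Subgroup.closure (S p) := by
      rcases h with ⟨h, -⟩ | ⟨-, h⟩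
      · simp [← show g * x.1 = y.1 from h]
      · simpa [mul_assoc] using mul_mem x.1.2 h.mem
    exact ⟨(⟨_, m⟩, y.2), by simp, (ad g _ _).2 (by simpa using h)⟩

theorem blowP : Blow (gd (adjP dB ι ξ S)) dB (dFP S) (barP ι v) k 12 D := by
  obtain ⟨gr, e⟩ := C.grP
  have B := C.hbP
  have dF : ∀ (g : G) p n (f : Subgroup.closure (S p)) n',
      dFP (Y := Y) S (inr ⟨g, p, n⟩) (inr ⟨g * f, p, n'⟩) =
        gd (adjH {a : Subgroup.closure (S p) | a.1 ∈ S p}) (1, n) (f, n') := fun g p n f n' => by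
    rw [← (C.horoP p).2.2 g]
    simp [dFP]
  have fib : ∀ u, IsGr (fun p q : {p // barP (G := G) ι v p = u} => dFP S p.1 q.1) ∧
      Hyp4 (fun p q : {p // barP (G := G) ι v p = u} => dFP S p.1 q.1) 12 := by
    intro u
    rcases C.cover u with ⟨x, rfl⟩ | ⟨g, p, rfl⟩
    · have a : ∀ w : {p // barP (G := G) ι v p = ι x}, w.1 = inl x := fun w => by
        rcases C.of_bar (w' := inl x) w.2 with ⟨_, e1, e2⟩ | ⟨_, _, _, _, _, -, -, e⟩
        exacts [e1.trans e2.symm, absurd e inl_ne_inr]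
      have : (fun p q : {p // barP (G := G) ι v p = ι x} => dFP S p.1 q.1) = fun _ _ => 0 := by
        funext p q
        rw [a p, a q]
        rfl
      rw [this]
      exact ⟨isGr_unique fun x y => Subtype.ext ((a x).trans (a y).symm), 
        fun _ _ _ _ => Or.inl (Nat.zero_le _)⟩
    · have ex : ∀ w : {q // barP (G := G) ι v q = g • v p}, ∃ x : Subgroup.closure (S p) × ℕ,
          w.1 = inr ⟨g * x.1, p, x.2⟩ := fun w => by
        rcases C.of_bar (w := inr ⟨g, p, 0⟩) w.2.symm with ⟨_, e, -⟩ | ⟨_, _, _, f, n, e1, e2, e3⟩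
        · exact absurd e inr_ne_inl
        · cases e2
          exact ⟨(⟨f, e1⟩, n), e3⟩
      choose φ hφ using ex
      have : (fun w w' : {q // barP (G := G) ι v q = g • v p} => dFP S w.1 w'.1) =
          fun w w' => gd (adjH {a : Subgroup.closure (S p) | a.1 ∈ S p}) (φ w) (φ w') := by
        funext w w'
        rw [hφ w, hφ w', ← (C.horoP p).2.2 g]
        rfl
      rw [this]
      refine ⟨(C.horoP p).1.gr.comap φ ⟨fun w w' h => Subtype.ext (by rw [hφ, hφ, h]), fun x => ?_⟩,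
        fun _ _ _ _ => (C.horoP p).1.hyp _ _ _ _⟩
      have h := hφ ⟨inr ⟨g * x.1, p, x.2⟩, show (g * x.1) • v p = _ by
        rw [mul_smul, (C.stab _ _).2 x.1.2]⟩
      have h1 := inr.inj h
      exact ⟨_, Prod.ext (Subtype.ext (mul_left_cancel (congrArg Hp.g h1)).symm)
        (congrArg Hp.n h1).symm⟩
  have eB : ∀ w w', gd (adjP dB ι ξ S) w w' ≤ 1 → dB (barP ι v w) (barP ι v w') ≤ 1 := by
    have a : ∀ (g : G) p, dB (g • v p) (ι (g • ξ p)) ≤ 1 := fun g p => by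
      rw [C.ι_smul, C.iso, C.adj]
    rintro (x | ⟨g, p, n⟩) (x' | ⟨g', p', n'⟩) h
    · exact (e _ _).1 h
    · obtain ⟨-, rfl⟩ := (e _ _).1 h
      exact (C.gr.met.symm _ _).trans_le (a _ _)
    · obtain ⟨-, rfl⟩ := (e _ _).1 h
      exact a _ _
    · rcases B.edge _ _ _ _ h with ⟨m, c, -⟩ | ⟨f, c1, c⟩ | ⟨-, c⟩
      · cases c
        exact (C.gr.met.self _).le.trans (Nat.zero_le _)
      · cases c
        show dB (g • v p) ((g * f) • v p) ≤ 1
        rw [mul_smul, (C.stab _ _).2 c1.mem, C.gr.met.self]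
        omega
      · exact absurd rfl (c _ _ _)
  refine ⟨gr, C.gr, C.hyp, fun u => (fib u).1, fun u => (fib u).2, fun u => ?_, fun w w' h => ?_,
    fun w w' h h' => ?_, eB, fun u u' h => ?_, fun w w' q q' h h1 h2 h3 => ?_⟩
  · rcases C.cover u with ⟨x, rfl⟩ | ⟨g, p, rfl⟩
    exacts [⟨inl x, rfl⟩, ⟨inr ⟨g, p, 0⟩, rfl⟩]
  · rcases C.of_bar h with ⟨x, rfl, rfl⟩ | ⟨g, p, n, f, n', c, rfl, rfl⟩
    · exact (gr.met.self _).le
    · rw [dF g p n ⟨f, c⟩]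
      simpa using (C.horoP p).1.gr.lip gr.met (c := 1)
        (fun x => (inr ⟨g * x.1, p, x.2⟩ : Y ⊕ Hp G I)) (fun x y h => by
          have := B.iso g (inr ⟨x.1, p, x.2⟩) (inr ⟨y.1, p, y.2⟩)
          exact this.trans_le ((e _ _).2 ⟨rfl, ((C.horoP p).2.1 x y).1 h⟩)) (1, n) (⟨f, c⟩, n')
  · rcases C.of_bar h with ⟨x, rfl, rfl⟩ | ⟨g, p, n, f, n', c, rfl, rfl⟩
    · exact Nat.zero_le _
    · exact gd_le (GW.step (Or.inr ((e _ _).1 h').2))
  · obtain ⟨w, w', e1, e2, e3⟩ := C.liftP h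
    exact ⟨w, w', e1, e2, (e _ _).2 e3⟩
  · rcases C.of_bar h with ⟨x, rfl, rfl⟩ | ⟨g, p, n, f, n', c, rfl, rfl⟩
    · exact Nat.zero_le _
    have key : ∀ (g' : G) m z, gd (adjP dB ι ξ S) (inr ⟨g', p, m⟩) z ≤ 1 →
        barP ι v z ≠ g' • v p → m = 0 ∧ z = inl (g' • ξ p) := by
      rintro g' m (x | ⟨g'', p', m'⟩) a1 a2
      · exact ((e _ _).1 a1).imp_right (congrArg inl)
      · refine absurd ?_ a2
        rcases B.edge _ _ _ _ a1 with ⟨_, c, -⟩ | ⟨f, c1, c⟩ | ⟨-, c⟩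
        · cases c
          rfl
        · cases c
          show (g' * f) • v p = _
          rw [mul_smul, (C.stab _ _).2 c1.mem]
        · exact absurd rfl (c _ _ _)
    obtain ⟨a, a0, an, a1, a2⟩ := h3
    obtain ⟨rfl, rfl⟩ := key g n q h1 (a0 ▸ a1 0 (Nat.zero_le _))
    obtain ⟨rfl, rfl⟩ := key (g * f) n' q' h2 fun c => a1 _ le_rfl (an.trans (c.trans h.symm))
    have w := C.det p f c ⟨fun i => g⁻¹ • a i,
      inv_smul_eq_iff.2 (a0.trans (C.ι_smul _ _)),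
      inv_smul_eq_iff.2 (an.trans (by rw [← C.ι_smul, ← mul_smul]; rfl)),
      fun i hi c => a1 i hi (inv_smul_eq_iff.1 c), fun i hi => (C.iso _ _ _).trans_le (a2 i hi)⟩
    refine gd_le (w.induct (P := fun n f => ∀ g, GW (adjH (S p)) n (g, 0) (g * f, 0))
      (fun n g => ⟨fun _ => (g, 0), rfl, by rw [mul_one], fun _ _ => Or.inl rfl⟩) ?_ g)
    intro n a f ha _ ih g
    rw [add_comm, ← mul_assoc]
    exact (GW.step (adj := adjH (S p)) (x := (g, 0)) (y := (g * a, 0))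
      (Or.inr (Or.inr ⟨rfl, by simpa using Wd.of ha⟩))).trans (ih (g * a))

/-- Cone vertices are replaced by horoballs. -/
theorem exists_hb : ∃ (Z : Type) (_ : MulAction G Z) (d : Z → Z → ℕ) (hb : G → I → ℕ → Z)
    (j : Y → Z) (bar : Z → B), Hb G d hb S ∧ Hyp4 d (blowK k 12 D) ∧ Hc G dB ι S d hb j bar := by
  refine ⟨_, inferInstance, _, _, inl, barP ι v, C.hbP, C.blowP.hypW, fun _ _ => rfl,
    fun _ _ _ _ => inl_ne_inr, ?_, C.blowP.bar_le, fun x x' h => (C.grP.2 _ _).2 h,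
    fun w w' h => ?_, C.blowP.lift⟩
  · rintro g (x | h)
    exacts [C.ι_smul g x, mul_smul g h.g _]
  · rcases C.of_bar h with ⟨x, rfl, rfl⟩ | ⟨g, p, n, f, n', e⟩
    exacts [Or.inl rfl, Or.inr ⟨g, f, p, n, n', e⟩]

end Cb

end Pool.Agent.Lib.MP_a2eab4_al.Re
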