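import Pool.Agent.Lib.MP_a2eab4_al.RdI
import Pool.Agent.Lib.MP_429c3d_al.NgTA

set_option autoImplicit false

/-! The deck group block: interface. -/

namespace Pool.Agent.Lib.MP_a2eab4_al.Re

open Pool.Agent.Lib.MP_429c3d_al Pool.Agent.Lib.MP_429c3d_al.Hyp Pool.Agent.Lib.MP_429c3d_al.Ng

/-- A fibre: the tower `J` acting on `Z` and on its cusped space `C`. The points of `Z` are the
translates of `o`, `q`, `τ`; `ap` is the main class; `dp` is the depth, `b` the attaching point. -/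
structure Fbr (kT kC DT c L f P N Kk S R : ℕ) where
  J : Type
  Z : Type
  C : Type
  [grp : Group J]
  [aZ : MulAction J Z]
  [aC : MulAction J C]
  dZ : Z → Z → ℕ
  dC : C → C → ℕ
  dT : C → C → ℕ
  bar : C → Z
  ap : Z → Prop
  dp : C → ℕ
  o : Z
  q : Z
  τ : Z
  b : C
  blow : Blow dC dZ dT bar kT kC DT
  bact : BAct J dC dZ dT bar
  fib : ∀ (g : J) w, g • bar w = bar w → dT w (g • w) ≤ c
  dp_smul : ∀ (g : J) w, dp (g • w) = dp w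
  dp_le : ∀ w w', dp w ≤ dp w' + dC w w'
  dp_b : dp b = 0
  bar_b : bar b = o
  bot : ∀ w, bar w = o → dC w b ≤ dp w + c
  dq : ∀ w, bar w = q → dC w b ≤ c
  dτ : ∀ w, bar w = τ → R ≤ dp w
  nτ : ∀ w w', bar w = τ → bar w' = τ → dT w w' ≤ c
  ap_smul : ∀ (g : J) z, ap z → ap (g • z)
  ap_o : ap o
  ap_q : ap q
  ap_τ : ¬ ap τ
  cover : ∀ z, ∃ g : J, z = g • o ∨ z = g • q ∨ z = g • τ
  comm : ∀ (a b : J) (z : Z), a • z = z → b • z = z → Commute a b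
  root : ∀ (g : J) (n : ℕ) (z : Z), n ≠ 0 → g ^ n • z = z → g • z = z
  tf : TF J
  ai : AI J dZ L f
  pw : PW J dZ P L
  ta : ∀ (U : Set J) (α z : Z) (s : ℕ), (∀ a ∈ U, a • α = α) → (∀ a ∈ U, dZ z (a • z) ≤ s) →
    ∃ β, (ap α → ap β) ∧ (∀ a ∈ U, a • β = β) ∧ 2 * dZ z β ≤ s + c
  un : ∀ (a : J) z, a • τ = τ → (¬ ∃ β, ap β ∧ a • β = β) → a • z = z → z = τ
  h2 : ∀ (a : J) z, a • q = q → a • z = z → z = q ∨ ∀ x : Z, a • x = x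
  fj : ∀ (a : J) β β', ap β → ap β' → a • β = β → a • β' = β' →
    (∀ z : Z, a • z = z) ∨ ∀ b : J, b • β = β → b • β' = β'
  ca : ∀ a b : J, Commute a b → (∃ β, ap β ∧ a • β = β) → (∃ β, ap β ∧ b • β = β) →
    (∃ β, ap β ∧ (a * b) • β = β) → ∃ β, ap β ∧ a • β = β ∧ b • β = β
  gt : ∀ y e : J, IsConj y e → ¬ Commute y e → Done N y e ∨ Esc dZ Kk S y e

attribute [instance] Fbr.grp Fbr.aZ Fbr.aC

/-- The new level `W`, a blow up of `B` with the action of `Γ`, and the old group `G` with its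
plain points `(Y, d)` and its coned space `(U, dU)`. -/
structure Nw (G : Type) [Group G] (kB kF D k : ℕ) where
  Γ : Type
  W : Type
  B : Type
  Y : Type
  U : Type
  [grp : Group Γ]
  [aW : MulAction Γ W]
  [aB : MulAction Γ B]
  [aY : MulAction G Y]
  [aU : MulAction G U]
  dW : W → W → ℕ
  dB : B → B → ℕ
  dF : W → W → ℕ
  bar : W → B
  d : Y → Y → ℕ
  dU : U → U → ℕ
  π : Y → U
  Φ : Y → W
  θ : G →* Γ
  blow : Blow dW dB dF bar kB kF D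
  bact : BAct Γ dW dB dF bar
  hyp : Hyp4 dW k
  ne : Nonempty W
  met : IsMet d
  iso : Isom G d
  metU : IsMet dU
  isoU : Isom G dU
  surj : Function.Surjective θ
  π_smul : ∀ (g : G) y, π (g • y) = g • π y
  Φ_smul : ∀ (g : G) y, Φ (g • y) = θ g • Φ y
  π_le : ∀ y y', dU (π y) (π y') ≤ d y y'

attribute [instance] Nw.grp Nw.aW Nw.aB Nw.aY Nw.aU

variable {G : Type} [Group G] {kB kF D k kT kC DT c L f P N Kk S R : ℕ}

/-- The fibre of `W` over the cone point `v` is the fibre `F`. -/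
structure Fc (V : Nw G kB kF D k) (F : Fbr kT kC DT c L f P N Kk S R) where
  v : V.B
  io : F.J →* V.Γ
  ι : F.C → V.W
  ρ : F.J →* G
  y : V.Y
  inj : Function.Injective io
  ι_smul : ∀ (j : F.J) w, ι (j • w) = io j • ι w
  bar_ι : ∀ w, V.bar (ι w) = v
  onto : ∀ x, V.bar x = v → ∃ w, x = ι w
  dF_ι : ∀ w w', V.dF (ι w) (ι w') = F.dC w w'
  stab : ∀ γ : V.Γ, γ • v = v → ∃ j, γ = io j
  att : ∀ w x, V.dW (ι w) x ≤ 1 → V.bar x ≠ v → F.dp w ≤ c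
  pl : ∀ y' w, V.Φ y' = ι w → F.dp w ≤ c
  Φ_y : V.Φ y = ι F.b
  θρ : ∀ a, a • F.o = F.o → V.θ (ρ a) = io a
  ρ_short : ∀ a, a • F.o = F.o → V.d y (ρ a • y) ≤ c
  ρ_comm : ∀ a b, Commute (ρ a) (ρ b)
  sat : ∀ (g : G) (n : ℕ) a, n ≠ 0 → a • F.o = F.o → g ^ n = ρ a → ∃ a', a' • F.o = F.o ∧ g = ρ a'

/-- Everything the block uses. -/
structure Dk (V : Nw G kB kF D k) {I : Type} (F : I → Fbr kT kC DT c L f P N Kk S R)
    (t : ∀ p, Fc V (F p)) (ψ : ℕ → ℕ) : Prop where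
  cases : ∀ x, (∃ (p : I) (γ : V.Γ), V.bar x = γ • (t p).v) ∨
    ((∃ y, x = V.Φ y) ∧ ∀ x', V.bar x' = V.bar x → x' = x)
  un : ∀ p p' (γ : V.Γ), γ • (t p).v = (t p').v → p = p'
  pr : ∀ s y y', s ≤ R → V.dW (V.Φ y) (V.Φ y') ≤ s → ∃ n : G, V.θ n = 1 ∧ V.d y (n • y') ≤ ψ s
  inj : ∀ (n : G) y, V.θ n = 1 → V.d y (n • y) ≤ R → n = 1
  leB : ∀ y y', V.dB (V.bar (V.Φ y)) (V.bar (V.Φ y')) ≤ c * V.dU (V.π y) (V.π y')
  tf : TF G
  rg : RG G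
  n2 : N2 G
  pf : PF G
  ai : AI G V.dU L f
  pe1 : PE1 G V.dU L f
  pe2 : PE2 G V.dU L P

/-- `g` moves a plain point by at most `s`, before and after the quotient. -/
def Nw.Sh (V : Nw G kB kF D k) (s : ℕ) (g : G) : Prop :=
  ∃ y, V.d y (g • y) ≤ s ∧ V.dW (V.Φ y) (V.θ g • V.Φ y) ≤ s

/-- The invariants of the new group. `M` is a marked set, `L'` any predicate on pairs. -/
structure DOut (V : Nw G kB kF D k) (A P N Kk S S2 S3 : ℕ) : Prop where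
  tf : TF V.Γ
  rg : RG V.Γ
  n2 : N2 V.Γ
  pf : PF V.Γ
  ai : AI V.Γ V.dW (b1 k) A
  pe1 : PE1 V.Γ V.dW (b1 k) A
  pe2 : PE2 V.Γ V.dW (b1 k) P
  lc : ∀ a b : G, V.Sh S3 a → V.Sh S3 b → IsConj (V.θ a) (V.θ b) → IsConj a b
  gt : ∀ (M : Set G) (L' : V.Γ → V.Γ → Prop), (∀ s ∈ M, V.Sh S3 s) →
    (∀ s ∈ M, ∀ g, g * s * g⁻¹ ∈ M) →
    (∀ y : G, ∀ s ∈ M, ¬ Commute y (s * y * s⁻¹) →
      L' (V.θ y) (V.θ (s * y * s⁻¹)) ∨ Esc V.dU Kk S y (s * y * s⁻¹)) →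
    ∀ y : V.Γ, ∀ s ∈ M, ¬ Commute y (V.θ s * y * (V.θ s)⁻¹) →
      L' y (V.θ s * y * (V.θ s)⁻¹) ∨ Done (N + Kk + 1) y (V.θ s * y * (V.θ s)⁻¹) ∨
        Esc V.dW (2 * Kk + 1) S2 y (V.θ s * y * (V.θ s)⁻¹)

/-- The statement of the block. -/
def DeckMain : Prop :=
  ∀ (kB kF D k kT kC DT c : ℕ) (ψ : ℕ → ℕ), Monotone ψ → ∃ L : ℕ, ∀ f P : ℕ, P ≠ 0 → ∃ A : ℕ,
    ∀ S2 : ℕ, ∃ S : ℕ, ∀ Kk S3 : ℕ, ∃ R0 : ℕ, ∀ (G : Type) [Group G] (N R : ℕ) (I : Type)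
      (V : Nw G kB kF D k) (F : I → Fbr kT kC DT c L f P N Kk S R) (t : ∀ p, Fc V (F p)),
      R0 ≤ R → Dk V F t ψ → DOut V A P N Kk S S2 S3

end Pool.Agent.Lib.MP_a2eab4_al.Re
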