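import Pool.Agent.Lib.MP_a2eab4_al.ReI
import Pool.Agent.Lib.MP_a2eab4_al.RhI

set_option autoImplicit false

/-! A fibre together with the quotient map from the stabiliser of a cone vertex. -/

namespace Pool.Agent.Lib.MP_a2eab4_al.Re

open Pool.Agent.Lib.MP_429c3d_al Hyp Ng

/-- The fibre of a top pair. -/
structure Pg {G : Type} [Group G] (E D : Subgroup G) (y t : G) (kT kC DT c : ℕ) (φ : ℕ → ℕ)
    (L f P m Kk S R N : ℕ) where
  F : Fbr kT kC DT c L f P m Kk S R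
  π : Subgroup.closure (Sy (E : Set G) (t * y * t⁻¹)) →* F.J
  ρ : F.J →* G
  surj : Function.Surjective π
  ker : ∀ a, π a = 1 → Wd (Sy (E : Set G) (t * y * t⁻¹)) N (a : G) → a = 1
  law : ∀ a e, Twi D y t a e → ∃ a' e' : Subgroup.closure (Sy (E : Set G) (t * y * t⁻¹)),
    (a' : G) = a ∧ (e' : G) = e ∧ Commute (π a') (cs (π a') (π e') m)
  lip : ∀ a : Subgroup.closure (Sy (E : Set G) (t * y * t⁻¹)),
    (a : G) ∈ Sy (E : Set G) (t * y * t⁻¹) → F.dC F.b (π a • F.b) ≤ c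
  pr : ∀ (l : F.J) s, s ≤ R → F.dC F.b (l • F.b) ≤ s →
    ∃ a, π a = l ∧ Wd (Sy (E : Set G) (t * y * t⁻¹)) (φ s) (a : G)
  ρ_o : ∀ l : F.J, l • F.o = F.o → ρ l ∈ E ∧ ∃ a, π a = l ∧ (a : G) = ρ l
  o_ρ : ∀ a ∈ E, ∃ l : F.J, l • F.o = F.o ∧ ρ l = a
  ρ_comm : ∀ l l', Commute (ρ l) (ρ l')

end Pool.Agent.Lib.MP_a2eab4_al.Re
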