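import Pool.Agent.Lib.MP_a2eab4_al.ReI
import Pool.Agent.Lib.MP_a2eab4_al.ReBase0
import Pool.Agent.Lib.MP_429c3d_al.NgLim

set_option autoImplicit false

/-! Level zero. -/

namespace Pool.Agent.Lib.MP_a2eab4_al.Re

open Pool.Agent.Lib.MP_429c3d_al Hyp Ng

variable {G X : Type} [Group G] [MulAction G X] {d : X → X → ℕ} {H : Subgroup G}
  {ψ : G →* Multiplicative ℤ} {a w g : G} {x0 : X} {Λ : ℕ}

/-- The marked elements of level zero. -/
def Mk (a w : G) : Set G := {s | IsConj a⁻¹ s ∨ IsConj (a⁻¹ * w)⁻¹ s}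

/-- A short non trivial element is short only near one point. -/
theorem lev0_near (B : Base0 G d H ψ a w g x0 Λ) {y : G} (hy : y ≠ 1) {x : X}
    (h : d x (y • x) ≤ Λ) : ∃ f : G, ∀ z, d z (f • x0) ≤ 4 * d z (y • z) + 1 := by
  obtain ⟨f, hf⟩ := B.conj y x h
  refine ⟨f, fun z => ?_⟩
  have h1 := B.near _ hf (fun e => hy (by
    rw [mul_assoc, inv_mul_eq_one] at e
    exact mul_eq_right.1 e.symm)) (f⁻¹ • z)
  rwa [mul_smul, smul_inv_smul, mul_smul, B.iso, ← B.iso f, smul_inv_smul] at h1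

theorem lev0_pe (B : Base0 G d H ψ a w g x0 Λ) {L : ℕ} (hL : L ≤ Λ) (y : G) (j : ℤ) (x : X)
    (hj : j ≠ 0) (h : d x (y ^ j • x) ≤ L) (i : ℤ) : d x (y ^ i • x) ≤ 8 * L + 2 := by
  by_cases h1 : y ^ j = 1
  · have h2 : y = 1 := B.tf y j.natAbs (Int.natAbs_ne_zero.2 hj) (pow_natAbs_eq_one.2 h1)
    rw [h2, one_zpow, one_smul, B.gr.met.self]
    omega
  obtain ⟨f, hf⟩ := lev0_near B h1 (h.trans hL)
  have h2 := hf x
  have h3 := hf (y ^ i • x)
  rw [← mul_smul, (Commute.zpow_zpow_self y j i).eq, mul_smul, B.iso, B.gr.met.symm] at h3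
  have h4 := B.gr.met.tri x (f • x0) (y ^ i • x)
  omega

theorem lev0_psi (B : Base0 G d H ψ a w g x0 Λ) {s : G} (hs : s ∈ Mk a w) (f : G) :
    f⁻¹ * s * f ∉ H := by
  intro h
  have h1 := B.ψ_H _ h
  rw [map_mul, map_mul, map_inv, inv_mul_cancel_comm] at h1
  rcases hs with e | e
  · have h2 := isConj_iff_eq.1 (ψ.map_isConj e)
    rw [h1, map_inv, B.ψ_a] at h2
    exact absurd h2 (by decide)
  · have h2 := isConj_iff_eq.1 (ψ.map_isConj e)
    rw [h1, map_inv, map_mul, map_inv, B.ψ_a, B.ψ_H _ B.w_mem] at h2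
    exact absurd h2 (by decide)

theorem lev0 (B : Base0 G d H ψ a w g x0 Λ) {k A P S2 k0 n u : ℕ} (hk : 746 ≤ k)
    (hA : 8 * b1 k + 2 ≤ A) (hP : P ≠ 0) (h1 : b1 k ≤ Λ) (h2 : 8 * S2 + 2 ≤ Λ)
    (hu : 4 * Λ + 2 ≤ u) : Lev G d (Mk a w) k A P S2 k0 n u := by
  have m := B.gr.met
  have eq : ∀ y p q : G, Commute p q → y * p * y⁻¹ = q → p = q := fun y p q h e => by
    by_cases hp : p = 1
    · rw [← e, hp, mul_one, mul_inv_cancel]
    · rw [← e, (B.csa p y hp (e ▸ h.symm)).eq, mul_inv_cancel_right]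
  refine ⟨⟨B.gr, B.hyp.mono hk, B.iso, ⟨x0⟩, B.tf, fun p h e _ => ?_, fun p h j hj e => ?_,
    fun y c v hv e1 _ _ e4 _ => ⟨eq y _ _ (hv _ _) e1, eq y _ _ (hv _ _) e4⟩,
    fun p q x x' e e1 _ e3 _ => ?_, fun y j x _ hj e i => (lev0_pe B h1 y j x hj e i).trans hA,
    fun y hy x => ?_⟩, fun t s hs => ?_, fun s hs => ?_, fun y s hs => ?_⟩
  · by_cases hp : p = 1
    · rw [hp]
      exact Commute.one_right h
    · exact B.csa p h hp e.symm
  · by_cases hp : p = 1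
    · rw [hp]
      exact Commute.one_right h
    · exact B.ct h (p ^ j) p (fun e1 => hp (B.tf p j hj e1)) e (Commute.self_pow p j).symm
  · obtain ⟨f, hf⟩ := lev0_near B (y := p) (fun e0 => e (e0 ▸ Commute.one_left q)) (e1.trans h1)
    have p1 := hf x
    have p2 := hf x'
    have p3 := m.tri x (f • x0) x'
    rw [m.symm] at p2
    omega
  · by_contra e
    refine hy ⟨x, 8 * b1 k + 2, lev0_pe B h1 y P x (by exact_mod_cast hP) ?_⟩
    rw [zpow_natCast]
    omega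
  · have e : IsConj s (t * s * t⁻¹) := isConj_iff.2 ⟨t, rfl⟩
    exact hs.imp (fun h => h.trans e) fun h => h.trans e
  · have p1 := B.a_le
    have p2 := B.H_le w B.w_mem
    have p3 := lim_dis_inv m B.iso a x0
    have p4 := lim_dis_inv m B.iso (a⁻¹ * w) x0
    have p5 := lim_dis_mul m B.iso a⁻¹ w x0
    rcases hs with e | e <;> obtain ⟨t, rfl⟩ := isConj_iff.1 e <;> refine ⟨t • x0, ?_⟩ <;>
      rw [mul_smul, inv_smul_smul, mul_smul, B.iso] <;> omega
  · by_cases hy : y = 1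
    · exact Or.inl ⟨0, Nat.zero_le _, hy ▸ Commute.one_left _⟩
    refine Or.inr ⟨0, Nat.zero_le _, fun x => ?_⟩
    by_contra e
    have e1 : d x (y • x) < S2 := by omega
    have e2 : d x ((s * y * s⁻¹) • x) < S2 := not_le.1 fun e2 => e (Or.inr e2)
    obtain ⟨f, hf⟩ := lev0_near B hy (x := x) (by omega)
    have p1 := hf x
    have p2 := hf (s⁻¹ • x)
    rw [← B.iso s, smul_inv_smul, ← B.iso s (s⁻¹ • x), smul_inv_smul] at p2
    rw [mul_smul, mul_smul] at e2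
    have p3 := m.tri (f • x0) x (s • f • x0)
    rw [m.symm] at p1
    refine lev0_psi B hs f (B.mem _ ?_)
    rw [← B.iso f, mul_smul, mul_smul, smul_inv_smul]
    omega

end Pool.Agent.Lib.MP_a2eab4_al.Re
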