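import Pool.Agent.Lib.MP_a2eab4_al.ReStep
import Pool.Agent.Lib.MP_a2eab4_al.ReLev0

set_option autoImplicit false

/-! The limit of the levels. -/

namespace Pool.Agent.Lib.MP_a2eab4_al.Re

open Pool.Agent.Lib.MP_429c3d_al Hyp Ng

/-- A level with its data. -/
structure LvD (k A P S2 k0 n u : ℕ) where
  G : Type
  X : Type
  [grp : Group G]
  [act : MulAction G X]
  d : X → X → ℕ
  M : Set G
  lev : Lev G d M k A P S2 k0 n u

attribute [instance] LvD.grp LvD.act

theorem LvD.gr {k A P S2 k0 n u : ℕ} (L : LvD k A P S2 k0 n u) : IsGr L.d := L.lev.gr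

theorem lim_seq {S2 n u : ℕ} (hu : 2 ≤ u) (hS : 2 ≤ S2) (G X : ℕ → Type) [∀ i, Group (G i)]
    [∀ i, MulAction (G i) (X i)] (d : ∀ i, X i → X i → ℕ) (M : ∀ i, Set (G i))
    (θ : ∀ i, G i →* G (i + 1)) (Φ : ∀ i, X i → X (i + 1)) (gr : ∀ i, IsGr (d i))
    (hM : ∀ i, ∀ s ∈ M i, θ i s ∈ M (i + 1))
    (N : ∀ i, Nx (d i) (d (i + 1)) (M i) (θ i) (Φ i) S2 n u) (x : X 0) :
    ∃ (Γ : Type) (_ : Group Γ) (π : G 0 →* Γ), Function.Surjective π ∧
      (∀ h, d 0 x (h • x) ≤ 1 → π h = 1 → h = 1) ∧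
      ∀ y s, s ∈ M 0 → Done n (π y) (π (s * y * s⁻¹)) := by
  obtain ⟨f, f0, fs⟩ : ∃ f : ∀ i, G 0 →* G i, (∀ g, f 0 g = g) ∧
      ∀ i g, f (i + 1) g = θ i (f i g) :=
    ⟨fun i => Nat.rec (motive := fun i => G 0 →* G i) (MonoidHom.id _)
      (fun i f => (θ i).comp f) i, fun _ => rfl, fun _ _ => rfl⟩
  obtain ⟨p, p0, ps⟩ : ∃ p : ∀ i, X i, p 0 = x ∧ ∀ i, p (i + 1) = Φ i (p i) :=
    ⟨fun i => Nat.rec (motive := fun i => X i) x (fun i y => Φ i y) i, rfl, fun _ => rfl⟩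
  have hdis : ∀ (g : G 0) (i : ℕ), d i (p i) (f i g • p i) ≤ 1 ∨
      d i (p i) (f i g • p i) + i ≤ d 0 x (g • x) := by
    intro g i
    induction i with
    | zero => rw [f0, p0]; omega
    | succ i ih =>
      have h1 := lim_half (gr i) (gr (i + 1)).met (Φ i) hu (N i).le _ (p i) (f i g • p i) le_rfl
      rw [(N i).smul, ← fs, ← ps] at h1
      omega
  have hone : ∀ (g : G 0) (i j : ℕ), f i g = 1 → f (i + j) g = 1 := by
    intro g i j h
    induction j with
    | zero => exact h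
    | succ j ih => rw [← add_assoc, fs, ih, map_one]
  have hmk : ∀ s ∈ M 0, ∀ i, f i s ∈ M i := by
    intro s hs i
    induction i with
    | zero => rwa [f0]
    | succ i ih => rw [fs]; exact hM i _ ih
  let K : Subgroup (G 0) :=
    { carrier := {g | ∃ i, f i g = 1}
      mul_mem' := by
        rintro g h ⟨i, hg⟩ ⟨j, hh⟩
        refine ⟨i + j, ?_⟩
        have h1 := hone h j i hh
        rw [add_comm j i] at h1
        rw [map_mul, hone g i j hg, h1, one_mul]
      one_mem' := ⟨0, map_one _⟩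
      inv_mem' := by
        rintro g ⟨i, hg⟩
        exact ⟨i, by rw [map_inv, hg, inv_one]⟩ }
  have hK : K.Normal := ⟨by
    rintro g ⟨i, hg⟩ s
    exact ⟨i, by rw [map_mul, map_mul, hg, mul_one, ← map_mul, mul_inv_cancel, map_one]⟩⟩
  refine ⟨G 0 ⧸ K, inferInstance, QuotientGroup.mk' K, QuotientGroup.mk'_surjective K,
    fun h hh e => ?_, fun y s hs => ?_⟩
  · obtain ⟨i, hi⟩ := (QuotientGroup.eq_one_iff _).1 e
    induction i with
    | zero => rwa [f0] at hi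
    | succ i ih =>
      rw [fs] at hi
      have h1 := hdis h i
      exact ih ((N i).inj _ (p i) (by omega) hi)
  · obtain ⟨i, h1, h2⟩ : ∃ i, d 0 x (y • x) ≤ i ∧ d 0 x ((s * y * s⁻¹) • x) ≤ i :=
      ⟨_, le_max_left _ _, le_max_right _ _⟩
    have e : f i (s * y * s⁻¹) = f i s * f i y * (f i s)⁻¹ := by rw [map_mul, map_mul, map_inv]
    obtain ⟨j, hj, hc⟩ := (N i).tr (f i y) (f i s) (hmk s hs i) fun hB => by
      have h3 := hB (p i)
      have h4 := hdis y i
      have h5 := hdis (s * y * s⁻¹) i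
      rw [← e] at h3
      omega
    rw [← e, ← fs, ← fs, ← map_cs] at hc
    refine ⟨j, hj, ?_⟩
    rw [← map_cs]
    show _ * _ = _ * _
    rw [← map_mul, ← map_mul]
    refine (QuotientGroup.eq).2 ⟨i + 1, ?_⟩
    rw [map_mul, map_inv, map_mul, map_mul, hc.eq, inv_mul_cancel]

/-- The Engel words. -/
abbrev eng {G : Type} [Group G] (n : ℕ) (a g : G) : G := (fun x : G => x⁻¹ * g⁻¹ * x * g)^[n] a

theorem eng_succ {G : Type} [Group G] (n : ℕ) (a g : G) :
    eng (n + 1) a g = (eng n a g)⁻¹ * g⁻¹ * eng n a g * g := Function.iterate_succ_apply' _ _ _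

theorem eng_cs {G : Type} [Group G] (n : ℕ) (a g : G) :
    (eng n a g)⁻¹ * g * eng n a g = (g ^ n)⁻¹ * cs g (a⁻¹ * g * a) n * g ^ n := by
  induction n with
  | zero =>
    rw [pow_zero, inv_one, one_mul, mul_one]
    rfl
  | succ n ih =>
    have e : cs g (a⁻¹ * g * a) n = g ^ n * ((eng n a g)⁻¹ * g * eng n a g) * (g ^ n)⁻¹ := by
      rw [ih]
      group
    rw [eng_succ, cs, e]
    group

theorem eng_done {G : Type} [Group G] {n : ℕ} {a g : G} (h : Done n g (a⁻¹ * g * a)) :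
    eng (n + 2) a g = 1 := by
  obtain ⟨j, hj, h⟩ := h
  have h1 : eng (j + 2) a g = 1 := by
    have e := eng_cs (j + 1) a g
    rw [cs, ← h.eq, mul_inv_cancel_right, mul_assoc (g ^ (j + 1))⁻¹,
      (Commute.self_pow g (j + 1)).eq, inv_mul_cancel_left] at e
    rw [eng_succ]
    calc _ = ((eng (j + 1) a g)⁻¹ * g * eng (j + 1) a g)⁻¹ * g := by group
      _ = 1 := by rw [e, inv_mul_cancel]
  obtain ⟨i, rfl⟩ := Nat.exists_eq_add_of_le hj
  clear hj
  induction i with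
  | zero => exact h1
  | succ i ih => rw [show j + (i + 1) + 2 = j + i + 2 + 1 by omega, eng_succ, ih]; group

theorem eng_map {G H : Type} [Group G] [Group H] (f : G →* H) (n : ℕ) (a g : G) :
    f (eng n a g) = eng n (f a) (f g) := by
  induction n with
  | zero => rfl
  | succ n ih => rw [eng_succ, eng_succ, map_mul, map_mul, map_mul, map_inv, map_inv, ih]

theorem eng_mem {G : Type} [Group G] {H : Subgroup G} {a g : G} (ha : a ∈ H) (hg : g ∈ H) (n : ℕ) :
    eng n a g ∈ H := by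
  induction n with
  | zero => exact ha
  | succ n ih =>
    rw [eng_succ]
    exact H.mul_mem (H.mul_mem (H.mul_mem (H.inv_mem ih) (H.inv_mem hg)) ih) hg

theorem eng_nc {G : Type} [Group G] (csa : CSA G) {a g : G} (h : ¬ Commute g a) (n : ℕ) :
    ¬ Commute g (eng n a g) := by
  induction n with
  | zero => exact h
  | succ n ih =>
    intro e
    rw [eng_succ] at e
    have e1 := (e.mul_right (Commute.refl g).inv_right).inv_right
    refine ih (Commute.inv_right_iff.1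
      (csa g (eng n a g)⁻¹ (fun e0 => h (e0 ▸ Commute.one_left a)) ?_).symm)
    convert e1.symm using 1
    group

/-- Two bounded right Engel elements whose product is not a right Engel element. -/
theorem engel_example : ∃ (G : Type) (_ : Group G) (a b : G) (n : ℕ), (∀ g, eng n a g = 1) ∧
    (∀ g, eng n b g = 1) ∧ ∃ g, ∀ m, eng m (a * b) g ≠ 1 := by
  obtain ⟨k, hk, h⟩ := level_step
  obtain ⟨A, P, S2, hA, hP, hS, h⟩ := h (8 * b1 k + 2)
  obtain ⟨u, k0, n, hu, -, step⟩ := h (4 * (b1 k + 8 * S2 + 2) + 2)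
  obtain ⟨G, X, _, _, d, H, ψ, a, w, g, x0, B⟩ := base0_exists (b1 k + 8 * S2 + 2)
  have step' : ∀ L : LvD k A P S2 k0 n u, ∃ (L' : LvD k A P S2 k0 n u) (θ : L.G →* L'.G)
      (Φ : L.X → L'.X), (∀ s ∈ L.M, θ s ∈ L'.M) ∧ Nx L.d L'.d L.M θ Φ S2 n u := by
    intro L
    obtain ⟨G', X', i1, i2, d', θ, Φ, h1, h2⟩ := step L.G L.X L.d L.M L.lev
    exact ⟨@LvD.mk k A P S2 k0 n u G' X' i1 i2 d' _ h1, θ, Φ, fun s hs => ⟨s, hs, rfl⟩, h2⟩
  choose nxt θ Φ h1 h2 using step'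
  let L : ℕ → LvD k A P S2 k0 n u := fun i => Nat.rec
    (LvD.mk G X d (Mk a w) (lev0 B hk hA hP (by omega) (by omega) hu)) (fun _ L => nxt L) i
  obtain ⟨Γ, _, π, hπ, h3, h4⟩ := @lim_seq S2 n u (by omega) hS (fun i => (L i).G)
    (fun i => (L i).X) (fun i => (L i).grp) (fun i => (L i).act) (fun i => (L i).d)
    (fun i => (L i).M) (fun i => θ (L i)) (fun i => Φ (L i)) (fun i => (L i).gr)
    (fun i => h1 (L i)) (fun i => h2 (L i)) x0
  change G →* Γ at π
  have key : ∀ s : G, s⁻¹ ∈ Mk a w → ∀ y, eng (n + 2) (π s) y = 1 := fun s hs y => by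
    obtain ⟨y, rfl⟩ := hπ y
    have h5 := h4 y s⁻¹ hs
    rw [map_mul, map_mul, inv_inv, map_inv] at h5
    exact eng_done h5
  refine ⟨Γ, inferInstance, π a, π (a⁻¹ * w), n + 2, key a (Or.inl (IsConj.refl _)),
    key _ (Or.inr (IsConj.refl _)), π g, fun m e => ?_⟩
  rw [← map_mul, mul_inv_cancel_left, ← eng_map] at e
  have h5 : eng m w g = 1 := h3 _ (B.H_le _ (eng_mem B.w_mem B.g_mem m)) e
  exact eng_nc B.csa B.nc m (h5 ▸ Commute.one_right g)

end Pool.Agent.Lib.MP_a2eab4_al.Re
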