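import Pool.Agent.Lib.MP_a2eab4_al.ReBh

set_option autoImplicit false

/-! The new level: horoballs are replaced by hyperbolic fibres. -/

namespace Pool.Agent.Lib.MP_a2eab4_al.Re

open Pool.Agent.Lib.MP_429c3d_al Hyp Ng

/-- The fibres. -/
structure Fb {H P : Type} [Group H] (S : P → Set H) {J C : P → Type} [∀ p, Group (J p)]
    [∀ p, MulAction (J p) (C p)] (io : ∀ p, J p →* H) (dC : ∀ p, C p → C p → ℕ) (b : ∀ p, C p)
    (kF c1 : ℕ) : Prop where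
  inj : ∀ p, Function.Injective (io p)
  rng : ∀ p g, g ∈ Subgroup.closure (S p) ↔ ∃ j, io p j = g
  gr : ∀ p, IsGr (dC p)
  hyp : ∀ p, Hyp4 (dC p) kF
  iso : ∀ p, Isom (J p) (dC p)
  le : ∀ p j, io p j ∈ S p → dC p (b p) (j • b p) ≤ c1

variable {H Y P : Type} [Group H] [MulAction H Y] {d : Y → Y → ℕ} {hb : H → P → ℕ → Y}
  {S : P → Set H} {κ : ℕ} {J C : P → Type} [∀ p, Group (J p)] [∀ p, MulAction (J p) (C p)]
  {io : ∀ p, J p →* H} {dC : ∀ p, C p → C p → ℕ} {b : ∀ p, C p} {kF c1 : ℕ}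

theorem Fb.wd_le (F : Fb S io dC b kF c1) {p : P} {n : ℕ} {g : H} (h : Wd (S p) n g) :
    ∀ j, io p j = g → dC p (b p) (j • b p) ≤ c1 * n := by
  refine h.induct (P := fun n g => ∀ j, io p j = g → dC p (b p) (j • b p) ≤ c1 * n) ?_ ?_
  · intro n j e
    rw [F.inj p (e.trans (map_one _).symm), one_smul, (F.gr p).met.self]
    omega
  · intro n a g ha _ ih j e
    obtain ⟨i, rfl⟩ := (F.rng p a).1 (Subgroup.subset_closure ha)
    have e1 := ih (i⁻¹ * j) (by rw [map_mul, map_inv, e, inv_mul_cancel_left])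
    have e2 := F.le p i ha
    have e3 := (F.gr p).met.tri (b p) (i • b p) (j • b p)
    rw [← F.iso p i, smul_smul, mul_inv_cancel_left] at e1
    rw [Nat.mul_succ]
    omega

/-- The points of the new space, without the metric. -/
structure Wp (hb : H → P → ℕ → Y) (io : ∀ p, J p →* H) (b : ∀ p, C p) where
  W : Type
  [act : MulAction H W]
  at0 : Y → W
  fib : ∀ p, H → C p → W
  at_smul : ∀ (γ : H) w, γ • at0 w = at0 (γ • w)
  fib_smul : ∀ (γ : H) p g c, γ • fib p g c = fib p (γ * g) c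
  at_hb : ∀ g p n, at0 (hb g p n) = fib p g (b p)
  at_inj : ∀ w w', Out hb w → at0 w = at0 w' → w = w'
  at_ne : ∀ w p g c, Out hb w → at0 w ≠ fib p g c
  fib_p : ∀ p g c p' g' c', fib p g c = fib p' g' c' → p = p'
  fib_eq : ∀ p g c g' c', fib p g c = fib p g' c' ↔ ∃ j, g = g' * io p j ∧ j • c = c'
  cases : ∀ x, (∃ w, Out hb w ∧ x = at0 w) ∨ ∃ p g c, x = fib p g c

attribute [instance] Wp.act

/-- The relation that defines a family of fibres. -/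
def fs (io : ∀ p, J p →* H) (C : P → Type) [∀ p, MulAction (J p) (C p)] (p : P) :
    Setoid (H × C p) where
  r x y := ∃ j, x.1 = y.1 * io p j ∧ j • x.2 = y.2
  iseqv := ⟨fun x => ⟨1, by simp, one_smul _ _⟩,
    fun ⟨j, e1, e2⟩ => ⟨j⁻¹, by rw [e1, map_inv, mul_inv_cancel_right], by rw [← e2, inv_smul_smul]⟩,
    fun ⟨j, e1, e2⟩ ⟨i, e3, e4⟩ => ⟨i * j, by rw [e1, e3, map_mul, mul_assoc],
      by rw [mul_smul, e2, e4]⟩⟩

theorem Hb.exists_wp (B : Hb H d hb S) (io : ∀ p, J p →* H) (b : ∀ p, C p) :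
    Nonempty (Wp hb io b) := by
  classical
  let W := {w // Out hb w} ⊕ Σ p, Quotient (fs io C p)
  let fib : ∀ p, H → C p → W := fun p g c => .inr ⟨p, Quotient.mk _ (g, c)⟩
  let sm : H → W → W := fun γ => Sum.map (fun w => ⟨γ • w.1, B.out_smul γ w.2⟩) fun x =>
    ⟨x.1, Quotient.map (sa := fs io C x.1) (sb := fs io C x.1) (fun y => (γ * y.1, y.2))
      (fun _ _ ⟨j, e1, e2⟩ => ⟨j, by rw [e1, mul_assoc], e2⟩) x.2⟩
  have cs : ∀ x : W, (∃ w, x = .inl w) ∨ ∃ p g c, x = fib p g c := by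
    rintro (w | ⟨p, ⟨g, c⟩⟩)
    · exact Or.inl ⟨w, rfl⟩
    · exact Or.inr ⟨p, g, c, rfl⟩
  let act : MulAction H W :=
    { smul := sm
      one_smul := fun x => by
        rcases cs x with ⟨w, rfl⟩ | ⟨p, g, c, rfl⟩
        · exact congrArg Sum.inl (Subtype.ext (one_smul H w.1))
        · exact congrArg (fib p · c) (one_mul g)
      mul_smul := fun γ γ' x => by
        rcases cs x with ⟨w, rfl⟩ | ⟨p, g, c, rfl⟩
        · exact congrArg Sum.inl (Subtype.ext (mul_smul γ γ' w.1))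
        · exact congrArg (fib p · c) (mul_assoc γ γ' g) }
  have ex : ∀ w, ∃ x : W, (∀ h : Out hb w, x = .inl ⟨w, h⟩) ∧
      ∀ g p n, w = hb g p n → x = fib p g (b p) := by
    intro w
    rcases out_or hb w with h | ⟨g, p, n, rfl⟩
    · exact ⟨.inl ⟨w, h⟩, fun _ => rfl, fun g p n e => absurd e (h g p n)⟩
    · refine ⟨fib p g (b p), fun h => absurd rfl (h g p n), fun g' p' n' e => ?_⟩
      obtain ⟨rfl, rfl, -⟩ := B.inj _ _ _ _ _ _ e
      rfl
  choose at0 a1 a2 using ex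
  refine ⟨Wp.mk W at0 fib (fun γ w => ?_) (fun _ _ _ _ => rfl) (fun g p n => a2 _ g p n rfl)
    (fun w w' h e => ?_) (fun w p g c h e => ?_)
    (fun p g c p' g' c' e => congrArg Sigma.fst (Sum.inr.inj e))
    (fun p g c g' c' => ⟨fun e => ?_, fun e => ?_⟩) fun x => ?_⟩
  · rcases out_or hb w with h | ⟨g, p, n, rfl⟩
    · rw [a1 w h, a1 _ (B.out_smul γ h)]
      rfl
    · rw [a2 _ g p n rfl, a2 _ (γ * g) p n (B.smul _ _ _ _)]
      rfl
  · rw [a1 w h] at e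
    rcases out_or hb w' with h' | ⟨g, p, n, rfl⟩
    · rw [a1 w' h'] at e
      exact congrArg Subtype.val (Sum.inl.inj e)
    · rw [a2 _ g p n rfl] at e
      exact absurd e Sum.inl_ne_inr
  · rw [a1 w h] at e
    exact Sum.inl_ne_inr e
  · exact Quotient.exact (s := fs io C p)
      (sigma_mk_injective (β := fun p => Quotient (fs io C p)) (Sum.inr.inj e))
  · exact congrArg (fun x => (Sum.inr ⟨p, x⟩ : W)) (Quotient.sound e)
  · exact (cs x).imp (fun ⟨w, e⟩ => ⟨w.1, w.2, e.trans (a1 _ w.2).symm⟩) id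

namespace Wp

variable (V : Wp hb io b)

theorem fib_io (p : P) (g : H) (j : J p) (c : C p) : V.fib p (g * io p j) c = V.fib p g (j • c) :=
  (V.fib_eq _ _ _ _ _).2 ⟨j, rfl, rfl⟩

/-- The metric of the fibres. -/
noncomputable def dF (dC : ∀ p, C p → C p → ℕ) (x y : V.W) : ℕ :=
  sInf {n | ∃ p g c c', x = V.fib p g c ∧ y = V.fib p g c' ∧ dC p c c' = n}

/-- The edges. -/
def adj (B : Hb H d hb S) (dC : ∀ p, C p → C p → ℕ) (κ : ℕ) (x y : V.W) : Prop :=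
  (∃ p g c c', x = V.fib p g c ∧ y = V.fib p g c' ∧ dC p c c' ≤ 1) ∨
    ∃ w w', d w w' ≤ 4 * κ + 4 ∧ B.ι w ≠ B.ι w' ∧ x = V.at0 w ∧ y = V.at0 w'

/-- The metric. -/
noncomputable def dW (B : Hb H d hb S) (dC : ∀ p, C p → C p → ℕ) (κ : ℕ) : V.W → V.W → ℕ :=
  gd (V.adj B dC κ)

variable (B : Hb H d hb S) (F : Fb S io dC b kF c1)

include F in
theorem fib_inj {p : P} {g : H} {c c' : C p} (h : V.fib p g c = V.fib p g c') : c = c' := by
  obtain ⟨j, e1, e2⟩ := (V.fib_eq _ _ _ _ _).1 h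
  rw [← e2, F.inj p ((left_eq_mul.1 e1).trans (map_one _).symm), one_smul]

include F in
theorem dF_fib (p : P) (g : H) (c c' : C p) :
    V.dF dC (V.fib p g c) (V.fib p g c') = dC p c c' := by
  have : {n | ∃ p₁ g₁ c₁ c₁', V.fib p g c = V.fib p₁ g₁ c₁ ∧ V.fib p g c' = V.fib p₁ g₁ c₁' ∧
      dC p₁ c₁ c₁' = n} = {dC p c c'} := by
    ext n
    refine ⟨?_, fun e => ⟨p, g, c, c', rfl, rfl, e.symm⟩⟩
    rintro ⟨p₁, g₁, c₁, c₁', e1, e2, rfl⟩
    obtain rfl := V.fib_p _ _ _ _ _ _ e1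
    obtain ⟨j, rfl, rfl⟩ := (V.fib_eq _ _ _ _ _).1 e1
    rw [V.fib_io] at e2
    rw [← V.fib_inj F e2]
    exact F.iso p j c c'
  rw [dF, this, csInf_singleton]

theorem dF_out {w : Y} (h : Out hb w) (y : V.W) : V.dF dC (V.at0 w) y = 0 := by
  rw [dF, Nat.sInf_eq_zero]
  exact Or.inr (Set.eq_empty_of_forall_notMem fun n ⟨p, g, c, _, e, _⟩ => V.at_ne w p g c h e)

include F in
theorem exists_bar : ∃ bar : V.W → B.Bh, (∀ w, bar (V.at0 w) = B.ι w) ∧
    ∀ p g c, bar (V.fib p g c) = B.ι (hb g p 0) := by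
  have : ∀ x : V.W, ∃ v : B.Bh, (∀ w, Out hb w → x = V.at0 w → v = B.ι w) ∧
      ∀ p g c, x = V.fib p g c → v = B.ι (hb g p 0) := by
    intro x
    rcases V.cases x with ⟨w, h, rfl⟩ | ⟨p, g, c, rfl⟩
    · exact ⟨B.ι w, fun w' _ e => by rw [V.at_inj w w' h e],
        fun p g c e => absurd e (V.at_ne w p g c h)⟩
    · refine ⟨B.ι (hb g p 0), fun w h e => absurd e.symm (V.at_ne w p g c h), ?_⟩
      intro p' g' c' e
      obtain rfl := V.fib_p _ _ _ _ _ _ e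
      obtain ⟨j, rfl, -⟩ := (V.fib_eq _ _ _ _ _).1 e
      exact (B.ι_eq.2 (B.cl_hb.2 ⟨_, 0, (F.rng _ _).2 ⟨j, rfl⟩, rfl⟩)).symm
  choose bar h1 h2 using this
  refine ⟨bar, fun w => ?_, fun p g c => h2 _ p g c rfl⟩
  rcases out_or hb w with h | ⟨g, p, n, rfl⟩
  · exact h1 _ w h rfl
  · rw [h2 _ p g _ (V.at_hb g p n)]
    exact B.ι_eq.2 (B.cl_hb.2 ⟨1, n, one_mem _, by rw [mul_one]⟩)

/-- The projection to the collapsed space. -/
noncomputable def bar : V.W → B.Bh := (V.exists_bar B F).choose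

theorem bar_at (w : Y) : V.bar B F (V.at0 w) = B.ι w := (V.exists_bar B F).choose_spec.1 w

theorem bar_fib (p : P) (g : H) (c : C p) : V.bar B F (V.fib p g c) = B.ι (hb g p 0) :=
  (V.exists_bar B F).choose_spec.2 p g c

theorem bar_smul (γ : H) (x : V.W) : V.bar B F (γ • x) = γ • V.bar B F x := by
  rcases V.cases x with ⟨w, -, rfl⟩ | ⟨p, g, c, rfl⟩
  · rw [V.at_smul, V.bar_at, V.bar_at, B.ι_smul]
  · rw [V.fib_smul, V.bar_fib, V.bar_fib, ← B.ι_smul, B.smul]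

theorem of_bar_out {x : V.W} {w : Y} (h : Out hb w) (e : V.bar B F x = B.ι w) : x = V.at0 w := by
  rcases V.cases x with ⟨w', -, rfl⟩ | ⟨p, g, c, rfl⟩
  · rw [V.bar_at] at e
    rw [h.cl (B.ι_eq.1 e.symm)]
  · rw [V.bar_fib] at e
    exact absurd (h.cl (B.ι_eq.1 e.symm)) (h _ _ _)

theorem of_bar_hb {x : V.W} {g : H} {p : P} {n : ℕ} (e : V.bar B F x = B.ι (hb g p n)) :
    ∃ c, x = V.fib p g c := by
  rcases V.cases x with ⟨w', h, rfl⟩ | ⟨p', g', c, rfl⟩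
  · rw [V.bar_at] at e
    exact absurd (h.cl (B.ι_eq.1 e)) (h _ _ _)
  · rw [V.bar_fib] at e
    obtain ⟨f, n', e1, e2⟩ := B.cl_hb.1 (B.ι_eq.1 e.symm)
    obtain ⟨rfl, rfl, -⟩ := B.inj _ _ _ _ _ _ e2
    obtain ⟨j, rfl⟩ := (F.rng _ _).1 e1
    exact ⟨_, V.fib_io _ _ _ _⟩

/-- Points with the same projection. -/
theorem of_bar {x y : V.W} (e : V.bar B F x = V.bar B F y) :
    (∃ w, Out hb w ∧ x = V.at0 w ∧ y = V.at0 w) ∨
      ∃ p g c c', x = V.fib p g c ∧ y = V.fib p g c' := by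
  rcases V.cases x with ⟨w, h, rfl⟩ | ⟨p, g, c, rfl⟩
  · exact Or.inl ⟨w, h, rfl, V.of_bar_out B F h (e.symm.trans (V.bar_at B F w))⟩
  · obtain ⟨c', e'⟩ := V.of_bar_hb B F (e.symm.trans (V.bar_fib B F p g c))
    exact Or.inr ⟨p, g, c, c', rfl, e'⟩

include F in
theorem dW_gr (κ : ℕ) :
    IsGr (V.dW B dC κ) ∧ ∀ x y, V.dW B dC κ x y ≤ 1 ↔ x = y ∨ V.adj B dC κ x y := by
  have fi : ∀ p g c c', Relation.ReflTransGen (V.adj B dC κ) (V.fib p g c) (V.fib p g c') :=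
    fun p g c c' => (F.gr p).induct c
      (P := fun _ y => Relation.ReflTransGen (V.adj B dC κ) (V.fib p g c) (V.fib p g y))
      Relation.ReflTransGen.refl
      (fun n u v _ _ h ih => ih.tail (Or.inl ⟨p, g, u, v, rfl, rfl, h.le⟩)) c'
  have sa : ∀ x y, V.bar B F x = V.bar B F y → Relation.ReflTransGen (V.adj B dC κ) x y := by
    intro x y e
    rcases V.of_bar B F e with ⟨w, -, rfl, rfl⟩ | ⟨p, g, c, c', rfl, rfl⟩
    · exact Relation.ReflTransGen.refl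
    · exact fi p g c c'
  refine gd_isGr ?_ fun x y => ?_
  · rintro x y (⟨p, g, c, c', e1, e2, e3⟩ | ⟨w, w', e1, e2, e3, e4⟩)
    · exact Or.inl ⟨p, g, c', c, e2, e1, by rw [(F.gr p).met.symm]; exact e3⟩
    · exact Or.inr ⟨w', w, by rw [B.gr.met.symm]; exact e1, e2.symm, e4, e3⟩
  · obtain ⟨w, e⟩ := B.ι_surj (V.bar B F x)
    obtain ⟨w', e'⟩ := B.ι_surj (V.bar B F y)
    refine ((sa x (V.at0 w) (by rw [V.bar_at, e])).trans ?_).trans
      (sa (V.at0 w') y (by rw [V.bar_at, e']))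
    refine B.gr.induct w
      (P := fun _ y => Relation.ReflTransGen (V.adj B dC κ) (V.at0 w) (V.at0 y))
      Relation.ReflTransGen.refl (fun n u v _ _ h ih => ?_) w'
    by_cases c : B.ι u = B.ι v
    · exact ih.trans (sa _ _ (by rw [V.bar_at, V.bar_at, c]))
    · exact ih.tail (Or.inr ⟨u, v, by omega, c, rfl, rfl⟩)

include F in
theorem fib_le (κ : ℕ) (p : P) (g : H) (c c' : C p) :
    V.dW B dC κ (V.fib p g c) (V.fib p g c') ≤ dC p c c' := by
  simpa using (F.gr p).lip (V.dW_gr B F κ).1.met (V.fib p g) (c := 1) (fun u v h =>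
    ((V.dW_gr B F κ).2 _ _).2 (Or.inr (Or.inl ⟨p, g, u, v, rfl, rfl, h⟩))) c c'

include F in
theorem at_one {w w' : Y} (h : d w w' ≤ 4 * κ + 4) (h' : B.ι w ≠ B.ι w') :
    V.dW B dC κ (V.at0 w) (V.at0 w') ≤ 1 :=
  ((V.dW_gr B F κ).2 _ _).2 (Or.inr (Or.inr ⟨w, w', h, h', rfl, rfl⟩))

theorem fibre (v : B.Bh) : IsGr (fun x y : {x // V.bar B F x = v} => V.dF dC x y) ∧
    Hyp4 (fun x y : {x // V.bar B F x = v} => V.dF dC x y) kF := by
  obtain ⟨w, rfl⟩ := B.ι_surj v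
  rcases out_or hb w with h | ⟨g, p, n, rfl⟩
  · have : (fun x y : {x // V.bar B F x = B.ι w} => V.dF dC x y) = fun _ _ => 0 := by
      funext x y
      rw [V.of_bar_out B F h x.2, V.dF_out h]
    rw [this]
    exact ⟨isGr_unique fun x y => Subtype.ext
      ((V.of_bar_out B F h x.2).trans (V.of_bar_out B F h y.2).symm),
      fun _ _ _ _ => Or.inl (Nat.zero_le _)⟩
  · choose f hf using fun x : {x // V.bar B F x = B.ι (hb g p n)} => V.of_bar_hb B F x.2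
    have : (fun x y : {x // V.bar B F x = B.ι (hb g p n)} => V.dF dC x y) =
        fun x y => dC p (f x) (f y) := by
      funext x y
      rw [← V.dF_fib F p g, ← hf, ← hf]
    rw [this]
    refine ⟨(F.gr p).comap f ⟨fun x y e => Subtype.ext (by rw [hf, hf y, e]), fun c => ?_⟩,
      fun _ _ _ _ => F.hyp p _ _ _ _⟩
    exact ⟨⟨V.fib p g c, by rw [V.bar_fib, ← V.bar_at B F, ← V.bar_at B F, V.at_hb, V.at_hb,
      V.bar_fib]⟩, V.fib_inj F (hf _).symm⟩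

end Wp

/-- The detour constant of the new space. -/
def dWp (κ c1 : ℕ) : ℕ := c1 * ((2 * κ + 1) * 2 ^ (dBh κ + 12 * κ + 10))

namespace Wp

variable (V : Wp hb io b) (B : Hb H d hb S) (F : Fb S io dC b kF c1)

include B F in
theorem dF_at (hyp : Hyp4 d κ) {w w' : Y} {s : ℕ} (h : Cl hb S w w')
    (e : d w w' + dep hb w + dep hb w' ≤ s) :
    V.dF dC (V.at0 w) (V.at0 w') ≤ c1 * ((2 * κ + 1) * 2 ^ (s + 4 * κ + 2)) := by
  rcases out_or hb w with o | ⟨g, p, n, rfl⟩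
  · rw [V.dF_out o]
    omega
  · obtain ⟨f, n', e1, rfl⟩ := B.cl_hb.1 h
    rw [B.dep_hb, B.dep_hb] at e
    obtain ⟨j, rfl⟩ := (F.rng _ _).1 e1
    rw [V.at_hb, V.at_hb, V.fib_io, V.dF_fib F]
    exact F.wd_le (B.wd_of_le hyp e1 e) j rfl

theorem blow (hyp : Hyp4 d κ) :
    Blow (V.dW B dC κ) (B.dB κ) (V.dF dC) (V.bar B F) (kBh κ) kF (dWp κ c1) := by
  have G := V.dW_gr B F κ
  have crs : ∀ x y, V.dW B dC κ x y ≤ 1 → V.bar B F x ≠ V.bar B F y →
      ∃ w w', d w w' ≤ 4 * κ + 4 ∧ B.ι w ≠ B.ι w' ∧ x = V.at0 w ∧ y = V.at0 w' := by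
    intro x y h hne
    rcases (G.2 x y).1 h with rfl | ⟨p, g, c, c', rfl, rfl, -⟩ | e
    · exact absurd rfl hne
    · exact absurd (by rw [V.bar_fib, V.bar_fib]) hne
    · exact e
  refine ⟨G.1, (B.dB_gr κ).1, B.hypB hyp, fun v => (V.fibre B F v).1, fun v => (V.fibre B F v).2,
    fun v => ?_, fun x y e => ?_, fun x y e h => ?_, fun x y h => ?_, fun u v h => ?_, ?_⟩
  · obtain ⟨w, rfl⟩ := B.ι_surj v
    exact ⟨_, V.bar_at B F w⟩
  · rcases V.of_bar B F e with ⟨w, -, rfl, rfl⟩ | ⟨p, g, c, c', rfl, rfl⟩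
    · rw [G.1.met.self]
      omega
    · rw [V.dF_fib F]
      exact V.fib_le B F κ p g c c'
  · rcases (G.2 x y).1 h with rfl | ⟨p, g, c, c', rfl, rfl, h1⟩ | ⟨w, w', -, h1, rfl, rfl⟩
    · exact ((V.fibre B F _).1.met.self ⟨x, rfl⟩).le.trans (by omega)
    · rwa [V.dF_fib F]
    · rw [V.bar_at, V.bar_at] at e
      exact absurd e h1
  · by_cases e : V.bar B F x = V.bar B F y
    · rw [e, (B.dB_gr κ).1.met.self]
      omega
    · obtain ⟨w, w', e1, -, rfl, rfl⟩ := crs x y h e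
      rw [V.bar_at, V.bar_at]
      exact B.dB_one e1
  · obtain ⟨w, w', e, rfl, rfl⟩ := ((B.dB_gr κ).2 _ _).1 h.le
    refine ⟨_, _, V.bar_at B F w, V.bar_at B F w', V.at_one B F e fun c => ?_⟩
    rw [c, (B.dB_gr κ).1.met.self] at h
    omega
  · intro x x' y y' e h h' ha
    obtain ⟨w, z, e1, e2, rfl, rfl⟩ := crs x y h (avoid_ne ha).1.symm
    obtain ⟨w', z', e3, e4, rfl, rfl⟩ := crs x' y' h' (e ▸ (avoid_ne ha).2.symm)
    simp only [V.bar_at] at e ha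
    have := B.detour hyp e e1 e3 ha
    have := B.dep_lt e1 e2
    have := B.dep_lt e3 e4
    have := V.dF_at B F hyp (B.ι_eq.1 e) (s := dBh κ + 8 * κ + 8) (by omega)
    rwa [show dBh κ + 8 * κ + 8 + 4 * κ + 2 = dBh κ + 12 * κ + 10 by omega] at this

theorem bact (κ : ℕ) : BAct H (V.dW B dC κ) (B.dB κ) (V.dF dC) (V.bar B F) := by
  have G := V.dW_gr B F κ
  refine ⟨G.1.iso fun γ x y h => ?_, B.dB_smul κ, fun γ x y e => ?_, V.bar_smul B F⟩
  · refine (G.2 _ _).2 (((G.2 _ _).1 h).imp (congrArg _) ?_)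
    rintro (⟨p, g, c, c', rfl, rfl, h1⟩ | ⟨w, w', e1, e2, rfl, rfl⟩)
    · exact Or.inl ⟨p, γ * g, c, c', V.fib_smul _ _ _ _, V.fib_smul _ _ _ _, h1⟩
    · exact Or.inr ⟨γ • w, γ • w', by rw [B.iso]; exact e1,
        fun c => e2 (smul_left_cancel γ (by rw [← B.ι_smul, c, B.ι_smul])),
        V.at_smul _ _, V.at_smul _ _⟩
  · rcases V.of_bar B F e with ⟨w, o, rfl, rfl⟩ | ⟨p, g, c, c', rfl, rfl⟩
    · rw [V.at_smul, V.dF_out o, V.dF_out (B.out_smul γ o)]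
    · rw [V.fib_smul, V.fib_smul, V.dF_fib F, V.dF_fib F]

include B F in
/-- Short paths stay in a fibre or meet an attaching point. -/
theorem inner (κ : ℕ) {p : P} {g : H} {c : C p} {y : V.W} {s : ℕ}
    (h : V.dW B dC κ (V.fib p g c) y ≤ s) :
    (∃ c', y = V.fib p g c' ∧ dC p c c' ≤ s) ∨ ∃ j : J p, dC p c (j • b p) < s := by
  have G := V.dW_gr B F κ
  refine (G.1.induct (V.fib p g c) (P := fun n y => (∃ c', y = V.fib p g c' ∧ dC p c c' ≤ n) ∨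
    ∃ j : J p, dC p c (j • b p) < n) (Or.inl ⟨c, rfl, ((F.gr p).met.self c).le⟩) ?_ y).imp
    (fun ⟨c', e1, e2⟩ => ⟨c', e1, e2.trans h⟩) fun ⟨j, e⟩ => ⟨j, e.trans_le h⟩
  rintro n u v - - e (⟨c₁, rfl, e1⟩ | ⟨j, e1⟩)
  · rcases (G.2 _ _).1 e.le with rfl | ⟨p', g', c₂, c₃, e2, rfl, e3⟩ | ⟨w, w', -, -, e2, rfl⟩
    · exact Or.inl ⟨c₁, rfl, by omega⟩
    · obtain rfl := V.fib_p _ _ _ _ _ _ e2
      obtain ⟨j, rfl, rfl⟩ := (V.fib_eq _ _ _ _ _).1 e2.symm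
      refine Or.inl ⟨j • c₃, V.fib_io _ _ _ _, ?_⟩
      have := (F.gr p).met.tri c (j • c₂) (j • c₃)
      rw [F.iso] at this
      omega
    · rcases out_or hb w with o | ⟨g', p', m, rfl⟩
      · exact absurd e2.symm (V.at_ne _ _ _ _ o)
      · rw [V.at_hb] at e2
        obtain rfl := V.fib_p _ _ _ _ _ _ e2
        obtain ⟨j, -, rfl⟩ := (V.fib_eq _ _ _ _ _).1 e2.symm
        exact Or.inr ⟨j, by omega⟩
  · exact Or.inr ⟨j, by omega⟩

include B F in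
/-- Upper bound for the new metric. -/
theorem at_le (hyp : Hyp4 d κ) {w w' : Y} {s : ℕ} (h : d w w' + dep hb w ≤ s) :
    V.dW B dC κ (V.at0 w) (V.at0 w') ≤
      (c1 * ((2 * κ + 1) * 2 ^ (2 * s + 4 * κ + 3)) + 1) * d w w' := by
  have G := (V.dW_gr B F κ).1
  refine B.gr.induct w (P := fun n y => n + dep hb w ≤ s → V.dW B dC κ (V.at0 w) (V.at0 y) ≤
    (c1 * ((2 * κ + 1) * 2 ^ (2 * s + 4 * κ + 3)) + 1) * n) (fun _ => (G.met.self _).le) ?_ w' h
  intro n u v e1 e2 e3 ih hn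
  have := ih (by omega)
  have := G.met.tri (V.at0 w) (V.at0 u) (V.at0 v)
  rw [Nat.mul_succ]
  by_cases c : B.ι u = B.ι v
  · have := B.dep_le w u
    have := B.dep_le w v
    have f1 := V.dF_at B F hyp (B.ι_eq.1 c) (s := 2 * s + 1) (by omega)
    have f2 := (V.blow B F hyp).leF (V.at0 u) (V.at0 v) (by rw [V.bar_at, V.bar_at, c])
    rw [show 2 * s + 1 + 4 * κ + 2 = 2 * s + 4 * κ + 3 by omega] at f1
    omega
  · have := V.at_one B F (κ := κ) (w := u) (w' := v) (by omega) c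
    omega

include B in
theorem exists_low (w : Y) : ∃ z, dep hb z = 0 ∧ V.at0 z = V.at0 w ∧ d w z ≤ dep hb w := by
  rcases out_or hb w with o | ⟨g, p, n, rfl⟩
  · exact ⟨w, o.dep, rfl, by rw [B.gr.met.self]; omega⟩
  · have := B.vert g p (Nat.zero_le n)
    exact ⟨hb g p 0, B.dep_hb _ _ _, by rw [V.at_hb, V.at_hb],
      by rw [B.dep_hb, B.gr.met.symm]; omega⟩

include B F in
/-- Short paths between attaching points come from short paths of the old space. -/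
theorem le_of_at (κ : ℕ) {s t : ℕ}
    (pr : ∀ p (j : J p), dC p (b p) (j • b p) ≤ s → Wd (S p) t (io p j)) {w w' : Y}
    (h0 : dep hb w = 0) (h1 : dep hb w' = 0) (h : V.dW B dC κ (V.at0 w) (V.at0 w') ≤ s) :
    d w w' ≤ s * (12 * κ + 12 + t) + t := by
  have G := V.dW_gr B F κ
  have m := B.gr.met
  have fin : ∀ n, n ≤ s → ∀ y z z', dep hb z' = 0 → y = V.at0 z' → ((dep hb z = 0 ∧ y = V.at0 z) ∨
      ∃ p g c, y = V.fib p g c ∧ z = hb g p 0 ∧ dC p (b p) c ≤ n) → d z z' ≤ t := by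
    rintro n hn y z z' e1 rfl (⟨e2, e3⟩ | ⟨p, g, c, e2, rfl, e3⟩)
    · rcases out_or hb z' with o | ⟨g', p', n', rfl⟩
      · rw [V.at_inj _ _ o e3, m.self]
        omega
      rcases out_or hb z with o | ⟨g, p, n, rfl⟩
      · rw [V.at_inj _ _ o e3.symm, m.self]
        omega
      rw [B.dep_hb] at e1 e2
      rw [V.at_hb, V.at_hb] at e3
      obtain rfl := V.fib_p _ _ _ _ _ _ e3
      obtain ⟨j, rfl, e4⟩ := (V.fib_eq _ _ _ _ _).1 e3
      rw [e1, e2]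
      exact B.wd_le (pr _ j (by rw [e4, (F.gr _).met.self]; omega)) 0 g
    · rcases out_or hb z' with o | ⟨g', p', n', rfl⟩
      · exact absurd e2 (V.at_ne _ _ _ _ o)
      · rw [V.at_hb] at e2
        obtain rfl := V.fib_p _ _ _ _ _ _ e2
        obtain ⟨j, rfl, rfl⟩ := (V.fib_eq _ _ _ _ _).1 e2
        rw [B.dep_hb] at e1
        rw [e1]
        exact B.wd_le (pr _ j (e3.trans hn)) 0 g
  refine (G.1.induct (V.at0 w) (P := fun n y => n ≤ s → ∃ z,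
    d w z ≤ n * (12 * κ + 12 + t) ∧ ((dep hb z = 0 ∧ y = V.at0 z) ∨
      ∃ p g c, y = V.fib p g c ∧ z = hb g p 0 ∧ dC p (b p) c ≤ n))
    (fun _ => ⟨w, by rw [m.self]; omega, Or.inl ⟨h0, rfl⟩⟩) ?_ (V.at0 w') h).elim ?_
  rotate_right
  · rintro z ⟨z1, z2⟩
    have := fin _ h _ z w' h1 rfl z2
    have := m.tri w z w'
    have := Nat.mul_le_mul_right (12 * κ + 12 + t) h
    omega
  · intro n u v _ _ e ih hn
    obtain ⟨z, z1, z2⟩ := ih (by omega)
    rw [Nat.succ_mul n]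
    rcases (G.2 _ _).1 e.le with rfl | ⟨p, g, c, c', rfl, rfl, e3⟩ | ⟨x, x', e1, e2, rfl, rfl⟩
    · exact ⟨z, by omega, z2.imp id fun ⟨p, g, c, f1, f2, f3⟩ => ⟨p, g, c, f1, f2, by omega⟩⟩
    · obtain ⟨g', c₁, f1, rfl, f3⟩ : ∃ g' c₁, V.fib p g c = V.fib p g' c₁ ∧ z = hb g' p 0 ∧
          dC p (b p) c₁ ≤ n := by
        rcases z2 with ⟨f1, f2⟩ | ⟨p', g', c₁, f1, f2, f3⟩
        · rcases out_or hb z with o | ⟨g', p', n', rfl⟩
          · exact absurd f2.symm (V.at_ne _ _ _ _ o)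
          · rw [V.at_hb] at f2
            obtain rfl := V.fib_p _ _ _ _ _ _ f2
            rw [B.dep_hb] at f1
            exact ⟨g', _, f2, by rw [f1], ((F.gr p).met.self _).le.trans (Nat.zero_le _)⟩
        · obtain rfl := V.fib_p _ _ _ _ _ _ f1
          exact ⟨g', c₁, f1, f2, f3⟩
      obtain ⟨j, rfl, rfl⟩ := (V.fib_eq _ _ _ _ _).1 f1
      refine ⟨_, by omega, Or.inr ⟨p, g', j • c', V.fib_io _ _ _ _, rfl, ?_⟩⟩
      have := (F.gr p).met.tri (b p) (j • c) (j • c')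
      rw [F.iso] at this
      omega
    · obtain ⟨y, y1, y2, y3⟩ := V.exists_low B x
      obtain ⟨y', y4, y5, y6⟩ := V.exists_low B x'
      have := fin n (by omega) _ z y y1 y2.symm z2
      have := B.dep_lt e1 e2
      have := B.dep_lt (w := x') (w' := x) ((m.symm _ _).le.trans e1) e2.symm
      have := m.tri w z y'
      have := m.tri z y y'
      have := m.tri y x y'
      have := m.tri x x' y'
      have := m.symm x y
      exact ⟨y', by omega, Or.inl ⟨y4, y5.symm⟩⟩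

end Wp

end Pool.Agent.Lib.MP_a2eab4_al.Re
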