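import Pool.Agent.Lib.MP_a2eab4_al.ReHo
import Pool.Agent.Lib.MP_a2eab4_al.ReDf
import Pool.Agent.Lib.MP_a2eab4_al.ReW
import Pool.Agent.Lib.MP_a2eab4_al.RhI

set_option autoImplicit false

/-! The new level from the coned space and the fibres. -/

namespace Pool.Agent.Lib.MP_a2eab4_al.Re

open Pool.Agent.Lib.MP_429c3d_al Hyp Ng

/-- The quotient map from the stabiliser of a cone vertex to the group of the fibre. -/
structure Gl {G : Type} [Group G] (S : Set G) {kT kC DT c L f P N Kk S' R : ℕ}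
    (F : Fbr kT kC DT c L f P N Kk S' R) (c1 : ℕ) (φ : ℕ → ℕ) (N0 : ℕ) where
  π : Subgroup.closure S →* F.J
  ρ : F.J →* G
  surj : Function.Surjective π
  lip : ∀ a : Subgroup.closure S, a.1 ∈ S → F.dC F.b (π a • F.b) ≤ c1
  pr : ∀ s (l : F.J), s ≤ R → F.dC F.b (l • F.b) ≤ s → ∃ a, π a = l ∧ Wd S (φ s) a.1
  ker : ∀ a, π a = 1 → Wd S N0 a.1 → a = 1
  mem : ∀ l : F.J, l • F.o = F.o → ∃ a : Subgroup.closure S, a.1 = ρ l ∧ a.1 ∈ S ∧ π a = l
  comm : ∀ a b, Commute (ρ a) (ρ b)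
  sat : ∀ (g : G) (n : ℕ) a, n ≠ 0 → a • F.o = F.o → g ^ n = ρ a → ∃ a', a' • F.o = F.o ∧ g = ρ a'

/-- The points of depth zero. -/
def Hb.Low {G Z I : Type} [Group G] [MulAction G Z] {d : Z → Z → ℕ} {hb : G → I → ℕ → Z}
    {S : I → Set G} (_ : Hb G d hb S) : Type := {w // dep hb w = 0}

instance {G Z I : Type} [Group G] [MulAction G Z] {d : Z → Z → ℕ} {hb : G → I → ℕ → Z}
    {S : I → Set G} (B : Hb G d hb S) : MulAction G B.Low where
  smul g w := ⟨g • w.1, (B.dep_smul g w.1).trans w.2⟩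
  one_smul w := Subtype.ext (one_smul G w.1)
  mul_smul g g' w := Subtype.ext (mul_smul g g' w.1)

attribute [instance] Fill.grp Fill.act

theorem nw_exists (kB D0 kT kC DT c c1 : ℕ) {φ : ℕ → ℕ} (hφ : Monotone φ) (hc : 1 ≤ c) :
    ∃ (kZ D : ℕ) (ψ : ℕ → ℕ), Monotone ψ ∧ ∀ k, blowK kZ (blowK kT kC DT) D ≤ k → ∀ R : ℕ,
    ∃ N0 : ℕ, ∀ (G B Y I : Type) [Group G] [MulAction G B] [MulAction G Y] (dB : B → B → ℕ)
      (ι : Y → B) (v : I → B) (ξ : I → Y) (S : I → Set G) (L f P N Kk S' : ℕ)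
      (F : I → Fbr kT kC DT c L f P N Kk S' R) (gl : ∀ p, Gl (S p) (F p) c1 φ N0),
      Cb G dB ι v ξ S kB D0 → TF G → RG G → N2 G → PF G → AI G dB L f → PE1 G dB L f →
      PE2 G dB L P → ∃ (V : Nw G kZ (blowK kT kC DT) D k) (t : ∀ p, Fc V (F p)) (j : Y → V.Y),
        Dk V F t ψ ∧ (∀ (g : G) x, j (g • x) = g • j x) ∧
        (∀ x x', dB (ι x) (ι x') ≤ 1 →
          V.d (j x) (j x') ≤ 1 ∧ V.dW (V.Φ (j x)) (V.Φ (j x')) ≤ 1) ∧
        (∀ p a, (t p).io ((gl p).π a) = V.θ a) ∧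
        ∀ (K n : ℕ) (y e : G), Esc dB K n y e → Esc V.dU K n y e := by
  obtain ⟨κ, hκ⟩ : ∃ κ, κ = 144 * blowK kB 12 D0 + 436 := ⟨_, rfl⟩
  refine ⟨kBh κ, dWp κ c1, fun s => s * (12 * κ + 12 + φ s) + φ s, fun s s' h => ?_,
    fun k hk R => ⟨fillN (blowK kB 12 D0) R, ?_⟩⟩
  · exact Nat.add_le_add (Nat.mul_le_mul h (Nat.add_le_add_left (hφ h) _)) (hφ h)
  intro G B Y I _ _ _ dB ι v ξ S L f P N Kk S' F gl C tf rg n2 pf ai pe1 pe2
  obtain ⟨Z, _, d, hb, j, bar, H, hyp, X⟩ := C.exists_hb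
  obtain ⟨T⟩ := H.dehn hyp (K := fun p => (gl p).π.ker.map (Subgroup.closure (S p)).subtype) R
    (fun p => Subgroup.map_subtype_le _) (by
      rintro p g hg _ ⟨a, ha, rfl⟩
      exact ⟨(⟨g, hg⟩ : Subgroup.closure (S p))⁻¹ * a * ⟨g, hg⟩,
        (inferInstance : (gl p).π.ker.Normal).conj_mem' a ha _, rfl⟩) (by
      rintro p _ ⟨a, ha, rfl⟩ h
      rw [(gl p).ker a ha h]
      rfl)
  rw [← hκ] at T
  have ker : ∀ p (a : Subgroup.closure (S p)), (gl p).π a = 1 ↔ T.θ a = 1 := fun p a =>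
    ⟨fun h => (T.ker p a a.2).2 ⟨a, h, rfl⟩, fun h => by
      obtain ⟨a', e1, e2⟩ := (T.ker p a a.2).1 h
      exact (Subtype.ext e2 : a' = a) ▸ e1⟩
  let io : ∀ p, (F p).J →* T.Γ := fun p => (gl p).π.liftOfSurjective (gl p).surj
    ⟨T.θ.comp (Subgroup.closure (S p)).subtype, fun a h => (ker p a).1 h⟩
  have hio : ∀ p a, io p ((gl p).π a) = T.θ a := fun p a =>
    MonoidHom.liftOfRightInverse_comp_apply _ _ _ _ _
  have inj : ∀ p, Function.Injective (io p) := fun p => (injective_iff_map_eq_one _).2 fun l h => by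
    obtain ⟨a, rfl⟩ := (gl p).surj l
    exact (ker p a).2 (hio p a ▸ h)
  have H2 := T.hbV
  have E : Fb (fun p => T.θ '' S p) io (fun p => (F p).dC) (fun p => (F p).b) (blowK kT kC DT)
      c1 := by
    refine ⟨inj, fun p γ => ?_, fun p => (F p).blow.grW, fun p => (F p).blow.hypW,
      fun p => (F p).bact.iW, ?_⟩
    · rw [← MonoidHom.map_closure]
      refine ⟨fun ⟨a, e1, e2⟩ => ⟨_, (hio p ⟨a, e1⟩).trans e2⟩, ?_⟩
      rintro ⟨l, rfl⟩
      obtain ⟨a, rfl⟩ := (gl p).surj l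
      exact ⟨a, a.2, (hio p a).symm⟩
    · rintro p l ⟨a, e1, e2⟩
      rw [inj p (e2.symm.trans (hio p ⟨a, Subgroup.subset_closure e1⟩).symm)]
      exact (gl p).lip _ e1
  obtain ⟨W⟩ := H2.exists_wp io fun p => (F p).b
  have bl := W.blow H2 E T.hyp
  have cl : ∀ w w', Cl hb S w w' → H2.ι (T.Φ w) = H2.ι (T.Φ w') := by
    rintro w w' (rfl | ⟨g, a, p, n, n', e, rfl, rfl⟩)
    · rfl
    · rw [T.Φ_hb, T.Φ_hb, map_mul]
      refine H2.ι_eq.2 (H2.cl_hb.2 ⟨T.θ a, n', ?_, rfl⟩)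
      rw [← MonoidHom.map_closure]
      exact ⟨a, e, rfl⟩
  let V : Nw G (kBh κ) (blowK kT kC DT) (dWp κ c1) k :=
    { Γ := T.Γ, W := W.W, B := H2.Bh, Y := H.Low, U := B
      dW := W.dW H2 (fun p => (F p).dC) κ, dB := H2.dB κ, dF := W.dF fun p => (F p).dC
      bar := W.bar H2 E, d := fun y y' => d y.1 y'.1, dU := dB, π := fun y => bar y.1
      Φ := fun y => W.at0 (T.Φ y.1), θ := T.θ, blow := bl, bact := W.bact H2 E κ
      hyp := bl.hypW.mono hk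
      ne := C.ne.map fun x => W.at0 (T.Φ (j x))
      met := ⟨fun _ => H.gr.met.self _, fun _ _ => H.gr.met.symm _ _,
        fun _ _ _ => H.gr.met.tri _ _ _⟩
      iso := fun g _ _ => H.iso g _ _
      metU := C.gr.met, isoU := C.iso, surj := T.surj
      π_smul := fun g y => X.bar_smul g y.1
      Φ_smul := fun g y => (congrArg W.at0 (T.Φ_smul g y.1)).trans (W.at_smul _ _).symm
      π_le := fun _ _ => X.le _ _ }
  have dp : ∀ p (w : (F p).C) z, W.at0 z = W.fib p 1 w → (F p).dp w ≤ c := by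
    intro p w z e
    rcases out_or T.hV z with o | ⟨g, p', n, rfl⟩
    · exact absurd e (W.at_ne _ _ _ _ o)
    · rw [W.at_hb] at e
      obtain rfl := W.fib_p _ _ _ _ _ _ e
      obtain ⟨l, -, rfl⟩ := (W.fib_eq _ _ _ _ _).1 e
      rw [(F _).dp_smul, (F _).dp_b]
      omega
  let t : ∀ p, Fc V (F p) := fun p =>
    { v := H2.ι (T.hV 1 p 0), io := io p, ι := W.fib p 1, ρ := (gl p).ρ
      y := ⟨hb 1 p 0, H.dep_hb _ _ _⟩
      inj := inj p
      ι_smul := fun l w => by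
        rw [← W.fib_io, one_mul]
        exact ((W.fib_smul _ _ _ _).trans (by rw [mul_one])).symm
      bar_ι := fun w => W.bar_fib H2 E _ _ _
      onto := fun x h => W.of_bar_hb H2 E h
      dF_ι := fun w w' => W.dF_fib E _ _ _ _
      stab := fun γ h => by
        have e : H2.ι (γ • T.hV 1 p 0) = H2.ι (T.hV 1 p 0) := (H2.ι_smul _ _).trans h
        obtain ⟨a, n, e1, e2⟩ := H2.cl_hb.1 (H2.ι_eq.1 e.symm)
        rw [H2.smul, mul_one, one_mul] at e2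
        obtain ⟨l, e3⟩ := (E.rng p a).1 e1
        exact ⟨l, (H2.inj _ _ _ _ _ _ e2).1.trans e3.symm⟩
      att := fun w x h1 h2 => by
        rcases ((W.dW_gr H2 E κ).2 _ _).1 h1 with rfl | ⟨p', g, a, a', e1, rfl, -⟩ |
          ⟨z, z', -, -, e, -⟩
        · exact absurd (W.bar_fib H2 E _ _ _) h2
        · refine absurd ?_ h2
          have := congrArg (W.bar H2 E) e1
          rw [W.bar_fib, W.bar_fib] at this
          exact (W.bar_fib H2 E _ _ _).trans this.symm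
        · exact dp p w z e.symm
      pl := fun y w h => dp p w _ h
      Φ_y := by
        show W.at0 (T.Φ (hb 1 p 0)) = _
        rw [T.Φ_hb, map_one, W.at_hb]
      θρ := fun l h => by
        obtain ⟨a, e1, -, e2⟩ := (gl p).mem l h
        rw [← e1, ← e2]
        exact (hio p a).symm
      ρ_short := fun l h => by
        obtain ⟨a, e1, e2, -⟩ := (gl p).mem l h
        show d (hb 1 p 0) ((gl p).ρ l • hb 1 p 0) ≤ c
        rw [H.smul, mul_one, ← e1, ← one_mul a.1]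
        exact (H.hor 1 p 0 a (Wd.of e2)).trans hc
      ρ_comm := (gl p).comm
      sat := (gl p).sat }
  refine ⟨V, t, fun x => ⟨j x, (X.out x).dep⟩, ⟨fun x => ?_, fun p p' γ h => ?_,
    fun s y y' hs h => ?_, fun n y h1 h2 => T.inj n y.1 h1 (y.2.le.trans (Nat.zero_le _)) h2,
    fun y y' => ?_, tf, rg, n2, pf, ai, pe1, pe2⟩, fun g x => Subtype.ext (X.j_smul g x),
    fun x x' h => ⟨X.one _ _ h, ?_⟩, hio, fun _ _ _ _ h => h⟩
  · rcases W.cases x with ⟨w, o, rfl⟩ | ⟨p, γ, w, rfl⟩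
    · obtain ⟨z, rfl⟩ := T.onto w
      exact Or.inr ⟨⟨⟨z, ((T.out z).1 o).dep⟩, rfl⟩, fun x' h =>
        W.of_bar_out H2 E o (h.trans (W.bar_at H2 E _))⟩
    · refine Or.inl ⟨p, γ, (W.bar_fib H2 E _ _ _).trans ?_⟩
      exact (congrArg H2.ι (by rw [H2.smul, mul_one])).trans (H2.ι_smul γ (T.hV 1 p 0))
  · have e : H2.ι (γ • T.hV 1 p 0) = H2.ι (T.hV 1 p' 0) := (H2.ι_smul _ _).trans h
    obtain ⟨a, n, -, e2⟩ := H2.cl_hb.1 (H2.ι_eq.1 e.symm)
    rw [H2.smul] at e2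
    exact (H2.inj _ _ _ _ _ _ e2).2.1
  · have e := W.le_of_at H2 E κ (t := φ s) (fun p l h => by
      obtain ⟨a, rfl, e⟩ := (gl p).pr s l hs h
      rw [hio]
      exact e.map T.θ fun a h => Set.mem_image_of_mem _ h)
      ((T.dep_eq _).trans y.2) ((T.dep_eq _).trans y'.2) h
    obtain ⟨g, e1, e2⟩ := T.lift y.1 y'.1
    exact ⟨g, e1, e2.trans_le e⟩
  · show H2.dB κ (W.bar H2 E (W.at0 _)) (W.bar H2 E (W.at0 _)) ≤ c * dB (bar y.1) (bar y'.1)
    rw [W.bar_at, W.bar_at]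
    refine le_trans ?_ (Nat.le_mul_of_pos_left _ hc)
    have m := (H2.dB_gr κ).1.met
    refine C.gr.induct (bar y.1) (P := fun n u => ∀ w, bar w = u →
      H2.dB κ (H2.ι (T.Φ y.1)) (H2.ι (T.Φ w)) ≤ n) (fun w h => ?_) ?_ _ y'.1 rfl
    · rw [cl _ _ (X.cl _ _ h), m.self]
    · rintro n u _ - - h ih w rfl
      obtain ⟨z, z', e1, e2, e3⟩ := X.lift _ _ h
      have := ih z e1
      have := (H2.dB_le κ _ _).trans ((T.le z z').trans e3)
      have := m.tri (H2.ι (T.Φ y.1)) (H2.ι (T.Φ z)) (H2.ι (T.Φ z'))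
      rw [← cl _ _ (X.cl _ _ e2)]
      omega
  · show W.dW H2 (fun p => (F p).dC) κ (W.at0 (T.Φ (j x))) (W.at0 (T.Φ (j x'))) ≤ 1
    by_cases e : H2.ι (T.Φ (j x)) = H2.ι (T.Φ (j x'))
    · rw [((T.out _).2 (X.out x)).cl (H2.ι_eq.1 e), bl.grW.met.self]
      omega
    · exact W.at_one H2 E (((T.le _ _).trans (X.one _ _ h)).trans (by omega)) e

end Pool.Agent.Lib.MP_a2eab4_al.Re
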