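import Pool.Agent.Lib.MP_a2eab4_al.TwL
import Pool.Agent.Lib.MP_a2eab4_al.ReI

set_option autoImplicit false

/-! The tower side of the word block. -/

namespace Pool.Agent.Lib.MP_a2eab4_al.Re

open Pool.Agent.Lib.MP_429c3d_al Hyp Ng

theorem Wd.trans {J : Type} [Group J] {S S' : Set J} {c : ℕ} (h : ∀ a ∈ S, Wd S' c a) {n : ℕ}
    {g : J} (e : Wd S n g) : Wd S' (c * n) g := by
  refine e.induct (P := fun n g => Wd S' (c * n) g) (fun _ => Wd.one _) fun n a g ha _ ih => ?_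
  exact ((h a ha).mul ih).mono (by rw [Nat.mul_succ]; omega)

namespace Pr

variable {G : Type} [Group G] {E D : Subgroup G} {y t : G}

/-- The abelian group of a top pair. -/
@[reducible]
def cg (h : Pr E D y t) : CommGroup E :=
  { (inferInstance : Group E) with mul_comm := fun a b => Subtype.ext (h.ab a a.2 b b.2) }

/-- The tower of height `m` of a top pair. -/
abbrev Tw (h : Pr E D y t) (m : ℕ) : Type 1 :=
  letI := h.cg
  Tow (E ⧸ D.subgroupOf E) (QuotientGroup.mk ⟨y, h.mem⟩) m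

theorem exists_tw (h : Pr E D y t) (m : ℕ) : Nonempty (h.Tw m) := by
  let := h.cg
  refine exists_tow (fun g n hn e => ?_) (fun e => h.nm ?_) m
  · obtain ⟨a, rfl⟩ := QuotientGroup.mk_surjective g
    rw [← QuotientGroup.mk_pow, QuotientGroup.eq_one_iff] at e
    exact (QuotientGroup.eq_one_iff a).2 (h.satD a n hn a.2 e)
  · exact (QuotientGroup.eq_one_iff (N := D.subgroupOf E) (⟨y, h.mem⟩ : E)).1 e

theorem tf_sub (E : Subgroup G) (tf : TF G) : TF E := fun g n hn e =>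
  Subtype.ext (tf g n hn (congrArg Subtype.val e))

end Pr

end Pool.Agent.Lib.MP_a2eab4_al.Re

namespace Pool.Agent.Lib.MP_429c3d_al.Ng.Tow

open Hyp Pool.Agent.Lib.MP_a2eab4_al.Re

variable {A : Type} [CommGroup A] {D : Subgroup A} {y : A} {r : ℕ}
  (W : Tow (A ⧸ D) (QuotientGroup.mk y) r)

/-- The syllables of the word block. -/
abbrev SY : Set W.J := Sy (Set.range W.jo) (W.c r)

theorem cenW (δ : A) (h : δ ∈ D) (l : W.J) : Commute (W.jo δ) l := W.central h l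

theorem genW (hr : r ≠ 0) : Subgroup.closure W.SY = ⊤ := by
  rw [eq_top_iff, ← W.genJ hr]
  refine Subgroup.closure_mono ?_
  rintro _ (h | rfl)
  exacts [Or.inl h, Or.inr ⟨1, (zpow_one _).symm⟩]

theorem lfW {N : ℕ} (hN : N ≤ r) : LFD (Set.range W.jo) (W.jo '' {δ | δ ∈ D}) (W.c r) N := by
  rintro l j h1 h2 h3 ⟨a, ha⟩
  refine W.lfJ le_rfl l j (by omega) h2 (fun p hp => ?_) (ha ▸ W.jo_smul a)
  obtain ⟨e1, ⟨b, e2⟩, e3⟩ := h3 p hp
  exact ⟨e1, fun e => e3 ⟨b, W.π_jo_eq_one.1 (e2 ▸ e), e2⟩, e2 ▸ W.jo_smul b⟩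

theorem lawW : Commute (W.jo y) (cs (W.jo y) (W.c r) r) := W.cs_commute y

theorem sy_syl (hr : r ≠ 0) {a : W.J} (h : a ∈ W.SY) : a ∈ Syl W.J W.o (W.P r) := by
  rcases h with ⟨b, rfl⟩ | ⟨i, rfl⟩
  · exact Or.inl (W.jo_smul b)
  · exact Or.inr ((W.stabJ_P hr _).2 ⟨i, 1, one_mem _, by rw [map_one, mul_one]⟩)

theorem syl_sy (hr : r ≠ 0) {a : W.J} (h : a ∈ Syl W.J W.o (W.P r)) : Wd W.SY 2 a := by
  rcases (W.syl_iff hr a).1 h with ⟨b, rfl⟩ | ⟨i, δ, -, rfl⟩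
  · exact (Wd.of (S := W.SY) (Or.inl ⟨b, rfl⟩)).mono (by omega)
  · exact (Wd.of (S := W.SY) (Or.inr ⟨i, rfl⟩)).mul (Wd.of (Or.inl ⟨δ, rfl⟩))

theorem wd_syl (hr : r ≠ 0) {n : ℕ} {g : W.J} (h : Wd W.SY n g) :
    Wd (Syl W.J W.o (W.P r)) n g :=
  h.map (MonoidHom.id _) fun _ => W.sy_syl hr

theorem wd_sy (hr : r ≠ 0) {n : ℕ} {g : W.J} (h : Wd (Syl W.J W.o (W.P r)) n g) :
    Wd W.SY (2 * n) g := Wd.trans (fun _ => W.syl_sy hr) h

/-- The length of the words read along paths of length `s`. -/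
def φW (s : ℕ) : ℕ := 2 * (s * (3 * (2 ^ (s + 1) + 1)) + 1)

theorem φW_mono : Monotone φW := fun s s' h =>
  Nat.mul_le_mul_left _ (Nat.succ_le_succ (Nat.mul_le_mul h (Nat.mul_le_mul_left _
    (Nat.succ_le_succ (Nat.pow_le_pow_right (by omega) (by omega))))))

theorem lipW (hr : r ≠ 0) (H : HG W.J W.d W.ht) {a : W.J} (h : a ∈ W.SY) :
    dC H ((W.low hr).base H) (a • (W.low hr).base H) ≤ 2 :=
  (W.low hr).base_syl H (W.sy_syl hr h)

theorem prW (hr : r ≠ 0) (H : HG W.J W.d W.ht) {s : ℕ} (hs : s < r) {l : W.J}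
    (h : dC H ((W.low hr).base H) (l • (W.low hr).base H) ≤ s) : Wd W.SY (φW s) l :=
  W.wd_sy hr ((W.low hr).word_of_short H hs h)

end Pool.Agent.Lib.MP_429c3d_al.Ng.Tow
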