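import Pool.Agent.Lib.MP_a2eab4_al.TwF
import Pool.Agent.Lib.MP_a2eab4_al.TwW
import Pool.Agent.Lib.MP_a2eab4_al.ReGlue
import Pool.Agent.Lib.MP_a2eab4_al.ReJ

set_option autoImplicit false

/-! The fibre of a top pair exists. -/

namespace Pool.Agent.Lib.MP_a2eab4_al.Re

open Pool.Agent.Lib.MP_429c3d_al Hyp Ng

theorem pg_exists : ∃ (kT kC DT c : ℕ) (φ : ℕ → ℕ), 1 ≤ c ∧ Monotone φ ∧ ∀ L : ℕ, ∃ f0 P0 : ℕ,
    ∀ f P, f0 ≤ f → P0 ≤ P → ∀ S : ℕ, ∃ K0 : ℕ, ∀ Kk, K0 ≤ Kk → ∀ R N : ℕ, ∃ m : ℕ,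
    ∀ (G : Type) [Group G] (E D : Subgroup G) (y t : G), Pr E D y t → TF G →
      Nonempty (Pg E D y t kT kC DT c φ L f P m Kk S R N) := by
  obtain ⟨k, c0, h0⟩ := Tow.exists_mi
  refine ⟨k, 2, 20 * k + 21, c0 + 2, Tow.φW, by omega, Tow.φW_mono, fun L => ?_⟩
  obtain ⟨f0, P0, -, h0⟩ := h0 L
  refine ⟨f0, P0, fun f P h2 h3 S => ⟨2 * S + 8, fun Kk h5 R N => ⟨R + N + 1, ?_⟩⟩⟩
  intro G _ E D y t h tf
  have hm : R + N + 1 ≠ 0 := by omega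
  let := h.cg
  obtain ⟨W⟩ := h.exists_tw (R + N + 1)
  obtain ⟨π, p1, p2, -, p4, p5, p6, p7⟩ := exists_pi E D y t h W.jo (W.c _) W.jo_inj
    (fun d hd => W.cenW d hd) (W.genW hm)
  refine ⟨{
    F := W.fb (Pr.tf_sub E tf) hm (h0 _ _ _ W) le_rfl h2 h3 le_rfl h5 (by omega)
    π := π
    ρ := E.subtype.comp W.χ
    surj := p1
    ker := p4 N (W.lfW (by omega))
    law := p7 _ W.lawW
    lip := fun a ha => (W.lipW hm _ (p6 a ha)).trans (by omega)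
    pr := fun l s hs e => p5 _ l (W.prW hm _ (by omega) e)
    ρ_o := fun l hl => ⟨(W.χ l).2, ?_⟩
    o_ρ := fun a ha => ⟨W.jo ⟨a, ha⟩, W.jo_smul _, rfl⟩
    ρ_comm := fun a b => h.ab _ (W.χ a).2 _ (W.χ b).2 }⟩
  obtain ⟨a, rfl⟩ := (W.stabJ_o l).1 hl
  exact ⟨⟨a, Subgroup.subset_closure (Or.inl a.2)⟩, p2 a _, rfl⟩

end Pool.Agent.Lib.MP_a2eab4_al.Re
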