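import Pool.Agent.Lib.MP_a2eab4_al.RhI

set_option autoImplicit false

/-! Pairs inside a fibre. -/

namespace Pool.Agent.Lib.MP_a2eab4_al.Re

open Pool.Agent.Lib.MP_429c3d_al Pool.Agent.Lib.MP_429c3d_al.Hyp Pool.Agent.Lib.MP_429c3d_al.Ng

variable {G : Type} [Group G] {kB kF D k kT kC DT c L f P N Kk S R : ℕ} {V : Nw G kB kF D k}
  {F : Fbr kT kC DT c L f P N Kk S R} (t : Fc V F)

theorem Fc.smul_v (j : F.J) : t.io j • t.v = t.v := by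
  conv_lhs => rw [← t.bar_ι F.b, ← V.bact.comm, ← t.ι_smul, t.bar_ι]

/-- Displacements in the tower are bounded by displacements in the new level. -/
theorem Fc.dis (x : V.W) : ∃ z : F.Z, ∀ j : F.J,
    F.dZ z (j • z) ≤ (D + 1) * (V.dW x (t.io j • x) + 1) := by
  obtain ⟨p, hp⟩ := V.blow.exists_prj t.v x
  obtain ⟨w, rfl⟩ := t.onto p hp.1
  refine ⟨F.bar w, fun j => ?_⟩
  have e1 := V.bact.prj (t.io j) hp
  rw [t.smul_v, ← t.ι_smul] at e1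
  have e2 := V.blow.prj_lip hp e1
  have e3 := F.blow.bar_le w (j • w)
  rw [t.dF_ι] at e2
  rw [F.bact.comm] at e3
  omega

theorem Fc.big {S1 S2 : ℕ} (h : (D + 1) * (S2 + 1) ≤ S1) {y e : F.J} (hb : Big F.dZ S1 y e) :
    Big V.dW S2 (t.io y) (t.io e) := fun x => by
  obtain ⟨z, hz⟩ := t.dis x
  have key : ∀ j : F.J, S1 ≤ F.dZ z (j • z) → S2 ≤ V.dW x (t.io j • x) := fun j hj => by
    by_contra hc
    have := hz j
    have := Nat.mul_le_mul_left (D + 1) (show V.dW x (t.io j • x) + 1 ≤ S2 by omega)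
    rw [Nat.mul_add] at h
    omega
  exact (hb z).imp (key y) (key e)

/-- Conjugate pairs in a fibre terminate or escape. -/
theorem Fc.gtW {S2 : ℕ} (h : (D + 1) * (S2 + 1) ≤ S) {y e : F.J} (hc : IsConj y e) :
    Done N (t.io y) (t.io e) ∨ Esc V.dW Kk S2 (t.io y) (t.io e) := by
  by_cases h0 : Commute y e
  · exact Or.inl ⟨0, Nat.zero_le _, h0.map _⟩
  refine (F.gt y e hc h0).imp (fun ⟨j, h1, h2⟩ => ⟨j, h1, ?_⟩) fun ⟨j, h1, h2⟩ => ⟨j, h1, ?_⟩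
  · exact map_cs t.io y e j ▸ h2.map _
  · exact map_cs t.io y e j ▸ t.big h h2

/-- A fibre with a smaller escape scale. -/
def Fbr.mono (F : Fbr kT kC DT c L f P N Kk S R) {S' : ℕ} (h : S' ≤ S) :
    Fbr kT kC DT c L f P N Kk S' R :=
  { F with
    gt := fun y e h1 h2 => (F.gt y e h1 h2).imp_right fun ⟨j, a, b⟩ =>
      ⟨j, a, fun x => (b x).imp h.trans h.trans⟩ }

/-- The chart of the fibre with a smaller escape scale. -/
def Fc.mono {S' : ℕ} (h : S' ≤ S) : Fc V (F.mono h) := { t with }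

theorem Dk.mono {I : Type} {F : I → Fbr kT kC DT c L f P N Kk S R} {t : ∀ p, Fc V (F p)}
    {ψ : ℕ → ℕ} (H : Dk V F t ψ) {S' : ℕ} (h : S' ≤ S) :
    Dk V (fun p => (F p).mono h) (fun p => (t p).mono h) ψ := { H with }

/-- Pairs that fix a cone point terminate or escape. -/
theorem Fc.gtV {S2 : ℕ} (h : (D + 1) * (S2 + 1) ≤ S) (γ y e : V.Γ) (hy : y • γ • t.v = γ • t.v)
    (he : e • γ • t.v = γ • t.v) : Done (N + 1) y e ∨ Esc V.dW (Kk + 1) S2 y e := by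
  have key : ∀ a : V.Γ, a • γ • t.v = γ • t.v → ∃ j, a = γ * t.io j * γ⁻¹ := fun a ha => by
    obtain ⟨j, hj⟩ := t.stab (γ⁻¹ * a * γ) (by rw [mul_smul, mul_smul, ha, inv_smul_smul])
    exact ⟨j, by rw [← hj]; group⟩
  obtain ⟨y, rfl⟩ := key y hy
  obtain ⟨e, rfl⟩ := key e he
  have c : ∀ j, cs (γ * t.io y * γ⁻¹) (γ * t.io e * γ⁻¹) (j + 1) =
      γ * cs (t.io y) (t.io (e * y * e⁻¹)) j * γ⁻¹ := fun j => by
    rw [← conj_cs, cs_succ', map_mul, map_mul, map_inv]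
  refine (t.gtW h (y := y) (e := e * y * e⁻¹) (isConj_iff.2 ⟨e, rfl⟩)).imp
    (fun ⟨j, h1, h2⟩ => ⟨j + 1, by omega, c j ▸ h2.conj γ⟩) fun ⟨j, h1, h2⟩ =>
      ⟨j + 1, by omega, fun x => ?_⟩
  have := h2 (γ⁻¹ • x)
  rw [← V.bact.iW γ, ← V.bact.iW γ (γ⁻¹ • x), smul_inv_smul] at this
  simpa only [c, mul_smul] using this

theorem deck_of (H : DeckMain) (kB kF D k kT kC DT c : ℕ) (ψ : ℕ → ℕ) (hψ : Monotone ψ) :
    ∃ L : ℕ, ∀ f P : ℕ, P ≠ 0 → ∃ A : ℕ, ∀ S2 : ℕ, ∃ S : ℕ, ∀ Kk S3 : ℕ, ∃ R0 : ℕ,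
    ∀ (G : Type) [Group G] (N R : ℕ) (I : Type) (V : Nw G kB kF D k)
      (F : I → Fbr kT kC DT c L f P N Kk S R) (t : ∀ p, Fc V (F p)), R0 ≤ R → Dk V F t ψ →
      DOut V A P N Kk S S2 S3 ∧ ∀ p (γ y e : V.Γ), y • γ • (t p).v = γ • (t p).v →
        e • γ • (t p).v = γ • (t p).v → Done (N + 1) y e ∨ Esc V.dW (Kk + 1) S2 y e := by
  obtain ⟨L, H⟩ := H kB kF D k kT kC DT c ψ hψ
  refine ⟨L, fun f P hP => (H f P hP).imp fun A H S2 => ?_⟩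
  obtain ⟨S, H⟩ := H S2
  refine ⟨S + (D + 1) * (S2 + 1), fun Kk S3 => (H Kk S3).imp fun R0 H G _ N R I V F t hR K => ?_⟩
  have O := H G N R I V _ _ hR (K.mono (Nat.le_add_right _ _))
  exact ⟨{ O with
    gt := fun M L' h1 h2 h3 => O.gt M L' h1 h2 fun y s hs hc => (h3 y s hs hc).imp_right
      fun ⟨j, a, b⟩ => ⟨j, a, fun x => (b x).imp (Nat.le_add_right _ _).trans
        (Nat.le_add_right _ _).trans⟩ }, fun p => (t p).gtV (Nat.le_add_left _ _)⟩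

end Pool.Agent.Lib.MP_a2eab4_al.Re
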