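import Pool.Agent.Lib.MP_a2eab4_al.RtF
import Pool.Agent.Lib.MP_a2eab4_al.RcG

set_option autoImplicit false
set_option linter.unusedSectionVars false

/-! The family of trees in the form that the cone block uses. -/

namespace Pool.Agent.Lib.MP_a2eab4_al.Rx

open Pool.Agent.Lib.MP_429c3d_al Hyp Ng Sum
open Re (Wd LFD Pr)

variable {G : Type} [Group G] {y t : G}

theorem Png.sy {Y : Type} [MulAction G Y] {d : Y → Y → ℕ} {H : Bool → Subgroup G} {ξ : Bool → Y}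
    {k c l0 l1 : ℕ} (P : Png d H ξ k c l0 l1) {f : G} (hf : f ∈ H false ⊔ H true) :
    Sy H (d (ξ false) (f • ξ false) + 1) f := by
  obtain ⟨V, _, ⟨T⟩⟩ := P.tree
  have e := (P.sub _).le_dist T ⟨1, false, rfl, rfl⟩ ⟨⟨f, hf⟩, false, rfl, rfl⟩
  obtain ⟨l, h1, h2, h3⟩ := T.sy_of_le ⟨f, hf⟩ false false
  simp only [one_smul] at e
  refine ⟨l.map Subtype.val, by rw [List.length_map]; exact h1.trans (Nat.succ_le_succ e),
    fun a ha => ?_, (Subgroup.val_list_prod _ l).symm.trans (congrArg Subtype.val h3)⟩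
  obtain ⟨a, h4, rfl⟩ := List.mem_map.1 ha
  exact h2 a h4

theorem NF.lfd {H : Bool → Subgroup G} (nf : NF H) {D : Set G} {e : G} (he : e ∈ H true)
    (h1 : ∀ i : ℤ, i ≠ 0 → e ^ i ∉ H false) (h2 : ∀ a, a ∈ H false → a ∈ H true → a ∈ D) (N : ℕ) :
    LFD (H false : Set G) D e N := by
  let Q : ℕ → G → Bool → Prop := fun n g b => ∃ w β, w 0 = 1 ∧ Alt H n w β ∧ w n = g ∧ β n = b
  have st : ∀ n g b a, Q n g b → a ∈ H b → a ∉ H (!b) → Q (n + 1) (g * a) (!b) := by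
    rintro n _ _ a ⟨w, β, h0, h, rfl, rfl⟩ ha ha'
    exact ⟨_, _, by simpa using h0, h.snoc ha ha', by simp, by simp⟩
  have no : ∀ n g b, Q (n + 1) g b → ¬ ∀ b, g ∈ H b := by
    rintro n _ _ ⟨w, β, h0, h, rfl, -⟩
    simpa [h0] using nf n w β h
  have key : ∀ l : List (ℤ × G), (∀ p ∈ l, p.1 ≠ 0 ∧ p.2 ∈ H false ∧ p.2 ∉ D) →
      ∃ n, Q n (wd e l) true := by
    intro l
    induction l using List.reverseRecOn with
    | nil => exact fun _ => ⟨0, fun _ => 1, fun _ => true, rfl, fun i hi => by omega, rfl, rfl⟩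
    | append_singleton l p ih =>
      intro h
      obtain ⟨n, hn⟩ := ih fun q hq => h q (by simp [hq])
      obtain ⟨a1, a2, a3⟩ := h p (by simp)
      rw [wd_concat, ← mul_assoc]
      exact ⟨_, st _ _ _ _ (st _ _ _ _ hn (zpow_mem he _) (h1 _ a1)) a2 fun e => a3 (h2 _ a2 e)⟩
  intro l j _ hj hl h
  obtain ⟨n, hn⟩ := key l hl
  have q := st _ _ _ _ hn (zpow_mem he j) (h1 j hj)
  by_cases c : wd e l * e ^ j ∈ H true
  · exact no _ _ _ q (all_of (b := false) h c)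
  · exact no _ _ _ (st _ _ _ _ q (inv_mem h) fun e => c (inv_mem_iff.1 e)) fun b => by simp

theorem mem_cen {δ : G} : δ ∈ Subgroup.centralizer {y, t} ↔ Cen y t δ := by
  simp only [Subgroup.mem_centralizer_iff, Set.mem_insert_iff, Set.mem_singleton_iff,
    forall_eq_or_imp, forall_eq]
  exact ⟨fun h => ⟨h.1.symm, h.2.symm⟩, fun h => ⟨h.1.symm, h.2.symm⟩⟩

theorem pr_of (rg : RG G) (ab : AB y t) (nc : ∀ j, ¬ Commute y (cs y t j)) (nf : NF (HH y t)) :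
    Pr (HH y t false) (Subgroup.centralizer {y, t}) y t := by
  refine ⟨fun _ h _ h' => HH_comm rg ab h h', y_mem, fun _ h => cen_mem (mem_cen.1 h) _,
    fun _ h => (mem_cen.1 h).2, fun g j hj h => root_false rg ab (n := j.natAbs) (by omega) ?_,
    fun g j hj _ h => mem_cen.2 ⟨rg _ _ j hj (mem_cen.1 h).1, rg _ _ j hj (mem_cen.1 h).2⟩,
    fun h => nc 0 (mem_cen.1 h).2, nf.lfd eps_mem (fun i hi h => ?_) fun a h h' =>
      mem_cen.2 (cen_of_both rg (nc 1) ab (all_of (b := false) h h'))⟩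
  · rw [← zpow_natCast]
    rcases Int.natAbs_eq j with e | e
    · rwa [← e]
    · rwa [e, zpow_neg, inv_mem_iff] at h
  · exact nc 1 (rg.zpow hi (HH_comm rg ab h y_mem)).symm

theorem wd_of_mem {a : G} (h : a ∈ HH y t false ∨ a ∈ HH y t true) :
    Wd (Re.Sy (HH y t false : Set G) (t * y * t⁻¹)) 2 a := by
  rcases h with h | h
  · exact Wd.mono (n := 1) (Wd.of (Or.inl h)) (by omega)
  · obtain ⟨δ, i, h1, rfl⟩ := mem_true.1 h
    exact Wd.mul (n := 1) (m := 1) (Wd.of (Or.inl (cen_mem h1 false))) (Wd.of (Or.inr ⟨i, rfl⟩))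

theorem wd_of_sy {n : ℕ} {f : G} (h : Sy (HH y t) n f) :
    Wd (Re.Sy (HH y t false : Set G) (t * y * t⁻¹)) (2 * n) f :=
  Wd.induct (S := {a | a ∈ HH y t false ∨ a ∈ HH y t true})
    (P := fun n f => Wd (Re.Sy (HH y t false : Set G) (t * y * t⁻¹)) (2 * n) f) (fun _ => Wd.one _)
    (fun _ _ _ ha _ ih => ((wd_of_mem ha).mul ih).mono (by omega)) h

theorem closure_sy : Subgroup.closure (Re.Sy (HH y t false : Set G) (t * y * t⁻¹)) = FF y t := by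
  refine le_antisymm ((Subgroup.closure_le _).2 ?_)
    (sup_le (fun a h => Subgroup.subset_closure (Or.inl h)) fun a h => ?_)
  · rintro a (h | ⟨i, rfl⟩)
    exacts [HH_le false h, HH_le true (zpow_mem eps_mem i)]
  · obtain ⟨δ, i, h1, rfl⟩ := mem_true.1 h
    exact mul_mem (Subgroup.subset_closure (Or.inl (cen_mem h1 false)))
      (Subgroup.subset_closure (Or.inr ⟨i, rfl⟩))

theorem famS : Rc.FamS := by
  refine fun CN => ⟨C1T (cT CN) (fT CN), fun C3 => ⟨N0T (cT CN) (fT CN) C3, Nat.le_add_left _ _,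
    fun N1 => ⟨alT (cT CN) N1, DT (cT CN) N1, fun n => 2 * (n + 1), fun k =>
      ⟨(8 * Rc.kY + 14) * (k + 1) + (2 * l0T (cT CN) C3 + 10) * (k + 1) + 1, ?_⟩⟩⟩⟩
  intro u hu A P S1 S2 J0 K0 k0 kk G X Ω _ _ _ d Top _ Y H
  obtain ⟨I, J, _, y, t, ξ, ω, Z, F⟩ := exists_fam Y H (by omega) le_rfl (by omega) fun _ _ _ h => h
  refine ⟨I, J, _, fun p => HH (y p) (t p) false, fun p => Subgroup.centralizer {y p, t p}, y, t, ξ,
    ω, Z, F.bh, fun p => pr_of Y.xs.rg (F.ab p) (F.nc p) (F.png p).nf, fun a s x h => ?_,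
    fun j => ?_, fun g p q => F.ty p q g, fun g p => by rw [closure_sy, F.stab],
    fun g p v => by rw [closure_sy, F.mem], fun p n f hf h => ?_⟩
  · obtain ⟨p, g, h1, h2⟩ := F.rep a s x h
    exact ⟨g, p, _, mem_cen.2 h1, _, mem_cen.2 h2, (mul_inv_cancel_left _ _).symm,
      (mul_inv_cancel_left _ _).symm⟩
  · obtain ⟨p, g, h⟩ := F.cover j
    exact ⟨g, p, h⟩
  · rw [closure_sy] at hf
    exact (wd_of_sy ((F.png p).sy hf)).mono (Nat.mul_le_mul_left _ (Nat.succ_le_succ h))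

theorem cone_exists : ∃ kB D0 : ℕ, ∀ L : ℕ, ∃ f P : ℕ, P ≠ 0 ∧ ∀ k A P' : ℕ, ∃ S2 : ℕ, 2 ≤ S2 ∧
    ∀ S' : ℕ, ∃ U : ℕ, ∀ u, U ≤ u → ∃ K : ℕ, ∀ k0 : ℕ, ∃ kk : ℕ, ∀ n : ℕ, K ≤ n → kk ≤ n →
    ∀ (G X : Type) [Group G] [MulAction G X] (d : X → X → ℕ) (M : Set G),
    Re.Lev G d M k A P' S2 k0 n u → Nonempty (Re.Cn G d M kB D0 L f P S2 S' u K kk n) :=
  Rc.cone_of famS

end Pool.Agent.Lib.MP_a2eab4_al.Rx
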