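import Pool.Agent.Lib.MP_a2eab4_al.RhG
import Pool.Agent.Lib.MP_a2eab4_al.RtG
import Pool.Agent.Lib.MP_a2eab4_al.RePg
import Pool.Agent.Lib.MP_a2eab4_al.ReNw
import Pool.Agent.Lib.MP_a2eab4_al.RhX
import Pool.Agent.Lib.MP_a2eab4_al.RdA

set_option autoImplicit false

/-! One level step. -/

namespace Pool.Agent.Lib.MP_a2eab4_al.Re

open Pool.Agent.Lib.MP_429c3d_al Hyp Ng

theorem Inv.mono {G X : Type} [Group G] [MulAction G X] {d : X → X → ℕ} {k A A' P : ℕ}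
    (h : Inv G d k A P) (e : A ≤ A') : Inv G d k A' P :=
  ⟨h.gr, h.hyp, h.iso, h.ne, h.tf, h.n2, h.rg, h.pf,
    fun a b x x' h0 h1 h2 h3 h4 => (h.ai a b x x' h0 h1 h2 h3 h4).trans e,
    fun g j x h0 h1 h2 i => (h.pe1 g j x h0 h1 h2 i).trans e, h.pe2⟩

theorem done_mono {G : Type} [Group G] {N N' : ℕ} {y c : G} (h : Done N y c) (e : N ≤ N') :
    Done N' y c := h.imp fun _ h => ⟨h.1.trans e, h.2⟩

theorem done_map {G H : Type} [Group G] [Group H] {N : ℕ} {y c : G} (h : Done N y c)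
    (f : G →* H) : Done N (f y) (f c) :=
  h.imp fun j h => ⟨h.1, by rw [← map_cs]; exact h.2.map f⟩

theorem esc_mono {G X : Type} [Group G] [MulAction G X] {d : X → X → ℕ} {K K' S : ℕ} {y c : G}
    (h : Esc d K S y c) (e : K ≤ K') : Esc d K' S y c := h.imp fun _ h => ⟨h.1.trans e, h.2⟩

theorem done_of_conj {G : Type} [Group G] {N j : ℕ} {y c g : G}
    (h : Done N (g * y * g⁻¹) (g * cs y c j * g⁻¹)) : Done (j + N) y c := by
  obtain ⟨i, hi, h⟩ := h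
  rw [← conj_cs, cs_add] at h
  exact ⟨j + i, by omega, by simpa [mul_assoc] using h.conj g⁻¹⟩

theorem esc_of_conj {G X : Type} [Group G] [MulAction G X] {d : X → X → ℕ} (iso : Isom G d)
    {K S j : ℕ} {y c g : G} (h : Esc d K S (g * y * g⁻¹) (g * cs y c j * g⁻¹)) :
    Esc d (j + K) S y c := by
  obtain ⟨i, hi, h⟩ := h
  rw [← conj_cs, cs_add] at h
  exact ⟨j + i, by omega, fun x => by simpa only [dis_conj iso] using h (g • x)⟩

/-- The data that the filling uses. -/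
def Pg.gl {G : Type} [Group G] {E D : Subgroup G} {y t : G} {kT kC DT c : ℕ} {φ : ℕ → ℕ}
    {L f P m Kk S R N : ℕ} (g : Pg E D y t kT kC DT c φ L f P m Kk S R N) (h : Pr E D y t) :
    Gl (Sy (E : Set G) (t * y * t⁻¹)) g.F c φ N where
  π := g.π
  ρ := g.ρ
  surj := g.surj
  lip := g.lip
  pr := fun s l => g.pr l s
  ker := g.ker
  mem := fun l hl => by
    obtain ⟨e, a, e1, e2⟩ := g.ρ_o l hl
    exact ⟨a, e2, Or.inl (e2 ▸ e), e1⟩
  comm := g.ρ_comm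
  sat := fun a n l hn hl e => (g.o_ρ a (h.sat a n (by omega) (by
    rw [zpow_natCast, e]
    exact (g.ρ_o l hl).1))).imp fun _ e => ⟨e.1, e.2.symm⟩

theorem level_step : ∃ k : ℕ, 746 ≤ k ∧ ∀ A0 : ℕ, ∃ A P S2 : ℕ, A0 ≤ A ∧ P ≠ 0 ∧ 2 ≤ S2 ∧
    ∀ u0 : ℕ, ∃ u k0 n : ℕ, u0 ≤ u ∧ 1 ≤ k0 ∧ ∀ (G X : Type) [Group G] [MulAction G X]
    (d : X → X → ℕ) (M : Set G), Lev G d M k A P S2 k0 n u →
      ∃ (G' X' : Type) (_ : Group G') (_ : MulAction G' X') (d' : X' → X' → ℕ) (θ : G →* G')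
        (Φ : X → X'), Lev G' d' (θ '' M) k A P S2 k0 n u ∧ Nx d d' M θ Φ S2 n u := by
  obtain ⟨kB, D0, h1⟩ := Rx.cone_exists
  obtain ⟨kT, kC, DT, c, φ, hc, hφ, h2⟩ := pg_exists
  obtain ⟨kZ, D, ψ, hψ, h3⟩ := nw_exists kB D0 kT kC DT c c hφ hc
  generalize blowK kT kC DT = kF at h3
  refine ⟨max 746 (blowK kZ kF D), le_max_left _ _, fun A0 => ?_⟩
  replace h3 := h3 _ (le_max_right 746 _)
  generalize max 746 (blowK kZ kF D) = k at h3 ⊢
  obtain ⟨L, h4⟩ := deck_of deckMain kZ kF D k kT kC DT c ψ hψ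
  obtain ⟨f, P, hP, h1⟩ := h1 L
  obtain ⟨f', P', h2⟩ := h2 L
  have hQ : P * (P' + 1) ≠ 0 := Nat.mul_ne_zero hP (by omega)
  obtain ⟨A, h4⟩ := h4 (f + f') (P * (P' + 1)) hQ
  obtain ⟨S2, hS, h1⟩ := h1 k (max A A0) (P * (P' + 1))
  refine ⟨max A A0, _, S2, le_max_right _ _, hQ, hS, fun u0 => ?_⟩
  obtain ⟨S', h4⟩ := h4 S2
  obtain ⟨U, h1⟩ := h1 S'
  obtain ⟨K, h1⟩ := h1 (U + u0 + 1) (by omega)
  obtain ⟨K', h2⟩ := h2 (f + f') (P * (P' + 1)) (by omega)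
    ((Nat.le_succ P').trans (Nat.le_mul_of_pos_left _ (by omega))) S'
  obtain ⟨kk, h1⟩ := h1 (2 * (K + K') + 1)
  obtain ⟨R, h4⟩ := h4 (K + K') 1
  obtain ⟨N, h3⟩ := h3 (R + 1)
  obtain ⟨m, h2⟩ := h2 (K + K') (by omega) (R + 1) N
  refine ⟨U + u0 + 1, 2 * (K + K') + 1, kk + K + K' + m + 1, by omega, by omega, ?_⟩
  intro G X _ _ d M H
  obtain ⟨C⟩ := h1 (kk + K + K' + m + 1) (by omega) (by omega) G X d M H
  have g := fun p => (h2 G _ _ _ _ (C.pr p) H.tf).some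
  obtain ⟨V, T, j, a1, a2, a3, a4, a6⟩ := h3 G _ _ _ C.dB C.ι C.v C.ξ _ L _ _ m _ S'
    (fun p => (g p).F) (fun p => (g p).gl (C.pr p)) C.cb H.tf H.rg H.n2 H.pf
    (fun a b x x' h0 h1 h2 h3 h4 => (C.ci.ai a b x x' h0 h1 h2 h3 h4).trans (by omega))
    (fun a i x h0 h1 h2 i' => (C.ci.pe1 a i x h0 h1 h2 i').trans (by omega))
    (fun a h x => by
      rw [pow_mul']
      exact C.ci.pe2 _ (fun e => h (e.of_pow C.cb.gr.met C.cb.iso (by omega))) x)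
  replace a4 : ∀ p a, (T p).io ((g p).π a) = V.θ a := a4
  obtain ⟨e1, e2⟩ := h4 G m (R + 1) _ V _ T (by omega) a1
  have law : ∀ y e, Trt (fun p => Twi (C.D p) (C.y p) (C.t p)) kk y e →
      Done (kk + K + K' + m + 1) (V.θ y) (V.θ e) := by
    rintro y e ⟨i, hi, h, p, e3⟩
    obtain ⟨y', e', b1, b2, b3⟩ := (g p).law _ _ e3
    have b4 := b3.map (T p).io
    rw [map_cs, a4, a4, b1, b2] at b4
    simp only [map_mul, map_inv, map_cs] at b4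
    exact done_mono (done_of_conj ⟨m, le_rfl, b4⟩) (by omega)
  have mk : ∀ s ∈ M, V.Sh 1 s := fun s hs => by
    obtain ⟨x, hx⟩ := C.ci.mark s hs
    rw [← C.cb.ι_smul] at hx
    have := a3 _ _ hx
    rw [a2, V.Φ_smul] at this
    exact ⟨j x, this⟩
  refine ⟨V.Γ, V.W, V.grp, V.aW, V.dW, V.θ, fun x => V.Φ (j (C.j x)),
    ⟨Inv.mono ⟨V.blow.grW, V.hyp, V.bact.iW, V.ne, e1.tf, e1.n2, e1.rg, e1.pf, e1.ai, e1.pe1,
      e1.pe2⟩ (le_max_left _ _), ?_, ?_, ?_⟩, V.surj, fun g x => ?_, fun x x' h => ?_,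
    fun g x h e => ?_, fun y s hs h => ?_⟩
  · rintro g _ ⟨s, hs, rfl⟩
    obtain ⟨g, rfl⟩ := V.surj g
    exact ⟨_, H.conj g s hs, by simp⟩
  · rintro _ ⟨s, hs, rfl⟩
    obtain ⟨x, -, hx⟩ := mk s hs
    exact ⟨V.Φ x, hx.trans (by omega)⟩
  · rintro y _ ⟨s, hs, rfl⟩
    by_cases hy : Commute y (V.θ s * y * (V.θ s)⁻¹)
    · exact Or.inl ⟨0, Nat.zero_le _, hy⟩
    refine (e1.gt M (fun y e => Done (kk + K + K' + m + 1) y e ∨
      Esc V.dW (2 * (K + K') + 1) S2 y e) mk (fun s hs g => H.conj g s hs) ?_ y s hs hy).elim id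
        (Or.imp_left fun h => done_mono h (by omega))
    intro y s hs _
    rcases C.ci.gt y s hs with h | h | ⟨i, hi, h, p, b1, b2⟩ | h
    · exact Or.inl (Or.inl (done_map h _))
    · exact Or.inl (Or.inl (law _ _ h))
    · have b3 := (T p).smul_v ((g p).π ⟨_, b1⟩)
      have b4 := (T p).smul_v ((g p).π ⟨_, b2⟩)
      rw [a4] at b3 b4
      have b5 := e2 p 1 _ _ ((one_smul V.Γ (T p).v).symm ▸ b3) ((one_smul V.Γ (T p).v).symm ▸ b4)
      simp only [map_mul V.θ _ h⁻¹, map_mul V.θ h, map_inv, map_cs] at b5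
      exact Or.inl (b5.imp (fun h => done_mono (done_of_conj h) (by omega))
        fun h => esc_mono (esc_of_conj V.bact.iW h) (by omega))
    · exact Or.inr (esc_mono (a6 _ _ _ _ h) (by omega))
  · rw [C.j_smul, a2, V.Φ_smul]
  · exact (a3 _ _ (C.j_le _ _ h)).2
  · refine a1.inj g (j (C.j x)) e ?_
    rw [← a2, ← C.j_smul]
    exact (a3 _ _ (C.j_le _ _ h)).1.trans (by omega)
  · exact (C.tr y s hs h).elim (fun h => done_map h _) (law _ _)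

end Pool.Agent.Lib.MP_a2eab4_al.Re
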