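import Pool.Agent.Lib.MP_a2eab4_al.RhI
import Pool.Agent.Lib.MP_a2eab4_al.RdA

set_option autoImplicit false
set_option linter.unusedSectionVars false

/-! The cusped space of a tower. -/

namespace Pool.Agent.Lib.MP_a2eab4_al.Re

open Pool.Agent.Lib.MP_429c3d_al Pool.Agent.Lib.MP_429c3d_al.Hyp Pool.Agent.Lib.MP_429c3d_al.Ng

/-- The threshold for projections. -/
def th (D s : ℕ) : ℕ := (D + 1) * (7 * s + 12)

/-- The distortion of the blow up. -/
def ub (D s n : ℕ) : ℕ := (n + 1) * (th D s + 1)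

theorem th_ge (D s : ℕ) : D + s ≤ th D s := by
  unfold th
  nlinarith

theorem th_ge' (D s : ℕ) : (D + 1) * (s + 2) ≤ th D s := Nat.mul_le_mul_left _ (by omega)

theorem th_mono (D : ℕ) {s s' : ℕ} (h : s ≤ s') : th D s ≤ th D s' :=
  Nat.mul_le_mul_left _ (by omega)

theorem root_eq {H : Type} [Group H] (tf : TF H) {g g' : H} {j : ℕ} (hj : j ≠ 0)
    (cm : Commute g g') (e : g ^ j = g' ^ j) : g = g' :=
  mul_inv_eq_one.1 (tf (g * g'⁻¹) j hj (by rw [cm.inv_right.mul_pow, e, inv_pow, mul_inv_cancel]))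

theorem conj_fix {H X : Type} [Group H] [MulAction H X] {a g : H} {z : X} :
    a • g • z = g • z ↔ (g⁻¹ * a * g) • z = z := by
  rw [mul_smul, mul_smul, inv_smul_eq_iff]

variable {kT kC DT c L f P N Kk S R : ℕ}

namespace Fbr

variable (F : Fbr kT kC DT c L f P N Kk S R)

theorem mC : IsMet F.dC := F.blow.grW.met

theorem iC : Isom F.J F.dC := F.bact.iW

theorem mZ : IsMet F.dZ := F.blow.grB.met

theorem iZ : Isom F.J F.dZ := F.bact.iB

/-- `a` fixes a point of the main class. -/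
def Ap (a : F.J) : Prop := ∃ β, F.ap β ∧ a • β = β

theorem dis_bar (g : F.J) (w : F.C) : F.dZ (F.bar w) (g • F.bar w) ≤ F.dC w (g • w) := by
  have := F.blow.bar_le w (g • w)
  rwa [F.bact.comm] at this

theorem bd_bar {g : F.J} (h : Bd F.dC g) : Bd F.dZ g := by
  obtain ⟨w, M, h⟩ := h
  exact ⟨F.bar w, M, fun i => (F.dis_bar _ w).trans (h i)⟩

theorem ap_iff (g : F.J) (z : F.Z) : F.ap (g • z) ↔ F.ap z :=
  ⟨fun h => by simpa using F.ap_smul g⁻¹ _ h, F.ap_smul g z⟩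

theorem Ap.conj {F : Fbr kT kC DT c L f P N Kk S R} {a : F.J} (h : F.Ap a) (g : F.J) :
    F.Ap (g * a * g⁻¹) := by
  obtain ⟨β, h1, h2⟩ := h
  exact ⟨g • β, F.ap_smul g β h1, by rw [smul_smul, inv_mul_cancel_right, mul_smul, h2]⟩

theorem nap {z : F.Z} (h : ¬ F.ap z) : ∃ g : F.J, z = g • F.τ := by
  obtain ⟨g, rfl | rfl | rfl⟩ := F.cover z
  exacts [absurd (F.ap_smul g _ F.ap_o) h, absurd (F.ap_smul g _ F.ap_q) h, ⟨g, rfl⟩]

theorem bar_inv {w : F.C} {g : F.J} {z : F.Z} (h : F.bar w = g • z) : F.bar (g⁻¹ • w) = z := by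
  rw [F.bact.comm, h, inv_smul_smul]

theorem dC_inv (w w' : F.C) (g : F.J) : F.dC (g⁻¹ • w) w' = F.dC w (g • w') := by
  rw [← F.iC g, smul_inv_smul]

theorem bot' {w : F.C} {g : F.J} (h : F.bar w = g • F.o) : F.dC w (g • F.b) ≤ F.dp w + c := by
  have := F.bot _ (F.bar_inv h)
  rwa [F.dC_inv, F.dp_smul] at this

theorem dq' {w : F.C} {g : F.J} (h : F.bar w = g • F.q) : F.dC w (g • F.b) ≤ c := by
  have := F.dq _ (F.bar_inv h)
  rwa [F.dC_inv] at this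

theorem dτ' {w : F.C} {g : F.J} (h : F.bar w = g • F.τ) : R ≤ F.dp w := by
  have := F.dτ _ (F.bar_inv h)
  rwa [F.dp_smul] at this

theorem near {w : F.C} (h : F.dp w < R) : ∃ j : F.J, F.dC w (j • F.b) ≤ F.dp w + c := by
  obtain ⟨g, e | e | e⟩ := F.cover (F.bar w)
  · exact ⟨g, F.bot' e⟩
  · exact ⟨g, (F.dq' e).trans (by omega)⟩
  · have := F.dτ' e
    omega

theorem un' {a g : F.J} {z : F.Z} (h : a • g • F.τ = g • F.τ) (hn : ¬ F.Ap a) (e : a • z = z) :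
    z = g • F.τ := by
  have := F.un (g⁻¹ * a * g) (g⁻¹ • z) (conj_fix.1 h)
    (fun e => hn (by simpa [mul_assoc] using Ap.conj (F := F) e g))
    (by rw [← conj_fix, smul_inv_smul, e])
  rw [← this, smul_inv_smul]

theorem h2' {a g : F.J} {z : F.Z} (h : a • g • F.q = g • F.q) (e : a • z = z) :
    z = g • F.q ∨ ∀ x : F.Z, a • x = x := by
  refine (F.h2 (g⁻¹ * a * g) (g⁻¹ • z) (conj_fix.1 h)
    (by rw [← conj_fix, smul_inv_smul, e])).imp (fun e => by rw [← e, smul_inv_smul]) fun e x => ?_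
  have := conj_fix.2 (e (g⁻¹ • x))
  rwa [smul_inv_smul] at this

theorem rootz {g : F.J} {j : ℤ} {z : F.Z} (hj : j ≠ 0) (h : g ^ j • z = z) : g • z = z := by
  refine F.root g j.natAbs z (by omega) ?_
  rcases Int.natAbs_eq j with e | e
  · rw [← zpow_natCast, ← e, h]
  · rw [← zpow_natCast, smul_eq_iff_eq_inv_smul, ← zpow_neg, ← e, h]

theorem upper {s n : ℕ} {w w' : F.C} (hc : F.dZ (F.bar w) (F.bar w') ≤ n)
    (h : ∀ v, ¬ Far F.dC F.dZ F.dT F.bar (th DT s + 1) v w w') : F.dC w w' ≤ ub DT s n :=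
  (F.blow.upper h).trans (Nat.mul_le_mul_right _ (by omega))

theorem bd_fix (hL : 2 * kT + 2 ≤ L) {a : F.J} (h : Bd F.dZ a) : ∃ z : F.Z, a • z = z := by
  by_contra hn
  obtain ⟨p, hp⟩ := h.centre F.blow.grB F.blow.hyp F.iZ
  have e1 := F.pw a (fun y e => hn ⟨y, e⟩) P le_rfl p
  have e2 := hp P
  rw [zpow_natCast] at e2
  omega

theorem fix_of_pow {a : F.J} {w : F.C} (h : F.dC w (a ^ P • w) < L) : ∃ z : F.Z, a • z = z := by
  by_contra hn
  have e1 := F.pw a (fun y e => hn ⟨y, e⟩) P le_rfl (F.bar w)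
  have e2 := F.dis_bar (a ^ P) w
  omega

/-- Where a power of an element with a fixed point is short, all powers are short. -/
theorem peC {g : F.J} {α : F.Z} (hg : g • α = α) {j : ℤ} (hj : j ≠ 0) {w : F.C} {s : ℕ}
    (h : F.dC w (g ^ j • w) ≤ s) (i : ℤ) : F.dC w (g ^ i • w) ≤ ub DT (s + c) (s + c) := by
  obtain ⟨β, -, b1, b2⟩ := F.ta {g ^ j} α (F.bar w) s
    (by rintro _ rfl; exact (MulAction.stabilizer F.J α).zpow_mem hg j)
    (by rintro _ rfl; exact (F.dis_bar _ w).trans h)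
  have e0 : g ^ i • β = β := (MulAction.stabilizer F.J β).zpow_mem (F.rootz hj (b1 _ rfl)) i
  have e1 := dis_move F.mZ F.iZ (g ^ i) (F.bar w) β
  rw [e0, F.mZ.self] at e1
  refine F.upper (by rw [F.bact.comm]; omega) fun v hf => ?_
  have e2 : F.dC (g ^ i • w) (g ^ j • g ^ i • w) ≤ s := by
    rwa [smul_smul, (Commute.zpow_zpow_self g j i).eq, mul_smul, F.iC]
  have e3 := F.rootz hj (F.blow.TP F.bact h e2 (hf.mono (by
    have := th_mono DT (show s ≤ s + c by omega)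
    unfold th at this ⊢
    omega)))
  have e4 : g ^ i • v = v := (MulAction.stabilizer F.J v).zpow_mem e3 i
  obtain ⟨p, p', a, b, e⟩ := hf
  have a' := F.bact.prj (g ^ i) a
  rw [e4] at a'
  have e5 := F.blow.prj_uniq a' b
  have e6 := F.fib (g ^ i) p (by rw [a.1, e4])
  have e7 := F.blow.Ftri a.1 a'.1 b.1
  have := th_ge DT (s + c)
  omega

theorem aiC {a b : F.J} (hab : ¬ Commute a b) {w w' : F.C} {s : ℕ}
    (h1 : F.dC w (a • w) ≤ s) (h2 : F.dC w (b • w) ≤ s) (h3 : F.dC w' (a • w') ≤ s)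
    (h4 : F.dC w' (b • w') ≤ s) (hs : s ≤ L) : F.dC w w' ≤ ub DT s f := by
  have bl : ∀ (u : F.J) (p : F.C), F.dC p (u • p) ≤ s → F.dZ (F.bar p) (u • F.bar p) ≤ L :=
    fun u p e => (F.dis_bar u p).trans (e.trans hs)
  exact F.upper (F.ai a b _ _ hab (bl a w h1) (bl b w h2) (bl a w' h3) (bl b w' h4))
    fun v hf => hab (F.comm a b v (F.blow.TP F.bact h1 h3 (hf.mono (Nat.le_succ _)))
      (F.blow.TP F.bact h2 h4 (hf.mono (Nat.le_succ _))))

/-- The distance to the projection on a fixed fibre. -/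
theorem to_prj {U : Set F.J} {s n : ℕ} {w : F.C} (h : ∀ a ∈ U, F.dC w (a • w) ≤ s) {α : F.Z}
    (hf : ∀ a ∈ U, a • α = α) (hc : F.dZ (F.bar w) α ≤ n)
    (hv : ∀ v, (∀ a ∈ U, a • v = v) → F.dZ (F.bar w) v < F.dZ (F.bar w) α → ¬ F.ap v) :
    ∃ p, F.bar p = α ∧ F.dC w p ≤ ub DT (s + c) n := by
  obtain ⟨p, hp⟩ := F.blow.exists_prj α w
  have e0 := th_ge' DT (s + c)
  have e1 := th_ge DT (s + c)
  have e2 : (DT + 1) * (s + 2) ≤ (DT + 1) * (s + c + 2) := Nat.mul_le_mul_left _ (by omega)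
  refine ⟨p, hp.1, F.upper (by rwa [hp.1]) fun v hF => ?_⟩
  by_cases e : α = v
  · obtain ⟨q, q', h1, h2, h3⟩ := hF
    obtain rfl := F.blow.prj_eq h2 (hp.1.trans e)
    have h4 := F.blow.prj_uniq h1 (e ▸ hp)
    omega
  · have b2 := F.blow.between_of_far (hF.mono (by omega))
    rw [hp.1] at b2
    have b3 : F.dZ v α ≠ 0 := fun e' => e (F.blow.grB.sep _ _ e').symm
    obtain ⟨g, rfl⟩ := F.nap (hv v (fun a ha => F.blow.TAP F.bact (s := s) (y := w) (y' := p)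
      (h a ha) (by rw [hp.1]; exact hf a ha) (hF.mono (by omega))) (by omega))
    obtain ⟨q, q', h1, h2, h3⟩ := hF
    have := F.nτ _ _ (F.bar_inv h1.1) (F.bar_inv h2.1)
    rw [F.bact.iF _ _ _ (h1.1.trans h2.1.symm)] at this
    omega

/-- Short elements with a common fixed point in the main class have one nearby. -/
theorem nearA {U : Set F.J} {s : ℕ} {w : F.C} (h : ∀ a ∈ U, F.dC w (a • w) ≤ s) {β : F.Z}
    (hβ : F.ap β) (hf : ∀ a ∈ U, a • β = β) :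
    ∃ w', F.ap (F.bar w') ∧ (∀ a ∈ U, a • F.bar w' = F.bar w') ∧
      F.dC w w' ≤ ub DT (s + c) (s + c) := by
  classical
  obtain ⟨β', b1, b2, b3⟩ := F.ta U β (F.bar w) s hf fun a ha => (F.dis_bar a w).trans (h a ha)
  have ex : ∃ n, ∃ β, F.ap β ∧ (∀ a ∈ U, a • β = β) ∧ F.dZ (F.bar w) β = n :=
    ⟨_, β', b1 hβ, b2, rfl⟩
  obtain ⟨α, a1, a2, a3⟩ := Nat.find_spec ex
  have hm : ∀ v, F.ap v → (∀ a ∈ U, a • v = v) → F.dZ (F.bar w) α ≤ F.dZ (F.bar w) v :=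
    fun v v1 v2 => a3 ▸ Nat.find_min' ex ⟨v, v1, v2, rfl⟩
  have := hm β' (b1 hβ) b2
  obtain ⟨p, rfl, hp⟩ := F.to_prj h a2 (n := s + c) (by omega) fun v v1 v2 v3 =>
    absurd (hm v v3 v1) (by omega)
  exact ⟨p, a1, a2, hp⟩

theorem nearO {U : Set F.J} {s : ℕ} {w : F.C} (h : ∀ a ∈ U, F.dC w (a • w) ≤ s) {β : F.Z}
    (hβ : F.ap β) (hf : ∀ a ∈ U, a • β = β) (hd : ub DT (s + c) (s + c) + c < F.dp w) :
    ∃ (w' : F.C) (j : F.J), F.bar w' = j • F.o ∧ (∀ a ∈ U, a • j • F.o = j • F.o) ∧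
      F.dC w w' ≤ ub DT (s + c) (s + c) := by
  obtain ⟨w', a1, a2, a3⟩ := F.nearA h hβ hf
  obtain ⟨g, e | e | e⟩ := F.cover (F.bar w')
  · exact ⟨w', g, e, e ▸ a2, a3⟩
  · have e1 := F.dq' e
    have e2 := F.dp_le w w'
    have e3 := F.dp_le w' (g • F.b)
    rw [F.dp_smul, F.dp_b, F.mC.symm] at e3
    rw [F.mC.symm] at e1
    omega
  · exact absurd ((F.ap_iff g _).1 (e ▸ a1)) F.ap_τ

/-- Mixed elements are short only at deep points. -/
theorem md {a : F.J} {α : F.Z} (ha : a • α = α) (hn : ¬ F.Ap a) {w : F.C} {s : ℕ}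
    (h : F.dC w (a • w) ≤ s) : R ≤ F.dp w + ub DT (s + c) (s + c) := by
  obtain ⟨β, -, b1, b2⟩ := F.ta {a} α (F.bar w) s (by rintro _ rfl; exact ha)
    (by rintro _ rfl; exact (F.dis_bar _ w).trans h)
  obtain ⟨g, rfl⟩ := F.nap (z := β) fun e => hn ⟨β, e, b1 _ rfl⟩
  obtain ⟨p, p1, p2⟩ := F.to_prj (U := {a}) (by rintro _ rfl; exact h) b1 (n := s + c) (by omega)
    fun v v1 _ v3 => hn ⟨v, v3, v1 _ rfl⟩
  have e1 := F.dτ' p1
  have e2 := F.dp_le p w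
  rw [F.mC.symm] at e2
  omega

/-- An abelian group without a fixed point in the main class contains a mixed element. -/
theorem mixed {K : Subgroup F.J} (cm : ∀ a ∈ K, ∀ b ∈ K, Commute a b)
    (hn : ∀ β, F.ap β → ¬ ∀ a ∈ K, a • β = β) : ∃ a ∈ K, ¬ F.Ap a := by
  by_contra h
  push Not at h
  by_cases h0 : ∀ a ∈ K, ∀ x : F.Z, a • x = x
  · exact hn F.o F.ap_o fun a ha => h0 a ha _
  · push Not at h0
    obtain ⟨a, ha, x, hx⟩ := h0
    obtain ⟨β, b1, b2⟩ := h a ha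
    refine hn β b1 fun b hb => ?_
    obtain ⟨β', c1, c2, c3⟩ := F.ca a b (cm a ha b hb) (h a ha) (h b hb) (h _ (K.mul_mem ha hb))
    exact (F.fj a β' β c1 b1 c2 b2).resolve_left (fun e => hx (e x)) b c3

/-- Rigidity of mixed elements inside the tower. -/
theorem mx {a j b : F.J} {α : F.Z} (ha : a • α = α) (hn : ¬ F.Ap a)
    (c1 : Commute (j * a * j⁻¹) a) (c2 : Commute b a) : Commute j b := by
  obtain ⟨g, rfl⟩ := F.nap (z := α) fun e => hn ⟨α, e, ha⟩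
  have key : ∀ u : F.J, Commute u a → u • g • F.τ = g • F.τ := fun u e =>
    F.un' ha hn (by rw [smul_smul a u, ← e.eq, mul_smul, ha])
  have e1 := key _ c1
  rw [mul_smul, mul_smul, ← eq_inv_smul_iff] at e1
  have e2 := F.un' ha hn e1
  rw [inv_smul_eq_iff] at e2
  exact F.comm j b _ e2.symm (key b c2)

theorem ur {g g' : F.J} {α : F.Z} (hg : g • α = α) {j : ℕ} (hj : j ≠ 0) (e : g ^ j = g' ^ j) :
    g = g' :=
  root_eq F.tf hj (F.comm g g' α hg (F.root g' j α hj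
    (e ▸ (MulAction.stabilizer F.J α).pow_mem hg j))) e

end Fbr

end Pool.Agent.Lib.MP_a2eab4_al.Re
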