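import Pool.Agent.Lib.MP_a2eab4_al.RhA

set_option autoImplicit false
set_option linter.unusedSectionVars false

/-! Fibre charts and lifts of short elements. -/

namespace Pool.Agent.Lib.MP_a2eab4_al.Re

open Pool.Agent.Lib.MP_429c3d_al Pool.Agent.Lib.MP_429c3d_al.Hyp Pool.Agent.Lib.MP_429c3d_al.Ng

variable {G : Type} [Group G] {kB kF D k kT kC DT c L f P N Kk S R : ℕ}

namespace Nw

variable (V : Nw G kB kF D k)

theorem gr : IsGr V.dW := V.blow.grW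

theorem mW : IsMet V.dW := V.blow.grW.met

theorem iW : Isom V.Γ V.dW := V.bact.iW

theorem mB : IsMet V.dB := V.blow.grB.met

theorem dis_π (g : G) (y : V.Y) : V.dU (V.π y) (g • V.π y) ≤ V.d y (g • y) := by
  rw [← V.π_smul]
  exact V.π_le _ _

theorem Φ_ker {n : G} (h : V.θ n = 1) (y : V.Y) : V.Φ (n • y) = V.Φ y := by
  rw [V.Φ_smul, h, one_smul]

end Nw

namespace Fc

variable {V : Nw G kB kF D k} {F : Fbr kT kC DT c L f P N Kk S R} (t : Fc V F)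

/-- The translate of a chart. -/
def smul (g : G) : Fc V F where
  v := V.θ g • t.v
  io := (MulAut.conj (V.θ g)).toMonoidHom.comp t.io
  ι w := V.θ g • t.ι w
  ρ := (MulAut.conj g).toMonoidHom.comp t.ρ
  y := g • t.y
  inj := (MulAut.conj (V.θ g)).injective.comp t.inj
  ι_smul j w := by simp [t.ι_smul, smul_smul]
  bar_ι w := by rw [V.bact.comm, t.bar_ι]
  onto x h := by
    obtain ⟨w, e⟩ := t.onto ((V.θ g)⁻¹ • x) (by rw [V.bact.comm, h, inv_smul_smul])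
    exact ⟨w, by rw [← e, smul_inv_smul]⟩
  dF_ι w w' := by rw [V.bact.iF _ _ _ ((t.bar_ι w).trans (t.bar_ι w').symm), t.dF_ι]
  stab γ h := by
    obtain ⟨j, e⟩ := t.stab _ (conj_fix.1 h)
    exact ⟨j, by simp [← e, mul_assoc]⟩
  att w x h1 h2 := t.att w ((V.θ g)⁻¹ • x) (by rwa [← V.iW (V.θ g), smul_inv_smul])
    fun e => h2 (by rw [← e, V.bact.comm, smul_inv_smul])
  pl y' w h := t.pl (g⁻¹ • y') w (by rw [V.Φ_smul, h, map_inv, inv_smul_smul])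
  Φ_y := by rw [V.Φ_smul, t.Φ_y]
  θρ a h := by simp [t.θρ a h]
  ρ_short a h := by
    change V.d (g • t.y) ((g * t.ρ a * g⁻¹) • g • t.y) ≤ c
    rw [dis_conj V.iso]
    exact t.ρ_short a h
  ρ_comm a b := commute_conj (t.ρ_comm a b) g
  sat g' n a hn h e := by
    obtain ⟨a', h1, h2⟩ := t.sat (g⁻¹ * g' * g⁻¹⁻¹) n a hn h (by
      rw [conj_pow, e]
      simp [mul_assoc])
    exact ⟨a', h1, by simp [← h2, mul_assoc]⟩

theorem smul_io (g : G) (j : F.J) : (t.smul g).io j = V.θ g * t.io j * (V.θ g)⁻¹ := rfl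

theorem smul_ρ (g : G) (j : F.J) : (t.smul g).ρ j = g * t.ρ j * g⁻¹ := rfl

theorem smul_ι (g : G) (w : F.C) : (t.smul g).ι w = V.θ g • t.ι w := rfl

theorem leC (w w' : F.C) : V.dW (t.ι w) (t.ι w') ≤ F.dC w w' := by
  rw [← t.dF_ι]
  exact V.blow.leF _ _ ((t.bar_ι w).trans (t.bar_ι w').symm)

theorem dis_le (j : F.J) (w : F.C) : V.dW (t.ι w) (t.io j • t.ι w) ≤ F.dC w (j • w) := by
  rw [← t.ι_smul]
  exact t.leC _ _

theorem io_v (j : F.J) : t.io j • t.v = t.v := by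
  rw [← t.bar_ι F.b, ← V.bact.comm, ← t.ι_smul, t.bar_ι, t.bar_ι]

theorem inner {w : F.C} {x : V.W} (h : V.dW (t.ι w) x + c < F.dp w) :
    ∃ w', x = t.ι w' ∧ F.dC w w' ≤ V.dW (t.ι w) x := by
  refine V.gr.induct (t.ι w) (P := fun n u => n + c < F.dp w → ∃ w', u = t.ι w' ∧ F.dC w w' ≤ n)
    (fun _ => ⟨w, rfl, (F.mC.self w).le⟩) ?_ x h
  intro n u v _ _ h1 ih h2
  obtain ⟨w', rfl, e⟩ := ih (by omega)
  have e1 := F.dp_le w w'
  have e2 : V.bar v = t.v := by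
    by_contra hn
    have := t.att w' v h1.le hn
    omega
  obtain ⟨w'', rfl⟩ := t.onto v e2
  have e3 := V.blow.edgeF _ _ ((t.bar_ι w').trans e2.symm) h1.le
  have e4 := F.mC.tri w w' w''
  rw [t.dF_ι] at e3
  exact ⟨w'', rfl, by omega⟩

theorem fix_inner {w : F.C} {γ : V.Γ} (h : V.dW (t.ι w) (γ • t.ι w) + c < F.dp w) :
    ∃ j, γ = t.io j ∧ F.dC w (j • w) ≤ V.dW (t.ι w) (γ • t.ι w) := by
  obtain ⟨w', e1, e2⟩ := t.inner h
  obtain ⟨j, rfl⟩ := t.stab γ (by rw [← t.bar_ι w, ← V.bact.comm, e1, t.bar_ι, t.bar_ι])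
  exact ⟨j, rfl, by rwa [← t.dF_ι, t.ι_smul, e1, t.dF_ι, ← e1]⟩

/-- A point near a plain point is not deep. -/
theorem dp_le (y : V.Y) (w : F.C) : F.dp w ≤ V.dW (t.ι w) (V.Φ y) + c := by
  by_contra h
  obtain ⟨w', e1, e2⟩ := t.inner (w := w) (x := V.Φ y) (by omega)
  have := t.pl y w' e1
  have := F.dp_le w w'
  omega

theorem exists_prj (x : V.W) : ∃ w, Prj V.dW V.dB V.bar t.v x (t.ι w) := by
  obtain ⟨p, hp⟩ := V.blow.exists_prj t.v x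
  obtain ⟨w, rfl⟩ := t.onto p hp.1
  exact ⟨w, hp⟩

theorem prj_ι (w : F.C) : Prj V.dW V.dB V.bar t.v (t.ι w) (t.ι w) := ⟨t.bar_ι w, Or.inl rfl⟩

theorem prj_io {x : V.W} {w : F.C} (h : Prj V.dW V.dB V.bar t.v x (t.ι w)) (j : F.J) :
    Prj V.dW V.dB V.bar t.v (t.io j • x) (t.ι (j • w)) := by
  have := V.bact.prj (t.io j) h
  rwa [t.io_v, ← t.ι_smul] at this

theorem prj_dis {x : V.W} {w : F.C} (h : Prj V.dW V.dB V.bar t.v x (t.ι w)) {j : F.J} {s : ℕ}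
    (hs : V.dW x (t.io j • x) ≤ s) : F.dC w (j • w) ≤ (D + 1) * (s + 1) := by
  rw [← t.dF_ι]
  exact (V.blow.prj_lip h (t.prj_io h j)).trans (Nat.mul_le_mul_left _ (by omega))

theorem prj_dp {x : V.W} {w : F.C} (h : Prj V.dW V.dB V.bar t.v x (t.ι w)) (hx : V.bar x ≠ t.v) :
    F.dp w ≤ c := by
  obtain ⟨q, q1, q2, -⟩ := V.blow.prj_ne h hx
  exact t.att w q q1 fun e => by
    rw [e] at q2
    omega

theorem prj_pl {y : V.Y} {w : F.C} (h : Prj V.dW V.dB V.bar t.v (V.Φ y) (t.ι w)) : F.dp w ≤ c := by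
  by_cases e : V.bar (V.Φ y) = t.v
  · exact t.pl y w (V.blow.prj_eq h e)
  · exact t.prj_dp h e

theorem bd_io {j : F.J} (h : Bd V.dW (t.io j)) : Bd F.dZ j := by
  obtain ⟨x, M, h⟩ := h
  obtain ⟨w, hw⟩ := t.exists_prj x
  exact F.bd_bar ⟨w, _, fun i => t.prj_dis hw (by rw [map_zpow]; exact h i)⟩

theorem bd_of_fix {j : F.J} {α : F.Z} (h : j • α = α) : Bd V.dW (t.io j) :=
  ⟨t.ι F.b, _, fun i => by
    rw [← map_zpow]
    exact (t.dis_le _ _).trans (F.peC h (j := 1) (by omega) le_rfl i)⟩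

theorem plain (j : F.J) : ∃ g : G, V.θ g = t.io j ∧ V.Φ (g • t.y) = t.ι (j • F.b) := by
  obtain ⟨g, hg⟩ := V.surj (t.io j)
  exact ⟨g, hg, by rw [V.Φ_smul, hg, t.Φ_y, t.ι_smul]⟩

theorem near {w : F.C} (h : F.dp w < R) :
    ∃ y, V.bar (V.Φ y) = t.v ∧ V.dW (t.ι w) (V.Φ y) ≤ F.dp w + c := by
  obtain ⟨j, hj⟩ := F.near h
  obtain ⟨g, -, e⟩ := t.plain j
  exact ⟨_, by rw [e, t.bar_ι], by rw [e]; exact (t.leC _ _).trans hj⟩

/-- The lifts of a subgroup that is short at an inner point. -/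
theorem lift_in {w : F.C} {K : Subgroup V.Γ} {B : ℕ} (h : ∀ γ ∈ K, V.dW (t.ι w) (γ • t.ι w) ≤ B)
    (hd : B + c < F.dp w) :
    ∃ l : V.Γ → F.J, ∀ γ ∈ K, t.io (l γ) = γ ∧ F.dC w (l γ • w) ≤ B := by
  have := fun γ hγ => t.fix_inner (w := w) (γ := γ) (by have := h γ hγ; omega)
  choose! l h1 h2 using this
  exact ⟨l, fun γ hγ => ⟨(h1 γ hγ).symm, (h2 γ hγ).trans (h γ hγ)⟩⟩

end Fc

namespace Dk

variable {V : Nw G kB kF D k} {I : Type} {F : I → Fbr kT kC DT c L f P N Kk S R}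
  {t : ∀ p, Fc V (F p)} {ψ : ℕ → ℕ} (K : Dk V F t ψ)
include K

theorem chart (x : V.W) : (∃ (p : I) (g : G) (w : (F p).C), x = ((t p).smul g).ι w) ∨
    ((∃ y, x = V.Φ y) ∧ ∀ x', V.bar x' = V.bar x → x' = x) := by
  refine (K.cases x).imp_left ?_
  rintro ⟨p, γ, h⟩
  obtain ⟨g, rfl⟩ := V.surj γ
  obtain ⟨w, e⟩ := ((t p).smul g).onto x h
  exact ⟨p, g, w, e⟩

/-- Every point is inner or near a plain point. -/
theorem dich (x : V.W) {s : ℕ} (hs : s < R) :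
    (∃ (p : I) (g : G) (w : (F p).C), x = ((t p).smul g).ι w ∧ s < (F p).dp w) ∨
      ∃ y, V.dW x (V.Φ y) ≤ s + c := by
  rcases K.chart x with ⟨p, g, w, rfl⟩ | ⟨⟨y, rfl⟩, -⟩
  · by_cases h : s < (F p).dp w
    · exact Or.inl ⟨p, g, w, rfl, h⟩
    · obtain ⟨y, -, e⟩ := ((t p).smul g).near (w := w) (by omega)
      exact Or.inr ⟨y, by omega⟩
  · exact Or.inr ⟨y, by rw [V.mW.self]; omega⟩

theorem cone {v : V.B} {p p' : V.W} (h : V.bar p = v) (h' : V.bar p' = v) (e : 1 ≤ V.dF p p') :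
    ∃ (i : I) (u : Fc V (F i)) (w w' : (F i).C), v = u.v ∧ p = u.ι w ∧ p' = u.ι w' := by
  rcases K.chart p with ⟨i, g, w, rfl⟩ | ⟨-, e'⟩
  · rw [Fc.bar_ι] at h
    obtain ⟨w', e⟩ := ((t i).smul g).onto p' (h'.trans h.symm)
    exact ⟨i, _, w, w', h.symm, rfl, e⟩
  · rw [e' p' (h'.trans h.symm), V.blow.Fself] at e
    omega

theorem onto {y y' : V.Y} {s : ℕ} (hs : s ≤ R) (h : V.dW (V.Φ y) (V.Φ y') ≤ s) :
    ∃ n : G, V.θ n = 1 ∧ V.d y (n • y') ≤ ψ s := K.pr s y y' hs h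

theorem lift {y : V.Y} {γ : V.Γ} {s : ℕ} (hs : s ≤ R) (h : V.dW (V.Φ y) (γ • V.Φ y) ≤ s) :
    ∃ g : G, V.θ g = γ ∧ V.d y (g • y) ≤ ψ s := by
  obtain ⟨g, rfl⟩ := V.surj γ
  obtain ⟨n, n1, n2⟩ := K.pr s y (g • y) hs (by rwa [V.Φ_smul])
  exact ⟨n * g, by rw [map_mul, n1, one_mul], by rwa [mul_smul]⟩

theorem eq {y : V.Y} {g g' : G} (h : V.d y (g • y) + V.d y (g' • y) ≤ R) (e : V.θ g = V.θ g') :
    g = g' := by
  have e1 := dis_mul V.met V.iso g⁻¹ g' y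
  rw [dis_inv V.met V.iso] at e1
  exact inv_mul_eq_one.1 (K.inj _ y (by rw [map_mul, map_inv, e, inv_mul_cancel]) (by omega))

theorem transfer {y y' : V.Y} {g : G} {s : ℕ} (hs : s ≤ R)
    (h : V.dW (V.Φ y') (V.θ g • V.Φ y') ≤ s)
    (hr : V.d y (g • y) + 2 * V.d y y' + ψ s ≤ R) : V.d y' (g • y') ≤ ψ s := by
  obtain ⟨g', e1, e2⟩ := K.lift hs h
  have := dis_move V.met V.iso g y' y
  rw [V.met.symm y' y] at this
  rwa [← K.eq (y := y') (by omega) e1]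

theorem lift_sub {y : V.Y} (H : Subgroup V.Γ) {s : ℕ} (hs : s ≤ R) (hr : 3 * ψ s ≤ R)
    (h : ∀ γ ∈ H, V.dW (V.Φ y) (γ • V.Φ y) ≤ s) : ∃ l : V.Γ → G,
      (∀ γ ∈ H, V.θ (l γ) = γ ∧ V.d y (l γ • y) ≤ ψ s) ∧
        ∀ a ∈ H, ∀ b ∈ H, l (a * b) = l a * l b := by
  have := fun γ hγ => K.lift hs (h γ hγ)
  choose! l h1 h2 using this
  refine ⟨l, fun γ hγ => ⟨h1 γ hγ, h2 γ hγ⟩, fun a ha b hb => K.eq (y := y) ?_ ?_⟩
  · have := dis_mul V.met V.iso (l a) (l b) y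
    have := h2 a ha
    have := h2 b hb
    have := h2 _ (H.mul_mem ha hb)
    omega
  · rw [map_mul, h1 a ha, h1 b hb, h1 _ (H.mul_mem ha hb)]

theorem lift_pow {y : V.Y} {γ : V.Γ} {s : ℕ} (hs : s ≤ R) (hr : 3 * ψ s ≤ R)
    (h : ∀ i : ℤ, V.dW (V.Φ y) (γ ^ i • V.Φ y) ≤ s) :
    ∃ g : G, V.θ g = γ ∧ ∀ i : ℤ, V.d y (g ^ i • y) ≤ ψ s := by
  obtain ⟨l, l1, l2⟩ := K.lift_sub (Subgroup.zpowers γ) hs hr (by
    rintro _ ⟨i, rfl⟩
    exact h i)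
  have m : ∀ i : ℤ, γ ^ i ∈ Subgroup.zpowers γ := fun i => ⟨i, rfl⟩
  have e := map_zpow (MonoidHom.mk' (fun a : Subgroup.zpowers γ => l a)
    fun a b => l2 a a.2 b b.2) ⟨γ, Subgroup.mem_zpowers γ⟩
  exact ⟨l γ, (l1 γ (Subgroup.mem_zpowers γ)).1, fun i => by
    have := e i
    change l (γ ^ i) = l γ ^ i at this
    rw [← this]
    exact (l1 _ (m i)).2⟩

end Dk

end Pool.Agent.Lib.MP_a2eab4_al.Re
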