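import Pool.Agent.Lib.MP_a2eab4_al.RhB

set_option autoImplicit false
set_option linter.unusedSectionVars false

/-! The local invariants of the new group. -/

namespace Pool.Agent.Lib.MP_a2eab4_al.Re

open Pool.Agent.Lib.MP_429c3d_al Pool.Agent.Lib.MP_429c3d_al.Hyp Pool.Agent.Lib.MP_429c3d_al.Ng

theorem walk {X : Type} {d : X → X → ℕ} (gr : IsGr d) (x y : X) {Q : X → Prop} (h0 : Q x)
    (hs : ∀ u v, d x v + d v y = d x y → d u v ≤ 1 → Q u → Q v) : Q y := by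
  obtain ⟨g, g0, g1, g2⟩ := gr.exists_geo x y
  have key : ∀ i, i ≤ d x y → Q (g i) := by
    intro i
    induction i with
    | zero => exact fun _ => g0 ▸ h0
    | succ i ih =>
      intro hi
      have e1 := g2 0 (i + 1) le_rfl (Nat.zero_le _) hi
      have e2 := g2 (i + 1) _ (Nat.zero_le _) hi le_rfl
      have e3 := g2 i (i + 1) (Nat.zero_le _) (by omega) hi
      rw [g0] at e1
      rw [g1] at e2
      exact hs _ _ (by omega) (by omega) (ih (by omega))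
  have := key _ le_rfl
  rwa [g1] at this

/-- `R` is large compared with `X`. -/
def Lg (ψ : ℕ → ℕ) (m X R : ℕ) : Prop := ∀ n, n ≤ X → n < R ∧ m * ψ n ≤ R

theorem Lg.mono {ψ : ℕ → ℕ} {m X R m' X' : ℕ} (h : Lg ψ m X R) (hm : m' ≤ m) (hX : X' ≤ X) :
    Lg ψ m' X' R := fun n hn =>
  ⟨(h n (hn.trans hX)).1, (Nat.mul_le_mul_right _ hm).trans (h n (hn.trans hX)).2⟩

/-- The working scale. -/
def sc (k : ℕ) : ℕ := b1 k + 60 * (k + 1)

/-- The scale after a projection. -/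
def s1 (D s : ℕ) : ℕ := (D + 1) * (s + 1)

/-- The distance to the next fixed fibre of the cusped space. -/
def e0 (DT c s : ℕ) : ℕ := ub DT (s + c) (s + c)

/-- The scale at the next plain point. -/
def sp (DT c s : ℕ) : ℕ := 3 * s + 4 * c + 2 * e0 DT c s

/-- The acylindricity constant. -/
def ua (D DT c f s : ℕ) : ℕ := (c * f + 2 * s + 4 * c + 1) * (th D s + ub DT (s1 D s) f + 1)

/-- The root constant. -/
def up (D DT c f s : ℕ) : ℕ :=
  (c * f + 1) * (th D (sp DT c s) + 2 * e0 DT c (s1 D (sp DT c s)) + 2 * c + D + 1) + sp DT c s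

variable {G : Type} [Group G] {kB kF D k kT kC DT c L f P N Kk S R : ℕ}

theorem Fc.fix_bd {V : Nw G kB kF D k} {F : Fbr kT kC DT c L f P N Kk S R} (u : Fc V F) {j : F.J}
    {x : V.W} {s : ℕ} (h : V.dW x (u.io j ^ P • x) ≤ s) (hs : s1 D s < L) : Bd V.dW (u.io j) := by
  obtain ⟨w, hw⟩ := u.exists_prj x
  obtain ⟨z, hz⟩ := F.fix_of_pow (a := j) (w := w)
    ((u.prj_dis hw (by rwa [map_pow])).trans_lt hs)
  exact u.bd_of_fix hz

theorem Fc.satz {V : Nw G kB kF D k} {F : Fbr kT kC DT c L f P N Kk S R} (u : Fc V F) {g : G}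
    {i : ℤ} (hi : i ≠ 0) {a : F.J} (ha : a • F.o = F.o) (e : g ^ i = u.ρ a) :
    ∃ a', a' • F.o = F.o ∧ g = u.ρ a' := by
  rcases Int.natAbs_eq i with h | h
  · exact u.sat g i.natAbs a (by omega) ha (by rw [← zpow_natCast, ← h, e])
  · exact u.sat g i.natAbs a⁻¹ (by omega) (by rw [inv_smul_eq_iff, ha])
      (by rw [map_inv, ← e, ← zpow_neg, ← zpow_natCast]; congr 1; omega)

namespace Dk

variable {V : Nw G kB kF D k} {I : Type} {F : I → Fbr kT kC DT c L f P N Kk S R}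
  {t : ∀ p, Fc V (F p)} {ψ : ℕ → ℕ} (K : Dk V F t ψ)
include K

/-- Elements that are short at two points over different points are short at a plain point. -/
theorem pl2 {U : Set V.Γ} {x z : V.W} {s : ℕ} (hx : ∀ a ∈ U, V.dW x (a • x) ≤ s)
    (hz : ∀ a ∈ U, V.dW z (a • z) ≤ s) (hne : V.bar z ≠ V.bar x) (hs : s + c < R) :
    ∃ y, (∀ a ∈ U, V.dW (V.Φ y) (a • V.Φ y) ≤ s1 D s + 3 * s + 4 * c) ∧
      V.dB (V.bar x) (V.bar (V.Φ y)) ≤ s + 2 * c ∧
      V.dW x (V.Φ y) ≤ s1 D (V.dW x z) + s + 2 * c := by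
  rcases K.dich x hs with ⟨p, g, w, rfl, hd⟩ | ⟨y, hy⟩
  · generalize (t p).smul g = u at *
    rw [u.bar_ι] at hne ⊢
    obtain ⟨w', hw⟩ := u.exists_prj z
    have e1 := u.prj_dp hw hne
    obtain ⟨y, y1, y2⟩ := u.near (w := w') (by omega)
    have e2 := V.blow.prj_lip (u.prj_ι w) hw
    have e3 := u.leC w w'
    have e4 := V.mW.tri (u.ι w) (u.ι w') (V.Φ y)
    rw [u.dF_ι] at e2
    refine ⟨y, fun a ha => ?_, by rw [y1, V.mB.self]; omega, by unfold s1; omega⟩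
    have := hx a ha
    obtain ⟨j, rfl, -⟩ := u.fix_inner (w := w) (γ := a) (by omega)
    have b1 := u.prj_dis hw (hz _ ha)
    have b2 := u.dis_le j w'
    have b3 := dis_move V.mW V.iW (u.io j) (V.Φ y) (u.ι w')
    rw [V.mW.symm (V.Φ y) (u.ι w')] at b3
    unfold s1
    omega
  · refine ⟨y, fun a ha => ?_, (V.blow.bar_le _ _).trans (by omega), by omega⟩
    have b1 := hx a ha
    have b3 := dis_move V.mW V.iW a (V.Φ y) x
    rw [V.mW.symm (V.Φ y) x] at b3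
    omega

theorem aiV {X : ℕ} (hL : s1 D (sc k) + ψ (s1 D (sc k) + 3 * sc k + 4 * c) ≤ L) (hX : Lg ψ 10 X R)
    (h : 2 * s1 D (ua D DT c f (sc k) + 1) + ua D DT c f (sc k) + s1 D (sc k) + 3 * sc k + 4 * c +
      1 ≤ X) : AI V.Γ V.dW (b1 k) (ua D DT c f (sc k)) := by
  intro a b x x' hab h1 h2 h3 h4
  have hs : sc k = b1 k + 60 * (k + 1) := rfl
  generalize sc k = s at *
  obtain ⟨U, hU⟩ : ∃ U, U = ua D DT c f s := ⟨_, rfl⟩
  rw [← hU] at h ⊢
  by_contra hc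
  obtain ⟨z, z1, z2⟩ := V.gr.geo.mid V.mW x x' (s := U + 1) (by omega)
  have a1 : V.dW z (a • z) ≤ s :=
    (dis_btw V.gr V.hyp V.iW a (z := z) (by omega) h1 h3).trans (by omega)
  have a2 : V.dW z (b • z) ≤ s :=
    (dis_btw V.gr V.hyp V.iW b (z := z) (by omega) h2 h4).trans (by omega)
  replace h1 : V.dW x (a • x) ≤ s := by omega
  replace h2 : V.dW x (b • x) ≤ s := by omega
  have hb : V.dB (V.bar x) (V.bar z) ≤ c * f + 2 * s + 4 * c := by
    by_cases e : V.bar z = V.bar x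
    · rw [e, V.mB.self]
      omega
    have hx : ∀ u ∈ ({a, b} : Set V.Γ), V.dW x (u • x) ≤ s := by rintro u (rfl | rfl) <;> assumption
    have hz : ∀ u ∈ ({a, b} : Set V.Γ), V.dW z (u • z) ≤ s := by rintro u (rfl | rfl) <;> assumption
    have r0 := hX (s + c) (by omega)
    obtain ⟨y, y1, y2, y3⟩ := K.pl2 hx hz e r0.1
    obtain ⟨y', p1, p2, p3⟩ := K.pl2 hz hx (Ne.symm e) r0.1
    rw [V.mW.symm z x] at p3
    rw [z1] at y3 p3
    have r1 := hX X le_rfl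
    have r2 := hX (s1 D s + 3 * s + 4 * c) (by omega)
    have t1 := V.mW.tri (V.Φ y) x (V.Φ y')
    have t2 := V.mW.tri x z (V.Φ y')
    rw [V.mW.symm (V.Φ y) x] at t1
    obtain ⟨n, n1, n2⟩ := K.onto (y := y) (y' := y') r1.1.le (by omega)
    obtain ⟨g, rfl, g1⟩ := K.lift r2.1.le (y1 a (by simp))
    obtain ⟨g', rfl, g2⟩ := K.lift r2.1.le (y1 b (by simp))
    rw [← V.Φ_ker n1 y'] at p1 p2
    have g3 := K.transfer (y := y) r2.1.le (p1 (V.θ g) (by simp)) (by omega)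
    have g4 := K.transfer (y := y) r2.1.le (p1 (V.θ g') (by simp)) (by omega)
    have bl : ∀ (u : G) (p : V.Y), V.d p (u • p) ≤ ψ (s1 D s + 3 * s + 4 * c) →
        V.dU (V.π p) (u • V.π p) ≤ L := fun u p e => (V.dis_π u p).trans (by omega)
    have e1 := (K.leB y (n • y')).trans (Nat.mul_le_mul_left c
      (K.ai g g' _ _ (fun e => hab (e.map V.θ)) (bl _ _ g1) (bl _ _ g2) (bl _ _ g3) (bl _ _ g4)))
    have t3 := V.mB.tri (V.bar x) (V.bar (V.Φ y)) (V.bar z)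
    have t4 := V.mB.tri (V.bar (V.Φ y)) (V.bar (V.Φ (n • y'))) (V.bar z)
    rw [V.mB.symm (V.bar z)] at p2
    omega
  have := (V.blow.upper (Θ := th D s + ub DT (s1 D s) f) (y := x) (y' := z) fun v hF => by
    have f1 := V.blow.TP V.bact h1 a1 (hF.mono (by unfold th; omega))
    have f2 := V.blow.TP V.bact h2 a2 (hF.mono (by unfold th; omega))
    obtain ⟨p, p', b1, b2, b3⟩ := hF
    obtain ⟨i, u, w, w', rfl, rfl, rfl⟩ := K.cone b1.1 b2.1 (by omega)
    obtain ⟨a, rfl⟩ := u.stab a f1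
    obtain ⟨b, rfl⟩ := u.stab b f2
    have := (F i).aiC (fun e : Commute a b => hab (e.map u.io)) (u.prj_dis b1 h1) (u.prj_dis b1 h2)
      (u.prj_dis b2 a1) (u.prj_dis b2 a2) (by unfold s1 at hL; omega)
    rw [u.dF_ι] at b3
    unfold s1 at b3
    omega).trans (Nat.mul_le_mul_right _ (Nat.add_le_add_right hb 1))
  unfold ua at hU
  omega

theorem tfV {X : ℕ} (hX : Lg ψ 10 X R) (h : 6 * k + 4 * c + 3 ≤ X) : TF V.Γ := by
  intro g n hn e
  have hb : Bd V.dW g := Bd.of_pow V.mW V.iW hn (e ▸ Bd.of_fix V.mW (one_smul _ V.ne.some))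
  obtain ⟨x, hx⟩ := hb.centre V.gr V.hyp V.iW
  have r1 := hX X le_rfl
  rcases K.dich x (s := 2 * k + 1 + c) (by omega) with ⟨p, a, w, rfl, hd⟩ | ⟨y, hy⟩
  · have := hx 1
    rw [zpow_one] at this
    obtain ⟨j, rfl, -⟩ := ((t p).smul a).fix_inner (w := w) (γ := g) (by omega)
    rw [(F p).tf j n hn (((t p).smul a).inj (by rw [map_pow, e, map_one])), map_one]
  obtain ⟨a, rfl, ha⟩ := K.lift_pow (y := y) (γ := g) r1.1.le (by omega) fun i => by
    have := dis_move V.mW V.iW (g ^ i) (V.Φ y) x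
    have := hx i
    rw [V.mW.symm] at hy
    omega
  have := ha n
  rw [zpow_natCast] at this
  rw [K.tf a n hn (K.inj _ y (by rw [map_pow, e]) (by omega)), map_one]

theorem pe2V {X : ℕ} (hP : P ≠ 0) (hL : s1 D (3 * sc k + 4 * c) + ψ (3 * sc k + 4 * c) < L)
    (hX : Lg ψ (P + 1) X R) (h : 3 * sc k + 4 * c ≤ X) : PE2 V.Γ V.dW (b1 k) P := by
  intro g hg x
  have hs : sc k = b1 k + 60 * (k + 1) := rfl
  generalize sc k = s at *
  by_contra hc
  obtain ⟨x', h1, h2⟩ := root_short V.gr V.hyp V.iW g P hP (x := x) (B := b1 k) (by omega)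
  have r1 := hX (3 * s + 4 * c) h
  rw [Nat.add_mul] at r1
  rcases K.dich x' (s := s + c) (by omega) with ⟨p, a, w, rfl, hd⟩ | ⟨y, hy⟩
  · obtain ⟨j, rfl, -⟩ := ((t p).smul a).fix_inner (w := w) (γ := g) (by omega)
    exact hg (((t p).smul a).fix_bd (s := 3 * s + 4 * c) (h2.trans (by omega)) (by omega))
  rw [V.mW.symm] at hy
  have b1 := dis_move V.mW V.iW g (V.Φ y) x'
  have b2 := dis_move V.mW V.iW (g ^ P) (V.Φ y) x'
  replace b1 : V.dW (V.Φ y) (g • V.Φ y) ≤ 3 * s + 4 * c := by omega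
  replace b2 : V.dW (V.Φ y) (g ^ P • V.Φ y) ≤ 3 * s + 4 * c := by omega
  obtain ⟨a, rfl, ha⟩ := K.lift r1.1.le b1
  have e1 : ∀ n : ℕ, V.d y (a ^ n • y) ≤ n * ψ (3 * s + 4 * c) := fun n => by
    induction n with
    | zero => simp [V.met.self]
    | succ n ih =>
      have := dis_mul V.met V.iso (a ^ n) a y
      rw [pow_succ, Nat.add_mul]
      omega
  have e2 := K.transfer (y := y) (y' := y) (g := a ^ P) r1.1.le (by rwa [map_pow])
    (by have := e1 P; rw [V.met.self]; omega)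
  have hb : Bd V.dU a := by
    by_contra hn
    have := K.pe2 a hn (V.π y)
    have := V.dis_π (a ^ P) y
    omega
  obtain ⟨M, hM⟩ := hb.any V.metU V.isoU (V.π y)
  refine hg ⟨V.Φ y, (c * M + 1) * (th D (3 * s + 4 * c) + 1), fun i => ?_⟩
  have e3 := K.leB y (a ^ i • y)
  rw [V.π_smul, V.Φ_smul, map_zpow] at e3
  refine (V.blow.upper fun v hF => ?_).trans (Nat.mul_le_mul_right _
    (Nat.succ_le_succ (e3.trans (Nat.mul_le_mul_left c (hM i)))))
  have f1 := V.blow.TP V.bact b1 (y' := V.θ a ^ i • V.Φ y) (by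
    rwa [smul_smul, (Commute.self_zpow (V.θ a) i).eq, mul_smul, V.iW]) (hF.mono (Nat.le_succ _))
  obtain ⟨p, p', c1, c2, c3⟩ := hF
  obtain ⟨i, u, w, w', rfl, rfl, rfl⟩ := K.cone c1.1 c2.1 (by omega)
  obtain ⟨j, e⟩ := u.stab _ f1
  rw [e] at hg b2
  exact hg (u.fix_bd b2 (by omega))

/-- A root of an element of a vertex group fixes the cone point. -/
theorem rt {i : I} (u : Fc V (F i)) {γ : V.Γ} {n : ℤ} (hn : n ≠ 0) {a j : (F i).J}
    (ha : a • j • (F i).o = j • (F i).o) (e : γ ^ n = u.io a) {s : ℕ} (hs : s ≤ R)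
    (hr : 3 * ψ s + c ≤ R)
    (h : ∀ m : ℤ, V.dW (u.ι (j • (F i).b)) (γ ^ m • u.ι (j • (F i).b)) ≤ s) :
    ∃ j0, γ = u.io j0 := by
  obtain ⟨g, g1, g2⟩ := u.plain j
  rw [← g2] at h
  obtain ⟨g0, rfl, h0⟩ := K.lift_pow hs (by omega) h
  have e1 := (u.smul g).ρ_short _ (conj_fix.1 ha)
  have e2 := h0 n
  obtain ⟨a', a1, a2⟩ := (u.smul g).satz (g := g0) hn (conj_fix.1 ha) (K.eq (y := g • u.y)
    (by change _ + V.d (u.smul g).y (_ • (u.smul g).y) ≤ R; omega) (by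
      rw [(u.smul g).θρ _ (conj_fix.1 ha), map_zpow, e, u.smul_io, g1]
      simp [mul_assoc]))
  exact ⟨j * a' * j⁻¹, by rw [a2, (u.smul g).θρ _ a1, u.smul_io, g1]; simp⟩

end Dk

end Pool.Agent.Lib.MP_a2eab4_al.Re
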