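import Pool.Agent.Lib.MP_a2eab4_al.RhC

set_option autoImplicit false
set_option linter.unusedSectionVars false

/-! Roots of elliptic elements of the new group. -/

namespace Pool.Agent.Lib.MP_a2eab4_al.Re

open Pool.Agent.Lib.MP_429c3d_al Pool.Agent.Lib.MP_429c3d_al.Hyp Pool.Agent.Lib.MP_429c3d_al.Ng

/-- The a priori scale of the root argument. -/
def xp (D DT c f s A : ℕ) : ℕ :=
  3 * A + 3 * sp DT c s + 2 * up D DT c f s + 2 * s1 D (A + sp DT c s) +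
    4 * e0 DT c (s1 D (sp DT c s)) + 10 * c

variable {G : Type} [Group G] {kB kF D k kT kC DT c L f P N Kk S R : ℕ}

namespace Dk

variable {V : Nw G kB kF D k} {I : Type} {F : I → Fbr kT kC DT c L f P N Kk S R}
  {t : ∀ p, Fc V (F p)} {ψ : ℕ → ℕ} (K : Dk V F t ψ)
include K

theorem pe_in (hL : 2 * kT + 2 ≤ L) {i : I} (u : Fc V (F i)) {γ : V.Γ} (hg : Bd V.dW γ) {j : ℤ}
    (hj : j ≠ 0) {w : (F i).C} {s A X : ℕ} (h : V.dW (u.ι w) (γ ^ j • u.ι w) ≤ s)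
    (hA : ∀ m : ℤ, V.dW (u.ι w) (γ ^ m • u.ι w) ≤ A) (hd : s + c + e0 DT c s < (F i).dp w)
    (hX : Lg ψ 10 X R) (hx : 3 * A + 4 * e0 DT c s + 10 * c ≤ X) (m : ℤ) :
    V.dW (u.ι w) (γ ^ m • u.ι w) ≤ e0 DT c s := by
  obtain ⟨a, e1, e2⟩ := u.fix_inner (w := w) (γ := γ ^ j) (by omega)
  have r1 := hX X le_rfl
  have key : ∃ j0, γ = u.io j0 := by
    by_cases hc : A + c < (F i).dp w
    · have := hA 1
      rw [zpow_one] at this
      exact (u.fix_inner (w := w) (γ := γ) (by omega)).imp fun _ e => e.1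
    obtain ⟨α, hα⟩ := (F i).bd_fix hL (u.bd_io (e1 ▸ hg.zpow j))
    by_cases hn : (F i).Ap a
    · obtain ⟨β, b1, b2⟩ := hn
      obtain ⟨w', j1, c1, c2, c3⟩ := (F i).nearO (U := {a}) (s := s) (w := w)
        (by rintro _ rfl; omega) b1 (by rintro _ rfl; exact b2) (by unfold e0 at hd; omega)
      have d1 := (F i).bot' c1
      have d2 := (F i).dp_le w' w
      have d3 := (F i).mC.tri w w' (j1 • (F i).b)
      have d4 := u.leC w (j1 • (F i).b)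
      rw [(F i).mC.symm w' w] at d2
      rw [V.mW.symm] at d4
      refine K.rt u hj (c2 a rfl) e1 r1.1.le (by omega) fun m => ?_
      have := dis_move V.mW V.iW (γ ^ m) (u.ι (j1 • (F i).b)) (u.ι w)
      have := hA m
      unfold e0 at hx
      omega
    · have := (F i).md hα hn (e2.trans h)
      unfold e0 at hx
      omega
  obtain ⟨j0, rfl⟩ := key
  obtain ⟨α, hα⟩ := (F i).bd_fix hL (u.bd_io hg)
  obtain rfl : j0 ^ j = a := u.inj (by rw [map_zpow, e1])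
  rw [← map_zpow]
  exact (u.dis_le _ w).trans ((F i).peC hα hj (e2.trans h) m)

theorem pe_pl (hL : 2 * kT + 2 ≤ L) {γ : V.Γ} (hg : Bd V.dW γ) {j : ℤ} (hj : j ≠ 0) {y : V.Y}
    {s A X Θ : ℕ} (hs : ψ s ≤ L) (h : V.dW (V.Φ y) (γ ^ j • V.Φ y) ≤ s)
    (hA : ∀ m : ℤ, V.dW (V.Φ y) (γ ^ m • V.Φ y) ≤ A)
    (hΘ : Θ = th D s + 2 * e0 DT c (s1 D s) + 2 * c + D) (hX : Lg ψ 10 X R)
    (hx : A + s + 2 * ((c * f + 1) * (Θ + 1)) + 2 * s1 D A + 4 * e0 DT c (s1 D s) + 10 * c ≤ X)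
    (m : ℤ) : V.dW (V.Φ y) (γ ^ m • V.Φ y) ≤ (c * f + 1) * (Θ + 1) := by
  have r1 := hX X le_rfl
  have r2 := hX A (by omega)
  have r3 := hX s (by omega)
  obtain ⟨g, rfl, hg'⟩ := K.lift_pow r2.1.le (by omega) hA
  have e1 := K.transfer (y := y) (y' := y) (g := g ^ j) r3.1.le (by rwa [map_zpow])
    (by have := hg' j; rw [V.met.self]; omega)
  have e2 := (K.leB y (g ^ m • y)).trans (Nat.mul_le_mul_left c (show _ ≤ f by
    rw [V.π_smul]
    exact K.pe1 g j (V.π y) ⟨V.π y, _, fun i => (V.dis_π _ y).trans (hg' i)⟩ hj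
      ((V.dis_π _ y).trans (by omega)) m))
  have e3 : V.θ g ^ m • V.Φ y = V.Φ (g ^ m • y) := by rw [V.Φ_smul, map_zpow]
  have h' : V.dW (V.θ g ^ m • V.Φ y) (V.θ g ^ j • V.θ g ^ m • V.Φ y) ≤ s := by
    rwa [smul_smul, (Commute.zpow_zpow_self (V.θ g) j m).eq, mul_smul, V.iW]
  rw [← e3] at e2
  rcases V.blow.first_far Θ (V.Φ y) (V.θ g ^ m • V.Φ y) with e | ⟨v, p, p', b1, b2, b3, b4, b5⟩
  · exact e.trans (Nat.mul_le_mul_right _ (by omega))
  exfalso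
  have f1 := V.blow.TP V.bact h h' ⟨p, p', b1, b2, by unfold th at hΘ; omega⟩
  replace b5 := b5.trans (Nat.mul_le_mul_right (Θ + 1) (show _ ≤ c * f + 1 by omega))
  obtain ⟨i, u, w, w', rfl, rfl, rfl⟩ := K.cone b1.1 b2.1 (by omega)
  obtain ⟨a, ea⟩ := u.stab _ f1
  have s1 : (F i).dC w (a • w) ≤ s1 D s := u.prj_dis b1 (ea ▸ h)
  have s2 : (F i).dC w' (a • w') ≤ Re.s1 D s := u.prj_dis b2 (ea ▸ h')
  have d1 := u.prj_pl b1
  have d2 := u.prj_pl (e3 ▸ b2)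
  have d3 : V.dF (u.ι w) (u.ι w') ≤ Re.s1 D A :=
    (V.blow.prj_lip b1 b2).trans (Nat.mul_le_mul_left _ (Nat.add_le_add_right (hA m) 1))
  rw [u.dF_ι] at b3 d3
  obtain ⟨E, hE⟩ : ∃ E, E = e0 DT c (Re.s1 D s) := ⟨_, rfl⟩
  rw [← hE] at hΘ hx
  have fin : ∀ j1 : (F i).J, a • j1 • (F i).o = j1 • (F i).o →
      (F i).dC w (j1 • (F i).b) ≤ Re.s1 D A + 2 * E + 2 * c → False := by
    intro j1 c1 c2
    have t1 := u.leC w (j1 • (F i).b)
    have t2 := V.mW.tri (V.Φ y) (u.ι w) (u.ι (j1 • (F i).b))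
    rw [V.mW.symm] at t2
    obtain ⟨j0, e0'⟩ := K.rt u hj c1 ea r1.1.le (by omega) fun n => by
      have := dis_move V.mW V.iW (V.θ g ^ n) (u.ι (j1 • (F i).b)) (V.Φ y)
      have := hA n
      omega
    rw [e0'] at hg ea b2
    obtain ⟨α, hα⟩ := (F i).bd_fix hL (u.bd_io hg)
    obtain rfl : j0 ^ j = a := u.inj (by rw [map_zpow, ea])
    have t3 : _ ≤ e0 DT c (Re.s1 D s) := (F i).peC hα hj s1 m
    have t4 := V.blow.prj_uniq (u.prj_io b1 (j0 ^ m)) (by rwa [map_zpow])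
    have t5 := (F i).mC.tri w (j0 ^ m • w) w'
    rw [u.dF_ι] at t4
    omega
  obtain ⟨α, hα⟩ := (F i).bd_fix hL (u.bd_io (ea ▸ hg.zpow j))
  by_cases hn : (F i).Ap a
  swap
  · have : _ ≤ _ + e0 DT c (Re.s1 D s) := (F i).md hα hn s1
    omega
  obtain ⟨β, β1, β2⟩ := hn
  have nr : ∀ z : (F i).C, (F i).dC z (a • z) ≤ Re.s1 D s → (F i).dp z ≤ c →
      (F i).dC w z ≤ Re.s1 D A → ∃ j1 : (F i).J, a • j1 • (F i).q = j1 • (F i).q ∧
        ∀ j2 : (F i).J, j1 • (F i).q = j2 • (F i).q → (F i).dC z (j2 • (F i).b) ≤ E + c := by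
    intro z z1 z2 z3
    obtain ⟨z', c1, c2, c3⟩ := (F i).nearA (U := {a}) (w := z) (by rintro _ rfl; exact z1) β1
      (by rintro _ rfl; exact β2)
    replace c3 : _ ≤ e0 DT c (Re.s1 D s) := c3
    have t1 := (F i).dp_le z' z
    rw [(F i).mC.symm z' z] at t1
    obtain ⟨j1, e | e | e⟩ := (F i).cover ((F i).bar z')
    · have t2 := (F i).bot' e
      have t3 := (F i).mC.tri z z' (j1 • (F i).b)
      have t4 := (F i).mC.tri w z (j1 • (F i).b)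
      exact (fin j1 (e ▸ c2 a rfl) (by omega)).elim
    · refine ⟨j1, e ▸ c2 a rfl, fun j2 e' => ?_⟩
      have t2 := (F i).dq' (e.trans e')
      have t3 := (F i).mC.tri z z' (j2 • (F i).b)
      omega
    · exact absurd (((F i).ap_iff j1 _).1 (e ▸ c1)) (F i).ap_τ
  obtain ⟨j1, c1, c2⟩ := nr w s1 d1 (by rw [(F i).mC.self]; omega)
  obtain ⟨j2, c3, c4⟩ := nr w' s2 d2 d3
  have c5 := c2 j1 rfl
  rcases (F i).h2' c1 c3 with e | e
  · have c6 := c4 j1 e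
    have c7 := (F i).mC.tri w (j1 • (F i).b) w'
    have c8 := (F i).mC.symm w' (j1 • (F i).b)
    omega
  · exact fin j1 (e _) (by omega)

theorem pe_step (hL : 2 * kT + 2 ≤ L) {γ : V.Γ} (hg : Bd V.dW γ) {j : ℤ} (hj : j ≠ 0) {x : V.W}
    {s A X : ℕ} (hs : ψ (sp DT c s) ≤ L) (h : V.dW x (γ ^ j • x) ≤ s)
    (hA : ∀ m : ℤ, V.dW x (γ ^ m • x) ≤ A) (hX : Lg ψ 10 X R) (hx : xp D DT c f s A ≤ X) (m : ℤ) :
    V.dW x (γ ^ m • x) ≤ up D DT c f s := by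
  have e1 : sp DT c s = 3 * s + 4 * c + 2 * e0 DT c s := rfl
  have e2 : up D DT c f s = (c * f + 1) *
    (th D (sp DT c s) + 2 * e0 DT c (s1 D (sp DT c s)) + 2 * c + D + 1) + sp DT c s := rfl
  unfold xp at hx
  have r1 := hX X le_rfl
  rcases K.dich x (s := s + c + e0 DT c s) (by omega) with ⟨p, g, w, rfl, hd⟩ | ⟨y, hy⟩
  · exact (K.pe_in hL _ hg hj h hA hd hX (by omega) m).trans (by omega)
  have mv := fun a : V.Γ => dis_move V.mW V.iW a (V.Φ y) x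
  rw [V.mW.symm _ x] at mv
  have := K.pe_pl hL hg hj (y := y) (A := A + sp DT c s) hs (by have := mv (γ ^ j); omega)
    (fun n => by have := mv (γ ^ n); have := hA n; omega) rfl hX (by omega) m
  have := dis_move V.mW V.iW (γ ^ m) x (V.Φ y)
  omega

theorem pe1V (hL : 2 * kT + 2 ≤ L) (hs : ψ (sp DT c (sc k)) ≤ L) {A X : ℕ}
    (hA : up D DT c f (sc k) + 2 * k + 1 ≤ A) (hX : Lg ψ 10 X R)
    (hx : xp D DT c f (sc k) (A + 2) ≤ X) : PE1 V.Γ V.dW (b1 k) A := by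
  intro g j x hg hj h
  have hs' : sc k = b1 k + 60 * (k + 1) := rfl
  have hb : b1 k = 1000 * (k + 1) := rfl
  obtain ⟨x0, h0⟩ := hg.centre V.gr V.hyp V.iW
  refine walk V.gr x0 x (Q := fun u => ∀ i : ℤ, V.dW u (g ^ i • u) ≤ A)
    (fun i => (h0 i).trans (by omega)) fun u v hv huv ih i => ?_
  have a1 := dis_btw V.gr V.hyp V.iW (g ^ j) hv ((h0 j).trans (by omega)) h
  refine (K.pe_step hL hg hj hs (by omega) (fun m => ?_) hX hx i).trans (by omega)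
  have := dis_move V.mW V.iW (g ^ m) v u
  have := ih m
  rw [V.mW.symm] at huv
  omega

theorem rge (hL : 2 * kT + 2 ≤ L) {A X : ℕ} (pe : PE1 V.Γ V.dW (b1 k) A) (hA : 2 * k + 1 ≤ A)
    (hX : Lg ψ 10 X R) (hx : 3 * A + 4 * c ≤ X) (g h : V.Γ) (j : ℕ) (hg : Bd V.dW g) (hj : j ≠ 0)
    (cm : Commute h (g ^ j)) : Commute h g := by
  have hb : b1 k = 1000 * (k + 1) := rfl
  have r1 := hX X le_rfl
  have e : g ^ j = (h * g * h⁻¹) ^ j := by rw [conj_pow, cm.mul_inv_cancel]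
  obtain ⟨x, h0⟩ := hg.centre V.gr V.hyp V.iW
  have hx' := pe (h * g * h⁻¹) j x (hg.conj V.iW h) (by omega) (by
    have := h0 j
    rw [zpow_natCast] at this ⊢
    rw [← e]
    omega)
  suffices e' : g = h * g * h⁻¹ from (eq_mul_inv_iff_mul_eq.1 e').symm
  generalize h * g * h⁻¹ = g' at e hx'
  rcases K.dich x (s := A + c) (by omega) with ⟨p, a, w, rfl, hd⟩ | ⟨y, hy⟩
  · generalize (t p).smul a = u at *
    have a1 := h0 1
    have a2 := hx' 1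
    rw [zpow_one] at a1 a2
    obtain ⟨a, rfl, -⟩ := u.fix_inner (w := w) (γ := g) (by omega)
    obtain ⟨b, rfl, -⟩ := u.fix_inner (w := w) (γ := g') (by omega)
    obtain ⟨α, hα⟩ := (F p).bd_fix hL (u.bd_io hg)
    rw [(F p).ur (g' := b) hα hj (u.inj (by rw [map_pow, map_pow, e]))]
  have mv := fun a : V.Γ => dis_move V.mW V.iW a (V.Φ y) x
  rw [V.mW.symm _ x] at mv
  obtain ⟨a, rfl, ha⟩ := K.lift_pow (y := y) (γ := g) r1.1.le (by omega) fun i => by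
    have := mv (g ^ i)
    have := h0 i
    omega
  obtain ⟨b, rfl, hb⟩ := K.lift_pow (y := y) (γ := g') r1.1.le (by omega) fun i => by
    have := mv (g' ^ i)
    have := hx' i
    omega
  have a1 := ha j
  have a2 := hb j
  rw [zpow_natCast] at a1 a2
  have e' := K.eq (y := y) (g := a ^ j) (g' := b ^ j) (by omega) (by rw [map_pow, map_pow, e])
  rw [root_eq K.tf hj (K.rg b a j hj (e' ▸ Commute.self_pow a j)) e']

end Dk

end Pool.Agent.Lib.MP_a2eab4_al.Re
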