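import Pool.Agent.Lib.MP_a2eab4_al.RhD

set_option autoImplicit false
set_option linter.unusedSectionVars false

/-! Frames of abelian subgroups of the new group are conjugate. -/

namespace Pool.Agent.Lib.MP_a2eab4_al.Re

open Pool.Agent.Lib.MP_429c3d_al Pool.Agent.Lib.MP_429c3d_al.Hyp Pool.Agent.Lib.MP_429c3d_al.Ng

variable {G : Type} [Group G] {kB kF D k kT kC DT c L f P N Kk S R : ℕ}

/-- Conjugate on `H`. -/
def Rel {Γ : Type} [Group Γ] (H : Subgroup Γ) (φ φ' : Γ → G) : Prop :=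
  ∃ n : G, ∀ γ ∈ H, φ' γ = n * φ γ * n⁻¹

theorem Rel.symm {Γ : Type} [Group Γ] {H : Subgroup Γ} {φ φ' : Γ → G} (h : Rel H φ φ') :
    Rel H φ' φ := by
  obtain ⟨n, h⟩ := h
  exact ⟨n⁻¹, fun γ hγ => by rw [h γ hγ]; group⟩

theorem Rel.trans {Γ : Type} [Group Γ] {H : Subgroup Γ} {φ φ' φ'' : Γ → G} (h : Rel H φ φ')
    (h' : Rel H φ' φ'') : Rel H φ φ'' := by
  obtain ⟨n, h⟩ := h
  obtain ⟨n', h'⟩ := h'
  exact ⟨n' * n, fun γ hγ => by rw [h' γ hγ, h γ hγ]; group⟩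

variable {V : Nw G kB kF D k} {I : Type} {F : I → Fbr kT kC DT c L f P N Kk S R}

/-- `φ` is a frame of `H` at the point `x`. -/
def Att (t : ∀ p, Fc V (F p)) (ψ : ℕ → ℕ) (B : ℕ) (H : Subgroup V.Γ) (φ : V.Γ → G) (x : V.W) :
    Prop :=
  (∀ γ ∈ H, V.θ (φ γ) = γ) ∧
    ((∃ y, V.dW x (V.Φ y) ≤ B + 2 * c + e0 DT c B ∧ ∀ γ ∈ H, V.d y (φ γ • y) ≤ ψ (sp DT c B)) ∨
      ∃ (p : I) (g : G) (a : V.Γ → (F p).J) (w : (F p).C),
        (∀ γ ∈ H, a γ • (F p).o = (F p).o ∧ φ γ = ((t p).smul g).ρ (a γ)) ∧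
          (F p).bar w = (F p).o ∧ V.dW x (((t p).smul g).ι w) ≤ e0 DT c B)

variable {t : ∀ p, Fc V (F p)} {ψ : ℕ → ℕ}

theorem Att.mono {B : ℕ} {H H' : Subgroup V.Γ} {φ : V.Γ → G} {x : V.W} (h : Att t ψ B H φ x)
    (hH : H' ≤ H) : Att t ψ B H' φ x :=
  ⟨fun γ hγ => h.1 γ (hH hγ), h.2.imp
    (fun ⟨y, h1, h2⟩ => ⟨y, h1, fun γ hγ => h2 γ (hH hγ)⟩)
    fun ⟨p, g, a, w, h1, h2⟩ => ⟨p, g, a, w, fun γ hγ => h1 γ (hH hγ), h2⟩⟩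

theorem Att.conj {B : ℕ} {H H' : Subgroup V.Γ} {φ : V.Γ → G} {x : V.W} (h : Att t ψ B H φ x)
    (g : G) (hH : ∀ γ ∈ H', (V.θ g)⁻¹ * γ * V.θ g ∈ H) :
    Att t ψ B H' (fun γ => g * φ ((V.θ g)⁻¹ * γ * V.θ g) * g⁻¹) (V.θ g • x) := by
  refine ⟨fun γ hγ => by rw [map_mul, map_mul, map_inv, h.1 _ (hH γ hγ)]; group, h.2.imp ?_ ?_⟩
  · rintro ⟨y, h1, h2⟩
    exact ⟨g • y, by rwa [V.Φ_smul, V.iW], fun γ hγ => by
      rw [dis_conj V.iso]; exact h2 _ (hH γ hγ)⟩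
  · rintro ⟨p, g', a, w, h1, h2, h3⟩
    refine ⟨p, g * g', fun γ => a ((V.θ g)⁻¹ * γ * V.θ g), w, fun γ hγ => ⟨(h1 _ (hH γ hγ)).1, ?_⟩,
      h2, by rwa [Fc.smul_ι, map_mul, mul_smul, V.iW]⟩
    simp only [(h1 _ (hH γ hγ)).2, Fc.smul_ρ]
    group

theorem Fc.ρ_conj {F : Fbr kT kC DT c L f P N Kk S R} (u : Fc V F) (j a : F.J) :
    u.ρ (j * a * j⁻¹) = u.ρ a := by
  rw [map_mul, map_mul, map_inv, (u.ρ_comm j a).mul_inv_cancel]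

/-- A group that fixes a point of the main class has a frame at an inner point. -/
theorem att_in {B : ℕ} {H : Subgroup V.Γ} (p : I) (g : G) {w : (F p).C} {l : V.Γ → (F p).J}
    (hl : ∀ γ ∈ H, ((t p).smul g).io (l γ) = γ ∧ (F p).dC w (l γ • w) ≤ B)
    (hd : B + c + e0 DT c B < (F p).dp w) {β : (F p).Z} (b1 : (F p).ap β)
    (b2 : ∀ γ ∈ H, l γ • β = β) : ∃ φ, Att t ψ B H φ (((t p).smul g).ι w) ∧
      Rel H φ fun γ => ((t p).smul g).ρ (l γ) := by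
  obtain ⟨w', j, c1, c2, c3⟩ := (F p).nearO (U := l '' H) (s := B) (w := w)
    (by rintro _ ⟨γ, hγ, rfl⟩; exact (hl γ hγ).2) b1 (by rintro _ ⟨γ, hγ, rfl⟩; exact b2 γ hγ)
    (by unfold e0 at hd; omega)
  obtain ⟨g1, hg⟩ := V.surj ((t p).io j)
  have fx : ∀ γ ∈ H, (j⁻¹ * l γ * j) • (F p).o = (F p).o := fun γ hγ =>
    conj_fix.1 (c2 _ ⟨γ, hγ, rfl⟩)
  refine ⟨fun γ => ((t p).smul (g * g1)).ρ (j⁻¹ * l γ * j), ⟨fun γ hγ => ?_, Or.inr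
    ⟨p, g * g1, fun γ => j⁻¹ * l γ * j, j⁻¹ • w', fun γ hγ => ⟨fx γ hγ, rfl⟩, (F p).bar_inv c1, ?_⟩⟩,
    g * g1⁻¹ * g⁻¹, fun γ _ => ?_⟩
  · rw [Fc.θρ _ _ (fx γ hγ), Fc.smul_io, map_mul, hg]
    refine Eq.trans ?_ (hl γ hγ).1
    simp [Fc.smul_io, mul_assoc]
  · rw [Fc.smul_ι _ (g * g1), map_mul, hg, mul_smul, ← Fc.ι_smul, smul_inv_smul, ← Fc.smul_ι]
    exact (Fc.leC _ _ _).trans c3
  · have := (t p).ρ_conj j⁻¹ (l γ)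
    rw [inv_inv] at this
    simp only [Fc.smul_ρ, this]
    group

namespace Dk

variable (K : Dk V F t ψ)
include K

theorem att_pl {B X : ℕ} (hX : Lg ψ 10 X R) (hx : sp DT c B ≤ X) {H : Subgroup V.Γ} {x : V.W}
    (h : ∀ γ ∈ H, V.dW x (γ • x) ≤ B) {y : V.Y} (hy : V.dW x (V.Φ y) ≤ B + 2 * c + e0 DT c B) :
    ∃ φ, Att t ψ B H φ x ∧ (∀ γ ∈ H, V.d y (φ γ • y) ≤ ψ (sp DT c B)) ∧
      ∀ a ∈ H, ∀ b ∈ H, φ (a * b) = φ a * φ b := by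
  have r1 := hX _ hx
  obtain ⟨l, l1, l2⟩ := K.lift_sub (y := y) H r1.1.le (by omega) fun γ hγ => by
    have := dis_move V.mW V.iW γ (V.Φ y) x
    have := h γ hγ
    rw [V.mW.symm] at hy
    unfold sp
    omega
  exact ⟨l, ⟨fun γ hγ => (l1 γ hγ).1, Or.inl ⟨y, hy, fun γ hγ => (l1 γ hγ).2⟩⟩,
    fun γ hγ => (l1 γ hγ).2, l2⟩

/-- Frames near a plain point. -/
theorem rel_pl {B X Z s : ℕ} (hX : Lg ψ 10 X R) (hx : sp DT c B + 2 * Z + 10 * c + s ≤ X)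
    {H : Subgroup V.Γ} {x : V.W} {φ l : V.Γ → G} (h : Att t ψ B H φ x) {y : V.Y}
    (hy : V.dW x (V.Φ y) ≤ Z) (hl : ∀ γ ∈ H, V.θ (l γ) = γ ∧ V.d y (l γ • y) ≤ ψ s) :
    Rel H φ l := by
  have r1 := hX X le_rfl
  have r2 := hX s (by omega)
  have r3 := hX (sp DT c B) (by omega)
  have e0 : sp DT c B = 3 * B + 4 * c + 2 * e0 DT c B := rfl
  have fin : ∀ (y' : V.Y) (n : ℕ), V.dW (V.Φ y) (V.Φ y') ≤ X → 10 * n ≤ R →
      (∀ γ ∈ H, V.d y' (φ γ • y') ≤ n) → Rel H φ l := by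
    intro y' m h1 h2 h3
    obtain ⟨n, n1, n2⟩ := K.onto r1.1.le h1
    refine ⟨n, fun γ hγ => K.eq (y := y) ?_ ?_⟩
    · have e1 := dis_move V.met V.iso (n * φ γ * n⁻¹) y (n • y')
      rw [dis_conj V.iso] at e1
      have := h3 γ hγ
      have := (hl γ hγ).2
      omega
    · rw [map_mul, map_mul, map_inv, n1, (hl γ hγ).1, h.1 γ hγ]
      simp
  rw [V.mW.symm] at hy
  obtain ⟨-, ⟨y', h1, h2⟩ | ⟨p, g, a, w, h1, h2, h3⟩⟩ := h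
  · have := V.mW.tri (V.Φ y) x (V.Φ y')
    exact fin y' _ (by omega) r3.2 h2
  · generalize (t p).smul g = u at *
    have e1 := V.mW.tri (V.Φ y) x (u.ι w)
    have e2 := u.dp_le y w
    have e3 := (F p).bot w h2
    have e4 := u.leC w (F p).b
    have e5 := V.mW.tri (V.Φ y) (u.ι w) (u.ι (F p).b)
    rw [V.mW.symm (u.ι w)] at e2
    exact fin u.y c (by rw [u.Φ_y]; omega) (by omega) fun γ hγ => by
      rw [(h1 γ hγ).2]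
      exact u.ρ_short _ (h1 γ hγ).1

/-- Frames at a deep point. -/
theorem rel_in {B : ℕ} {H : Subgroup V.Γ} (p : I) (g : G) {w : (F p).C} {l : V.Γ → (F p).J}
    (hl : ∀ γ ∈ H, ((t p).smul g).io (l γ) = γ) (hd : B + 3 * c + e0 DT c B + 1 < (F p).dp w)
    {x : V.W} (hx : V.dW (((t p).smul g).ι w) x ≤ 1) {φ : V.Γ → G} (h : Att t ψ B H φ x) :
    (Rel H φ fun γ => ((t p).smul g).ρ (l γ)) ∧ ∃ β, (F p).ap β ∧ ∀ γ ∈ H, l γ • β = β := by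
  obtain ⟨h0, ⟨y', h1, h2⟩ | ⟨p', g', a, w', h1, h2, h3⟩⟩ := h
  · have e1 := ((t p).smul g).dp_le y' w
    have e2 := V.mW.tri (((t p).smul g).ι w) x (V.Φ y')
    omega
  have e2 := V.mW.tri (((t p).smul g).ι w) x (((t p').smul g').ι w')
  obtain ⟨w2, e3, -⟩ := ((t p).smul g).inner (w := w) (x := ((t p').smul g').ι w') (by omega)
  have e4 := congrArg V.bar e3
  rw [Fc.bar_ι, Fc.bar_ι] at e4
  have e5 : ((V.θ g)⁻¹ * V.θ g') • (t p').v = (t p).v := by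
    rw [mul_smul, inv_smul_eq_iff]
    exact e4
  obtain rfl := K.un _ _ _ e5
  obtain ⟨j, hj⟩ := (t p').stab _ e5
  have e6 : ∀ γ ∈ H, l γ = j * a γ * j⁻¹ := fun γ hγ => ((t p').smul g).inj (by
    rw [hl γ hγ, Fc.smul_io, map_mul, map_mul, map_inv, ← hj]
    refine (h0 γ hγ).symm.trans ?_
    rw [(h1 γ hγ).2, Fc.θρ _ _ (h1 γ hγ).1, Fc.smul_io]
    group)
  refine ⟨⟨g * g'⁻¹, fun γ hγ => ?_⟩, j • (F p').o, (F p').ap_smul j _ (F p').ap_o, fun γ hγ => ?_⟩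
  · simp only [e6 γ hγ, Fc.ρ_conj, (h1 γ hγ).2, Fc.smul_ρ]
    group
  · rw [e6 γ hγ, smul_smul, inv_mul_cancel_right, mul_smul, (h1 γ hγ).1]

omit K in
/-- A short abelian group fixes a point of the main class or contains a mixed element. -/
theorem ap_or (hL : 2 * kT + 2 ≤ L) {p : I} (u : Fc V (F p)) {B : ℕ} {H : Subgroup V.Γ}
    (cm : ∀ a ∈ H, ∀ b ∈ H, Commute a b) {w : (F p).C} {l : V.Γ → (F p).J}
    (hl : ∀ γ ∈ H, u.io (l γ) = γ ∧ (F p).dC w (l γ • w) ≤ B) :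
    (∃ β, (F p).ap β ∧ ∀ γ ∈ H, l γ • β = β) ∨
      ∃ γ ∈ H, ¬ (F p).Ap (l γ) ∧ ∃ α : (F p).Z, l γ • α = α := by
  refine or_iff_not_imp_left.2 fun hn => ?_
  have e : ∀ a, u.io a ∈ H → l (u.io a) = a := fun a ha => u.inj (hl _ ha).1
  obtain ⟨a, ha, hn'⟩ := (F p).mixed (K := H.comap u.io)
    (fun a ha b hb => u.inj (by rw [map_mul, map_mul]; exact cm _ ha _ hb))
    fun β b1 b2 => hn ⟨β, b1, fun γ hγ => b2 _ (show u.io (l γ) ∈ H by rwa [(hl γ hγ).1])⟩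
  refine ⟨u.io a, ha, by rwa [e a ha], ?_⟩
  rw [e a ha]
  refine (F p).bd_fix hL ((F p).bd_bar ⟨w, B, fun i => ?_⟩)
  have m := (H.comap u.io).zpow_mem ha i
  exact e _ m ▸ (hl _ m).2

/-- The local comparison of frames. -/
theorem key (hL : 2 * kT + 2 ≤ L) {H : Subgroup V.Γ} (cm : ∀ a ∈ H, ∀ b ∈ H, Commute a b)
    {B X : ℕ} (hX : Lg ψ 10 X R) (hx : 4 * sp DT c B + 30 * c + 10 ≤ X) {x : V.W}
    (h : ∀ γ ∈ H, V.dW x (γ • x) ≤ B) : ∃ χ : V.Γ → G, ∀ φ x', V.dW x x' ≤ 1 →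
      Att t ψ B H φ x' → Rel H φ χ ∧ ∃ φ', Att t ψ B H φ' x := by
  have r1 := hX X le_rfl
  have e0' : sp DT c B = 3 * B + 4 * c + 2 * e0 DT c B := rfl
  rcases K.dich x (s := B + 3 * c + e0 DT c B + 1) (by omega) with ⟨p, g, w, rfl, hd⟩ | ⟨y, hy⟩
  · obtain ⟨l, hl⟩ := ((t p).smul g).lift_in h (by omega)
    refine ⟨fun γ => ((t p).smul g).ρ (l γ), fun φ x' h1 h2 => ?_⟩
    obtain ⟨a1, β, b1, b2⟩ := K.rel_in p g (fun γ hγ => (hl γ hγ).1) hd h1 h2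
    exact ⟨a1, (att_in p g hl (by omega) b1 b2).imp fun _ e => e.1⟩
  have r2 := hX (sp DT c B + 4 * c + 2) (by omega)
  obtain ⟨l, hl, -⟩ := K.lift_sub (y := y) H r2.1.le (by omega) fun γ hγ => by
    have := dis_move V.mW V.iW γ (V.Φ y) x
    have := h γ hγ
    rw [V.mW.symm] at hy
    omega
  refine ⟨l, fun φ x' h1 h2 => ⟨?_, ?_⟩⟩
  · have := V.mW.tri x' x (V.Φ y)
    rw [V.mW.symm] at h1
    exact K.rel_pl hX (Z := B + 4 * c + e0 DT c B + 2) (by omega) h2 (by omega) hl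
  rcases K.dich x (s := B + c + e0 DT c B) (by omega) with ⟨p, g, w, rfl, hd⟩ | ⟨y', hy'⟩
  · obtain ⟨l', hl'⟩ := ((t p).smul g).lift_in h (by omega)
    rcases ap_or hL _ cm hl' with ⟨β, b1, b2⟩ | ⟨γ, hγ, hn, α, hα⟩
    · exact (att_in p g hl' hd b1 b2).imp fun _ e => e.1
    · have e1 : _ ≤ _ + e0 DT c B := (F p).md hα hn (hl' γ hγ).2
      have e2 := ((t p).smul g).dp_le y w
      omega
  · exact (K.att_pl hX (by omega) h (y := y') (by omega)).imp fun _ e => e.1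

/-- Two frames are conjugate. -/
theorem l1 (hL : 2 * kT + 2 ≤ L) {H : Subgroup V.Γ} (cm : ∀ a ∈ H, ∀ b ∈ H, Commute a b)
    {B0 B X : ℕ} (hB : B0 + 10 * (k + 1) ≤ B) (hX : Lg ψ 10 X R)
    (hx : 4 * sp DT c B + 30 * c + 10 ≤ X) {x x' : V.W} (h1 : ∀ γ ∈ H, V.dW x (γ • x) ≤ B0)
    (h2 : ∀ γ ∈ H, V.dW x' (γ • x') ≤ B0) {φ φ' : V.Γ → G} (h : Att t ψ B H φ x)
    (h' : Att t ψ B H φ' x') : Rel H φ φ' := by
  have m := V.mW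
  obtain ⟨φ1, a1, a2⟩ := walk V.gr x x' (Q := fun u => ∃ φ1, Att t ψ B H φ1 u ∧
      Rel H φ φ1) ⟨φ, h, 1, fun _ _ => by simp⟩ (by
    rintro u v hv huv ⟨φ1, a1, a2⟩
    obtain ⟨χ, hχ⟩ := K.key hL cm hX hx (x := v) fun γ hγ =>
      (dis_btw V.gr V.hyp V.iW γ hv (h1 γ hγ) (h2 γ hγ)).trans hB
    obtain ⟨b1, φ2, b2⟩ := hχ φ1 u (by rwa [m.symm]) a1
    exact ⟨φ2, b2, (a2.trans b1).trans (hχ φ2 v (by rw [m.self]; omega) b2).1.symm⟩)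
  obtain ⟨χ, hχ⟩ := K.key hL cm hX hx (x := x') fun γ hγ => (h2 γ hγ).trans (by omega)
  exact (a2.trans (hχ φ1 x' (by rw [m.self]; omega) a1).1).trans
    (hχ φ' x' (by rw [m.self]; omega) h').1.symm

end Dk

end Pool.Agent.Lib.MP_a2eab4_al.Re
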