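import Pool.Agent.Lib.MP_a2eab4_al.RhE
import Pool.Agent.Lib.MP_a2eab4_al.RdB

set_option autoImplicit false
set_option linter.unusedSectionVars false

/-! Unfolding of commuting elliptic elements. -/

namespace Pool.Agent.Lib.MP_a2eab4_al.Re

open Pool.Agent.Lib.MP_429c3d_al Pool.Agent.Lib.MP_429c3d_al.Hyp Pool.Agent.Lib.MP_429c3d_al.Ng

variable {G : Type} [Group G] {kB kF D k kT kC DT c L f P N Kk S R : ℕ}

/-- A conjugator between short mixed elements fixes the cone point. -/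
theorem Fc.mr {V : Nw G kB kF D k} {F : Fbr kT kC DT c L f P N Kk S R} (u : Fc V F) {a : F.J}
    {α : F.Z} (ha : a • α = α) (hn : ¬ F.Ap a) {w : F.C} {h : V.Γ} {B0 B : ℕ}
    (hB : B0 + 10 * (k + 1) ≤ B) (h1 : V.dW (u.ι w) (u.io a • u.ι w) ≤ B0)
    (h2 : V.dW (u.ι w) ((h * u.io a * h⁻¹) • u.ι w) ≤ B0) (hr : e0 DT c (s1 D B) + c < R) :
    ∃ j, h = u.io j := by
  have e := dis_conj V.iW (u.io a) h (h⁻¹ • u.ι w)
  rw [smul_inv_smul] at e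
  obtain ⟨e1, -⟩ := walk V.gr (u.ι w) (h⁻¹ • u.ι w)
    (Q := fun z => V.bar z = u.v ∧ V.dW z (u.io a • z) ≤ B) ⟨u.bar_ι w, by omega⟩ (by
      rintro z z' hz hzz ⟨q1, q2⟩
      refine ⟨?_, (dis_btw V.gr V.hyp V.iW _ hz h1 (e ▸ h2)).trans hB⟩
      obtain ⟨w', rfl⟩ := u.onto z q1
      by_contra hc
      have b1 := u.att w' z' hzz hc
      have b2 : _ ≤ _ + e0 DT c (s1 D B) := F.md ha hn (u.prj_dis (u.prj_ι w') q2)
      omega)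
  rw [V.bact.comm, u.bar_ι, inv_smul_eq_iff] at e1
  exact u.stab h e1.symm

/-- The elements of `H` that `h` conjugates into `H`. -/
def src {Γ : Type} [Group Γ] (H : Subgroup Γ) (h : Γ) : Subgroup Γ :=
  H ⊓ H.comap (MulAut.conj h).toMonoidHom

theorem mem_src {Γ : Type} [Group Γ] {H : Subgroup Γ} {h γ : Γ} :
    γ ∈ src H h ↔ γ ∈ H ∧ h * γ * h⁻¹ ∈ H := Iff.rfl

/-- The conclusion of the unfolding lemma. -/
def Unf {Γ : Type} [Group Γ] (H : Subgroup Γ) (χ : Γ → G) : Prop :=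
  (∀ a ∈ H, ∀ b ∈ H, Commute (χ a) (χ b)) ∧ ∀ h : Γ, (∀ γ ∈ H, Commute h γ) ∨
    ((∃ g : G, ∀ γ ∈ src H h, χ (h * γ * h⁻¹) = g * χ γ * g⁻¹) ∧
      ∀ a ∈ src H h, ∀ b ∈ src H h, χ a = χ b → a = b)

/-- The scale of the unfolding lemma. -/
def xu (D DT c B : ℕ) : ℕ := 4 * sp DT c B + 30 * c + 10 + e0 DT c (s1 D B)

namespace Dk

variable {V : Nw G kB kF D k} {I : Type} {F : I → Fbr kT kC DT c L f P N Kk S R}
  {t : ∀ p, Fc V (F p)} {ψ : ℕ → ℕ} (K : Dk V F t ψ) (hL : 2 * kT + 2 ≤ L)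
include K hL

theorem tl_aux {H : Subgroup V.Γ} (cm : ∀ a ∈ H, ∀ b ∈ H, Commute a b) {B0 B X : ℕ}
    (hB : B0 + 10 * (k + 1) ≤ B) (hX : Lg ψ 10 X R) (hx : 4 * sp DT c B + 30 * c + 10 ≤ X)
    {x : V.W} (h0 : ∀ γ ∈ H, V.dW x (γ • x) ≤ B0) (h : V.Γ) {φ φ' χ : V.Γ → G}
    (a1 : Att t ψ B (src H h) φ x) (a2 : Att t ψ B (src H h⁻¹) φ' x)
    (r1 : Rel (src H h) φ χ) (r2 : Rel (src H h⁻¹) φ' χ) :
    (∃ g : G, ∀ γ ∈ src H h, χ (h * γ * h⁻¹) = g * χ γ * g⁻¹) ∧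
      ∀ a ∈ src H h, ∀ b ∈ src H h, χ a = χ b → a = b := by
  obtain ⟨g, rfl⟩ := V.surj h
  have mem : ∀ γ ∈ src H (V.θ g)⁻¹, (V.θ g)⁻¹ * γ * V.θ g ∈ src H (V.θ g) := fun γ hγ =>
    ⟨by simpa using (mem_src.1 hγ).2, by simpa [mul_assoc] using hγ.1⟩
  obtain ⟨n, hn⟩ := K.l1 hL (H := src H (V.θ g)⁻¹) (fun a ha b hb => cm a ha.1 b hb.1) hB hX hx
    (x := V.θ g • x) (x' := x) (fun γ hγ => by
      have := dis_conj V.iW ((V.θ g)⁻¹ * γ * V.θ g) (V.θ g) x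
      rw [show V.θ g * ((V.θ g)⁻¹ * γ * V.θ g) * (V.θ g)⁻¹ = γ by group] at this
      rw [this]
      exact h0 _ (mem γ hγ).1) (fun γ hγ => h0 γ hγ.1) (a1.conj g mem) a2
  obtain ⟨n1, h1⟩ := r1
  obtain ⟨n2, h2⟩ := r2
  refine ⟨⟨n2 * n * g * n1⁻¹, fun γ hγ => ?_⟩, fun a ha b hb e => ?_⟩
  · have e : V.θ g * γ * (V.θ g)⁻¹ ∈ src H (V.θ g)⁻¹ :=
      ⟨(mem_src.1 hγ).2, by simpa [mul_assoc] using hγ.1⟩
    rw [h2 _ e, hn _ e, h1 γ hγ]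
    simp [mul_assoc]
  · rw [h1 a ha, h1 b hb, mul_left_inj, mul_right_inj] at e
    rw [← a1.1 a ha, e, a1.1 b hb]

/-- The unfolding lemma. -/
theorem tl {H : Subgroup V.Γ} (cm : ∀ a ∈ H, ∀ b ∈ H, Commute a b) {B X : ℕ}
    (hB : 13 * (k + 1) ≤ B) (hX : Lg ψ 10 X R) (hx : xu D DT c B ≤ X) {x0 : V.W} {M : ℕ}
    (h0 : ∀ γ ∈ H, V.dW x0 (γ • x0) ≤ M) : ∃ χ : V.Γ → G, Unf H χ := by
  have r1 := hX X le_rfl
  have e0' : sp DT c B = 3 * B + 4 * c + 2 * e0 DT c B := rfl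
  unfold xu at hx
  obtain ⟨x, -, h1⟩ := centre V.gr V.hyp V.iW H h0
  have h2 : ∀ γ ∈ H, V.dW x (γ • x) ≤ B := fun γ hγ => (h1 γ hγ).trans (by omega)
  rcases K.dich x (s := B + c + e0 DT c B) (by omega) with ⟨p, g, w, rfl, hd⟩ | ⟨y, hy⟩
  swap
  · obtain ⟨φ, a, -, a2⟩ := K.att_pl hX (by omega) h2 (y := y) (by omega)
    exact ⟨φ, fun a ha b hb => by
        rw [commute_iff_eq, ← a2 a ha b hb, ← a2 b hb a ha, (cm a ha b hb).eq],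
      fun h => Or.inr (K.tl_aux hL cm (by omega) hX (by omega) h1 h (a.mono inf_le_left)
        (a.mono inf_le_left) ⟨1, fun _ _ => by simp⟩ ⟨1, fun _ _ => by simp⟩)⟩
  obtain ⟨l, hl⟩ := ((t p).smul g).lift_in h2 (by omega)
  refine ⟨fun γ => ((t p).smul g).ρ (l γ), fun a _ b _ => Fc.ρ_comm _ _ _, fun h => ?_⟩
  have alt : ∀ h : V.Γ, (∀ γ ∈ H, Commute h γ) ∨ ∃ φ, Att t ψ B (src H h) φ (((t p).smul g).ι w) ∧
      Rel (src H h) φ fun γ => ((t p).smul g).ρ (l γ) := by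
    intro h
    rcases ap_or hL _ (H := src H h) (fun a ha b hb => cm a ha.1 b hb.1)
      (fun γ hγ => hl γ hγ.1) with ⟨β, b1, b2⟩ | ⟨γ, hγ, hn, α, hα⟩
    · exact Or.inr (att_in p g (fun γ hγ => hl γ hγ.1) hd b1 b2)
    generalize (t p).smul g = u at *
    have e1 := (hl γ hγ.1).1
    obtain ⟨j, rfl⟩ := u.mr hα hn (w := w) (h := h) (B0 := 2 * k + 1) (B := B) (by omega)
      (by rw [e1]; exact h1 γ hγ.1) (by rw [e1]; exact h1 _ (mem_src.1 hγ).2) (by omega)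
    refine Or.inl fun δ hδ => ?_
    rw [← (hl δ hδ).1]
    refine ((F p).mx hα hn (u.inj ?_) (u.inj ?_)).map u.io
    · simp only [map_mul, map_inv, e1]
      exact cm _ (mem_src.1 hγ).2 _ hγ.1
    · simp only [map_mul, e1, (hl δ hδ).1]
      exact cm _ hδ _ hγ.1
  rcases alt h with e | ⟨φ, a1, q1⟩
  · exact Or.inl e
  rcases alt h⁻¹ with e | ⟨φ', a2, q2⟩
  · exact Or.inl fun γ hγ => Commute.inv_left_iff.1 (e γ hγ)
  · exact Or.inr (K.tl_aux hL cm (by omega) hX (by omega) h1 h a1 a2 q1 q2)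

theorem tl_fin {B X : ℕ} (hB : 13 * (k + 1) ≤ B) (hX : Lg ψ 10 X R) (hx : xu D DT c B ≤ X) {n : ℕ}
    (u : Fin n → V.Γ) (hb : ∀ i, Bd V.dW (u i)) (cm : ∀ i j, Commute (u i) (u j)) :
    ∃ (H : Subgroup V.Γ) (χ : V.Γ → G), (∀ i, u i ∈ H) ∧ Unf H χ := by
  classical
  have cm' : ∀ a ∈ Finset.univ.image u, ∀ b ∈ Finset.univ.image u, Commute a b := by
    simp only [Finset.mem_image, Finset.mem_univ, true_and]
    rintro _ ⟨i, rfl⟩ _ ⟨j, rfl⟩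
    exact cm i j
  obtain ⟨M, hM⟩ := bd_closure V.mW V.iW V.ne.some (Finset.univ.image u) cm' (by
    simp only [Finset.mem_image, Finset.mem_univ, true_and]
    rintro _ ⟨i, rfl⟩
    exact hb i)
  obtain ⟨χ, hχ⟩ := K.tl hL (comm_closure (s := ((Finset.univ.image u : Finset V.Γ) : Set V.Γ))
    fun a ha b hb => cm' a (Finset.mem_coe.1 ha) b (Finset.mem_coe.1 hb)) hB hX hx hM
  exact ⟨_, χ, fun i => Subgroup.subset_closure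
    (Finset.mem_coe.2 (Finset.mem_image_of_mem u (Finset.mem_univ i))), hχ⟩

theorem n2e {B X : ℕ} (hB : 13 * (k + 1) ≤ B) (hX : Lg ψ 10 X R) (hx : xu D DT c B ≤ X)
    (g h : V.Γ) (hg : Bd V.dW g) (c1 : Commute g (h * g * h⁻¹))
    (c2 : Commute g (h * (h * g * h⁻¹) * h⁻¹)) : Commute h g := by
  have c3 := commute_conj c1 h
  obtain ⟨H, χ, hH, u1, u2⟩ := K.tl_fin hL hB hX hx ![g, h * g * h⁻¹, h * (h * g * h⁻¹) * h⁻¹]
    (fun i => by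
      fin_cases i
      exacts [hg, hg.conj V.iW h, (hg.conj V.iW h).conj V.iW h])
    (fun i j => by
      fin_cases i <;> fin_cases j
      exacts [Commute.refl _, c1, c2, c1.symm, Commute.refl _, c3, c2.symm, c3.symm,
        Commute.refl _])
  have k0 : g ∈ H := hH 0
  have k1 : h * g * h⁻¹ ∈ H := hH 1
  have k2 : h * (h * g * h⁻¹) * h⁻¹ ∈ H := hH 2
  rcases u2 h with e | ⟨⟨a, ha⟩, inj⟩
  · exact e g k0
  · have e1 := ha g ⟨k0, k1⟩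
    have e2 := ha _ ⟨k1, k2⟩
    have e3 := K.n2 (χ g) a (e1 ▸ u1 _ k0 _ k1) (by rw [← e1, ← e2]; exact u1 _ k0 _ k2)
    rw [e3.mul_inv_cancel] at e1
    exact mul_inv_eq_iff_eq_mul.1 (inj _ ⟨k1, k2⟩ _ ⟨k0, k1⟩ e1)

theorem pfe {B X : ℕ} (hB : 13 * (k + 1) ≤ B) (hX : Lg ψ 10 X R) (hx : xu D DT c B ≤ X)
    (y s : V.Γ) (u : Fin 6 → V.Γ) (hb : ∀ i, Bd V.dW (u i))
    (cm : ∀ i j, Commute (u i) (u j)) (e1 : y * u 0 * y⁻¹ = u 1) (e2 : s * u 1 * s⁻¹ = u 2)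
    (e3 : s * u 0 * s⁻¹ = u 3) (e4 : y * u 4 * y⁻¹ = u 3) (e5 : s * u 5 * s⁻¹ = u 4) :
    u 0 = u 1 ∧ u 4 = u 3 := by
  obtain ⟨H, χ, hH, u1, u2⟩ := K.tl_fin hL hB hX hx u hb cm
  have sr : ∀ {h : V.Γ} {i j}, h * u i * h⁻¹ = u j → u i ∈ src H h := fun {h i j} e =>
    mem_src.2 ⟨hH i, e ▸ hH j⟩
  rcases u2 y with e | ⟨⟨a, ha⟩, -⟩
  · exact ⟨by rw [← e1, (e _ (hH 0)).mul_inv_cancel], by rw [← e4, (e _ (hH 4)).mul_inv_cancel]⟩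
  rcases u2 s with e | ⟨⟨b, hb'⟩, inj⟩
  · rw [(e _ (hH 0)).mul_inv_cancel] at e3
    have := (K.n2e hL hB hX hx (u 4) y (hb 4) (e4 ▸ cm 4 3)
      (by rw [e4, ← e3, e1]; exact cm 4 1)).mul_inv_cancel
    rw [e4] at this
    exact ⟨by rw [← e1, e3, this, e4, this], this.symm⟩
  obtain ⟨p1, p2⟩ := K.pf a b (fun i => χ (u i)) (fun i j => u1 _ (hH i) _ (hH j))
    (by rw [← ha _ (sr e1), e1]) (by rw [← hb' _ (sr e2), e2]) (by rw [← hb' _ (sr e3), e3])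
    (by rw [← ha _ (sr e4), e4]) (by rw [← hb' _ (sr e5), e5])
  refine ⟨inj _ (sr e3) _ (sr e2) p1, ?_⟩
  rw [← e3, ← e5, hb' _ (sr e3), hb' _ (sr e5), mul_left_inj, mul_right_inj] at p2
  rw [← e3, ← e5, inj _ (sr e5) _ (sr e3) p2]

end Dk

end Pool.Agent.Lib.MP_a2eab4_al.Re
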