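import Pool.Agent.Lib.MP_a2eab4_al.RhF

set_option autoImplicit false
set_option linter.unusedSectionVars false

/-! The invariants of the new group. -/

namespace Pool.Agent.Lib.MP_a2eab4_al.Re

open Pool.Agent.Lib.MP_429c3d_al Pool.Agent.Lib.MP_429c3d_al.Hyp Pool.Agent.Lib.MP_429c3d_al.Ng

/-- The displacement of a marked element where the pair is short. -/
def ms (k A s B : ℕ) : ℕ := 2 * A + 20 * B + 41 * s + 700 * (k + 1)

section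
variable {G X : Type} [Group G] [MulAction G X] {d : X → X → ℕ} {k : ℕ}

theorem dis_cs (m : IsMet d) (iso : Isom G d) {y c : G} {x : X} {s : ℕ} (hy : d x (y • x) ≤ s)
    (hc : d x (c • x) ≤ s) (i : ℕ) : d x (cs y c i • x) ≤ 3 ^ i * s := by
  induction i with
  | zero => simpa [cs] using hc
  | succ i ih =>
    have e1 := dis_mul m iso (cs y c i * y) (cs y c i)⁻¹ x
    have e2 := dis_mul m iso (cs y c i) y x
    have e3 := dis_inv m iso (cs y c i) x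
    have e4 : s ≤ 3 ^ i * s := Nat.le_mul_of_pos_left _ (by positivity)
    rw [cs, pow_succ, mul_comm (3 ^ i) 3, mul_assoc 3]
    omega

/-- The root property at all scales. -/
theorem PE1.scale (gr : IsGr d) (hyp : Hyp4 d k) (iso : Isom G d) {A : ℕ}
    (pe : PE1 G d (b1 k) A) {g : G} (hg : Bd d g) {j : ℤ} (hj : j ≠ 0) (x : X) (i : ℤ) :
    d x (g ^ i • x) ≤ d x (g ^ j • x) + A + 3 * (k + 1) := by
  have S := sp_of gr hyp iso
  have hb : b1 k = 1000 * (k + 1) := rfl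
  obtain ⟨y, hy⟩ := hg.centre gr hyp iso
  have := hy j
  obtain ⟨p, p1, p2⟩ := S.near_short (g ^ j) x y (K := 6 * (k + 1)) (by omega)
  have e1 := pe g j p hg hj (by omega) i
  have e2 := S.dis_move (g ^ i) x p
  rcases p2 with rfl | p2 <;> omega

theorem Done.mono {N N' : ℕ} {y c : G} (h : Done N y c) (hN : N ≤ N') : Done N' y c :=
  h.imp fun _ e => ⟨e.1.trans hN, e.2⟩

theorem Done.map {H : Type} [Group H] (θ : G →* H) {N : ℕ} {y c : G} (h : Done N y c) :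
    Done N (θ y) (θ c) := h.imp fun j e => ⟨e.1, map_cs θ y c j ▸ e.2.map θ⟩

/-- A marked element is short where the pair is short. -/
theorem mark_short (gr : IsGr d) (hyp : Hyp4 d k) (iso : Isom G d) {A : ℕ} (ai : AI G d (b1 k) A)
    (n2 : N2 G) {y σ : G} {x x1 : X} {s B : ℕ} (h0 : d x1 (σ • x1) ≤ s) (h1 : d x (y • x) ≤ B)
    (h2 : d x ((σ * y * σ⁻¹) • x) ≤ B) (hn : ¬ Commute y (σ * y * σ⁻¹)) :
    d x (σ • x) ≤ ms k A s B := by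
  have S := sp_of gr hyp iso
  have m := gr.met
  rw [← dis_inv m iso] at h0 ⊢
  unfold ms
  obtain ⟨p, p1, rfl | p2⟩ := S.near_short σ⁻¹ x x1 (K := s + 3 * k + 5) (by omega)
  · omega
  obtain ⟨z, z1, z2⟩ := gr.geo.mid m x (σ⁻¹ • x) (s := d x p) (by omega)
  have e1 := m.tri p (σ⁻¹ • p) (σ⁻¹ • x)
  have e2 := hyp p z x (σ⁻¹ • x)
  rw [iso, m.symm p x] at e1
  rw [m.symm p x, m.symm z x] at e2
  have e3 := dis_move m iso σ⁻¹ z p
  have e4 := dis_conj iso y σ (σ⁻¹ • x)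
  rw [smul_inv_smul] at e4
  rw [m.symm z p] at e3
  have e5 := dis_btw gr hyp iso y (z := z) (by omega) h1 (e4 ▸ h2)
  have e6 := dis_mul m iso (σ * y) σ⁻¹ z
  have e7 := dis_mul m iso σ y z
  have e8 := dis_inv m iso σ z
  have e9 := ai_scale S (ai.mono (by unfold b1; omega) le_rfl) n2 hn (x := x) (x' := z)
    (B := B + 2 * s + 32 * (k + 1)) (by omega) (by omega) (by omega) (by omega)
  have := dis_move m iso σ⁻¹ x z
  omega

end

variable {G : Type} [Group G] {kB kF D k kT kC DT c L f P N Kk S R : ℕ}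

theorem Nw.Sh.mono {V : Nw G kB kF D k} {s s' : ℕ} {g : G} (h : V.Sh s g) (hs : s ≤ s') :
    V.Sh s' g := h.imp fun _ e => ⟨e.1.trans hs, e.2.trans hs⟩

/-- Pairs that fix a cone point. -/
theorem Fc.gt {V : Nw G kB kF D k} {F : Fbr kT kC DT c L f P N Kk S R} (u : Fc V F) {S2 : ℕ}
    (hS : s1 D S2 < S) (y e : F.J) :
    Done (N + 1) (u.io y) (u.io e) ∨ Esc V.dW (Kk + 1) S2 (u.io y) (u.io e) := by
  by_cases nc : Commute y (e * y * e⁻¹)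
  · exact Or.inl (Done.map _ ⟨1, by omega, nc⟩)
  rcases F.gt y (e * y * e⁻¹) (isConj_iff.2 ⟨e, rfl⟩) nc with ⟨j, hj, h⟩ | ⟨j, hj, h⟩ <;>
    rw [← cs_succ'] at h
  · exact Or.inl (Done.map _ ⟨j + 1, by omega, h⟩)
  refine Or.inr ⟨j + 1, by omega, fun x => ?_⟩
  obtain ⟨w, hw⟩ := u.exists_prj x
  rw [← map_cs]
  have key : ∀ a : F.J, S ≤ F.dZ (F.bar w) (a • F.bar w) → S2 ≤ V.dW x (u.io a • x) := by
    intro a ha
    by_contra hc
    have e1 : _ ≤ s1 D S2 := u.prj_dis hw (not_le.1 hc).le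
    have e2 := F.dis_bar a w
    omega
  exact (h (F.bar w)).imp (key _) (key _)

namespace Dk

variable {V : Nw G kB kF D k} {I : Type} {F : I → Fbr kT kC DT c L f P N Kk S R}
  {t : ∀ p, Fc V (F p)} {ψ : ℕ → ℕ} (K : Dk V F t ψ)
include K

/-- Short lifts of conjugate elements are conjugate. -/
theorem lc (hL : 2 * kT + 2 ≤ L) {A s B X : ℕ} (pe1 : PE1 V.Γ V.dW (b1 k) A)
    (pe2 : PE2 V.Γ V.dW (b1 k) P) (hB : s + A + 13 * (k + 1) ≤ B) (hX : Lg ψ 10 X R)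
    (hx : 4 * sp DT c B + 30 * c + 10 + 100 * (P + 1) * (s + k + 1) ≤ X) {a b : G}
    (ha : V.Sh s a) (hb : V.Sh s b) (h : IsConj (V.θ a) (V.θ b)) : IsConj a b := by
  obtain ⟨y, ha, a1⟩ := ha
  obtain ⟨y', hb, a2⟩ := hb
  obtain ⟨σ, hs⟩ := isConj_iff.1 h.symm
  obtain ⟨g, rfl⟩ := V.surj σ
  suffices e : IsConj (g * b * g⁻¹) a from (IsConj.trans (isConj_iff.2 ⟨g, rfl⟩) e).symm
  rw [← dis_conj V.iso b g] at hb
  rw [← dis_conj V.iW _ (V.θ g), hs, ← V.Φ_smul] at a2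
  have e : V.θ (g * b * g⁻¹) = V.θ a := by rw [map_mul, map_mul, map_inv, hs]
  generalize g * b * g⁻¹ = b' at hb e
  generalize g • y' = v at hb a2
  have r1 := hX X le_rfl
  have e0' : sp DT c B = 3 * B + 4 * c + 2 * e0 DT c B := rfl
  by_cases hd : Bd V.dW (V.θ a)
  · have r2 := hX (sp DT c B) (by omega)
    have sh : ∀ x, V.dW x (V.θ a • x) ≤ s → ∀ γ ∈ Subgroup.zpowers (V.θ a),
        V.dW x (γ • x) ≤ s + A + 3 * (k + 1) := by
      rintro x hx _ ⟨i, rfl⟩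
      have := pe1.scale V.gr V.hyp V.iW hd (j := 1) (by omega) x i
      rw [zpow_one] at this
      exact this.trans (by omega)
    have cm : ∀ a' ∈ Subgroup.zpowers (V.θ a), ∀ b' ∈ Subgroup.zpowers (V.θ a), Commute a' b' := by
      rintro _ ⟨i, rfl⟩ _ ⟨j, rfl⟩
      exact Commute.zpow_zpow_self _ i j
    have fr : ∀ (u : G) (p : V.Y), V.d p (u • p) ≤ s → V.dW (V.Φ p) (V.θ a • V.Φ p) ≤ s →
        V.θ u = V.θ a → ∃ φ, Att t ψ B (Subgroup.zpowers (V.θ a)) φ (V.Φ p) ∧ φ (V.θ a) = u := by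
      intro u p h1 h2 h3
      obtain ⟨φ, f1, f2, -⟩ := K.att_pl (B := B) hX (by omega) (y := p)
        (fun γ hγ => (sh _ h2 γ hγ).trans (by omega)) (by rw [V.mW.self]; omega)
      have := f2 _ (Subgroup.mem_zpowers _)
      exact ⟨φ, f1, K.eq (y := p) (by omega) (by rw [f1.1 _ (Subgroup.mem_zpowers _), h3])⟩
    obtain ⟨φ, f1, f2⟩ := fr b' v hb a2 e
    obtain ⟨φ', g1, g2⟩ := fr a y ha a1 rfl
    obtain ⟨n, hn⟩ := K.l1 hL cm (by omega) hX (by omega) (sh _ a2) (sh _ a1) f1 g1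
    have := hn _ (Subgroup.mem_zpowers _)
    rw [f2, g2] at this
    exact isConj_iff.2 ⟨n, this.symm⟩
  · obtain ⟨i, hi⟩ := lox_near V.gr V.hyp V.iW (V.θ a) (P := P) (B := s) (x := V.Φ y)
      (x' := V.Φ v) (fun x => le_trans (by unfold b1; omega) (pe2 _ hd x)) a1 a2
    obtain ⟨n, n1, n2⟩ := K.onto (y := y) (y' := a ^ i • v) r1.1.le
      (by rw [V.Φ_smul, map_zpow]; omega)
    refine isConj_iff.2 ⟨n * a ^ i, K.eq (y := y) ?_ ?_⟩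
    · have b1 := dis_move V.met V.iso (n * a ^ i * b' * (n * a ^ i)⁻¹) y (n • a ^ i • v)
      rw [smul_smul n (a ^ i) v, dis_conj V.iso, mul_smul n (a ^ i) v] at b1
      omega
    · rw [map_mul, map_mul, map_inv, map_mul, n1, e, map_zpow]
      group

theorem dich2 {S2 : ℕ} (hS : s1 D S2 < S) (hr : S2 + c < R) {y e : V.Γ} (hb : ¬ Big V.dW S2 y e) :
    Done (N + 1) y e ∨ Esc V.dW (Kk + 1) S2 y e ∨
      ∃ p, V.dW (V.Φ p) (y • V.Φ p) ≤ 3 * S2 + 4 * c ∧ V.dW (V.Φ p) (e • V.Φ p) ≤ 3 * S2 + 4 * c := by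
  obtain ⟨x, hx⟩ := not_forall.1 hb
  obtain ⟨x1, x2⟩ := not_or.1 hx
  rcases K.dich x hr with ⟨p, g, w, rfl, hd⟩ | ⟨p, hp⟩
  · obtain ⟨y, rfl, -⟩ := ((t p).smul g).fix_inner (w := w) (γ := y) (by omega)
    obtain ⟨e, rfl, -⟩ := ((t p).smul g).fix_inner (w := w) (γ := e) (by omega)
    exact (((t p).smul g).gt hS y e).imp_right Or.inl
  · have e1 := dis_move V.mW V.iW y (V.Φ p) x
    have e2 := dis_move V.mW V.iW e (V.Φ p) x
    rw [V.mW.symm] at hp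
    exact Or.inr (Or.inr ⟨p, by omega, by omega⟩)

theorem gtV {A S2 S3 s4 X : ℕ} (ai : AI V.Γ V.dW (b1 k) A) (n2 : N2 V.Γ)
    (hS : s1 D S2 + ψ (3 * S2 + 4 * c) < S) (h4 : s4 = ms k A S3 (3 * S2 + 4 * c))
    (lc : ∀ a b : G, V.Sh (S3 + s4 + ψ s4) a → V.Sh (S3 + s4 + ψ s4) b →
      IsConj (V.θ a) (V.θ b) → IsConj a b) (hX : Lg ψ 10 X R)
    (hx : A + s4 + 10 * (3 ^ Kk * (3 * S2 + 4 * c)) +
      10 * (3 ^ Kk * (2 * ψ s4 + ψ (3 * S2 + 4 * c))) ≤ X)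
    (M : Set G) (L' : V.Γ → V.Γ → Prop) (m1 : ∀ s ∈ M, V.Sh S3 s)
    (m2 : ∀ s ∈ M, ∀ g, g * s * g⁻¹ ∈ M) (h1 : ∀ y : G, ∀ s ∈ M, ¬ Commute y (s * y * s⁻¹) →
      L' (V.θ y) (V.θ (s * y * s⁻¹)) ∨ Esc V.dU Kk S y (s * y * s⁻¹))
    (y : V.Γ) (s : G) (hs : s ∈ M) (hn : ¬ Commute y (V.θ s * y * (V.θ s)⁻¹)) :
    L' y (V.θ s * y * (V.θ s)⁻¹) ∨ Done (N + Kk + 1) y (V.θ s * y * (V.θ s)⁻¹) ∨
      Esc V.dW (2 * Kk + 1) S2 y (V.θ s * y * (V.θ s)⁻¹) := by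
  obtain ⟨s2, h2⟩ : ∃ s2, s2 = 3 * S2 + 4 * c := ⟨_, rfl⟩
  rw [← h2] at hS h4 hx
  have p1 : s2 ≤ 3 ^ Kk * s2 := Nat.le_mul_of_pos_left _ (by positivity)
  have r1 := hX X le_rfl
  have r2 := hX s2 (by omega)
  have r4 := hX s4 (by omega)
  by_cases hb : Big V.dW S2 y (V.θ s * y * (V.θ s)⁻¹)
  · exact Or.inr (Or.inr ⟨0, Nat.zero_le _, hb⟩)
  rcases K.dich2 (by omega) (by omega) hb with h | ⟨j, hj, h⟩ | ⟨p, q1, q2⟩
  · exact Or.inr (Or.inl (h.mono (by omega)))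
  · exact Or.inr (Or.inr ⟨j, by omega, h⟩)
  rw [← h2] at q1 q2
  obtain ⟨x1, -, hx1⟩ := m1 s hs
  have q3 := mark_short V.gr V.hyp V.iW ai n2 hx1 q1 q2 hn
  rw [← h4] at q3
  obtain ⟨y, rfl, b1⟩ := K.lift r2.1.le q1
  obtain ⟨s', e, b2⟩ := K.lift r4.1.le q3
  obtain ⟨g, rfl⟩ := isConj_iff.1 (lc s s' ((m1 s hs).mono (by omega))
    ⟨p, by omega, by rw [e]; omega⟩ (e ▸ IsConj.refl _))
  have ms' := m2 s hs g
  generalize g * s * g⁻¹ = σ at e b2 ms'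
  have e' : V.θ s * V.θ y * (V.θ s)⁻¹ = V.θ (σ * y * σ⁻¹) := by rw [map_mul, map_mul, map_inv, e]
  rw [e'] at hn q2 ⊢
  refine (h1 y σ ms' fun h => hn (h.map V.θ)).imp_right ?_
  have b3 := dis_mul V.met V.iso (σ * y) σ⁻¹ p
  have b4 := dis_mul V.met V.iso σ y p
  rw [dis_inv V.met V.iso] at b3
  generalize σ * y * σ⁻¹ = e1 at *
  rintro ⟨j, hj, h⟩
  by_cases nc : Commute (V.θ y) (cs (V.θ y) (V.θ e1) j)
  · exact Or.inl ⟨j, by omega, nc⟩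
  by_cases hb' : Big V.dW S2 (V.θ y) (cs (V.θ y) (V.θ e1) j)
  · exact Or.inr ⟨j, by omega, hb'⟩
  rcases K.dich2 (by omega) (by omega) hb' with ⟨i, hi, h'⟩ | ⟨i, hi, h'⟩ | ⟨p', q4, q5⟩
  · exact Or.inl ⟨j + i, by omega, cs_add (V.θ y) _ j i ▸ h'⟩
  · exact Or.inr ⟨j + i, by omega, cs_add (V.θ y) _ j i ▸ h'⟩
  exfalso
  rw [← h2] at q4 q5
  have pw : ∀ n, 3 ^ j * n ≤ 3 ^ Kk * n := fun n =>
    Nat.mul_le_mul_right _ (Nat.pow_le_pow_right (by norm_num) hj)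
  have c1 := (dis_cs V.mW V.iW q1 q2 j).trans (pw _)
  have c2 := (dis_cs V.met V.iso (y := y) (c := e1) (x := p) (s := 2 * ψ s4 + ψ s2) (by omega)
    (by omega) j).trans (pw _)
  have c3 := ai_scale (sp_of V.gr V.hyp V.iW) (ai.mono (by unfold Ng.b1; omega) le_rfl) n2 nc
    (x := V.Φ p) (x' := V.Φ p') (B := 3 ^ Kk * s2) (by omega) c1 (by omega) (by omega)
  obtain ⟨n, n1, n2⟩ := K.onto (y := p) (y' := p') r1.1.le (by omega)
  rw [← V.Φ_ker n1 p'] at q4 q5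
  rw [← map_cs] at q5
  have c4 := K.transfer (y := p) r2.1.le q4 (by omega)
  have c5 := K.transfer (y := p) r2.1.le q5 (by omega)
  have c6 := V.dis_π y (n • p')
  have c7 := V.dis_π (cs y e1 j) (n • p')
  rcases h (V.π (n • p')) with h | h <;> omega

end Dk

/-- The deck group block. -/
theorem deckMain : DeckMain := by
  intro kB kF D k kT kC DT c ψ mono
  obtain ⟨L, hL⟩ : ∃ L, L = 2 * kT + 2 + (s1 D (sc k) + ψ (s1 D (sc k) + 3 * sc k + 4 * c)) +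
    (s1 D (3 * sc k + 4 * c) + ψ (3 * sc k + 4 * c)) + ψ (sp DT c (sc k)) := ⟨_, rfl⟩
  refine ⟨L, fun f P hP => ?_⟩
  obtain ⟨A, hA⟩ : ∃ A, A = ua D DT c f (sc k) + up D DT c f (sc k) + 2 * k + 1 := ⟨_, rfl⟩
  refine ⟨A, fun S2 => ⟨s1 D S2 + ψ (3 * S2 + 4 * c) + 1, fun Kk S3 => ?_⟩⟩
  obtain ⟨s4, h4⟩ : ∃ s4, s4 = ms k A S3 (3 * S2 + 4 * c) := ⟨_, rfl⟩
  obtain ⟨B, hB⟩ : ∃ B, B = S3 + s4 + ψ s4 + A + 13 * (k + 1) := ⟨_, rfl⟩
  obtain ⟨X, hX⟩ : ∃ X, X = (2 * s1 D (ua D DT c f (sc k) + 1) + ua D DT c f (sc k) +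
    s1 D (sc k) + 3 * sc k + 4 * c + 1) + (6 * k + 3 * A) + xp D DT c f (sc k) (A + 2) +
    xu D DT c B + (4 * sp DT c B + 30 * c + 10 + 100 * (P + 1) * (S3 + s4 + ψ s4 + k + 1)) +
    (A + s4 + 10 * (3 ^ Kk * (3 * S2 + 4 * c)) +
      10 * (3 ^ Kk * (2 * ψ s4 + ψ (3 * S2 + 4 * c)))) := ⟨_, rfl⟩
  refine ⟨X + 1 + (P + 10) * ψ X, ?_⟩
  intro G _ N R I V F t hR K
  have lg : Lg ψ (P + 10) X R := fun n hn =>
    ⟨by omega, (Nat.mul_le_mul_left _ (mono hn)).trans (by omega)⟩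
  have lg' : Lg ψ 10 X R := lg.mono (by omega) le_rfl
  have hb : 100 * (k + 1) ≤ b1 k := by unfold b1; omega
  have l0 : 2 * kT + 2 ≤ L := by omega
  have tf := K.tfV lg' (by omega)
  have ai : AI V.Γ V.dW (b1 k) A := (K.aiV (by omega) lg' (by omega)).mono le_rfl (by omega)
  have pe1 : PE1 V.Γ V.dW (b1 k) A := K.pe1V l0 (by omega) (by omega) lg' (by omega)
  have pe2 := K.pe2V hP (by omega) (lg.mono (by omega) le_rfl) (by omega)
  have S : LX V.Γ V.dW (k + 1) A P :=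
    ⟨sp_of V.gr V.hyp V.iW, V.ne, tf, ai.mono hb le_rfl, fun g hg x => hb.trans (pe2 g hg x),
      K.n2e l0 (B := B) (by omega) lg' (by omega), K.rge l0 pe1 (by omega) lg' (by omega)⟩
  have lc := fun a b => K.lc l0 (s := S3 + s4 + ψ s4) (B := B) pe1 pe2 (by omega) lg' (by omega)
    (a := a) (b := b)
  exact ⟨tf, S.rg, S.n2, S.pf (K.pfe l0 (B := B) (by omega) lg' (by omega)), ai, pe1, pe2,
    fun a b h1 h2 => lc a b (h1.mono (by omega)) (h2.mono (by omega)),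
    K.gtV ai S.n2 (by omega) h4 lc lg' (by omega)⟩

end Pool.Agent.Lib.MP_a2eab4_al.Re
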