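import Pool.Agent.Lib.MP_429c3d_al.NgT2
import Pool.Agent.Lib.MP_429c3d_al.NgTree
import Pool.Agent.Lib.MP_429c3d_al.HypPrj

set_option autoImplicit false

/-! Amalgams: normal forms, the universal property, the tree. -/

namespace Pool.Agent.Lib.MP_a2eab4_al.Rx

open Pool.Agent.Lib.MP_429c3d_al Hyp Ng

variable {G : Type} [Group G]

/-- Alternating words modulo the intersection of two subgroups. -/
def Alt (H : Bool → Subgroup G) (n : ℕ) (w : ℕ → G) (β : ℕ → Bool) : Prop :=
  ∀ i, i < n → (w i)⁻¹ * w (i + 1) ∈ H (β i) ∧ (w i)⁻¹ * w (i + 1) ∉ H (!β i) ∧ β (i + 1) = !β i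

/-- Alternating words are not in the intersection. -/
def NF (H : Bool → Subgroup G) : Prop :=
  ∀ n w β, Alt H (n + 1) w β → ¬ ∀ b, (w 0)⁻¹ * w (n + 1) ∈ H b

variable {H : Bool → Subgroup G}

theorem all_of {a : G} {b : Bool} (h : a ∈ H b) (h' : a ∈ H (!b)) (b' : Bool) : a ∈ H b' := by
  cases b <;> cases b' <;> assumption

theorem Alt.snoc {n : ℕ} {w : ℕ → G} {β : ℕ → Bool} (h : Alt H n w β) {a : G} (ha : a ∈ H (β n))
    (h1 : a ∉ H (!β n)) :
    Alt H (n + 1) (Function.update w (n + 1) (w n * a)) (Function.update β (n + 1) (!β n)) := by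
  intro i hi
  rw [Function.update_of_ne (by omega : i ≠ n + 1), Function.update_of_ne (by omega : i ≠ n + 1)]
  by_cases e : i = n
  · subst e
    simpa using ⟨ha, h1⟩
  · rw [Function.update_of_ne (by omega), Function.update_of_ne (by omega)]
    exact h i (by omega)

theorem exists_alt (H : Bool → Subgroup G) {f : G} (hf : f ∈ H false ⊔ H true) :
    ∃ n w β, w 0 = 1 ∧ Alt H n w β ∧ ∀ b, (w n)⁻¹ * f ∈ H b := by
  rw [Subgroup.sup_eq_closure] at hf
  have put : ∀ n w β f, w 0 = 1 → Alt H n w β → (w n)⁻¹ * f ∈ H (β n) →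
      ∃ n w β, w 0 = 1 ∧ Alt H n w β ∧ ∀ b, (w n)⁻¹ * f ∈ H b := by
    intro n w β f h0 h ha
    by_cases h1 : (w n)⁻¹ * f ∈ H (!β n)
    · exact ⟨n, w, β, h0, h, all_of ha h1⟩
    · exact ⟨n + 1, _, _, by simpa using h0, h.snoc ha h1, fun b => by simp⟩
  have key : ∀ f b a, a ∈ H b → (∃ n w β, w 0 = 1 ∧ Alt H n w β ∧ ∀ b, (w n)⁻¹ * f ∈ H b) →
      ∃ n w β, w 0 = 1 ∧ Alt H n w β ∧ ∀ b, (w n)⁻¹ * (f * a) ∈ H b := by
    rintro f b a ha ⟨n, w, β, h0, h, hn⟩
    have e1 : (w n)⁻¹ * (f * a) ∈ H b := mul_assoc _ f a ▸ (H b).mul_mem (hn b) ha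
    rcases n with _ | n
    · exact put 0 w (fun _ => b) _ h0 (fun i hi => by omega) e1
    obtain ⟨a1, -, a3⟩ := h n (by omega)
    by_cases e : β n = b
    · refine put n w β _ h0 (fun i hi => h i (by omega)) ?_
      have := (H _).mul_mem a1 (e ▸ e1)
      rwa [mul_assoc, mul_inv_cancel_left] at this
    · refine put (n + 1) w β _ h0 h ?_
      rwa [a3, show (!β n) = b by revert e; cases β n <;> cases b <;> simp]
  induction hf using Subgroup.closure_induction_right with
  | one => exact ⟨0, fun _ => 1, fun _ => true, rfl, fun i hi => by omega, fun b => by simp⟩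
  | mul_right x _ y hy ih => exact hy.elim (key x _ y · ih) (key x _ y · ih)
  | mul_inv_cancel x _ y hy ih =>
    exact hy.elim (fun h => key x _ _ ((H _).inv_mem h) ih) fun h => key x _ _ ((H _).inv_mem h) ih

/-- The universal property. -/
theorem NF.lift (nf : NF H) (gen : H false ⊔ H true = ⊤) {L : Type} [Group L]
    (φ : ∀ b, H b →* L) (hφ : ∀ a (h : a ∈ H false) (h' : a ∈ H true), φ _ ⟨a, h⟩ = φ _ ⟨a, h'⟩) :
    ∃ π : G →* L, ∀ b (a : H b), π a = φ b a := by
  let K : Bool → Subgroup (G × L) := fun b => ((H b).subtype.prod (φ b)).range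
  have mK : ∀ b (x : G × L), x ∈ K b ↔ ∃ h : x.1 ∈ H b, φ b ⟨x.1, h⟩ = x.2 := fun b x =>
    ⟨by rintro ⟨a, rfl⟩; exact ⟨a.2, rfl⟩, fun ⟨h, e⟩ => ⟨⟨x.1, h⟩, Prod.ext rfl e⟩⟩
  have tr : ∀ b (x : G × L), x ∈ K b → x.1 ∈ H (!b) → x ∈ K (!b) := by
    intro b x h1 h2
    obtain ⟨h3, e⟩ := (mK b x).1 h1
    refine (mK _ x).2 ⟨h2, Eq.trans ?_ e⟩
    cases b
    exacts [(hφ _ _ _).symm, hφ _ _ _]
  let P : (K false ⊔ K true : Subgroup (G × L)) →* G := (MonoidHom.fst G L).comp (Subgroup.subtype _)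
  have inj : Function.Injective P := by
    refine (injective_iff_map_eq_one P).2 fun x hx => ?_
    obtain ⟨n, w, β, h0, h, hn⟩ := exists_alt K x.2
    have hx' : x.1.1 = 1 := hx
    rcases n with _ | n
    · obtain ⟨h1, e⟩ := (mK _ _).1 (hn true)
      simp only [h0, inv_one, one_mul, hx'] at e
      exact Subtype.ext (Prod.ext hx' (e.symm.trans (map_one _)))
    · refine absurd (fun b => ?_) (nf n (fun i => (w i).1) β fun i hi => ?_)
      · have := (H b).inv_mem ((mK _ _).1 (hn b)).1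
        simpa [h0, hx'] using this
      · obtain ⟨a1, a2, a3⟩ := h i hi
        exact ⟨((mK _ _).1 a1).1, fun e => a2 (tr _ _ a1 e), a3⟩
  have le : ∀ b, K b ≤ K false ⊔ K true := fun b => by
    cases b
    exacts [le_sup_left, le_sup_right]
  have surj : Function.Surjective P := by
    rw [← MonoidHom.range_eq_top, eq_top_iff, ← gen]
    exact sup_le (fun a h => ⟨⟨_, le _ ⟨⟨a, h⟩, rfl⟩⟩, rfl⟩) fun a h => ⟨⟨_, le _ ⟨⟨a, h⟩, rfl⟩⟩, rfl⟩
  let e := MulEquiv.ofBijective P ⟨inj, surj⟩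
  refine ⟨((MonoidHom.snd G L).comp (Subgroup.subtype _)).comp e.symm.toMonoidHom, fun b a => ?_⟩
  have : e.symm a = ⟨_, le b ⟨a, rfl⟩⟩ := e.symm_apply_eq.2 rfl
  simp [this]

/-- Graphs without closed walks that never turn back are trees. -/
theorem hyp4_of_nb {V : Type} {d : V → V → ℕ} (hg : IsGr d)
    (h : ∀ (n : ℕ) (c : ℕ → V), (∀ i, i < n + 1 → d (c i) (c (i + 1)) = 1) →
      (∀ i, i + 2 ≤ n + 1 → c (i + 2) ≠ c i) → c (n + 1) ≠ c 0) : Hyp4 d 0 := by
  classical
  have m := hg.met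
  refine hyp4_of_cut hg fun u v huv => ?_
  let adj : V → V → Prop := fun a b => d a b = 1 ∧ ¬ (a = v ∧ b = u)
  have no : ¬ Relation.ReflTransGen adj v u := by
    intro r
    obtain ⟨c, c0, cn, cs⟩ := gw_gd r
    have mn : ∀ n, GW adj n v u → gd adj v u ≤ n := fun n => gd_le
    generalize gd adj v u = n at *
    have cut : ∀ i j, i ≤ j → j ≤ n → c i = c j → i = j := by
      intro i j h1 h2 e
      have a1 := GW.sub cs (Nat.zero_le i) (by omega)
      have a2 := GW.sub cs h2 le_rfl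
      rw [c0] at a1
      rw [cn, ← e] at a2
      have := mn _ (a1.trans a2)
      omega
    have st : ∀ i, i < n → adj (c i) (c (i + 1)) := fun i hi =>
      (cs i hi).resolve_left fun e => by have := cut i (i + 1) (by omega) hi e; omega
    refine h n (fun i => match i with | 0 => u | i + 1 => c i) (fun i hi => ?_) (fun i hi => ?_) cn
    · rcases i with _ | i
      · exact (congrArg (d u) c0).trans huv
      · exact (st i (by omega)).1
    · rcases i with _ | i
      · exact fun e => (st 0 (by omega)).2 ⟨c0, e⟩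
      · exact fun e => by have := cut i (i + 2) (by omega) (by omega) e.symm; omega
  exact ⟨{x | Relation.ReflTransGen adj v x}, .refl, no, fun a b h1 h2 h3 =>
    not_not.1 fun hn => h3 (h2.tail ⟨h1, hn⟩)⟩

/-- The tree of an amalgam. -/
structure Tree (H : Bool → Subgroup G) (V : Type) [MulAction G V] extends BT G V where
  vx : Bool → V
  stab : ∀ b (g : G), g • vx b = vx b ↔ g ∈ H b
  ne : ∀ b (g : G), g • vx b ≠ vx (!b)
  cover : ∀ u, ∃ (g : G) (b : Bool), u = g • vx b
  edge : ∀ u u', d u u' = 1 ↔ ∃ (g : G) (b : Bool), u = g • vx b ∧ u' = g • vx (!b)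

/-- Walks that never turn back give alternating words. -/
theorem alt_of_walk {V : Type} [MulAction G V] {vx : Bool → V}
    (stab : ∀ b (g : G), g • vx b = vx b ↔ g ∈ H b) (ne : ∀ b (g : G), g • vx b ≠ vx (!b))
    {n : ℕ} {c : ℕ → V} (h1 : ∀ i, i < n + 1 → ∃ (g : G) (b : Bool), c i = g • vx b ∧
      c (i + 1) = g • vx (!b)) (h2 : ∀ i, i + 2 ≤ n + 1 → c (i + 2) ≠ c i) :
    ∃ (w : ℕ → G) (β : ℕ → Bool), Alt H n w β ∧
      ∀ i, i ≤ n → c i = w i • vx (!β i) ∧ c (i + 1) = w i • vx (β i) := by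
  choose! w β hw using h1
  have eq : ∀ b (g g' : G), g • vx b = g' • vx b ↔ g⁻¹ * g' ∈ H b := fun b g g' => by
    rw [← stab, mul_smul, inv_smul_eq_iff, eq_comm]
  refine ⟨w, fun i => !β i, fun i hi => ?_, fun i hi => by simpa using hw i (by omega)⟩
  obtain ⟨a1, a2⟩ := hw i (by omega)
  obtain ⟨a3, a4⟩ := hw (i + 1) (by omega)
  have e : β (i + 1) = !β i := by
    by_contra hn
    rw [show β (i + 1) = β i by revert hn; cases β (i + 1) <;> cases β i <;> simp, a2] at a3
    exact ne (β i) ((w i)⁻¹ * w (i + 1)) (by rw [mul_smul, ← a3, inv_smul_smul])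
  rw [e] at a3 a4
  simp only [Bool.not_not] at a4 ⊢
  exact ⟨(eq _ _ _).1 (a2.symm.trans a3), fun h => h2 i (by omega)
    (a4.trans (((eq _ _ _).2 h).symm.trans a1.symm)), by rw [e, Bool.not_not]⟩

theorem NF.tree (nf : NF H) (gen : H false ⊔ H true = ⊤) :
    ∃ (V : Type) (_ : MulAction G V), Nonempty (Tree H V) := by
  let V := Σ b : Bool, G ⧸ H b
  let vx : Bool → V := fun b => ⟨b, QuotientGroup.mk 1⟩
  have sm : ∀ b (g : G), g • vx b = ⟨b, QuotientGroup.mk g⟩ := fun b g => by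
    change (⟨b, QuotientGroup.mk (g * 1)⟩ : V) = _
    rw [mul_one]
  have stab : ∀ b (g : G), g • vx b = vx b ↔ g ∈ H b := fun b g => by
    rw [sm, Sigma.mk.inj_iff, heq_iff_eq, QuotientGroup.eq]
    simp
  have ne : ∀ b (g : G), g • vx b ≠ vx (!b) := fun b g e => by
    have := congrArg Sigma.fst e
    rw [sm] at this
    simp [vx] at this
  have cover : ∀ u : V, ∃ (g : G) (b : Bool), u = g • vx b := by
    rintro ⟨b, q⟩
    induction q using QuotientGroup.induction_on with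
    | H g => exact ⟨g, b, (sm b g).symm⟩
  let adj : V → V → Prop := fun u u' => ∃ (g : G) (b : Bool), u = g • vx b ∧ u' = g • vx (!b)
  have symm : ∀ u u', adj u u' → adj u' u := by
    rintro _ _ ⟨g, b, rfl, rfl⟩
    exact ⟨g, !b, rfl, by rw [Bool.not_not]⟩
  have asm : ∀ (f : G) u u', adj u u' → adj (f • u) (f • u') := by
    rintro f _ _ ⟨g, b, rfl, rfl⟩
    exact ⟨f * g, b, (mul_smul _ _ _).symm, (mul_smul _ _ _).symm⟩
  have flip : ∀ (g : G) b b', Relation.ReflTransGen adj (g • vx b) (g • vx b') := fun g b b' => by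
    by_cases e : b' = b
    · rw [e]
    · exact .single ⟨g, b, rfl, by rw [show b' = !b by revert e; cases b <;> cases b' <;> simp]⟩
  have conn : ∀ u u', Relation.ReflTransGen adj u u' := by
    intro u u'
    obtain ⟨g, b, rfl⟩ := cover u
    obtain ⟨g', b', rfl⟩ := cover u'
    obtain ⟨n, w, β, h0, h, hn⟩ := exists_alt H (f := g⁻¹ * g') (gen ▸ Subgroup.mem_top _)
    have key : ∀ i, i ≤ n → ∀ b', Relation.ReflTransGen adj (g • vx b) ((g * w i) • vx b') := by
      intro i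
      induction i with
      | zero => exact fun _ b' => by rw [h0, mul_one]; exact flip g b b'
      | succ i ih =>
        intro hi b'
        refine (ih (by omega) (β i)).trans ?_
        rw [← (stab _ _).2 (h i hi).1, smul_smul, mul_assoc, mul_inv_cancel_left]
        exact flip _ _ _
    have := key n le_rfl b'
    rwa [← (stab _ _).2 (hn b'), smul_smul, mul_assoc, mul_inv_cancel_left,
      mul_inv_cancel_left] at this
  obtain ⟨Γ, E⟩ := gd_isGr symm conn
  have fst : ∀ (g : G) (u : V), (g • u).1 = u.1 := fun g u => rfl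
  have edge : ∀ u u', gd adj u u' = 1 ↔ adj u u' := fun u u' => by
    refine ⟨fun h => ((E u u').1 h.le).resolve_left fun e => ?_, fun h => ?_⟩
    · rw [e, Γ.met.self] at h
      omega
    · refine le_antisymm ((E u u').2 (Or.inr h)) (Nat.pos_of_ne_zero fun e => ?_)
      obtain ⟨g, b, rfl, rfl⟩ := h
      exact ne b 1 (by rw [one_smul]; exact MulAction.injective g (Γ.sep _ _ e))
  refine ⟨V, inferInstance, ⟨⟨⟨gd adj, fun u => u.1 = true, Γ, hyp4_of_nb Γ fun n c h1 h2 e => ?_,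
    fun u u' h => ?_, Γ.iso fun g u u' h => (E _ _).2 (((E _ _).1 h).imp (congrArg _) (asm g u u')),
    fun g u => by rw [fst]⟩, vx, stab, ne, cover, edge⟩⟩⟩
  · obtain ⟨w, β, A, hw⟩ := alt_of_walk stab ne (fun i hi => (edge _ _).1 (h1 i hi)) h2
    rw [(hw n le_rfl).2, (hw 0 (by omega)).1] at e
    have e1 : β n = !β 0 := congrArg Sigma.fst e
    rw [← e1, ← eq_inv_smul_iff, smul_smul, eq_comm, stab] at e
    by_cases h3 : (w n)⁻¹ * w 0 ∈ H (!β n)
    · rcases n with _ | n
      · simp at e1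
      · exact nf n w β A fun b => by simpa using (H b).inv_mem (all_of e h3 b)
    · exact nf n _ _ (A.snoc e h3) fun b => by simp
  · obtain ⟨g, b, rfl, rfl⟩ := (edge _ _).1 h
    simp [fst, vx]

end Pool.Agent.Lib.MP_a2eab4_al.Rx
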