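import Pool.Agent.Lib.MP_a2eab4_al.RtA
import Pool.Agent.Lib.MP_429c3d_al.HypChain
import Pool.Agent.Lib.MP_429c3d_al.NgBase

set_option autoImplicit false
set_option linter.unusedSectionVars false

/-! The tree of an amalgam in a hyperbolic graph. -/

namespace Pool.Agent.Lib.MP_a2eab4_al.Rx

open Pool.Agent.Lib.MP_429c3d_al Hyp Ng

variable {G Y V : Type} [Group G] [MulAction G Y] [MulAction G V] {H : Bool → Subgroup G}

/-- Products of at most `n` elements of the two subgroups. -/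
def Sy (H : Bool → Subgroup G) (n : ℕ) (g : G) : Prop :=
  ∃ l : List G, l.length ≤ n ∧ (∀ a ∈ l, a ∈ H false ∨ a ∈ H true) ∧ l.prod = g

/-- A bounded subgroup fixes a vertex. -/
theorem bt_fix (T : BT G V) {U : Subgroup G} {x : V} {n : ℕ} (h : ∀ g ∈ U, T.d x (g • x) ≤ n) :
    ∃ m : V, ∀ g ∈ U, g • m = m := by
  classical
  obtain ⟨r, ⟨a, ha, e⟩, mx⟩ : ∃ r, (∃ a ∈ U, T.d x (a • x) = r) ∧ ∀ g ∈ U, T.d x (g • x) ≤ r := by
    refine ⟨Nat.findGreatest (fun r => ∃ a ∈ U, T.d x (a • x) = r) n,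
      Nat.findGreatest_spec (P := fun r => ∃ a ∈ U, T.d x (a • x) = r) (h 1 U.one_mem)
        ⟨1, U.one_mem, rfl⟩, fun g hg => Nat.le_findGreatest (h g hg) ⟨g, hg, rfl⟩⟩
  have p := T.par_smul a x
  obtain ⟨m, m1, m2⟩ := T.exists_pt x (a • x) (k := r / 2) (by omega)
  have key : ∀ g ∈ U, T.d (g • x) m ≤ r / 2 := fun g hg => by
    have e1 := T.hyp x (a • x) (g • x) m
    have e2 := mx g hg
    have e3 := mx _ (U.mul_mem (U.inv_mem ha) hg)
    rw [mul_smul, T.inv', inv_inv] at e3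
    have := T.symm (a • x) m
    omega
  refine ⟨m, fun g hg => ?_⟩
  have e1 := key g hg
  have e2 := key _ (U.mul_mem hg ha)
  have e3 := T.inv g x (a • x)
  have e4 := T.inv g x m
  have e5 := T.inv g m (a • x)
  have e6 := T.tri (g • x) m (g • a • x)
  rw [mul_smul, T.symm] at e2
  exact T.uniq (x := g • x) (y := g • a • x) (by omega) (by omega) (by omega)

/-- Commuting elliptic elements have a common fixed vertex. -/
theorem bt_comm (T : BT G V) [Nonempty V] (l : List G) (hc : ∀ a ∈ l, ∀ b ∈ l, Commute a b)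
    (he : ∀ a ∈ l, ∃ x : V, a • x = x) : ∃ m : V, ∀ a ∈ l, a • m = m := by
  induction l with
  | nil => exact ⟨Classical.arbitrary V, by simp⟩
  | cons a l ih =>
    obtain ⟨x, hx⟩ := ih (fun a h b h' => hc a (by simp [h]) b (by simp [h']))
      fun a h => he a (by simp [h])
    obtain ⟨x0, h0⟩ := he a (by simp)
    obtain ⟨m, m1, m2, m3, -⟩ := T.exists_mid h0 x
    refine ⟨m, fun b hb => (List.mem_cons.1 hb).elim (fun e => e ▸ m1) fun h => ?_⟩
    refine T.fix_of_between (hx b h) (y := a • x) ?_ (by omega)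
    rw [smul_smul, (hc b hb a (by simp)).eq, mul_smul, hx b h]

namespace Tree

variable (T : Tree H V)
include T

theorem eq_iff (b : Bool) (g g' : G) : g • T.vx b = g' • T.vx b ↔ g⁻¹ * g' ∈ H b := by
  rw [← T.stab, mul_smul, inv_smul_eq_iff, eq_comm]

theorem ty {b b' : Bool} {g g' : G} (h : g • T.vx b = g' • T.vx b') : b = b' := by
  by_contra hn
  rw [show b' = !b by revert hn; cases b <;> cases b' <;> simp] at h
  exact T.ne b (g'⁻¹ * g) (by rw [mul_smul, h, inv_smul_smul])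

theorem adj (g : G) (b : Bool) : T.d (g • T.vx b) (g • T.vx (!b)) = 1 :=
  (T.edge _ _).2 ⟨g, b, rfl, rfl⟩

/-- An element with a fixed vertex is conjugate into one of the subgroups. -/
theorem conj (m : V) : ∃ (g : G) (b : Bool), ∀ a : G, a • m = m ↔ g⁻¹ * a * g ∈ H b := by
  obtain ⟨g, b, rfl⟩ := T.cover m
  exact ⟨g, b, fun a => by rw [smul_smul, eq_comm, T.eq_iff, mul_assoc]⟩

/-- An element with two fixed vertices is conjugate into the intersection. -/
theorem two {a : G} {u u' : V} (h : a • u = u) (h' : a • u' = u') (hn : u ≠ u') :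
    ∃ g : G, ∀ b, g⁻¹ * a * g ∈ H b := by
  obtain ⟨v, v1, v2⟩ := T.exists_pt u u' (k := 1) (T.pos hn)
  have hv := T.fix_of_between h h' (u := v) (by omega)
  obtain ⟨g, b, rfl, rfl⟩ := (T.edge _ _).1 v1
  rw [smul_smul, eq_comm, T.eq_iff, ← mul_assoc] at h hv
  exact ⟨g, all_of h hv⟩

theorem walk (u u' : V) {n : ℕ} (h : T.d u u' = n + 1) :
    ∃ (c : ℕ → V) (w : ℕ → G) (β : ℕ → Bool), c 0 = u ∧ c (n + 1) = u' ∧ GeoOn T.d c 0 (n + 1) ∧
      Alt H n w β ∧ ∀ i, i ≤ n → c i = w i • T.vx (!β i) ∧ c (i + 1) = w i • T.vx (β i) := by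
  obtain ⟨c, c0, c1, c2⟩ := T.gr.exists_geo u u'
  rw [h] at c1 c2
  obtain ⟨w, β, A, hw⟩ := alt_of_walk T.stab T.ne (n := n) (c := c) (fun i hi => (T.edge _ _).1 (by
    have := c2 i (i + 1) (by omega) (by omega) (by omega)
    omega)) fun i hi e => by
      have := c2 i (i + 2) (by omega) (by omega) hi
      rw [e, T.self] at this
      omega
  exact ⟨c, w, β, c0, c1, c2, A, hw⟩

theorem le_of_sy {n : ℕ} {g : G} (h : Sy H n g) (b : Bool) : T.d (T.vx b) (g • T.vx b) ≤ 2 * n := by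
  obtain ⟨l, h1, h2, rfl⟩ := h
  induction l generalizing n with
  | nil => simp [T.self]
  | cons a l ih =>
    have e1 := ih le_rfl fun a h => h2 a (by simp [h])
    have e2 := T.tri (T.vx b) (a • T.vx b) (a • l.prod • T.vx b)
    have e3 : T.d (T.vx b) (a • T.vx b) ≤ 2 := by
      have key : ∀ b', a ∈ H b' → T.d (T.vx b) (a • T.vx b) ≤ 2 := fun b' h => by
        by_cases e : b' = b
        · rw [(T.stab b a).2 (e ▸ h), T.self]
          omega
        · have a1 := T.adj 1 b
          have a2 := T.adj a b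
          rw [show b' = !b by revert e; cases b <;> cases b' <;> simp] at h
          rw [(T.stab _ a).2 h, T.symm] at a2
          simp only [one_smul] at a1
          have := T.tri (T.vx b) (T.vx (!b)) (a • T.vx b)
          omega
      exact (h2 a (by simp)).elim (key _) (key _)
    rw [T.inv] at e2
    rw [List.prod_cons, mul_smul]
    simp only [List.length_cons] at h1
    omega

theorem sy_of_le (g : G) (b b' : Bool) : Sy H (T.d (T.vx b) (g • T.vx b') + 1) g := by
  have or : ∀ {a : G} {b : Bool}, a ∈ H b → a ∈ H false ∨ a ∈ H true := fun {a b} h => by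
    cases b
    exacts [Or.inl h, Or.inr h]
  have snoc : ∀ {n : ℕ} {f a : G} {b : Bool}, Sy H n f → a ∈ H b → Sy H (n + 1) (f * a) := by
    rintro n _ a b ⟨l, h1, h2, rfl⟩ h
    exact ⟨l ++ [a], by simpa using h1, fun x hx => (List.mem_append.1 hx).elim (h2 x)
      fun e => by rw [List.mem_singleton.1 e]; exact or h, by simp⟩
  have one : Sy H 0 1 := ⟨[], le_rfl, by simp, rfl⟩
  rcases h : T.d (T.vx b) (g • T.vx b') with _ | n
  · have e := T.sep h
    obtain rfl : b = b' := T.ty ((one_smul G _).trans e)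
    simpa using snoc one ((T.stab _ _).1 e.symm)
  obtain ⟨c, w, β, c0, c1, -, A, hw⟩ := T.walk _ _ h
  have key : ∀ i, i ≤ n → Sy H (i + 1) (w i) := by
    intro i
    induction i with
    | zero =>
      intro _
      have e := (hw 0 (by omega)).1
      rw [c0] at e
      rw [← T.ty ((one_smul G _).trans e)] at e
      simpa using snoc one ((T.stab _ _).1 e.symm)
    | succ i ih => exact fun hi => by simpa using snoc (ih (by omega)) (A i hi).1
  have e := (hw n le_rfl).2
  rw [c1] at e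
  rw [← T.ty e] at e
  simpa using snoc (key n le_rfl) ((T.eq_iff _ _ _).1 e.symm)

end Tree

/-- A long segment and two subgroups that turn it around its ends. -/
structure Png (d : Y → Y → ℕ) (H : Bool → Subgroup G) (ξ : Bool → Y) (k c l0 l1 : ℕ) : Prop where
  gr : IsGr d
  hyp : Hyp4 d k
  iso : Isom G d
  fix : ∀ b a, a ∈ H b → d (ξ b) (a • ξ b) ≤ c
  turn : ∀ b a, a ∈ H b → a ∉ H (!b) → 2 * d (ξ false) (ξ true) ≤ d (ξ !b) (a • ξ !b) + c
  lo : l0 ≤ d (ξ false) (ξ true)
  hi : d (ξ false) (ξ true) ≤ l1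
  big : 20 * (c + k + 1) ≤ l0

/-- The points at a vertex of the tree. -/
def Tree.At (T : Tree H V) (ξ : Bool → Y) (u : V) (x : Y) : Prop :=
  ∃ (g : G) (b : Bool), u = g • T.vx b ∧ x = g • ξ b

theorem Tree.at_ne (T : Tree H V) (ξ : Bool → Y) (u : V) : ∃ x, T.At ξ u x :=
  let ⟨g, b, h⟩ := T.cover u
  ⟨_, g, b, h, rfl⟩

namespace Png

variable {d : Y → Y → ℕ} {ξ : Bool → Y} {k c l0 l1 : ℕ} (P : Png d H ξ k c l0 l1)
include P

theorem len (g : G) (b : Bool) : d (g • ξ b) (g • ξ !b) = d (ξ false) (ξ true) := by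
  rw [P.iso]
  cases b
  · rfl
  · exact P.gr.met.symm _ _

theorem near {g g' : G} {b : Bool} (h : g⁻¹ * g' ∈ H b) : d (g • ξ b) (g' • ξ b) ≤ c := by
  have := P.fix b _ h
  rwa [← P.iso g, smul_smul, mul_inv_cancel_left] at this

theorem broken {n : ℕ} {w : ℕ → G} {β : ℕ → Bool} (A : Alt H n w β) {z : ℕ → Y}
    (h : ∀ i, i ≤ n → d (z i) (w i • ξ !β i) ≤ c ∧ d (z (i + 1)) (w i • ξ (β i)) ≤ c) :
    Broken d z (n + 1) (7 * c) (l0 - 2 * c) := by
  have m := P.gr.met
  have lo := P.lo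
  have key : ∀ i, i ≤ n → d (ξ false) (ξ true) ≤ d (z i) (z (i + 1)) + 2 * c ∧
      d (z i) (z (i + 1)) ≤ d (ξ false) (ξ true) + 2 * c := fun i hi => by
    obtain ⟨a1, a2⟩ := h i hi
    have := P.len (w i) (β i)
    have := m.tri (w i • ξ (β i)) (z (i + 1)) (w i • ξ !β i)
    have := m.tri (z (i + 1)) (z i) (w i • ξ !β i)
    have := m.tri (z (i + 1)) (w i • ξ (β i)) (z i)
    have := m.tri (w i • ξ (β i)) (w i • ξ !β i) (z i)
    have := m.symm (w i • ξ (β i)) (z (i + 1))
    have := m.symm (w i • ξ !β i) (z i)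
    have := m.symm (z i) (z (i + 1))
    omega
  refine ⟨fun i hi => by have := key i (by omega); omega, fun i hi => ?_⟩
  obtain ⟨a1, a2, a3⟩ := A i (by omega)
  have e1 := P.turn _ _ a1 a2
  rw [← P.iso (w i) (ξ !β i), smul_smul, mul_inv_cancel_left] at e1
  have e2 := (h i (by omega)).1
  have e3 := (h (i + 1) (by omega)).2
  rw [a3] at e3
  have := key i (by omega)
  have := key (i + 1) (by omega)
  have := m.tri (w i • ξ !β i) (z i) (w (i + 1) • ξ !β i)
  have := m.tri (z i) (z (i + 1 + 1)) (w (i + 1) • ξ !β i)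
  have := m.symm (w i • ξ !β i) (z i)
  have := m.symm (z i) (z (i + 1))
  simp only [show i + 1 + 1 = i + 2 from rfl] at *
  omega

theorem far_of {z : ℕ → Y} {n : ℕ} (B : Broken d z n (7 * c) (l0 - 2 * c)) {t : ℕ} (ht : t ≤ n) :
    t * (l0 - (9 * c + k)) ≤ d (z 0) (z t) := by
  have big := P.big
  have e := B.dist P.gr.met P.hyp (by omega) 0 t (by omega)
  rw [show l0 - 2 * c = l0 - (9 * c + k) + (7 * c + k) by omega, Nat.mul_add, Nat.zero_add] at e
  omega

theorem nf : NF H := by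
  intro n w β A h
  have big := P.big
  have m := P.gr.met
  have B := P.broken A (z := fun i => if i ≤ n + 1 then w i • ξ !β i else w (n + 1) • ξ (β (n + 1)))
    fun i hi => by
      simp only [hi, if_true, m.self]
      split_ifs with e
      · rw [(A i e).2.2, Bool.not_not, m.symm]
        exact ⟨by omega, P.near (A i e).1⟩
      · rw [show i = n + 1 by omega, m.self]
        omega
  have e1 := P.far_of B (t := n + 1) (by omega)
  have e2 := P.far_of B (t := n + 2) (by omega)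
  have e3 := P.near (h !β 0)
  simp only [Nat.zero_le, le_refl, if_true, show ¬ n + 2 ≤ n + 1 by omega, if_false,
    Nat.add_mul] at e1 e2
  by_cases e : β (n + 1) = β 0
  · rw [e] at e1
    omega
  · rw [show β (n + 1) = !β 0 by revert e; cases β (n + 1) <;> cases β 0 <;> simp] at e2
    omega

variable (T : Tree H V)

theorem at_near {u : V} {x x' : Y} (h : T.At ξ u x) (h' : T.At ξ u x') : d x x' ≤ c := by
  obtain ⟨g, b, rfl, rfl⟩ := h
  obtain ⟨g', b', e, rfl⟩ := h'
  obtain rfl := T.ty e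
  exact P.near ((T.eq_iff _ _ _).1 e)

theorem path (u u' : V) : ∃ (γ : ℕ → V) (z : ℕ → Y), γ 0 = u ∧ γ (T.d u u') = u' ∧
    GeoOn T.d γ 0 (T.d u u') ∧ (∀ i, T.At ξ (γ i) (z i)) ∧
    Broken d z (T.d u u') (7 * c) (l0 - 2 * c) := by
  choose pt hp using T.at_ne ξ
  rcases h : T.d u u' with _ | n
  · exact ⟨fun _ => u, fun _ => pt u, rfl, T.sep h, fun i j _ _ _ => by rw [T.self]; omega,
      fun _ => hp u, fun i hi => by omega, fun i hi => by omega⟩
  obtain ⟨γ, w, β, c0, c1, c2, A, hw⟩ := T.walk _ _ h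
  exact ⟨γ, fun i => pt (γ i), c0, c1, c2, fun i => hp _, P.broken A fun i hi =>
    ⟨P.at_near T (hp _) ⟨_, _, (hw i hi).1, rfl⟩, P.at_near T (hp _) ⟨_, _, (hw i hi).2, rfl⟩⟩⟩

/-- Betweenness in the tree gives almost betweenness in the space. -/
theorem nb {u v u' : V} (h : T.d u v + T.d v u' = T.d u u') {x y x' : Y} (h1 : T.At ξ u x)
    (h2 : T.At ξ v y) (h3 : T.At ξ u' x') : d y x + d y x' ≤ d x x' + (13 * c + 2 * k) := by
  obtain ⟨γ, z, c0, c1, c2, hz, B⟩ := P.path T u u'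
  have big := P.big
  have m := P.gr.met
  have e1 := c2 0 (T.d u v) le_rfl (by omega) (by omega)
  have e2 := c2 (T.d u v) _ (by omega) (by omega) le_rfl
  rw [c0] at e1
  rw [c1] at e2
  have e3 : γ (T.d u v) = v := T.uniq (x := u) (y := u') (by omega) h (by omega)
  have e4 := B.prod m P.hyp (by omega) (Nat.zero_le (T.d u v)) (r := T.d u u') (by omega) le_rfl
  have a1 := P.at_near T (c0 ▸ hz 0) h1
  have a2 := P.at_near T h2 (e3 ▸ hz (T.d u v))
  have a3 := P.at_near T (c1 ▸ hz (T.d u u')) h3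
  have := m.tri y (z (T.d u v)) x
  have := m.tri (z (T.d u v)) (z 0) x
  have := m.tri y (z (T.d u v)) x'
  have := m.tri (z (T.d u v)) (z (T.d u u')) x'
  have := m.tri (z 0) x (z (T.d u u'))
  have := m.tri x x' (z (T.d u u'))
  have := m.symm x' (z (T.d u u'))
  omega

theorem lower {u u' : V} {x x' : Y} (h1 : T.At ξ u x) (h3 : T.At ξ u' x') :
    T.d u u' * (l0 - (9 * c + k)) ≤ d x x' + 2 * c := by
  obtain ⟨γ, z, c0, c1, -, hz, B⟩ := P.path T u u'
  have m := P.gr.met
  have := P.far_of B le_rfl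
  have a1 := P.at_near T (c0 ▸ hz 0) h1
  have a3 := P.at_near T h3 (c1 ▸ hz (T.d u u'))
  have := m.tri (z 0) x (z (T.d u u'))
  have := m.tri x x' (z (T.d u u'))
  omega

theorem far {u u' : V} {x x' : Y} (h1 : T.At ξ u x) (h3 : T.At ξ u' x') (h : u ≠ u') :
    l0 ≤ d x x' + 11 * c + k := by
  have := P.lower T h1 h3
  have := Nat.mul_le_mul_right (l0 - (9 * c + k)) (T.pos h)
  omega

theorem le_dist {u u' : V} {x x' : Y} (h1 : T.At ξ u x) (h3 : T.At ξ u' x') :
    T.d u u' ≤ d x x' := by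
  have e := P.lower T h1 h3
  have big := P.big
  rcases h : T.d u u' with _ | n
  · omega
  have := Nat.mul_le_mul_left (n + 1) (show 1 + 2 * c ≤ l0 - (9 * c + k) by omega)
  have := Nat.mul_le_mul_right (2 * c) (show 1 ≤ n + 1 by omega)
  rw [h] at e
  rw [Nat.mul_add] at *
  omega

theorem step {u u' : V} {x x' : Y} (h1 : T.At ξ u x) (h3 : T.At ξ u' x') (h : T.d u u' = 1) :
    d x x' ≤ l1 + 2 * c := by
  obtain ⟨g, b, rfl, rfl⟩ := (T.edge _ _).1 h
  have := P.at_near T h1 ⟨g, b, rfl, rfl⟩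
  have := P.at_near T ⟨g, !b, rfl, rfl⟩ h3
  have := P.len g b
  have := P.hi
  have := P.gr.met.tri x (g • ξ b) x'
  have := P.gr.met.tri (g • ξ b) (g • ξ !b) x'
  omega

theorem upper {u u' : V} {x x' : Y} (h1 : T.At ξ u x) (h3 : T.At ξ u' x') :
    d x x' ≤ T.d u u' * (l1 + 2 * c) + c := by
  refine T.gr.induct u (P := fun n v => ∀ y, T.At ξ v y → d x y ≤ n * (l1 + 2 * c) + c)
    (fun y hy => by simpa using P.at_near T h1 hy) (fun n v v' _ _ h ih y hy => ?_) u' x' h3
  obtain ⟨z, hz⟩ := T.at_ne ξ v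
  have := ih z hz
  have := P.step T hz hy h
  have := P.gr.met.tri x z y
  rw [Nat.add_mul]
  omega

/-- Quasi-convexity. -/
theorem qc {u u' : V} {x x' w : Y} (h1 : T.At ξ u x) (h3 : T.At ξ u' x')
    (hw : d x w + d w x' = d x x') : ∃ v y, T.At ξ v y ∧ d w y ≤ l1 + 20 * c + 4 * k := by
  classical
  have m := P.gr.met
  obtain ⟨γ, z, c0, c1, c2, hz, -⟩ := P.path T u u'
  have ex : ∃ t, t ≤ T.d u u' ∧ d x w ≤ d x (z t) + c := ⟨_, le_rfl, by
    have := P.at_near T (c1 ▸ hz (T.d u u')) h3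
    have := m.tri x (z (T.d u u')) x'
    omega⟩
  obtain ⟨t1, t2⟩ := Nat.find_spec ex
  have t3 := fun t => Nat.find_min ex (m := t)
  generalize Nat.find ex = t at *
  have e1 := c2 0 t le_rfl (by omega) t1
  have e2 := c2 t _ (by omega) t1 le_rfl
  rw [c0] at e1
  rw [c1] at e2
  have e3 := P.nb T (by omega) h1 (hz t) h3
  have e4 : d x (z t) ≤ d x w + l1 + 2 * c := by
    rcases t with _ | t
    · have := P.at_near T h1 (c0 ▸ hz 0)
      omega
    · have := not_and.1 (t3 t (by omega)) (by omega)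
      have := P.step T (hz t) (hz (t + 1)) (by
        have := c2 t (t + 1) (by omega) (by omega) t1
        omega)
      have := m.tri x (z t) (z (t + 1))
      omega
  have := P.hyp w (z t) x x'
  have := m.symm w x
  have := m.symm (z t) x
  exact ⟨_, _, hz t, by omega⟩

omit T in
theorem sub (F : Subgroup G) : Png d (fun b => (H b).subgroupOf F) ξ k c l0 l1 :=
  ⟨P.gr, P.hyp, fun g => P.iso g, fun b a h => P.fix b a h, fun b a h h' => P.turn b a h h', P.lo,
    P.hi, P.big⟩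

omit T in
theorem tree : ∃ (V : Type) (_ : MulAction (H false ⊔ H true : Subgroup G) V),
    Nonempty (Tree (fun b => (H b).subgroupOf (H false ⊔ H true)) V) :=
  (P.sub _).nf.tree (by
    rw [← Subgroup.subgroupOf_sup le_sup_left le_sup_right, Subgroup.subgroupOf_self])

end Png

end Pool.Agent.Lib.MP_a2eab4_al.Rx
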