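import Pool.Agent.Lib.MP_a2eab4_al.RtM
import Pool.Agent.Lib.MP_a2eab4_al.RcB

set_option autoImplicit false
set_option linter.unusedSectionVars false

/-! The two vertex groups of a top edge. -/

namespace Pool.Agent.Lib.MP_a2eab4_al.Rx

open Pool.Agent.Lib.MP_429c3d_al Hyp Ng Sum
open Re (Bd)
open Rc (YH cY NT)

section alg

variable {G : Type} [Group G]

/-- The common centraliser is abelian. -/
def AB (y t : G) : Prop := ∀ a b, Cen y t a → Cen y t b → Commute a b

/-- Products of an element of the common centraliser and a power of `a`. -/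
def Tz (y t a g : G) : Prop := ∃ (δ : G) (i : ℤ), Cen y t δ ∧ g = δ * a ^ i

/-- The roots. -/
def Sat (y t g : G) : Prop := ∃ n : ℕ, n ≠ 0 ∧ Tz y t y (g ^ n)

/-- The two vertex groups. -/
def HH (y t : G) : Bool → Subgroup G
  | false => Subgroup.closure {g | Sat y t g}
  | true => Subgroup.closure {g | Tz y t (t * y * t⁻¹) g}

/-- The amalgam. -/
def FF (y t : G) : Subgroup G := HH y t false ⊔ HH y t true

/-- The pairs agree up to conjugation and the common centraliser. -/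
def Rel (y t y' t' : G) : Prop :=
  ∃ h : G, Cen y t (y⁻¹ * (h * y' * h⁻¹)) ∧ Cen y t (t⁻¹ * (h * t' * h⁻¹))

variable {y t a b g g' δ δ' : G}

theorem Cen.one : Cen y t 1 := ⟨Commute.one_left _, Commute.one_left _⟩

theorem Cen.mul (h : Cen y t δ) (h' : Cen y t δ') : Cen y t (δ * δ') :=
  ⟨h.1.mul_left h'.1, h.2.mul_left h'.2⟩

theorem Cen.inv (h : Cen y t δ) : Cen y t δ⁻¹ := ⟨h.1.inv_left, h.2.inv_left⟩

theorem Cen.zpow (h : Cen y t δ) (i : ℤ) : Cen y t (δ ^ i) := ⟨h.1.zpow_left i, h.2.zpow_left i⟩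

theorem Cen.eps (h : Cen y t δ) : Commute δ (t * y * t⁻¹) :=
  (h.2.mul_right h.1).mul_right h.2.inv_right

theorem Tz.of (h : Cen y t δ) : Tz y t a δ := ⟨δ, 0, h, by simp⟩

theorem Tz.self : Tz y t a a := ⟨1, 1, Cen.one, by simp⟩

theorem Tz.mul (ha : ∀ δ, Cen y t δ → Commute δ a) (h : Tz y t a g) (h' : Tz y t a g') :
    Tz y t a (g * g') := by
  obtain ⟨δ, i, h1, rfl⟩ := h
  obtain ⟨δ', j, h2, rfl⟩ := h'
  refine ⟨_, i + j, h1.mul h2, ?_⟩
  rw [zpow_add, mul_assoc, mul_assoc, ← mul_assoc _ δ', ← ((ha _ h2).zpow_right i).eq, mul_assoc]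

theorem Tz.zpow (ha : ∀ δ, Cen y t δ → Commute δ a) (h : Tz y t a g) (j : ℤ) : Tz y t a (g ^ j) := by
  obtain ⟨δ, i, h1, rfl⟩ := h
  exact ⟨_, i * j, h1.zpow j, by rw [((ha _ h1).zpow_right i).mul_zpow, zpow_mul]⟩

theorem Tz.comm (h : Tz y t a g) (h1 : ∀ δ, Cen y t δ → Commute δ b) (h2 : Commute a b) :
    Commute g b := by
  obtain ⟨δ, i, h3, rfl⟩ := h
  exact (h1 δ h3).mul_left (h2.zpow_left i)

theorem Tz.conj (h : Tz y t (t * y * t⁻¹) g) : Tz y t y (t⁻¹ * g * t) := by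
  obtain ⟨δ, i, h1, rfl⟩ := h
  refine ⟨δ, i, h1, ?_⟩
  rw [conj_zpow, ← mul_assoc, ← h1.2.inv_right.eq]
  group

theorem mem_true : g ∈ HH y t true ↔ Tz y t (t * y * t⁻¹) g := by
  refine ⟨fun h => ?_, fun h => Subgroup.subset_closure h⟩
  induction h using Subgroup.closure_induction with
  | mem _ h => exact h
  | one => exact Tz.of Cen.one
  | mul _ _ _ _ h h' => exact h.mul (fun _ => Cen.eps) h'
  | inv _ _ h => simpa using h.zpow (fun _ => Cen.eps) (-1)

theorem Sat.of (h : Tz y t y g) : Sat y t g := ⟨1, one_ne_zero, by rwa [pow_one]⟩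

theorem Sat.comm (rg : RG G) (h : Sat y t g) (h1 : ∀ δ, Cen y t δ → Commute δ b)
    (h2 : Commute y b) : Commute g b :=
  let ⟨n, hn, h⟩ := h
  rg _ _ n hn (h.comm h1 h2)

theorem Sat.comm_y (rg : RG G) (h : Sat y t g) : Commute g y :=
  h.comm rg (fun _ h => h.1) (Commute.refl y)

theorem Sat.comm_cen (rg : RG G) (ab : AB y t) (h : Sat y t g) (hδ : Cen y t δ) : Commute g δ :=
  h.comm rg (fun _ h => ab _ _ h hδ) hδ.1.symm

theorem Sat.comm_sat (rg : RG G) (ab : AB y t) (h : Sat y t g) (h' : Sat y t g') : Commute g g' :=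
  h.comm rg (fun _ h => (h'.comm_cen rg ab h).symm) (h'.comm_y rg).symm

theorem mem_false (rg : RG G) (ab : AB y t) : g ∈ HH y t false ↔ Sat y t g := by
  refine ⟨fun h => ?_, fun h => Subgroup.subset_closure h⟩
  induction h using Subgroup.closure_induction with
  | mem _ h => exact h
  | one => exact Sat.of (Tz.of Cen.one)
  | mul a b _ _ h h' =>
    have c := h.comm_sat rg ab h'
    obtain ⟨n, hn, h⟩ := h
    obtain ⟨m, hm, h'⟩ := h'
    refine ⟨n * m, by positivity, ?_⟩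
    have := (h.zpow (fun _ h => h.1) m).mul (fun _ h => h.1) (h'.zpow (fun _ h => h.1) n)
    rwa [zpow_natCast, zpow_natCast, ← pow_mul, ← pow_mul, mul_comm m n, ← c.mul_pow] at this
  | inv _ _ h =>
    obtain ⟨n, hn, h⟩ := h
    exact ⟨n, hn, by simpa using h.zpow (fun _ h => h.1) (-1)⟩

theorem cen_mem (h : Cen y t δ) : ∀ b, δ ∈ HH y t b
  | false => Subgroup.subset_closure (Sat.of (Tz.of h))
  | true => Subgroup.subset_closure (Tz.of h)

theorem y_mem : y ∈ HH y t false := Subgroup.subset_closure (Sat.of Tz.self)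

theorem eps_mem : t * y * t⁻¹ ∈ HH y t true := Subgroup.subset_closure Tz.self

theorem HH_le : ∀ b, HH y t b ≤ FF y t
  | false => le_sup_left
  | true => le_sup_right

/-- The first group is closed under roots. -/
theorem root_false (rg : RG G) (ab : AB y t) {n : ℕ} (hn : n ≠ 0) (h : g ^ n ∈ HH y t false) :
    g ∈ HH y t false := by
  obtain ⟨m, hm, h⟩ := (mem_false rg ab).1 h
  exact (mem_false rg ab).2 ⟨n * m, by positivity, by rwa [pow_mul]⟩

/-- The vertex groups are abelian. -/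
theorem HH_comm (rg : RG G) (ab : AB y t) : ∀ {s : Bool}, a ∈ HH y t s → b ∈ HH y t s → Commute a b
  | false, h, h' => ((mem_false rg ab).1 h).comm_sat rg ab ((mem_false rg ab).1 h')
  | true, h, h' => (mem_true.1 h).comm
      (fun _ e => ((mem_true.1 h').comm (fun _ e' => ab _ _ e' e) e.eps.symm).symm)
      ((mem_true.1 h').comm (fun _ => Cen.eps) (Commute.refl _)).symm

/-- The common centraliser is central in the amalgam. -/
theorem FF_comm (rg : RG G) (ab : AB y t) (hδ : Cen y t δ) (h : g ∈ FF y t) : Commute δ g :=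
  (sup_le (fun _ h => Subgroup.mem_centralizer_singleton_iff.2 (HH_comm rg ab h (cen_mem hδ _)))
    (fun _ h => Subgroup.mem_centralizer_singleton_iff.2 (HH_comm rg ab h (cen_mem hδ _))) :
    FF y t ≤ Subgroup.centralizer {δ}) h |> Subgroup.mem_centralizer_singleton_iff.1 |>.symm

/-- An element of the second group that commutes with `y` is in the common centraliser. -/
theorem cen_of_true (rg : RG G) (nc : ¬ Commute y (t * y * t⁻¹)) (h : g ∈ HH y t true)
    (c : Commute g y) : Cen y t g := by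
  obtain ⟨δ, i, h1, rfl⟩ := mem_true.1 h
  by_cases hi : i = 0
  · simpa [hi] using h1
  · exact (nc (rg.zpow hi (by simpa using h1.1.inv_left.mul_left c)).symm).elim

/-- The intersection of the vertex groups. -/
theorem cen_of_both (rg : RG G) (nc : ¬ Commute y (t * y * t⁻¹)) (ab : AB y t)
    (h : ∀ b, g ∈ HH y t b) : Cen y t g :=
  cen_of_true rg nc (h true) (HH_comm rg ab (h false) y_mem)

/-- The order of `y` modulo the common centraliser is infinite. -/
theorem zpow_cen (rg : RG G) (nc : ¬ Commute y t) {i : ℤ} (h : Cen y t (y ^ i)) : i = 0 :=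
  not_not.1 fun hi => nc (rg.zpow hi h.2)

theorem cen_conj (h : G) : Cen (h * y * h⁻¹) (h * t * h⁻¹) (h * δ * h⁻¹) ↔ Cen y t δ :=
  ⟨fun e => ⟨by simpa [mul_assoc] using commute_conj e.1 h⁻¹,
    by simpa [mul_assoc] using commute_conj e.2 h⁻¹⟩,
    fun e => ⟨commute_conj e.1 h, commute_conj e.2 h⟩⟩

theorem AB.conj (ab : AB y t) (h : G) : AB (h * y * h⁻¹) (h * t * h⁻¹) := fun a b ha hb => by
  have := commute_conj (ab (h⁻¹ * a * h) (h⁻¹ * b * h)
    ((cen_conj h).1 (by simpa [mul_assoc] using ha))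
    ((cen_conj h).1 (by simpa [mul_assoc] using hb))) h
  simpa [mul_assoc] using this

/-- A twist does not change the common centraliser. -/
theorem cen_twist (ab : AB y t) (h1 : Cen y t δ) (h2 : Cen y t δ') (ab' : AB (y * δ) (t * δ')) :
    Cen (y * δ) (t * δ') a ↔ Cen y t a := by
  have fw : ∀ a, Cen y t a → Cen (y * δ) (t * δ') a := fun a h =>
    ⟨h.1.mul_right (ab _ _ h h1), h.2.mul_right (ab _ _ h h2)⟩
  exact ⟨fun h => ⟨by simpa using h.1.mul_right (ab' _ _ h (fw _ h1)).inv_right,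
    by simpa using h.2.mul_right (ab' _ _ h (fw _ h2)).inv_right⟩, fw a⟩

theorem rel_cen {y' t' h : G} (ab : AB y t) (ab' : AB y' t') (h1 : Cen y t (y⁻¹ * (h * y' * h⁻¹)))
    (h2 : Cen y t (t⁻¹ * (h * t' * h⁻¹))) : Cen y t (h * a * h⁻¹) ↔ Cen y' t' a := by
  have := cen_twist (a := h * a * h⁻¹) ab h1 h2
  rw [mul_inv_cancel_left, mul_inv_cancel_left] at this
  exact (this (ab'.conj h)).symm.trans (cen_conj h)

theorem Rel.refl : Rel y t y t := ⟨1, by simpa using Cen.one, by simpa using Cen.one⟩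

theorem Rel.symm {y' t' : G} (ab : AB y t) (ab' : AB y' t') (h : Rel y t y' t') : Rel y' t' y t := by
  obtain ⟨h, h1, h2⟩ := h
  refine ⟨h⁻¹, (rel_cen ab ab' h1 h2).1 ?_, (rel_cen ab ab' h1 h2).1 ?_⟩
  · simpa [mul_assoc] using h1.inv
  · simpa [mul_assoc] using h2.inv

theorem Rel.trans {y' t' y'' t'' : G} (ab : AB y t) (ab' : AB y' t') (h : Rel y t y' t')
    (h' : Rel y' t' y'' t'') : Rel y t y'' t'' := by
  obtain ⟨h, h1, h2⟩ := h
  obtain ⟨h', h3, h4⟩ := h'
  refine ⟨h * h', ?_, ?_⟩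
  · simpa [mul_assoc] using h1.mul ((rel_cen ab ab' h1 h2).2 h3)
  · simpa [mul_assoc] using h2.mul ((rel_cen ab ab' h1 h2).2 h4)

end alg

/-- The turning constant. -/
def cT (CN : ℕ) : ℕ := cY CN 645 + 645

/-- The comparison constant along top edges. -/
def fT (CN : ℕ) : ℕ := 2 * (CN + 2)

section geo

variable {G X Ω : Type} [Group G] [MulAction G X] [MulAction G Ω] {d : X → X → ℕ}

theorem nt_symm (m : IsMet d) {Z : G → Prop} {u CN : ℕ} {ξ η : X} (h : NT Z d u CN ξ η) :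
    NT Z d u CN η ξ := fun a q q' h1 h2 => h a q q' (h1.symm m) (h2.symm m)

theorem Png.conj {Y : Type} [MulAction G Y] {dY : Y → Y → ℕ} {H : Bool → Subgroup G} {ξ : Bool → Y}
    {k c l0 l1 : ℕ} (P : Png dY H ξ k c l0 l1) (g : G) :
    Png dY (fun b => (H b).comap (MulAut.conj g⁻¹).toMonoidHom) (fun b => g • ξ b) k c l0 l1 := by
  have e : ∀ (a : G) x x', dY (g • x) (a • g • x') = dY x ((g⁻¹ * a * g) • x') := fun a x x' => by
    rw [← P.iso g x, mul_smul, mul_smul, smul_inv_smul]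
  refine ⟨P.gr, P.hyp, P.iso, fun b a h => ?_, fun b a h h' => ?_, ?_, ?_, P.big⟩
  · rw [e]
    exact P.fix b _ (by simpa using h)
  · rw [e, P.iso]
    exact P.turn b _ (by simpa using h) (by simpa using h')
  · rw [P.iso]
    exact P.lo
  · rw [P.iso]
    exact P.hi

theorem mem_conj_sup {H : Bool → Subgroup G} {g a : G} :
    a ∈ (H false).comap (MulAut.conj g⁻¹).toMonoidHom ⊔ (H true).comap (MulAut.conj g⁻¹).toMonoidHom ↔
      g⁻¹ * a * g ∈ H false ⊔ H true := by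
  rw [Subgroup.comap_sup_eq _ _ _ (MulAut.conj g⁻¹).surjective]
  simp

variable {Top : G → G → X → Prop} {CN C1 C3 N0 N1 k S1 S2 J u K0 k0 kk A P : ℕ}
  (Y : YH G Ω d (k + 1) A P u) (I : XI G d Top CN C1 C3 N0 N1 k S1 S2 J u K0 k0 kk)
  {y t : G} {ξ : X} (T : Top y t ξ)
include Y I T

theorem XI.ntB : NT (fun a : G => Bd d a) d u CN ξ (t • ξ) := fun a q q' h1 h2 h3 h4 h5 => by
  have h := I.nt y t ξ T a q q' h1 h2 h3 h4 h5
  exact not_not.1 fun hn => I.nc y t ξ T 0 (Rc.lox_comm Y.xs Y.pe2 hn h.1.symm h.2.symm)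

theorem XI.farY {q q' : X} {s : ℕ} (hq : Btw d ξ q (t • ξ)) (hq' : Btw d ξ q' (t • ξ))
    (hs : (2 * s + 10) * (k + 1) + 1 ≤ u) (h : (s + 1) * fT CN * u < d q q') :
    s < Rc.dYY G (Ω := Ω) d u (inl q) (inl q') := by
  by_contra hn
  have := Y.len (I.ntB Y T) hq hq' (b := inl q) (b' := inl q') rfl rfl (not_lt.1 hn) hs
  rw [Nat.mul_assoc] at h
  unfold fT at h
  omega

variable (hu : (8 * Rc.kY + 14) * (k + 1) + 1 ≤ u)
include hu

theorem XI.tz_le {g : G} (h : Tz y t y g) : Rc.dYY G (Ω := Ω) d u (inl ξ) (g • inl ξ) ≤ 216 := by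
  obtain ⟨δ, i, h1, rfl⟩ := h
  have e1 := Y.pe1Y hu 1 y 1 (inl ξ) (Y.bd_of_short (I.short y t ξ T)) one_ne_zero
    (by simpa using Y.qc.1.lip _ _ (I.short y t ξ T)) i
  have e2 : Rc.dYY G (Ω := Ω) d u (inl ξ) (δ • inl ξ) ≤ 1 := Y.qc.1.lip _ _ (I.cen y t ξ T δ h1)
  have e3 := Y.qc.1.grB.met.tri (inl ξ) (δ • inl ξ) (δ • y ^ i • inl ξ)
  rw [Y.act.invB] at e3
  rw [mul_smul]
  omega

theorem XI.tz_bd {g : G} (h : Tz y t y g) : Bd (Rc.dYY G (Ω := Ω) d u) g :=
  ⟨inl ξ, 216, fun i => I.tz_le Y T hu (h.zpow (fun _ h => h.1) i)⟩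

/-- The vertex groups are bounded in the first cone-off. -/
theorem XI.bdY : ∀ {b : Bool} {g : G}, g ∈ HH y t b → Bd (Rc.dYY G (Ω := Ω) d u) g
  | false, _, h =>
    let ⟨_, hn, h⟩ := (mem_false Y.xs.rg (I.ab y t ξ T)).1 h
    (I.tz_bd Y T hu h).of_pow Y.qc.1.grB.met Y.act.invB hn
  | true, g, h => by
    simpa [mul_assoc] using (I.tz_bd Y T hu (mem_true.1 h).conj).conj Y.act.invB t

theorem XI.fixY : ∀ (b : Bool) (g : G), g ∈ HH y t b →
    Rc.dYY G (Ω := Ω) d u (inl (cond b (t • ξ) ξ)) (g • inl (cond b (t • ξ) ξ)) ≤ 645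
  | false, g, h => by
    obtain ⟨n, hn, h'⟩ := (mem_false Y.xs.rg (I.ab y t ξ T)).1 h
    simpa using Y.pe1Y hu 216 g n (inl ξ) (I.bdY Y T hu h) (by omega)
      (by rw [zpow_natCast]; exact I.tz_le Y T hu h') 1
  | true, g, h => by
    have := I.tz_le Y T hu (mem_true.1 h).conj
    rw [← Y.act.invB t, mul_smul, mul_smul, smul_inv_smul] at this
    exact this.trans (by omega)

theorem XI.png (hN : N0T (cT CN) (fT CN) C3 ≤ N0)
    (hl : (2 * l0T (cT CN) C3 + 10) * (k + 1) + 1 ≤ u) :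
    Png (Rc.dYY G (Ω := Ω) d u) (HH y t) (fun b => inl (cond b (t • ξ) ξ)) (coneK 2) (cT CN)
      (l0T (cT CN) C3) N1 := by
  have C := Y.qc.1
  have m := C.gr.met
  have mY := C.grB.met
  have hk := Y.hk
  have nt : NT (Cen y t) d u CN ξ (t • ξ) := I.nt y t ξ T
  refine ⟨C.grB, C.hypB, Y.act.invB, fun b a h => le_trans (I.fixY Y T hu b a h) (Nat.le_add_left _ _),
    fun b a h h' => ?_, ?_, C.ι_le_mul _ _ _ (I.hi y t ξ T), by unfold l0T; omega⟩
  · have f := I.fixY Y T hu b a h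
    have hZ : ¬ Cen y t a := fun e => h' (cen_mem e _)
    have bd := I.bdY Y T hu h
    unfold cT
    cases b
    · have := Y.corner hu nt bd hZ f
      have := mY.tri (a • inl ξ) (inl ξ) (a • inl (t • ξ))
      rw [Y.act.invB, mY.symm (a • _)] at this
      simp only [cond, Bool.not_false] at *
      omega
    · have := Y.corner hu (nt_symm m nt) bd hZ f
      have := mY.tri (a • inl (t • ξ)) (inl (t • ξ)) (a • inl ξ)
      rw [Y.act.invB, mY.symm (a • _)] at this
      have := mY.symm (inl ξ) (inl (t • ξ))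
      simp only [cond, Bool.not_true] at *
      omega
  · have e1 := I.lo y t ξ T
    have e2 := Nat.mul_le_mul_right u hN
    unfold N0T at e2
    rw [Nat.add_mul, Nat.add_mul] at e2
    exact (I.farY Y T (q := ξ) (q' := t • ξ) (by rw [Ng.Btw, m.self, Nat.zero_add])
      (by rw [Ng.Btw, m.self, Nat.add_zero]) hl (by omega)).le

end geo

end Pool.Agent.Lib.MP_a2eab4_al.Rx
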