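import Pool.Agent.Lib.MP_a2eab4_al.RtC

set_option autoImplicit false
set_option linter.unusedSectionVars false

/-! The family of the trees of the treated top edges. -/

namespace Pool.Agent.Lib.MP_a2eab4_al.Rx

open Pool.Agent.Lib.MP_429c3d_al Hyp Ng Sum
open Re (Bd)
open Rc (YH BH)

/-- One tree for every coset of the amalgam of a representative. -/
structure Fam (G : Type) {X Ω I J : Type} [Group G] [MulAction G X] [MulAction G Ω] [MulAction G J]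
    (d : X → X → ℕ) (Tr : G → G → X → Prop) (y t : I → G) (ξ : I → X) (ω : I → J)
    (Z : J → X ⊕ Ω → Prop) (k A P u c l0 l1 : ℕ) : Prop where
  bh : BH G d Z k A P u (alT c l1) (DT c l1)
  tr : ∀ i, Tr (y i) (t i) (ξ i)
  rep : ∀ y' t' ξ', Tr y' t' ξ' → ∃ i, Rel (y i) (t i) y' t'
  cover : ∀ j, ∃ (i : I) (g : G), j = g • ω i
  ty : ∀ i i' (g : G), g • ω i = ω i' → i = i'
  stab : ∀ i (g : G), g • ω i = ω i ↔ g ∈ FF (y i) (t i)
  mem : ∀ i (g : G) v, Z (g • ω i) v ↔ ∃ f, f ∈ FF (y i) (t i) ∧ v = inl ((g * f) • ξ i)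
  png : ∀ i, Png (Rc.dYY G (Ω := Ω) d u) (HH (y i) (t i))
    (fun b => inl (cond b (t i • ξ i) (ξ i))) (coneK 2) c l0 l1
  ab : ∀ i, AB (y i) (t i)
  nc : ∀ i j, ¬ Commute (y i) (cs (y i) (t i) j)
  bd : ∀ i b g, g ∈ HH (y i) (t i) b → Bd (Rc.dYY G (Ω := Ω) d u) g

variable {G X Ω : Type} [Group G] [MulAction G X] [MulAction G Ω] {d : X → X → ℕ}

theorem exists_reps {Tr : G → G → X → Prop} (ab : ∀ y t ξ, Tr y t ξ → AB y t) :
    ∃ (I : Type) (y t : I → G) (ξ : I → X), (∀ i, Tr (y i) (t i) (ξ i)) ∧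
      (∀ y' t' ξ', Tr y' t' ξ' → ∃ i, Rel (y i) (t i) y' t') ∧
      ∀ i j, Rel (y i) (t i) (y j) (t j) → i = j := by
  let s : Setoid {p : G × G × X // Tr p.1 p.2.1 p.2.2} :=
    ⟨fun p q => Rel p.1.1 p.1.2.1 q.1.1 q.1.2.1, fun _ => Rel.refl,
      fun {p q} h => h.symm (ab _ _ _ p.2) (ab _ _ _ q.2),
      fun {p q _} h h' => h.trans (ab _ _ _ p.2) (ab _ _ _ q.2) h'⟩
  exact ⟨Quotient s, fun i => i.out.1.1, fun i => i.out.1.2.1, fun i => i.out.1.2.2,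
    fun i => i.out.2, fun y t ξ h => ⟨⟦⟨(y, t, ξ), h⟩⟧, Quotient.mk_out (s := s) _⟩,
    fun i j h => Quotient.out_equiv_out.1 h⟩

variable {Top : G → G → X → Prop} {CN C3 N0 N1 k S1 S2 J u K0 k0 kk A P : ℕ}

theorem exists_fam (Y : YH G Ω d (k + 1) A P u)
    (I : XI G d Top CN (C1T (cT CN) (fT CN)) C3 N0 N1 k S1 S2 J u K0 k0 kk)
    (hu : (8 * Rc.kY + 14) * (k + 1) + 1 ≤ u) (hN : N0T (cT CN) (fT CN) C3 ≤ N0)
    (hl : (2 * l0T (cT CN) C3 + 10) * (k + 1) + 1 ≤ u) {Tr : G → G → X → Prop}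
    (hT : ∀ y t ξ, Tr y t ξ → Top y t ξ) :
    ∃ (I J : Type) (_ : MulAction G J) (y t : I → G) (ξ : I → X) (ω : I → J)
      (Z : J → X ⊕ Ω → Prop), Fam G d Tr y t ξ ω Z (k + 1) A P u (cT CN) (l0T (cT CN) C3) N1 := by
  obtain ⟨ι, y, t, ξ, tr, rep, inj⟩ := exists_reps (Tr := Tr) fun y t ξ h => I.ab y t ξ (hT y t ξ h)
  have top := fun i => hT _ _ _ (tr i)
  have iso := Y.xs.inv
  let H : (Σ i : ι, G ⧸ FF (y i) (t i)) → Bool → Subgroup G := fun j b =>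
    (HH (y j.1) (t j.1) b).comap (MulAut.conj j.2.out⁻¹).toMonoidHom
  let x : (Σ i : ι, G ⧸ FF (y i) (t i)) → Bool → X := fun j b =>
    j.2.out • cond b (t j.1 • ξ j.1) (ξ j.1)
  have mH : ∀ j g, g ∈ H j false ⊔ H j true ↔ (g * j.2.out : G) = j.2 := fun j g => by
    rw [mem_conj_sup (H := HH (y j.1) (t j.1)), eq_comm, mul_assoc]
    conv_rhs => lhs; rw [← j.2.out_eq']
    exact QuotientGroup.eq.symm
  have M : MH d (Rc.dYY G (Ω := Ω) d u) inl (Rc.ShY G d u) H x (k + 1) u (cT CN) (fT CN) C3 N1 := by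
    refine ⟨Y.qc.1, Y.act, by omega, fun j => (I.png Y (top j.1) hu hN hl).conj j.2.out,
      fun j => ?_, fun j q q' s h1 h2 h3 h4 => ?_, ?_⟩
    · exact (Nat.mul_le_mul_right u hN).trans ((I.lo _ _ _ (top j.1)).trans (iso _ _ _).ge)
    · have := I.farY Y (top j.1) (q := j.2.out⁻¹ • q) (q' := j.2.out⁻¹ • q') (s := s)
        (by simpa [x] using h1.smul iso j.2.out⁻¹) (by simpa [x] using h2.smul iso j.2.out⁻¹)
        (le_trans (Nat.add_le_add_right (Nat.mul_le_mul_right _ (by omega)) 1) hl) (by rwa [iso])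
      exact this.trans_eq (Y.act.invB _ (inl q) (inl q'))
    · rintro ⟨i, q⟩ ⟨j, q'⟩ g g' p p' q0 q0' g1 g2 h1 h2 h3 h4 h5
      rw [mH] at g1 g2
      simp only [x, cond, smul_smul g, smul_smul g'] at h1 h2 h3 h4 g1 g2
      generalize g * q.out = a at *
      generalize g' * q'.out = a' at *
      subst g1 g2
      have e := I.edge _ _ _ _ _ _ (top i) (top j) (a⁻¹ * a') (a⁻¹ • p) (a⁻¹ • p') (a⁻¹ • q0)
        (a⁻¹ • q0') (fun r hr => by simpa using (h1 _ (hr.smul iso a)).smul iso a⁻¹)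
        (fun r hr => by
          simpa using (h2 (a • r) (by simpa [mul_smul] using hr.smul iso a)).smul iso a⁻¹)
        (by simpa using h3.smul iso a⁻¹) (by simpa [mul_smul] using h4.smul iso a⁻¹) (by rwa [iso])
      obtain rfl := inj i j e.1
      exact congrArg _ (QuotientGroup.eq.2 (HH_le false (cen_mem (e.2 rfl rfl rfl) _)))
  have mZ : ∀ i q v, Orb (inl : X → X ⊕ Ω) H x ⟨i, q⟩ v ↔
      ∃ g : G, (g : G ⧸ FF (y i) (t i)) = q ∧ v = inl (g • ξ i) := fun i q v => by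
    refine ⟨fun ⟨g, h1, h2⟩ => ⟨g * q.out, (mH ⟨i, q⟩ g).1 h1, ?_⟩,
      fun ⟨g, h1, h2⟩ => ⟨g * q.out⁻¹, (mH ⟨i, q⟩ _).2 (by rwa [inv_mul_cancel_right]), ?_⟩⟩
    · rw [h2, mul_smul]
      rfl
    · rw [h2]
      simp [x, mul_smul]
  refine ⟨ι, Σ i : ι, G ⧸ FF (y i) (t i), inferInstance, y, t, ξ, fun i => ⟨i, ((1 : G) : G ⧸ _)⟩,
    Orb inl H x, ⟨Y, by unfold Rc.kY; exact M.qfam, ?_⟩, tr, rep, ?_, ?_, ?_, ?_, fun i => I.png Y (top i) hu hN hl,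
    fun i => I.ab _ _ _ (top i), fun i => I.nc _ _ _ (top i), fun i b g => I.bdY Y (top i) hu⟩
  · rintro g ⟨i, q⟩ v h
    obtain ⟨a, rfl, rfl⟩ := (mZ _ _ _).1 h
    exact (mZ _ _ _).2 ⟨g * a, rfl, congrArg inl (mul_smul _ _ _).symm⟩
  · rintro ⟨i, q⟩
    obtain ⟨a, rfl⟩ := QuotientGroup.mk_surjective q
    exact ⟨i, a, congrArg (Sigma.mk i) (congrArg _ (mul_one a).symm)⟩
  · exact fun i j g h => congrArg Sigma.fst h
  · intro i g
    rw [Sigma.smul_mk, Sigma.mk.inj_iff, heq_eq_eq, eq_self, true_and,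
      MulAction.Quotient.smul_mk, eq_comm, QuotientGroup.eq]
    simp
  · intro i g v
    refine (mZ i (g * 1 : G) v).trans ⟨?_, ?_⟩
    · rintro ⟨a, h, rfl⟩
      exact ⟨g⁻¹ * a, by simpa using QuotientGroup.eq.1 h.symm, by rw [mul_inv_cancel_left]⟩
    · rintro ⟨f, h, rfl⟩
      exact ⟨g * f, (QuotientGroup.eq.2 (by simpa using h)).symm, rfl⟩

end Pool.Agent.Lib.MP_a2eab4_al.Rx
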