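import Pool.Agent.Lib.MP_a2eab4_al.RtB
import Pool.Agent.Lib.MP_429c3d_al.NgMal

set_option autoImplicit false
set_option linter.unusedSectionVars false

/-! Different trees have bounded overlaps. -/

namespace Pool.Agent.Lib.MP_a2eab4_al.Rx

open Pool.Agent.Lib.MP_429c3d_al Hyp Ng

/-- Depth in the cone-off. -/
def c1T (c : ℕ) : ℕ := 2 * coneN 2 + 2 + (13 * c + 2 * coneK 2)

/-- Depth in the level. -/
def C1T (c CF : ℕ) : ℕ := (c1T c + 1) * CF + 1

/-- The lower bound for the length of the edges in the cone-off. -/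
def l0T (c C3 : ℕ) : ℕ := 4 * (c1T c + C3 + 2) + 40 * (c + coneK 2 + 1)

/-- The lower bound for the length of the edges in the level. -/
def N0T (c CF C3 : ℕ) : ℕ := 2 * (C1T c CF + C3) + (l0T c C3 + 1) * CF + 602

/-- The quasi-convexity constant. -/
def alT (c l1 : ℕ) : ℕ := 2 * l1 + 20 * c + 4 * coneK 2

/-- The overlap constant. -/
def DT (c l1 : ℕ) : ℕ := 2 * (c1T c + c + 1) + 2 * l1 + 5 * c

variable {G X B J : Type} [Group G] [MulAction G X] [MulAction G B]

/-- The orbit of the base point. -/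
def Orb (ι : X → B) (H : J → Bool → Subgroup G) (x : J → Bool → X) (i : J) (v : B) : Prop :=
  ∃ g, g ∈ H i false ⊔ H i true ∧ v = g • ι (x i false)

/-- The assumptions on a family of edges. -/
structure MH (d : X → X → ℕ) (dB : B → B → ℕ) (ι : X → B) (Sh : B → X → Prop)
    (H : J → Bool → Subgroup G) (x : J → Bool → X) (k u c CF C3 l1 : ℕ) : Prop where
  qc : QC d dB ι Sh k u 2
  act : CAct G d dB ι Sh
  pos : 1 ≤ k
  png : ∀ i, Png dB (H i) (fun b => ι (x i b)) (coneK 2) c (l0T c C3) l1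
  lo : ∀ i, N0T c CF C3 * u ≤ d (x i false) (x i true)
  far : ∀ i q q' s, Btw d (x i false) q (x i true) → Btw d (x i false) q' (x i true) →
    s ≤ l0T c C3 → (s + 1) * CF * u < d q q' → s < dB (ι q) (ι q')
  edge : ∀ i j (g g' : G) p p' q0 q0', g ∈ H i false ⊔ H i true → g' ∈ H j false ⊔ H j true →
    (∀ q, Deep d (C1T c CF * u) (g • x i false) q (g • x i true) → NB d (100 * k) p q p') →
    (∀ q, Deep d (C1T c CF * u) (g' • x j false) q (g' • x j true) → NB d (100 * k) p q p') →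
    Deep d (C3 * u) (g • x i false) q0 (g • x i true) →
    Deep d (C3 * u) (g' • x j false) q0' (g' • x j true) → d q0 q0' ≤ 100 * k → i = j

namespace MH

variable {d : X → X → ℕ} {dB : B → B → ℕ} {ι : X → B} {Sh : B → X → Prop}
  {H : J → Bool → Subgroup G} {x : J → Bool → X} {k u c CF C3 l1 : ℕ}
  (M : MH d dB ι Sh H x k u c CF C3 l1)
include M

theorem far_of {i : J} {g : G} {q q' : X} (hq : Btw d (g • x i false) q (g • x i true))
    (hq' : Btw d (g • x i false) q' (g • x i true)) {s : ℕ} (hs : s ≤ l0T c C3)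
    (h : (s + 1) * CF * u < d q q') : s < dB (ι q) (ι q') := by
  have := M.far i (g⁻¹ • q) (g⁻¹ • q') s (by simpa using hq.smul M.act.inv g⁻¹)
    (by simpa using hq'.smul M.act.inv g⁻¹) hs (by rwa [M.act.inv])
  rwa [M.act.ι_smul, M.act.ι_smul, M.act.invB] at this

theorem deepY {i : J} {g : G} {q : X} (h : Deep d (C1T c CF * u) (g • x i false) q (g • x i true)) :
    c1T c < dB (ι q) (ι (g • x i false)) ∧ c1T c < dB (ι q) (ι (g • x i true)) := by
  have m := M.qc.gr.met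
  have hu := M.qc.huge
  obtain ⟨h1, h2, h3⟩ := h
  unfold C1T at h2 h3
  rw [Nat.add_mul] at h2 h3
  rw [m.symm] at h2
  exact ⟨M.far_of h1 (by rw [Ng.Btw, m.self, Nat.zero_add]) (by unfold l0T; omega) (by omega),
    M.far_of h1 (by rw [Ng.Btw, m.self, Nat.add_zero]) (by unfold l0T; omega) (by omega)⟩

section tree

variable {j : J} {V : Type} [MulAction (H j false ⊔ H j true : Subgroup G) V]
  (T : Tree (fun b => (H j b).subgroupOf (H j false ⊔ H j true)) V)

theorem at_ι {v : V} {p : X} (h : T.At (x j) v p) : T.At (fun b => ι (x j b)) v (ι p) := by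
  obtain ⟨g, b, rfl, rfl⟩ := h
  exact ⟨g, b, rfl, M.act.ι_smul g _⟩

theorem nbT {v v' v'' : V} (h : T.d v v' + T.d v' v'' = T.d v v'') {p p' p'' : X}
    (h1 : T.At (x j) v p) (h2 : T.At (x j) v' p') (h3 : T.At (x j) v'' p'') :
    NB dB (13 * c + 2 * coneK 2) (ι p) (ι p') (ι p'') :=
  ((M.png j).sub _).nb T h (M.at_ι T h1) (M.at_ι T h2) (M.at_ι T h3)

theorem nearT {v : V} {p p' : X} (h1 : T.At (x j) v p) (h2 : T.At (x j) v p') :
    dB (ι p) (ι p') ≤ c := ((M.png j).sub _).at_near T (M.at_ι T h1) (M.at_ι T h2)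

/-- The edges of the trees are translates of the basic edges. -/
theorem ends {v v' : V} (h : T.d v v' = 1) : ∃ (g : G) (e e' : X), g ∈ H j false ⊔ H j true ∧
    T.At (x j) v e ∧ T.At (x j) v' e' ∧
    (∀ r q, Deep d r e q e' ↔ Deep d r (g • x j false) q (g • x j true)) ∧
    ∀ q, Deep d (C1T c CF * u) e q e' → c1T c < dB (ι q) (ι e) ∧ c1T c < dB (ι q) (ι e') := by
  have m := M.qc.gr.met
  obtain ⟨g, b, rfl, rfl⟩ := (T.edge _ _).1 h
  refine ⟨g, _, _, g.2, ⟨g, b, rfl, rfl⟩, ⟨g, !b, rfl, rfl⟩, ?_⟩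
  cases b
  · exact ⟨fun _ _ => Iff.rfl, fun q hq => M.deepY hq⟩
  · exact ⟨fun _ _ => ⟨Deep.symm m, Deep.symm m⟩, fun q hq => (M.deepY (hq.symm m)).symm⟩

theorem on_path {γ : ℕ → V} {N t : ℕ} (hγ : GeoOn T.d γ 0 N) (ht : t < N) {r r' e e' q : X}
    (hr : T.At (x j) (γ 0) r) (hr' : T.At (x j) (γ N) r') (he : T.At (x j) (γ t) e)
    (he' : T.At (x j) (γ (t + 1)) e') (hq : Btw d e q e')
    (h : c1T c < dB (ι q) (ι e) ∧ c1T c < dB (ι q) (ι e')) : NB d (2 * k) r q r' := by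
  have C := M.qc
  have hu := C.huge
  have e1 := hγ 0 t le_rfl (by omega) (by omega)
  have e2 := hγ t (t + 1) (by omega) (by omega) (by omega)
  have e3 := hγ 0 (t + 1) le_rfl (by omega) (by omega)
  have e4 := hγ (t + 1) N (by omega) (by omega) (by omega)
  have e5 := hγ t N (by omega) (by omega) (by omega)
  simpa using C.mid2 (C.sh_ι r) (C.sh_ι e) (C.sh_ι e') (C.sh_ι r') (M.nbT T (by omega) hr he he')
    (M.nbT T (by omega) he he' hr') (hq.nb C.gr.met) (by omega) h.1 h.2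

/-- A deep point of an edge that is far from the tree. -/
theorem exists_far (i : J) (g : G) :
    ∃ q, Deep d ((C1T c CF + C3) * u) (g • x i false) q (g • x i true) ∧
      ∀ v p, T.At (x j) v p → c1T c + C3 + 2 < dB (ι q) (ι p) := by
  have C := M.qc
  have m := C.gr.met
  have mY := C.grB.met
  have hu := C.huge
  have lo := M.lo i
  rw [← M.act.inv g, show N0T c CF C3 * u = 2 * ((C1T c CF + C3) * u) + l0T c C3 * CF * u +
    CF * u + 602 * u by unfold N0T; ring] at lo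
  have key := fun q q' => M.far_of (i := i) (g := g) (q := q) (q' := q') (s := l0T c C3 - 1)
  rw [show l0T c C3 - 1 + 1 = l0T c C3 by unfold l0T; omega] at key
  generalize g • x i true = b at *
  generalize g • x i false = a at *
  obtain ⟨q1, a1, a2⟩ := C.gr.geo.mid m a b (s := (C1T c CF + C3) * u) (by omega)
  obtain ⟨q2, b1, b2⟩ := C.gr.geo.mid m q1 b (s := d q1 b - (C1T c CF + C3) * u) (by omega)
  have t1 := m.tri a q1 q2
  have t2 := m.tri a q2 b
  have h1 := key q1 q2 (by unfold Ng.Btw; omega) (by unfold Ng.Btw; omega) (by omega) (by omega)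
  obtain ⟨q, c1, c2⟩ := C.exists_at (C.sh_ι q1) (C.sh_ι q2)
    (s := 2 * (c1T c + C3 + 2) + c + 1) (by omega) (by unfold l0T at h1; omega)
  have t3 := m.tri a q1 q
  have t4 := m.tri q q2 b
  have t5 := m.tri a q b
  by_contra hc
  push Not at hc
  obtain ⟨v1, x1, f1, e1⟩ := hc q1 ⟨by unfold Ng.Btw; omega, by omega, by omega⟩
  obtain ⟨v2, x2, f2, e2⟩ := hc q ⟨by unfold Ng.Btw; omega, by omega, by omega⟩
  have t6 := mY.tri (ι q) (ι x2) (ι q1)
  have t7 := mY.tri (ι x1) (ι q1) (ι x2)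
  have t8 := mY.tri (ι q1) (ι q) (ι x2)
  have t9 := mY.tri (ι x2) (ι x1) (ι q1)
  have s1 := mY.symm (ι q1) (ι x1)
  have s2 := mY.symm (ι q1) (ι q)
  by_cases e : v1 = v2
  · have := M.nearT T f2 (e ▸ f1)
    omega
  · have := ((M.png j).sub _).far T (M.at_ι T f1) (M.at_ι T f2) e
    unfold l0T at this
    omega

/-- An edge of the tree `i` along a segment between two points of the tree `j`. -/
theorem core {i : J} {g : G} (hg : g ∈ H i false ⊔ H i true) {z z' : V} {r r' : X}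
    (hr : T.At (x j) z r) (hr' : T.At (x j) z' r')
    (h : ∀ q, Deep d (C1T c CF * u) (g • x i false) q (g • x i true) → NB d (4 * k) r q r') :
    i = j := by
  classical
  have C := M.qc
  have m := C.gr.met
  have mY := C.grB.met
  have hu := C.huge
  have kp := M.pos
  obtain ⟨q, q1, q2⟩ := M.exists_far T i g
  rw [Nat.add_mul] at q1
  have q3 := h q (q1.mono (by omega))
  obtain ⟨γ, rfl, g1, γ2⟩ := T.gr.exists_geo z z'
  generalize T.d (γ 0) z' = N at *
  subst g1
  have same : ∀ v p p', T.At (x j) v p → T.At (x j) v p' → ¬ NB d (7 * k) p q p' := by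
    intro v p p' h1 h2 h3
    obtain ⟨w, w1, w2⟩ := C.near' (C.sh_ι p) (C.sh_ι p') h3 (by omega)
    have := q2 v p h1
    have := mY.tri (ι q) w (ι p)
    have := mY.symm w (ι p)
    have := M.nearT T h1 h2
    unfold c1T Ng.Btw at *
    omega
  have ex : ∃ t, t ≤ N ∧ ∃ p, T.At (x j) (γ t) p ∧ NB d (5 * k) r q p :=
    ⟨N, le_rfl, r', hr', q3.mono (by omega)⟩
  obtain ⟨t1, p, p1, p2⟩ := Nat.find_spec ex
  have t2 := fun t => Nat.find_min ex (m := t)
  generalize Nat.find ex = t at *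
  rcases t with _ | t
  · exact absurd (p2.mono (by omega)) (same _ r p hr p1)
  have d1 := γ2 0 t le_rfl (by omega) (by omega)
  have d2 := γ2 t (t + 1) (by omega) (by omega) (by omega)
  have d3 := γ2 t N (by omega) (by omega) le_rfl
  have d4 := γ2 0 N le_rfl (by omega) le_rfl
  obtain ⟨g', e, e', hg', e1, e2, e3, e4⟩ := M.ends T (v := γ t) (v' := γ (t + 1)) (by omega)
  have f1 : NB d (4 * k + k) e q r' :=
    (q3.split m C.hyp e).resolve_left fun hh => t2 t (by omega) ⟨by omega, e, e1, hh.mono (by omega)⟩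
  have f2 : NB d (5 * k + k) e q p := (p2.split m C.hyp e).resolve_left fun hh => by
    have := C.corner (C.sh_ι r) (C.sh_ι e) (C.sh_ι e) (C.sh_ι r') (M.nbT T (by omega) hr e1 hr') hh
      (f1.mono (by omega)) (by omega)
    have := q2 _ _ e1
    unfold c1T at *
    omega
  have f3 : NB d (5 * k + k + k) e q e' :=
    (f2.split m C.hyp e').resolve_right fun hh => same _ e' p e2 p1 (hh.mono (by omega))
  obtain ⟨q', w1, w2⟩ := f3.near C.gr C.hyp
  have deep : ∀ v p, T.At (x j) v p → C3 * u ≤ d q' p := fun v p hp => by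
    by_contra hc
    have := C.ι_le_mul C3 q' p (by omega)
    have := C.lip q q' (by omega)
    have := q2 v p hp
    have := mY.tri (ι q) (ι q') (ι p)
    omega
  exact M.edge i j g g' r r' q q' hg hg' (fun w hw => (h w hw).mono (by omega))
    (fun w hw => (M.on_path T γ2 t1 hr hr' e1 e2 ((e3 _ w).2 hw).1 (e4 w ((e3 _ w).2 hw))).mono
      (by omega)) (q1.mono (by omega))
    ((e3 _ q').1 ⟨w1, m.symm q' e ▸ deep _ e e1, deep _ e' e2⟩) (by omega)

theorem orb_at {a : B} (h : Orb ι H x j a) : ∃ v p, T.At (x j) v p ∧ a = ι p := by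
  obtain ⟨g, hg, rfl⟩ := h
  exact ⟨_, _, ⟨⟨g, hg⟩, false, rfl, rfl⟩, (M.act.ι_smul g _).symm⟩

end tree

theorem qfam : QFam dB (Orb ι H x) (coneK 2) (alT c l1) (DT c l1) := by
  classical
  have C := M.qc
  have m := C.gr.met
  have mY := C.grB.met
  have hu := C.huge
  refine ⟨C.grB, C.hypB, fun i => ⟨_, 1, Subgroup.one_mem _, rfl⟩, fun i a b w ha hb hw => ?_, ?_⟩
  · obtain ⟨V, _, ⟨T⟩⟩ := (M.png i).tree
    obtain ⟨v, p, h1, rfl⟩ := M.orb_at T ha
    obtain ⟨v', p', h2, rfl⟩ := M.orb_at T hb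
    obtain ⟨_, _, ⟨g, b, -, rfl⟩, h3⟩ := ((M.png i).sub _).qc T (M.at_ι T h1) (M.at_ι T h2) hw
    refine ⟨_, ⟨g, g.2, rfl⟩, ?_⟩
    have e1 := (M.png i).len g true
    have e2 := (M.png i).hi
    have e3 := mY.tri w ((g : G) • ι (x i true)) ((g : G) • ι (x i false))
    unfold alT
    cases b <;> simp only [Subgroup.smul_def, Bool.not_true] at h3 e1 <;> omega
  intro i j a b a' b' σ hij ha hb ha' hb' h1 h2
  obtain ⟨V, _, ⟨T⟩⟩ := (M.png i).tree
  obtain ⟨V', _, ⟨T'⟩⟩ := (M.png j).tree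
  obtain ⟨v, r, hr, rfl⟩ := M.orb_at T ha
  obtain ⟨v', r', hr', rfl⟩ := M.orb_at T hb
  obtain ⟨w, p, hp, rfl⟩ := M.orb_at T' ha'
  obtain ⟨w', p', hp', rfl⟩ := M.orb_at T' hb'
  by_contra hc
  unfold DT at hc
  obtain ⟨γ, rfl, g1, γ2⟩ := T.gr.exists_geo v v'
  generalize T.d (γ 0) v' = N at *
  subst g1
  choose z hz using T.at_ne (x i)
  have st : ∀ t y y', t < N → T.At (x i) (γ t) y → T.At (x i) (γ (t + 1)) y' →
      dB (ι y) (ι y') ≤ l1 + 2 * c := fun t y y' ht a1 a2 =>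
    ((M.png i).sub _).step T (M.at_ι T a1) (M.at_ι T a2) (by
      have := γ2 t (t + 1) (by omega) (by omega) (by omega)
      omega)
  have ex : ∃ t, t ≤ N ∧ σ + (c1T c + c + 1) ≤ dB (ι r) (ι (z (γ t))) := ⟨N, le_rfl, by
    have := M.nearT T (hz _) hr'
    have := mY.tri (ι r) (ι (z (γ N))) (ι r')
    omega⟩
  obtain ⟨t1, t2⟩ := Nat.find_spec ex
  have t3 := fun t => Nat.find_min ex (m := t)
  generalize Nat.find ex = t at *
  rcases t with _ | t
  · have := M.nearT T hr (hz _)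
    omega
  have t4 := not_and.1 (t3 t (by omega)) (by omega)
  have hN : t + 1 < N := lt_of_le_of_ne t1 fun e => by
    have := st t _ _ t1 (hz _) (e ▸ hr')
    have := mY.tri (ι r) (ι (z (γ t))) (ι r')
    omega
  have d1 := γ2 0 (t + 1) le_rfl (by omega) (by omega)
  have d2 := γ2 (t + 1) (t + 1 + 1) (by omega) (by omega) (by omega)
  have d3 := γ2 0 (t + 1 + 1) le_rfl (by omega) (by omega)
  have d4 := γ2 (t + 1 + 1) N (by omega) (by omega) (by omega)
  have d5 := γ2 (t + 1) N (by omega) (by omega) (by omega)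
  obtain ⟨g, e, e', hg, e1, e2, e3, e4⟩ := M.ends T (v := γ (t + 1)) (v' := γ (t + 1 + 1))
    (by omega)
  have t5 := st t _ _ t1 (hz _) e1
  have t6 := mY.tri (ι r) (ι (z (γ t))) (ι e)
  have t7 := st _ _ _ hN e1 e2
  have t8 := mY.tri (ι r) (ι e) (ι r')
  have t9 := mY.tri (ι e) (ι e') (ι r')
  have t10 := mY.tri (ι r) (ι e) (ι (z (γ (t + 1))))
  have t11 := M.nearT T e1 (hz _)
  refine hij (M.core T' hg hp hp' fun q hq => ?_)
  have q1 := (e3 _ q).2 hq
  have q2 := M.on_path T γ2 hN hr hr' e1 e2 q1.1 (e4 q q1)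
  obtain ⟨w, w1, w2⟩ := C.near' (C.sh_ι e) (C.sh_ι e') (q1.1.nb m) (by omega)
  have p1 := M.nbT T (by omega) hr e1 e2
  have p2 := M.nbT T (by omega) e1 e2 hr'
  have side : ∀ {x x' : X} {t : ℕ}, dB (ι x) (ι x') ≤ σ → t ≤ u → NB d t x q x' →
      dB w (ι x) ≤ σ + 2 * coneN 2 + 2 := by
    intro x x' t a3 a4 a5
    obtain ⟨v, v1, v2⟩ := C.near' (C.sh_ι x) (C.sh_ι x') a5 a4
    have := mY.tri w (ι q) (ι x)
    have := mY.tri (ι q) v (ι x)
    have := mY.symm w (ι q)
    have := mY.symm v (ι x)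
    unfold Ng.Btw at v1
    omega
  unfold Ng.Btw at w1
  unfold NB at p1 p2
  unfold c1T at *
  have s1 := mY.symm (ι e) (ι r)
  have s2 := mY.symm (ι e) (ι e')
  have s3 := mY.symm w (ι r)
  have u1 := mY.tri (ι r) w (ι e')
  have u2 := mY.tri (ι e) w (ι r')
  have f1 := (q2.split m C.hyp p).resolve_left fun hh => by
    have := side h1 (by omega) hh
    omega
  refine ((f1.split m C.hyp p').resolve_right fun hh => ?_).mono (by omega)
  have := side h2 (by omega) (hh.symm m)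
  omega

end MH

end Pool.Agent.Lib.MP_a2eab4_al.Rx
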