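import Pool.Agent.Lib.MP_a2eab4_al.RxP

set_option autoImplicit false
set_option linter.unusedSectionVars false

/-! A flip of long range is a flip of the pattern. -/

namespace Pool.Agent.Lib.MP_a2eab4_al.Rx

open Pool.Agent.Lib.MP_429c3d_al Hyp Ng

variable {G X : Type} [Group G] [MulAction G X] {d : X → X → ℕ} {k A K U e D : ℕ}
  {γ : ℤ → X} {a b : ℤ} {y c : G} {x x' : X} {Y : ℕ → G} {p : ℕ → ℤ} {n0 n1 : ℕ}
  {H : Type} [Group H] {π : G →* H}

/-- The properties of the quotient group. -/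
structure Red (π : G →* H) (y : G) : Prop where
  hz : ∀ (g : H) (a b : ℤ), g * π y ^ a * g⁻¹ = π y ^ b → a = b
  hs : ∀ u v : H, u ^ 2 = v ^ 2 → u = v

theorem eq_of_ker {g g' : G} (h : π (g⁻¹ * g') = 1) : π g = π g' := by
  rwa [map_mul, map_inv, inv_mul_eq_one] at h

theorem Red.zpow_eq (R : Red π y) (P : Pat d γ e D y Y p n0 n1) {g : H} {m n : ℕ} {s t : ℤ}
    (h : g * π (Y m) ^ s * g⁻¹ = π (Y n) ^ t) : s = t := by
  obtain ⟨u, hu⟩ := isConj_iff.1 (P.conj m)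
  obtain ⟨v, hv⟩ := isConj_iff.1 (P.conj n)
  rw [← hu, ← hv, map_mul, map_mul, map_mul, map_mul, map_inv, map_inv, conj_zpow, conj_zpow] at h
  refine R.hz ((π v)⁻¹ * g * π u) _ _ ?_
  calc (π v)⁻¹ * g * π u * π y ^ s * ((π v)⁻¹ * g * π u)⁻¹
      = (π v)⁻¹ * (g * (π u * π y ^ s * (π u)⁻¹) * g⁻¹) * π v := by group
    _ = _ := by rw [h]; group

/-- Two chains of flips with the same spacing have the same products of neighbours: both products
translate by `2 D` up to `2 e` on a common interval (`eq_of_near`). -/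
theorem Sq.align (S : Sq G d k) (hγ : GZ d γ a b) {lo hi : ℤ}
    (ap : Aper (fun η => π η = 1) d γ e lo hi) (hD : 12000 * e ≤ D) (he : 1 ≤ e) {w1 w2 v1 v2 : G} {p0 p1 p2 q0 q1 q2 : ℤ}
    (a1 : Rv d γ e w1 (2 * p1) p0 p1) (a2 : Rv d γ e w2 (2 * p2) p1 p2)
    (b1 : Rv d γ (3 * e) v1 (2 * q1) (q0 + e) q1) (b2 : Rv d γ (3 * e) v2 (2 * q2) (q1 + e) q2)
    (g1 : p0 + D ≤ p1 + e ∧ p1 ≤ p0 + D + e) (g2 : p1 + D ≤ p2 + e ∧ p2 ≤ p1 + D + e)
    (g3 : q0 + D ≤ q1 + e ∧ q1 ≤ q0 + D + e) (g4 : q1 + D ≤ q2 + e ∧ q2 ≤ q1 + D + e)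
    (h1 : 2 * p1 ≤ 2 * q1 + D + 40 * e) (h2 : 2 * q1 ≤ 2 * p1 + D + 40 * e) (h3 : lo ≤ p0)
    (h4 : p1 ≤ hi) : π w2 * π w1 = π v2 * π v1 := by
  have k1 : ∀ i, p1 + e ≤ i + D → i ≤ p1 →
      d ((w2 * w1) • γ i) (γ (2 * p2 - (2 * p1 - i))) ≤ 2 * e := by
    intro i c1 c2
    have := S.mul_le w2 w1 (γ i) (γ (2 * p1 - i)) (γ (2 * p2 - (2 * p1 - i)))
    have := a1 i (by omega) c2
    have := a2 (2 * p1 - i) (by omega) (by omega)
    omega
  have k2 : ∀ i, q1 + 2 * e ≤ i + D → i + e ≤ q1 →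
      d ((v2 * v1) • γ i) (γ (2 * q2 - (2 * q1 - i))) ≤ 6 * e := by
    intro i c1 c2
    have := S.mul_le v2 v1 (γ i) (γ (2 * q1 - i)) (γ (2 * q2 - (2 * q1 - i)))
    have := b1 i (by omega) (by omega)
    have := b2 (2 * q1 - i) (by omega) (by omega)
    omega
  obtain ⟨i, j, c1, c2, c3, c4, c5⟩ : ∃ i j : ℤ, p1 + e ≤ i + D ∧ q1 + 2 * e ≤ i + D ∧ j ≤ p1 ∧
      j + e ≤ q1 ∧ i + 4000 * e ≤ j := by
    rcases le_total p1 q1 with h | h
    · exact ⟨q1 + 2 * e - D, p1 - e, by omega, by omega, by omega, by omega, by omega⟩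
    · exact ⟨p1 + 2 * e - D, q1 - e, by omega, by omega, by omega, by omega, by omega⟩
  rw [← map_mul, ← map_mul]
  exact eq_of_ker (S.eq_of_near hγ ap (δ := 4 * e) (by omega) (by omega) (by omega)
    (k1 i c1 (by omega)) (k2 i c2 (by omega)) (k1 j (by omega) c3) (k2 j (by omega) c4) (by omega)
    (by omega) (by omega) (by omega))

/-- The algebra of the alignment: equal products of neighbours. -/
theorem Red.refl_alg (R : Red π y) (P : Pat d γ e D y Y p n0 n1) {f : G} {m n : ℕ}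
    (h1 : π (Y (m + 1) ^ sgn (m + 1)) * π (Y m ^ sgn m) =
      π (f * (Y (n + 1) ^ sgn (n + 1))⁻¹ * f⁻¹) * π (f * (Y (n + 2) ^ sgn (n + 2))⁻¹ * f⁻¹))
    (h2 : π (Y (m + 2) ^ sgn (m + 2)) * π (Y (m + 1) ^ sgn (m + 1)) =
      π (f * (Y n ^ sgn n)⁻¹ * f⁻¹) * π (f * (Y (n + 1) ^ sgn (n + 1))⁻¹ * f⁻¹)) :
    sgn (m + 2) - sgn m = sgn (n + 2) - sgn n ∧
      (m % 2 = 1 → π (Y (m + 2) ^ sgn (m + 2)) = π (f * (Y n ^ sgn n)⁻¹ * f⁻¹)) := by
  have al : ∀ n, π (Y (n + 2)) = π (Y (n + 1)) ^ sgn (n + 1) * π (Y n) *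
      (π (Y (n + 1)) ^ sgn (n + 1))⁻¹ := fun n => by
    rw [P.alg n, map_mul, map_mul, map_inv, map_zpow]
  simp only [map_mul, map_inv, map_zpow] at h1 h2 ⊢
  have key : π (Y (m + 2)) ^ (sgn (m + 2) - sgn m) =
      π f * π (Y n) ^ (sgn (n + 2) - sgn n) * (π f)⁻¹ := by
    have e1 : π (Y (m + 2)) ^ sgn m = π (Y (m + 1)) ^ sgn (m + 1) * π (Y m) ^ sgn m *
        (π (Y (m + 1)) ^ sgn (m + 1))⁻¹ := by rw [al m, conj_zpow]
    have e2 : π (Y (n + 2)) ^ sgn (n + 2) = π (Y (n + 1)) ^ sgn (n + 1) * π (Y n) ^ sgn (n + 2) *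
        (π (Y (n + 1)) ^ sgn (n + 1))⁻¹ := by rw [al n, conj_zpow]
    have e3 : π (Y n) ^ (sgn (n + 2) - sgn n) = (π (Y n) ^ sgn n)⁻¹ * π (Y n) ^ sgn (n + 2) := by
      rw [← zpow_neg, ← zpow_add]
      congr 1
      ring
    rw [e2] at h1
    rw [zpow_sub, e1, h1, e3, eq_mul_inv_of_mul_eq h2]
    group
  have eq : sgn (m + 2) - sgn m = sgn (n + 2) - sgn n := (R.zpow_eq P key.symm).symm
  refine ⟨eq, fun hm => R.hs _ _ ?_⟩
  have := sgn_odd hm
  have := sgn_cases (m + 2)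
  have := sgn_cases (n + 2)
  have := sgn_cases n
  rw [show sgn (m + 2) - sgn m = sgn (m + 2) * 2 by omega,
    show sgn (n + 2) - sgn n = -sgn n * 2 by omega, zpow_mul, zpow_mul, zpow_neg] at key
  rw [conj_pow]
  exact_mod_cast key

/-- Let `L` be the last hub with `p L ≤ μ`, `q j = 2 μ - p (L - j)`,
`v j = f (Y (L - j) ^ sgn (L - j))⁻¹ f⁻¹` (a flip at `q j` with error `3 e` on
`[q (j - 1) + e, q j]` for `1 ≤ j ≤ 9`), `R ∈ {L, L + 1, L + 2}` with `2 |p R - q 0| ≤ D + e`.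
`align` gives the products for the hubs `R + j`, `j = 1, ..., 7`.  If `R = L + 1` then `refl_alg`
makes the signs at four consecutive even places alternate, which is impossible.  Otherwise take
`j ∈ {1, 2}` with `R + j` odd: the flips at `R + j + 2` agree, so `|p (R + j + 2) - q (j + 2)| ≤ 2 e`,
so `μ` is within `6 e` of `p N` for `N = (L + R) / 2`, and `eq_of_near` gives `f`. -/
theorem Sq.al (S : Sq G d k) (RR : Red π y) (hγ : GZ d γ a b) (P : Pat d γ e D y Y p n0 n1)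
    (ap : Aper (fun η => π η = 1) d γ e (p n0) (p n1))
    (sh : ∀ (η : G) i, π η = 1 → p n0 ≤ i → i ≤ p n1 → d (γ i) (η • γ i) ≤ e) (hn : n0 ≤ n1)
    (h1 : a ≤ p n0) (h2 : p n1 ≤ b) (hD : 12000 * e ≤ D) (he : 1 ≤ e) {f : G} {μ ρ : ℤ}
    (hf : Rv d γ e f (2 * μ) (μ - ρ) μ) (h3 : 14 * (D + e) ≤ ρ) (h4 : p n0 ≤ μ - ρ)
    (h5 : μ + ρ ≤ p n1) :
    ∃ N, n0 < N ∧ N < n1 ∧ π f = π (Y N ^ sgn N) ∧ μ ≤ p N + 7 * e ∧ p N ≤ μ + 7 * e := by
  have heD : e ≤ D := by omega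
  obtain ⟨l, l0, l1, l2, l3⟩ : ∃ l, n0 ≤ l ∧ l + 23 ≤ n1 ∧ p (l + 10) ≤ μ ∧ μ < p (l + 11) := by
    classical
    have ex : ∃ m, n0 ≤ m ∧ m ≤ n1 ∧ μ < p m := ⟨n1, hn, le_rfl, by omega⟩
    obtain ⟨a1, a2, a3⟩ := Nat.find_spec ex
    have a4 := P.idx 13 le_rfl a1 a2 (by push_cast; omega)
    obtain ⟨l, hl⟩ : ∃ l, Nat.find ex = l + 11 := ⟨Nat.find ex - 11, by omega⟩
    have a5 := Nat.find_min ex (m := l + 10) (by omega)
    rw [hl] at a2 a3 a4
    have a6 : p (l + 10) ≤ μ := by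
      by_contra hc
      exact a5 ⟨by omega, by omega, by omega⟩
    have := P.idx 13 (m := l + 10) (by omega) (by omega) le_rfl (by push_cast; omega)
    exact ⟨l, by omega, by omega, a6, a3⟩
  have g10 := P.gap (l + 10) (by omega) (by omega)
  have g11 := P.gap (l + 11) (by omega) (by omega)
  have s10 := P.span l0 10 (by omega)
  rw [show l + 10 + 1 = l + 11 from rfl] at g10
  rw [show l + 11 + 1 = l + 12 from rfl] at g11
  have hl : μ - ρ ≤ p l := by
    push_cast at s10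
    omega
  have vf : ∀ i, i ≤ 8 → _ := fun i hi => S.vflip P hf heD (n := l + i) (by omega) (by omega)
    (hl.trans (P.le heD l0 (by omega) (by omega)))
    ((P.le heD (by omega) (by omega) (by omega)).trans l2)
  obtain ⟨R, r1, r2, r3, r4⟩ : ∃ R, l + 10 ≤ R ∧ R ≤ l + 12 ∧
      2 * p R ≤ 2 * (2 * μ - p (l + 10)) + D + e ∧ 2 * (2 * μ - p (l + 10)) ≤ 2 * p R + D + e := by
    by_cases c1 : 2 * (2 * μ - p (l + 10)) ≤ 2 * p (l + 10) + D + e
    · exact ⟨l + 10, by omega, by omega, by omega, c1⟩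
    by_cases c2 : 2 * (2 * μ - p (l + 10)) ≤ 2 * p (l + 11) + D + e
    · exact ⟨l + 11, by omega, by omega, by omega, c2⟩
    · exact ⟨l + 12, by omega, by omega, by omega, by omega⟩
  have cl : ∀ t n, t ≤ 9 → n + t = l + 10 → 2 * p (R + t) ≤ 2 * (2 * μ - p n) + D + 40 * e ∧
      2 * (2 * μ - p n) ≤ 2 * p (R + t) + D + 40 * e := by
    intro t n ht hn
    have a1 := P.span (m := R) (by omega) t (by omega)
    have a2 := P.span (m := n) (by omega) t (by omega)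
    rw [hn] at a2
    have : (t : ℤ) * e ≤ 9 * e := mul_le_mul_of_nonneg_right (by omega) (by positivity)
    omega
  have pr : ∀ j i, j + i = 7 →
      π (Y (R + j + 1 + 1) ^ sgn (R + j + 1 + 1)) * π (Y (R + j + 1) ^ sgn (R + j + 1)) =
        π (f * (Y (l + i + 1) ^ sgn (l + i + 1))⁻¹ * f⁻¹) *
          π (f * (Y (l + i + 1 + 1) ^ sgn (l + i + 1 + 1))⁻¹ * f⁻¹) := by
    intro j i e7
    have a1 := (P.flip1 (m := R + j) (by omega) (by omega)).1
    have a2 := (P.flip1 (m := R + j + 1) (by omega) (by omega)).1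
    have b1 := vf (i + 1) (by omega)
    have b2 := vf i (by omega)
    have g1 := P.gap (R + j) (by omega) (by omega)
    have g2 := P.gap (R + j + 1) (by omega) (by omega)
    have g3 := P.gap (l + i + 1 + 1) (by omega) (by omega)
    have g4 := P.gap (l + i + 1) (by omega) (by omega)
    have c := cl (j + 1) (l + i + 1 + 1) (by omega) (by omega)
    refine S.align hγ ap hD he a1 a2 b1 b2 g1 g2 ?_ ?_ c.1 c.2
      (P.le heD le_rfl (by omega) (by omega)) (P.le heD (by omega) (by omega) le_rfl)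
    · rw [show l + (i + 1) + 2 = l + i + 1 + 1 + 1 from rfl,
        show l + (i + 1) + 1 = l + i + 1 + 1 from rfl]
      omega
    · rw [show l + (i + 1) + 1 = l + i + 1 + 1 from rfl]
      omega
  have ra : ∀ j i, j + i = 6 → _ := fun j i e6 =>
    RR.refl_alg P (m := R + j + 1) (n := l + i + 1) (pr j (i + 1) (by omega))
      (pr (j + 1) i (by omega))
  by_cases hR : R = l + 11
  · exfalso
    have ne : ∀ j, j ≤ 6 → (R + j + 1) % 2 = 0 → sgn (R + j + 1 + 2) ≠ sgn (R + j + 1) := by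
      intro j hj hp
      have := (ra j (6 - j) (by omega)).1
      have := sgn_odd (n := l + (6 - j) + 1) (by omega)
      have := sgn_cases (l + (6 - j) + 1)
      omega
    rcases (by omega : (R + 0 + 1) % 2 = 0 ∨ (R + 1 + 1) % 2 = 0) with hp | hp
    · exact sgn_alt hp (ne 0 (by omega) hp) (ne 2 (by omega) (by omega))
        (ne 4 (by omega) (by omega))
    · exact sgn_alt hp (ne 1 (by omega) hp) (ne 3 (by omega) (by omega))
        (ne 5 (by omega) (by omega))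
  obtain ⟨j, i, e6, hj, hp⟩ : ∃ j i, j + i = 6 ∧ j ≤ 1 ∧ (R + j + 1) % 2 = 1 := by
    rcases (by omega : (R + 0 + 1) % 2 = 1 ∨ (R + 1 + 1) % 2 = 1) with hp | hp
    · exact ⟨0, 6, rfl, by omega, hp⟩
    · exact ⟨1, 5, rfl, by omega, hp⟩
  have cc : p (R + j + 2 + 1) + p (l + i + 1) ≤ 2 * μ + 3 * e ∧
      2 * μ ≤ p (R + j + 2 + 1) + p (l + i + 1) + 3 * e := by
    have w := (ra j i e6).2 hp
    have a1 := (P.flip1 (m := R + j + 2) (by omega) (by omega)).1
    have b1 := vf i (by omega)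
    rw [show R + j + 1 + 2 = R + j + 2 + 1 from rfl] at w
    generalize f * (Y (l + i + 1) ^ sgn (l + i + 1))⁻¹ * f⁻¹ = V at w b1
    generalize Y (R + j + 2 + 1) ^ sgn (R + j + 2 + 1) = W at w a1
    have g1 := P.gap (R + j + 2) (by omega) (by omega)
    have g2 := P.gap (l + i + 1) (by omega) (by omega)
    rw [show l + i + 1 + 1 = l + i + 2 from rfl] at g2
    have c := cl (j + 3) (l + i + 1) (by omega) (by omega)
    rw [show R + (j + 3) = R + j + 2 + 1 from rfl] at c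
    have u1 := P.span (m := R + j + 2 + 1) (by omega) 3 (by omega)
    have u2 := P.le heD (m := R + j + 2 + 1 + 3) (by omega) (by omega) le_rfl
    have u3 := P.le heD le_rfl (n := l + 10) (by omega) (by omega)
    have u4 := P.span (m := l + 10) (by omega) 2 (by omega)
    have u5 := P.le heD (m := l + 10 + 2) (n := R + j + 2) (by omega) (by omega) (by omega)
    push_cast at u1 u4
    obtain ⟨z, z1, z2, z3, z4⟩ : ∃ z : ℤ, p (R + j + 2) ≤ z ∧ z ≤ p (R + j + 2 + 1) ∧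
        2 * μ - p (l + i + 2) + e ≤ z ∧ z ≤ 2 * μ - p (l + i + 1) := by
      rcases le_total (p (R + j + 2 + 1)) (2 * μ - p (l + i + 1)) with h | h
      · exact ⟨_, by omega, le_rfl, by omega, h⟩
      · exact ⟨_, by omega, h, by omega, le_rfl⟩
    have c1 := a1 z z1 z2
    have c2 := b1 z z3 z4
    have c3 := sh (W⁻¹ * V) z (by rw [map_mul, map_inv, w, inv_mul_cancel]) (by omega) (by omega)
    rw [mul_smul, S.inv_r] at c3
    have t1 := S.tri (γ (2 * p (R + j + 2 + 1) - z)) (W • γ z)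
      (γ (2 * (2 * μ - p (l + i + 1)) - z))
    have t2 := S.tri (W • γ z) (V • γ z) (γ (2 * (2 * μ - p (l + i + 1)) - z))
    rw [S.symm _ (_ • γ z)] at t1
    have := hγ.ge (i := 2 * p (R + j + 2 + 1) - z) (j := 2 * (2 * μ - p (l + i + 1)) - z)
      (by omega) (by omega) (by omega) (by omega)
    omega
  obtain ⟨m, t, m1, m2, ht, m3, m4⟩ : ∃ m t, l ≤ m ∧ m ≤ l + 10 ∧ t ≤ 5 ∧
      l + i + 1 + t = m + 1 ∧ m + 1 + t = R + j + 2 + 1 := by
    rcases (by omega : R = l + 10 ∨ R = l + 12) with h | h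
    · exact ⟨l + 9, j + 3, by omega, by omega, by omega, by omega, by omega⟩
    · exact ⟨l + 10, j + 4, by omega, by omega, by omega, by omega, by omega⟩
  have a1 := P.span (m := l + i + 1) (by omega) t (by omega)
  have a2 := P.span (m := m + 1) (by omega) t (by omega)
  rw [m3] at a1
  rw [m4] at a2
  have : (t : ℤ) * e ≤ 5 * e := mul_le_mul_of_nonneg_right (by omega) (by positivity)
  have b1 : μ ≤ p (m + 1) + 7 * e := by omega
  have b2 : p (m + 1) ≤ μ + 7 * e := by omega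
  refine ⟨m + 1, by omega, by omega, ?_, b1, b2⟩
  have c1 := (P.flip1 (m := m) (by omega) (by omega)).1
  have g1 := P.gap m (by omega) (by omega)
  have u1 := P.le heD l0 m1 (by omega)
  have u2 := P.le heD le_rfl l0 (by omega)
  have u3 := P.le heD (m := m + 1) (by omega) (by omega) le_rfl
  clear * - S hγ ap c1 g1 u1 u2 u3 b1 b2 hf hl hD he
  exact eq_of_ker (S.eq_of_near hγ ap (i := p m) (j := p (m + 1) - 7 * e) (δ := 14 * e) (by omega)
    (by omega) (by omega) (hf _ (by omega) (by omega)) (c1 _ le_rfl (by omega))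
    (hf _ (by omega) (by omega)) (c1 _ (by omega) (by omega)) (by omega) (by omega) (by omega)
    (by omega))

end Pool.Agent.Lib.MP_a2eab4_al.Rx
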