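import Pool.Agent.Lib.MP_a2eab4_al.RxA

set_option autoImplicit false
set_option linter.unusedSectionVars false

/-! Bridges between short sets, chains of bridges, doubling. -/

namespace Pool.Agent.Lib.MP_a2eab4_al.Rx

open Pool.Agent.Lib.MP_429c3d_al Hyp Ng

variable {G X : Type} [Group G] [MulAction G X] {d : X → X → ℕ} {k A K e : ℕ}

/-- A bridge from the short set of `y` to the short set of `c`. -/
structure Br (d : X → X → ℕ) (k K e : ℕ) (y c : G) (x x' : X) : Prop where
  g0 : Gt d K e y x' x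
  g1 : Gt d K e c x x'
  l0 : 99 * k ≤ d x (y • x)
  l1 : 99 * k ≤ d x' (c • x')
  len : 100 * k ≤ d x x'

/-- The next oriented edge. -/
def Succ (y c : G) (E E' : G × Bool) : Prop :=
  E'.2 = !E.2 ∧ (E.1⁻¹ * E'.1 = cond E'.2 c y ∨ E.1⁻¹ * E'.1 = (cond E'.2 c y)⁻¹)

/-- Reduced paths of oriented edges. -/
def Reach (y c : G) : G × Bool → G × Bool → Prop := Relation.ReflTransGen (Succ y c)

variable {y c : G} {x x' : X}

theorem Succ.rv {E E' : G × Bool} (h : Succ y c E E') : Succ y c (rv E') (rv E) := by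
  obtain ⟨h1, h2⟩ := h
  refine ⟨by simp [Ng.rv, h1], ?_⟩
  have e : E'.1⁻¹ * E.1 = (E.1⁻¹ * E'.1)⁻¹ := by group
  change E'.1⁻¹ * E.1 = cond (!E.2) c y ∨ E'.1⁻¹ * E.1 = (cond (!E.2) c y)⁻¹
  rw [e, ← h1]
  rcases h2 with h2 | h2 <;> rw [h2]
  · exact Or.inr rfl
  · exact Or.inl (inv_inv _)

theorem Succ.mul {E E' : G × Bool} (h : Succ y c E E') (g : G) :
    Succ y c (g * E.1, E.2) (g * E'.1, E'.2) := by
  have : (g * E.1)⁻¹ * (g * E'.1) = E.1⁻¹ * E'.1 := by group
  exact ⟨h.1, by rw [this]; exact h.2⟩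

theorem succ_mk (h : G) (s : Bool) : Succ y c (h, s) (h * cond (!s) c y, !s) :=
  ⟨rfl, Or.inl (by simp)⟩

theorem Reach.rv {E E' : G × Bool} (h : Reach y c E E') : Reach y c (rv E') (rv E) := by
  induction h with
  | refl => exact .refl
  | tail _ h ih => exact .head h.rv ih

theorem Reach.mul {E E' : G × Bool} (h : Reach y c E E') (g : G) :
    Reach y c (g * E.1, E.2) (g * E'.1, E'.2) := by
  induction h with
  | refl => exact .refl
  | tail _ h ih => exact .tail ih (h.mul g)

theorem reach_cs (y c : G) (j : ℕ) : Reach y c (1, false) (cs y c j, true) := by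
  induction j with
  | zero => exact .single (by simpa [cs] using succ_mk (y := y) (c := c) 1 false)
  | succ j ih =>
    have h1 : Succ y c (cs y c j, true) (cs y c j * y, false) := succ_mk _ true
    have h2 := ih.rv.mul (cs y c j * y * (cs y c j)⁻¹)
    simp only [Ng.rv, inv_mul_cancel_right, mul_one, Bool.not_true, Bool.not_false] at h2
    exact (ih.tail h1).trans h2

theorem Br.symm (m : IsMet d) (B : Br d k K e y c x x') : Br d k K e c y x' x :=
  ⟨B.g1, B.g0, B.l1, B.l0, m.symm x x' ▸ B.len⟩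

theorem Br.mono {e' : ℕ} (B : Br d k K e y c x x') (h : e ≤ e') : Br d k K e' y c x x' :=
  ⟨B.g0.mono h, B.g1.mono h, B.l0, B.l1, B.len⟩

theorem hs_succ_edge (g : G) (n : ℕ) :
    Succ y c (g * Hs y c n, par n) (g * Hs y c (n + 1), par (n + 1)) := by
  have e : (g * Hs y c n)⁻¹ * (g * Hs y c (n + 1)) = cond (par (n + 1)) c y ^ sgn (n + 1) := by
    rw [Hs]
    group
  refine ⟨par_succ n, ?_⟩
  change (g * Hs y c n)⁻¹ * (g * Hs y c (n + 1)) = cond (par (n + 1)) c y ∨
    (g * Hs y c n)⁻¹ * (g * Hs y c (n + 1)) = (cond (par (n + 1)) c y)⁻¹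
  rw [e]
  rcases sgn_cases (n + 1) with h | h <;> rw [h]
  · exact Or.inl (zpow_one _)
  · exact Or.inr (zpow_neg_one _)

theorem hs_reach (y c g : G) {m n : ℕ} (h : m ≤ n) :
    Reach y c (g * Hs y c m, par m) (g * Hs y c n, par n) := by
  induction h with
  | refl => exact Relation.ReflTransGen.refl
  | step _ ih => exact Relation.ReflTransGen.tail ih (hs_succ_edge g _)

namespace Sq

variable (S : Sq G d k)
include S

theorem br_conj (B : Br d k K e y c x x') (g : G) :
    Br d k K e (g * y * g⁻¹) (g * c * g⁻¹) (g • x) (g • x') :=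
  ⟨S.gt_conj B.g0 g, S.gt_conj B.g1 g, by rw [S.dis_conj]; exact B.l0,
    by rw [S.dis_conj]; exact B.l1, by rw [S.inv]; exact B.len⟩

theorem turn (B : Br d k K e y c x x') (he : e ≤ 40 * k) {v : X} {g a : G}
    (h1 : a = c ∨ a = c⁻¹) (hv : d v (g • x) + d (g • x) (g • x') ≤ d v (g • x') + (e + k)) :
    d v (g • x') + d (g • x') ((g * a) • x') ≤ d v ((g * a) • x') + (e + k) ∧
      d v ((g * a) • x') + d ((g * a) • x') ((g * a) • x) ≤ d v ((g * a) • x) + (e + k) := by
  have kp := S.pos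
  have l := B.len
  have l1 : 99 * k ≤ d x' (a • x') := by
    rcases h1 with rfl | rfl
    · exact B.l1
    · rw [S.dis_inv]
      exact B.l1
  have h2 : Commute a c := by
    rcases h1 with rfl | rfl
    · exact Commute.refl _
    · exact (Commute.refl c).inv_left
  have c1 := B.g1.gate (a • x') (by rw [S.dis_comm h2]; exact B.g1.sh)
  have c2 := B.g1.gate (a⁻¹ • x') (by rw [S.dis_comm h2.inv_left]; exact B.g1.sh)
  rw [S.inv_r a x' x', S.inv_r a x x', S.symm (a • x') x', S.symm (a • x) x'] at c2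
  have e1 := gate_step S.gr.met S.hyp (r := (g * a) • x') (e' := e) hv
    (by simp only [mul_smul, S.inv g]; exact c1) (by rw [S.inv]; omega)
  refine ⟨e1, gate_step S.gr.met S.hyp (e' := e) e1 ?_ ?_⟩
  · simp only [mul_smul, S.inv g, S.inv a]
    rw [S.symm x' x]
    omega
  · simp only [mul_smul, S.inv g]
    omega

theorem beh_succ (B : Br d k K e y c x x') (he : e ≤ 40 * k) {v : X} {E E' : G × Bool}
    (h : Succ y c E E') (hv : Beh d (e + k) x x' v E) : Beh d (e + k) x x' v E' ∧
      d v (hd x x' E) + d (hd x x' E) (tl x x' E') ≤ d v (tl x x' E') + (e + k) := by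
  obtain ⟨g, s⟩ := E
  obtain ⟨g', s'⟩ := E'
  obtain ⟨h1, h2⟩ := h
  simp only at h1 h2
  subst h1
  obtain ⟨a, rfl⟩ : ∃ a, g' = g * a := ⟨g⁻¹ * g', by group⟩
  rw [inv_mul_cancel_left] at h2
  cases s
  · exact (S.turn B he h2 hv).symm
  · exact (S.turn (B.symm S.gr.met) he h2 hv).symm

theorem beh_reach (B : Br d k K e y c x x') (he : e ≤ 40 * k) {v : X} {E E' : G × Bool}
    (h : Reach y c E E') (hv : Beh d (e + k) x x' v E) : Beh d (e + k) x x' v E' := by
  induction h with
  | refl => exact hv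
  | tail _ h ih => exact (S.beh_succ B he h ih).1

theorem beh_two (B : Br d k K e y c x x') (he : e ≤ 40 * k) {v v' : X} {E : G × Bool}
    (hv : Beh d (e + k) x x' v E) (hv' : Beh d (e + k) x x' v' (rv E)) :
    d v (tl x x' E) + d x x' + d (hd x x' E) v' ≤ d v v' + (2 * e + 3 * k) := by
  have kp := S.pos
  have l := B.len
  unfold Beh at hv hv'
  rw [tl_rv, hd_rv] at hv'
  have e0 := S.edge_len (x := x) (x' := x') E
  have := gate_two S.gr.met S.hyp (v' := v') (e' := e + k) hv
    (by rw [S.symm (hd x x' E) v', S.symm (tl x x' E) v', S.symm (tl x x' E)]; omega) (by omega)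
  omega

/-- An edge of a reduced path lies between the end points of the path. -/
theorem reach_btw (B : Br d k K e y c x x') (he : e ≤ 40 * k) {E0 E E1 : G × Bool}
    (h0 : Reach y c E0 E) (h1 : Reach y c E E1) :
    d (tl x x' E0) (tl x x' E) + d x x' + d (hd x x' E) (hd x x' E1) ≤
      d (tl x x' E0) (hd x x' E1) + (2 * e + 3 * k) :=
  S.beh_two B he (S.beh_reach B he h0 (S.beh_tl _ _))
    (S.beh_reach B he h1.rv (tl_rv (x := x) (x' := x') E1 ▸ S.beh_tl _ _))

theorem beh_short (B : Br d k K e y c x x') {w : X} (hw : d w (y • w) ≤ K) :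
    Beh d (e + k) x x' w ((1 : G), false) := by
  have := B.g0.gate w hw
  simp only [Beh, tl, hd, one_smul, cond_false]
  rw [S.symm w x, S.symm x x', S.symm w x']
  omega

theorem gt_of_beh (B : Br d k K e y c x x') (he : e ≤ 40 * k) {v : X}
    (hv : Beh d (e + k) x x' v ((1 : G), true)) : Gt d K (2 * e + 3 * k) y v x := by
  refine ⟨B.g0.sh, fun w hw => ?_⟩
  have := S.beh_two B he (S.beh_short B hw) hv
  simp only [tl, hd, one_smul, cond_false] at this
  have := S.tri x x' v
  rw [S.symm v x, S.symm x w, S.symm v w]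
  omega

theorem br_far (B : Br d k K e y c x x') (he : e ≤ 40 * k) {v : X} (hv : d v (y • v) ≤ K) :
    Gt d K (e + k) c v x' ∧ d v x + d x x' ≤ d v x' + e := by
  have kp := S.pos
  have l := B.len
  have e1 := B.g0.gate v hv
  rw [S.symm x' x, S.symm x v, S.symm x' v] at e1
  exact ⟨⟨B.g1.sh, fun w hw => gate_step S.gr.met S.hyp (p := x) (e := e) (by omega)
    (B.g1.gate w hw) (by omega)⟩, by omega⟩

theorem br_dist (B : Br d k K e y c x x') (he : e ≤ 40 * k) {u w : X} (hu : d u (y • u) ≤ K)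
    (hw : d w (c • w) ≤ K) : d u x + d x x' + d x' w ≤ d u w + (2 * e + k) := by
  have e1 := S.br_far B he hu
  have e2 := e1.1.gate w hw
  omega

theorem br_dbl (B : Br d k K e y c x x') (he : e ≤ 40 * k) :
    2 * d x x' + d x' (c • x') ≤ d x (c • x) + (2 * e + k) ∧ d x (c • x) ≤ 2 * d x x' + K := by
  have kp := S.pos
  have l := B.l1
  have e1 := S.gt_two B.g1 (S.gt_comm B.g1 (Commute.refl c)) (by omega)
  have e2 := S.dis_move c x x'
  have e3 := B.g1.sh
  rw [S.inv, S.symm x' x] at e1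
  omega

/-- Bridges of all levels. -/
theorem br_lev (B : Br d k K e y c x x') (he : e ≤ 18 * k) (j : ℕ) :
    Br d k K (2 * e + 3 * k) y (cs y c j) x (lx y c x x' j) := by
  induction j with
  | zero => exact B.mono (by omega)
  | succ j ih =>
    have r := reach_cs y c j
    have r1 := r.mul (cs y c j)⁻¹
    simp only [mul_one, inv_mul_cancel] at r1
    have g1 := S.gt_conj (S.gt_of_beh B (by omega)
      (S.beh_reach B (by omega) r1 (S.beh_tl _ _))) (cs y c j)
    simp only [tl, cond_false, smul_inv_smul] at g1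
    have e1 := S.br_dbl ih (by omega)
    have e2 := ih.len
    have e3 := ih.l1
    exact ⟨S.gt_of_beh B (by omega) (S.beh_reach B (by omega) r.rv
      (S.beh_tl (x := x) (x' := x') _ (rv (cs y c j, true)))), g1, B.l0,
      (S.br_conj B (cs y c j)).l0, by rw [lx_succ]; omega⟩

theorem lev_dbl (B : Br d k K e y c x x') (he : e ≤ 18 * k) (j : ℕ) :
    2 * d x (lx y c x x' j) + 20 * k ≤ d x (lx y c x x' (j + 1)) ∧
      d x (lx y c x x' (j + 1)) ≤ 2 * d x (lx y c x x' j) + K := by
  have B' := S.br_lev B he j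
  have e1 := S.br_dbl B' (by omega)
  have e3 := B'.l1
  rw [lx_succ]
  omega

theorem lev_mono (B : Br d k K e y c x x') (he : e ≤ 18 * k) {i j : ℕ} (h : i ≤ j) :
    d x (lx y c x x' i) ≤ d x (lx y c x x' j) := by
  induction j, h using Nat.le_induction with
  | base => exact le_rfl
  | succ j _ ih =>
    have := S.lev_dbl B he j
    omega

theorem lev_pow (B : Br d k K e y c x x') (he : e ≤ 18 * k) (i j : ℕ) :
    2 ^ j * d x (lx y c x x' i) ≤ d x (lx y c x x' (i + j)) := by
  induction j with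
  | zero => simp
  | succ j ih =>
    have := S.lev_dbl B he (i + j)
    rw [pow_succ, Nat.mul_right_comm, ← Nat.add_assoc]
    omega

theorem br_not_comm (B : Br d k K e y c x x') (he : e ≤ 40 * k) : ¬ Commute y c := by
  intro h
  have kp := S.pos
  have l := B.len
  have l1 := B.l1
  have e1 := S.br_dbl B he
  have e2 := B.g0.gate (c • x) (by rw [S.dis_comm h.symm]; exact B.g0.sh)
  have e3 := B.g0.gate (c⁻¹ • x) (by rw [S.dis_comm h.symm.inv_left]; exact B.g0.sh)
  have e4 := S.tri x' (c • x') (c • x)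
  rw [S.inv] at e4
  have := S.symm x x'
  omega

/-- Elements that commute with both elements are short at the ends of the bridge. -/
theorem br_cen (B : Br d k K e y c x x') (he : e ≤ 40 * k) {δ : G} (h1 : Commute δ y)
    (h2 : Commute δ c) : d x (δ • x) ≤ e + k ∧ d x' (δ • x') ≤ e + k := by
  have key : ∀ {y c : G} {x x' : X}, Br d k K e y c x x' → Commute δ y → Commute δ c →
      d x' (δ • x') ≤ e + k := by
    intro y c x x' B h1 h2
    have a1 := (S.br_far B he (v := δ • x) (by rw [S.dis_comm h1]; exact B.g0.sh)).1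
    have a2 := S.gt_comm B.g1 h2
    have a3 := a1.gate _ a2.sh
    have a4 := a2.gate _ a1.sh
    have := S.symm x' (δ • x')
    omega
  exact ⟨key (B.symm S.gr.met) h2 h1, key B h1 h2⟩

end Sq

theorem Sq.exists_br (S : Sq G d k) {y0 c0 : X} (h0 : d y0 (y • y0) + 3 * k + 2 ≤ K)
    (h1 : d c0 (c • c0) + 3 * k + 2 ≤ K) (hK : 100 * k ≤ K) (h : Fa d K (100 * k) y c) :
    ∃ x x', Br d k K (10 * k) y c x x' ∧ Fa d K (d x x') y c := by
  classical
  have kp := S.pos
  have ex : ∃ n, ∃ u w, d u (y • u) ≤ K ∧ d w (c • w) ≤ K ∧ d u w = n :=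
    ⟨_, y0, c0, by omega, by omega, rfl⟩
  obtain ⟨x, x', a1, a2, a3⟩ := Nat.find_spec ex
  have hm : Fa d K (d x x') y c := fun u w hu hw => a3 ▸ Nat.find_min' ex ⟨u, w, hu, hw, rfl⟩
  have l := h x x' a1 a2
  have key : ∀ (y : G) (x x' : X), 1 ≤ d x x' → (∀ u, d u (y • u) ≤ K → d x x' ≤ d u x') →
      K ≤ d x (y • x) + 1 := by
    intro y x x' h1 h2
    obtain ⟨z, z1, z2⟩ := S.gr.geo.mid S.gr.met x x' h1
    have e1 := S.dis_move y z x
    have e2 := h2 z
    have := S.symm z x
    omega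
  have k0 := key y x x' (by omega) fun u hu => hm u x' hu a2
  have k1 := key c x' x (by rw [S.symm]; omega) fun u hu => by
    rw [S.symm x' x, S.symm u x]; exact hm x u a1 hu
  refine ⟨x, x', ⟨S.gt_of_min (y := y0) (by omega) a1 fun w hw => ?_,
    S.gt_of_min (y := c0) (by omega) a2 fun w hw => hm x w a1 hw, by omega, by omega, l⟩, hm⟩
  rw [S.symm x' x, S.symm x' w]
  exact hm w x' hw a2

end Pool.Agent.Lib.MP_a2eab4_al.Rx
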