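import Pool.Agent.Lib.MP_a2eab4_al.RxP
import Pool.Agent.Lib.MP_429c3d_al.NxEdge

set_option autoImplicit false
set_option linter.unusedSectionVars false

/-! The elements that are short along an edge centralise the pair. -/

namespace Pool.Agent.Lib.MP_a2eab4_al.Rx

open Pool.Agent.Lib.MP_429c3d_al Hyp Ng

variable {G X : Type} [Group G] [MulAction G X] {d : X → X → ℕ} {k A K U e D : ℕ}
  {γ : ℤ → X} {a b : ℤ} {y c : G} {x x' : X}

/-- `η` centralises the conjugate of the pair by `g`. -/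
def Dn (y c g η : G) : Prop := Commute (g⁻¹ * η * g) y ∧ Commute (g⁻¹ * η * g) c

/-- The common centraliser does not grow along the chain. -/
def Stab (y c : G) : Prop := ∀ (j : ℕ) (δ : G), Commute δ y → Commute δ (cs y c j) → Commute δ c

theorem comm_cs {δ : G} (h1 : Commute δ y) (h2 : Commute δ c) (j : ℕ) : Commute δ (cs y c j) := by
  induction j with
  | zero => exact h2
  | succ j ih => exact (ih.mul_right h1).mul_right ih.inv_right

theorem comm_hs {δ : G} (h1 : Commute δ y) (h2 : Commute δ c) (n : ℕ) : Commute δ (Hs y c n) := by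
  induction n with
  | zero => exact Commute.one_right δ
  | succ n ih =>
    refine ih.mul_right (Commute.zpow_right ?_ _)
    cases par (n + 1)
    exacts [h1, h2]

theorem comm_ys {δ : G} (h1 : Commute δ y) (h2 : Commute δ c) (n : ℕ) : Commute δ (Ys y c n) := by
  refine ((comm_hs h1 h2 n).mul_right ?_).mul_right (comm_hs h1 h2 n).inv_right
  cases par n
  exacts [h1, h2]

theorem ys_even (t : ℕ) : Ys y c (2 * t) = Ys y (c * y * c⁻¹) t := by
  rw [Ys_even (by omega), Ys, Hs_step]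
  rcases Nat.mod_two_eq_zero_or_one t with h | h
  · rw [h, nxSgn_par_even h]
    rfl
  · rw [h, nxSgn_par_odd h, Hs, nxSgn_par_odd (by omega), sgn_three (by omega)]
    simp only [cond_true]
    group

theorem comm_of_ys {η : G} (n : ℕ) (h1 : Commute η (Ys y c n)) (h2 : Commute η (Ys y c (n + 1))) :
    Commute η y ∧ Commute η c := by
  induction n with
  | zero => simpa [Ys, Hs, par, show sgn 1 = 1 from sgn_one rfl] using And.intro h1 h2
  | succ n ih =>
    refine ih ?_ h1
    have h3 := h1.zpow_right (sgn (n + 1))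
    have := (h3.inv_right.mul_right h2).mul_right h3
    rwa [show n + 1 + 1 = n + 2 from rfl, Ys_two, ← mul_assoc, ← mul_assoc, inv_mul_cancel, one_mul,
      inv_mul_cancel_right] at this

theorem Dn.g0 {g η : G} (o : Bool) (L : ℕ) : Dn y c (G0o y c g o L) η ↔ Dn y c g η := by
  cases o
  · exact Iff.rfl
  · have key : ∀ z u : G, Commute z y → Commute z c → Commute z u → Commute (u * z * u⁻¹) y ∧
        Commute (u * z * u⁻¹) c := fun z u h1 h2 h3 => by
      rw [← h3.eq, mul_inv_cancel_right]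
      exact ⟨h1, h2⟩
    constructor
    · rintro ⟨h1, h2⟩
      have := key _ _ h1 h2 (comm_cs h1 h2 L).inv_right
      simpa [Dn, G0o, mul_assoc] using this
    · rintro ⟨h1, h2⟩
      have := key _ _ h1 h2 (comm_cs h1 h2 L)
      simpa [Dn, G0o, mul_assoc] using this

theorem exists_win (m0 : ℕ) : ∃ m, m0 ≤ m ∧ m ≤ m0 + 5 ∧ m % 2 = 0 ∧ sgn (m + 4) = sgn (m + 2) := by
  obtain ⟨m, h1, h2, h3⟩ : ∃ m, m0 ≤ m ∧ m ≤ m0 + 1 ∧ m % 2 = 0 := ⟨m0 + m0 % 2, by omega⟩
  by_contra hn
  refine sgn_alt (m := m + 2) (by omega) (fun e => hn ⟨m, h1, by omega, h3, e⟩)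
    (fun e => hn ⟨m + 2, by omega, by omega, by omega, e⟩)
    (fun e => hn ⟨m + 4, by omega, by omega, by omega, e⟩)

/-- The folding configuration along a chain of bridges. -/
theorem XS.sa_hs (S : XS G d k A) {η : G} {B m : ℕ} (hm : m % 2 = 0)
    (hs : sgn (m + 4) = sgn (m + 2)) (hD : A + 10 * B < d x x')
    (h : ∀ n, m ≤ n → n ≤ m + 5 → d x (((Hs y c n)⁻¹ * η * Hs y c n) • x) ≤ B ∧
      d x' (((Hs y c n)⁻¹ * η * Hs y c n) • x') ≤ B) :
    Commute η y ∧ Commute η (c * y * c⁻¹) := by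
  have cm : ∀ n n', m ≤ n → n ≤ m + 5 → m ≤ n' → n' ≤ m + 5 →
      Commute ((Hs y c n)⁻¹ * η * Hs y c n) ((Hs y c n')⁻¹ * η * Hs y c n') := by
    intro n n' a1 a2 a3 a4
    by_contra hn
    have := S.ai_sc hn (h n a1 a2).1 (h n' a3 a4).1 (h n a1 a2).2 (h n' a3 a4).2
    omega
  have ev : ∀ n, n % 2 = 1 → Hs y c (n + 1) = Hs y c n * y ^ sgn (n + 1) := fun n hn => by
    rw [Hs, nxSgn_par_even (by omega)]
    rfl
  have od : ∀ n, n % 2 = 0 → Hs y c (n + 1) = Hs y c n * c ^ sgn (n + 1) := fun n hn => by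
    rw [Hs, nxSgn_par_odd (by omega)]
    rfl
  have s3 : sgn (m + 2 + 1) = -sgn (m + 1) := sgn_odd (n := m + 1) (by omega)
  have s5 : sgn (m + 4 + 1) = sgn (m + 1) := sgn_four (n := m + 1) (by omega)
  have e1 := od m hm
  have e2 := ev (m + 1) (by omega)
  have e3 := od (m + 2) (by omega)
  have e4 := ev (m + 3) (by omega)
  have e5 := od (m + 4) (by omega)
  rw [s3, zpow_neg] at e3
  rw [s5] at e5
  rw [show m + 3 + 1 = m + 4 from rfl, hs] at e4
  rw [show m + 1 + 1 = m + 2 from rfl] at e2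
  rw [show m + 2 + 1 = m + 3 from rfl] at e3
  have key : ∀ u ∈ [1, y ^ sgn (m + 2), c ^ sgn (m + 1) * y ^ sgn (m + 2), c ^ sgn (m + 1),
      (y ^ sgn (m + 2))⁻¹ * c ^ sgn (m + 1),
      (c ^ sgn (m + 1))⁻¹ * (y ^ sgn (m + 2))⁻¹ * c ^ sgn (m + 1)], ∃ n, m ≤ n ∧ n ≤ m + 5 ∧
      u * ((Hs y c (m + 2))⁻¹ * η * Hs y c (m + 2)) * u⁻¹ = (Hs y c n)⁻¹ * η * Hs y c n := by
    intro u hu
    simp only [List.mem_cons, List.not_mem_nil, or_false] at hu
    rcases hu with rfl | rfl | rfl | rfl | rfl | rfl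
    · exact ⟨m + 2, by omega, by omega, by group⟩
    · exact ⟨m + 1, by omega, by omega, by rw [e2]; group⟩
    · exact ⟨m, by omega, by omega, by rw [e2, e1]; group⟩
    · exact ⟨m + 3, by omega, by omega, by rw [e3]; group⟩
    · exact ⟨m + 4, by omega, by omega, by rw [e4, e3]; group⟩
    · exact ⟨m + 4 + 1, by omega, by omega, by rw [e5, e4, e3]; group⟩
  obtain ⟨p1, p2⟩ := S.pf ((Hs y c (m + 2))⁻¹ * η * Hs y c (m + 2)) (y ^ sgn (m + 2))
    (c ^ sgn (m + 1)) fun u hu v hv => by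
      obtain ⟨n, a1, a2, a3⟩ := key u hu
      obtain ⟨n', b1, b2, b3⟩ := key v hv
      rw [a3, b3]
      exact cm n n' a1 a2 b1 b2
  have sn : sgn (m + 2) ≠ 0 := by have := sgn_cases (m + 2); omega
  have q1 := commute_conj (S.rg.zpow sn p1).symm (Hs y c (m + 2))
  have q2 := commute_conj (S.rg.zpow sn p2).symm (Hs y c (m + 3))
  obtain ⟨t, ht⟩ : ∃ t, m + 2 = 2 * t := ⟨(m + 2) / 2, by omega⟩
  refine comm_of_ys t ?_ ?_
  · rw [← ys_even, ← ht, Ys_even (by omega)]
    simpa [mul_assoc] using q1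
  · rw [← ys_even, show 2 * (t + 1) = m + 3 + 1 by omega, Ys_succ, nxSgn_par_even (by omega)]
    rw [e3] at q2 ⊢
    simpa [mul_assoc] using q2

/-- Along a chain of at least eleven edges. -/
theorem XS.sa_chain (S : XS G d k A) {η g : G} {B m0 : ℕ} (h0 : d x (y • x) ≤ K)
    (h1 : d x' (c • x') ≤ K) (hD : A + 10 * (B + 2 * K) < d x x')
    (h : ∀ n, m0 ≤ n → n ≤ m0 + 11 →
      d (tl x x' (g * Hs y c n, par n)) (η • tl x x' (g * Hs y c n, par n)) ≤ B) :
    Dn y (c * y * c⁻¹) g η := by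
  obtain ⟨m, m1, m2, m3, m4⟩ := exists_win m0
  refine S.sa_hs m3 m4 hD fun n a1 a2 => ?_
  have e1 := h n (by omega) (by omega)
  have e2 := h (n + 1) (by omega) (by omega)
  have e3 := up_ht S.toSp h0 h1 g n
  have e4 := S.dis_move η (hd x x' (g * Hs y c n, par n))
    (tl x x' (g * Hs y c (n + 1), par (n + 1)))
  have key : ∀ w : X, d w (((Hs y c n)⁻¹ * (g⁻¹ * η * g) * Hs y c n) • w) =
      d ((g * Hs y c n) • w) (η • (g * Hs y c n) • w) := fun w => by
    rw [← S.inv (g * Hs y c n), smul_smul, smul_smul]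
    congr 2
    group
  rw [key, key]
  simp only [tl, hd] at e1 e2 e3 e4
  cases hp : par n <;> simp only [hp, cond_true, cond_false] at e1 e3 e4 <;> omega

/-- The elements that are short along an edge. -/
theorem XS.aper_edge (S : XS G d k A) (hγ : GZ d γ a b) (F : Fine d k A K U y c x x')
    (st : Stab y c) {L : ℕ} {g : G} {o : Bool} {s t : ℤ}
    (hE : Along d γ U x (lx y c x x' L) (g, o) s t) (h1 : a ≤ s) (h3 : t ≤ b) :
    Aper (Dn y c g) d γ (50 * U) s t := by
  intro η B i j a1 a3 hc a4 a5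
  have kp := S.pos
  have hk := F.hk
  have hA := F.hA
  have hK := F.hK
  have sh : ∀ l, i ≤ l → l ≤ j → d (γ l) (η • γ l) ≤ B + U := by
    intro l b1 b2
    have e1 := hγ.le (i := i) (j := l) (by omega) b1 (by omega)
    have e2 := hγ.le (i := l) (j := j) (by omega) b2 (by omega)
    have e3 := hγ.le (i := i) (j := j) (by omega) (by omega) (by omega)
    have := S.conv η (p := γ i) (w := γ l) (q := γ j) (by omega) a4 a5
    omega
  have len : t ≤ s + d x (lx y c x x' L) + 2 * U := by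
    have e1 := S.edge_len (x := x) (x' := lx y c x x' L) (g, o)
    have e2 := hE.tail
    have e3 := hE.head
    have e4 := hγ.le h1 hE.le h3
    have t1 := S.tri (γ s) (tl x (lx y c x x' L) (g, o)) (γ t)
    have t2 := S.tri (tl x (lx y c x x' L) (g, o)) (hd x (lx y c x x' L) (g, o)) (γ t)
    have := S.symm (γ s) (tl x (lx y c x x' L) (g, o))
    omega
  obtain ⟨j0, i0, rfl, b1, b2⟩ := S.exists_lev F (θ := 10 * B + 92 * U) (L := L) (by omega)
    (by omega)
  obtain ⟨p, P, q1, q2, q3⟩ := S.pat_edge hγ F hE h1 h3 (by omega)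
  have B' := S.br_lev F.br (by omega) j0
  have n01 : n0o o i0 ≤ n0o o i0 + 2 ^ i0 := Nat.le_add_right _ _
  generalize n0o o i0 + 2 ^ i0 = n1 at *
  generalize n0o o i0 = n0 at *
  obtain ⟨m, m1, m2, m3, m4⟩ := P.first n01 (μ := i) (by omega)
  have m5 : p m ≤ i + d x (lx y c x x' j0) + 50 * U := by
    rcases m4 with rfl | m4
    · omega
    · omega
  have sp : ∀ r, r ≤ 11 → m + r ≤ n1 → p (m + r) ≤ p m + 11 * (20 * B + 235 * U) := by
    intro r r1 r2
    have e1 := (P.span m1 r r2).2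
    have e2 : r * d x (lx y c x x' j0) ≤ 11 * d x (lx y c x x' j0) := Nat.mul_le_mul_right _ r1
    have e3 : r * (50 * U) ≤ 11 * (50 * U) := Nat.mul_le_mul_right _ r1
    rw [← Nat.cast_mul, ← Nat.cast_mul] at e1
    omega
  have m6 : m + 11 ≤ n1 := by
    by_contra hn
    obtain ⟨r, rfl⟩ := Nat.exists_eq_add_of_le m2
    have := sp r (by omega) le_rfl
    omega
  have := S.sa_chain (η := η) (g := G0o y c g o (j0 + i0)) (B := B + 7 * U) (m0 := m) B'.g0.sh
    B'.g1.sh (by omega) fun n c1 c2 => by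
      obtain ⟨r, rfl⟩ := Nat.exists_eq_add_of_le c1
      have e1 := sp r (by omega) (by omega)
      have e2 := P.le (by omega) m1 c1 (by omega)
      have e3 := (q1 (m + r) (by omega) (by omega)).2.2
      have e4 := sh (p (m + r)) (by omega) (by omega)
      exact (S.dis_move η _ (γ (p (m + r)))).trans (by omega)
  exact (Dn.g0 o _).1 ⟨this.1, st (j0 + 1) _ this.1 this.2⟩

/-- Four levels up the common centraliser is stable. -/
theorem XS.stab (S : XS G d k A) (B : Br d k K (10 * k) y c x x')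
    (hD : A + 10 * (200 * k + 2 * K) < d x x') : Stab y (cs y c 4) := by
  intro j δ h1 h2
  rw [cs_add] at h2
  have kp := S.pos
  have B' := S.br_lev B (by omega) (4 + j)
  obtain ⟨a1, a2⟩ := S.br_cen B' (by omega) h1 h2
  have e := edge_ends (y := y) (c := c) x x' 1 false 0 (4 + j)
  simp only [n0o, G0o, cond_false, zero_add] at e
  have p16 : 16 ≤ 2 ^ (4 + j) := by
    rw [pow_add]
    exact Nat.le_mul_of_pos_right _ (Nat.two_pow_pos j)
  have := S.sa_chain (η := δ) (g := 1) (B := 200 * k) (m0 := 0) B.g0.sh B.g1.sh hD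
    fun n _ c2 => by
      have e1 := S.reach_btw B (by omega) (hs_reach y c 1 (Nat.zero_le n))
        (hs_reach y c 1 (m := n) (n := 2 ^ (4 + j) - 1) (by omega))
      have e2 := S.edge_len (x := x) (x' := x') (1 * Hs y c n, par n)
      have e3 := S.tri (tl x x' (1 * Hs y c n, par n)) (hd x x' (1 * Hs y c n, par n))
        (lx y c x x' (4 + j))
      have e4 : tl x x' (1 * Hs y c 0, par 0) = x := e.1.trans (one_smul G x)
      have e5 : hd x x' (1 * Hs y c (2 ^ (4 + j) - 1), par (2 ^ (4 + j) - 1)) =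
          lx y c x x' (4 + j) := e.2.trans (one_smul G _)
      rw [e4, e5] at e1
      generalize tl x x' (1 * Hs y c n, par n) = q at *
      obtain ⟨z, z1, z2⟩ := near_mid S.gr.met S.hyp S.gr.geo x (lx y c x x' (4 + j)) q
        (c := 23 * k) (by rw [S.symm q x]; omega)
      have e6 := S.conv δ z1 a1 a2
      have e7 := S.dis_move δ q z
      omega
  have e1 : Commute δ (cs y c 1) := by simpa [cs] using this.2
  have := comm_cs h1 e1 3
  rwa [cs_add] at this

end Pool.Agent.Lib.MP_a2eab4_al.Rx
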