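import Pool.Agent.Lib.MP_a2eab4_al.RxRig
import Pool.Agent.Lib.MP_a2eab4_al.RxSA

set_option autoImplicit false
set_option linter.unusedSectionVars false

/-! Two edges with a long common part are equal up to the common centraliser. -/

namespace Pool.Agent.Lib.MP_a2eab4_al.Rx

open Pool.Agent.Lib.MP_429c3d_al Hyp Ng

variable {G X : Type} [Group G] [MulAction G X] {d : X → X → ℕ} {k A K K' U : ℕ}
  {γ : ℤ → X} {a b : ℤ} {y c y' c' : G} {x x' z z' : X}

/-- `u'` is a twist of `u` by an element that centralises the pair. -/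
def Tw (y c u u' : G) : Prop := Commute (u⁻¹ * u') y ∧ Commute (u⁻¹ * u') c

theorem dn_iff {g η : G} : Dn y c g η ↔ Commute η (g * y * g⁻¹) ∧ Commute η (g * c * g⁻¹) := by
  have key : ∀ u : G, Commute (g⁻¹ * η * g) u ↔ Commute η (g * u * g⁻¹) := fun u => by
    rw [← comm_conj_iff g]
    simp [mul_assoc]
  rw [Dn, key, key]

theorem Dn.comm {g η u : G} (h : Dn y c g η) (hu : ∀ δ, Commute δ y → Commute δ c → Commute δ u) :
    Commute η (g * u * g⁻¹) := by
  simpa [mul_assoc] using commute_conj (hu _ h.1 h.2) g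

theorem Dn.mul {g η u : G} (h : Dn y c g η) (hu : ∀ δ, Commute δ y → Commute δ c → Commute δ u) :
    Dn y c (g * u) η := by
  have e : (g * u)⁻¹ * η * (g * u) = g⁻¹ * η * g := by
    rw [show (g * u)⁻¹ * η * (g * u) = u⁻¹ * (g⁻¹ * η * g * u) by group, (hu _ h.1 h.2).eq,
      inv_mul_cancel_left]
  rw [Dn, e]
  exact h

theorem Sq.sub (S : Sq G d k) (C : Subgroup G) : Sq C d k :=
  ⟨⟨S.gr, S.hyp, fun g x y => S.inv (g : G) x y, S.pos⟩⟩

theorem pat_sub {e D n0 n1 : ℕ} {Y : ℕ → G} {p : ℕ → ℤ} (P : Pat d γ e D y Y p n0 n1)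
    (C : Subgroup G) (hY : ∀ n, Y n ∈ C) {t : G} (ht : t ∈ C) (h01 : t * Y 0 * t⁻¹ = Y 1) :
    Pat d γ e D (⟨Y 0, hY 0⟩ : C) (fun n => ⟨Y n, hY n⟩) p n0 n1 := by
  have al : ∀ n, (⟨Y (n + 2), hY _⟩ : C) = (⟨Y (n + 1), hY _⟩ : C) ^ sgn (n + 1) * ⟨Y n, hY n⟩ *
      ((⟨Y (n + 1), hY _⟩ : C) ^ sgn (n + 1))⁻¹ := fun n => Subtype.ext (P.alg n)
  refine ⟨P.gap, P.flip, P.sym, al, fun n => ?_, fun n h => P.nc n (congrArg Subtype.val h)⟩
  induction n using Nat.twoStepInduction with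
  | zero => exact IsConj.refl _
  | one => exact isConj_iff.2 ⟨⟨t, ht⟩, Subtype.ext h01⟩
  | more n ih _ => exact ih.trans (isConj_iff.2 ⟨_, (al n).symm⟩)

/-- The elements of the common centraliser are short along an edge. -/
theorem Sq.dn_short (S : Sq G d k) (hγ : GZ d γ a b) (F : Fine d k A K U y c x x') {L : ℕ} {g : G}
    {o : Bool} {s t : ℤ} (E : Along d γ U x (lx y c x x' L) (g, o) s t) (h1 : a ≤ s) (h2 : t ≤ b)
    {η : G} (h : Dn y c g η) {i : ℤ} (h3 : s ≤ i) (h4 : i ≤ t) : d (γ i) (η • γ i) ≤ 3 * U := by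
  have hk := F.hk
  obtain ⟨a1, a2⟩ := S.br_cen (S.br_lev F.br (by omega) L) (by omega) h.1 (comm_cs h.1 h.2 L)
  have key : ∀ w : X, d (g • w) (η • g • w) = d w ((g⁻¹ * η * g) • w) := fun w => by
    rw [mul_smul, mul_smul, S.inv_r]
  have e1 := S.dis_move η (γ s) (tl x (lx y c x x' L) (g, o))
  have e2 := S.dis_move η (γ t) (hd x (lx y c x x' L) (g, o))
  have e3 := E.tail
  have e4 := E.head
  rw [S.symm] at e3 e4
  have e5 := hγ.le h1 h3 (by omega)
  have e6 := hγ.le (i := i) (by omega) h4 h2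
  have e7 := hγ.le h1 E.le h2
  refine (S.conv η (p := γ s) (q := γ t) (K := 2 * U + 24 * k) (by omega) ?_ ?_).trans (by omega)
  · cases o <;> simp only [tl, cond_true, cond_false, key] at e1 e3 <;> omega
  · cases o <;> simp only [hd, cond_true, cond_false, key] at e2 e4 <;> omega

/-- Two edges with a long common part have a common block, up to twists. -/
theorem XS.core (S : XS G d k A) (hγ : GZ d γ a b) (F : Fine d k A K U y c x x')
    (F' : Fine d k A K' U y' c' z z') (st : Stab y c) (st' : Stab y' c') {L L' : ℕ} {g g' : G}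
    {o o' : Bool} {s t s' t' w : ℤ} (E : Along d γ U x (lx y c x x' L) (g, o) s t)
    (E' : Along d γ U z (lx y' c' z z' L') (g', o') s' t')
    (h1 : a ≤ s) (h2 : t ≤ b) (h3 : a ≤ s') (h4 : t' ≤ b) (h5 : s ≤ w) (h6 : s' ≤ w)
    (h7 : w + 1200000000 * U ≤ t) (h8 : w + 1200000000 * U ≤ t') :
    ∃ j i j' i' N n, L = j + i ∧ L' = j' + i' ∧ 1 ≤ i ∧ 1 ≤ i' ∧ N % 2 = 0 ∧ n % 2 = 0 ∧
      n0o o i ≤ N ∧ N < n0o o i + 2 ^ i ∧ n0o o' i' ≤ n ∧ n < n0o o' i' + 2 ^ i' ∧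
      100000 * U ≤ d z (lx y' c' z z' j') ∧ ∀ h, h = (G0o y c g o L * Hs y (cs y c j) N)⁻¹ *
        (G0o y' c' g' o' L' * Hs y' (cs y' c' j') n) →
        Tw y c y (h * y' * h⁻¹) ∧ Tw y c (cs y c j) (h * cs y' c' j' * h⁻¹) := by
  have kp := S.pos
  have hk := F.hk
  have len : ∀ (u u' : X) (E : G × Bool) (s t : ℤ), Along d γ U u u' E s t → a ≤ s → t ≤ b →
      t ≤ s + d u u' + 2 * U := by
    intro u u' E s t hE h1 h3
    have e1 := S.edge_len (x := u) (x' := u') E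
    have e2 := hE.tail
    have e3 := hE.head
    have e4 := hγ.le h1 hE.le h3
    have t1 := S.tri (γ s) (tl u u' E) (γ t)
    have t2 := S.tri (tl u u' E) (hd u u' E) (γ t)
    have := S.symm (γ s) (tl u u' E)
    omega
  have l1 := len _ _ _ _ _ E h1 h2
  have l2 := len _ _ _ _ _ E' h3 h4
  have ap := S.aper_edge hγ F st E h1 h2
  have ap' := S.aper_edge hγ F' st' E' h3 h4
  have sh := fun η h i => S.dn_short hγ F E h1 h2 (η := η) h (i := i)
  obtain ⟨j0, i0, rfl, b1, b2⟩ := S.exists_lev F (θ := 600000 * U) (L := L) (by omega) (by omega)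
  obtain ⟨j', i', rfl, b3, b4⟩ := S.exists_lev F' (θ := 20000000 * U) (L := L') (by omega) (by omega)
  obtain ⟨j1, rfl⟩ : ∃ j1, j0 = j1 + 1 := by
    cases j0 with
    | zero => exact absurd (b1.trans F.hD) (by omega)
    | succ j1 => exact ⟨j1, rfl⟩
  obtain ⟨j2, rfl⟩ : ∃ j2, j' = j2 + 1 := by
    cases j' with
    | zero => exact absurd (b3.trans F'.hD) (by omega)
    | succ j2 => exact ⟨j2, rfl⟩
  obtain ⟨p, P, q1, q2, q3⟩ := S.pat_edge hγ F E h1 h2 (by omega)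
  obtain ⟨p', P', q4, q5, q6⟩ := S.pat_edge hγ F' E' h3 h4 (by omega)
  have u1 := q1 _ le_rfl (Nat.le_add_right _ _)
  have u2 := q1 _ (Nat.le_add_right _ _) le_rfl
  replace u1 := u1.1
  replace u2 := u2.2.1
  clear q1 q4 len l1 l2
  obtain ⟨m, m1, m2, m3, m4⟩ := P'.first (Nat.le_add_right _ _) (μ := w + 4 * U) (by omega)
  generalize hD : d x (lx y c x x' (j1 + 1)) = D at *
  generalize hD' : d z (lx y' c' z z' (j2 + 1)) = D' at *
  have m5 : p' m ≤ w + 4 * U + D' + 50 * U := by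
    rcases m4 with rfl | m4
    · omega
    · omega
  have m6 : m + 24 ≤ n0o o' i' + 2 ^ i' := by
    by_contra hn
    obtain ⟨r, hr⟩ := Nat.exists_eq_add_of_le m2
    have e1 := (P'.span m1 r hr.ge).2
    have e2 : r * D' ≤ 23 * D' := Nat.mul_le_mul_right _ (by omega)
    have e3 : r * (50 * U) ≤ 23 * (50 * U) := Nat.mul_le_mul_right _ (by omega)
    rw [← hr, ← Nat.cast_mul, ← Nat.cast_mul] at e1
    omega
  have m7 := (P'.span m1 24 m6).2
  have m8 := P'.le (by omega) m1 (n := 8 * (m / 8) + 8) (by omega) (by omega)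
  have m9 := P'.le (by omega) (m := 8 * (m / 8) + 8 + 16) (n := m + 24) (by omega) (by omega) m6
  push_cast at m7
  obtain ⟨C, H, _, π, mC, ker, hz, hs⟩ := exists_red S.n2 S.rg (g * y * g⁻¹) (g * c * g⁻¹)
  have mC1 : ∀ u, (∀ δ, Commute δ y → Commute δ c → Commute δ u) →
      G0o y c g o (j1 + 1 + i0) * u * (G0o y c g o (j1 + 1 + i0))⁻¹ ∈ C := fun u hu =>
    (mC _).2 fun η a1 a2 => ((Dn.g0 o _).2 (dn_iff.2 ⟨a1, a2⟩)).comm hu
  have mC2 : ∀ u, (∀ δ, Commute δ y' → Commute δ c' → Commute δ u) →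
      G0o y' c' g' o' (j2 + 1 + i') * u * (G0o y' c' g' o' (j2 + 1 + i'))⁻¹ ∈ C := fun u hu =>
    (mC _).2 fun η a1 a2 => ((Dn.g0 o' _).2 (ap' η (3 * U) w (w + 1200000000 * U) h6 h8
      (by push_cast; omega) (sh η (dn_iff.2 ⟨a1, a2⟩) _ h5 (by omega))
      (sh η (dn_iff.2 ⟨a1, a2⟩) _ (by omega) h7))).comm hu
  have e01 : ∀ (y c g : G) (j : ℕ), g * cs y c j * g⁻¹ * (g * Ys y (cs y c (j + 1)) 0 * g⁻¹) *
      (g * cs y c j * g⁻¹)⁻¹ = g * Ys y (cs y c (j + 1)) 1 * g⁻¹ := fun y c g j => by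
    simp [Ys, Hs, par, show sgn 1 = 1 from sgn_one rfl, cs, mul_assoc]
  have PC := pat_sub P C (fun n => mC1 _ fun δ a1 a2 => comm_ys a1 (comm_cs a1 a2 _) n)
    (mC1 _ fun δ a1 a2 => comm_cs a1 a2 j1) (e01 _ _ _ _)
  have PC' := pat_sub P' C (fun n => mC2 _ fun δ a1 a2 => comm_ys a1 (comm_cs a1 a2 _) n)
    (mC2 _ fun δ a1 a2 => comm_cs a1 a2 j2) (e01 _ _ _ _)
  have kd : ∀ η : C, π η = 1 ↔ Dn y c (G0o y c g o (j1 + 1 + i0)) η := fun η =>
    (ker η).trans (dn_iff.symm.trans (Dn.g0 o _).symm)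
  obtain ⟨N0, r, ⟨q, rfl⟩, r2, r3, r4, r5⟩ := (S.toSq.sub C).rig (π := π) ⟨hz _ fun e => by
      have := ((kd _).1 e).2
      refine S.br_not_comm F.br (by omega) ?_
      simpa [Ys, Hs, par, mul_assoc] using this, hs⟩ hγ PC
    (fun η B i j a1 a2 a3 a4 a5 => (ker η).2 (dn_iff.1 (ap.mono u1 u2 η B i j a1 a2 a3 a4 a5)))
    (fun η i a1 a2 a3 => (sh η (dn_iff.2 ((ker η).1 a1)) i (by omega) (by omega)).trans (by omega))
    (Nat.le_add_right _ _) (by omega) (by omega) (by omega) (by omega) PC' (by omega)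
    (n := 8 * (m / 8) + 8) (by omega) (by omega) (by omega) (by omega) (by omega)
  have tw : ∀ u v : C, π v = π u → Dn y c (G0o y c g o (j1 + 1 + i0)) ((u : G)⁻¹ * v) :=
    fun u v e => (kd (u⁻¹ * v)).1 (by rw [map_mul, map_inv, e, inv_mul_cancel])
  replace r4 := tw _ _ r4
  replace r5 := tw _ _ r5
  simp only at r4 r5
  clear tw kd PC PC' e01 mC1 mC2 mC ker hz hs
  have r6 : r < i0 := by
    rw [← Nat.pow_lt_pow_iff_right (a := 2) (by omega)]
    omega
  obtain ⟨i, rfl⟩ := Nat.exists_eq_add_of_le r6.le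
  have r7 : n0o o (r + i) = 2 ^ r * n0o o i := by cases o <;> simp [n0o, pow_add]
  have r8 : 4 * 2 ^ r * q = 2 ^ r * (4 * q) := by ring
  have r9 := Nat.two_pow_pos r
  have r11 : 1 ≤ i' := by
    by_contra hn
    obtain rfl : i' = 0 := by omega
    omega
  refine ⟨j1 + 1 + r, i, j2 + 1, i', 4 * q, 8 * (m / 8) + 8 + 8, (Nat.add_assoc _ _ _).symm, rfl,
    by omega, r11, by omega, by omega, ?_, ?_, by omega, by omega, by omega, ?_⟩
  · rw [r7, r8] at r2
    exact (Nat.lt_of_mul_lt_mul_left r2).le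
  · rw [r7, r8, pow_add, ← Nat.mul_add] at r3
    exact Nat.lt_of_mul_lt_mul_left (a := 2 ^ r) (by omega)
  · rintro h rfl
    rw [← cs_add y c (j1 + 1) r, Hs_lev r _ (by omega), ← r8]
    rw [Ys_even (by rw [Nat.mul_assoc]; omega), Ys_even (by omega)] at r4
    rw [Ys_block r _ ⟨q, rfl⟩] at r5
    have r10 := Ys_block (y := y') (c := cs y' c' (j2 + 1)) 0 (8 * (m / 8) + 8 + 8) (by omega)
    rw [show 8 * (m / 8) + 8 + 9 = 8 * (m / 8) + 8 + 8 + 2 ^ 0 by omega, r10] at r5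
    have f1 := r4.mul fun δ a1 a2 => comm_hs a1 (comm_cs a1 a2 (j1 + 1)) (4 * 2 ^ r * q)
    have f2 := r5.mul fun δ a1 a2 => comm_hs a1 (comm_cs a1 a2 (j1 + 1)) (4 * 2 ^ r * q)
    simp only [Dn, Tw, mul_inv_rev, mul_assoc, inv_inv, inv_mul_cancel_left] at f1 f2 ⊢
    exact ⟨f1, f2⟩

/-- Edges at close positions are equal. -/
theorem Sq.up_eq (S : Sq G d k) (hγ : GZ d γ a b) {s t : ℤ} {Z : G → Prop}
    (ap : Aper Z d γ (50 * U) s t)
    (hU : 1 ≤ U) {h h' : G} {o : Bool} {p0 p1 q0 q1 : ℤ} (b0 : s ≤ p0) (b1 : p1 ≤ t)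
    (b2 : p0 + 50000 * U ≤ p1) (c0 : d (tl x z (h, o)) (γ p0) ≤ 4 * U)
    (c1 : d (hd x z (h, o)) (γ p1) ≤ 4 * U) (c2 : d (tl x z (h', o)) (γ q0) ≤ 4 * U)
    (c3 : d (hd x z (h', o)) (γ q1) ≤ 4 * U) (e0 : p0 ≤ q0 + 109 * U) (e1 : q0 ≤ p0 + 109 * U)
    (e2 : p1 ≤ q1 + 109 * U) (e3 : q1 ≤ p1 + 109 * U) : Z (h' * h⁻¹) := by
  have key : ∀ (w : X) (p q : ℤ), d (h • w) (γ p) ≤ 4 * U → d (h' • w) (γ q) ≤ 4 * U →
      p ≤ q + 109 * U → q ≤ p + 109 * U → d (γ p) ((h' * h⁻¹) • γ p) ≤ 117 * U := by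
    intro w p q f1 f2 f3 f4
    have t0 := hγ.lip' p q (109 * U) (by push_cast; omega) (by push_cast; omega)
    have t1 := S.tri (γ p) (γ q) ((h' * h⁻¹) • γ p)
    have t2 := S.tri (γ q) (h' • w) ((h' * h⁻¹) • γ p)
    have t3 := S.symm (γ q) (h' • w)
    have t4 : d (h' • w) ((h' * h⁻¹) • γ p) = d (h • w) (γ p) := by
      rw [mul_smul, S.inv, S.inv_r]
    omega
  exact ap (h' * h⁻¹) (117 * U) p0 p1 b0 b1 (by push_cast; omega) (key _ _ _ c0 c2 e0 e1)
    (key _ _ _ c1 c3 e2 e3)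

theorem Tw.cancel {h h' u : G} (H : Tw y c (h * u) (h' * u))
    (hu : ∀ δ, Commute δ y → Commute δ c → Commute δ u) : Tw y c h h' := by
  have e : h⁻¹ * h' = (h * u)⁻¹ * (h' * u) := by
    rw [show h⁻¹ * h' = u * ((h * u)⁻¹ * (h' * u)) * u⁻¹ by group, ← (hu _ H.1 H.2).eq,
      mul_inv_cancel_right]
  rw [Tw, e]
  exact H

/-- Two translates of an edge with a common block are equal up to the common centraliser. -/
theorem XS.up (S : XS G d k A) (hγ : GZ d γ a b) (F : Fine d k A K U y c x x') (st : Stab y c)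
    {j i N n : ℕ} {g g' : G} {o o' : Bool} {s t s' t' : ℤ} (E : Along d γ U x (lx y c x x' (j + i)) (g, o) s t)
    (E' : Along d γ U x (lx y c x x' (j + i)) (g', o') s' t') (h1 : a ≤ s) (h2 : t ≤ b)
    (h3 : a ≤ s') (h4 : t' ≤ b) (hp : N % 2 = n % 2) (a1 : n0o o i ≤ N) (a2 : N < n0o o i + 2 ^ i)
    (a3 : n0o o' i ≤ n) (a4 : n < n0o o' i + 2 ^ i) (hD : 100000 * U ≤ d x (lx y c x x' j))
    (e : Tw y c (G0o y c g o (j + i) * Hs y (cs y c j) N)
      (G0o y c g' o' (j + i) * Hs y (cs y c j) n)) : Tw y c g g' ∧ o = o' := by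
  have kp := S.pos
  have hk := F.hk
  have hK := F.hK
  obtain ⟨p, P, hP, -, -⟩ := S.pat_edge hγ F E h1 h2 (by omega)
  obtain ⟨q, Q, hQ, -, -⟩ := S.pat_edge hγ F E' h3 h4 (by omega)
  have ap := S.aper_edge hγ F st E h1 h2
  have B := S.br_lev F.br (by omega) j
  have ht := up_ht S.toSp B.g0.sh B.g1.sh
  have gp := P.gap
  have gq := Q.gap
  have cC : ∀ δ, Commute δ y → Commute δ c → Commute δ (cs y c j) := fun δ a b => comm_cs a b j
  have cH : ∀ m δ, Commute δ y → Commute δ c → Commute δ (Hs y (cs y c j) m) := fun m δ a b =>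
    comm_hs a (cC δ a b) m
  have fin : N = n → o = o' → Tw y c g g' := by
    rintro rfl rfl
    have e1 := e.cancel (cH N)
    cases o
    · exact e1
    · exact e1.cancel fun δ a b => (comm_cs a b _).inv_right
  replace ap : Aper (Dn y c (G0o y c g o (j + i))) d γ (50 * U) s t :=
    fun η B i j a1 a2 a3 a4 a5 => (Dn.g0 o _).2 (ap η B i j a1 a2 a3 a4 a5)
  have mv : ∀ (h h' : G) (r : Bool), Tw y c h h' →
      d (tl x (lx y c x x' j) (h, r)) (tl x (lx y c x x' j) (h', r)) ≤ U ∧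
      d (hd x (lx y c x x' j) (h, r)) (hd x (lx y c x x' j) (h', r)) ≤ U := by
    intro h h' r H
    obtain ⟨t1, t2⟩ := S.br_cen B (by omega) H.1 (cC _ H.1 H.2)
    rw [mul_smul, S.inv_r] at t1 t2
    cases r <;> simp only [tl, hd, cond_true, cond_false] <;> omega
  have nc := S.br_not_comm B (by omega)
  clear P Q
  generalize G0o y c g o (j + i) = f at *
  generalize G0o y c g' o' (j + i) = f' at *
  generalize lx y c x x' j = w at *
  generalize cs y c j = C at *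
  have hh : ∀ m, n0o o i ≤ m → m < n0o o i + 2 ^ i →
      d (hd x w (f * Hs y C m, par m)) (γ (p (m + 1))) ≤ 4 * U := by
    intro m m1 m2
    have t1 := ht f m
    have t2 := (hP (m + 1) (by omega) (by omega)).2.2
    have t3 := S.tri (hd x w (f * Hs y C m, par m)) (tl x w (f * Hs y C (m + 1), par (m + 1)))
      (γ (p (m + 1)))
    omega
  have hh' : ∀ m, n0o o' i ≤ m → m < n0o o' i + 2 ^ i →
      d (hd x w (f' * Hs y C m, par m)) (γ (q (m + 1))) ≤ 4 * U := by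
    intro m m1 m2
    have t1 := ht f' m
    have t2 := (hQ (m + 1) (by omega) (by omega)).2.2
    have t3 := S.tri (hd x w (f' * Hs y C m, par m)) (tl x w (f' * Hs y C (m + 1), par (m + 1)))
      (γ (q (m + 1)))
    omega
  have pe : ∀ u v : ℕ, u % 2 = v % 2 → par u = par v := fun u v h => by unfold par; rw [h]
  have cl : ∀ (v : X) (u u' : ℕ), n0o o i ≤ u → u ≤ n0o o i + 2 ^ i → n0o o' i ≤ u' →
      u' ≤ n0o o' i + 2 ^ i → d v (γ (p u)) ≤ 4 * U → d v (γ (q u')) ≤ 5 * U →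
      p u ≤ q u' + 9 * U ∧ q u' ≤ p u + 9 * U := by
    intro v u u' u1 u2 u3 u4 u5 u6
    obtain ⟨t1, t2, -⟩ := hP u u1 u2
    obtain ⟨t3, t4, -⟩ := hQ u' u3 u4
    have t5 := hγ.ge (i := p u) (j := q u') (by omega) (by omega) (by omega) (by omega)
    have t6 := S.tri (γ (p u)) v (γ (q u'))
    have t7 := S.symm (γ (p u)) v
    omega
  have eq : ∀ u v, u % 2 = v % 2 → n0o o i ≤ u → u < n0o o i + 2 ^ i → n0o o' i ≤ v →
      v < n0o o' i + 2 ^ i → (p u ≤ q v + 9 * U ∧ q v ≤ p u + 9 * U) ∨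
        (p (u + 1) ≤ q (v + 1) + 9 * U ∧ q (v + 1) ≤ p (u + 1) + 9 * U) →
      Tw y c (f * Hs y C u) (f' * Hs y C v) := by
    intro u v uv u1 u2 u3 u4 hc
    obtain ⟨t1, -, t2⟩ := hP u u1 u2.le
    obtain ⟨-, t3, -⟩ := hP (u + 1) (by omega) u2
    obtain ⟨-, -, t4⟩ := hQ v u3 u4.le
    have t5 := hh u u1 u2
    have t6 := hh' v u3 u4
    have t7 := gp u u1 u2
    have t8 := gq v u3 u4
    rw [← pe u v uv] at t4 t6
    push_cast at t7 t8
    have t9 : Dn y c f (f' * Hs y C v * (f * Hs y C u)⁻¹) := by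
      refine S.up_eq hγ ap (by omega) t1 t3 ?_ (t2.trans (by omega)) t5 (t4.trans (by omega)) t6
        ?_ ?_ ?_ ?_ <;> clear t2 t4 t5 t6 <;> omega
    have := t9.mul (cH u)
    rwa [Dn, mul_assoc, inv_mul_cancel_right] at this
  have fw : ∀ r, N + r < n0o o i + 2 ^ i → n + r < n0o o' i + 2 ^ i →
      Tw y c (f * Hs y C (N + r)) (f' * Hs y C (n + r)) := by
    intro r
    induction r with
    | zero => exact fun _ _ => e
    | succ r ih =>
      intro r1 r2
      have t1 := hh (N + r) (by omega) (by omega)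
      have t2 := hh' (n + r) (by omega) (by omega)
      rw [← pe (N + r) (n + r) (by omega)] at t2
      have t3 := (mv _ _ (par (N + r)) (ih (by omega) (by omega))).2
      exact eq (N + r + 1) (n + r + 1) (by omega) (by omega) r1 (by omega) r2
        (Or.inl (cl _ _ _ (by omega) (by omega) (by omega) (by omega) t1
          ((S.tri _ _ _).trans ((Nat.add_le_add t3 t2).trans (by omega)))))
  have bw : ∀ r u v, u + r = N → v + r = n → n0o o i ≤ u → n0o o' i ≤ v →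
      Tw y c (f * Hs y C u) (f' * Hs y C v) := by
    intro r
    induction r with
    | zero =>
      rintro u v rfl rfl - -
      exact e
    | succ r ih =>
      intro u v r1 r2 r3 r4
      have t1 := (hP (u + 1) (by omega) (by omega)).2.2
      have t2 := (hQ (v + 1) (by omega) (by omega)).2.2
      rw [← pe (u + 1) (v + 1) (by omega)] at t2
      have t3 := (mv _ _ (par (u + 1))
        (ih (u + 1) (v + 1) (by omega) (by omega) (by omega) (by omega))).1
      exact eq u v (by omega) r3 (by omega) r4 (by omega)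
        (Or.inr (cl _ _ _ (by omega) (by omega) (by omega) (by omega) (t1.trans (by omega))
          ((S.tri _ _ _).trans ((Nat.add_le_add t3 t2).trans (by omega)))))
  have all : ∀ u v, u + n = v + N → n0o o i ≤ u → u < n0o o i + 2 ^ i → n0o o' i ≤ v →
      v < n0o o' i + 2 ^ i → Tw y c (f * Hs y C u) (f' * Hs y C v) := by
    intro u v uv u1 u2 u3 u4
    rcases le_total N u with h | h
    · obtain ⟨r, rfl⟩ := Nat.exists_eq_add_of_le h
      obtain rfl : v = n + r := by omega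
      exact fw r u2 u4
    · exact bw (N - u) u v (by omega) (by omega) u1 u3
  have n0c : ∀ o : Bool, n0o o i = 0 ∨ n0o o i = 2 ^ i := fun o => by
    cases o
    · exact Or.inl rfl
    · exact Or.inr rfl
  obtain ⟨r1, r2⟩ := sgn_up (n0c o) (n0c o') a1 a2 a3 a4 hp fun u v uv u1 u2 u3 u4 => by
    obtain ⟨u, rfl⟩ : ∃ u', u = u' + 1 := ⟨u - 1, by omega⟩
    obtain ⟨v, rfl⟩ : ∃ v', v = v' + 1 := ⟨v - 1, by omega⟩
    have t1 := all u v (by omega) (by omega) (by omega) (by omega) (by omega)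
    have t2 := all (u + 1) (v + 1) uv u1.le u2 u3.le u4
    have t3 : ∀ m, Hs y C (m + 1) = Hs y C m * cond (par (m + 1)) C y ^ sgn (m + 1) := fun _ => rfl
    rw [t3, t3, ← mul_assoc, ← mul_assoc, ← pe (u + 1) (v + 1) (by omega)] at t2
    by_contra hs
    obtain ⟨z, hz⟩ : ∃ z, z = cond (par (u + 1)) C y := ⟨_, rfl⟩
    have c0 : Commute ((f * Hs y C u)⁻¹ * (f' * Hs y C v)) z := by
      rw [hz]
      cases par (u + 1)
      exacts [t1.1, cC _ t1.1 t1.2]
    rw [← hz] at t2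
    generalize f * Hs y C u = φ at t1 t2 c0
    generalize f' * Hs y C v = ψ at t1 t2 c0
    have e1 : z ^ (sgn (v + 1) - sgn (u + 1)) =
        (φ⁻¹ * ψ)⁻¹ * ((φ * z ^ sgn (u + 1))⁻¹ * (ψ * z ^ sgn (v + 1))) := by
      rw [show (φ * z ^ sgn (u + 1))⁻¹ * (ψ * z ^ sgn (v + 1)) =
        (z ^ sgn (u + 1))⁻¹ * (φ⁻¹ * ψ) * z ^ sgn (v + 1) by group,
        ← (c0.zpow_right _).inv_right.eq]
      group
    have c1 := S.rg.zpow (i := sgn (v + 1) - sgn (u + 1)) (by omega)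
      (e1 ▸ t1.1.inv_left.mul_left t2.1)
    have c2 := S.rg.zpow (i := sgn (v + 1) - sgn (u + 1)) (by omega)
      (e1 ▸ t1.2.inv_left.mul_left t2.2)
    have c3 := cC z c1 c2
    rw [hz] at c1 c3
    cases hq : par (u + 1) <;> rw [hq] at c1 c3
    exacts [nc c3, nc c1.symm]
  have oo : o = o' := by
    have := Nat.two_pow_pos i
    cases o <;> cases o' <;> first | rfl | (simp only [n0o, cond_true, cond_false] at r2; omega)
  exact ⟨fin r1 oo, oo⟩

end Pool.Agent.Lib.MP_a2eab4_al.Rx
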