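import Pool.Agent.Lib.MP_a2eab4_al.RxD
import Pool.Agent.Lib.MP_429c3d_al.NxGrow

set_option autoImplicit false
set_option linter.unusedSectionVars false

/-! Growth of large pairs. -/

namespace Pool.Agent.Lib.MP_a2eab4_al.Rx

open Pool.Agent.Lib.MP_429c3d_al Hyp Ng

variable {G X : Type} [Group G] [MulAction G X] {d : X → X → ℕ} {k A : ℕ} {y c : G} {x0 : X}

theorem XS.grow_tl (S : XS G d k A) (hc : IsConj y c) {R : ℕ} {γ : ℤ → X} {ty : ℤ}
    (H : Ax d k y x0 R γ ty) {l : ℕ} (h : Ovb d (d x0 (y • x0) + (A + 300 * k)) l y c)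
    {lo hi τ : ℤ} (T : Tl d γ (3 * k) c τ lo hi) (h1 : lo + 7 * k < hi) (h2 : -(10 * R : ℤ) ≤ lo)
    (h3 : hi ≤ 10 * R) (h4 : -(10 * R : ℤ) ≤ lo + τ) (h5 : hi + τ ≤ 10 * R) :
    hi + d x0 (y • x0) ≤ lo + l + 3 * k := by
  obtain ⟨⟨c0, e0⟩, e1⟩ := S.grow_conj H.min hc
  have a1 := T lo le_rfl (by omega)
  have a2 := T hi (by omega) le_rfl
  have a3 := S.trans_le H.gz c a1 a2 (by push_cast; omega) (by omega) (by omega) (by omega)
    (by omega) c0
  rw [e0] at a3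
  have sh : ∀ i, lo ≤ i → i ≤ hi → d (γ i) (c • γ i) ≤ d x0 (y • x0) + 10 * k ∧
      d (γ (i + τ)) (c • γ (i + τ)) ≤ d x0 (y • x0) + 16 * k := by
    intro i i1 i2
    have b1 := T i i1 i2
    have b2 := H.gz.lip' i (i + τ) (d x0 (y • x0) + 7 * k) (by omega) (by omega)
    have b3 := S.tri (γ i) (γ (i + τ)) (c • γ i)
    have b4 := S.symm (γ (i + τ)) (c • γ i)
    have b5 := S.dis_move c (γ (i + τ)) (c • γ i)
    rw [S.inv] at b5
    omega
  have b1 := e1 (γ lo)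
  have b2 := S.tri (γ lo) (γ (lo + τ)) (c • γ lo)
  have b3 := S.symm (γ (lo + τ)) (c • γ lo)
  have s1 := sh lo le_rfl (by omega)
  have s2 := sh hi (by omega) le_rfl
  rcases le_total 0 τ with ht | ht
  · have c1 := H.gz.le (i := lo) (j := lo + τ) (by omega) (by omega) (by omega)
    have c2 := H.gz.le (i := lo) (j := hi + τ) (by omega) (by omega) (by omega)
    have c3 := S.ax_dis H (i := lo) (by omega) (by omega)
    have c4 := S.ax_dis H (i := hi + τ) (by omega) (by omega)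
    have c5 := h (γ lo) (γ (hi + τ)) (by omega) (by omega) (by omega) (by omega)
    omega
  · have c1 := H.gz.le (i := lo + τ) (j := lo) (by omega) (by omega) (by omega)
    have c2 := H.gz.le (i := lo + τ) (j := hi) (by omega) (by omega) (by omega)
    have c3 := S.ax_dis H (i := lo + τ) (by omega) (by omega)
    have c4 := S.ax_dis H (i := hi) (by omega) (by omega)
    have c5 := h (γ (lo + τ)) (γ hi) (by omega) (by omega) (by omega) (by omega)
    have c6 := S.symm (γ lo) (γ (lo + τ))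
    omega

theorem XS.grow_core (S : XS G d k A) (hc : IsConj y c) {r : ℕ} {γ : ℤ → X} {ty : ℤ}
    (H : Ax d k y x0 (20 * r) γ ty) (big : 100 * (A + 300 * k) ≤ d x0 (y • x0))
    (hr : d x0 (y • x0) ≤ r) {l : ℕ} (h : Ovb d (d x0 (y • x0) + (A + 300 * k)) l y c)
    {i1 i2 j1 j2 : ℤ} {D : ℕ} (hi : i1 ≤ i2) (a1 : -(r : ℤ) ≤ i1) (a2 : i2 ≤ r)
    (a3 : -(r : ℤ) ≤ j1) (a4 : j1 ≤ r) (a5 : -(r : ℤ) ≤ j2) (a6 : j2 ≤ r)
    (e1 : d (c • γ i1) (γ j1) ≤ A + 319 * k) (e2 : d (c • γ i2) (γ j2) ≤ A + 319 * k)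
    (hD : D ≤ d (γ i1) (γ i2) + (A + 319 * k)) :
    2 * D + d x0 (y • x0) ≤ 2 * l ∨ 4 * D ≤ 3 * d x0 (y • x0) := by
  have kp := S.pos
  have t1 := H.ty1
  have t2 := H.ty2
  have g1 := H.gz.le (i := i1) (j := i2) (by omega) hi (by omega)
  rcases le_total j2 j1 with hj | hj
  · have := S.rev_le H (Commute.refl y) (r := r) le_rfl (by omega) (by omega) (by omega) H.tly
      (T := ty.toNat) (by rw [abs_of_nonneg (by omega)]; omega) (by omega) a1 hi a2 a5 hj a4 e1 e2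
    omega
  · by_cases hb : 4 * D ≤ 3 * d x0 (y • x0)
    · exact Or.inr hb
    obtain ⟨τ, b1, b2, T⟩ := S.reset_tl H.gz (by omega) hi (by omega) (by omega) hj (by omega) e1 e2
    have := S.grow_tl hc H h T (by omega) (by omega) (by omega) (by omega) (by omega)
    omega

/-- Let `u, v` be short for `y` and `c y c⁻¹`; then `u, v, c⁻¹ u, c⁻¹ v` are short for `y`, hence
within `Θ` of points `γ j1, γ j2, γ i1, γ i2` of an axis (`exists_ax`, `ax_near`), `i1 ≤ i2` after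
a swap.  If `j2 ≤ j1` use `rev_le` with `z = y`.  Otherwise `reset_tl` gives a translation `τ`,
`trans_le` gives `|τ| ≤ μ + 7 k`, minimality gives `μ ≤ |τ| + 3 k`, and the two extreme points of
`[i1 + 2 Θ, i2 - 2 Θ]` and its translate are short for `y` and `c`. -/
theorem XS.ovb_step (S : XS G d k A) (hm : ∀ x, d x0 (y • x0) ≤ d x (y • x)) (hc : IsConj y c)
    (big : 100 * (A + 300 * k) ≤ d x0 (y • x0)) {l : ℕ}
    (h : Ovb d (d x0 (y • x0) + (A + 300 * k)) l y c) :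
    ∃ l', Ovb d (d x0 (y • x0) + (A + 300 * k)) l' y (c * y * c⁻¹) ∧
      (2 * l' + d x0 (y • x0) ≤ 2 * l ∨ 4 * l' ≤ 3 * d x0 (y • x0)) := by
  have key : ∀ u v, d u (y • u) ≤ d x0 (y • x0) + (A + 300 * k) →
      d u ((c * y * c⁻¹) • u) ≤ d x0 (y • x0) + (A + 300 * k) →
      d v (y • v) ≤ d x0 (y • x0) + (A + 300 * k) →
      d v ((c * y * c⁻¹) • v) ≤ d x0 (y • x0) + (A + 300 * k) →
      2 * d u v + d x0 (y • x0) ≤ 2 * l ∨ 4 * d u v ≤ 3 * d x0 (y • x0) := by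
    intro u v u1 u2 v1 v2
    rw [S.dis_conj'] at u2 v2
    obtain ⟨r, hr⟩ : ∃ r, r = d x0 (y • x0) + d x0 u + d x0 v + d x0 (c⁻¹ • u) + d x0 (c⁻¹ • v) +
      8 * k := ⟨_, rfl⟩
    obtain ⟨γ, ty, H⟩ := S.exists_ax hm (by omega) (R := 20 * r) (by omega)
    obtain ⟨j1, a1, a2, a3, -⟩ := S.ax_near H u (by omega)
    obtain ⟨j2, b1, b2, b3, -⟩ := S.ax_near H v (by omega)
    obtain ⟨i1, c1, c2, c3, -⟩ := S.ax_near H (c⁻¹ • u) (by omega)
    obtain ⟨i2, d1, d2, d3, -⟩ := S.ax_near H (c⁻¹ • v) (by omega)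
    have e1 : d (c • γ i1) (γ j1) ≤ A + 319 * k := by
      have t1 := S.tri (c • γ i1) u (γ j1)
      have t2 := S.inv_l c u (γ i1)
      have t3 := S.symm u (c • γ i1)
      omega
    have e2 : d (c • γ i2) (γ j2) ≤ A + 319 * k := by
      have t1 := S.tri (c • γ i2) v (γ j2)
      have t2 := S.inv_l c v (γ i2)
      have t3 := S.symm v (c • γ i2)
      omega
    have e3 : d u v ≤ d (γ i1) (γ i2) + (A + 319 * k) := by
      have t1 := S.tri (c⁻¹ • u) (γ i1) (c⁻¹ • v)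
      have t2 := S.tri (γ i1) (γ i2) (c⁻¹ • v)
      have t3 := S.symm (γ i2) (c⁻¹ • v)
      have t4 := S.inv c⁻¹ u v
      omega
    rcases le_total i1 i2 with hi | hi
    · exact S.grow_core hc H big (by omega) h hi (by omega) (by omega) (by omega) (by omega)
        (by omega) (by omega) e1 e2 e3
    · exact S.grow_core hc H big (by omega) h hi (by omega) (by omega) (by omega) (by omega)
        (by omega) (by omega) e2 e1 (by rw [S.symm (γ i2)]; exact e3)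
  refine ⟨max ((2 * l - d x0 (y • x0)) / 2) (3 * d x0 (y • x0) / 4), fun u v u1 u2 v1 v2 => ?_,
    by omega⟩
  have := key u v u1 u2 v1 v2
  omega

/-- Suppose `u` and `v` are short for `y` and `d u (c v) < 100 k`; take gates `p, p'` of `u, v` for
`c` (`exists_gt`); `gt_two` gives `d p (c p') ≤ 121 k`, so `d p p' ≥ μ - 121 k`, so `p, p'` are near
a geodesic from `u` to `v` (`gt_two`, `near_mid`, `conv`, `dis_move`), contradiction. -/
theorem XS.fa_of_ovb (S : XS G d k A) (hm : ∀ x, d x0 (y • x0) ≤ d x (y • x)) (hc : IsConj y c)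
    (big : 100 * (A + 300 * k) ≤ d x0 (y • x0)) {l : ℕ}
    (h : Ovb d (d x0 (y • x0) + (A + 300 * k)) l y c) (hl : 4 * l ≤ 3 * d x0 (y • x0)) :
    Fa d (d x0 (y • x0) + A + 100 * k) (100 * k) y (c * y * c⁻¹) := by
  intro u w hu hw
  have kp := S.pos
  obtain ⟨⟨c0, e0⟩, e1⟩ := S.grow_conj hm hc
  obtain ⟨v, rfl⟩ : ∃ v, w = c • v := ⟨c⁻¹ • w, (smul_inv_smul c w).symm⟩
  rw [S.dis_conj] at hw
  by_contra hn
  obtain ⟨p, gp, -⟩ := S.exists_gt c (K := d x0 (y • x0) + 5 * k) (y := c0) (by omega) u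
  obtain ⟨p', gp', -⟩ := S.exists_gt c (K := d x0 (y • x0) + 5 * k) (y := c0) (by omega) v
  have a1 : d p (c • p') ≤ 121 * k := by
    by_contra h1
    have := S.gt_two gp (S.gt_comm gp' (Commute.refl c)) (by omega)
    omega
  have a2 := e1 p'
  have a3 := S.tri p' p (c • p')
  have a4 := S.symm p' p
  have a5 := S.gt_two gp gp' (by omega)
  have near : ∀ q, d q u + d q v ≤ d u v + 21 * k → d q (y • q) ≤ d x0 (y • x0) + (A + 300 * k) := by
    intro q hq
    obtain ⟨z, z1, z2⟩ := near_mid S.gr.met S.hyp S.gr.geo u v q hq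
    have b1 := S.conv y z1 hu hw
    have b2 := S.dis_move y q z
    omega
  have b1 := near p (by
    have := S.tri p p' v
    have := S.symm p u
    omega)
  have b2 := near p' (by
    have := S.tri u p p'
    have := S.symm p' u
    omega)
  have b3 := gp.sh
  have b4 := gp'.sh
  have := h p p' b1 (by omega) b2 (by omega)
  omega

/-- If `μ < 100 Θ` use `fa_of_big` with `j = 0`; otherwise start with `ai_sc` (`2 l ≤ 22 μ`). -/
theorem XS.grow (S : XS G d k A) (hm : ∀ x, d x0 (y • x0) ≤ d x (y • x)) (hc : IsConj y c)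
    (nc : 20 * k ≤ d x0 (y • x0) → ¬ Commute y c) (h : Big d (101 * (A + 300 * k)) y c) :
    ∃ j, j ≤ 23 ∧ Fa d (d x0 (y • x0) + A + 100 * k) (100 * k) y (cs y c j) := by
  by_cases big : 100 * (A + 300 * k) ≤ d x0 (y • x0)
  swap
  · exact ⟨0, by omega, S.fa_of_big h (by omega)⟩
  have key : ∀ j : ℕ, ∃ i l, i ≤ j ∧ Ovb d (d x0 (y • x0) + (A + 300 * k)) l y (cs y c i) ∧
      (2 * l + j * d x0 (y • x0) ≤ 22 * d x0 (y • x0) ∧ i = j ∨ 4 * l ≤ 3 * d x0 (y • x0)) := by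
    intro j
    induction j with
    | zero =>
      exact ⟨0, A + 10 * (d x0 (y • x0) + (A + 300 * k)), le_rfl,
        fun u v u1 u2 v1 v2 => S.ai_sc (nc (by omega)) u1 u2 v1 v2, Or.inl ⟨by omega, rfl⟩⟩
    | succ j ih =>
      obtain ⟨i, l, h1, h2, h3 | h3⟩ := ih
      · obtain ⟨h3, rfl⟩ := h3
        obtain ⟨l', h4, h5⟩ := S.ovb_step hm (isConj_cs hc i) big h2
        refine ⟨i + 1, l', le_rfl, h4, ?_⟩
        rw [Nat.add_mul]
        omega
      · exact ⟨i, l, by omega, h2, Or.inr h3⟩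
  obtain ⟨i, l, h1, h2, h3⟩ := key 22
  exact ⟨i + 1, by omega, S.fa_of_ovb hm (isConj_cs hc i) big h2 (by omega)⟩

/-- If `μ ≥ T` this is trivial; otherwise `fa_of_big`, `exists_br`, `br_lev`, `lev_mono`,
`br_dist`, `big_of_fa`. -/
theorem XS.big_mono (S : XS G d k A) (hc : IsConj y c) {T : ℕ}
    (h : Big d (3 * T + A + 400 * k) y c) (j : ℕ) : Big d T y (cs y c j) := by
  have kp := S.pos
  obtain ⟨x1⟩ := S.ne
  obtain ⟨x0, hm⟩ := exists_min d y x1
  by_cases hT : T ≤ d x0 (y • x0)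
  · exact fun x => Or.inl (hT.trans (hm x))
  obtain ⟨⟨c0, e0⟩, -⟩ := S.grow_conj hm hc
  obtain ⟨⟨c1, e1⟩, -⟩ := S.grow_conj hm (isConj_cs hc j)
  have f1 : Fa d (d x0 (y • x0) + A + 100 * k) (T + 150 * k) y c := S.fa_of_big h (by omega)
  obtain ⟨x, x', B, -⟩ := S.exists_br (K := d x0 (y • x0) + A + 100 * k) (y0 := x0) (c0 := c0)
    (by omega) (by omega) (by omega)
    (fun u w hu hw => le_trans (by omega) (f1 u w hu hw))
  have a1 := f1 x x' B.g0.sh B.g1.sh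
  have a2 : d x x' ≤ d x (lx y c x x' j) := S.lev_mono B (by omega) (Nat.zero_le j)
  refine S.big_of_fa (K := d x0 (y • x0) + A + 100 * k) (y0 := x0) (c0 := c1) (by omega)
    (by omega) fun u w hu hw => ?_
  have := S.br_dist (S.br_lev B (by omega) j) (by omega) hu hw
  omega

end Pool.Agent.Lib.MP_a2eab4_al.Rx
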