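import Pool.Agent.Lib.MP_a2eab4_al.RxXI
import Pool.Agent.Lib.MP_a2eab4_al.RxEdge
import Pool.Agent.Lib.MP_a2eab4_al.RxGrow
import Pool.Agent.Lib.MP_429c3d_al.NgXJ

set_option autoImplicit false
set_option linter.unusedSectionVars false

/-! The facts about one level hold. -/

namespace Pool.Agent.Lib.MP_a2eab4_al.Rx

open Pool.Agent.Lib.MP_429c3d_al Hyp Ng

section

variable {G X : Type} [Group G] [MulAction G X] {d : X → X → ℕ} {k A K U u : ℕ} {y c : G}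
  {x x' : X}

/-- Elements that move every point far. -/
def Far (d : X → X → ℕ) (T : ℕ) (g : G) : Prop := ∀ z, T ≤ d z (g • z)

/-- Top edges. -/
def TopP (d : X → X → ℕ) (k A u T : ℕ) (y t : G) (ξ : X) : Prop :=
  ∃ (c : G) (L K : ℕ) (x' : X), Fine d k A K u y c ξ x' ∧ Stab y c ∧ t = cs y c L ∧
    Far d T (cs y c (L + 1) * y⁻¹) ∧ ∀ j, 1 ≤ j → j ≤ L → ¬ Far d T (cs y c j * y⁻¹)

theorem Fine.mono {U' : ℕ} (F : Fine d k A K U y c x x') (h : U ≤ U') :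
    Fine d k A K U' y c x x' :=
  ⟨F.br, F.conj, F.hk.trans h, F.hA.trans h, F.hK.trans h, F.hD.trans h⟩

theorem Sq.br_of_fa (S : Sq G d k) (hc : IsConj y c) (x0 : X)
    (h : Fa d (d x0 (y • x0) + A + 100 * k) (100 * k) y c) :
    ∃ x x', Br d k (d x0 (y • x0) + A + 100 * k) (10 * k) y c x x' ∧
      Fa d (d x0 (y • x0) + A + 100 * k) (d x x') y c := by
  have kp := S.pos
  obtain ⟨c0, h0⟩ := S.conj_min hc x0
  exact S.exists_br (y0 := x0) (c0 := c0) (by omega) (by omega) (by omega) h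

theorem Sq.lev_big (S : Sq G d k) (B : Br d k K (10 * k) y c x x') {N j : ℕ} (h : N ≤ j) :
    N ≤ d x (lx y c x x' j) := by
  have e1 := S.lev_pow B (by omega) 0 j
  have e2 : j < 2 ^ j := Nat.lt_two_pow_self
  have e3 := B.len
  have e4 := S.pos
  have e5 : 2 ^ j * 1 ≤ 2 ^ j * d x (lx y c x x' 0) :=
    Nat.mul_le_mul_left _ (by change 1 ≤ d x x'; omega)
  rw [Nat.zero_add] at e1
  omega

theorem Sq.lev_le (S : Sq G d k) (B : Br d k K (10 * k) y c x x') (j : ℕ) :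
    d x (lx y c x x' j) + K ≤ 2 ^ j * (d x x' + K) := by
  induction j with
  | zero => simp [lx]
  | succ j ih =>
    have := (S.lev_dbl B (by omega) j).2
    rw [pow_succ, Nat.mul_right_comm]
    omega

/-- A shortest bridge at a higher level. -/
theorem Sq.rebr (S : Sq G d k) (hc : IsConj y c) (x0 : X)
    (B : Br d k (d x0 (y • x0) + A + 100 * k) (10 * k) y c x x') {j : ℕ} (hj : 1 ≤ j) :
    ∃ z z', Br d k (d x0 (y • x0) + A + 100 * k) (10 * k) y (cs y c j) z z' ∧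
      d z z' ≤ d x (lx y c x x' j) ∧ d x (lx y c x x' j) ≤ d z z' + 47 * k := by
  have B' := S.br_lev B (by omega) j
  have l1 := (S.lev_dbl B (by omega) 0).1
  have l2 := S.lev_mono B (by omega) hj
  have l3 : 100 * k ≤ d x (lx y c x x' 0) := B.len
  rw [Nat.zero_add] at l1
  obtain ⟨z, z', B1, h1⟩ := S.br_of_fa (A := A) (isConj_cs hc j) x0 fun u w hu hw => by
    have := S.br_dist B' (by omega) hu hw
    omega
  have := S.br_dist B' (by omega) B1.g0.sh B1.g1.sh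
  exact ⟨z, z', B1, h1 _ _ B'.g0.sh B'.g1.sh, by omega⟩

/-- The twist invariant length of a bridge. -/
theorem Sq.far_le (S : Sq G d k) (B : Br d k K (23 * k) y c x x') (z : X) :
    2 * d x x' ≤ d z ((c * y⁻¹) • z) + K := by
  have r0 : Reach y c (1, false) (c * y⁻¹, false) :=
    (Relation.ReflTransGen.single (b := (c, true)) ⟨rfl, Or.inl (by simp)⟩).tail
      ⟨rfl, Or.inr (by simp)⟩
  have r1 : Reach y c (c * y⁻¹, false) (c * y⁻¹ * c, true) :=
    Relation.ReflTransGen.single ⟨rfl, Or.inl (inv_mul_cancel_left _ _)⟩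
  have e1 := S.reach_btw B (by omega) r0 r1
  simp only [tl, hd, cond_true, cond_false, one_smul] at e1
  rw [mul_smul (c * y⁻¹) c, S.inv] at e1
  have e2 := S.sq_le (c * y⁻¹) x z
  have e3 := (S.br_dbl B (by omega)).1
  have e4 := B.l1
  have e5 := S.tri x x' (c • x)
  have e6 := S.tri x ((c * y⁻¹) • (c * y⁻¹) • x) ((c * y⁻¹) • c • x)
  have e7 : d ((c * y⁻¹) • (c * y⁻¹) • x) ((c * y⁻¹) • c • x) = d x (y • x) := by
    rw [S.inv, mul_smul, S.inv, S.inv_l]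
  have e8 := B.g0.sh
  omega

theorem Sq.far_ge (S : Sq G d k) (B : Br d k K (23 * k) y c x x') :
    d x ((c * y⁻¹) • x) ≤ 2 * d x x' + 2 * K := by
  have e1 := (S.br_dbl B (by omega)).2
  have e2 := S.dis_mul c y⁻¹ x
  have e3 := S.dis_inv y x
  have e4 := B.g0.sh
  omega

theorem XS.flip (S : XS G d k A) (hc : IsConj y c) (nc : ¬ Commute y c)
    (h : Big d (101 * (A + 300 * k)) y c) (N : ℕ) :
    ∃ l ξ, l ≤ N + 24 ∧ Flip d y c ξ l N (50 * k) ∧
      ∀ j w w', l ≤ j → (∀ x, d w (y • w) ≤ d x (y • x) + 100 * k) →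
        (∀ x, d w' (cs y c j • w') ≤ d x (cs y c j • x) + 100 * k) →
        d w ξ + d ξ (eta y c ξ j) + d (eta y c ξ j) w' ≤ d w w' + 50 * k := by
  obtain ⟨x1⟩ := S.ne
  obtain ⟨x0, hm⟩ := exists_min d y x1
  obtain ⟨j0, h1, h2⟩ := S.grow hm hc (fun _ => nc) h
  obtain ⟨x, x', B, -⟩ := S.br_of_fa (isConj_cs hc j0) x0 h2
  have key : ∀ j, j0 + N + 1 ≤ j → ∃ L, N ≤ L ∧ eta y c x j = lx y (cs y c j0) x x' (L + 1) ∧
      cs y c j = cs y (cs y c j0) (L + 1) := by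
    intro j hj
    obtain ⟨L, rfl⟩ : ∃ L, j = j0 + L + 1 := ⟨j - j0 - 1, by omega⟩
    exact ⟨L, by omega, eta_eq j0 L, (cs_add y c j0 (L + 1)).symm⟩
  have gate : ∀ j w w', j0 + N + 1 ≤ j → (∀ x, d w (y • w) ≤ d x (y • x) + 100 * k) →
      (∀ x, d w' (cs y c j • w') ≤ d x (cs y c j • x) + 100 * k) →
      d w x + d x (eta y c x j) + d (eta y c x j) w' ≤ d w w' + 50 * k := by
    intro j w w' hj w1 w2
    obtain ⟨L, -, l2, l3⟩ := key j hj
    obtain ⟨c0, h0⟩ := S.conj_min (isConj_cs hc j) x0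
    have e1 := w1 x0
    have e2 := w2 c0
    rw [h0, l3] at e2
    have := S.br_dist (S.br_lev B (by omega) (L + 1)) (by omega) (u := w) (w := w') (by omega)
      (by omega)
    rw [l2]
    omega
  refine ⟨j0 + N + 1, x, by omega, ⟨by omega, fun j hj => ?_, fun j hj => ?_,
    fun j w w' hj w1 w2 => gate j w w' hj (fun v => (w1 v).trans (by omega))
      fun v => (w2 v).trans (by omega)⟩, gate⟩
  · obtain ⟨L, l1, l2, -⟩ := key j hj
    rw [l2]
    exact S.lev_big B (by omega)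
  · obtain ⟨L, -, l2, l3⟩ := key j hj
    have := (S.br_dbl (S.br_lev B (by omega) (L + 1)) (by omega)).1
    rw [l2, l3]
    omega

theorem XS.top (S : XS G d k A) (hc : IsConj y c) (nc : ¬ Commute y c) {T k0 n : ℕ}
    (hT : 101 * (A + 300 * k) ≤ T) (h1 : ¬ Big d T y c) (h2 : Esc d k0 T y c)
    (hn : 20 * T + 21 * A + 5000 * k ≤ n) (hu : 2 ^ (n + 4) * (2 * T + 2 * A + 400 * k) ≤ u)
    (T0 : ℕ) : ∃ j ξ, j ≤ k0 + 27 + n + T0 + u ∧ TopP d k A u T0 y (cs y c j) ξ := by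
  classical
  have kp := S.pos
  obtain ⟨x1, hx1⟩ := not_forall.1 h1
  obtain ⟨x0, hm⟩ := exists_min d y x1
  have m1 := hm x1
  obtain ⟨j1, a1, a2⟩ := h2
  obtain ⟨j2, a3, a4⟩ := S.grow hm (isConj_cs hc j1)
    (fun h => S.not_comm_cs (fun x => h.trans (hm x)) nc j1) (a2.le hT)
  rw [cs_add] at a4
  have ex : ∃ j, Fa d (d x0 (y • x0) + A + 100 * k) (100 * k) y (cs y c j) := ⟨_, a4⟩
  have a5 := Nat.find_min' ex a4
  obtain ⟨x, x', B, hF⟩ := S.br_of_fa (isConj_cs hc _) x0 (Nat.find_spec ex)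
  have hD : d x x' ≤ T + A + 300 * k := by
    cases h : Nat.find ex with
    | zero =>
      rw [h] at hF
      obtain ⟨c0, h0⟩ := S.conj_min hc x0
      obtain ⟨p, p1, p2⟩ := S.near_short y x1 x0 (K := d x0 (y • x0) + A + 100 * k) (by omega)
      obtain ⟨q, q1, q2⟩ := S.near_short c x1 c0 (K := d x0 (y • x0) + A + 100 * k) (by omega)
      have e1 := hF p q p1 q1
      have e2 := S.tri p x1 q
      have e3 := S.symm p x1
      have e4 := S.self x1
      rcases p2 with rfl | p2 <;> rcases q2 with rfl | q2 <;> omega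
    | succ m =>
      rw [h] at hF
      have e1 := Nat.find_min ex (m := m) (by omega)
      simp only [Fa, not_forall] at e1
      obtain ⟨p, q, p1, q1, e2⟩ := e1
      have e3 := hF p (cs y c m • p) p1 (by rw [cs, S.dis_conj]; exact p1)
      have e4 := S.dis_move (cs y c m) p q
      omega
  obtain ⟨z, z', B1, -, b2⟩ := S.rebr (isConj_cs hc _) x0 B (j := n) (by omega)
  have b3 := S.lev_big B (le_refl n)
  have st := S.stab B1 (by omega)
  obtain ⟨w, w', B2, b4, -⟩ := S.rebr (isConj_cs hc _) x0 B (j := n + 4) (by omega)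
  have b5 := S.lev_le B (n + 4)
  have b6 : 2 ^ (n + 4) * (d x x' + (d x0 (y • x0) + A + 100 * k)) ≤
      2 ^ (n + 4) * (2 * T + 2 * A + 400 * k) := Nat.mul_le_mul_left _ (by omega)
  have b7 := Nat.le_mul_of_pos_left (2 * T + 2 * A + 400 * k) (Nat.two_pow_pos (n + 4))
  rw [cs_add y _ n 4] at st
  have F : Fine d k A _ u y _ w w' :=
    ⟨B2, isConj_cs (isConj_cs hc _) _, by omega, by omega, by omega, by omega⟩
  have e0 : Far d T0 (cs y (cs y (cs y c (Nat.find ex)) (n + 4)) (T0 + u + 1) * y⁻¹) := fun v => by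
    have e1 := S.far_le ((S.br_lev B2 (by omega) (T0 + u + 1)).mono (by omega)) v
    have e2 := S.lev_big B2 (le_refl (T0 + u + 1))
    omega
  have ex2 : ∃ L, Far d T0 (cs y (cs y (cs y c (Nat.find ex)) (n + 4)) (L + 1) * y⁻¹) := ⟨_, e0⟩
  have e3 := Nat.find_min' ex2 e0
  refine ⟨Nat.find ex + (n + 4) + Nat.find ex2, w, by omega, _, Nat.find ex2, _, w', F, st,
    ((cs_add _ _ _ _).trans ((cs_add _ _ _ _).trans (congrArg _ (Nat.add_assoc _ _ _).symm))).symm,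
    Nat.find_spec ex2, fun j j1 j2 => ?_⟩
  obtain ⟨j, rfl⟩ : ∃ i, j = i + 1 := ⟨j - 1, by omega⟩
  exact Nat.find_min ex2 (by omega)

theorem XS.nt (S : XS G d k A) (F : Fine d k A K u y c x x') (st : Stab y c) (L : ℕ) {a : G}
    {q q' : X} (h1 : Btw d x q (lx y c x x' L)) (h2 : Btw d x q' (lx y c x x' L))
    (h3 : d q (a • q) ≤ 10 * u) (h4 : d q' (a • q') ≤ 10 * u) (h5 : 13000 * u < d q q') :
    Cen y c a := by
  have kp := S.pos
  have hk := F.hk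
  obtain ⟨γ, hγ, g0, g1⟩ := exists_gz S.gr x (lx y c x x' L)
  have ap := S.aper_edge hγ F st (L := L) (g := 1) (o := false) (s := 0) (t := d x (lx y c x x' L))
    ⟨by omega, by simp [tl, g0, S.self], by simp [hd, g1, S.self]⟩ le_rfl le_rfl
  unfold Ng.Btw at h1 h2
  obtain ⟨i, i1, i2, i3⟩ := S.near_gz hγ (by omega) q (c := 0)
    (by rw [g0, g1, S.symm q x]; omega)
  obtain ⟨j, j1, j2, j3⟩ := S.near_gz hγ (by omega) q' (c := 0)
    (by rw [g0, g1, S.symm q' x]; omega)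
  have e1 := S.dis_move a (γ i) q
  have e2 := S.dis_move a (γ j) q'
  have s1 := S.symm (γ i) q
  have s2 := S.symm (γ j) q'
  have t1 := S.tri q (γ i) q'
  have t2 := S.tri (γ i) (γ j) q'
  have e3 : Dn y c 1 a := by
    rcases le_total i j with h | h
    · have := hγ.le i1 h j2
      exact ap a (11 * u) i j i1 j2 (by omega) (by omega) (by omega)
    · have := hγ.le j1 h i2
      rw [S.symm] at this
      exact ap a (11 * u) j i j1 i2 (by omega) (by omega) (by omega)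
  simpa [Dn, Cen] using e3

theorem tw_lev (ab : ∀ a b, Cen y c a → Cen y c b → Commute a b) {y' c' : G} {j : ℕ}
    (h1 : Tw y c y y') (h2 : Tw y c (cs y c j) c') (r : ℕ) :
    Tw y c (cs y c (j + r)) (cs y' c' r) ∧ cs y' c' (r + 1) * y'⁻¹ = cs y c (j + r + 1) * y⁻¹ := by
  obtain ⟨δ, rfl⟩ : ∃ δ, y' = y * δ := ⟨y⁻¹ * y', by group⟩
  rw [Tw, inv_mul_cancel_left] at h1
  have st : ∀ (i : ℕ) (v : G), Tw y c (cs y c i) v → v * (y * δ) * v⁻¹ = cs y c (i + 1) * δ := by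
    intro i v h
    obtain ⟨ε, rfl⟩ : ∃ ε, v = cs y c i * ε := ⟨(cs y c i)⁻¹ * v, by group⟩
    rw [Tw, inv_mul_cancel_left] at h
    rw [show cs y c i * ε * (y * δ) * (cs y c i * ε)⁻¹ =
      cs y c i * (ε * (y * δ) * ε⁻¹) * (cs y c i)⁻¹ by group,
      (h.1.mul_right (ab _ _ h h1)).eq, mul_inv_cancel_right, cs, mul_assoc, mul_assoc,
      (comm_cs h1.1 h1.2 i).inv_right.eq]
    group
  have t : Tw y c (cs y c (j + r)) (cs (y * δ) c' r) := by
    induction r with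
    | zero => exact h2
    | succ r ih =>
      rw [Tw, cs.eq_2 (y * δ), st _ _ ih, Nat.add_assoc, inv_mul_cancel_left]
      exact h1
  refine ⟨t, ?_⟩
  rw [cs.eq_2 (y * δ), st _ _ t]
  group

theorem XS.edge (S : XS G d k A) {K' L L' C T : ℕ} {y' c' g : G} {z z' P P' q0 q0' : X}
    (F : Fine d k A K u y c x x') (F' : Fine d k A K' u y' c' z z') (st : Stab y c)
    (st' : Stab y' c') (ab : ∀ a b, Cen y c a → Cen y c b → Commute a b)
    (n1 : Far d T (cs y c (L + 1) * y⁻¹)) (n2 : ∀ j, 1 ≤ j → j ≤ L → ¬ Far d T (cs y c j * y⁻¹))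
    (n3 : Far d T (cs y' c' (L' + 1) * y'⁻¹))
    (n4 : ∀ j, 1 ≤ j → j ≤ L' → ¬ Far d T (cs y' c' j * y'⁻¹))
    (h1 : ∀ q, Deep d (C * u) x q (lx y c x x' (L + 1)) → NB d (100 * k) P q P')
    (h2 : ∀ q, Deep d (C * u) (g • z) q (g • lx y' c' z z' (L' + 1)) → NB d (100 * k) P q P')
    (h3 : Deep d (1200000010 * (C + 2) * u) x q0 (lx y c x x' (L + 1)))
    (h4 : Deep d (1200000010 * (C + 2) * u) (g • z) q0' (g • lx y' c' z z' (L' + 1)))
    (h5 : d q0 q0' ≤ 100 * k) :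
    (∃ h : G, Tw y c y (h * y' * h⁻¹) ∧ Tw y c (cs y c L) (h * cs y' c' L' * h⁻¹)) ∧
      (y' = y → c' = c → L' = L → z = x → z' = x' → Cen y c g) := by
  obtain ⟨U, hU⟩ : ∃ U, U = (C + 2) * u := ⟨_, rfl⟩
  have e1 : C * u + 2 * u ≤ U := by rw [hU]; exact le_of_eq (by ring)
  have hk := F.hk
  rw [Nat.mul_assoc, ← hU] at h3 h4
  obtain ⟨γ, hγ, g0, g1⟩ := exists_gz S.gr P P'
  obtain ⟨o, s, t, i, E, a1, a2, a3, a4, a5⟩ := S.along hγ g0 g1 hk e1 (W := 1200000006 * U)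
    (R := 1200000010 * U) (by omega) (1 : G) (by simpa using h1) (by simpa using h3)
  obtain ⟨o', s', t', i', E', b1, b2, b3, b4, b5⟩ := S.along hγ g0 g1 hk e1 (W := 1200000006 * U)
    (R := 1200000010 * U) (by omega) g h2 h4
  have c1 := hγ.ge (i := i) (j := i') (by omega) (by omega) (by omega) (by omega)
  have c2 := S.tri (γ i) q0 (γ i')
  have c3 := S.tri q0 q0' (γ i')
  have c4 := S.symm (γ i) q0
  obtain ⟨j, l, j', l', N, n, d1, d2, l1, l2, d3, d4, d5, d6, d7, d8, d9, d10⟩ :=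
    S.core hγ (F.mono (U' := U) (by omega)) (F'.mono (U' := U) (by omega)) st st' E E' a1 a2 b1 b2
      (w := i) (by omega) (by omega) (by omega) (by omega)
  obtain ⟨f1, f2⟩ := d10 _ rfl
  obtain ⟨φ, hφ⟩ : ∃ φ, φ = G0o y c 1 o (L + 1) * Hs y (cs y c j) N := ⟨_, rfl⟩
  obtain ⟨ψ, hψ⟩ : ∃ ψ, ψ = G0o y' c' g o' (L' + 1) * Hs y' (cs y' c' j') n := ⟨_, rfl⟩
  rw [← hφ, ← hψ] at f1 f2
  generalize hh : φ⁻¹ * ψ = h at f1 f2
  have f3 := fun r => tw_lev ab f1 f2 r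
  simp only [← conj_cs, cs_add] at f3
  have f4 : ∀ r, Far d T (cs y c (j + r + 1) * y⁻¹) ↔ Far d T (cs y' c' (j' + r + 1) * y'⁻¹) := by
    intro r
    rw [← (f3 r).2, show h * cs y' c' (j' + (r + 1)) * h⁻¹ * (h * y' * h⁻¹)⁻¹ =
      h * (cs y' c' (j' + r + 1) * y'⁻¹) * h⁻¹ by rw [Nat.add_assoc]; group]
    exact ⟨fun H v => S.dis_conj _ h v ▸ H _, fun H v => S.dis_conj' _ h v ▸ H _⟩
  obtain ⟨l, rfl⟩ : ∃ r, l = r + 1 := ⟨l - 1, by omega⟩
  obtain ⟨l', rfl⟩ : ∃ r, l' = r + 1 := ⟨l' - 1, by omega⟩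
  obtain rfl : L = j + l := by omega
  obtain rfl : L' = j' + l' := by omega
  obtain rfl : l = l' := by
    rcases lt_trichotomy l l' with H | H | H
    · exact absurd ((f4 l).1 n1) (n4 _ (by omega) (by omega))
    · exact H
    · exact absurd ((f4 l').2 n3) (n2 _ (by omega) (by omega))
  refine ⟨⟨h, f1, (f3 l).1⟩, ?_⟩
  rintro rfl rfl e0 rfl rfl
  obtain rfl : j = j' := by omega
  have cj := fun δ (H : Cen y' c' δ) => comm_cs H.1 H.2 j
  have f5 : ∀ a, Cen y' c' a → Commute a h := fun a ha => by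
    refine Commute.inv_right_iff.1 (S.n2.of_norm ab (fun a ha => ?_) ha)
    have key : ∀ v, Commute a v → Tw y' c' v (h * v * h⁻¹) → Commute (h⁻¹ * a * h⁻¹⁻¹) v := by
      intro v v1 v2
      have := commute_conj (v1.mul_right (ab _ _ ha v2)) h⁻¹
      simpa [mul_assoc] using this
    exact ⟨key _ ha.1 f1, st j _ (key _ ha.1 f1) (key _ (cj a ha) f2)⟩
  have f6 : ∀ v, Commute (v⁻¹ * (h * v * h⁻¹)) v → Tw y' c' v (h * v * h⁻¹) → Commute h v := by
    intro v v1 v2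
    have := S.n2.twist v1 (f5 _ v2) (by group)
    rw [inv_mul_eq_one, eq_mul_inv_iff_mul_eq] at this
    exact this.symm
  have f7 := f6 _ f1.1 f1
  have f8 := (S.up hγ (F.mono (U' := U) (by omega)) st (j := j) (i := l + 1) E E' a1 a2 b1 b2
    (by omega) d5 d6 d7 d8 d9 (by
      rw [Tw, ← Nat.add_assoc, ← hφ, ← hψ, hh]
      exact ⟨f7, st j _ f7 (f6 _ (cj _ f2) f2)⟩)).1
  simpa [Tw, Cen] using f8

/-- The facts about one level. -/
theorem XS.xi (S : XS G d (k + 1) A) {C1 N0 T n k0 : ℕ}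
    (hT : T = 101 * (A + 300 * (k + 1))) (hn : n = 60 * T + 41 * A + 13000 * (k + 1))
    (hu : 2 ^ (n + 4) * (6 * T + 4 * A + 1200 * (k + 1)) ≤ u) :
    XI G d (TopP d (k + 1) A u ((2 * N0 + 6) * u)) 13000 C1 (1200000010 * (C1 + 2)) N0
      (2 * N0 + 8) k T (3 * T + A + 400 * (k + 1)) (50 * (k + 1)) u (N0 * u + 24) k0
      (k0 + 27 + n + (2 * N0 + 6) * u + u) := by
  have n1 : (2 * N0 + 6) * u = 2 * (N0 * u) + 6 * u := by ring
  have n2 : (2 * N0 + 8) * u = 2 * (N0 * u) + 8 * u := by ring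
  have lo : ∀ (y t : G) ξ, TopP d (k + 1) A u ((2 * N0 + 6) * u) y t ξ →
      N0 * u + 2 * u ≤ d ξ (t • ξ) := by
    rintro y _ ξ ⟨c, L, K, x', F, -, rfl, h, -⟩
    have e1 := S.far_ge ((S.br_lev F.br (by omega) (L + 1)).mono (by omega))
    have e2 := h ξ
    have e3 := F.hK
    rw [lx_succ] at e1
    omega
  have cen : ∀ (y t : G) ξ, TopP d (k + 1) A u ((2 * N0 + 6) * u) y t ξ → ∀ δ, Cen y t δ →
      d ξ (δ • ξ) ≤ 11 * (k + 1) := by
    rintro y _ ξ ⟨c, L, K, x', F, st, rfl, -⟩ δ h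
    exact (S.br_cen F.br (by omega) h.1 (st L δ h.1 h.2)).1.trans (by omega)
  have ab : ∀ (y t : G) ξ, TopP d (k + 1) A u ((2 * N0 + 6) * u) y t ξ → ∀ a b, Cen y t a →
      Cen y t b → Commute a b := by
    intro y t ξ H a b ha hb
    by_contra hc
    have e1 := cen y t ξ H a ha
    have e2 := cen y t ξ H b hb
    have e3 := lo y t ξ H
    have := S.ai a b ξ (t • ξ) hc (by omega) (by omega) (by rw [S.dis_comm ha.2.symm]; omega)
      (by rw [S.dis_comm hb.2.symm]; omega)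
    obtain ⟨c, L, K, x', F, -⟩ := H
    have := F.hA
    have := F.hk
    omega
  have up : ∀ {y c δ : G} (L : ℕ), Cen y c δ → Cen y (cs y c L) δ := fun L h =>
    ⟨h.1, comm_cs h.1 h.2 L⟩
  refine ⟨fun y c j h1 h3 => S.big_mono h1 h3 j, fun y c h1 h2 h3 => S.flip h1 h2 (hT ▸ h3) _,
    fun y c h1 h2 h3 h4 => S.top h1 h2 (by clear hu; omega) h3 h4 (by clear hu; omega) (by
      rwa [show 2 * (3 * T + A + 400 * (k + 1)) + 2 * A + 400 * (k + 1) =
        6 * T + 4 * A + 1200 * (k + 1) by ring]) _, ?_, ?_, ?_, ab, ?_, ?_,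
    fun y t ξ H => le_trans (by omega) (lo y t ξ H), ?_, ?_, ?_⟩
  · rintro y _ ξ ⟨c, L, K, x', F, -, rfl, -⟩
    exact isConj_cs F.conj L
  · rintro y _ ξ ⟨c, L, K, x', F, -, rfl, -⟩ j
    rw [cs_add]
    exact S.br_not_comm (S.br_lev F.br (by omega) _) (by omega)
  · rintro y _ ξ ⟨c, L, K, x', F, st, rfl, -⟩ j δ h
    rw [cs_add] at h
    exact up L ⟨h.1, st _ δ h.1 h.2⟩
  · rintro y _ ξ ⟨c, L, K, x', F, -⟩
    exact F.br.g0.sh.trans F.hK
  · intro y t ξ H δ h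
    have := cen y t ξ H δ h
    obtain ⟨c, L, K, x', F, -⟩ := H
    have := F.hk
    omega
  · rintro y _ ξ ⟨c, L, K, x', F, -, rfl, -, h⟩
    have e1 := (S.lev_dbl F.br (by omega) L).2
    have e2 := F.hK
    rw [lx_succ] at e1
    cases L with
    | zero =>
      have : d ξ (lx y c ξ x' 0) ≤ u := F.hD
      omega
    | succ L =>
      obtain ⟨v, hv⟩ := not_forall.1 (h (L + 1) (by omega) le_rfl)
      have := S.far_le ((S.br_lev F.br (by omega) (L + 1)).mono (by omega)) v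
      omega
  · rintro y _ ξ ⟨c, L, K, x', F, st, rfl, -⟩ a q q' h1 h2 h3 h4 h5
    exact up L (S.nt F st (L + 1) h1 h2 h3 h4 h5)
  · rintro y _ ξ y' t' ξ' H T' g P P' q0 q0' h1 h2 h3 h4 h5
    have ab' := ab _ _ _ H
    obtain ⟨c, L, K, x', F, st, rfl, n1, n2⟩ := H
    replace ab' : ∀ a b, Cen y c a → Cen y c b → Commute a b := fun a b ha hb =>
      ab' a b (up L ha) (up L hb)
    constructor
    · obtain ⟨c', L', K', z', F', st', rfl, n3, n4⟩ := T'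
      obtain ⟨h, f1, f2⟩ := (S.edge F F' st st' ab' n1 n2 n3 n4 h1 h2 h3 h4 h5).1
      exact ⟨h, up L f1, up L f2⟩
    · rintro rfl rfl rfl
      exact up L ((S.edge F F st st ab' n1 n2 n1 n2 h1 h2 h3 h4 h5).2 rfl rfl rfl rfl rfl)

end

theorem xi_exists : ∃ CN : ℕ, ∀ C1 : ℕ, ∃ C3 : ℕ, ∀ N0 : ℕ, ∃ N1 : ℕ, ∀ k A : ℕ,
    ∃ S1 S2 J U : ℕ, 3 ≤ S1 ∧ ∀ u, U ≤ u → ∃ K0 : ℕ, ∀ k0 : ℕ, ∃ kk : ℕ,
    ∀ (G X : Type) [Group G] [MulAction G X] (d : X → X → ℕ), XS G d (k + 1) A →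
      ∃ Top, XI G d Top CN C1 C3 N0 N1 k S1 S2 J u K0 k0 kk :=
  ⟨_, fun _ => ⟨_, fun _ => ⟨_, fun _ _ => ⟨_, _, _, _, by omega, fun _ hu =>
    ⟨_, fun _ => ⟨_, fun _ _ _ _ _ S => ⟨_, S.xi rfl rfl hu⟩⟩⟩⟩⟩⟩⟩

end Pool.Agent.Lib.MP_a2eab4_al.Rx
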