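import Pool.Agent.Lib.MP_a2eab4_al.TwT1

/-! The translates of the line of a new cone, under the weak hypotheses. -/

set_option autoImplicit false

namespace Pool.Agent.Lib.MP_429c3d_al.Ng

open Hyp

namespace BT

variable {H V : Type} [Group H] [MulAction H V] {T : BT H V} {l : ℤ → V} {e g g' : H} {ψ : H → ℤ}

/-- The basic line, its translation and the exponent sum. -/
structure ConeW (T : BT H V) (e : H) (l : ℤ → V) (ψ : H → ℤ) : Prop where
  ac : T.AW
  ax : T.Ax e l (2 * 1)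
  mul : ∀ a b, ψ (a * b) = ψ a + ψ b
  one : ψ e = 1
  fix : ∀ (g : H) i, ¬ T.ap (l i) → g • l i = l i → ψ g = 0
  two : ∀ (g : H) i, T.ap (l i) → g • l i = l i → g • l (i + 2) = l (i + 2) → g = 1

variable {a b δ a' b' δ' : ℤ} {D D' : ℕ}

namespace ConeW

variable (C : T.ConeW e l ψ)
include C

theorem psi_one : ψ 1 = 0 := by
  have := C.mul 1 1
  rw [mul_one] at this
  omega

theorem psi_inv (g : H) : ψ g⁻¹ = -ψ g := by
  have := C.mul g g⁻¹
  rw [mul_inv_cancel, C.psi_one] at this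
  omega

theorem psi_zpow (k : ℤ) : ψ (e ^ k) = k := by
  induction k using Int.induction_on with
  | zero => simpa using C.psi_one
  | succ k ih => rw [zpow_add_one, C.mul, ih, C.one]
  | pred k ih => rw [zpow_sub_one, C.mul, ih, C.psi_inv, C.one]; ring

theorem ez (k i : ℤ) : e ^ k • l i = l (i + 2 * k) := by
  rw [(C.ax.zpow k).2]; congr 1; ring

theorem level {i j : ℤ} (hi : ¬ T.ap (l i)) (h : g • l i = l j) : 2 * ψ g = j - i := by
  have h1 := C.ax.1.even h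
  have := C.fix (e ^ ((i - j) / 2) * g) i hi (by rw [mul_smul, h, C.ez]; congr 1; omega)
  rw [C.mul, C.psi_zpow] at this
  omega

theorem of_par {i j n : ℤ} (h : ∀ k, 0 ≤ k → k ≤ n → g • l (i + k) = l (j + k))
    (hn : 3 ≤ n ∨ (2 ≤ n ∧ T.ap (l i))) : ∃ k : ℤ, g = e ^ k := by
  have hl := C.ax.1
  have h0 := h 0 le_rfl (by omega)
  have := hl.even h0
  have h1 : ∀ k, 0 ≤ k → k ≤ n → (e ^ (-((j - i) / 2)) * g) • l (i + k) = l (i + k) :=
    fun k k1 k2 => by rw [mul_smul, h k k1 k2, C.ez]; congr 1; omega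
  obtain ⟨k, k1, k2, k3⟩ : ∃ k, 0 ≤ k ∧ k + 2 ≤ n ∧ T.ap (l (i + k)) := by
    rcases hn with hn | ⟨hn, ha⟩
    · obtain ⟨m, m1, m2, m3⟩ := hl.exists_ap i
      exact ⟨m - i, by omega, by omega, by rwa [add_sub_cancel]⟩
    · exact ⟨0, le_rfl, by omega, by rwa [add_zero]⟩
  have h2 := C.two _ _ k3 (h1 k k1 (by omega)) (by
    rw [add_assoc]; exact h1 _ (by omega) k2)
  rw [zpow_neg, inv_mul_eq_one] at h2
  exact ⟨_, h2.symm⟩

theorem of_ax {u : ℤ} (h : T.Ax g l u) : ∃ k : ℤ, g = e ^ k :=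
  C.of_par (i := 0) (j := u) (n := 3) (fun k _ _ => by rw [h.2]; congr 1; ring) (Or.inl le_rfl)

theorem of_comm {k : ℤ} (hk : k ≠ 0) (h : g * e ^ k = e ^ k * g) : ∃ k : ℤ, g = e ^ k := by
  obtain ⟨u, hu⟩ := C.ac.ax_of_comm (C.ax.zpow k) (by omega) h
  exact C.of_ax hu

theorem of_conj {k j : ℤ} (hk : k ≠ 0) (h : g * e ^ k * g⁻¹ = e ^ j) : ∃ k : ℤ, g = e ^ k := by
  obtain ⟨u, hu⟩ := C.ac.ax_of_conj (C.ax.zpow k) (by omega) (h ▸ C.ax.zpow j)
  exact C.of_ax hu

theorem rev_le {i j c : ℤ} (h : ∀ k, i ≤ k → k ≤ j → g • l k = l (c - k)) : j ≤ i + 1 := by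
  by_contra hc
  obtain ⟨-, -, h1, -⟩ := C.ac.crit C.ax (by omega) h (by omega)
  have h2 := C.level h1 (h i le_rfl (by omega))
  have h3 := C.level (fun ha => h1 (((C.ax.1.par (i + 2) i).2 (by omega)).1 ha))
    (h (i + 2) (by omega) (by omega))
  omega

theorem exists_cf (hg : ¬ ∃ k : ℤ, g = e ^ k) : ∃ a b δ D, T.Cf l g a b δ D := by
  obtain ⟨u, u', δ, D, h | h⟩ := C.ac.exists_ov C.ax (by omega) (g := g) fun h =>
    hg (C.of_comm (k := 1) (by omega) (by rwa [zpow_one]))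
  · have h0 := h.nonneg
    have key : D = 0 → ∀ k, 0 ≤ k → k ≤ δ → g • l (u' + k) = l (u + k) := by
      rintro rfl k k1 k2
      exact (h.eq k1 k2).symm
    have := h.zero
    refine ⟨u, u', δ, D, h0, by_contra fun hc => hg (C.of_par (key (by omega)) (by omega)), h.zero,
      fun q => ?_, fun q => ?_, ⟨u + 0, u' + 0, ?_⟩, fun e => ⟨fun ha =>
        hg (C.of_par (key (by omega)) (Or.inr ⟨by omega, ha⟩)), e ▸ key (by omega)⟩⟩
    · have := (h.symm.ft (q - u')).add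
      simp only [add_sub_cancel] at this
      exact ⟨_, _, by unfold cl; omega, by unfold cl; omega, by omega, this⟩
    · have := (h.ft (q - u)).smul g⁻¹
      simp only [add_sub_cancel, inv_smul_smul] at this
      exact ⟨_, _, by unfold cl; omega, by unfold cl; omega, by omega, this.add⟩
    · rw [h.ft]; unfold cl; omega
  · have h0 := h.nonneg
    have := h.zero
    have h1 : δ ≤ 1 := by
      by_contra hc
      obtain rfl : D = 0 := by omega
      have := C.rev_le (g := g) (i := u' - δ) (j := u') (c := u + u') fun k k1 k2 => by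
        have := h.eq (i := u' - k) (by omega) (by omega)
        simp only [sub_sub_cancel] at this
        rw [← this]; congr 1; ring
      omega
    refine ⟨u, u' - δ, δ, D, h0, by omega, h.zero, fun q => ?_, fun q => ?_, ⟨u + 0, u' - 0, ?_⟩,
      fun e => by omega⟩
    · have := (h.symm.ft (u' - q)).add
      simp only [sub_sub_cancel] at this
      exact ⟨_, _, by unfold cl; omega, by unfold cl; omega, by omega, this⟩
    · have := (h.ft (q - u)).smul g⁻¹
      simp only [add_sub_cancel, inv_smul_smul] at this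
      exact ⟨_, _, by unfold cl; omega, by unfold cl; omega, by omega, this.sub⟩
    · rw [h.ft]; unfold cl; omega

/-- Either the projections meet or the lines are far from each other. -/
theorem meet (h : T.Cf l g a b δ D) (h' : T.Cf l g' a' b' δ' D') (k : ℤ) {x : H} {a₁ b₁ δ₁ : ℤ}
    {D₁ : ℕ} (h₁ : T.Cf l x a₁ b₁ δ₁ D₁) {i j : ℤ} (hx : g * e ^ i * x = e ^ k * g' * e ^ j) :
    (a' + 2 * k ≤ a + δ ∧ a ≤ a' + 2 * k + δ') ∨ D + D' < D₁ := by
  obtain ⟨p, q, h1⟩ := h₁.att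
  rw [← T.inv (g * e ^ i), ← mul_smul _ x, hx, mul_smul, mul_smul, mul_smul, C.ez, C.ez] at h1
  obtain ⟨r, E, r1, r2, r3, r4⟩ := h.pj (p + 2 * i)
  obtain ⟨r', E', s1, s2, s3, s4⟩ := h'.pj (q + 2 * j)
  have s5 : T.Ft l (e ^ k • g' • l (q + 2 * j)) (r' + 2 * k) E' := fun m => by
    rw [show l m = e ^ k • l (m - 2 * k) by rw [C.ez, sub_add_cancel], T.inv, s4]
    omega
  by_cases hr : r = r' + 2 * k
  · exact Or.inl (by omega)
  · rw [r4.via C.ax.1 s5 hr] at h1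
    omega

theorem cube {f : H} {p q : ℤ} (h : f * f * f * e ^ p = e ^ q) : ∃ k : ℤ, f = e ^ k := by
  have e1 : e ^ (q - p) = f ^ 3 := by rw [zpow_sub, ← h, mul_inv_cancel_right, pow_three']
  by_cases hi : q - p = 0
  · rw [hi, zpow_zero] at e1
    exact ⟨0, by rw [zpow_zero, C.ac.tf _ 3 (by omega) e1.symm]⟩
  · exact C.of_comm hi (by rw [e1]; group)

theorem cyc {f : H} {p q r : ℤ} (h : f * e ^ p * (f * e ^ q) * (f * e ^ r) = 1) :
    ∃ k : ℤ, f = e ^ k := by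
  have two : ∀ {p r : ℤ}, f * e ^ p * (f * e ^ p) * (f * e ^ r) = 1 → ∃ k : ℤ, f = e ^ k := by
    intro p r h
    obtain ⟨k, hk⟩ := C.cube (f := f * e ^ p) (p := r - p) (q := 0) (by rw [zpow_zero, ← h]; group)
    exact ⟨k - p, by rw [zpow_sub, ← hk]; group⟩
  have rot : ∀ {p q r : ℤ}, f * e ^ p * (f * e ^ q) * (f * e ^ r) = 1 →
      f * e ^ q * (f * e ^ r) * (f * e ^ p) = 1 := fun h => by
    rw [mul_assoc, mul_eq_one_comm] at h
    exact h
  by_contra hf
  have n1 : p ≠ q := fun e => hf (two (e ▸ h))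
  have n2 : q ≠ r := fun e => hf (two (e ▸ rot h))
  have n3 : r ≠ p := fun e => hf (two (e ▸ rot (rot h)))
  obtain ⟨a, b, δ, D, h1⟩ := C.exists_cf hf
  have m : ∀ {p q r : ℤ}, f * e ^ p * (f * e ^ q) * (f * e ^ r) = 1 →
      b + 2 * -r ≤ a + δ ∧ a ≤ b + 2 * -r + δ := fun {p q r} h => by
    have := C.meet h1 h1.symm (-r) h1 (i := p) (j := -q) (by
      rw [← one_mul (e ^ (-r) * f⁻¹ * e ^ (-q)), ← h]; group)
    omega
  have z : ∀ {p q r : ℤ}, f * e ^ p * (f * e ^ q) * (f * e ^ r) = 1 → δ = 2 → b + 2 * -r = a →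
      p = r := fun {p q r} h e2 hr => by
    have k1 := (h1.two e2).2
    have e1 : f⁻¹ = e ^ p * f * e ^ q * f * e ^ r := by
      rw [← mul_one f⁻¹, ← h]; group
    have key : ∀ k, 0 ≤ k → k ≤ 2 → a + 2 * p ≤ b + k ∧ b + k ≤ a + 2 * p + δ := fun k k2 k3 => by
      have e3 := k1 k k2 k3
      have e4 := inv_smul_eq_iff.2 e3.symm
      rw [e1] at e4
      simp only [mul_smul] at e4
      rw [C.ez, show a + k + 2 * r = b + k by omega, e3, C.ez, ← eq_inv_smul_iff, ← zpow_neg,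
        C.ez] at e4
      have := h1.mem C.ax.1 e4
      omega
    have := key 0 (by omega) (by omega)
    have := key 2 (by omega) (by omega)
    omega
  have m1 := m h
  have m2 := m (rot h)
  have m3 := m (rot (rot h))
  have z1 := z h
  have z2 := z (rot h)
  have z3 := z (rot (rot h))
  have := h1.le
  omega

theorem p1 (hT : T.EqH) {f : H} {p q : ℤ} (h : f * e ^ p * f⁻¹ = e ^ q * f) :
    ∃ k : ℤ, f = e ^ k := by
  by_cases hq : q = 0
  · rw [hq, zpow_zero, one_mul, mul_inv_eq_iff_eq_mul] at h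
    exact ⟨p, (mul_left_cancel h).symm⟩
  by_contra hc
  have hc' : f * e ≠ e * f := fun e' => hc (C.of_comm (k := 1) one_ne_zero (by rwa [zpow_one]))
  have e2 : f * f = e ^ (-q) * f * e ^ p := by
    calc f * f = e ^ (-q) * (e ^ q * f) * f := by group
      _ = e ^ (-q) * f * e ^ p := by rw [← h]; group
  have hM := C.ax.zpow (-q)
  have k1 : ∀ j, f • f • l j = e ^ (-q) • f • l (j + 2 * p) := fun j => by
    rw [← mul_smul, e2, mul_smul, mul_smul, C.ez p]
  have hx := C.ax.conj f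
  have A := C.ac
  obtain ⟨u, u', δ, D, h | h⟩ := A.exists_ov C.ax one_pos hc'
  · rcases lt_or_gt_of_ne hq with hm | hm
    · exact p1_coreW A hT h.symm (f := f) (hM.add u) (hx.add u') one_pos (by omega)
        (fun j => ⟨u + j - u', by congr 2; ring⟩) fun j => ⟨j + 2 * p, by rw [k1]; congr 3; ring⟩
    · exact p1_coreW A hT h.symm.rev (f := f) ((hM.add u).sub δ) ((hx.add u').rev δ) one_pos
        (M := -(-q * (2 * 1))) (by omega) (fun j => ⟨δ + u' - u - δ + j, by congr 2; ring⟩)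
        fun j => ⟨j - 2 * p, by rw [k1]; congr 3; ring⟩
  · rcases lt_or_gt_of_ne hq with hm | hm
    · exact p1_coreW A hT h.symm (f := f) (hM.add u) (hx.rev u') one_pos (by omega)
        (fun j => ⟨u' - (u + j), by congr 2; ring⟩) fun j => ⟨j - 2 * p, by rw [k1]; congr 3; ring⟩
    · exact p1_coreW A hT h.symm.rev (f := f) ((hM.add u).sub δ) ((hx.rev u').rev δ) one_pos
        (M := -(-q * (2 * 1))) (by omega) (fun j => ⟨δ + u - j - u' + δ, by congr 2; ring⟩)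
        fun j => ⟨j + 2 * p, by rw [k1]; congr 3; ring⟩

/-- The new cone point has the property `EqK`. -/
theorem eqK (hP : T.EqH) {Z : Type} [MulAction H Z] {w : Z}
    (hw : ∀ g : H, g • w = w ↔ ∃ k : ℤ, g = e ^ k) : EqK (⊤ : Subgroup H) w := by
  have hw' : ∀ g g' : H, g • w = g' • w → ∃ k : ℤ, g = g' * e ^ k := fun g g' h => by
    obtain ⟨k, hk⟩ := (hw (g'⁻¹ * g)).1 (by rw [mul_smul, h, inv_smul_smul])
    exact ⟨k, by rw [← hk]; group⟩
  rintro f - f' - h1 - h3 ⟨g, -, ⟨a1, a2⟩ | ⟨a1, a2⟩⟩ ⟨g', -, ⟨b1, b2⟩ | ⟨b1, b2⟩⟩ <;>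
    rw [← mul_smul] at a2 b2
  · obtain ⟨k, rfl⟩ := (hw g).1 a1
    obtain ⟨m, rfl⟩ := hw' _ _ b1
    obtain ⟨n, hn⟩ := hw' _ _ (b2.trans a2.symm)
    obtain ⟨j, hj⟩ := C.p1 hP (f := f * e ^ m) (p := n) (q := -k) (by
      calc _ = e ^ (-k) * (e ^ k * f * e ^ n) * f⁻¹ := by group
        _ = _ := by rw [← hn]; group)
    exact h1 ((hw f).2 ⟨j - m, by rw [zpow_sub, ← hj]; group⟩)
  · obtain ⟨k, rfl⟩ := (hw g).1 a1
    obtain ⟨m, rfl⟩ := hw' _ _ (b1.trans a2.symm)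
    obtain ⟨n, hn⟩ := hw' _ _ b2
    obtain ⟨j, hj⟩ := C.p1 hP (f := f * e ^ m) (p := n) (q := k) (by
      calc _ = f * e ^ n * f⁻¹ := by group
        _ = _ := by rw [← hn]; group)
    exact h1 ((hw f).2 ⟨j - m, by rw [zpow_sub, ← hj]; group⟩)
  · obtain ⟨k, hk⟩ := (hw _).1 a2
    obtain ⟨m, rfl⟩ := hw' _ _ b1
    obtain ⟨n, hn⟩ := hw' _ _ (b2.trans a1.symm)
    refine h1 ((hw f).2 (C.cyc (p := m) (q := -n) (r := -k) ?_))
    calc _ = f * e ^ m * f * e ^ (-n) * f * e ^ (-k) := by group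
      _ = g * f * e ^ (-k) := by rw [hn]; group
      _ = 1 := by rw [hk]; group
  · obtain ⟨k, hk⟩ := (hw _).1 a2
    obtain ⟨m, rfl⟩ := hw' _ _ (b1.trans a1.symm)
    obtain ⟨n, hn⟩ := hw' _ _ b2
    obtain ⟨j, hj⟩ := C.p1 hP (f := f⁻¹ * e ^ k) (p := -m) (q := -n) (by
      calc _ = (g * e ^ m * f)⁻¹ * (g * f) := by group
        _ = _ := by rw [hn, hk]; group)
    exact h1 ((hw f).2 ⟨k - j, by rw [zpow_sub, ← hj]; group⟩)

end ConeW

end BT

end Pool.Agent.Lib.MP_429c3d_al.Ng
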