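import Pool.Agent.Lib.MP_a2eab4_al.TwS
import Pool.Agent.Lib.MP_a2eab4_al.TwT2

/-! The algebraic invariants of the stages of a tower. -/

set_option autoImplicit false

namespace Pool.Agent.Lib.MP_429c3d_al.Ng

open Hyp

theorem conj_fix_iff {G Z : Type} [Group G] [MulAction G Z] (σ γ : G) (x : Z) :
    (σ⁻¹ * γ * σ) • x = x ↔ γ • σ • x = σ • x := by
  rw [mul_smul, mul_smul, inv_smul_eq_iff]

theorem conj_fix_iff' {G Z : Type} [Group G] [MulAction G Z] (σ γ : G) (x : Z) :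
    (σ⁻¹ * γ * σ) • σ⁻¹ • x = σ⁻¹ • x ↔ γ • x = x := by
  rw [conj_fix_iff, smul_inv_smul]

/-- Commuting elliptic automorphisms of a tree have a common fixed vertex. -/
theorem BT.cf {H V : Type} [Group H] [MulAction H V] (T : BT H V) [Nonempty V] : CF H V := by
  intro U hU
  induction U, hU using Set.Finite.induction_on with
  | empty => exact fun _ _ => ⟨Classical.arbitrary V, fun _ h => absurd h (Set.notMem_empty _)⟩
  | @insert a U _ _ ih =>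
    intro h1 h2
    obtain ⟨x, hx⟩ := ih (fun b hb c hc => h1 b (Or.inr hb) c (Or.inr hc))
      fun b hb => h2 b (Or.inr hb)
    obtain ⟨x₀, h0⟩ := h2 a (Or.inl rfl)
    obtain ⟨m, m1, m2, m3, -⟩ := T.exists_mid h0 x
    refine ⟨m, ?_⟩
    rintro b (rfl | hb)
    · exact m1
    · refine T.fix_of_between (hx b hb) (y := a • x) ?_ (by omega)
      rw [← mul_smul, (h1 b (Or.inr hb) a (Or.inl rfl)).eq, mul_smul, hx b hb]

namespace Gate

variable {G G' Z Z' : Type} [Group G] [Group G'] [MulAction G Z] [MulAction G' Z']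
  {d : Z → Z → ℕ} {d' : Z' → Z' → ℕ} (S : Gate G G' d d')

/-- The glued points. -/
def Glu (z : Z) : Prop := ∃ g : G, z = g • S.t ∨ z = g • S.h

theorem conj_eW (h2 : ∀ a : G, a • S.t = S.t → a • S.h = S.h → a = 1)
    (hs : ∀ g : G, g • S.t ≠ S.h) {j k : ℤ} (hj : j ≠ 0) {δ : G'}
    (h : S.e ^ j * δ = δ * S.e ^ k) : ∃ i : ℤ, δ = S.e ^ i := by
  obtain ⟨m, i, g, hg⟩ := S.exists_cross hj h
  have hk : k ≠ 0 := by
    rintro rfl
    rw [zpow_zero, mul_one, mul_eq_right] at h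
    exact S.e_zpow_not_mem hj (h ▸ Subgroup.one_mem _)
  have e1 : S.e ^ j * S.φ g = S.φ g * S.e ^ k := by
    rw [← hg]
    calc S.e ^ j * (S.e ^ m * δ * S.e ^ i) = S.e ^ m * (S.e ^ j * δ) * S.e ^ i := by group
      _ = S.e ^ m * (δ * S.e ^ k) * S.e ^ i := by rw [h]
      _ = S.e ^ m * δ * S.e ^ i * S.e ^ k := by group
  have e2 : S.e ^ (-j) * S.φ g = S.φ g * S.e ^ (-k) := by
    rw [zpow_neg, zpow_neg, inv_mul_eq_iff_eq_mul, ← mul_assoc, e1, mul_inv_cancel_right]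
  have a1 := congrArg (fun γ => S.rt (γ • S.ι S.t)) e1
  have a2 := congrArg (fun γ => S.rt (γ • S.ι S.t)) e2
  simp only [mul_smul] at a1 a2
  rw [← S.ι_smul, S.rt_e_zpow hj, S.rt_smul, S.rt_e_zpow hk] at a1
  rw [← S.ι_smul, S.rt_e_zpow (neg_ne_zero.2 hj), S.rt_smul, S.rt_e_zpow (neg_ne_zero.2 hk)] at a2
  have hg1 : g = 1 := by
    by_cases c1 : 1 ≤ j <;> by_cases c2 : 1 ≤ k
    · rw [if_pos c1, if_pos c2] at a1
      rw [if_neg (by omega), if_neg (by omega)] at a2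
      exact h2 g a2.symm a1.symm
    · rw [if_pos c1, if_neg c2] at a1
      exact absurd a1.symm (hs g)
    · rw [if_pos (by omega), if_neg (by omega)] at a2
      exact absurd a2.symm (hs g)
    · rw [if_neg c1, if_neg c2] at a1
      rw [if_pos (by omega), if_pos (by omega)] at a2
      exact h2 g a1.symm a2.symm
  rw [hg1, map_one] at hg
  refine ⟨-m - i, ?_⟩
  calc δ = S.e ^ (-m) * (S.e ^ m * δ * S.e ^ i) * S.e ^ (-i) := by group
    _ = S.e ^ (-m - i) := by rw [hg]; group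

theorem h2_w (h2 : ∀ a : G, a • S.t = S.t → a • S.h = S.h → a = 1)
    (hs : ∀ g : G, g • S.t ≠ S.h) : H2 G' S.w := by
  intro a y ha h1 h3
  obtain ⟨j, rfl⟩ := S.stab_w a h1
  have hj : j ≠ 0 := fun e => ha (by rw [e, zpow_zero])
  rcases S.cover y with hy' | ⟨σ, rfl⟩
  · exact absurd (S.e_zpow_old hy' h3) hj
  · obtain ⟨k, hk⟩ := S.stab_w _ ((conj_fix_iff _ _ _).2 h3)
    obtain ⟨i, hi⟩ := S.conj_eW h2 hs hj (δ := σ) (k := k) (by rw [← hk]; group)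
    rw [hi, S.zpow_w]

theorem rt_cases (x : Z') : x = S.ι (S.rt x) ∨ S.Glu (S.rt x) := by
  have old : ∀ (γ : G') z, γ • S.ι z = S.ι (S.rt (γ • S.ι z)) ∨ S.Glu (S.rt (γ • S.ι z)) := by
    intro γ z
    by_cases hγ : γ ∈ S.φ.range
    · obtain ⟨g, rfl⟩ := hγ
      exact Or.inl (by rw [S.rt_φ_ι, S.ι_smul])
    · exact Or.inr (S.far_ap γ hγ z)
  rcases S.cover x with ⟨γ, z, rfl⟩ | ⟨γ, rfl⟩
  · exact old γ z
  · refine Or.inr ?_
    rcases S.cone γ with ⟨-, h2⟩ | ⟨g, j, -, h2, -⟩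
    · have := h2 0
      rw [zpow_zero, one_smul] at this
      rw [← this]
      by_cases hγ : γ ∈ S.φ.range
      · obtain ⟨g, rfl⟩ := hγ
        exact ⟨g, Or.inl (S.rt_φ_ι _ _)⟩
      · exact S.far_ap γ hγ _
    · exact ⟨g, Or.inl h2⟩

theorem range_of_not_glu {γ : G'} {z z' : Z} (hz : ¬ S.Glu z') (e : γ • S.ι z = S.ι z') :
    γ ∈ S.φ.range := by
  by_contra hγ
  have := S.far_ap γ hγ z
  rw [e, S.rt_ι] at this
  exact hz this

theorem fix_rt {g : G} {x : Z'} (h : S.φ g • x = x) : g • S.rt x = S.rt x := by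
  rw [← S.rt_smul, h]

theorem fix_ι {g : G} {z : Z} : S.φ g • S.ι z = S.ι z ↔ g • z = z := by
  rw [← S.ι_smul]
  exact ⟨fun h => S.ι_inj h, congrArg S.ι⟩

/-- The gate is closer. -/
theorem cnt_lt {x : Z'} (hx : S.Old x) {σ : G'} {a : Z} (h : S.rt (σ⁻¹ • x) ≠ a) :
    cnt S.Bt x (σ • S.ι (S.rt (σ⁻¹ • x))) < cnt S.Bt x (σ • S.ι a) := by
  have h1 := (S.bt_rt a (hx.smul σ⁻¹)).symm.smul σ
  rw [smul_inv_smul] at h1
  have h2 := S.pre.cnt_add h1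
  have h3 := S.pre.two_le_cnt (S.old_smul_ι σ _) (S.old_smul_ι σ a)
    fun e => h (S.ι_inj (smul_left_cancel σ e))
  omega

theorem fix_of_vertex {γ : G'} {v : S.TV} (h : γ • v = v) :
    (∃ (σ : G') (g : G), σ⁻¹ * γ * σ = S.φ g ∧ v = σ • S.C0) ∨
      ∃ σ : G', γ • σ • S.ι S.t = σ • S.ι S.t ∧ v = σ • S.t0 := by
  rcases S.tcover v with ⟨σ, rfl⟩ | ⟨⟨_, σ, rfl⟩, rfl⟩
  · obtain ⟨g, hg⟩ := (S.stab_C0 _).1 ((conj_fix_iff _ _ _).2 h)
    exact Or.inl ⟨σ, g, hg.symm, rfl⟩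
  · exact Or.inr ⟨σ, congrArg Subtype.val (S.av_inj h), rfl⟩

end Gate

variable {E : Type} [CommGroup E]

namespace Tw.Stp

variable {S T : Tw E} (X : Stp S T)

theorem k_glu (H : S.OK0) {z : S.Z} (h : X.Glu z) : S.k z := by
  obtain ⟨g, rfl | rfl⟩ := h
  exacts [H.k_smul g _ X.kt, H.k_smul g _ X.kh]

theorem two_th (H : S.OK) (a : S.G) (h1 : a • X.t = X.t) (h2 : a • X.h = X.h) : a = 1 :=
  H.two a _ _ X.kt X.kh X.d1 h1 h2

/-- The stabiliser of an old point is conjugate to an old stabiliser. -/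
theorem old_rep {x : T.Z} (hx : X.Old x) : ∃ (σ : T.G) (z : S.Z), x = σ • X.ι z ∧
    ∀ γ : T.G, γ • x = x → ∃ g : S.G, g • z = z ∧ σ⁻¹ * γ * σ = X.φ g := by
  obtain ⟨δ, z, rfl⟩ := hx
  by_cases hz : X.Glu z
  · obtain ⟨σ, hσ⟩ := (X.ι_mem_iff z).2 hz
    have e : δ • X.ι z = (δ * σ) • X.ι X.t := by rw [mul_smul, ← hσ]
    refine ⟨δ * σ, X.t, e, fun γ h => ?_⟩
    rw [e, ← conj_fix_iff] at h
    obtain ⟨g, hg⟩ := X.estab _ h
    exact ⟨g, X.fix_ι.1 (hg ▸ h), hg.symm⟩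
  · refine ⟨δ, z, rfl, fun γ h => ?_⟩
    rw [← conj_fix_iff] at h
    obtain ⟨g, hg⟩ := X.range_of_not_glu hz h
    exact ⟨g, X.fix_ι.1 (hg ▸ h), hg.symm⟩

theorem edges {x y : T.Z} (h : T.d x y = 1) :
    (∃ (γ : T.G) (z z' : S.Z), x = γ • X.ι z ∧ y = γ • X.ι z' ∧ S.d z z' = 1) ∨
      (∃ γ : T.G, x = γ • X.ι X.t ∧ y = γ • X.w) ∨
        ∃ γ : T.G, x = γ • X.w ∧ y = γ • X.ι X.t := by
  rcases X.edge x y h.le with e | ⟨γ, z, z', rfl, rfl, -⟩ | h1 | ⟨γ, h1, h2⟩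
  · rw [e, X.met'.self] at h
    omega
  · exact Or.inl ⟨γ, z, z', rfl, rfl, by rwa [X.inv', X.d_ι_eq] at h⟩
  · exact Or.inr (Or.inr h1)
  · exact Or.inr (Or.inl ⟨γ, h2, h1⟩)

include X in
theorem ok0 (H : S.OK0) (hE : TF E) : T.OK0 := by
  refine ⟨X.gr', X.inv', fun γ x hx => ?_, fun γ x y h => ?_, fun a x hx ha h1 => ?_⟩
  · rcases X.cover x with ⟨δ, z, rfl⟩ | ⟨δ, rfl⟩
    · rw [← mul_smul, X.k_ι]
      exact (X.k_ι _ _).1 hx
    · rw [← mul_smul]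
      exact X.k_w _
  · rcases X.edges h with ⟨δ, z, z', rfl, rfl, h1⟩ | ⟨δ, rfl, rfl⟩ | ⟨δ, rfl, rfl⟩
    · rw [← mul_smul, ← mul_smul, X.ht_ι _ _ _ h1, X.ht_ι _ _ _ h1]
    · rw [← mul_smul, ← mul_smul, X.ht_tw, X.ht_tw]
    · rw [← mul_smul, ← mul_smul, X.ht_wt, X.ht_wt]
  · rcases X.cover x with hx' | ⟨δ, rfl⟩
    · obtain ⟨σ, z, rfl, h2⟩ := X.old_rep hx'
      obtain ⟨g, h3, h4⟩ := h2 a ha
      have h5 := congrArg T.ρ h4
      rw [map_mul, map_mul, map_inv, h1, mul_one, inv_mul_cancel, X.ρ_φ] at h5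
      rw [H.inj g z ((X.k_ι _ _).1 hx) h3 h5.symm, map_one] at h4
      simpa [mul_assoc, inv_mul_eq_one] using h4
    · obtain ⟨j, hj⟩ := X.stab_w _ ((conj_fix_iff _ _ _).2 ha)
      have h5 := congrArg T.ρ hj
      rw [map_mul, map_mul, map_inv, h1, mul_one, inv_mul_cancel, map_zpow] at h5
      rw [hE.zpows X.ρ_e h5.symm, zpow_zero] at hj
      simpa [mul_assoc, inv_mul_eq_one] using hj

include X in
theorem ab (H : S.OK) (a b : T.G) (x : T.Z) (ha : a • x = x) (hb : b • x = x) : Commute a b := by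
  have key : ∀ σ : T.G, Commute (σ⁻¹ * a * σ) (σ⁻¹ * b * σ) → Commute a b := fun σ h => by
    simpa [mul_assoc] using h.conj σ
  rcases X.cover x with hx' | ⟨δ, rfl⟩
  · obtain ⟨σ, z, rfl, h2⟩ := X.old_rep hx'
    obtain ⟨g, h3, h4⟩ := h2 a ha
    obtain ⟨g', h5, h6⟩ := h2 b hb
    exact key σ (by rw [h4, h6]; exact (H.ab _ _ _ h3 h5).map _)
  · obtain ⟨j, hj⟩ := X.stab_w _ ((conj_fix_iff _ _ _).2 ha)
    obtain ⟨i, hi⟩ := X.stab_w _ ((conj_fix_iff _ _ _).2 hb)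
    exact key δ (by rw [hj, hi]; exact Commute.zpow_zpow_self _ _ _)

theorem range_of_two {γ : T.G} {y y' z z' : S.Z} (h : γ • X.ι y = X.ι z)
    (h' : γ • X.ι y' = X.ι z') (hne : z ≠ z') : γ ∈ X.φ.range := by
  by_contra hγ
  have := X.far γ hγ y y'
  rw [h, h', X.rt_ι, X.rt_ι] at this
  exact hne this

theorem one_of_tw {γ a : T.G} (h1 : a • γ • X.ι X.t = γ • X.ι X.t) (h2 : a • γ • X.w = γ • X.w) :
    a = 1 := by
  rw [← conj_fix_iff] at h1 h2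
  obtain ⟨j, hj⟩ := X.stab_w _ h2
  rw [hj] at h1
  rw [X.e_zpow_old (X.old_ι _) h1, zpow_zero] at hj
  simpa [mul_assoc, inv_mul_eq_one] using hj

/-- Trivial stabilisers of edges. -/
theorem two_gen (H : S.OK0) {R : S.Z → Prop} {R' : T.Z → Prop}
    (hR : ∀ (γ : T.G) z, R' (γ • X.ι z) → R z)
    (h : ∀ (a : S.G) x y, R x → R y → S.d x y = 1 → a • x = x → a • y = y → a = 1)
    (a : T.G) (x y : T.Z) (hx : R' x) (hy : R' y) (hd : T.d x y = 1) (h1 : a • x = x)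
    (h2 : a • y = y) : a = 1 := by
  rcases X.edges hd with ⟨δ, z, z', rfl, rfl, h3⟩ | ⟨δ, rfl, rfl⟩ | ⟨δ, rfl, rfl⟩
  · rw [← conj_fix_iff] at h1 h2
    obtain ⟨g, hg⟩ := X.range_of_two h1 h2 (H.ne h3).symm
    rw [← hg, X.fix_ι] at h1 h2
    rw [h g z z' (hR _ _ hx) (hR _ _ hy) h3 h1 h2, map_one] at hg
    simpa [mul_assoc, inv_mul_eq_one] using hg.symm
  · exact X.one_of_tw h1 h2
  · exact X.one_of_tw h2 h1

theorem range_of_vertex {γ : T.G} {v : X.TV} (h : γ • v = v) :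
    ∃ (σ : T.G) (g : S.G), σ⁻¹ * γ * σ = X.φ g := by
  rcases X.fix_of_vertex h with ⟨σ, g, h1, -⟩ | ⟨σ, h1, -⟩
  · exact ⟨σ, g, h1⟩
  · obtain ⟨g, hg⟩ := X.estab _ ((conj_fix_iff _ _ _).2 h1)
    exact ⟨σ, g, hg.symm⟩

include X in
theorem tf (H : TF S.G) : TF T.G := by
  intro γ n hn e
  obtain ⟨v, hv⟩ := X.bt.ell_of_zpow (g := γ) (k := n) (by omega) (x := X.C0)
    (by rw [zpow_natCast, e, one_smul])
  obtain ⟨σ, g, hg⟩ := X.range_of_vertex hv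
  have h1 : X.φ (g ^ n) = X.φ 1 := by
    rw [map_pow, ← hg, show σ⁻¹ * γ * σ = σ⁻¹ * γ * σ⁻¹⁻¹ by rw [inv_inv], conj_pow, e, map_one]
    group
  rw [H g n hn (X.φ_inj h1), map_one] at hg
  simpa [mul_assoc, inv_mul_eq_one] using hg

/-- Either the stabiliser does not grow, or old non trivial elements fix nothing else. -/
theorem stab_cases (hh : S.HH X.t X.h) (a : S.Z) :
    (∀ γ : T.G, γ • X.ι a = X.ι a → γ ∈ X.φ.range) ∨ H2 S.G a := by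
  have cj : ∀ (g : S.G) (γ : T.G), (X.φ g)⁻¹ * γ * X.φ g ∈ X.φ.range → γ ∈ X.φ.range :=
    fun g γ h => by
      rwa [Subgroup.mul_mem_cancel_right _ (MonoidHom.mem_range.2 ⟨g, rfl⟩),
        Subgroup.mul_mem_cancel_left _ (inv_mem (MonoidHom.mem_range.2 ⟨g, rfl⟩))] at h
  by_cases ha : X.Glu a
  swap
  · exact Or.inl fun γ h => X.range_of_not_glu ha h
  obtain ⟨g, rfl | rfl⟩ := ha
  · refine Or.inl fun γ h => cj g γ (X.estab _ ?_)
    rwa [conj_fix_iff, ← X.ι_smul]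
  rcases hh with h2 | ⟨-, h2⟩
  · refine Or.inr fun b z hb h3 h4 => ?_
    rw [← h2 (g⁻¹ * b * g) (g⁻¹ • z) (fun e => hb (by simpa [mul_assoc, inv_mul_eq_one] using e))
      ((conj_fix_iff _ _ _).2 h3) ((conj_fix_iff' _ _ _).2 h4), smul_inv_smul]
  · refine Or.inl fun γ h => cj g γ ?_
    rw [X.ι_smul, ← conj_fix_iff, ← X.e_t, ← conj_fix_iff] at h
    obtain ⟨b, hb⟩ := X.estab _ h
    have h3 := X.fix_ι.1 (hb ▸ h)
    obtain ⟨c, h4, h5⟩ := h2 b h3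
    exact ⟨c, by rw [← X.conj b c h3 h4 h5, hb]; group⟩

include X in
theorem rcl (H : S.OK) (hh : S.HH X.t X.h) : RCl T.G T.Z := by
  intro γ n x hn h
  by_cases h1 : γ = 1
  · rw [h1, one_smul]
  have h2 : γ ^ n ≠ 1 := fun e => h1 (X.tf H.tf γ n hn e)
  have cp : ∀ σ : T.G, σ⁻¹ * γ ^ n * σ = (σ⁻¹ * γ * σ) ^ n := fun σ => by
    rw [show σ⁻¹ * γ * σ = σ⁻¹ * γ * σ⁻¹⁻¹ by rw [inv_inv], conj_pow, inv_inv]
  rcases X.cover x with hx | ⟨δ, rfl⟩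
  swap
  · rw [← conj_fix_iff] at h ⊢
    refine X.h2_w (X.two_th H) X.ety _ _ (fun e => h2 ?_) h ?_
    · simpa [mul_assoc, inv_mul_eq_one] using e
    · rw [← mul_smul, cp, ← pow_succ, pow_succ', mul_smul, ← cp, h]
  have down : ∀ (σ : T.G) (g : S.G), σ⁻¹ * γ * σ = X.φ g →
      γ • σ • X.ι (X.rt (σ⁻¹ • x)) = σ • X.ι (X.rt (σ⁻¹ • x)) := fun σ g e => by
    rw [← conj_fix_iff, e, X.fix_ι]
    refine H.rcl g n _ hn (X.fix_rt ?_)
    rw [map_pow, ← e, ← cp, conj_fix_iff', h]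
  have key : ∀ m α, X.Old α → γ • α = α → cnt X.Bt x α = m → γ • x = x := by
    intro m
    induction m using Nat.strong_induction_on with
    | _ m ih =>
      intro α h3 h4 h5
      by_cases h6 : x = α
      · rwa [h6]
      obtain ⟨σ, a, rfl, h7⟩ := X.first_old h3 hx h6
      rw [← conj_fix_iff] at h4
      rcases X.stab_cases hh a with h8 | h8
      · obtain ⟨g, hg⟩ := h8 _ h4
        exact ih _ (h5 ▸ X.cnt_lt hx h7) _ (X.old_smul_ι _ _) (down σ g hg.symm) rfl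
      · have f1 : (σ⁻¹ * γ ^ n * σ) • X.ι a = X.ι a := by
          rw [cp]
          exact MulAction.mem_stabilizer_iff.1 (pow_mem (MulAction.mem_stabilizer_iff.2 h4) n)
        have f2 := (conj_fix_iff' σ _ _).2 h
        obtain ⟨b, hb⟩ := X.mem_range_of_fix (Gate.Old.smul hx σ⁻¹) f1 f2 h7
        rw [← hb] at f1 f2
        refine absurd (h8 b _ (fun e => h2 ?_) (X.fix_ι.1 f1) (X.fix_rt f2)) h7
        rw [e, map_one] at hb
        simpa [mul_assoc, inv_mul_eq_one] using hb.symm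
  obtain ⟨v, hv⟩ := X.fix_vertex hx h
  obtain ⟨v', hv'⟩ := X.bt.ell_of_zpow (g := γ) (k := n) (by omega) (x := v)
    (by rwa [zpow_natCast])
  rcases X.fix_of_vertex hv' with ⟨σ, g, h3, -⟩ | ⟨σ, h3, -⟩
  · exact key _ _ (X.old_smul_ι _ _) (down σ g h3) rfl
  · exact key _ _ (X.old_smul_ι _ _) h3 rfl

include X in
theorem cf (H : S.OK) : CF T.G T.Z := by
  intro U hU h1 h2
  by_cases h3 : ∃ a ∈ U, a ≠ 1 ∧ ∃ δ : T.G, a • δ • X.w = δ • X.w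
  · obtain ⟨a, ha, h4, δ, h5⟩ := h3
    refine ⟨δ • X.w, fun b hb => ?_⟩
    rw [← conj_fix_iff] at h5 ⊢
    refine X.h2_w (X.two_th H) X.ety _ _ (fun e => h4 ?_) h5 ?_
    · simpa [mul_assoc, inv_mul_eq_one] using e
    · have e : (δ⁻¹ * a * δ) * (δ⁻¹ * b * δ) = (δ⁻¹ * b * δ) * (δ⁻¹ * a * δ) := by
        calc _ = δ⁻¹ * (a * b) * δ := by group
          _ = _ := by rw [(h1 a ha b hb).eq]; group
      rw [← mul_smul, e, mul_smul, h5]
  have h4 : ∀ a ∈ U, ∃ x, X.Old x ∧ a • x = x := fun a ha => by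
    by_cases h5 : a = 1
    · exact ⟨_, X.old_ι X.t, by rw [h5, one_smul]⟩
    obtain ⟨x, hx⟩ := h2 a ha
    rcases X.cover x with h6 | ⟨δ, rfl⟩
    exacts [⟨x, h6, hx⟩, absurd ⟨a, ha, h5, δ, hx⟩ h3]
  have : Nonempty X.TV := ⟨X.C0⟩
  obtain ⟨v, hv⟩ := X.bt.cf U hU h1 fun a ha => (h4 a ha).elim fun x hx => X.fix_vertex hx.1 hx.2
  rcases X.tcover v with ⟨σ, rfl⟩ | ⟨a, rfl⟩
  swap
  · exact ⟨a, fun b hb => congrArg Subtype.val (X.av_inj (hv b hb))⟩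
  have inj : Function.Injective fun g : S.G => σ * X.φ g * σ⁻¹ := fun g g' e =>
    X.φ_inj (by simpa using e)
  obtain ⟨z, hz⟩ := H.cf ((fun g : S.G => σ * X.φ g * σ⁻¹) ⁻¹' U) (hU.preimage inj.injOn)
    (fun a ha b hb => comm_of_inj X.φ_inj (by simpa [mul_assoc] using (h1 _ ha _ hb).conj σ⁻¹))
    fun a ha => by
      obtain ⟨x, -, hx⟩ := h4 _ ha
      exact ⟨X.rt (σ⁻¹ • x), X.fix_rt (by simpa [mul_smul, smul_eq_iff_eq_inv_smul] using hx)⟩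
  refine ⟨σ • X.ι z, fun b hb => ?_⟩
  obtain ⟨g, hg⟩ := (X.stab_C0 _).1 ((conj_fix_iff _ _ _).2 (hv b hb))
  rw [← conj_fix_iff, ← hg, X.fix_ι]
  exact hz g (by simpa [hg, mul_assoc] using hb)

include X in
theorem ok (H : S.OK) (hE : TF E) (hh : S.HH X.t X.h) : T.OK :=
  ⟨X.ok0 H.toOK0 hE, X.ab H, X.two_gen H.toOK0 (fun γ z => (X.k_ι γ z).1) H.two, X.tf H.tf,
    X.rcl H hh, X.cf H⟩

theorem h2 (H : S.OK) : H2 T.G X.w := X.h2_w (X.two_th H) X.ety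

/-- Points outside the main class keep their stabilisers. -/
theorem stab_nk (H : S.OK0) {τ : S.Z} (hτ : ¬ S.k τ) {γ : T.G} (h : γ • X.ι τ = X.ι τ) :
    ∃ g : S.G, g • τ = τ ∧ γ = X.φ g := by
  obtain ⟨g, rfl⟩ := X.range_of_not_glu (fun e => hτ (X.k_glu H e)) h
  exact ⟨g, X.fix_ι.1 h, rfl⟩

theorem ft (H : S.OK0) {τ o p : S.Z} (hτ : ¬ S.k τ) (h : FT S.G τ o p) :
    FT T.G (X.ι τ) (X.ι o) (X.ι p) := by
  intro α hα
  have h1 : X.rt α ≠ τ := fun e => by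
    rcases X.rt_cases α with h2 | h2
    · exact hα (by rw [h2, e])
    · exact hτ (e ▸ X.k_glu H h2)
  refine (h _ h1).imp (fun h2 a h3 h4 => ?_) fun h2 a h3 h4 => ?_ <;>
    obtain ⟨g, h5, rfl⟩ := X.stab_nk H hτ h3 <;> exact X.fix_ι.2 (h2 g h5 (X.fix_rt h4))

end Tw.Stp

end Pool.Agent.Lib.MP_429c3d_al.Ng
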