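import Pool.Agent.Lib.MP_a2eab4_al.TwI

/-! The base of the tower: the torus with its two classes of points and its fixed point. -/

set_option autoImplicit false

namespace Pool.Agent.Lib.MP_429c3d_al.Ng

open Hyp

section multi

variable {Z : Type} (ty : Z → ℕ)

open Classical in
/-- The metric of a complete graph between classes. -/
noncomputable def mpd (x y : Z) : ℕ := if x = y then 0 else if ty x = ty y then 2 else 1

theorem mpd_le (x y : Z) : mpd ty x y ≤ 2 := by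
  unfold mpd
  split_ifs <;> omega

theorem mpd_one {x y : Z} : mpd ty x y = 1 ↔ ty x ≠ ty y := by
  unfold mpd
  split_ifs with h1 h2
  · simp [h1]
  · simp [h2]
  · simp [h2]

theorem mpd_zero {x y : Z} : mpd ty x y = 0 ↔ x = y := by
  unfold mpd
  split_ifs with h1 h2 <;> simp [h1]

theorem mpd_two {x y : Z} : mpd ty x y = 2 ↔ x ≠ y ∧ ty x = ty y := by
  unfold mpd
  split_ifs with h1 h2
  · simp [h1]
  · simp [h1, h2]
  · simp [h2]

theorem mpd_met : IsMet (mpd ty) := by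
  refine ⟨fun x => (mpd_zero ty).2 rfl, fun x y => ?_, fun x y z => ?_⟩
  · classical
    unfold mpd
    exact if_congr eq_comm rfl (if_congr eq_comm rfl rfl)
  · by_cases h1 : x = y
    · rw [h1]
      omega
    by_cases h2 : y = z
    · rw [h2]
      omega
    have := mpd_le ty x z
    have := mt (mpd_zero ty).1 h1
    have := mt (mpd_zero ty).1 h2
    omega

theorem mpd_gr (hm : ∀ x y, x ≠ y → ty x = ty y → ∃ m, ty m ≠ ty x) : IsGr (mpd ty) := by
  have M := mpd_met ty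
  refine ⟨M, fun x y => (mpd_zero ty).1, fun x y => ?_⟩
  have h0 := mpd_le ty x y
  obtain h | h | h : mpd ty x y = 0 ∨ mpd ty x y = 1 ∨ mpd ty x y = 2 := by omega
  · exact ⟨fun _ => x, rfl, h, fun i j _ _ _ => by rw [M.self]; omega⟩
  · refine ⟨fun i => if i = 0 then x else y, rfl, by simp [h, M.self], fun i j _ h1 h2 => ?_⟩
    obtain ⟨rfl, rfl⟩ | ⟨rfl, rfl⟩ | ⟨rfl, rfl⟩ : (i = 0 ∧ j = 0) ∨ (i = 0 ∧ j = 1) ∨
      (i = 1 ∧ j = 1) := by omega
    all_goals simp [h, M.self]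
  · obtain ⟨h1, h2⟩ := (mpd_two ty).1 h
    obtain ⟨m, hm⟩ := hm x y h1 h2
    have a1 : mpd ty x m = 1 := (mpd_one ty).2 hm.symm
    have a2 : mpd ty m y = 1 := (mpd_one ty).2 (h2 ▸ hm)
    refine ⟨fun i => if i = 0 then x else if i = 1 then m else y, rfl, by simp [h, M.self],
      fun i j _ h1 h2 => ?_⟩
    obtain rfl | rfl | rfl : i = 0 ∨ i = 1 ∨ i = 2 := by omega
    all_goals obtain rfl | rfl | rfl : j = 0 ∨ j = 1 ∨ j = 2 := by omega
    all_goals first
      | omega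
      | simp [h, M.self, a1, a2]

end multi

/-- The points of the base. -/
inductive BZ (E : Type) : Type
  | o (b : E) : BZ E
  | p (a : E) : BZ E
  | τ : BZ E

variable {E : Type} [CommGroup E]

namespace BZ

/-- The action of the torus. -/
def sm (g : E × E) : BZ E → BZ E
  | o b => o (g.2 * b)
  | p a => p (g.1 * a)
  | τ => τ

instance : MulAction (E × E) (BZ E) where
  smul := sm
  one_smul x := by
    change sm 1 x = x
    cases x <;> simp [sm]
  mul_smul g h x := by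
    change sm (g * h) x = sm g (sm h x)
    cases x <;> simp [sm, mul_assoc]

theorem smul_o (g : E × E) (b : E) : g • o b = o (g.2 * b) := rfl

theorem smul_p (g : E × E) (a : E) : g • p a = p (g.1 * a) := rfl

theorem smul_τ (g : E × E) : g • (τ : BZ E) = τ := rfl

theorem fix_o (g : E × E) (b : E) : g • o b = o b ↔ g.2 = 1 := by simp [smul_o]

theorem fix_p (g : E × E) (a : E) : g • p a = p a ↔ g.1 = 1 := by simp [smul_p]

/-- The classes. -/
def ty : BZ E → ℕ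
  | o _ => 0
  | p _ => 1
  | τ => 2

theorem ty_smul (g : E × E) (x : BZ E) : ty (g • x) = ty x := by
  cases x <;> rfl

/-- The base stage. -/
noncomputable def tw (E : Type) [CommGroup E] : Tw E where
  G := E × E
  Z := BZ E
  d := mpd ty
  ρ := (MonoidHom.id E).coprod (MonoidHom.id E)
  k x := x ≠ τ
  ht _ _ := 0

theorem ok (hE : TF E) : (tw E).OK := by
  refine ⟨⟨mpd_gr _ ?_, ?_, ?_, fun _ _ _ _ => rfl, ?_⟩, fun a b _ _ _ => mul_comm (G := E × E) a b,
    ?_, ?_, ?_, fun _ _ _ _ => ⟨τ, fun _ _ => rfl⟩⟩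
  · intro x y h1 h2
    cases x with
    | τ => cases y <;> simp_all [ty]
    | _ => exact ⟨τ, by simp [ty]⟩
  · intro (g : E × E) (x : BZ E) (y : BZ E)
    change mpd ty (g • x) (g • y) = mpd ty x y
    classical
    unfold mpd
    rw [ty_smul, ty_smul]
    exact if_congr (smul_left_cancel_iff g) rfl rfl
  · intro (g : E × E) (x : BZ E) (hx : x ≠ τ) (e : g • x = τ)
    exact hx (smul_left_cancel g (e.trans (smul_τ g).symm))
  · intro (g : E × E) (x : BZ E) (hx : x ≠ τ) (e : g • x = x) (h : g.1 * g.2 = 1)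
    cases x with
    | o b => exact Prod.ext (by rwa [(fix_o g b).1 e, mul_one] at h) ((fix_o g b).1 e)
    | p a => exact Prod.ext ((fix_p g a).1 e) (by rwa [(fix_p g a).1 e, one_mul] at h)
    | τ => exact absurd rfl hx
  · intro (g : E × E) (x : BZ E) (y : BZ E) (hx : x ≠ τ) (hy : y ≠ τ) (h : mpd ty x y = 1)
      (e1 : g • x = x) (e2 : g • y = y)
    rw [mpd_one] at h
    change g = 1
    cases x <;> cases y <;> simp_all [ty, fix_o, fix_p, Prod.ext_iff]
  · intro (g : E × E) n hn e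
    exact Prod.ext (hE _ n hn (congrArg Prod.fst e)) (hE _ n hn (congrArg Prod.snd e))
  · intro (g : E × E) n (x : BZ E) hn (e : g ^ n • x = x)
    cases x with
    | o b => exact (fix_o g b).2 (hE _ n hn ((fix_o _ b).1 e))
    | p a => exact (fix_p g a).2 (hE _ n hn ((fix_p _ a).1 e))
    | τ => rfl

theorem eqk (hE : TF E) : EqK (⊤ : Subgroup (E × E)) (p (1 : E)) := by
  rintro f - f' - h1 h2 h3 ⟨g, -, h4⟩ ⟨g', -, h5⟩
  simp only [smul_p, mul_one, ne_eq, p.injEq] at h1 h2 h3 h4 h5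
  rcases h4 with ⟨a1, a2⟩ | ⟨a1, a2⟩
  · exact h3 (by rwa [a1, one_mul] at a2)
  rcases h5 with ⟨b1, b2⟩ | ⟨b1, b2⟩
  · exact h1 (hE _ 3 (by omega) (by rw [← a2, a1, ← b2, b1, pow_succ, pow_two]))
  · exact h2 (by rwa [b1, mul_eq_right] at b2)

end BZ

open BZ in
/-- The tower of height zero. -/
noncomputable def Tow.base (hE : TF E) (η : E) : Tow E η 0 where
  toTw := tw E
  io := MonoidHom.inl E E
  ip := MonoidHom.inr E E
  o := BZ.o 1
  τ := BZ.τ
  e _ := (1, η)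
  P _ := BZ.p 1
  ok := BZ.ok hE
  f1 := by
    intro (a : E × E) (x : BZ E) (y : BZ E) (h : a ≠ 1) (hx : x ≠ BZ.τ) (hy : y ≠ BZ.τ) (e1 : a • x = x)
      (e2 : a • y = y) (b : E × E) (e3 : b • x = x)
    change b • y = y
    cases x <;> cases y <;> simp_all [fix_o, fix_p, Prod.ext_iff]
  ρ_io a := mul_one a
  ρ_ip a := one_mul a
  ρ_e _ _ := one_mul η
  stab_o g := (fix_o g 1).trans ⟨fun h => ⟨g.1, Prod.ext rfl h⟩, by rintro ⟨a, rfl⟩; rfl⟩
  stab_p g := (fix_p g 1).trans ⟨fun h => ⟨g.2, Prod.ext h rfl⟩, by rintro ⟨a, rfl⟩; rfl⟩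
  stab_τ g := ⟨fun _ => ⟨g.1, g.2, Prod.ext (mul_one _).symm (one_mul _).symm⟩, fun _ => rfl⟩
  stab_P h := absurd rfl h
  k_o := nofun
  k_P _ _ := nofun
  nk h := h rfl
  d_P _ _ := (mpd_one ty).2 nofun
  d_o := (mpd_one ty).2 nofun
  d_p := (mpd_one ty).2 nofun
  ht_P _ h := ⟨(Nat.le_zero.1 h).symm, (Nat.le_zero.1 h).symm⟩
  ht_o := ⟨rfl, rfl⟩
  ht_p := ⟨rfl, rfl⟩
  e_zero := rfl
  e_ip h := absurd rfl h
  e_o _ h := absurd h (Nat.not_lt_zero _)
  e_e _ h := absurd h (Nat.not_lt_zero _)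
  ety _ := nofun
  cover z := by
    cases z with
    | o b => exact ⟨(1, b), Or.inl (congrArg BZ.o (mul_one b).symm)⟩
    | p a => exact ⟨(a, 1), Or.inr (Or.inl (congrArg BZ.p (mul_one a).symm))⟩
    | τ => exact ⟨1, Or.inr (Or.inr rfl)⟩
  edges := by
    intro (x : BZ E) (y : BZ E) (h : mpd ty x y = 1)
    rw [mpd_one] at h
    have eo : ∀ a b : E, BZ.o b = (a, b) • BZ.o 1 := fun a b => congrArg BZ.o (mul_one b).symm
    have ep : ∀ a b : E, BZ.p a = (a, b) • BZ.p 1 := fun a b => congrArg BZ.p (mul_one a).symm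
    cases x <;> cases y <;> first
      | exact absurd rfl h
      | exact ⟨(_, _), _, _, Or.inl ⟨0, le_rfl, rfl, rfl⟩, Or.inl ⟨eo _ _, ep _ _⟩⟩
      | exact ⟨(_, _), _, _, Or.inl ⟨0, le_rfl, rfl, rfl⟩, Or.inr ⟨ep _ _, eo _ _⟩⟩
      | exact ⟨(1, _), _, _, Or.inr (Or.inl ⟨rfl, rfl⟩), Or.inl ⟨eo _ _, rfl⟩⟩
      | exact ⟨(1, _), _, _, Or.inr (Or.inl ⟨rfl, rfl⟩), Or.inr ⟨rfl, eo _ _⟩⟩
      | exact ⟨(_, 1), _, _, Or.inr (Or.inr ⟨rfl, rfl⟩), Or.inl ⟨ep _ _, rfl⟩⟩
      | exact ⟨(_, 1), _, _, Or.inr (Or.inr ⟨rfl, rfl⟩), Or.inr ⟨rfl, ep _ _⟩⟩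
  hh := Or.inr ⟨⟨BZ.τ, fun _ => rfl, mpd_le ty _ _⟩, fun (a : E × E) h =>
    ⟨(1, a.1), (fix_p _ _).2 rfl, by
      change a.1 * a.2 = 1 * a.1
      rw [(fix_o a 1).1 h, mul_one, one_mul]⟩⟩
  h2 h := absurd rfl h
  eqk := BZ.eqk hE
  ft := by
    intro (α : BZ E) h
    cases α with
    | o b => exact Or.inl fun a _ e => (fix_o a 1).2 ((fix_o a b).1 e)
    | p b => exact Or.inr fun a _ e => (fix_p a 1).2 ((fix_p a b).1 e)
    | τ => exact absurd rfl h
  gen := by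
    rw [eq_top_iff]
    rintro (g : E × E) -
    rw [show g = (g.1, 1) * (1, g.2) by simp]
    exact mul_mem (Subgroup.subset_closure (Or.inl (Or.inl ⟨g.1, rfl⟩)))
      (Subgroup.subset_closure (Or.inl (Or.inr ⟨g.2, rfl⟩)))
  lift H _ f f' x h1 h2 _ _ := by
    refine ⟨f.noncommCoprod f' h1, fun a => ?_, fun a => ?_, fun j hj => ?_⟩
    · exact (show f a * f' 1 = f a by simp)
    · exact (show f 1 * f' a = f' a by simp)
    · exact (show f 1 * f' η = x j by simp [Nat.le_zero.1 hj, h2])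
  lf j hj l _ h := by omega
  geo L := Tw.geo_base (BZ.ok hE) (fun x y => (mpd_le ty x y).trans (by omega)) (τ := BZ.τ)
    (fun _ => rfl) (fun _ _ => rfl) L
  gt _ _ _ y c _ h := absurd (mul_comm (G := E × E) y c) h
  esc h := absurd rfl h

end Pool.Agent.Lib.MP_429c3d_al.Ng
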