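import Pool.Agent.Lib.MP_a2eab4_al.TwB

/-! Towers of all heights exist. -/

set_option autoImplicit false

namespace Pool.Agent.Lib.MP_429c3d_al.Ng

open Hyp

variable {E : Type} [CommGroup E]

namespace Tw.Stp

variable {S T : Tw E} (X : Stp S T)

theorem k_ι1 (z : S.Z) : T.k (X.ι z) ↔ S.k z := by simpa using X.k_ι 1 z

theorem ht_ι1 {z z' : S.Z} (h : S.d z z' = 1) : T.ht (X.ι z) (X.ι z') = S.ht z z' := by
  simpa using X.ht_ι 1 z z' h

theorem d_tw : T.d (X.ι X.t) X.w = 1 := by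
  have h1 := X.d_w
  have h2 : T.d X.w (X.ι X.t) ≠ 0 := fun e => X.w_ne 1 X.t (by simpa using X.sep' _ _ e)
  rw [X.met'.symm]
  omega

theorem k_rt (hS : S.OK0) (hT : T.OK0) {x : T.Z} (hx : T.k x) (σ : T.G) :
    S.k (X.rt (σ • x)) :=
  (X.rt_cases (σ • x)).elim (fun h => (X.k_ι1 _).1 (h ▸ hT.k_smul σ x hx)) (X.k_glu hS)

include X in
theorem f1 (hS : S.OK) (hT : T.OK0) (hh : S.HH X.t X.h) (hF : S.F1) : T.F1 := by
  intro a x y ha hx hy h1 h2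
  have cone : ∀ (δ : T.G) z, a • δ • X.w = δ • X.w → a • z = z → z = δ • X.w := fun δ z h3 h4 =>
    inv_smul_eq_iff.1 (X.h2 hS (δ⁻¹ * a * δ) _
      (fun e => ha (by simpa [mul_assoc, inv_mul_eq_one] using e)) ((conj_fix_iff _ _ _).2 h3)
      ((conj_fix_iff' _ _ _).2 h4))
  rcases X.cover x with ox | ⟨δ, rfl⟩
  swap
  · rw [cone δ y h1 h2]
    exact fun _ h => h
  rcases X.cover y with oy | ⟨δ, rfl⟩
  swap
  · rw [cone δ x h2 h1]
    exact fun _ h => h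
  have key : ∀ m α, X.Old α → T.k α → a • α = α → cnt X.Bt y α = m →
      ∀ b : T.G, b • α = α → b • y = y := by
    intro m
    induction m using Nat.strong_induction_on with
    | _ m ih =>
      intro α h3 h4 h5 h6 b hb
      by_cases h7 : y = α
      · rwa [h7]
      obtain ⟨σ, u, rfl, h8⟩ := X.first_old h3 oy h7
      rw [← conj_fix_iff] at h5 hb
      have f2 := (conj_fix_iff' σ _ _).2 h2
      obtain ⟨g, hg⟩ := X.mem_range_of_fix (Gate.Old.smul oy σ⁻¹) h5 f2 h8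
      rw [← hg] at h5 f2
      have g1 : g ≠ 1 := fun e => ha (by
        rw [e, map_one] at hg
        simpa [mul_assoc, inv_mul_eq_one] using hg.symm)
      have g2 := X.fix_ι.1 h5
      have g3 := X.fix_rt f2
      obtain ⟨c, hc⟩ := ((X.stab_cases hh u).resolve_right fun h => h8 (h g _ g1 g2 g3)) _ hb
      have k1 := X.k_rt hS.toOK0 hT hy σ⁻¹
      refine ih _ (h6 ▸ X.cnt_lt oy h8) _ (X.old_smul_ι _ _) ((X.k_ι _ _).2 k1) ?_ rfl b ?_
      · rwa [← conj_fix_iff, ← hg, X.fix_ι]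
      · rw [← hc, X.fix_ι] at hb
        rw [← conj_fix_iff, ← hc, X.fix_ι]
        exact hF g _ _ g1 ((X.k_ι _ _).1 h4) k1 g2 g3 c hb
  exact key _ x ox hx h1 rfl

end Tw.Stp

namespace Tow

variable {η : E} {r : ℕ} (W : Tow E η r)

theorem io_o (a : E) : W.io a • W.o = W.o := (W.stab_o _).2 ⟨a, rfl⟩

theorem ip_p (a : E) : W.ip a • W.P 0 = W.P 0 := (W.stab_p _).2 ⟨a, rfl⟩

theorem eq_io {g : W.G} (h : g • W.o = W.o) : g = W.io (W.ρ g) := by
  obtain ⟨a, rfl⟩ := (W.stab_o g).1 h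
  rw [W.ρ_io]

theorem comm (a b : E) : Commute (W.io a) (W.ip b) :=
  W.ok.ab _ _ W.τ ((W.stab_τ _).2 ⟨a, 1, by simp⟩) ((W.stab_τ _).2 ⟨1, b, by simp⟩)

theorem e_P {j : ℕ} (hj : j ≤ r) : W.e j • W.P j = W.P j := by
  rcases hj.lt_or_eq with h | rfl
  · rw [← W.e_e j h, ← W.e_o j h, mul_smul, mul_smul, inv_smul_smul, W.io_o]
  · by_cases h : j = 0
    · subst h
      rw [W.e_zero, W.ip_p]
    · exact (W.stab_P h _).2 ⟨1, (zpow_one _).symm⟩

theorem cs_e {j i : ℕ} (h : j + i ≤ r) : cs (W.io η) (W.e (j + i)) i = W.e j := by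
  induction i generalizing j with
  | zero => rfl
  | succ i ih =>
    rw [cs, show j + (i + 1) = j + 1 + i by omega, ih (by omega), W.e_e j (by omega)]

theorem dn : Dn r (W.io η) (W.e r) :=
  ⟨r, le_rfl, by
    have := W.cs_e (j := 0) (i := r) (by omega)
    rw [zero_add] at this
    rw [this, W.e_zero]
    exact W.comm η η⟩

include W in
theorem step (hE : TF E) (hη : η ≠ 1) : Nonempty (Tow E η (r + 1)) := by
  obtain ⟨T, X, ht, hh, hρ, hn⟩ := Tw.exists_stp W.toTw W.ok.toOK0 W.k_o (W.k_P r le_rfl)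
    (W.d_P r le_rfl) W.ety (fun b _ => ⟨W.io (W.ρ b), W.io_o _, W.ρ_io _⟩) hη (r + 1)
  have hH : W.toTw.HH X.t X.h := by
    rw [ht, hh]
    exact W.hh
  have hT := X.ok W.ok hE hH
  have he : EqK (⊤ : Subgroup W.G) X.h := hh ▸ W.eqk
  obtain ⟨e, e1, e2⟩ : ∃ e : ℕ → T.G, (∀ j, j ≤ r → e j = X.φ (W.e j)) ∧ e (r + 1) = X.e :=
    ⟨fun j => if j ≤ r then X.φ (W.e j) else X.e, fun j h => if_pos h, if_neg (by omega)⟩
  obtain ⟨P, p1, p2⟩ : ∃ P : ℕ → T.Z, (∀ j, j ≤ r → P j = X.ι (W.P j)) ∧ P (r + 1) = X.w :=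
    ⟨fun j => if j ≤ r then X.ι (W.P j) else X.w, fun j h => if_pos h, if_neg (by omega)⟩
  have p0 := p1 0 r.zero_le
  have et : X.e • X.ι W.o = X.ι (W.P r) := by
    rw [← ht, ← hh]
    exact X.e_t
  have cj : ∀ a b : W.G, a • W.o = W.o → b • W.P r = W.P r → W.ρ a = W.ρ b →
      X.e * X.φ a * X.e⁻¹ = X.φ b := by
    rw [← ht, ← hh]
    exact X.conj
  have so : ∀ g : T.G, g • X.ι W.o = X.ι W.o ↔ ∃ a, g = X.φ (W.io a) := fun g => by
    refine ⟨fun h => ?_, ?_⟩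
    · obtain ⟨a, rfl⟩ := X.estab g (ht ▸ h)
      exact ⟨_, congrArg X.φ (W.eq_io (X.fix_ι.1 h))⟩
    · rintro ⟨a, rfl⟩
      exact X.fix_ι.2 (W.io_o a)
  have eo : ∀ j, j < r + 1 → e (j + 1) • X.ι W.o = P j := fun j hj => by
    rcases (Nat.le_of_lt_succ hj).lt_or_eq with h | rfl
    · rw [e1 _ h, p1 _ h.le, ← X.ι_smul, W.e_o j h]
    · rw [e2, p1 _ le_rfl, et]
  have ei : ∀ a, e 1 * X.φ (W.io a) * (e 1)⁻¹ = X.φ (W.ip a) := fun a => by
    by_cases h : r = 0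
    · subst h
      rw [e2]
      exact cj _ _ (W.io_o a) (W.ip_p a) (by rw [W.ρ_io, W.ρ_ip])
    · rw [e1 1 (by omega), ← W.e_ip h, map_mul, map_mul, map_inv]
  have ee : ∀ j, j < r + 1 → e (j + 1) * X.φ (W.io η) * (e (j + 1))⁻¹ = e j := fun j hj => by
    rcases (Nat.le_of_lt_succ hj).lt_or_eq with h | rfl
    · rw [e1 _ h, e1 _ h.le, ← W.e_e j h, map_mul, map_mul, map_inv]
    · rw [e2, e1 _ le_rfl]
      exact cj _ _ (W.io_o η) (W.e_P le_rfl) (by rw [W.ρ_io, W.ρ_e _ le_rfl])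
  have sl : ∀ {j}, j ≤ r + 1 → j ≤ r ∨ j = r + 1 := fun _ => by omega
  refine ⟨{
    toTw := T
    io := X.φ.comp W.io
    ip := X.φ.comp W.ip
    o := X.ι W.o
    τ := X.ι W.τ
    e := e
    P := P
    ok := hT
    f1 := X.f1 W.ok hT.toOK0 hH W.f1
    ρ_io := fun a => (X.ρ_φ _).trans (W.ρ_io a)
    ρ_ip := fun a => (X.ρ_φ _).trans (W.ρ_ip a)
    ρ_e := fun j hj => ?_
    stab_o := so
    stab_p := fun g => ?_
    stab_τ := fun g => ⟨fun h => ?_, ?_⟩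
    stab_P := fun _ g => ?_
    k_o := (X.k_ι1 _).2 W.k_o
    k_P := fun j hj => ?_
    nk := fun h => W.nk ((X.k_ι1 _).1 h)
    d_P := fun j hj => ?_
    d_o := (X.d_ι_eq _ _).trans W.d_o
    d_p := by rw [p0, X.d_ι_eq, W.d_p]
    ht_P := fun j hj => ?_
    ht_o := by
      rw [X.ht_ι1 W.d_o, X.ht_ι1 (by rw [X.met.symm, W.d_o])]
      exact W.ht_o
    ht_p := by
      rw [p0, X.ht_ι1 W.d_p, X.ht_ι1 (by rw [X.met.symm, W.d_p])]
      exact W.ht_p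
    e_zero := by rw [e1 0 r.zero_le, W.e_zero]; rfl
    e_ip := fun _ => ei
    e_o := eo
    e_e := ee
    ety := fun g h => X.w_ne g _ (p2.symm.trans h.symm)
    cover := fun z => ?_
    edges := fun x y h => ?_
    hh := Or.inl (p2 ▸ X.h2 W.ok)
    h2 := fun _ => p2 ▸ X.h2 W.ok
    eqk := p2 ▸ X.eqK_w hT he
    ft := p0 ▸ X.ft W.ok.toOK0 W.nk W.ft
    gen := ?_
    lift := fun H _ f f' x h1 h2 h3 h4 => ?_
    lf := fun j hj => ?_
    geo := fun L => X.geo_step W.ok hT hH ?_ ?_ (W.geo L)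
    gt := fun n K hK => X.gt W.ok hT he hK (W.gt n K hK) fun a b a1 b1 a2 b2 => ?_
    esc := fun _ n => ?_ }⟩
  · rcases sl hj with h | rfl
    · rw [e1 j h, X.ρ_φ, W.ρ_e j h]
    · rw [e2, hρ]
  · rw [← eo 0 (by omega), ← conj_fix_iff, so]
    refine exists_congr fun a => ?_
    change _ ↔ g = X.φ (W.ip a)
    rw [← ei, zero_add, mul_assoc, inv_mul_eq_iff_eq_mul, eq_mul_inv_iff_mul_eq]
  · obtain ⟨g, h1, rfl⟩ := X.stab_nk W.ok.toOK0 W.nk h
    obtain ⟨a, b, rfl⟩ := (W.stab_τ g).1 h1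
    exact ⟨a, b, map_mul _ _ _⟩
  · rintro ⟨a, b, rfl⟩
    exact (map_mul X.φ _ _).symm ▸ X.fix_ι.2 ((W.stab_τ _).2 ⟨a, b, rfl⟩)
  · rw [e2, p2]
    exact ⟨X.stab_w g, by rintro ⟨i, rfl⟩; exact X.zpow_w i⟩
  · rcases sl hj with h | rfl
    · rw [p1 j h]
      exact (X.k_ι1 _).2 (W.k_P j h)
    · simpa [p2] using X.k_w 1
  · rcases sl hj with h | rfl
    · rw [p1 j h, X.d_ι_eq, W.d_P j h]
    · rw [p2, ← ht, X.d_tw]
  · rcases sl hj with h | rfl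
    · rw [p1 j h, X.ht_ι1 (W.d_P j h), X.ht_ι1 (by rw [X.met.symm, W.d_P j h])]
      exact W.ht_P j h
    · rw [p2, ← ht, ← hn]
      exact ⟨by simpa using X.ht_tw 1, by simpa using X.ht_wt 1⟩
  · rcases X.cover z with ⟨γ, z, rfl⟩ | ⟨γ, rfl⟩
    · obtain ⟨g, rfl | rfl | rfl⟩ := W.cover z
      · exact ⟨γ * X.φ g, Or.inl (by rw [mul_smul, X.ι_smul])⟩
      · exact ⟨γ * X.φ g * X.e, Or.inl (by rw [mul_smul, mul_smul, et, X.ι_smul])⟩
      · exact ⟨γ * X.φ g, Or.inr (Or.inr (by rw [mul_smul, X.ι_smul]))⟩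
    · exact ⟨γ, Or.inr (Or.inl (by rw [p2]))⟩
  · rcases X.edges h with ⟨γ, z, z', rfl, rfl, h1⟩ | ⟨γ, rfl, rfl⟩ | ⟨γ, rfl, rfl⟩
    · obtain ⟨g, u, v, h2, h3⟩ := W.edges z z' h1
      refine ⟨γ * X.φ g, X.ι u, X.ι v, ?_, ?_⟩
      · rcases h2 with ⟨j, hj, rfl, rfl⟩ | ⟨rfl, rfl⟩ | ⟨rfl, rfl⟩
        · exact Or.inl ⟨j, by omega, rfl, (p1 j hj).symm⟩
        · exact Or.inr (Or.inl ⟨rfl, rfl⟩)
        · exact Or.inr (Or.inr ⟨p0.symm, rfl⟩)
      · simp only [mul_smul, ← X.ι_smul]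
        exact h3.imp (fun h => ⟨by rw [h.1], by rw [h.2]⟩) fun h => ⟨by rw [h.1], by rw [h.2]⟩
    · exact ⟨γ, _, _, Or.inl ⟨r + 1, le_rfl, rfl, rfl⟩, Or.inl ⟨by rw [ht], by rw [p2]⟩⟩
    · exact ⟨γ, _, _, Or.inl ⟨r + 1, le_rfl, rfl, rfl⟩, Or.inr ⟨by rw [p2], by rw [ht]⟩⟩
  · rw [eq_top_iff, ← X.gen, Subgroup.closure_le]
    have m1 : ∀ a, X.φ (W.io a) ∈ Subgroup.closure (Set.range (X.φ.comp W.io) ∪
        Set.range (X.φ.comp W.ip) ∪ {e (r + 1)}) := fun a =>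
      Subgroup.subset_closure (Or.inl (Or.inl ⟨a, rfl⟩))
    have m2 : e (r + 1) ∈ Subgroup.closure (Set.range (X.φ.comp W.io) ∪
        Set.range (X.φ.comp W.ip) ∪ {e (r + 1)}) := Subgroup.subset_closure (Or.inr rfl)
    rintro _ (⟨g, rfl⟩ | rfl)
    · have hg : g ∈ Subgroup.closure _ := W.gen ▸ Subgroup.mem_top g
      refine Subgroup.mem_comap.1 ((Subgroup.closure_le (Subgroup.comap X.φ _)).2 ?_ hg)
      rintro _ ((⟨a, rfl⟩ | ⟨a, rfl⟩) | rfl)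
      · exact m1 a
      · exact Subgroup.subset_closure (Or.inl (Or.inr ⟨a, rfl⟩))
      · refine Subgroup.mem_comap.2 ?_
        rw [← e1 r le_rfl, ← ee r (by omega)]
        exact mul_mem (mul_mem m2 (m1 η)) (inv_mem m2)
    · exact e2 ▸ m2
  · obtain ⟨F, F1, F2, F3⟩ := W.lift H f f' x h1 h2 (fun _ => h3 (by omega))
      fun j hj => h4 j (by omega)
    obtain ⟨F', F4, F5⟩ := X.lift H F (x (r + 1)) fun a b ha hb hab => by
      rw [ht] at ha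
      rw [hh] at hb
      rw [W.eq_io ha, F1, hab]
      by_cases h : r = 0
      · subst h
        obtain ⟨b, rfl⟩ := (W.stab_p b).1 hb
        rw [W.ρ_ip, F2]
        exact h3 (by omega) b
      · obtain ⟨i, rfl⟩ := (W.stab_P h b).1 hb
        rw [map_zpow, map_zpow, map_zpow, W.ρ_e r le_rfl, F3 r le_rfl, ← h4 r (by omega),
          conj_zpow]
    refine ⟨F', fun a => (F4 _).trans (F1 a), fun a => (F4 _).trans (F2 a), fun j hj => ?_⟩
    rcases sl hj with h | rfl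
    · rw [e1 j h, F4, F3 j h]
    · rw [e2, F5]
  · rcases sl hj with h | rfl
    · rw [e1 j h]
      exact X.lf_keep (W.lf j h)
    · rw [e2, ← ht]
      by_cases h : r = 0
      · subst h
        exact X.lf_one
      · exact X.lf_step (b := W.e r) (ht ▸ W.lf r le_rfl) X.ety
          (fun c hc => (W.stab_P h c).1 (hh ▸ hc)) X.estab
  · rw [hn, ht, hh, (W.ht_P r le_rfl).1, Tw.dh]
    omega
  · rw [hn, ht, hh, (W.ht_P r le_rfl).2, Tw.dh]
    omega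
  · rw [ht] at a1
    rw [hh] at b1
    rw [hρ] at a2 b2
    have b3 : b = W.e r := W.ok.toOK0.eq (W.k_P r le_rfl) (b1.trans (W.e_P le_rfl).symm)
      (b2.trans (W.ρ_e r le_rfl).symm)
    rw [W.eq_io a1, a2, b3]
    refine ⟨W.dn, ?_⟩
    by_cases h : r = 0
    · subst h
      rw [W.e_zero]
      exact Or.inl (W.comm η η).symm.inv_inv
    · exact Or.inr ((W.esc h n).le hK)
  · rw [e2]
    change Esc _ _ _ _ (X.φ (W.io η))⁻¹
    rw [← map_inv]
    refine X.esc_inv hT he n (fun e => hη ?_) (by rw [ht, ← map_inv, W.io_o])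
    rw [← W.ρ_io η, inv_eq_one.1 e, map_one]

end Tow

/-- Towers of all heights exist. -/
theorem exists_tow (hE : TF E) {η : E} (hη : η ≠ 1) (r : ℕ) : Nonempty (Tow E η r) := by
  induction r with
  | zero => exact ⟨Tow.base hE η⟩
  | succ r ih => exact ih.elim fun W => W.step hE hη

end Pool.Agent.Lib.MP_429c3d_al.Ng
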