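import Pool.Agent.Lib.MP_a2eab4_al.TwL
import Pool.Agent.Lib.MP_a2eab4_al.RhI
import Pool.Agent.Lib.MP_429c3d_al.HypPrj

set_option autoImplicit false

/-! The tower as a fibre. -/

namespace Pool.Agent.Lib.MP_a2eab4_al.Re

open Pool.Agent.Lib.MP_429c3d_al Hyp Ng

section infl

variable {J W B : Type} {dW dF : W → W → ℕ} {dB : B → B → ℕ} {bar : W → B} {k kF D : ℕ}

theorem dI_mono {p q : W × J} (h : dW p.1 q.1 ≤ dF p.1 q.1) : dI dW p q ≤ dI dF p q := by
  unfold dI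
  split_ifs <;> omega

theorem blow_infl (S : Blow dW dB dF bar k kF D) (j : J) :
    Blow (dI (J := J) dW) dB (dI dF) (fun p => bar p.1) k (kF + 2) (D + 1) := by
  have key : ∀ v, ∃ f : {p : W × J // bar p.1 = v} → {p // bar p = v} × J,
      Function.Bijective f ∧ (fun p q : {p : W × J // bar p.1 = v} => dI dF p.1 q.1) =
        fun p q => dI (fun p q : {p // bar p = v} => dF p q) (f p) (f q) := fun v => by
    have inj : Function.Injective fun p : {p : W × J // bar p.1 = v} =>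
        ((⟨p.1.1, p.2⟩, p.1.2) : {p // bar p = v} × J) := fun p q h => by
      simp only [Prod.mk.injEq, Subtype.mk.injEq] at h
      exact Subtype.ext (Prod.ext h.1 h.2)
    refine ⟨_, ⟨inj, fun p => ⟨⟨(p.1.1, p.2), p.1.2⟩, rfl⟩⟩, funext₂ fun p q => ?_⟩
    by_cases h : p = q
    · rw [h, dI_self, dI_self]
    · exact (dI_ne fun e => h (Subtype.ext e)).trans
        (dI_ne (d := fun p q : {p // bar p = v} => dF p q) fun e => h (inj e)).symm
  have m := S.grW.met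
  refine ⟨dI_gr S.grW, S.grB, S.hyp, fun v => ?_, fun v => ?_,
    fun v => (S.surj v).elim fun p h => ⟨(p, j), h⟩, fun p q h => dI_mono (S.leF _ _ h),
    fun p q h h' => (dI_le p q).trans (max_le (S.edgeF _ _ h ((le_dI m p q).trans h')) le_rfl),
    fun p q h => S.edgeB _ _ ((le_dI m p q).trans h), fun u v h => ?_,
    fun p p' q q' h h1 h2 av => (dI_le p p').trans (max_le ((S.detour _ _ _ _ h
      ((le_dI m p q).trans h1) ((le_dI m p' q').trans h2) av).trans (by omega)) (by omega))⟩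
  · obtain ⟨f, h1, h2⟩ := key v
    rw [h2]
    exact (dI_gr (S.grF v)).comap f h1
  · obtain ⟨f, -, h2⟩ := key v
    rw [h2]
    exact fun x y z w => dI_hyp (S.grF v).met (S.hypF v) _ _ _ _
  · obtain ⟨p, q, h1, h2, h3⟩ := S.lift u v h
    exact ⟨(p, j), (q, j), h1, h2, (dI_le _ _).trans (max_le h3 le_rfl)⟩

end infl

namespace Fq

variable {J Z : Type} [Group J] [MulAction J Z] {d ht : Z → Z → ℕ} {H : HG J d ht} {k : ℕ}

/-- The metric of the fibres of the free fibre over the graph. -/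
noncomputable def dT (H : HG J d ht) : Fq H → Fq H → ℕ := dI Cq.dF

theorem blow (H : HG J d ht) (h : Hyp4 d k) : Blow (dC H) d (dT H) bar k 2 (20 * k + 21) :=
  blow_infl (Cq.blow H h) 1

theorem bact : BAct J (dC H) d (dT H) bar := by
  refine ⟨iso, H.iso, fun g p q _ => ?_, fun _ _ => rfl⟩
  by_cases e : p = q
  · rw [e, dT, dI_self, dI_self]
  · rw [dT, dI_ne e, dI_ne fun e' => e (smul_left_cancel g e')]
    rfl

theorem dT_le {p q : Fq H} {n : ℕ} (h1 : hgt p ≤ hgt q + n) (h2 : hgt q ≤ hgt p + n) :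
    dT H p q ≤ n + 1 := by
  refine (dI_le p q).trans (max_le ?_ (by omega))
  unfold hgt at h1 h2
  simp only [Cq.dF]
  omega

theorem dC_le_dT {p q : Fq H} (h : bar p = bar q) : dC H p q ≤ dT H p q := dI_mono (Cq.dW_le h)

/-- Bounds for the heights over a vertex. -/
theorem hgt_le_of {p : Fq H} {n : ℕ} (h : ∀ z, d (bar p) z = 1 → ht (bar p) z ≤ n) :
    hgt p ≤ n := by
  obtain ⟨-, z, -, a1, -, a2⟩ := p.1.ok
  exact a2.trans (h z a1)

end Fq

end Pool.Agent.Lib.MP_a2eab4_al.Re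

namespace Pool.Agent.Lib.MP_429c3d_al.Ng.Tow

open Hyp Pool.Agent.Lib.MP_a2eab4_al.Re

variable {A : Type} [CommGroup A] {D : Subgroup A} {y : A} {r : ℕ}
  (W : Tow (A ⧸ D) (QuotientGroup.mk y) r)

/-- The cusped space of the tower. -/
abbrev C (hr : r ≠ 0) : Type := Fq (W.hg hr)

/-- The attaching point. -/
def b (hr : r ≠ 0) : W.C hr := (W.low hr).base (W.hg hr)

theorem hgt_le (hr : r ≠ 0) (w : W.C hr) : Fq.hgt w ≤ r :=
  Fq.hgt_le_of fun _ h => (W.ht_edge h).2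

theorem hgt_b (hr : r ≠ 0) : Fq.hgt (W.b hr) = r := (W.low hr).hgt_base _

/-- The fibre given by a tower. -/
noncomputable def fb (hA : TF A) (hr : r ≠ 0) {k c0 f0 P0 c L f P N Kk S R : ℕ}
    (mi : W.toTw.MI k c0 L f0 P0) (hc : c0 + 2 ≤ c) (hf : f0 ≤ f) (hP : P0 ≤ P) (hN : r ≤ N)
    (hK : 2 * S + 8 ≤ Kk) (hR : R ≤ r) : Fbr k 2 (20 * k + 21) c L f P N Kk S R where
  J := W.J
  Z := W.Z
  C := W.C hr
  dZ := W.d
  dC := dC (W.hg hr)
  dT := Fq.dT (W.hg hr)
  bar := Fq.bar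
  ap := W.k
  dp w := r - Fq.hgt w
  o := W.o
  q := W.P r
  τ := W.τ
  b := W.b hr
  blow := Fq.blow _ mi.hyp
  bact := Fq.bact
  fib g w _ := (Fq.dT_le (p := w) (q := g • w) (n := 0) le_rfl le_rfl).trans (by omega)
  dp_smul _ _ := rfl
  dp_le w w' := by
    have := Fq.hgt_le w' w
    rw [Fq.gr.met.symm] at this
    omega
  dp_b := by rw [W.hgt_b, Nat.sub_self]
  bar_b := rfl
  bot w h := by
    have := W.hgt_le hr w
    have := W.hgt_b hr
    exact ((Fq.dC_le_dT (q := W.b hr) h).trans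
      (Fq.dT_le (n := r - Fq.hgt w) (by omega) (by omega))).trans (by omega)
  dq w h := by
    have e := Low.hgt_of_p _ (W.ht_top hr) (q := w) (g := 1) (by rw [h, one_smul])
    have e' : W.d w.1.a W.o = 1 := by
      rw [show w.1.a = W.P r from h, W.ok.gr.met.symm, W.d_P r le_rfl]
    refine (Fq.dC_le w _).trans ((Nat.succ_le_succ (Cq.dW_crs e' ?_ ?_)).trans (by omega))
    · exact e.trans (by rw [show w.1.a = W.P r from h]; exact (W.ht_P r le_rfl).2.symm)
    · exact (W.hgt_b hr).trans e.symm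
  dτ w h := by
    have := Fq.hgt_le_of (p := w) (n := 0) fun z e => by
      rw [h] at e ⊢
      exact (W.ht_bot z e).le
    omega
  nτ w w' h h' := by
    have := Fq.hgt_le_of (p := w) (n := 0) fun z e => by
      rw [h] at e ⊢
      exact (W.ht_bot z e).le
    have := Fq.hgt_le_of (p := w') (n := 0) fun z e => by
      rw [h'] at e ⊢
      exact (W.ht_bot z e).le
    exact (Fq.dT_le (n := 0) (by omega) (by omega)).trans (by omega)
  ap_smul g _ h := W.k_smulJ g h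
  ap_o := W.k_o
  ap_q := W.k_P r le_rfl
  ap_τ := W.nk
  cover := W.coverJ
  comm := W.abJ
  root := W.rclJ
  tf := W.tf hA
  ai a b x x' h a1 b1 a2 b2 := (W.aiJ mi.ai a b x x' h a1 b1 a2 b2).trans hf
  pw a h j hj := W.pwJ mi.pw a h j (hP.trans hj)
  ta U α z s h1 h2 := by
    have e1 : ∀ a ∈ W.π '' U, a • α = α := by
      rintro _ ⟨a, ha, rfl⟩
      exact h1 a ha
    have e2 : ∀ a ∈ W.π '' U, W.d z (a • z) ≤ s := by
      rintro _ ⟨a, ha, rfl⟩
      exact h2 a ha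
    by_cases hk : W.k α
    · obtain ⟨β, b1, b2, b3⟩ := W.tam_k mi.ta hk e1 z e2
      exact ⟨β, fun _ => b1, fun a ha => b2 _ ⟨a, ha, rfl⟩, by omega⟩
    · obtain ⟨β, b2, b3⟩ := W.tam_fix mi.ta e1 z e2
      exact ⟨β, fun h => absurd h hk, fun a ha => b2 _ ⟨a, ha, rfl⟩, by omega⟩
  un a z h1 h2 h3 := (W.fix_unique 1 (a := W.π a) (by rw [one_smul]; exact h1) h2 h3).trans
    (one_smul _ _)
  h2 a z h1 h2 := (W.h2J hr h1 h2).imp_right fun ⟨_, h, e⟩ x => e ▸ W.D_smul h x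
  fj := W.fjJ
  ca := W.caJ
  gt a e h1 h2 := (W.gtJ (K := 2 * S + 7) le_rfl a e h1 h2).imp (fun h => h.le hN)
    fun h => h.le hK

/-- Fibres with absolute constants. -/
theorem exists_mi : ∃ k c : ℕ, ∀ L : ℕ, ∃ f P : ℕ, P ≠ 0 ∧ ∀ (E : Type) [CommGroup E] (η : E)
    (r : ℕ) (W : Tow E η r), W.toTw.MI k c L f P := by
  obtain ⟨k, c, F, h⟩ := exists_tow_mi
  exact ⟨k, c, fun L => ⟨_, _, by omega, fun E _ η r W => h E η r W L⟩⟩

end Pool.Agent.Lib.MP_429c3d_al.Ng.Tow
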