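import Pool.Agent.Lib.MP_a2eab4_al.TwA
import Pool.Agent.Lib.MP_429c3d_al.NgStpA

/-! Chains in a tower terminate or escape. -/

set_option autoImplicit false

namespace Pool.Agent.Lib.MP_429c3d_al.Ng

open Hyp

/-- Some iterate of index at most `N` commutes with `y`. -/
def Dn {G : Type} [Group G] (N : ℕ) (y c : G) : Prop := ∃ j, j ≤ N ∧ Commute y (cs y c j)

section Dn

variable {G H : Type} [Group G] [Group H] {N N' : ℕ} {y c : G}

theorem Dn.le (h : Dn N y c) (hN : N ≤ N') : Dn N' y c := h.imp fun _ h => ⟨h.1.trans hN, h.2⟩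

theorem Dn.map (h : Dn N y c) (f : G →* H) : Dn N (f y) (f c) :=
  h.imp fun j h => ⟨h.1, by rw [← map_cs]; exact h.2.map f⟩

theorem Dn.conj (g : G) (h : Dn N (g * y * g⁻¹) (g * c * g⁻¹)) : Dn N y c :=
  h.imp fun j h => ⟨h.1, by
    have := h.2
    rw [← conj_cs] at this
    simpa [mul_assoc] using this.conj g⁻¹⟩

theorem Dn.pre (h : Dn N y (c * y * c⁻¹)) : Dn (N + 1) y c := by
  obtain ⟨j, hj, h⟩ := h
  exact ⟨j + 1, by omega, by rwa [cs_succ']⟩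

theorem Dn.zero (h : Commute y c) : Dn N y c := ⟨0, Nat.zero_le _, h⟩

end Dn

namespace Gate

variable {G G' Z Z' : Type} [Group G] [Group G'] [MulAction G Z] [MulAction G' Z']
  {d : Z → Z → ℕ} {d' : Z' → Z' → ℕ} (X : Gate G G' d d')

theorem av_fixW {g : G'} {a : MulAction.orbit G' (X.ι X.t)} :
    g • X.av a = X.av a ↔ g • (a : Z') = a :=
  ⟨fun h => congrArg Subtype.val (X.av_inj h), fun h => congrArg X.av (Subtype.ext h)⟩

theorem copyW {x : X.TV} (hx : ¬ X.bt.ap x) : ∃ γ : G', x = γ • X.C0 :=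
  (X.tcover x).resolve_right hx

theorem fix_copyW {g γ : G'} (h : g • γ • X.C0 = γ • X.C0) : ∃ a, γ⁻¹ * g * γ⁻¹⁻¹ = X.φ a := by
  obtain ⟨a, ha⟩ := (X.stab_C0 (γ⁻¹ * g * γ⁻¹⁻¹)).1 (by simp [mul_smul, h])
  exact ⟨a, ha.symm⟩

theorem ax_eW : X.bt.Ax X.e X.l0 (2 * 1) := ⟨X.isL_l0, X.e_l0⟩

theorem esc_φW {k n : ℕ} {y c : G} (h : Esc d k n y c) : Esc d' k n (X.φ y) (X.φ c) := by
  obtain ⟨j, hj, h⟩ := h
  refine ⟨j, hj, fun x => ?_⟩
  rw [← map_cs]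
  exact (h (X.rt x)).imp (fun e => e.trans (X.rho_short (X.rho_rt x) _))
    fun e => e.trans (X.rho_short (X.rho_rt x) _)

theorem big_of_grW {n : ℕ} {y c : G'} (h : X.bt.Gr X.l0 (2 * (n + 1)) y c) : Big d' n y c := by
  classical
  intro x
  obtain ⟨v, hv⟩ := X.exists_at x
  obtain ⟨s, s1, s2, s3, s4⟩ := h.big v
  obtain ⟨s₀, -, rfl⟩ := Finset.subset_set_image_iff.1
    (show (s : Set X.TV) ⊆ X.av '' Set.univ from fun a ha =>
      (s2 a ha).elim fun b hb => ⟨b, trivial, hb.symm⟩)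
  have h1 := Finset.card_image_le (s := s₀) (f := X.av)
  have key : ∀ g : G', (∀ a ∈ s₀.image X.av, X.bt.d v a + X.bt.d a (g • v) = X.bt.d v (g • v)) →
      n ≤ d' x (g • x) := fun g hg => by
    have := X.size hv (hv.smul g) s₀ (fun a ha b hb hab u h1 h2 =>
      s3 _ (Finset.mem_image_of_mem _ ha) _ (Finset.mem_image_of_mem _ hb)
        (fun e => hab (X.av_inj e)) ((X.common_line_iff a b).1 ⟨u, h1, h2⟩))
      fun a ha => hg _ (Finset.mem_image_of_mem _ ha)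
    omega
  exact s4.imp (key y) (key c)

end Gate

variable {E : Type} [CommGroup E]

namespace Tw

/-- `c` fixes a point of the main class. -/
def Ap (S : Tw E) (c : S.G) : Prop := ∃ α, S.k α ∧ c • α = α

/-- Conjugate, or elements with the same label that fix points of the main class. -/
def PreC (S : Tw E) (y c : S.G) : Prop := S.ρ y = S.ρ c ∧ (IsConj y c ∨ (S.Ap y ∧ S.Ap c))

/-- Pairs terminate or escape. -/
def GT (S : Tw E) (N K n : ℕ) : Prop :=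
  ∀ y c, S.PreC y c → ¬ Commute y c → Dn N y c ∨ Esc S.d K n y c

theorem OK0.ap_conj {S : Tw E} (H : S.OK0) (g : S.G) {c : S.G} (h : S.Ap c) :
    S.Ap (g * c * g⁻¹) := by
  obtain ⟨α, h1, h2⟩ := h
  exact ⟨g • α, H.k_smul g α h1, by rw [mul_smul, mul_smul, inv_smul_smul, h2]⟩

theorem OK0.preC_conj {S : Tw E} (H : S.OK0) (g : S.G) {y c : S.G} (h : S.PreC y c) :
    S.PreC (g * y * g⁻¹) (g * c * g⁻¹) := by
  refine ⟨by simp [h.1], h.2.imp (fun h => ?_) fun h => ⟨H.ap_conj g h.1, H.ap_conj g h.2⟩⟩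
  exact (isConj_iff.2 ⟨g, rfl⟩).symm.trans (h.trans (isConj_iff.2 ⟨g, rfl⟩))

namespace Stp

variable {S T : Tw E} (X : Stp S T)

theorem k_av (a : MulAction.orbit T.G (X.ι X.t)) : T.k a := by
  obtain ⟨_, γ, rfl⟩ := a
  exact (X.k_ι γ _).2 X.kt

theorem aw (hT : T.OK) : X.bt.AW := by
  refine ⟨⟨X.C0⟩, hT.tf, ?_, ?_⟩
  · rintro a b _ ⟨x, rfl⟩ h
    exact hT.eq (X.k_av x) (congrArg Subtype.val (X.av_inj h)) (by simp [mul_comm])
  · rintro g _ ⟨x, rfl⟩ h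
    rw [← mul_smul, X.av_fixW, ← pow_two] at h
    exact X.av_fixW.2 (hT.rcl g 2 _ (by omega) h)

theorem no_root (g : S.G) : ¬ X.bt.Root X.C0 (X.av ⟨_, X.ι_t_mem g⟩) := by
  rintro ⟨-, -, r, r1, r2, -⟩
  have h1 : ((X.φ g)⁻¹ * r * X.φ g) • X.ι X.t = X.ι X.t := by
    have : r • X.ι (g • X.t) = X.ι (g • X.t) := X.av_fixW.1 r1
    rw [mul_smul, mul_smul, ← X.ι_smul, this, X.ι_smul, inv_smul_smul]
  have h2 := X.estab _ h1
  refine r2 ((X.stab_C0 r).2 ?_)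
  rwa [Subgroup.mul_mem_cancel_right _ (MonoidHom.mem_range.2 ⟨g, rfl⟩),
    Subgroup.mul_mem_cancel_left _ (inv_mem (MonoidHom.mem_range.2 ⟨g, rfl⟩))] at h2

theorem eqH (he : EqK (⊤ : Subgroup S.G) X.h) : X.bt.EqH := by
  intro C α hr
  obtain ⟨γ, rfl⟩ := X.copyW fun h => (X.bt.bip _ _ hr.1).1 h hr.2.1
  have h1 := hr.smul γ⁻¹
  rw [inv_smul_smul] at h1
  obtain ⟨g, e | e⟩ := (X.dT_C0 _).1 h1.1
  · exact absurd (e ▸ h1) (X.no_root g)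
  classical
  obtain ⟨f, hf⟩ : ∃ f : S.Z → X.TV, ∀ a : S.G, f (a • X.h) =
      (γ * X.φ g) • X.av ⟨_, X.ι_h_mem a⟩ :=
    ⟨fun z => if h : X.ι z ∈ MulAction.orbit T.G (X.ι X.t) then (γ * X.φ g) • X.av ⟨_, h⟩
      else X.C0, fun a => dif_pos (X.ι_h_mem a)⟩
  have key := he.map ((MulAut.conj (γ * X.φ g)).toMonoidHom.comp X.φ) f (fun a _ b _ h => by
      rw [hf, hf] at h
      exact X.ι_inj (congrArg Subtype.val (X.av_inj (smul_left_cancel _ h))))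
    (fun a _ b _ => by
      rw [← mul_smul, hf, hf]
      change _ = ((γ * X.φ g) * X.φ a * (γ * X.φ g)⁻¹) • _
      rw [mul_smul _ _⁻¹, inv_smul_smul, mul_smul _ (X.φ a)]
      congr 1
      exact congrArg X.av (Subtype.ext (by simp only [mul_smul, X.ι_smul]; rfl)))
  have e1 : f X.h = α := by
    rw [← one_smul S.G X.h, hf, mul_smul, ← smul_inv_smul γ α, e]
    congr 1
    exact congrArg X.av (Subtype.ext (by simp only [one_smul, X.ι_smul]; rfl))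
  have e2 : Subgroup.map ((MulAut.conj (γ * X.φ g)).toMonoidHom.comp X.φ) ⊤ =
      MulAction.stabilizer T.G (γ • X.C0) := by
    ext u
    constructor
    · rintro ⟨a, -, rfl⟩
      change ((γ * X.φ g) * X.φ a * (γ * X.φ g)⁻¹) • _ = _
      rw [eq_comm, ← mul_smul, X.smul_C0_eq_iff]
      exact ⟨g * a * g⁻¹, by simp [mul_assoc]⟩
    · intro hu
      obtain ⟨a, ha⟩ := X.fix_copyW hu
      refine ⟨g⁻¹ * a * g, trivial, ?_⟩
      change (γ * X.φ g) * X.φ (g⁻¹ * a * g) * (γ * X.φ g)⁻¹ = u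
      simp [← ha, mul_assoc]
  rwa [e1, e2] at key

theorem coneW (hT : T.OK) : X.bt.ConeW X.e X.l0 fun g => Multiplicative.toAdd (X.psi g) := by
  refine ⟨X.aw hT, X.ax_eW, fun a b => by simp, by simp [X.psi_e], fun g i hi h => ?_,
    fun g i hi h h' => ?_⟩
  · obtain ⟨γ, hγ⟩ := X.copyW hi
    rw [hγ] at h
    obtain ⟨a, ha⟩ := X.fix_copyW h
    simpa [X.psi_φ] using congrArg (fun u => Multiplicative.toAdd (X.psi u)) ha
  · rcases Int.even_or_odd' i with ⟨j, rfl | rfl⟩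
    swap
    · rw [X.l0_odd] at hi
      exact absurd hi (X.not_tap _)
    rw [show 2 * j + 2 = 2 * (j + 1) by ring] at h'
    rw [X.l0_even] at h h'
    have e1 : g • X.e ^ j • X.ι X.t = X.e ^ j • X.ι X.t := congrArg Subtype.val (X.av_inj h)
    have e2 : g • X.e ^ (j + 1) • X.ι X.t = X.e ^ (j + 1) • X.ι X.t :=
      congrArg Subtype.val (X.av_inj h')
    rw [zpow_add_one, mul_smul, X.e_t] at e2
    exact hT.two g _ _ ((X.k_ι _ _).2 X.kt) ((X.k_ι _ _).2 X.kh)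
      (by rw [X.inv', X.d_ι_eq, X.d1]) e1 e2

theorem eqK_w (hT : T.OK) (he : EqK (⊤ : Subgroup S.G) X.h) : EqK (⊤ : Subgroup T.G) X.w :=
  (X.coneW hT).eqK (X.eqH he) fun g => ⟨X.stab_w g, by rintro ⟨k, rfl⟩; exact X.zpow_w k⟩

theorem esc_tree (hT : T.OK) (he : EqK (⊤ : Subgroup S.G) X.h) (n : ℕ) {y g : T.G}
    (hg : g * y ≠ y * g) (hn : ∀ v : X.TV, y • v = v → (g * y * g⁻¹) • v ≠ v) :
    Esc T.d (2 * n + 7) n y g :=
  Esc.pre ⟨2 * n + 6, le_rfl, X.big_of_grW ((X.aw hT).grow (X.eqH he) X.ax_eW hg hn (2 * n))⟩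

theorem ap_down (hS : S.OK0) {c : S.G} (hc : c ≠ 1) (h : T.Ap (X.φ c)) : S.Ap c := by
  obtain ⟨α, h1, h2⟩ := h
  rcases X.rt_cases α with h3 | h3
  · refine ⟨_, ?_, X.fix_rt h2⟩
    rw [h3, ← one_smul T.G (X.ι _)] at h1
    exact (X.k_ι _ _).1 h1
  · exact ⟨_, X.k_glu hS h3, X.fix_rt h2⟩

theorem preC_down (hS : S.OK0) (hT : T.OK0) {y c : S.G} (hy : y ≠ 1) (hc : c ≠ 1)
    (h : T.PreC (X.φ y) (X.φ c)) : S.PreC y c := by
  refine ⟨by simpa [X.ρ_φ] using h.1, ?_⟩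
  have key : T.Ap (X.φ y) → T.Ap (X.φ c) → IsConj y c ∨ (S.Ap y ∧ S.Ap c) := fun h1 h2 =>
    Or.inr ⟨X.ap_down hS hy h1, X.ap_down hS hc h2⟩
  rcases h.2 with h | ⟨h1, h2⟩
  swap
  · exact key h1 h2
  obtain ⟨γ, hγ⟩ := isConj_iff.1 h
  by_cases h1 : γ • X.C0 = X.C0
  · obtain ⟨g, rfl⟩ := (X.stab_C0 γ).1 h1
    exact Or.inl (isConj_iff.2 ⟨g, X.φ_inj (by simpa using hγ)⟩)
  have f0 : ∀ a : S.G, X.φ a • X.C0 = X.C0 := fun a => (X.stab_C0 _).2 ⟨a, rfl⟩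
  obtain ⟨u, u1, u2⟩ := X.bt.exists_pt X.C0 (γ⁻¹ • X.C0) (k := 1)
    (X.bt.pos fun e => h1 (inv_smul_eq_iff.1 e.symm).symm)
  have u3 := X.bt.fix_of_between (u := u) (f0 y) (y := γ⁻¹ • X.C0) (by
    rw [eq_inv_smul_iff, ← mul_smul, ← mul_smul, hγ, f0]) (by omega)
  obtain ⟨a, rfl⟩ := (X.bt.bip u X.C0 (by rw [X.bt.symm, u1])).2
    (by rw [← one_smul T.G X.C0]; exact X.not_tap 1)
  have h2 : T.Ap (X.φ y) := ⟨a, X.k_av a, X.av_fixW.1 u3⟩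
  exact key h2 (hγ ▸ hT.ap_conj γ h2)

/-- An element that survives conjugation by the new letter. -/
theorem of_conj {a b : S.G} (e : X.e * X.φ a * X.e⁻¹ = X.φ b) :
    a • X.t = X.t ∧ b • X.h = X.h ∧ S.ρ a = S.ρ b := by
  have h1 : X.e • X.ι (a • X.t) = X.ι (b • X.h) := by
    rw [X.ι_smul, X.ι_smul, ← e, ← X.e_t, mul_smul, mul_smul, inv_smul_smul]
  have h2 : b • X.h = X.h := by
    by_contra hne
    have := X.range_of_two h1 X.e_t hne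
    exact X.e_zpow_not_mem one_ne_zero (by rwa [zpow_one])
  rw [h2, ← X.e_t, smul_left_cancel_iff] at h1
  exact ⟨X.ι_inj h1, h2, by simpa [X.ρ_φ] using congrArg T.ρ e⟩

/-- The pairs whose second element crosses a copy. -/
theorem cross (hT : T.OK) {y c : T.G} (h : T.PreC y c) {C : X.TV}
    (hC : ¬ X.bt.ap C) (h1 : y • C = C) (h2 : (c * y * c⁻¹) • C = C) (h3 : c • C ≠ C)
    (hn : ¬ Commute y (c * y * c⁻¹)) : ∃ (g : T.G) (a b : S.G), a • X.t = X.t ∧ b • X.h = X.h ∧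
      S.ρ a = T.ρ X.e ∧ S.ρ b = T.ρ X.e ∧
      ((g * y * g⁻¹ = X.φ a ∧ g * (c * y * c⁻¹) * g⁻¹ = X.φ b) ∨
        (g * y * g⁻¹ = X.φ b⁻¹ ∧ g * (c * y * c⁻¹) * g⁻¹ = X.φ a⁻¹)) := by
  obtain ⟨L, M, hM, hL, L2, L3⟩ := (X.aw hT).cross hC h1 h2 h3 hn
  have hy : y ≠ 1 := fun e => hn (e ▸ Commute.one_left _)
  obtain ⟨-, α, -, a2⟩ := h.2.resolve_left fun h => by
    obtain ⟨γ, rfl⟩ := isConj_iff.1 h
    exact hL.not_fix (by omega) (γ • C) (by simp [mul_smul, h1])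
  rcases X.cover α with a3 | ⟨γ, rfl⟩
  · obtain ⟨v, hv⟩ := X.fix_vertex a3 a2
    exact absurd hv (hL.not_fix (by omega) v)
  obtain ⟨j, hj⟩ := X.stab_w _ ((conj_fix_iff _ _ _).2 a2)
  obtain rfl : c = γ * X.e ^ j * γ⁻¹ := by rw [← hj]; group
  have hx := (X.ax_eW.zpow j).conj γ
  have hj := hx.natAbs_eq hL
  obtain ⟨u, hu⟩ := hx.same (by omega) hL
  have hM2 : M = 2 := by
    by_contra hM2
    have p1 : X.bt.ap (L (M - 1)) := hL.1.ap_pred (L2 ▸ hC)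
    have p2 : X.bt.ap (L (M - 3)) := ((hL.1.par (M - 1) (M - 3)).2 (by omega)).1 p1
    have f1 := L3 (M - 1) (by omega) (by omega)
    have f2 := L3 (M - 3) (by omega) (by omega)
    suffices h0 : γ⁻¹ * y * γ = 1 from hy (by simpa [mul_assoc, inv_mul_eq_one] using h0)
    rcases hu with hu | hu <;> rw [hu.2, ← conj_fix_iff] at f1 f2 <;>
      rw [hu.2, X.bt.ap_smul] at p1 p2
    · exact (X.coneW hT).two _ _ p2 f2 (by rwa [show u + (M - 3) + 2 = u + (M - 1) by ring])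
    · exact (X.coneW hT).two _ _ p1 f1 (by rwa [show u - (M - 1) + 2 = u - (M - 3) by ring])
  subst hM2
  obtain ⟨m, hm⟩ : ∃ m : ℤ, C = γ • X.l0 (2 * m + 1) := by
    obtain ⟨i, hi⟩ : ∃ i, C = γ • X.l0 i :=
      hu.elim (fun h => ⟨_, L2.symm.trans (h.2 2)⟩) fun h => ⟨_, L2.symm.trans (h.2 2)⟩
    rcases Int.even_or_odd' i with ⟨m, rfl | rfl⟩
    · rw [X.l0_even, ← mul_smul] at hi
      exact absurd (hi ▸ (X.tap_smul _ _).2 ⟨_, rfl⟩) hC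
    · exact ⟨m, hi⟩
  obtain ⟨δ, hδ⟩ : ∃ δ, δ = γ * X.e ^ m := ⟨_, rfl⟩
  have c1 : C = δ • X.C0 := by rw [hm, X.l0_odd, hδ, mul_smul]
  rw [c1] at h1 h2
  obtain ⟨p, hp⟩ := X.fix_copyW h1
  obtain ⟨q, hq⟩ := X.fix_copyW h2
  have e1 : X.e ^ j * X.φ p * (X.e ^ j)⁻¹ = X.φ q := by rw [← hp, ← hq, hδ]; group
  have b3 : S.ρ p = T.ρ X.e ^ j := by
    rw [← X.ρ_φ, ← hp]
    simpa using h.1
  obtain rfl | rfl : j = 1 ∨ j = -1 := by omega
  · obtain ⟨f1, f2, f3⟩ := X.of_conj (by simpa using e1)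
    rw [zpow_one] at b3
    exact ⟨δ⁻¹, p, q, f1, f2, b3, f3 ▸ b3, Or.inl ⟨hp, hq⟩⟩
  · obtain ⟨f1, f2, f3⟩ := X.of_conj (a := q) (b := p) (by rw [← e1]; group)
    rw [zpow_neg_one] at b3
    exact ⟨δ⁻¹, q⁻¹, p⁻¹, inv_smul_eq_iff.2 f1.symm, inv_smul_eq_iff.2 f2.symm,
      by rw [map_inv, f3, b3, inv_inv], by rw [map_inv, b3, inv_inv],
      Or.inr ⟨by rw [inv_inv p]; exact hp, by rw [inv_inv q]; exact hq⟩⟩

/-- Pairs terminate or escape. -/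
theorem gt (hS : S.OK) (hT : T.OK) (he : EqK (⊤ : Subgroup S.G) X.h) {N K n : ℕ}
    (hK : 2 * n + 7 ≤ K) (hG : S.GT N (K + 1) n)
    (hL : ∀ a b : S.G, a • X.t = X.t → b • X.h = X.h → S.ρ a = T.ρ X.e → S.ρ b = T.ρ X.e →
      Dn N a b ∧ (Commute b⁻¹ a⁻¹ ∨ Esc S.d K n b⁻¹ a⁻¹)) : T.GT (N + 1) (K + 1) n := by
  intro y c hp hc
  have hc' : c * y ≠ y * c := fun e => hc e.symm
  by_cases h1 : ∀ v : X.TV, y • v = v → (c * y * c⁻¹) • v ≠ v
  · exact Or.inr ((X.esc_tree hT he n hc' h1).le (by omega))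
  push Not at h1
  obtain ⟨C, h1, h2⟩ := h1
  by_cases h0 : Commute y (c * y * c⁻¹)
  · exact Or.inl (Dn.zero h0).pre
  have hC : ¬ X.bt.ap C := fun h => h0 ((X.aw hT).ab h h1 h2)
  by_cases h3 : c • C = C
  · obtain ⟨γ, rfl⟩ := X.copyW hC
    obtain ⟨p, hp'⟩ := X.fix_copyW h1
    obtain ⟨q, hq⟩ := X.fix_copyW h3
    have hpq : ¬ Commute p q := fun e => hc (by
      simpa [← hp', ← hq, mul_assoc] using (e.map X.φ).conj γ)
    have h4 := hT.preC_conj γ⁻¹ hp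
    rw [hp', hq] at h4
    refine (hG p q (X.preC_down hS.toOK0 hT.toOK0 (fun e => hpq (e ▸ Commute.one_left q))
      (fun e => hpq (e ▸ Commute.one_right p)) h4) hpq).imp (fun h => ?_) fun h => ?_
    · exact (Dn.conj γ⁻¹ (by rw [hp', hq]; exact h.map X.φ)).le (by omega)
    · exact Esc.conj hT.iso γ⁻¹ (by rw [hp', hq]; exact X.esc_φW h)
  obtain ⟨g, a, b, a1, b1, a2, b2, ⟨e1, e2⟩ | ⟨e1, e2⟩⟩ := X.cross hT hp hC h1 h2 h3 h0
  · exact Or.inl (Dn.conj g (by rw [e1, e2]; exact (hL a b a1 b1 a2 b2).1.map X.φ)).pre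
  · refine (hL a b a1 b1 a2 b2).2.imp (fun h => ?_) fun h => ?_
    · exact (Dn.conj g (by rw [e1, e2]; exact (Dn.zero h).map X.φ)).pre
    · exact (Esc.conj hT.iso g (by rw [e1, e2]; exact X.esc_φW h)).pre

theorem esc_inv (hT : T.OK) (he : EqK (⊤ : Subgroup S.G) X.h) (n : ℕ) {a : S.G} (ha : a ≠ 1)
    (h : a • X.t = X.t) : Esc T.d (2 * n + 7) n X.e⁻¹ (X.φ a) := by
  refine X.esc_tree hT he n (fun e => ?_) fun v hv =>
    absurd hv (X.ax_eW.inv.not_fix (by omega) v)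
  obtain ⟨k, hk⟩ := (X.coneW hT).of_comm (g := X.φ a) (k := -1) (by omega) (by simpa using e)
  have h1 := X.fix_ι.2 h
  rw [hk] at h1
  rw [X.e_zpow_old (X.old_ι _) h1, zpow_zero, ← map_one X.φ] at hk
  exact ha (X.φ_inj hk)

end Stp

end Tw

end Pool.Agent.Lib.MP_429c3d_al.Ng
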