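import Pool.Agent.Lib.MP_a2eab4_al.TwG
import Pool.Agent.Lib.MP_a2eab4_al.TwGt
import Pool.Agent.Lib.MP_429c3d_al.NgLF

/-! The tower of height `r`: interface. -/

set_option autoImplicit false

namespace Pool.Agent.Lib.MP_429c3d_al.Ng

open Hyp

/-- Points of the main class with a common non trivial stabiliser have the same stabiliser. -/
def Tw.F1 {E : Type} [CommGroup E] (S : Tw E) : Prop :=
  ∀ (a : S.G) x y, a ≠ 1 → S.k x → S.k y → a • x = x → a • y = y →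
    ∀ b : S.G, b • x = x → b • y = y

/-- The tower of height `r` over `E` with the marked element `η`. The group is generated by
`io E` and `e r` (for `r ≠ 0`), `e j = e (j+1) * io η * (e (j+1))⁻¹`, and `io E` commutes with
`ip E = e 1 * io E * (e 1)⁻¹`, which contains `e 0`. -/
structure Tow (E : Type) [CommGroup E] (η : E) (r : ℕ) extends Tw E where
  io : E →* G
  ip : E →* G
  o : Z
  τ : Z
  e : ℕ → G
  P : ℕ → Z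
  ok : toTw.OK
  f1 : toTw.F1
  ρ_io : ∀ a, ρ (io a) = a
  ρ_ip : ∀ a, ρ (ip a) = a
  ρ_e : ∀ j, j ≤ r → ρ (e j) = η
  stab_o : ∀ g : G, g • o = o ↔ ∃ a, g = io a
  stab_p : ∀ g : G, g • P 0 = P 0 ↔ ∃ a, g = ip a
  stab_τ : ∀ g : G, g • τ = τ ↔ ∃ a b, g = io a * ip b
  stab_P : r ≠ 0 → ∀ g : G, g • P r = P r ↔ ∃ i : ℤ, g = e r ^ i
  k_o : k o
  k_P : ∀ j, j ≤ r → k (P j)
  nk : ¬ k τ
  d_P : ∀ j, j ≤ r → d o (P j) = 1
  d_o : d o τ = 1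
  d_p : d (P 0) τ = 1
  ht_P : ∀ j, j ≤ r → ht o (P j) = j ∧ ht (P j) o = j
  ht_o : ht o τ = 0 ∧ ht τ o = 0
  ht_p : ht (P 0) τ = 0 ∧ ht τ (P 0) = 0
  e_zero : e 0 = ip η
  e_ip : r ≠ 0 → ∀ a, e 1 * io a * (e 1)⁻¹ = ip a
  e_o : ∀ j, j < r → e (j + 1) • o = P j
  e_e : ∀ j, j < r → e (j + 1) * io η * (e (j + 1))⁻¹ = e j
  ety : ∀ g : G, g • o ≠ P r
  cover : ∀ z, ∃ g : G, z = g • o ∨ z = g • P r ∨ z = g • τ
  edges : ∀ x y, d x y = 1 → ∃ (g : G) (u v : Z),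
    ((∃ j, j ≤ r ∧ u = o ∧ v = P j) ∨ (u = o ∧ v = τ) ∨ (u = P 0 ∧ v = τ)) ∧
      ((x = g • u ∧ y = g • v) ∨ (x = g • v ∧ y = g • u))
  hh : toTw.HH o (P r)
  h2 : r ≠ 0 → H2 G (P r)
  eqk : EqK (⊤ : Subgroup G) (P r)
  ft : FT G τ o (P 0)
  gen : Subgroup.closure (Set.range io ∪ Set.range ip ∪ {e r}) = ⊤
  lift : ∀ (H : Type) [Group H] (f f' : E →* H) (x : ℕ → H), (∀ a b, Commute (f a) (f' b)) →
    x 0 = f' η → (r ≠ 0 → ∀ a, x 1 * f a * (x 1)⁻¹ = f' a) →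
    (∀ j, j < r → x (j + 1) * f η * (x (j + 1))⁻¹ = x j) →
    ∃ F : G →* H, (∀ a, F (io a) = f a) ∧ (∀ a, F (ip a) = f' a) ∧ ∀ j, j ≤ r → F (e j) = x j
  lf : ∀ j, j ≤ r → LF o (e j) j
  geo : ∀ L, toTw.Geo 11 4 L (10 * L + 32) (2 * L + 6)
  gt : ∀ n K, 2 * n + 7 ≤ K → toTw.GT r (K + 1) n
  esc : r ≠ 0 → ∀ n, Esc d (2 * n + 7) n (e r)⁻¹ (io η)⁻¹

end Pool.Agent.Lib.MP_429c3d_al.Ng
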