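import Pool.Agent.Lib.MP_a2eab4_al.TwI

/-! The fibre product of a tower over `A ⧸ D` with `A`. -/

set_option autoImplicit false

namespace Pool.Agent.Lib.MP_429c3d_al.Ng

open Hyp

namespace Tow

section general

variable {E : Type} [CommGroup E] {η : E} {r : ℕ} (W : Tow E η r)

theorem k_p : W.k (W.P 0) := W.k_P 0 (Nat.zero_le _)

/-- The points outside the main class are the translates of `τ`. -/
theorem nk_cases {z : W.Z} (h : ¬ W.k z) : ∃ g : W.G, z = g • W.τ := by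
  obtain ⟨g, e | e | e⟩ := W.cover z
  · exact absurd (e ▸ W.ok.k_smul g _ W.k_o) h
  · exact absurd (e ▸ W.ok.k_smul g _ (W.k_P r le_rfl)) h
  · exact ⟨g, e⟩

theorem nk_smul (g : W.G) : ¬ W.k (g • W.τ) := fun h => W.nk ((W.ok.toOK0.k_iff g _).1 h)

/-- The common stabiliser of `g τ` and of another point fixes `g o` or fixes `g p`. -/
theorem ft_smul (g : W.G) {α : W.Z} (h : α ≠ g • W.τ) :
    (∀ a : W.G, a • g • W.τ = g • W.τ → a • α = α → a • g • W.o = g • W.o) ∨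
      ∀ a : W.G, a • g • W.τ = g • W.τ → a • α = α → a • g • W.P 0 = g • W.P 0 := by
  have key : ∀ (a : W.G) (x : W.Z), a • g • x = g • x ↔ (g⁻¹ * a * g) • x = x := fun a x => by
    rw [mul_smul, mul_smul, inv_smul_eq_iff]
  have e : ∀ a : W.G, a • α = α → (g⁻¹ * a * g) • g⁻¹ • α = g⁻¹ • α := fun a ha => by
    rw [mul_smul, mul_smul, smul_inv_smul, ha]
  exact (W.ft (g⁻¹ • α) fun hh => h (inv_smul_eq_iff.1 hh)).imp
    (fun H a h1 h2 => (key a _).2 (H _ ((key a _).1 h1) (e a h2)))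
    fun H a h1 h2 => (key a _).2 (H _ ((key a _).1 h1) (e a h2))

theorem ft_one (g : W.G) {α : W.Z} (h : α ≠ g • W.τ) {a : W.G} (h1 : a • g • W.τ = g • W.τ)
    (h2 : a • α = α) : a • g • W.o = g • W.o ∨ a • g • W.P 0 = g • W.P 0 :=
  (W.ft_smul g h).imp (fun H => H a h1 h2) fun H => H a h1 h2

theorem ft_ap (g : W.G) {a : W.G} (h1 : a • g • W.τ = g • W.τ) (h : W.toTw.Ap a) :
    a • g • W.o = g • W.o ∨ a • g • W.P 0 = g • W.P 0 := by
  obtain ⟨α, k1, k2⟩ := h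
  exact W.ft_one g (fun e => W.nk_smul g (e ▸ k1)) h1 k2

/-- An element that fixes `g τ` and no point of the main class fixes nothing else. -/
theorem fix_unique (g : W.G) {a : W.G} (h1 : a • g • W.τ = g • W.τ) (h : ¬ W.toTw.Ap a)
    {α : W.Z} (h2 : a • α = α) : α = g • W.τ := by
  by_contra hne
  rcases W.ft_one g hne h1 h2 with e | e
  · exact h ⟨_, W.ok.k_smul g _ W.k_o, e⟩
  · exact h ⟨_, W.ok.k_smul g _ W.k_p, e⟩

theorem d_τ_o (g : W.G) : W.d (g • W.τ) (g • W.o) = 1 := by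
  rw [W.ok.iso, W.ok.gr.met.symm, W.d_o]

theorem d_τ_p (g : W.G) : W.d (g • W.τ) (g • W.P 0) = 1 := by
  rw [W.ok.iso, W.ok.gr.met.symm, W.d_p]

theorem tam_fix {c : ℕ} (h : TAM W.G W.d c) {U : Set W.G} {α : W.Z} (hα : ∀ a ∈ U, a • α = α)
    (z : W.Z) {L : ℕ} (hL : ∀ a ∈ U, W.d z (a • z) ≤ L) :
    ∃ β, (∀ a ∈ U, a • β = β) ∧ 2 * W.d z β ≤ L + c := by
  rcases h U α hα z with e | ⟨β, e1, a, e2, e3⟩
  · exact ⟨z, e, by rw [W.ok.gr.met.self]; omega⟩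
  · have := hL a e2
    exact ⟨β, e1, by omega⟩

/-- The same for a common fixed point of the main class. -/
theorem tam_k {c : ℕ} (h : TAM W.G W.d c) {U : Set W.G} {α : W.Z} (kα : W.k α)
    (hα : ∀ a ∈ U, a • α = α) (z : W.Z) {L : ℕ} (hL : ∀ a ∈ U, W.d z (a • z) ≤ L) :
    ∃ β, W.k β ∧ (∀ a ∈ U, a • β = β) ∧ 2 * W.d z β ≤ L + (c + 2) := by
  obtain ⟨β, e1, e2⟩ := W.tam_fix h hα z hL
  by_cases kβ : W.k β
  · exact ⟨β, kβ, e1, by omega⟩
  obtain ⟨g, rfl⟩ := W.nk_cases kβ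
  have t1 := W.ok.gr.met.tri z (g • W.τ) (g • W.o)
  have t2 := W.ok.gr.met.tri z (g • W.τ) (g • W.P 0)
  rw [W.d_τ_o] at t1
  rw [W.d_τ_p] at t2
  rcases W.ft_smul g (α := α) (fun e => kβ (e ▸ kα)) with H | H
  · exact ⟨_, W.ok.k_smul g _ W.k_o, fun a ha => H a (e1 a ha) (hα a ha), by omega⟩
  · exact ⟨_, W.ok.k_smul g _ W.k_p, fun a ha => H a (e1 a ha) (hα a ha), by omega⟩

theorem ca0 {a b : W.G} (h : Commute a b) (ha : W.toTw.Ap a) (hb : W.toTw.Ap b)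
    (hab : W.toTw.Ap (a * b)) : ∃ β, W.k β ∧ a • β = β ∧ b • β = β := by
  obtain ⟨x, hx⟩ := W.ok.cf {a, b} (Set.toFinite _) (by
    rintro u (rfl | rfl) v (rfl | rfl)
    exacts [Commute.refl _, h, h.symm, Commute.refl _]) (by
    rintro u (rfl | rfl)
    exacts [ha.imp fun _ => And.right, hb.imp fun _ => And.right])
  have xa := hx a (Or.inl rfl)
  have xb := hx b (Or.inr rfl)
  by_cases kx : W.k x
  · exact ⟨x, kx, xa, xb⟩
  obtain ⟨g, rfl⟩ := W.nk_cases kx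
  have l1 : ∀ u : W.Z, a • u = u → (a * b) • u = u → b • u = u := fun u e1 e2 => by
    rwa [h.eq, mul_smul, e1] at e2
  have l2 : ∀ u : W.Z, b • u = u → (a * b) • u = u → a • u = u := fun u e1 e2 => by
    rwa [mul_smul, e1] at e2
  have ko := W.ok.k_smul g _ W.k_o
  have kp := W.ok.k_smul g _ W.k_p
  rcases W.ft_ap g xa ha with e1 | e1 <;> rcases W.ft_ap g xb hb with e2 | e2
  · exact ⟨_, ko, e1, e2⟩
  · rcases W.ft_ap g (a := a * b) (by rw [mul_smul, xb, xa]) hab with e3 | e3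
    exacts [⟨_, ko, e1, l1 _ e1 e3⟩, ⟨_, kp, l2 _ e2 e3, e2⟩]
  · rcases W.ft_ap g (a := a * b) (by rw [mul_smul, xb, xa]) hab with e3 | e3
    exacts [⟨_, ko, l2 _ e2 e3, e2⟩, ⟨_, kp, e1, l1 _ e1 e3⟩]
  · exact ⟨_, kp, e1, e2⟩

end general

variable {A : Type} [CommGroup A] {D : Subgroup A} {y : A} {r : ℕ}
  (W : Tow (A ⧸ D) (QuotientGroup.mk y) r)

/-- The fibre product as a subgroup. -/
def JS : Subgroup (W.G × A) :=
  (W.ρ.comp (MonoidHom.fst _ _)).eqLocus ((QuotientGroup.mk' D).comp (MonoidHom.snd _ _))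

/-- The fibre product. -/
def J : Type := W.JS

instance : Group W.J := inferInstanceAs (Group W.JS)

/-- The projection to the group of the tower. -/
def π : W.J →* W.G := (MonoidHom.fst _ _).comp W.JS.subtype

/-- The retraction to `A`. -/
def χ : W.J →* A := (MonoidHom.snd _ _).comp W.JS.subtype

/-- The element with given components. -/
def pair (g : W.G) (a : A) (h : W.ρ g = QuotientGroup.mk a) : W.J := ⟨(g, a), h⟩

theorem π_pair (g : W.G) (a : A) (h : W.ρ g = QuotientGroup.mk a) : W.π (W.pair g a h) = g := rfl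

theorem χ_pair (g : W.G) (a : A) (h : W.ρ g = QuotientGroup.mk a) : W.χ (W.pair g a h) = a := rfl

theorem ρ_π (g : W.J) : W.ρ (W.π g) = QuotientGroup.mk (W.χ g) := g.2

variable {W} in
theorem J_ext {g g' : W.J} (h1 : W.π g = W.π g') (h2 : W.χ g = W.χ g') : g = g' :=
  Subtype.ext (Prod.ext h1 h2)

instance : MulAction W.J W.Z := MulAction.compHom _ W.π

theorem smul_def (g : W.J) (z : W.Z) : g • z = W.π g • z := rfl

/-- The copy of `A` that fixes `o`. -/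
def jo : A →* W.J where
  toFun a := W.pair (W.io (QuotientGroup.mk a)) a (W.ρ_io _)
  map_one' := J_ext (by simp [π_pair]) (by simp [χ_pair])
  map_mul' a b := J_ext (by simp [π_pair]) (by simp [χ_pair])

/-- The copy of `A` that fixes `P 0`. -/
def jp : A →* W.J where
  toFun a := W.pair (W.ip (QuotientGroup.mk a)) a (W.ρ_ip _)
  map_one' := J_ext (by simp [π_pair]) (by simp [χ_pair])
  map_mul' a b := J_ext (by simp [π_pair]) (by simp [χ_pair])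

/-- The chain. -/
def c (j : ℕ) : W.J := W.pair (W.e (min j r)) y (W.ρ_e _ (min_le_right _ _))

theorem π_jo (a : A) : W.π (W.jo a) = W.io (QuotientGroup.mk a) := rfl

theorem π_jp (a : A) : W.π (W.jp a) = W.ip (QuotientGroup.mk a) := rfl

theorem χ_jo (a : A) : W.χ (W.jo a) = a := rfl

theorem χ_jp (a : A) : W.χ (W.jp a) = a := rfl

theorem χ_c (j : ℕ) : W.χ (W.c j) = y := rfl

theorem π_c {j : ℕ} (h : j ≤ r) : W.π (W.c j) = W.e j := congrArg W.e (min_eq_left h)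

theorem jo_inj : Function.Injective W.jo := fun _ _ h => congrArg W.χ h

theorem jp_inj : Function.Injective W.jp := fun _ _ h => congrArg W.χ h

theorem commute_iff {a b : W.J} : Commute a b ↔ Commute (W.π a) (W.π b) :=
  ⟨fun h => h.map _, fun h => J_ext (by rw [map_mul, map_mul, h.eq])
    (by rw [map_mul, map_mul, mul_comm])⟩

theorem π_surj : Function.Surjective W.π := fun g => by
  obtain ⟨a, ha⟩ := QuotientGroup.mk_surjective (W.ρ g)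
  exact ⟨W.pair g a ha.symm, rfl⟩

theorem π_jo_eq_one {a : A} : W.π (W.jo a) = 1 ↔ a ∈ D := by
  rw [π_jo, ← QuotientGroup.eq_one_iff]
  exact ⟨fun h => by rw [← W.ρ_io (QuotientGroup.mk a), h, map_one], fun h => by rw [h, map_one]⟩

theorem π_jp_eq_one {a : A} : W.π (W.jp a) = 1 ↔ a ∈ D := by
  rw [π_jp, ← QuotientGroup.eq_one_iff]
  exact ⟨fun h => by rw [← W.ρ_ip (QuotientGroup.mk a), h, map_one], fun h => by rw [h, map_one]⟩

theorem π_eq_one {g : W.J} : W.π g = 1 ↔ ∃ δ ∈ D, g = W.jo δ := by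
  constructor
  · intro h
    have h1 : W.χ g ∈ D := by rw [← QuotientGroup.eq_one_iff, ← ρ_π, h, map_one]
    exact ⟨_, h1, J_ext (h.trans (W.π_jo_eq_one.2 h1).symm) rfl⟩
  · rintro ⟨δ, h, rfl⟩
    exact W.π_jo_eq_one.2 h

theorem π_eq_iff {g g' : W.J} : W.π g = W.π g' ↔ ∃ δ ∈ D, g = g' * W.jo δ := by
  rw [eq_comm, ← inv_mul_eq_one, ← map_inv, ← map_mul, π_eq_one]
  exact exists_congr fun δ => and_congr_right fun _ => inv_mul_eq_iff_eq_mul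

theorem jp_eq_jo {δ : A} (h : δ ∈ D) : W.jp δ = W.jo δ :=
  J_ext ((W.π_jp_eq_one.2 h).trans (W.π_jo_eq_one.2 h).symm) rfl

theorem central {δ : A} (h : δ ∈ D) (g : W.J) : Commute (W.jo δ) g := by
  rw [commute_iff, W.π_jo_eq_one.2 h]
  exact Commute.one_left _

theorem D_smul {δ : A} (h : δ ∈ D) (z : W.Z) : W.jo δ • z = z := by
  rw [smul_def, W.π_jo_eq_one.2 h, one_smul]

theorem tf (hA : TF A) : TF W.J := fun g n hn h =>
  J_ext (by rw [W.ok.tf (W.π g) n hn (by rw [← map_pow, h, map_one]), map_one])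
    (by rw [hA (W.χ g) n hn (by rw [← map_pow, h, map_one]), map_one])

theorem stabJ_o (g : W.J) : g • W.o = W.o ↔ ∃ a, g = W.jo a := by
  rw [smul_def, W.stab_o]
  constructor
  · rintro ⟨a, ha⟩
    exact ⟨W.χ g, J_ext (by rw [π_jo, ← ρ_π, ha, W.ρ_io]) rfl⟩
  · rintro ⟨a, rfl⟩
    exact ⟨_, rfl⟩

theorem stabJ_p (g : W.J) : g • W.P 0 = W.P 0 ↔ ∃ a, g = W.jp a := by
  rw [smul_def, W.stab_p]
  constructor
  · rintro ⟨a, ha⟩
    exact ⟨W.χ g, J_ext (by rw [π_jp, ← ρ_π, ha, W.ρ_ip]) rfl⟩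
  · rintro ⟨a, rfl⟩
    exact ⟨_, rfl⟩

theorem stabJ_τ (g : W.J) : g • W.τ = W.τ ↔ ∃ a b, g = W.jo a * W.jp b := by
  rw [smul_def, W.stab_τ]
  constructor
  · rintro ⟨a, b, h⟩
    obtain ⟨a, rfl⟩ := QuotientGroup.mk_surjective a
    refine ⟨a, a⁻¹ * W.χ g, J_ext ?_ (by rw [map_mul, χ_jo, χ_jp, mul_inv_cancel_left])⟩
    rw [map_mul, π_jo, π_jp, QuotientGroup.mk_mul, ← ρ_π, h, map_mul W.ρ, W.ρ_io, W.ρ_ip,
      QuotientGroup.mk_inv, inv_mul_cancel_left]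
  · rintro ⟨a, b, rfl⟩
    exact ⟨_, _, rfl⟩

theorem stabJ_P (hr : r ≠ 0) (g : W.J) :
    g • W.P r = W.P r ↔ ∃ (i : ℤ) (δ : A), δ ∈ D ∧ g = W.c r ^ i * W.jo δ := by
  rw [smul_def, W.stab_P hr]
  refine exists_congr fun i => ?_
  rw [← W.π_c le_rfl, ← map_zpow, π_eq_iff]

theorem jo_smul (a : A) : W.jo a • W.o = W.o := (W.stabJ_o _).2 ⟨a, rfl⟩

theorem jp_smul (a : A) : W.jp a • W.P 0 = W.P 0 := (W.stabJ_p _).2 ⟨a, rfl⟩

theorem jo_τ (a : A) : W.jo a • W.τ = W.τ := (W.stabJ_τ _).2 ⟨a, 1, by rw [map_one, mul_one]⟩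

theorem jp_τ (a : A) : W.jp a • W.τ = W.τ := (W.stabJ_τ _).2 ⟨1, a, by rw [map_one, one_mul]⟩

theorem abJ (a b : W.J) (x : W.Z) (ha : a • x = x) (hb : b • x = x) : Commute a b :=
  W.commute_iff.2 (W.ok.ab _ _ x ha hb)

theorem jo_jp (a b : A) : Commute (W.jo a) (W.jp b) := W.abJ _ _ _ (W.jo_τ a) (W.jp_τ b)

theorem c_zero : W.c 0 = W.jp y := J_ext (by rw [W.π_c (Nat.zero_le _), W.e_zero, π_jp]) rfl

theorem c_jp (hr : r ≠ 0) (a : A) : W.c 1 * W.jo a * (W.c 1)⁻¹ = W.jp a :=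
  J_ext (by rw [map_mul, map_mul, map_inv, W.π_c (by omega), π_jo, W.e_ip hr, π_jp])
    (by rw [map_mul, map_mul, map_inv, mul_inv_cancel_comm, χ_jo, χ_jp])

theorem c_o {j : ℕ} (h : j < r) : W.c (j + 1) • W.o = W.P j := by
  rw [smul_def, W.π_c h, W.e_o j h]

theorem c_c {j : ℕ} (h : j < r) : W.c (j + 1) * W.jo y * (W.c (j + 1))⁻¹ = W.c j :=
  J_ext (by rw [map_mul, map_mul, map_inv, W.π_c h, π_jo, W.e_e j h, W.π_c h.le])
    (by rw [map_mul, map_mul, map_inv, mul_inv_cancel_comm, χ_jo, χ_c])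

theorem cs_c {n : ℕ} (h : n ≤ r) : cs (W.jo y) (W.c r) n = W.c (r - n) := by
  induction n with
  | zero => rfl
  | succ n ih =>
    rw [cs, ih (by omega), show r - n = r - (n + 1) + 1 by omega, W.c_c (by omega)]

theorem c_eq_cs {j : ℕ} (h : j ≤ r) : W.c j = cs (W.jo y) (W.c r) (r - j) := by
  rw [W.cs_c (Nat.sub_le _ _), Nat.sub_sub_self h]

/-- The chain terminates. -/
theorem cs_commute (a : A) : Commute (W.jo a) (cs (W.jo y) (W.c r) r) := by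
  rw [W.cs_c le_rfl, Nat.sub_self, c_zero]
  exact W.jo_jp a y

theorem c_P {j : ℕ} (hr : r ≠ 0) (h : j ≤ r) : W.c j • W.P j = W.P j := by
  rcases h.eq_or_lt with rfl | h
  · exact (W.stabJ_P hr _).2 ⟨1, 1, one_mem _, by simp⟩
  · rw [← W.c_c h, ← W.c_o h, mul_smul, mul_smul, inv_smul_smul, jo_smul]

theorem stabJ_P_lt {j : ℕ} (h : j < r) (g : W.J) :
    g • W.P j = W.P j ↔ ∃ a, g = W.c (j + 1) * W.jo a * (W.c (j + 1))⁻¹ := by
  rw [← W.c_o h, ← inv_smul_eq_iff (g := W.c (j + 1)), ← mul_smul, ← mul_smul, stabJ_o]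
  refine exists_congr fun a => ⟨fun e => ?_, fun e => ?_⟩
  · rw [← e]
    group
  · rw [e]
    group

theorem genJ (hr : r ≠ 0) : Subgroup.closure (Set.range W.jo ∪ {W.c r}) = ⊤ := by
  obtain ⟨K, hK⟩ : ∃ K, K = Subgroup.closure (Set.range W.jo ∪ {W.c r}) := ⟨_, rfl⟩
  have h1 : ∀ a, W.jo a ∈ K := fun a => hK ▸ Subgroup.subset_closure (Or.inl ⟨a, rfl⟩)
  have h2 : W.c r ∈ K := hK ▸ Subgroup.subset_closure (Or.inr rfl)
  have h3 : ∀ n, cs (W.jo y) (W.c r) n ∈ K := fun n => by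
    induction n with
    | zero => exact h2
    | succ n ih => exact mul_mem (mul_mem ih (h1 y)) (inv_mem ih)
  have h4 : W.c 1 ∈ K := W.c_eq_cs (j := 1) (by omega) ▸ h3 _
  have h5 : ∀ a, W.jp a ∈ K := fun a =>
    W.c_jp hr a ▸ mul_mem (mul_mem h4 (h1 a)) (inv_mem h4)
  have h6 : ⊤ ≤ K.map W.π := by
    rw [← W.gen, Subgroup.closure_le]
    rintro g ((⟨a, rfl⟩ | ⟨a, rfl⟩) | rfl)
    · obtain ⟨a, rfl⟩ := QuotientGroup.mk_surjective a
      exact ⟨_, h1 a, rfl⟩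
    · obtain ⟨a, rfl⟩ := QuotientGroup.mk_surjective a
      exact ⟨_, h5 a, rfl⟩
    · exact ⟨_, h2, W.π_c le_rfl⟩
  rw [← hK, eq_top_iff]
  rintro g -
  obtain ⟨g', k1, k2⟩ := h6 (Subgroup.mem_top (W.π g))
  obtain ⟨δ, -, rfl⟩ := W.π_eq_iff.1 k2.symm
  exact mul_mem k1 (h1 δ)

theorem π_wd (e : W.J) (l : List (ℤ × W.J)) :
    W.π (wd e l) = wd (W.π e) (l.map fun p => (p.1, W.π p.2)) := by
  induction l with
  | nil => exact map_one _
  | cons p l ih => rw [List.map_cons, wd_cons, wd_cons, map_mul, map_mul, map_zpow, ih]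

/-- Local freeness. -/
theorem lfJ {j : ℕ} (h : j ≤ r) (l : List (ℤ × W.J)) (i : ℤ) (hl : l.length < j) (hi : i ≠ 0)
    (hred : ∀ p ∈ l, p.1 ≠ 0 ∧ W.π p.2 ≠ 1 ∧ p.2 • W.o = W.o) :
    (wd (W.c j) l * W.c j ^ i) • W.o ≠ W.o := by
  rw [smul_def, map_mul, map_zpow, π_wd, W.π_c h]
  refine W.lf j h _ i (by simpa using hl) hi fun p hp => ?_
  obtain ⟨q, hq, rfl⟩ := List.mem_map.1 hp
  exact hred q hq

/-- Local freeness for letters in `A`. -/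
theorem lfA {j : ℕ} (h : j ≤ r) (l : List (ℤ × A)) (i : ℤ) (hl : l.length < j) (hi : i ≠ 0)
    (hred : ∀ p ∈ l, p.1 ≠ 0 ∧ p.2 ∉ D) :
    (wd (W.c j) (l.map fun p => (p.1, W.jo p.2)) * W.c j ^ i) • W.o ≠ W.o := by
  refine W.lfJ h _ i (by simpa using hl) hi fun p hp => ?_
  obtain ⟨q, hq, rfl⟩ := List.mem_map.1 hp
  exact ⟨(hred q hq).1, fun e => (hred q hq).2 (W.π_jo_eq_one.1 e), W.jo_smul _⟩

theorem isoJ : Isom W.J W.d := fun g => W.ok.iso (W.π g)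

theorem k_smulJ (g : W.J) {x : W.Z} (h : W.k x) : W.k (g • x) := W.ok.k_smul (W.π g) x h

theorem k_iffJ (g : W.J) (x : W.Z) : W.k (g • x) ↔ W.k x := W.ok.toOK0.k_iff (W.π g) x

theorem ht_smulJ (g : W.J) {x x' : W.Z} (h : W.d x x' = 1) :
    W.ht (g • x) (g • x') = W.ht x x' := W.ok.ht_smul (W.π g) x x' h

theorem injJ {a : W.J} {x : W.Z} (hx : W.k x) (h : a • x = x) (h1 : W.χ a = 1) : a = 1 :=
  J_ext (by rw [W.ok.inj (W.π a) x hx h (by rw [ρ_π, h1]; rfl), map_one]) (by rw [h1, map_one])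

theorem twoJ {a : W.J} {x x' : W.Z} (hx : W.k x) (hx' : W.k x') (h : W.d x x' = 1)
    (h1 : a • x = x) (h2 : a • x' = x') : ∃ δ ∈ D, a = W.jo δ :=
  W.π_eq_one.1 (W.ok.two _ x x' hx hx' h h1 h2)

theorem etyJ (g : W.J) : g • W.o ≠ W.P r := W.ety _

theorem coverJ (z : W.Z) : ∃ g : W.J, z = g • W.o ∨ z = g • W.P r ∨ z = g • W.τ := by
  obtain ⟨g, h⟩ := W.cover z
  obtain ⟨g, rfl⟩ := W.π_surj g
  exact ⟨g, h⟩

theorem nk_casesJ {z : W.Z} (h : ¬ W.k z) : ∃ g : W.J, z = g • W.τ := by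
  obtain ⟨g, h⟩ := W.nk_cases h
  obtain ⟨g, rfl⟩ := W.π_surj g
  exact ⟨g, h⟩

theorem edgesJ {x x' : W.Z} (h : W.d x x' = 1) : ∃ (g : W.J) (u v : W.Z),
    ((∃ j, j ≤ r ∧ u = W.o ∧ v = W.P j) ∨ (u = W.o ∧ v = W.τ) ∨ (u = W.P 0 ∧ v = W.τ)) ∧
      ((x = g • u ∧ x' = g • v) ∨ (x = g • v ∧ x' = g • u)) := by
  obtain ⟨g, h⟩ := W.edges x x' h
  obtain ⟨g, rfl⟩ := W.π_surj g
  exact ⟨g, h⟩

theorem rclJ : RCl W.J W.Z := fun g n x hn h =>
  W.ok.rcl (W.π g) n x hn (by rwa [← map_pow])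

theorem cfJ : CF W.J W.Z := by
  intro U hU h1 h2
  obtain ⟨x, hx⟩ := W.ok.cf (W.π '' U) (hU.image _) (by
    rintro _ ⟨a, ha, rfl⟩ _ ⟨b, hb, rfl⟩
    exact (h1 a ha b hb).map _) (by
    rintro _ ⟨a, ha, rfl⟩
    exact h2 a ha)
  exact ⟨x, fun a ha => hx _ ⟨a, ha, rfl⟩⟩

theorem ftJ : FT W.J W.τ W.o (W.P 0) := fun α h =>
  (W.ft α h).imp (fun H a => H (W.π a)) fun H a => H (W.π a)

theorem h2J (hr : r ≠ 0) {a : W.J} {z : W.Z} (h1 : a • W.P r = W.P r) (h2 : a • z = z) :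
    z = W.P r ∨ ∃ δ ∈ D, a = W.jo δ :=
  or_iff_not_imp_right.2 fun h => W.h2 hr (W.π a) z (fun e => h (W.π_eq_one.1 e)) h1 h2

/-- `a` fixes a point of the main class. -/
def ApJ (a : W.J) : Prop := ∃ β, W.k β ∧ a • β = β

/-- The torus. -/
def T : Subgroup W.J := MulAction.stabilizer W.J W.τ

theorem mem_T {a : W.J} : a ∈ W.T ↔ a • W.τ = W.τ := Iff.rfl

theorem T_comm (a b : W.J) (ha : a ∈ W.T) (hb : b ∈ W.T) : Commute a b := W.abJ a b _ ha hb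

theorem tamJ {c : ℕ} (h : TAM W.G W.d c) : TAM W.J W.d c := by
  intro U α hα x
  refine (h (W.π '' U) α (by
    rintro _ ⟨a, ha, rfl⟩
    exact hα a ha) x).imp (fun H a ha => H _ ⟨a, ha, rfl⟩) ?_
  rintro ⟨β, h1, _, ⟨a, ha, rfl⟩, h2⟩
  exact ⟨β, fun b hb => h1 _ ⟨b, hb, rfl⟩, a, ha, h2⟩

theorem aiJ {L f : ℕ} (h : AI W.G W.d L f) : AI W.J W.d L f := fun a b x x' hab =>
  h (W.π a) (W.π b) x x' fun e => hab (W.commute_iff.2 e)

theorem pwJ {P L : ℕ} (h : PW W.G W.d P L) : PW W.J W.d P L := fun a ha j hj x => by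
  rw [smul_def, map_pow]
  exact h (W.π a) ha j hj x

theorem taJ {c : ℕ} (h : TAM W.G W.d c) (a : W.J) (z : W.Z) (ha : W.ApJ a) :
    ∃ β, W.k β ∧ a • β = β ∧ 2 * W.d z β ≤ W.d z (a • z) + (c + 2) := by
  obtain ⟨α, k1, k2⟩ := ha
  obtain ⟨β, h1, h2, h3⟩ := W.tam_k h (U := {W.π a}) k1 (by rintro _ rfl; exact k2) z
    (L := W.d z (a • z)) (by rintro _ rfl; exact le_rfl)
  exact ⟨β, h1, h2 _ rfl, h3⟩

theorem tmJ {c : ℕ} (h : TAM W.G W.d c) (a : W.J) (z : W.Z) (ha : a ∈ W.T) (hn : ¬ W.ApJ a) :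
    2 * W.d z W.τ ≤ W.d z (a • z) + c := by
  obtain ⟨β, h1, h2⟩ := W.tam_fix h (U := {W.π a}) (α := W.τ) (by rintro _ rfl; exact ha) z
    (L := W.d z (a • z)) (by rintro _ rfl; exact le_rfl)
  have := W.fix_unique 1 (a := W.π a) (by rw [one_smul]; exact ha) hn (h1 _ rfl)
  rwa [this, one_smul] at h2

theorem fix_cases {a : W.J} {z : W.Z} (h : a • z = z) : W.ApJ a ∨ ∃ j : W.J, j * a * j⁻¹ ∈ W.T := by
  by_cases kz : W.k z
  · exact Or.inl ⟨z, kz, h⟩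
  obtain ⟨g, rfl⟩ := W.nk_casesJ kz
  exact Or.inr ⟨g⁻¹, by rw [mem_T, inv_inv, mul_smul, mul_smul, h, inv_smul_smul]⟩

theorem pwJ' {P L : ℕ} (h : PW W.G W.d P L) (a : W.J) (h1 : ¬ W.ApJ a)
    (h2 : ∀ j : W.J, j * a * j⁻¹ ∉ W.T) (i : ℕ) (hi : P ≤ i) (z : W.Z) :
    L ≤ W.d z (a ^ i • z) :=
  W.pwJ h a (fun _ e => (W.fix_cases e).elim h1 fun e => e.elim h2) i hi z

theorem fjJ (a : W.J) (β β' : W.Z) (h : W.k β) (h' : W.k β') (e : a • β = β) (e' : a • β' = β') :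
    (∀ z : W.Z, a • z = z) ∨ ∀ b : W.J, b • β = β → b • β' = β' := by
  by_cases h1 : W.π a = 1
  · exact Or.inl fun z => by rw [smul_def, h1, one_smul]
  · exact Or.inr fun b => W.f1 (W.π a) β β' h1 h h' e e' (W.π b)

theorem mxJ (a j : W.J) (ha : a ∈ W.T) (hj : j * a * j⁻¹ ∈ W.T) (hn : ¬ W.ApJ a) : j ∈ W.T := by
  have h1 : a • j⁻¹ • W.τ = j⁻¹ • W.τ := by
    rwa [mem_T, mul_smul, mul_smul, ← eq_inv_smul_iff] at hj
  have := W.fix_unique 1 (a := W.π a) (by rw [one_smul]; exact ha) hn h1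
  rw [one_smul, inv_smul_eq_iff] at this
  exact this.symm

theorem caJ (a b : W.J) (h : Commute a b) (ha : W.ApJ a) (hb : W.ApJ b) (hab : W.ApJ (a * b)) :
    ∃ β, W.k β ∧ a • β = β ∧ b • β = β :=
  W.ca0 (h.map W.π) ha hb (by rw [← map_mul]; exact hab)

theorem dn_up {N : ℕ} {a b : W.J} (h : Dn N (W.π a) (W.π b)) : Dn N a b :=
  h.imp fun j h => ⟨h.1, W.commute_iff.2 (by rw [map_cs]; exact h.2)⟩

theorem esc_up {K n : ℕ} {a b : W.J} (h : Esc W.d K n (W.π a) (W.π b)) : Esc W.d K n a b :=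
  h.imp fun j h => ⟨h.1, fun x => by
    rw [smul_def, smul_def, map_cs]
    exact h.2 x⟩

/-- Conjugate pairs terminate or escape. -/
theorem gtJ {n K : ℕ} (hK : 2 * n + 7 ≤ K) (a b : W.J) (h : IsConj a b) (hn : ¬ Commute a b) :
    Dn r a b ∨ Esc W.d (K + 1) n a b := by
  refine (W.gt n K hK (W.π a) (W.π b) ⟨?_, Or.inl (W.π.map_isConj h)⟩
    fun e => hn (W.commute_iff.2 e)).imp W.dn_up W.esc_up
  exact isConj_iff_eq.1 (W.ρ.map_isConj (W.π.map_isConj h))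

/-- The same for elements with fixed points in the main class and with congruent labels. -/
theorem gtJ' {n K : ℕ} (hK : 2 * n + 7 ≤ K) (a b : W.J) (ha : W.ApJ a) (hb : W.ApJ b)
    (h : (W.χ a)⁻¹ * W.χ b ∈ D) (hn : ¬ Commute a b) : Dn r a b ∨ Esc W.d (K + 1) n a b :=
  (W.gt n K hK (W.π a) (W.π b) ⟨by rw [ρ_π, ρ_π]; exact QuotientGroup.eq.2 h, Or.inr ⟨ha, hb⟩⟩
    fun e => hn (W.commute_iff.2 e)).imp W.dn_up W.esc_up

theorem escJ (hr : r ≠ 0) (n : ℕ) : Esc W.d (2 * n + 7) n (W.c r)⁻¹ (W.jo y)⁻¹ :=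
  W.esc_up (by
    rw [map_inv, map_inv, W.π_c le_rfl]
    exact W.esc hr n)

end Tow

/-- The metric invariants of all towers, with absolute constants. -/
theorem exists_tow_mi : ∃ k c F : ℕ, ∀ (E : Type) [CommGroup E] (η : E) (r : ℕ) (W : Tow E η r)
    (L : ℕ), W.toTw.MI k c L (12 * L + F) (2 * L + 6) := by
  obtain ⟨k, c, F, h⟩ := Tw.mi_of_geo 11 4
  refine ⟨k, c, 32 + F, fun E _ η r W L => ?_⟩
  have := h E W.toTw L _ _ W.ok.toOK0 (W.geo L)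
  rwa [show 10 * L + 32 + 2 * L + F = 12 * L + (32 + F) by omega] at this

end Pool.Agent.Lib.MP_429c3d_al.Ng
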