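import Pool.Agent.Lib.MP_a2eab4_al.TwJ
import Pool.Agent.Lib.MP_a2eab4_al.TwC
import Pool.Agent.Lib.MP_a2eab4_al.ReCq

set_option autoImplicit false

/-! The tower seen from its top edge. -/

namespace Pool.Agent.Lib.MP_429c3d_al.Ng.Tow

open Hyp Pool.Agent.Lib.MP_a2eab4_al.Re

section general

variable {E : Type} [CommGroup E] {η : E} {r : ℕ} (W : Tow E η r)

theorem ht_edge {x y : W.Z} (h : W.d x y = 1) : W.ht x y = W.ht y x ∧ W.ht x y ≤ r := by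
  obtain ⟨g, u, v, h1, h2⟩ := W.edges x y h
  have key : W.d u v = 1 ∧ W.ht u v = W.ht v u ∧ W.ht u v ≤ r := by
    rcases h1 with ⟨j, hj, rfl, rfl⟩ | ⟨rfl, rfl⟩ | ⟨rfl, rfl⟩
    · exact ⟨W.d_P j hj, by rw [(W.ht_P j hj).1, (W.ht_P j hj).2], by rwa [(W.ht_P j hj).1]⟩
    · exact ⟨W.d_o, by rw [W.ht_o.1, W.ht_o.2], by rw [W.ht_o.1]; omega⟩
    · exact ⟨W.d_p, by rw [W.ht_p.1, W.ht_p.2], by rw [W.ht_p.1]; omega⟩
  have e1 := W.ok.ht_smul g u v key.1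
  have e2 := W.ok.ht_smul g v u ((W.ok.gr.met.symm _ _).trans key.1)
  rcases h2 with ⟨rfl, rfl⟩ | ⟨rfl, rfl⟩ <;> omega

theorem nb (x : W.Z) : ∃ y, W.d x y = 1 := by
  obtain ⟨g, rfl | rfl | rfl⟩ := W.cover x
  · exact ⟨g • W.τ, (W.ok.iso _ _ _).trans W.d_o⟩
  · exact ⟨g • W.o, by rw [W.ok.iso, W.ok.gr.met.symm, W.d_P r le_rfl]⟩
  · exact ⟨_, W.d_τ_o g⟩

/-- All edges at the last point have the top height. -/
theorem ht_top (hr : r ≠ 0) (n : W.Z) (h : W.d (W.P r) n = 1) : W.ht (W.P r) n = r := by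
  have no : ∀ g : W.G, W.P r ≠ g • W.o := fun g e => W.ety g e.symm
  have np : ∀ (g : W.G) j, j < r → W.P r ≠ g • W.P j := fun g j hj => by
    rw [← W.e_o j hj, ← mul_smul]
    exact no _
  obtain ⟨g, u, v, ⟨j, hj, rfl, rfl⟩ | ⟨rfl, rfl⟩ | ⟨rfl, rfl⟩, ⟨e1, e2⟩ | ⟨e1, e2⟩⟩ :=
    W.edges _ _ h
  · exact absurd e1 (no g)
  · obtain rfl : j = r := by
      by_contra e
      exact np g j (by omega) e1
    have := W.ok.ht_smul g _ _ ((W.ok.gr.met.symm _ _).trans (W.d_P j le_rfl))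
    rw [← e1, ← e2] at this
    exact this.trans (W.ht_P j le_rfl).2
  · exact absurd e1 (no g)
  · exact absurd (e1 ▸ W.k_P r le_rfl) (W.nk_smul g)
  · exact absurd e1 (np g 0 (by omega))
  · exact absurd (e1 ▸ W.k_P r le_rfl) (W.nk_smul g)

theorem ht_bot (n : W.Z) (h : W.d W.τ n = 1) : W.ht W.τ n = 0 := by
  have nk : ∀ (g : W.G) x, W.k x → W.τ ≠ g • x := fun g x hx e => W.nk (e ▸ W.ok.k_smul g x hx)
  obtain ⟨g, u, v, ⟨j, hj, rfl, rfl⟩ | ⟨rfl, rfl⟩ | ⟨rfl, rfl⟩, ⟨e1, e2⟩ | ⟨e1, e2⟩⟩ :=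
    W.edges _ _ h
  · exact absurd e1 (nk g _ W.k_o)
  · exact absurd e1 (nk g _ (W.k_P j hj))
  · exact absurd e1 (nk g _ W.k_o)
  · have := W.ok.ht_smul g _ _ ((W.ok.gr.met.symm _ _).trans W.d_o)
    rw [← e1, ← e2] at this
    exact this.trans W.ht_o.2
  · exact absurd e1 (nk g _ W.k_p)
  · have := W.ok.ht_smul g _ _ ((W.ok.gr.met.symm _ _).trans W.d_p)
    rw [← e1, ← e2] at this
    exact this.trans W.ht_p.2

end general

variable {A : Type} [CommGroup A] {D : Subgroup A} {y : A} {r : ℕ}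
  (W : Tow (A ⧸ D) (QuotientGroup.mk y) r)

theorem wd_c (hr : r ≠ 0) (i : ℕ) (hi : i ≤ r) :
    Wd (Syl W.J W.o (W.P r)) (2 ^ (i + 1) - 1) (W.c (r - i)) := by
  induction i with
  | zero => exact Wd.of (Or.inr (W.c_P hr le_rfl))
  | succ i ih =>
    have h := ih (by omega)
    rw [← W.c_c (j := r - (i + 1)) (by omega), show r - (i + 1) + 1 = r - i by omega]
    refine ((h.mul (Wd.of (Or.inl (W.jo_smul y)))).mul (h.inv (syl_inv _ _))).mono ?_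
    have := Nat.one_le_two_pow (n := i + 1)
    rw [pow_succ 2 (i + 1)]
    omega

theorem low (hr : r ≠ 0) : Low W.J W.d W.ht W.o (W.P r) r fun h => 2 ^ (h + 1) := by
  obtain ⟨-, -, -, -, g, mk, -, -, -, -, -, det⟩ := W.geo 0
  refine ⟨W.ok.gr, W.isoJ, det, fun g _ _ h => W.ht_smulJ g h, fun _ _ h => (W.ht_edge h).1,
    W.d_P r le_rfl, (W.ht_P r le_rfl).1, W.etyJ, fun h x x' h1 h2 h3 => ?_⟩
  obtain ⟨g, u, v, h4, h5⟩ := W.edgesJ h2
  have key : W.d u v = 1 → r ≤ W.ht u v + h := fun e => by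
    have := (W.ht_edge h2).1
    have := W.ht_smulJ g e
    rcases h5 with ⟨rfl, rfl⟩ | ⟨rfl, rfl⟩ <;> omega
  obtain ⟨μ, s, a1, a2, rfl, rfl⟩ : ∃ (μ : W.J) (s : W.Z), (s = W.o ∨ s = W.P r) ∧
      Wd (Syl W.J W.o (W.P r)) (2 ^ (h + 1)) μ ∧ u = W.o ∧ v = μ • s := by
    rcases h4 with ⟨j, hj, rfl, rfl⟩ | ⟨rfl, rfl⟩ | ⟨rfl, rfl⟩
    · have := key (W.d_P j hj)
      rw [(W.ht_P j hj).1] at this
      rcases hj.lt_or_eq with e | rfl
      · refine ⟨W.c (j + 1), _, Or.inl rfl, ?_, rfl, (W.c_o e).symm⟩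
        have := W.wd_c hr (r - (j + 1)) (by omega)
        rw [show r - (r - (j + 1)) = j + 1 by omega] at this
        exact this.mono ((Nat.sub_le _ _).trans (Nat.pow_le_pow_right (by omega) (by omega)))
      · exact ⟨1, _, Or.inr rfl, Wd.one _, rfl, (one_smul _ _).symm⟩
    · have := key W.d_o
      rw [W.ht_o.1] at this
      omega
    · have := key W.d_p
      rw [W.ht_p.1] at this
      omega
  rcases h5 with ⟨rfl, rfl⟩ | ⟨rfl, rfl⟩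
  · exact ⟨g, 1, μ, _, s, Or.inl rfl, a1, Wd.one _, a2, by rw [mul_one], (mul_smul _ _ _).symm⟩
  · exact ⟨g, μ, 1, s, _, a1, Or.inl rfl, a2, Wd.one _, (mul_smul _ _ _).symm, by rw [mul_one]⟩

theorem hg (hr : r ≠ 0) : HG W.J W.d W.ht := (W.low hr).hg W.nb

/-- The syllables of the fibre product. -/
theorem syl_iff (hr : r ≠ 0) (g : W.J) : g ∈ Syl W.J W.o (W.P r) ↔
    (∃ a, g = W.jo a) ∨ ∃ (i : ℤ) (δ : A), δ ∈ D ∧ g = W.c r ^ i * W.jo δ :=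
  or_congr (W.stabJ_o g) (W.stabJ_P hr g)

end Pool.Agent.Lib.MP_429c3d_al.Ng.Tow
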