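import Pool.Agent.Lib.MP_429c3d_al.NgCoc
import Pool.Agent.Lib.MP_429c3d_al.NgGeo
import Pool.Agent.Lib.MP_429c3d_al.NgStpEx

/-! Stages of a tower over an abelian group, and steps between them. -/

set_option autoImplicit false

namespace Pool.Agent.Lib.MP_429c3d_al.Ng

open Hyp

/-- Stages of a tower: a graph with an action, a retraction to an abelian group, the points of
the main class and the heights of the edges. -/
structure Tw (E : Type) [CommGroup E] where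
  G : Type
  Z : Type
  [grp : Group G]
  [act : MulAction G Z]
  d : Z → Z → ℕ
  ρ : G →* E
  k : Z → Prop
  ht : Z → Z → ℕ

attribute [instance] Tw.grp Tw.act

/-- Point stabilisers are closed under roots. -/
def RCl (G Z : Type) [Group G] [MulAction G Z] : Prop :=
  ∀ (g : G) (n : ℕ) (x : Z), n ≠ 0 → g ^ n • x = x → g • x = x

/-- Finitely many commuting elements with fixed points have a common fixed point. -/
def CF (G Z : Type) [Group G] [MulAction G Z] : Prop :=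
  ∀ U : Set G, U.Finite → (∀ a ∈ U, ∀ b ∈ U, Commute a b) → (∀ a ∈ U, ∃ x : Z, a • x = x) →
    ∃ x : Z, ∀ a ∈ U, a • x = x

/-- The non trivial elements that fix `h` fix nothing else. -/
def H2 (G : Type) {Z : Type} [Group G] [MulAction G Z] (h : Z) : Prop :=
  ∀ (a : G) (z : Z), a ≠ 1 → a • h = h → a • z = z → z = h

/-- The common stabiliser of `τ` and of another point fixes `o` or fixes `p`. -/
def FT (G : Type) {Z : Type} [Group G] [MulAction G Z] (τ o p : Z) : Prop :=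
  ∀ α, α ≠ τ → (∀ a : G, a • τ = τ → a • α = α → a • o = o) ∨
    ∀ a : G, a • τ = τ → a • α = α → a • p = p

variable {E : Type} [CommGroup E]

namespace Tw

/-- The basic axioms of a stage. -/
structure OK0 (S : Tw E) : Prop where
  gr : IsGr S.d
  iso : Isom S.G S.d
  k_smul : ∀ (g : S.G) x, S.k x → S.k (g • x)
  ht_smul : ∀ (g : S.G) x y, S.d x y = 1 → S.ht (g • x) (g • y) = S.ht x y
  inj : ∀ (a : S.G) x, S.k x → a • x = x → S.ρ a = 1 → a = 1

/-- The algebraic invariants of a stage. -/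
structure OK (S : Tw E) : Prop extends S.OK0 where
  ab : ∀ (a b : S.G) (x : S.Z), a • x = x → b • x = x → Commute a b
  two : ∀ (a : S.G) x y, S.k x → S.k y → S.d x y = 1 → a • x = x → a • y = y → a = 1
  tf : TF S.G
  rcl : RCl S.G S.Z
  cf : CF S.G S.Z

/-- What is known about the head of a slot. -/
def HH (S : Tw E) (t h : S.Z) : Prop :=
  H2 S.G h ∨ ((∃ τ, (∀ a : S.G, a • τ = τ) ∧ S.d t τ ≤ 2) ∧
    ∀ a : S.G, a • t = t → ∃ b : S.G, b • h = h ∧ S.ρ a = S.ρ b)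

theorem OK0.eq {S : Tw E} (H : S.OK0) {x : S.Z} (hx : S.k x) {a b : S.G} (ha : a • x = b • x)
    (e : S.ρ a = S.ρ b) : a = b := by
  have := H.inj (b⁻¹ * a) x hx (by rw [mul_smul, ha, inv_smul_smul])
    (by rw [map_mul, map_inv, e, inv_mul_cancel])
  exact (inv_mul_eq_one.1 this).symm

theorem OK0.k_iff {S : Tw E} (H : S.OK0) (g : S.G) (x : S.Z) : S.k (g • x) ↔ S.k x :=
  ⟨fun h => by simpa using H.k_smul g⁻¹ _ h, H.k_smul g x⟩

/-- A step between two stages. -/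
structure Stp (S T : Tw E) extends Gate S.G T.G S.d T.d where
  n : ℕ
  psi : T.G →* Multiplicative ℤ
  psi_φ : ∀ g, psi (φ g) = 1
  psi_e : psi e = Multiplicative.ofAdd 1
  gen : Subgroup.closure (Set.range φ ∪ {e}) = ⊤
  lift : ∀ (H : Type) [Group H] (f : S.G →* H) (x : H),
    (∀ a b : S.G, a • t = t → b • h = h → S.ρ a = S.ρ b → x * f a * x⁻¹ = f b) →
    ∃ f' : T.G →* H, (∀ g, f' (φ g) = f g) ∧ f' e = x
  gr' : IsGr T.d
  kt : S.k t
  kh : S.k h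
  d1 : S.d t h = 1
  ety : ∀ g : S.G, g • t ≠ h
  lb : ∀ b : S.G, b • h = h → ∃ a : S.G, a • t = t ∧ S.ρ a = S.ρ b
  conj : ∀ a b : S.G, a • t = t → b • h = h → S.ρ a = S.ρ b → e * φ a * e⁻¹ = φ b
  estab : ∀ γ : T.G, γ • ι t = ι t → γ ∈ φ.range
  ρ_φ : ∀ g, T.ρ (φ g) = S.ρ g
  ρ_e : T.ρ e ≠ 1
  k_ι : ∀ (γ : T.G) z, T.k (γ • ι z) ↔ S.k z
  k_w : ∀ γ : T.G, T.k (γ • w)
  ht_ι : ∀ (γ : T.G) z z', S.d z z' = 1 → T.ht (γ • ι z) (γ • ι z') = S.ht z z'
  ht_tw : ∀ γ : T.G, T.ht (γ • ι t) (γ • w) = n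
  ht_wt : ∀ γ : T.G, T.ht (γ • w) (γ • ι t) = n

theorem OK0.ne {S : Tw E} (H : S.OK0) {z z' : S.Z} (h : S.d z z' = 1) : z' ≠ z := fun e => by
  rw [e, H.gr.met.self] at h
  omega

theorem OK0.exists_slot {S : Tw E} (H : S.OK0) {t h : S.Z} (kt : S.k t) (kh : S.k h)
    (d1 : S.d t h = 1) (lb : ∀ b : S.G, b • h = h → ∃ a : S.G, a • t = t ∧ S.ρ a = S.ρ b) :
    ∃ σ : SlotD S.G S.d, σ.t = t ∧ σ.h = h ∧
      (∀ a, a ∈ σ.A ↔ a • t = t ∧ ∃ b : S.G, b • h = h ∧ S.ρ a = S.ρ b) ∧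
      ∀ a : σ.A, S.ρ (σ.φ a) = S.ρ a := by
  let A : Subgroup S.G :=
    { carrier := {a | a • t = t ∧ ∃ b : S.G, b • h = h ∧ S.ρ a = S.ρ b}
      one_mem' := ⟨one_smul _ _, 1, one_smul _ _, rfl⟩
      mul_mem' := by
        rintro a a' ⟨h1, b, h2, h3⟩ ⟨h4, b', h5, h6⟩
        exact ⟨by rw [mul_smul, h4, h1], b * b', by rw [mul_smul, h5, h2],
          by rw [map_mul, map_mul, h3, h6]⟩
      inv_mem' := by
        rintro a ⟨h1, b, h2, h3⟩
        exact ⟨inv_smul_eq_iff.2 h1.symm, b⁻¹, inv_smul_eq_iff.2 h2.symm,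
          by rw [map_inv, map_inv, h3]⟩ }
  obtain ⟨φ, hφ⟩ := exists_equiv_of_range (A := A) (B := MulAction.stabilizer S.G h)
    (S.ρ.comp A.subtype) (S.ρ.comp (MulAction.stabilizer S.G h).subtype)
    (fun a b e => Subtype.ext (H.eq kt (a.2.1.trans b.2.1.symm) e))
    (fun a b e => Subtype.ext (H.eq kh (Eq.trans a.2 (Eq.symm b.2)) e)) (by
      ext x
      constructor
      · rintro ⟨a, rfl⟩
        obtain ⟨b, h1, h2⟩ := a.2.2
        exact ⟨⟨b, h1⟩, h2.symm⟩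
      · rintro ⟨b, rfl⟩
        obtain ⟨a, h1, h2⟩ := lb b b.2
        exact ⟨⟨a, h1, b, b.2, h2⟩, h2⟩)
  exact ⟨⟨t, h, A, _, φ, H.gr, H.iso, (H.ne d1).symm, d1.le, fun _ ha => ha.1,
    fun _ => Iff.rfl⟩, rfl, rfl, fun _ => Iff.rfl, hφ⟩

theorem exists_stp (S : Tw E) (H : S.OK0) {t h : S.Z} (kt : S.k t) (kh : S.k h)
    (d1 : S.d t h = 1) (ety : ∀ g : S.G, g • t ≠ h)
    (lb : ∀ b : S.G, b • h = h → ∃ a : S.G, a • t = t ∧ S.ρ a = S.ρ b) {η : E} (hη : η ≠ 1)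
    (n : ℕ) : ∃ (T : Tw E) (X : Stp S T), X.t = t ∧ X.h = h ∧ T.ρ X.e = η ∧ X.n = n := by
  obtain ⟨σ, rfl, rfl, hA, hφ⟩ := H.exists_slot kt kh d1 lb
  have hφh : ∀ a : σ.A, (σ.φ a : S.G) • σ.h = σ.h := fun a => (σ.Bh _).1 (σ.φ a).2
  obtain ⟨ht', n1, n2, n3⟩ := σ.exists_flag (fun _ _ n => n) (fun _ _ => rfl)
    (fun _ _ _ _ => rfl) (fun z z' => S.d z z' = 1) (fun _ _ => H.ne) S.ht H.ht_smul n n
  obtain ⟨k', a1, a2⟩ := σ.exists_pt S.k (fun g z => propext (H.k_iff g z))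
    (propext (iff_of_true kh kt)) True
  have lf : ∀ (K : Type) [Group K] (f : S.G →* K) (x : K),
      (∀ a b : S.G, a • σ.t = σ.t → b • σ.h = σ.h → S.ρ a = S.ρ b → x * f a * x⁻¹ = f b) →
      ∃ f' : σ.GG →* K, (∀ g, f' (σ.em g) = f g) ∧ f' σ.e = x := by
    intro K _ f x hfx
    exact ⟨HNNExtension.lift f x fun a => mul_inv_eq_iff_eq_mul.1
      (hfx a _ (σ.At a a.2) (hφh a) (hφ a).symm),
      fun g => HNNExtension.lift_of _ _ _ g, HNNExtension.lift_t _ _ _⟩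
  obtain ⟨ρ', r1, r2⟩ := lf E S.ρ η fun a b _ _ e => by rw [mul_inv_cancel_comm, e]
  refine ⟨⟨σ.GG, σ.ZZ, σ.dd, ρ', k', ht'⟩,
    { toGate := σ.gate
      n := n
      psi := psi σ.φ
      psi_φ := σ.psi_em
      psi_e := σ.psi_e
      gen := ?_
      lift := lf
      gr' := σ.dd_gr
      kt := kt
      kh := kh
      d1 := d1
      ety := ety
      lb := lb
      conj := ?_
      estab := fun γ e => (σ.etype_stab ety e).imp fun _ h1 => h1.1.symm
      ρ_φ := r1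
      ρ_e := fun e => hη (r2.symm.trans e)
      k_ι := fun γ z => iff_of_eq (a1 γ z)
      k_w := fun γ => (iff_of_eq (a2 γ)).2 trivial
      ht_ι := n1
      ht_tw := n2
      ht_wt := n3 }, rfl, rfl, r2, rfl⟩
  · change Subgroup.closure (Set.range σ.em ∪ {σ.e}) = ⊤
    rw [eq_top_iff]
    rintro γ -
    induction γ using HNNExtension.induction_on with
    | of g => exact Subgroup.subset_closure (Or.inl ⟨g, rfl⟩)
    | t => exact Subgroup.subset_closure (Or.inr rfl)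
    | mul _ _ h1 h2 => exact mul_mem h1 h2
    | inv _ h1 => exact inv_mem h1
  · intro a b (ha : a • σ.t = σ.t) (hb : b • σ.h = σ.h) (e : S.ρ a = S.ρ b)
    have h1 : a ∈ σ.A := (hA a).2 ⟨ha, b, hb, e⟩
    exact (σ.e_conj h1).trans (congrArg σ.em (H.eq kh ((hφh ⟨a, h1⟩).trans hb.symm)
      ((hφ ⟨a, h1⟩).trans e)))

end Tw

end Pool.Agent.Lib.MP_429c3d_al.Ng
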