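import Mathlib

set_option autoImplicit false

/-! A nilpotent group extended by an element acting unipotently on generators is nilpotent. -/

namespace Pool.Agent.Lib.MP_a2eab4_al

open Subgroup
open scoped commutatorElement

variable {G : Type*} [Group G]

/-- the commutator `[u, g]` -/
def dl (g u : G) : G := u⁻¹ * g⁻¹ * u * g

lemma conj_mem {N : Subgroup G} {w u : G} (hw : w ∈ normalizer (N : Set G)) (hu : u ∈ N) :
    w * u * w⁻¹ ∈ N := (mem_normalizer_iff.mp hw u).mp hu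

lemma conj_mem' {N : Subgroup G} {w u : G} (hw : w ∈ normalizer (N : Set G)) (hu : u ∈ N) :
    w⁻¹ * u * w ∈ N := (mem_normalizer_iff''.mp hw u).mp hu

/-- the elements of `W` that commute with `u` modulo `N` -/
def cen (W N : Subgroup G) (h : W ≤ normalizer (N : Set G)) (u : G) : Subgroup G where
  carrier := {w | w ∈ W ∧ ⁅u, w⁆ ∈ N}
  one_mem' := ⟨W.one_mem, by simp⟩
  mul_mem' := by
    rintro a b ⟨ha, ha'⟩ ⟨hb, hb'⟩
    refine ⟨W.mul_mem ha hb, ?_⟩
    have : ⁅u, a * b⁆ = ⁅u, a⁆ * (a * ⁅u, b⁆ * a⁻¹) := by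
      simp only [commutatorElement_def]; group
    rw [this]
    exact N.mul_mem ha' (conj_mem (h ha) hb')
  inv_mem' := by
    rintro a ⟨ha, ha'⟩
    refine ⟨W.inv_mem ha, ?_⟩
    have : ⁅u, a⁻¹⁆ = a⁻¹ * ⁅u, a⁆⁻¹ * a := by
      simp only [commutatorElement_def]; group
    rw [this]
    exact conj_mem' (h ha) (N.inv_mem ha')

lemma comm_swap {N : Subgroup G} {a b : G} (h : ⁅a, b⁆ ∈ N) : ⁅b, a⁆ ∈ N := by
  rw [← commutatorElement_inv]
  exact N.inv_mem h

lemma norm_lcs {J : Subgroup G} {g : G} (hg : g ∈ normalizer (J : Set G)) (i : ℕ) :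
    g ∈ normalizer (J.lowerCentralSeries i : Set G) := by
  rw [mem_normalizer_iff_map_conj_eq] at hg ⊢
  exact (map_lowerCentralSeries J _ i).trans (congrArg (fun S => S.lowerCentralSeries i) hg)

lemma lcs_comm {J : Subgroup G} {i : ℕ} {u x : G} (hu : u ∈ J.lowerCentralSeries i) (hx : x ∈ J) :
    ⁅u, x⁆ ∈ J.lowerCentralSeries (i + 1) := commutator_mem_commutator hu hx

lemma lcs_three {J : Subgroup G} {i : ℕ} {u x : G} (hu : u ∈ J.lowerCentralSeries i)
    (hx : x ∈ J.lowerCentralSeries 1) : ⁅u, x⁆ ∈ J.lowerCentralSeries (i + 2) := by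
  have hn := J.self_le_normalizer_lowerCentralSeries (i + 2)
  have huJ : u ∈ J := J.lowerCentralSeries_le_self i hu
  have : ⁅J, J⁆ ≤ cen J _ hn u := commutator_le.mpr fun x hx y hy =>
    ⟨J.lowerCentralSeries_le_self 1 (commutator_mem_commutator hx hy), by
      have e : ⁅u, ⁅x, y⁆⁆ = (x * u) * ⁅⁅u⁻¹, x⁻¹⁆, y⁆ * (x * u)⁻¹ *
          ((x * y) * ⁅⁅y⁻¹, u⁆, x⁻¹⁆ * (x * y)⁻¹) := by
        simp only [commutatorElement_def]; group
      rw [e]
      exact mul_mem (conj_mem (hn (J.mul_mem hx huJ))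
        (lcs_comm (lcs_comm (inv_mem hu) (inv_mem hx)) hy))
        (conj_mem (hn (J.mul_mem hx hy))
          (lcs_comm (comm_swap (lcs_comm hu (inv_mem hy))) (inv_mem hx)))⟩
  exact (this hx).2

/-- one step of the refinement -/
def st (g : G) (M N : Subgroup G) : Subgroup G where
  carrier := {u | u ∈ M ∧ ∀ m ∈ M, m⁻¹ * dl g u * m ∈ N}
  one_mem' := ⟨M.one_mem, fun m _ => by simp [dl]⟩
  mul_mem' := by
    rintro a b ⟨ha, ha'⟩ ⟨hb, hb'⟩
    refine ⟨M.mul_mem ha hb, fun m hm => ?_⟩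
    have : m⁻¹ * dl g (a * b) * m = (b * m)⁻¹ * dl g a * (b * m) * (m⁻¹ * dl g b * m) := by
      simp only [dl]; group
    rw [this]
    exact N.mul_mem (ha' _ (M.mul_mem hb hm)) (hb' m hm)
  inv_mem' := by
    rintro a ⟨ha, ha'⟩
    refine ⟨M.inv_mem ha, fun m hm => ?_⟩
    have : m⁻¹ * dl g a⁻¹ * m = ((a⁻¹ * m)⁻¹ * dl g a * (a⁻¹ * m))⁻¹ := by
      simp only [dl]; group
    rw [this]
    exact N.inv_mem (ha' _ (M.mul_mem (M.inv_mem ha) hm))

/-- the refined series -/
def AA (J : Subgroup G) (g : G) (i : ℕ) : ℕ → Subgroup G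
  | 0 => J.lowerCentralSeries (i + 1)
  | k + 1 => st g (J.lowerCentralSeries i) (AA J g i k)

variable {J : Subgroup G} {g : G}

lemma AA_le (i k : ℕ) : AA J g i k ≤ J.lowerCentralSeries i := by
  cases k with
  | zero => exact J.lowerCentralSeries_antitone (Nat.le_succ i)
  | succ k => exact fun u hu => hu.1

lemma dl_mem {N : Subgroup G} (hg : g ∈ normalizer (N : Set G)) {u : G} (hu : u ∈ N) :
    dl g u ∈ N := by
  have : dl g u = u⁻¹ * (g⁻¹ * u * g) := by simp only [dl]; group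
  rw [this]
  exact N.mul_mem (N.inv_mem hu) (conj_mem' hg hu)

lemma le_AA (hg : g ∈ normalizer (J : Set G)) (i k : ℕ) :
    J.lowerCentralSeries (i + 1) ≤ AA J g i k := by
  induction k with
  | zero => exact le_rfl
  | succ k ih =>
    exact fun u hu => ⟨J.lowerCentralSeries_antitone (Nat.le_succ i) hu, fun m hm =>
      ih (conj_mem' (J.self_le_normalizer_lowerCentralSeries _
        (J.lowerCentralSeries_le_self i hm)) (dl_mem (norm_lcs hg _) hu))⟩

lemma J_norm_AA (hg : g ∈ normalizer (J : Set G)) (i k : ℕ) :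
    J ≤ normalizer (AA J g i k : Set G) := le_normalizer_iff.mpr fun w hw u hu => by
  have : w * u * w⁻¹ = ⁅w, u⁆ * u := by simp only [commutatorElement_def]; group
  rw [this]
  exact mul_mem (le_AA hg i k (comm_swap (lcs_comm (AA_le i k hu) hw))) hu

lemma mem_AA (hg : g ∈ normalizer (J : Set G)) {i k : ℕ} {u : G} :
    u ∈ AA J g i (k + 1) ↔ u ∈ J.lowerCentralSeries i ∧ dl g u ∈ AA J g i k :=
  ⟨fun h => ⟨h.1, by simpa using h.2 1 (one_mem _)⟩, fun h => ⟨h.1, fun m hm =>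
    conj_mem' (J_norm_AA hg i k (J.lowerCentralSeries_le_self i hm)) h.2⟩⟩

lemma g_norm_AA (hg : g ∈ normalizer (J : Set G)) (i k : ℕ) :
    g ∈ normalizer (AA J g i k : Set G) := by
  induction k with
  | zero => exact norm_lcs hg _
  | succ k ih =>
    refine mem_normalizer_iff.mpr fun u => ?_
    have : dl g (g * u * g⁻¹) = g * dl g u * g⁻¹ := by simp only [dl]; group
    rw [mem_AA hg, mem_AA hg, this, ← mem_normalizer_iff.mp ih,
      ← mem_normalizer_iff.mp (norm_lcs hg i)]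

lemma AA_comm (hg : g ∈ normalizer (J : Set G)) (i : ℕ) : ∀ (t k l : ℕ), k + l = t →
    ∀ u ∈ AA J g i k, ∀ x ∈ AA J g 0 l, ⁅u, x⁆ ∈ AA J g (i + 1) (k + l) := by
  intro t
  induction t with
  | zero =>
    intro k l hkl u hu x hx
    obtain rfl : k = 0 := by omega
    exact le_AA hg _ _ (lcs_comm hu (AA_le 0 l hx))
  | succ t ih =>
    intro k l hkl u hu x hx
    rcases k with _ | k
    · exact le_AA hg _ _ (lcs_comm hu (AA_le 0 l hx))
    rcases l with _ | l
    · exact le_AA hg _ _ (lcs_three (AA_le i _ hu) hx)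
    have hu' := (mem_AA hg).mp hu
    have hx' := (mem_AA hg).mp hx
    have huJ : u ∈ J := J.lowerCentralSeries_le_self i hu'.1
    have hc := lcs_comm hu'.1 hx'.1
    refine (mem_AA hg (k := k + 1 + l)).mpr ⟨hc, ?_⟩
    have h1 := ih k (l + 1) (by omega) _ hu'.2 _ (conj_mem' (g_norm_AA hg 0 (l + 1)) hx)
    have h2 := ih (k + 1) l (by omega) _ hu _ hx'.2
    rw [show k + (l + 1) = k + 1 + l by omega] at h1
    have e : dl g ⁅u, x⁆ = ⁅u, x⁆⁻¹ * (u * ⁅dl g u, g⁻¹ * x * g⁆ * u⁻¹) * ⁅u, x⁆ *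
        (x * ⁅u, dl g x⁆ * x⁻¹) := by
      simp only [dl, commutatorElement_def]; group
    have hn := J_norm_AA hg (i + 1) (k + 1 + l)
    rw [e]
    exact mul_mem (conj_mem' (hn (J.lowerCentralSeries_le_self _ hc)) (conj_mem (hn huJ) h1))
      (conj_mem (hn hx'.1) h2)

lemma mem_AA_of_iter (hg : g ∈ normalizer (J : Set G)) : ∀ (k : ℕ) (u : G), u ∈ J →
    (dl g)^[k] u = 1 → u ∈ AA J g 0 k := by
  intro k
  induction k with
  | zero =>
    intro u _ h
    rw [show u = 1 from h]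
    exact one_mem _
  | succ k ih => exact fun u hu h => (mem_AA hg).mpr ⟨hu, ih _ (dl_mem hg hu) h⟩

lemma lcs_le_AA (hg : g ∈ normalizer (J : Set G)) {n : ℕ} (h : J ≤ AA J g 0 n) (i : ℕ) :
    J.lowerCentralSeries i ≤ AA J g i ((i + 1) * n) := by
  induction i with
  | zero => simpa using h
  | succ i ih =>
    refine commutator_le.mpr fun u hu x hx => ?_
    rw [add_mul (i + 1), one_mul]
    exact AA_comm hg i _ _ _ rfl u (ih hu) x (h hx)

lemma sup_le_cen {N : Subgroup G} (hN : J ⊔ zpowers g ≤ normalizer (N : Set G)) {u : G}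
    (h1 : ∀ w ∈ J, ⁅u, w⁆ ∈ N) (h2 : ⁅u, g⁻¹⁆ ∈ N) : ∀ w ∈ J ⊔ zpowers g, ⁅u, w⁆ ∈ N := by
  have : J ⊔ zpowers g ≤ cen _ N hN u := sup_le (fun w hw => ⟨mem_sup_left hw, h1 w hw⟩)
    (zpowers_le.mpr (by
      simpa using (cen _ N hN u).inv_mem ⟨mem_sup_right (inv_mem (mem_zpowers g)), h2⟩))
  exact fun w hw => (this hw).2

lemma lcs_sup_step (hg : g ∈ normalizer (J : Set G)) (i : ℕ) : ∀ k t : ℕ,
    (J ⊔ zpowers g).lowerCentralSeries t ≤ AA J g i k →
      (J ⊔ zpowers g).lowerCentralSeries (t + k) ≤ J.lowerCentralSeries (i + 1) := by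
  intro k
  induction k with
  | zero => exact fun t h => h
  | succ k ih =>
    intro t h
    rw [show t + (k + 1) = t + 1 + k by omega]
    refine ih (t + 1) (commutator_le.mpr fun u hu => sup_le_cen
      (sup_le (J_norm_AA hg i k) (zpowers_le.mpr (g_norm_AA hg i k)))
      (fun w hw => le_AA hg i k (lcs_comm (AA_le i _ (h hu)) hw)) ?_)
    have : ⁅u, g⁻¹⁆ = dl g u⁻¹ := by simp only [dl, commutatorElement_def]; group
    rw [this]
    exact ((mem_AA hg).mp (inv_mem (h hu))).2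

/-- the class bound -/
def bd (n : ℕ) : ℕ → ℕ
  | 0 => 1
  | i + 1 => bd n i + (i + 1) * n

theorem lcs_sup_le {S : Set G} {n : ℕ} (hg : g ∈ normalizer (closure S : Set G))
    (hS : ∀ s ∈ S, (dl g)^[n] s = 1) (i : ℕ) :
    (closure S ⊔ zpowers g).lowerCentralSeries (bd n i) ≤ (closure S).lowerCentralSeries i := by
  have h0 : closure S ≤ AA (closure S) g 0 n :=
    (closure_le _).mpr fun s hs => mem_AA_of_iter hg n s (subset_closure hs) (hS s hs)
  induction i with
  | zero =>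
    have hN : closure S ⊔ zpowers g ≤ normalizer (closure S : Set G) :=
      sup_le le_normalizer (zpowers_le.mpr hg)
    refine commutator_le.mpr fun u hu => sup_le_cen hN
      (fun w hw => mul_mem (conj_mem (hN hu) hw) (inv_mem hw)) (comm_swap (sup_le_cen hN
        (fun w hw => mul_mem (conj_mem (inv_mem hg) hw) (inv_mem hw)) (by simp) u hu))
  | succ i ih => exact lcs_sup_step hg i _ _ (ih.trans (lcs_le_AA hg h0 i))

lemma iter_mem_lcs {W : Subgroup G} (hg : g ∈ W) {u : G} (hu : u ∈ W) (t : ℕ) :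
    (dl g)^[t] u ∈ W.lowerCentralSeries t := by
  induction t with
  | zero => exact hu
  | succ t ih =>
    have : dl g ((dl g)^[t] u) = ⁅((dl g)^[t] u)⁻¹, g⁻¹⁆ := by
      simp only [dl, commutatorElement_def, inv_inv]
    rw [Function.iterate_succ_apply', this]
    exact lcs_comm (inv_mem ih) (inv_mem hg)

end Pool.Agent.Lib.MP_a2eab4_al
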